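import Pool.Agent.Lib.TWPL.Vand
import Pool.Agent.Lib.TWLG64.E2s
import Pool.Agent.Lib.TWS.Tr

/-!
# CT, j = 1, `RowB`: Lemma R (real substitutions)

The translations `T c` of `Ω` over `W` have `w ↦ w + c 0`, `u ↦ u + U(c 0) + c 1`, where the
coefficients of `U` are limits of `C`. For `θ` over `W` near `z` and `f` real near `U` the polynomial
`Z(s, c + (f - U)(s))` is near `θ(w + s, u + f(s) + c) - θ(w, u)`, which is real; the same for the tie.

* `trf w u f`: the real substitution, `sbU δ`: the shift `c ↦ c + δ(s)`;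
* `lemR`: Lemma R and its tie version; `exists_real`: the real `f`; `exists_lemR`: all together.
-/

set_option autoImplicit false

open MvPolynomial

namespace Pool.Agent.TWRB

open Pool.Agent.H15JM (RVal)
open Pool.Agent.D2 (Ctx0)
open Pool.Agent.TWM
open Pool.Agent.TWS (IsoE)
open Pool.Agent.TWLY
open Pool.Agent.TWPL (ptk vand_ge2)
open Pool.Agent.TWLG64 (Fil)

universe u

variable {k Ω : Type u} [Field k] [Field Ω] [Algebra k Ω] {v : RVal Ω}

/-- The real substitution `w ↦ w + s`, `u ↦ u + c + f(s)`. -/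
noncomputable def trf (w u : Ω) (f : Polynomial Ω) :
    MvPolynomial (Fin 2) Ω →ₐ[Ω] MvPolynomial (Fin 2) Ω :=
  aeval ![C w + X 0, C u + X 1 + Polynomial.aeval (X 0) f]

/-- The shift `c ↦ c + δ(s)`. -/
noncomputable def sbU (δ : Polynomial Ω) : MvPolynomial (Fin 2) Ω →ₐ[Ω] MvPolynomial (Fin 2) Ω :=
  aeval ![X 0, X 1 + Polynomial.aeval (X 0) δ]

theorem sbU_X0 (δ : Polynomial Ω) : sbU δ (X 0) = X 0 := by
  simp [sbU]

theorem sbU_X1 (δ : Polynomial Ω) : sbU δ (X 1) = X 1 + Polynomial.aeval (X 0) δ := by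
  simp [sbU]

theorem sbU_C (δ : Polynomial Ω) (a : Ω) : sbU δ (C a) = C a := by
  simp [sbU]

theorem sbU_aeval (δ f : Polynomial Ω) :
    sbU δ (Polynomial.aeval (X 0 : MvPolynomial (Fin 2) Ω) f) =
      Polynomial.aeval (X 0 : MvPolynomial (Fin 2) Ω) f := by
  rw [← Polynomial.aeval_algHom_apply, sbU_X0]

theorem sbU_trf (w u : Ω) (f δ : Polynomial Ω) (F : MvPolynomial (Fin 2) Ω) :
    sbU δ (trf w u f F) = trf w u (f + δ) F := by
  have h : (sbU δ).comp (trf w u f) = trf w u (f + δ) := by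
    refine MvPolynomial.algHom_ext fun i => ?_
    fin_cases i
    · simp [trf, sbU_X0]
    · simp only [trf, AlgHom.comp_apply, aeval_X, Fin.mk_one, Matrix.cons_val_one,
        Matrix.cons_val_fin_one, map_add, sbU_C, sbU_X1, sbU_aeval]
      ring
  exact DFunLike.congr_fun h F

theorem eval_trf (w u : Ω) (f : Polynomial Ω) (F : MvPolynomial (Fin 2) Ω) (c : Fin 2 → k) :
    eval (ptk Ω c) (trf w u f F) = eval ![w + algebraMap k Ω (c 0),
      u + f.eval (algebraMap k Ω (c 0)) + algebraMap k Ω (c 1)] F := by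
  have h : (eval (ptk Ω c)).comp (trf w u f : MvPolynomial (Fin 2) Ω →+* MvPolynomial (Fin 2) Ω) =
      eval ![w + algebraMap k Ω (c 0),
        u + f.eval (algebraMap k Ω (c 0)) + algebraMap k Ω (c 1)] := by
    refine MvPolynomial.ringHom_ext (fun a => ?_) fun i => ?_
    · simp [trf]
    · have hf : eval (ptk Ω c) (Polynomial.aeval (X 0 : MvPolynomial (Fin 2) Ω) f) =
          f.eval (algebraMap k Ω (c 0)) := by
        rw [Polynomial.aeval_eq_sum_range, map_sum, Polynomial.eval_eq_sum_range]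
        refine Finset.sum_congr rfl fun j _ => ?_
        rw [smul_eq_C_mul, map_mul, eval_C, map_pow, eval_X]
        rfl
      fin_cases i
      · simp [trf, ptk]
      · simp only [trf, RingHom.comp_apply, RingHom.coe_coe, aeval_X, Fin.mk_one,
          Matrix.cons_val_one, Matrix.cons_val_fin_one, map_add, eval_C, eval_X, hf, ptk]
        ring
  exact DFunLike.congr_fun h F

/-- A map which fixes the coefficients. -/
theorem map_eval_W {W : IntermediateField k Ω} {T : Ω →ₐ[k] Ω} (fix : ∀ f ∈ W, T f = f)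
    {F : MvPolynomial (Fin 2) Ω} (hF : ∀ g, coeff g F ∈ W) (w u : Ω) :
    T (eval ![w, u] F) = eval ![T w, T u] F := by
  rw [eval_eq', eval_eq', map_sum]
  refine Finset.sum_congr rfl fun g _ => ?_
  rw [map_mul, fix _ (hF g), map_prod]
  congr 1
  refine Finset.prod_congr rfl fun i _ => ?_
  rw [map_pow]
  fin_cases i <;> rfl

theorem wt_w0 (β : Ex) : wt (fun _ => (0 : ℝ)) β = 0 := by
  simp [wt]

/-- The size of a shifted polynomial. -/
theorem ge_sbU (hk : Ctx0 k v) {δ : Polynomial Ω} {a b : ℝ} (hb : 0 ≤ b)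
    (hδ : ∀ j, v.Ge (-b) (δ.coeff j)) {F : MvPolynomial (Fin 2) Ω}
    (hF : ∀ β, v.Ge (-a) (coeff β F)) {N : ℕ} (hN : ∀ m ∈ F.support, m 1 ≤ N) (β : Ex) :
    v.Ge (-(a + N * b)) (coeff β (sbU δ F)) := by
  classical
  have hw : ∀ {d : ℝ} {G : MvPolynomial (Fin 2) Ω}, Fil v (fun _ => (0 : ℝ)) d G →
      ∀ β, v.Ge (-d) (coeff β G) := fun h β => by
    have := h β
    rwa [wt_w0, zero_sub] at this
  refine hw ?_ β
  rw [F.as_sum, map_sum]
  refine Fil.sum _ _ fun m hm => ?_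
  have h1 : sbU δ (monomial m (coeff m F)) = C (coeff m F) * (X 0 ^ m 0 *
      (X 1 + Polynomial.aeval (X 0 : MvPolynomial (Fin 2) Ω) δ) ^ m 1) := by
    rw [monomial_eq, Finsupp.prod_fintype _ _ (by simp), Fin.prod_univ_two, map_mul, map_mul,
      map_pow, map_pow, sbU_C, sbU_X0, sbU_X1]
  rw [h1]
  have hphi : Fil v (fun _ => (0 : ℝ)) b
      (X 1 + Polynomial.aeval (X 0 : MvPolynomial (Fin 2) Ω) δ) := by
    refine ((Fil.X hk 1).mono hb).add ?_
    rw [Polynomial.aeval_eq_sum_range]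
    refine Fil.sum _ _ fun j _ => ?_
    rw [smul_eq_C_mul]
    have h2 := (Fil.C (w := fun _ => (0 : ℝ)) (hδ j)).mul ((Fil.X hk 0).pow hk j)
    refine h2.mono ?_
    simp
  have h2 := (Fil.C (w := fun _ => (0 : ℝ)) (hF m)).mul
    (((Fil.X hk 0).pow hk (m 0)).mul (hphi.pow hk (m 1)))
  refine h2.mono ?_
  have h3 : (m 1 : ℝ) ≤ N := by exact_mod_cast hN m hm
  have h4 : (m 1 : ℝ) * b ≤ N * b := mul_le_mul_of_nonneg_right h3 hb
  linarith [mul_zero (m 0 : ℝ)]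

/-- A bound for the exponents of `c`. -/
theorem exists_deg (F : MvPolynomial (Fin 2) Ω) : ∃ N : ℕ, ∀ m ∈ F.support, m 1 ≤ N :=
  ⟨F.support.sup fun m => m 1, fun _ hm => Finset.le_sup (f := fun m : Ex => m 1) hm⟩

/-- The polynomials with coefficients in `F`. -/
def PF (F : IntermediateField k Ω) : Subalgebra k (MvPolynomial (Fin 2) Ω) where
  carrier := {G | ∀ g, coeff g G ∈ F}
  mul_mem' := fun {G H} hG hH g => by
    classical
    rw [coeff_mul]
    exact sum_mem fun q _ => mul_mem (hG _) (hH _)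
  add_mem' := fun {G H} hG hH g => by
    rw [coeff_add]
    exact add_mem (hG _) (hH _)
  algebraMap_mem' := fun c g => by
    classical
    rw [IsScalarTower.algebraMap_apply k Ω (MvPolynomial (Fin 2) Ω), algebraMap_eq, coeff_C]
    split_ifs
    · exact F.algebraMap_mem c
    · exact zero_mem _

theorem mem_PF {F : IntermediateField k Ω} {G : MvPolynomial (Fin 2) Ω} :
    G ∈ PF F ↔ ∀ g, coeff g G ∈ F := Iff.rfl

theorem C_mem_PF {F : IntermediateField k Ω} {a : Ω} (ha : a ∈ F) :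
    (C a : MvPolynomial (Fin 2) Ω) ∈ PF F := fun g => by
  classical
  rw [coeff_C]
  split_ifs
  · exact ha
  · exact zero_mem _

theorem X_mem_PF (F : IntermediateField k Ω) (i : Fin 2) :
    (X i : MvPolynomial (Fin 2) Ω) ∈ PF F := fun g => by
  classical
  rw [coeff_X]
  split_ifs
  · exact one_mem _
  · exact zero_mem _

theorem aeval_mem_PF {F : IntermediateField k Ω} {f : Polynomial Ω} (hf : ∀ j, f.coeff j ∈ F) :
    Polynomial.aeval (X 0 : MvPolynomial (Fin 2) Ω) f ∈ PF F := by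
  rw [Polynomial.aeval_eq_sum_range]
  refine sum_mem fun j _ => ?_
  rw [smul_eq_C_mul]
  exact mul_mem (C_mem_PF (hf j)) (pow_mem (X_mem_PF F 0) j)

/-- The real substitution is real. -/
theorem trf_mem {F : IntermediateField k Ω} {w u : Ω} (hw : w ∈ F) (hu : u ∈ F)
    {f : Polynomial Ω} (hf : ∀ j, f.coeff j ∈ F) {θ : MvPolynomial (Fin 2) Ω}
    (hθ : ∀ g, coeff g θ ∈ F) (g : Ex) : coeff g (trf w u f θ) ∈ F := by
  refine mem_PF.1 ?_ g
  rw [θ.as_sum, map_sum]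
  refine sum_mem fun m _ => ?_
  rw [trf, aeval_monomial, Finsupp.prod_fintype _ _ (by simp), Fin.prod_univ_two]
  refine mul_mem (C_mem_PF (hθ m)) (mul_mem (pow_mem ?_ _) (pow_mem ?_ _))
  · exact add_mem (C_mem_PF hw) (X_mem_PF F 0)
  · exact add_mem (add_mem (C_mem_PF hu) (X_mem_PF F 1)) (aeval_mem_PF hf)

section main

variable {W : IntermediateField k Ω} {w u z x : Ω} {T : (Fin 2 → k) → Ω →ₐ[k] Ω}
  {U : Polynomial Ω} {Z : MvPolynomial (Fin 2) Ω}

/-- `θ(w + s, u + U(s) + c) - θ(w, u)` is near `Z`. -/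
theorem ge_trf [Infinite k] (hk : Ctx0 k v) (iso : ∀ c, IsoE v v (T c))
    (fix : ∀ c, ∀ f ∈ W, T c f = f) (hw : ∀ c, T c w = w + algebraMap k Ω (c 0))
    (hu : ∀ c, T c u = u + U.eval (algebraMap k Ω (c 0)) + algebraMap k Ω (c 1))
    (hZ : ∀ c, v.Ge 0 (T c z - z - eval (ptk Ω c) Z)) {ε : ℝ} (hε : 0 ≤ ε)
    {θ : MvPolynomial (Fin 2) Ω} (hθ : ∀ g, coeff g θ ∈ W)
    (h1 : v.Ge (-ε) (z - eval ![w, u] θ)) (β : Ex) :
    v.Ge (-ε) (coeff β (Z - (trf w u U θ - C (eval ![w, u] θ)))) := by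
  refine vand_ge2 (k := k) hk (fun c => ?_) β
  have h2 : eval (ptk Ω c) (trf w u U θ) = T c (eval ![w, u] θ) := by
    rw [map_eval_W (fix c) hθ, hw, hu, eval_trf]
  have h3 : eval (ptk Ω c) (Z - (trf w u U θ - C (eval ![w, u] θ))) =
      (T c (z - eval ![w, u] θ) - (z - eval ![w, u] θ)) - (T c z - z - eval (ptk Ω c) Z) := by
    rw [map_sub, map_sub, eval_C, h2, map_sub]
    ring
  rw [h3]
  exact (((iso c).ge_iff.2 h1).sub h1).sub ((hZ c).mono (by linarith))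

/-- The real polynomial of an element of size `≤ ε`. -/
theorem ge_trf0 [Infinite k] (hk : Ctx0 k v) (iso : ∀ c, IsoE v v (T c))
    (fix : ∀ c, ∀ f ∈ W, T c f = f) (hw : ∀ c, T c w = w + algebraMap k Ω (c 0))
    (hu : ∀ c, T c u = u + U.eval (algebraMap k Ω (c 0)) + algebraMap k Ω (c 1)) {r : ℝ}
    {E : MvPolynomial (Fin 2) Ω} (hE : ∀ g, coeff g E ∈ W) (h1 : v.Ge r (eval ![w, u] E))
    (β : Ex) : v.Ge r (coeff β (trf w u U E)) := by
  refine vand_ge2 (k := k) hk (fun c => ?_) β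
  rw [eval_trf, ← hw, ← hu, ← map_eval_W (fix c) hE]
  exact (iso c).ge_iff.2 h1

/-- **Lemma R**, with its tie version. -/
theorem lemR [Infinite k] (hk : Ctx0 k v) (iso : ∀ c, IsoE v v (T c))
    (fix : ∀ c, ∀ f ∈ W, T c f = f) (hw : ∀ c, T c w = w + algebraMap k Ω (c 0))
    (hu : ∀ c, T c u = u + U.eval (algebraMap k Ω (c 0)) + algebraMap k Ω (c 1))
    (hZ : ∀ c, v.Ge 0 (T c z - z - eval (ptk Ω c) Z)) {p : ℕ} {e : k} {κ : ℕ → k} {t : ℕ}
    (hx : x ∈ W) {Pa : MvPolynomial (Fin 2) Ω} (hPa : ∀ g, coeff g Pa ∈ W) {ε ε' : ℝ} (hε : 0 ≤ ε)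
    (hε' : ε < ε') {θ h : MvPolynomial (Fin 2) Ω} (hθ : ∀ g, coeff g θ ∈ W)
    (hh : ∀ g, coeff g h ∈ W) (h1 : v.Ge (-ε) (z - eval ![w, u] θ))
    (h2 : v.Ge (-ε) (algebraMap k Ω e * eval ![w, u] θ + x * PP p κ t (eval ![w, u] θ) +
      eval ![w, u] Pa - eval ![w, u] h ^ p)) :
    ∃ ε₀ > 0, ∀ f : Polynomial Ω, (∀ j, v.Ge (-ε₀) ((f - U).coeff j)) →
      (∀ β, v.Ge (-ε') (coeff β (sbU (f - U) Z - (trf w u f θ - C (eval ![w, u] θ))))) ∧
      ∀ β, v.Ge (-ε') (coeff β (C (algebraMap k Ω e) * trf w u f θ +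
        C x * PP p κ t (trf w u f θ) + trf w u f Pa - trf w u f h ^ p)) := by
  classical
  -- the polynomials over `W`
  set E : MvPolynomial (Fin 2) Ω := C (algebraMap k Ω e) * θ + C x * PP p κ t θ + Pa - h ^ p
    with hE
  have hθ' : θ ∈ PF W := hθ
  have hEW : E ∈ PF W := by
    refine sub_mem (add_mem (add_mem (mul_mem (C_mem_PF (W.algebraMap_mem e)) hθ')
      (mul_mem (C_mem_PF hx) ?_)) hPa) (pow_mem (show h ∈ PF W from hh) p)
    unfold PP
    exact sum_mem fun i _ => mul_mem ((PF W).algebraMap_mem _) (pow_mem hθ' _)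
  have hPPe : ∀ (y : Fin 2 → Ω) (F : MvPolynomial (Fin 2) Ω),
      eval y (PP p κ t F) = PP p κ t (eval y F) := fun y F => by
    have : ∀ G : MvPolynomial (Fin 2) Ω, eval y G = (MvPolynomial.aeval (R := Ω) y) G := fun G => by
      rw [← MvPolynomial.coe_aeval_eq_eval]
      rfl
    rw [this, this, ← AlgHom.restrictScalars_apply k, PP_map]
    rfl
  have hEe : eval ![w, u] E = algebraMap k Ω e * eval ![w, u] θ +
      x * PP p κ t (eval ![w, u] θ) + eval ![w, u] Pa - eval ![w, u] h ^ p := by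
    rw [hE, map_sub, map_add, map_add, map_mul, map_mul, map_pow, eval_C, eval_C, hPPe]
  have hEt : ∀ f : Polynomial Ω, trf w u f E = C (algebraMap k Ω e) * trf w u f θ +
      C x * PP p κ t (trf w u f θ) + trf w u f Pa - trf w u f h ^ p := fun f => by
    have hCf : ∀ a : Ω, trf w u f (C a) = C a := fun a => by simp [trf]
    have h3 : trf w u f (PP p κ t θ) = PP p κ t (trf w u f θ) := by
      rw [← AlgHom.restrictScalars_apply k (trf w u f), PP_map]
      rfl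
    rw [hE, map_sub, map_add, map_add, map_mul, map_mul, map_pow, hCf, hCf, h3]
  rw [← hEe] at h2
  -- the two polynomials
  set D₁ := Z - (trf w u U θ - C (eval ![w, u] θ)) with hD₁
  set D₂ := trf w u U E with hD₂
  have g1 : ∀ β, v.Ge (-ε) (coeff β D₁) := ge_trf hk iso fix hw hu hZ hε hθ h1
  have g2 : ∀ β, v.Ge (-ε) (coeff β D₂) := ge_trf0 hk iso fix hw hu hEW h2
  obtain ⟨N₁, hN₁⟩ := exists_deg D₁
  obtain ⟨N₂, hN₂⟩ := exists_deg D₂
  have hM : (0 : ℝ) < N₁ + N₂ + 1 := by positivity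
  refine ⟨(ε' - ε) / (N₁ + N₂ + 1), div_pos (by linarith) hM, fun f hf => ?_⟩
  set ε₀ := (ε' - ε) / (N₁ + N₂ + 1) with hε₀
  have he0 : 0 ≤ ε₀ := (div_pos (by linarith) hM).le
  have hmul : (N₁ + N₂ + 1) * ε₀ = ε' - ε := by
    rw [hε₀]
    field_simp
  have hb1 : ε + N₁ * ε₀ ≤ ε' := by
    have : (0 : ℝ) ≤ (N₂ + 1) * ε₀ := by positivity
    nlinarith
  have hb2 : ε + N₂ * ε₀ ≤ ε' := by
    have : (0 : ℝ) ≤ (N₁ + 1) * ε₀ := by positivity
    nlinarith
  have hUf : U + (f - U) = f := by ring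
  refine ⟨fun β => ?_, fun β => ?_⟩
  · have h3 := ge_sbU hk he0 hf g1 hN₁ β
    have h4 : sbU (f - U) D₁ = sbU (f - U) Z - (trf w u f θ - C (eval ![w, u] θ)) := by
      rw [hD₁, map_sub, map_sub, sbU_C, sbU_trf, hUf]
    rw [h4] at h3
    exact h3.mono (by linarith)
  · have h3 := ge_sbU hk he0 hf g2 hN₂ β
    rw [hD₂, sbU_trf, hUf, hEt] at h3
    exact h3.mono (by linarith)

end main

/-- The real polynomials near `U`. -/
theorem exists_real {A : IntermediateField k Ω} (U : Polynomial Ω)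
    (hU : ∀ j, Lim v A 0 (U.coeff j)) {ε : ℝ} (hε : 0 < ε) :
    ∃ f : Polynomial Ω, (∀ j, f.coeff j ∈ A) ∧ (∀ j, U.coeff j ∈ A → f.coeff j = U.coeff j) ∧
      ∀ j, v.Ge (-ε) ((f - U).coeff j) := by
  classical
  have h : ∀ j, ∃ a ∈ A, (U.coeff j ∈ A → a = U.coeff j) ∧ v.Ge (-ε) (a - U.coeff j) := by
    intro j
    by_cases hj : U.coeff j ∈ A
    · exact ⟨_, hj, fun _ => rfl, by rw [sub_self]; exact RVal.Ge.zero⟩
    · obtain ⟨a, ha, h1⟩ := hU j ε hε
      refine ⟨a, ha, fun h => absurd h hj, ?_⟩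
      rw [zero_sub] at h1
      rw [← neg_sub]
      exact h1.neg
  choose a ha ha1 ha2 using h
  have h0 : ∀ j, U.natDegree < j → a j = 0 := fun j hj => by
    have h1 : U.coeff j = 0 := Polynomial.coeff_eq_zero_of_natDegree_lt hj
    rw [ha1 j (by rw [h1]; exact zero_mem _), h1]
  set f : Polynomial Ω := ∑ j ∈ Finset.range (U.natDegree + 1), Polynomial.monomial j (a j) with hf
  have hc : ∀ j, f.coeff j = a j := by
    intro j
    rw [hf, Polynomial.finsetSum_coeff]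
    simp_rw [Polynomial.coeff_monomial]
    rw [Finset.sum_ite_eq']
    split_ifs with h1
    · rfl
    · rw [h0 j (by rw [Finset.mem_range] at h1; omega)]
  refine ⟨f, fun j => ?_, fun j hj => ?_, fun j => ?_⟩
  · rw [hc]
    exact ha j
  · rw [hc]
    exact ha1 j hj
  · rw [Polynomial.coeff_sub, hc]
    exact ha2 j

/-- **Lemma R**, all together: for every `ε > 0` there are `θ`, `h` over `W` (as in the tie) and a
real `f` near `U`. -/
theorem exists_lemR [Infinite k] {W A : IntermediateField k Ω} {w u z x : Ω}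
    {T : (Fin 2 → k) → Ω →ₐ[k] Ω} {U : Polynomial Ω} {Z : MvPolynomial (Fin 2) Ω}
    (hk : Ctx0 k v) (iso : ∀ c, IsoE v v (T c))
    (fix : ∀ c, ∀ f ∈ W, T c f = f) (hw : ∀ c, T c w = w + algebraMap k Ω (c 0))
    (hu : ∀ c, T c u = u + U.eval (algebraMap k Ω (c 0)) + algebraMap k Ω (c 1))
    (hU : ∀ j, Lim v A 0 (U.coeff j))
    (hZ : ∀ c, v.Ge 0 (T c z - z - eval (ptk Ω c) Z)) {p : ℕ} {e : k} {κ : ℕ → k} {t : ℕ}
    (hx : x ∈ W) {Pa : MvPolynomial (Fin 2) Ω} (hPa : ∀ g, coeff g Pa ∈ W)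
    {Q : MvPolynomial (Fin 2) Ω → Prop}
    (tie : ∀ ε : ℝ, 0 < ε → ∃ θ h : MvPolynomial (Fin 2) Ω, (∀ g, coeff g θ ∈ W) ∧
      (∀ g, coeff g h ∈ W) ∧ Q θ ∧ v.Ge (-ε) (z - eval ![w, u] θ) ∧
      v.Ge (-ε) (algebraMap k Ω e * eval ![w, u] θ + x * PP p κ t (eval ![w, u] θ) +
        eval ![w, u] Pa - eval ![w, u] h ^ p)) {ε : ℝ} (hε : 0 < ε) :
    ∃ θ h : MvPolynomial (Fin 2) Ω, (∀ g, coeff g θ ∈ W) ∧ (∀ g, coeff g h ∈ W) ∧ Q θ ∧
      v.Ge (-ε) (z - eval ![w, u] θ) ∧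
      v.Ge (-ε) (algebraMap k Ω e * eval ![w, u] θ + x * PP p κ t (eval ![w, u] θ) +
        eval ![w, u] Pa - eval ![w, u] h ^ p) ∧
      ∃ f : Polynomial Ω, (∀ j, f.coeff j ∈ A) ∧ (∀ j, U.coeff j ∈ A → f.coeff j = U.coeff j) ∧
        (∀ j, v.Ge (-ε) ((f - U).coeff j)) ∧
        (∀ β, v.Ge (-ε) (coeff β (sbU (f - U) Z - (trf w u f θ - C (eval ![w, u] θ))))) ∧
        ∀ β, v.Ge (-ε) (coeff β (C (algebraMap k Ω e) * trf w u f θ +
          C x * PP p κ t (trf w u f θ) + trf w u f Pa - trf w u f h ^ p)) := by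
  obtain ⟨θ, h, hθ, hh, hq, h1, h2⟩ := tie (ε / 2) (half_pos hε)
  obtain ⟨ε₀, he0, h3⟩ := lemR hk iso fix hw hu hZ hx hPa (half_pos hε).le (half_lt_self hε)
    hθ hh h1 h2
  obtain ⟨f, hf1, hf2, hf3⟩ := exists_real U hU (lt_min he0 hε)
  have h4 := h3 f fun j => (hf3 j).mono (neg_le_neg (min_le_left _ _))
  exact ⟨θ, h, hθ, hh, hq, h1.mono (by linarith), h2.mono (by linarith), f, hf1, hf2,
    fun j => (hf3 j).mono (neg_le_neg (min_le_right _ _)), h4.1, h4.2⟩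

end Pool.Agent.TWRB
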