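import Pool.Agent.Lib.TWRB.R2
import Pool.Agent.Lib.TWRB.LemR
import Pool.Agent.Lib.TWCU.Bstar

/-!
# RowB, R5: the substitution, back substitution

`shU t F = F(s, c + t(s))`; `dt d t F`: the linear map `d`, applied to the coefficients of
`F(s, T - t(s))`, at `T = c + t(s)`. For a real `U_f`, `δ = U_f - U`:
* `back`: `shU (τδ) (F(L)) = (shU δ F)(L_f)`;
* `zet_back`: `ζ_f = shU (τδ) ζ`; `Dc_shU_sub`: `d Z_f = shU δ (dt d U Z)`;
* `star_back`: the left side of `(a*)` at `f` is `shU (τδ)` of the one without `f`;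
-/

set_option autoImplicit false

open MvPolynomial

namespace Pool.Agent.TWRB

open Pool.Agent.H15JM (RVal)
open Pool.Agent.D2 (Ctx0)
open Pool.Agent.TWM
open Pool.Agent.TWS (IsoE SphC)
open Pool.Agent.TWLY
open Pool.Agent.TWCY
open Pool.Agent.TWCU
open Pool.Agent.TWLG64 (Fil)

universe u

variable {k Ω : Type u} [Field k] [Field Ω] [Algebra k Ω] {v : RVal Ω}
  {S₀ F M : IntermediateField k Ω}

/-! ## the substitution -/

section shU

variable {R : Type u} [CommRing R]

/-- `F(s, c + t(s))` -/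
noncomputable def shU (t : Polynomial R) : MvPolynomial (Fin 2) R →ₐ[R] MvPolynomial (Fin 2) R :=
  aeval ![X 0, X 1 + Polynomial.aeval (X 0) t]

@[simp] theorem shU_X0 (t : Polynomial R) : shU t (X 0) = X 0 := by
  rw [shU, aeval_X]
  rfl

@[simp] theorem shU_X1 (t : Polynomial R) : shU t (X 1) = X 1 + Polynomial.aeval (X 0) t := by
  rw [shU, aeval_X]
  rfl

theorem shU_aeval (t q : Polynomial R) :
    shU t (Polynomial.aeval (X 0) q) = Polynomial.aeval (X 0) q := by
  rw [← Polynomial.aeval_algHom_apply, shU_X0]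

theorem shU_shU (t t' : Polynomial R) (f : MvPolynomial (Fin 2) R) :
    shU t (shU t' f) = shU (t + t') f := by
  have h : (shU t).comp (shU t') = shU (t + t') := by
    refine algHom_ext fun i => ?_
    fin_cases i
    · simp
    · simp only [AlgHom.comp_apply, Fin.mk_one, shU_X1, map_add, shU_aeval]
      ring
  exact DFunLike.congr_fun h f

theorem shU_zero (f : MvPolynomial (Fin 2) R) : shU 0 f = f := by
  have h : (shU 0 : MvPolynomial (Fin 2) R →ₐ[R] _) = AlgHom.id R _ := by
    refine algHom_ext fun i => ?_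
    fin_cases i <;> simp
  rw [h]
  rfl

theorem shU_neg_shU (t : Polynomial R) (f : MvPolynomial (Fin 2) R) :
    shU (-t) (shU t f) = f := by
  rw [shU_shU, neg_add_cancel, shU_zero]

theorem shU_shU_neg (t : Polynomial R) (f : MvPolynomial (Fin 2) R) :
    shU t (shU (-t) f) = f := by
  rw [shU_shU, add_neg_cancel, shU_zero]

end shU

theorem sbU_eq (t : Polynomial Ω) : sbU t = shU t := rfl

/-- The right translation. -/
noncomputable def Lp (x : Ω) (Ψ : Polynomial Ω) : Fin 2 → MvPolynomial (Fin 2) Ω :=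
  ![X 0 + C x, X 1 + Polynomial.aeval (X 0) Ψ]

/-- The second coordinate of the right translation. -/
noncomputable def psi (τ : Ω →ₐ[k] Ω) (x y : Ω) (U : Polynomial Ω) : Polynomial Ω :=
  Polynomial.C y + U.map (τ : Ω →+* Ω) - U.comp (Polynomial.X + Polynomial.C x)

theorem aeval_Lp_aeval (x : Ω) (Ψ q : Polynomial Ω) :
    aeval (Lp x Ψ) (Polynomial.aeval (X 0 : MvPolynomial (Fin 2) Ω) q) =
      Polynomial.aeval (X 0) (q.comp (Polynomial.X + Polynomial.C x)) := by
  rw [← Polynomial.aeval_algHom_apply, aeval_X, Polynomial.aeval_comp]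
  congr 1
  rw [map_add, Polynomial.aeval_X, Polynomial.aeval_C, algebraMap_eq]
  rfl

variable {τ : Ω →ₐ[k] Ω} {x y Za : Ω} {U V : Polynomial Ω}

/-- **The back substitution.** -/
theorem back (τ : Ω →ₐ[k] Ω) (x y : Ω) (U V : Polynomial Ω) (f : MvPolynomial (Fin 2) Ω) :
    shU ((V - U).map (τ : Ω →+* Ω)) (aeval (Lp x (psi τ x y U)) f) =
      aeval (Lp x (psi τ x y V)) (shU (V - U) f) := by
  have h : (shU ((V - U).map (τ : Ω →+* Ω))).comp (aeval (Lp x (psi τ x y U))) =
      (aeval (Lp x (psi τ x y V))).comp (shU (V - U)) := by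
    refine algHom_ext fun i => ?_
    fin_cases i
    · simp only [AlgHom.comp_apply, Fin.zero_eta, shU_X0, aeval_X]
      change shU _ (X 0 + C x) = X 0 + C x
      rw [map_add, shU_X0, ← algebraMap_eq, AlgHom.commutes]
    · simp only [AlgHom.comp_apply, Fin.mk_one, shU_X1, aeval_X, map_add, aeval_Lp_aeval]
      change shU _ (X 1 + Polynomial.aeval (X 0) (psi τ x y U)) =
        X 1 + Polynomial.aeval (X 0) (psi τ x y V) + _
      rw [map_add, shU_X1, shU_aeval, add_assoc, add_assoc, ← map_add, ← map_add]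
      congr 2
      unfold psi
      rw [Polynomial.map_sub, Polynomial.sub_comp]
      ring
  exact DFunLike.congr_fun h f

theorem map_shU (τ : Ω →ₐ[k] Ω) (t : Polynomial Ω) (f : MvPolynomial (Fin 2) Ω) :
    MvPolynomial.map (τ : Ω →+* Ω) (shU t f) =
      shU (t.map (τ : Ω →+* Ω)) (MvPolynomial.map (τ : Ω →+* Ω) f) := by
  induction f using MvPolynomial.induction_on with
  | C a =>
    rw [← algebraMap_eq, AlgHom.commutes, algebraMap_eq, map_C, ← algebraMap_eq,
      AlgHom.commutes]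
  | add f g hf hg => rw [map_add, map_add, map_add, map_add, hf, hg]
  | mul_X f i hf =>
    rw [map_mul, map_mul, map_mul, map_mul, hf, map_X]
    congr 1
    fin_cases i
    · simp
    · simp only [Fin.mk_one, shU_X1, map_add, map_X]
      congr 1
      rw [Polynomial.aeval_def, Polynomial.aeval_def, Polynomial.hom_eval₂, map_X,
        Polynomial.eval₂_map]
      congr 1
      ext a
      simp

/-- **`ζ_f = ζ(s, c + τδ(s))`.** -/
theorem zet_back (τ : Ω →ₐ[k] Ω) (x y Za : Ω) (U V : Polynomial Ω)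
    (Z : MvPolynomial (Fin 2) Ω) :
    zet τ (Lp x (psi τ x y V)) Za (shU (V - U) Z) =
      shU ((V - U).map (τ : Ω →+* Ω)) (zet τ (Lp x (psi τ x y U)) Za Z) := by
  unfold zet
  rw [map_sub, map_add, back, map_shU]
  congr 2
  rw [← algebraMap_eq, AlgHom.commutes]

/-! ## linear maps -/

/-- The coefficients are in `S₀`. -/
theorem shU_lin (d : Ω →ₗ[S₀] Ω) {t : Polynomial Ω} (ht : ∀ j, t.coeff j ∈ S₀)
    (f : MvPolynomial (Fin 2) Ω) : Dc d (shU t f) = shU t (Dc d f) := by
  refine aeval_lin d fun m _ g => coeff_prod_mem (fun i g => ?_) m g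
  classical
  fin_cases i
  · change coeff g (X 0) ∈ S₀
    rw [coeff_X]
    split_ifs
    exacts [one_mem _, zero_mem _]
  · change coeff g (X 1 + Polynomial.aeval (X 0) t) ∈ S₀
    rw [coeff_add, coeff_X, Polynomial.aeval_eq_sum_range, coeff_sum]
    refine add_mem ?_ (sum_mem fun j _ => ?_)
    · split_ifs
      exacts [one_mem _, zero_mem _]
    · rw [coeff_smul, X_pow_eq_monomial, coeff_monomial, smul_eq_mul]
      refine mul_mem (ht j) ?_
      split_ifs
      exacts [one_mem _, zero_mem _]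

/-- `d`, applied to the coefficients of `f(s, T - t(s))`, at `T = c + t(s)`. -/
noncomputable def dt (d : Ω → Ω) (t : Polynomial Ω) (f : MvPolynomial (Fin 2) Ω) :
    MvPolynomial (Fin 2) Ω :=
  shU t (Dc d (shU (-t) f))

/-- It depends on `t` modulo the polynomials over the scalars only. -/
theorem dt_eq (d : Ω →ₗ[S₀] Ω) {t t' : Polynomial Ω} (h : ∀ j, (t' - t).coeff j ∈ S₀)
    (f : MvPolynomial (Fin 2) Ω) : dt d t' f = dt d t f := by
  unfold dt
  have e : shU (-t) f = shU (t' - t) (shU (-t') f) := by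
    rw [shU_shU]
    congr 1
    ring_nf
  rw [e, shU_lin d h, shU_shU]
  congr 1
  ring_nf

/-- **`d Z_f = (d^U Z)(s, c + δ(s))`.** -/
theorem Dc_shU (d : Ω →ₗ[S₀] Ω) (U : Polynomial Ω) {V : Polynomial Ω}
    (hV : ∀ j, V.coeff j ∈ S₀) (f : MvPolynomial (Fin 2) Ω) :
    Dc d (shU (V - U) f) = shU (V - U) (dt d U f) := by
  have e1 : shU (V - U) f = shU V (shU (-U) f) := by
    rw [shU_shU, sub_eq_add_neg]
  rw [e1, shU_lin d hV, dt, shU_shU, sub_add_cancel]

/-- **The left side of `(a*)` for a real `f`.** -/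
theorem star_back (τ : Ω →ₐ[k] Ω) (x y Za : Ω) (d : Ω →ₗ[S₀] Ω) (U : Polynomial Ω)
    {V : Polynomial Ω} (hV : ∀ j, V.coeff j ∈ S₀) (hτ : ∀ a ∈ S₀, τ a ∈ S₀)
    (Z : MvPolynomial (Fin 2) Ω) :
    aeval (Lp x (psi τ x y V)) (Dc d (shU (V - U) Z)) +
        Dc d (zet τ (Lp x (psi τ x y V)) Za (shU (V - U) Z)) =
      shU ((V - U).map (τ : Ω →+* Ω)) (aeval (Lp x (psi τ x y U)) (dt d U Z) +
        dt d (U.map (τ : Ω →+* Ω)) (zet τ (Lp x (psi τ x y U)) Za Z)) := by
  rw [Dc_shU d U hV, ← back, zet_back, Polynomial.map_sub, Dc_shU d, map_add]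
  intro j
  rw [Polynomial.coeff_map]
  exact hτ _ (hV j)

end Pool.Agent.TWRB
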