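import Pool.Agent.Lib.TWCY.Core
import Pool.Agent.Lib.TWRB.Sub
import Pool.Agent.Lib.TWLG64.E2s
import Pool.Agent.Lib.TWLG76.Good
import Pool.Agent.Lib.TWCT.J1S

/-!
# CT, j = 1, row B: the core (radii and level `0`), the data and the rows

`Ω` is the big field of the hull, `W` the Gauss extension of the tame closure of the base,
`B = W⟨w 0⟩`, `F = B⟨w 1⟩`, `K = F⟨z⟩`; `w 1` does not come from `W` and it is not hit.

* `HB`: the data which come from the real fields; `Frm`: the frame, isometries `T c`, `c ∈ k²`,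
  `w 0 ↦ w 0 + c 0`, `w 1 ↦ w 1 + U(c 0) + c 1`; no group law, `U` has coefficients in `lim_0 B`;
* `RecB`, `CB`: the other data and their properties (the shape `Z` of `z`, the tie by polynomials);
* `MoB`: a motion `τ`; `Lp`, `Psi`: the right translate `L = (s + X, c + Ψ(s))`,
  `Ψ(s) = Y + (τ U)(s) - U(s + X)`; `Rl`: a real approximation of `U`;
* `Fnl`: the `F`-linear functionals, `DFn`: the `F ^ p`-linear functionals;
* `Fo v w c F`: every coefficient has size `≤ 0` or combined weight `≤ c`;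
* the rows R1 - R15.
-/

set_option autoImplicit false

open MvPolynomial

namespace Pool.Agent.TWRB

open Pool.Agent.H15JM (RVal)
open Pool.Agent.LU1 (VPos)
open Pool.Agent.D2 (Ctx0)
open Pool.Agent.D2P (clI)
open Pool.Agent.TWM
open Pool.Agent.TWS (IsoE SphC)
open Pool.Agent.TWII (PG LP)
open Pool.Agent.TWN1 (Unh)
open Pool.Agent.TWRR (GP)
open Pool.Agent.TWCT (SMo MovV MovR Hit)
open Pool.Agent.TWLY
open Pool.Agent.TWCY
open Pool.Agent.TWCU (zet)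

universe u

variable {k Ω : Type u} [Field k] [Field Ω] [Algebra k Ω]

/-! ### Data -/

/-- The data which come from the real fields. -/
structure HB (p : ℕ) (v : RVal Ω) (L : ℕ → IntermediateField k Ω)
    (W B F K : IntermediateField k Ω) (w : Fin 2 → Ω) (x z a : Ω) : Prop where
  c0 : Ctx0 k v
  cv : CompleteV v
  sph : SphC v
  hval : ∀ r : ℝ, ∃ y : Ω, y ≠ 0 ∧ v y = r
  cld : Cld v W
  full : ∀ r : ℝ, ∃ y ∈ W, y ≠ 0 ∧ v y = r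
  gp : GP p v W
  xW : x ∈ W
  mono : Monotone L
  le : ∀ J, L J ≤ W
  dense : W ≤ clI v (⨆ J, L J)
  tw : TL v W (w 0) 0
  B_eq : B = cadj v W (w 0)
  tu : TL v B (w 1) 0
  F_eq : F = cadj v B (w 1)
  nh : ¬ Hit p v B (w 1) 0
  npar : ∀ g ∈ B, ¬ Lim v W 0 (w 1 - g)
  zt : TL v F z 0
  K_eq : K = cadj v F z
  aK : a ∈ K
  lp : LP p v K 0 a
  crit : ∀ g ∈ K, ¬ Gt v 0 (a - g ^ p)
  hit : ¬ Unh p v F K z 0 0 a
  mv : MovV v L W (w 0) 0 ∨ MovR v L W (w 0) 0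

/-- The derivations of `F`, of norm `≤ 0`, with values in `Ω`: `D` extends the derivation of the base,
`dd 0`, `dd 1` are the partial derivations. -/
structure DrvB (v : RVal Ω) (W B F : IntermediateField k Ω) (w : Fin 2 → Ω) (D : Ω → Ω)
    (dd : Fin 2 → Ω → Ω) : Prop where
  drv : Drv v F D
  drvi : ∀ i, Drv v F (dd i)
  DW : ∀ f ∈ W, D f ∈ W
  ddW : ∀ i, ∀ f ∈ W, dd i f = 0
  dd00 : dd 0 (w 0) = 1
  dd10 : dd 1 (w 0) = 0
  dd11 : dd 1 (w 1) = 1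
  dd01 : Lim v B 0 (dd 0 (w 1))

/-- **The frame.** No group law. The coefficients of `U` which are in `O_0` are `0`. -/
structure Frm (v : RVal Ω) (W B : IntermediateField k Ω) (w : Fin 2 → Ω)
    (T : (Fin 2 → k) → Ω →ₐ[k] Ω) (U : Polynomial Ω) : Prop where
  iso : ∀ c, IsoE v v (T c)
  fix : ∀ c, ∀ f ∈ W, T c f = f
  Tw : ∀ c, T c (w 0) = w 0 + algebraMap k Ω (c 0)
  Tu : ∀ c, T c (w 1) = w 1 + U.eval (algebraMap k Ω (c 0)) + algebraMap k Ω (c 1)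
  U0 : U.coeff 0 = 0
  Ul : ∀ j, Lim v B 0 (U.coeff j)
  drop : ∀ j, v.Ge 0 (U.coeff j) → U.coeff j = 0
  inB : ∀ j, ∀ b ∈ B, v.Ge 0 (U.coeff j - b) → U.coeff j ∈ B

/-- The linear form `l 0 X 0 + l 1 X 1`. -/
noncomputable def lin (l : Fin 2 → k) : MvPolynomial (Fin 2) Ω :=
  ∑ i, C (algebraMap k Ω (l i)) * X i

/-- The other data. -/
structure RecB (k Ω : Type u) [Field k] [Field Ω] [Algebra k Ω] where
  /-- the isometries -/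
  T : (Fin 2 → k) → Ω →ₐ[k] Ω
  /-- the shape of `w 1` -/
  U : Polynomial Ω
  /-- `a = e z + x P(z) + Pa(w)` -/
  e : k
  /-- the coefficients of `P` -/
  κ : ℕ → k
  /-- the top of `P` -/
  t : ℕ
  /-- the linear part of `Pa` -/
  l : Fin 2 → k
  /-- `a₀ = Pa(w)` -/
  Pa : MvPolynomial (Fin 2) Ω
  /-- the shape of `z` -/
  Z : MvPolynomial (Fin 2) Ω

/-- The tie, by polynomials over `W`. -/
def TiP (p : ℕ) (v : RVal Ω) (W : IntermediateField k Ω) (w : Fin 2 → Ω) (x z : Ω) (e : k)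
    (κ : ℕ → k) (t : ℕ) (Pa : MvPolynomial (Fin 2) Ω) : Prop :=
  ∀ ε : ℝ, 0 < ε → ∃ θ h : MvPolynomial (Fin 2) Ω, (∀ g, coeff g θ ∈ W) ∧
    (∀ g, coeff g h ∈ W) ∧ (e ≠ 0 → ∀ g, ¬ DvE p g → coeff g θ = 0) ∧
    v.Ge (-ε) (z - eval w θ) ∧
    v.Ge (-ε) (eval w (C (algebraMap k Ω e) * θ + C x * PP p κ t θ + Pa - h ^ p))

/-- The normal form. -/
structure NFB (p : ℕ) (v : RVal Ω) (L : ℕ → IntermediateField k Ω) (W K : IntermediateField k Ω) (w : Fin 2 → Ω) (x z a : Ω)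
    (U : Polynomial Ω) (e : k) (κ : ℕ → k) (t : ℕ) (l : Fin 2 → k) (Pa : MvPolynomial (Fin 2) Ω) :
    Prop where
  kap : κ t ≠ 0
  PaW : ∀ g, coeff g Pa ∈ W
  PaD : ∀ g, ¬ DvE p g → coeff g Pa = coeff g (lin l : MvPolynomial (Fin 2) Ω)
  cas : e = 0 ∨ l = 0
  Up : l 1 ≠ 0 → ∀ j, ¬ p ∣ j → U.coeff j = 0
  rel : PG p v K 0 (a - (algebraMap k Ω e * z + x * PP p κ t z + eval w Pa))
  tie : TiP p v W w x z e κ t Pa
  /-- over the fields of the chain -/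
  xL : ∃ J, x ∈ L J
  PaL : ∃ J, ∀ g, coeff g Pa ∈ L J

/-- **The properties of the data.** -/
structure CB (p : ℕ) (v : RVal Ω) (L : ℕ → IntermediateField k Ω) (W B F K : IntermediateField k Ω)
    (w : Fin 2 → Ω) (x z a : Ω) (R : RecB k Ω) : Prop
    extends HB p v L W B F K w x z a, NFB p v L W K w x z a R.U R.e R.κ R.t R.l R.Pa where
  frm : Frm v W B w R.T R.U
  Z0 : constantCoeff R.Z = 0
  jet : ∀ c, v.Ge 0 (R.T c z - z - eval (pt c) R.Z)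
  Zp : R.e ≠ 0 → ∀ g, ¬ DvE p g → coeff g R.Z = 0

/-! ### Substitutions -/

/-- `Ψ(s) = b + (τ U)(s) - U(s + a)`: the right translate is `Lp a (Psi τ a b U)`. -/
noncomputable abbrev Psi (τ : Ω →ₐ[k] Ω) (a b : Ω) (U : Polynomial Ω) : Polynomial Ω := psi τ a b U

/-- `q(w 0 + X 0, w 1 + U(X 0) + X 1)`. -/
noncomputable def shR (w : Fin 2 → Ω) (U : Polynomial Ω) :
    MvPolynomial (Fin 2) Ω →ₐ[Ω] MvPolynomial (Fin 2) Ω :=
  aeval ![C (w 0) + X 0, C (w 1) + Polynomial.aeval (X 0) U + X 1]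

/-- `q(w 0 + X 0, w 1 + U(X 0) + X 1) - q(w)`. -/
noncomputable def dsR (w : Fin 2 → Ω) (U : Polynomial Ω) (q : MvPolynomial (Fin 2) Ω) :
    MvPolynomial (Fin 2) Ω := shR w U q - C (eval w q)

/-- A real approximation of `U`. -/
structure Rl (v : RVal Ω) (B : IntermediateField k Ω) (U Uf : Polynomial Ω) (η : ℝ) : Prop where
  mem : ∀ j, Uf.coeff j ∈ B
  eq : ∀ j, U.coeff j ∈ B → Uf.coeff j = U.coeff j
  near : ∀ j, v.Ge (-η) ((Uf - U).coeff j)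

/-! ### Motions and functionals -/

/-- A motion; `a`, `b`, `Za` are the displacements of `w 0`, `w 1`, `z`. -/
structure MoB (v : RVal Ω) (A W B F : IntermediateField k Ω) (w : Fin 2 → Ω) (z : Ω)
    (τ : Ω →ₐ[k] Ω) (η : ℝ) (a b Za : Ω) : Prop where
  mW : SMo v A W τ η
  mC : SMo v A B τ η
  mF : SMo v A F τ η
  aW : a ∈ W
  tw : τ (w 0) = w 0 + a
  bC : b ∈ B
  tu : τ (w 1) = w 1 + b
  ZF : Za ∈ F
  za : ∀ θ ∈ F, v.Ge (-(η / 2)) (z - θ) → Gt v 0 (τ θ - θ - Za)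

/-- The functionals of the noises. -/
structure Fnl (v : RVal Ω) (F : IntermediateField k Ω) (d : Ω →ₗ[F] Ω) : Prop where
  norm : ∀ (y : Ω) (c : ℝ), v.Ge c y → v.Ge c (d y)
  str : ∀ y : Ω, y ≠ 0 → Gt v (v y) (d y)
  zero : ∀ f ∈ F, d f = 0

/-- The functionals which extend the derivations: linear over a field which contains `F ^ p`. -/
structure DFn (p : ℕ) (v : RVal Ω) (F S₀ : IntermediateField k Ω) (E : Ω →ₗ[S₀] Ω) : Prop where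
  pow : ∀ f ∈ F, f ^ p ∈ S₀
  norm : ∀ (y : Ω) (c : ℝ), v.Ge c y → v.Ge c (E y)
  str : ∀ y : Ω, y ≠ 0 → Gt v (v y) (E y)
  one : E 1 = 0
  /-- a derivation on `F` -/
  mul : ∀ f ∈ F, ∀ g ∈ F, E (f * g) = f * E g + g * E f

/-- `ζ_f = Za + (τ Z_f) - Z_f(L_f)`, `Z_f = Z(s, c + (U_f - U)(s))`; `ζ` is `ζ_U`. -/
noncomputable def ztf (τ : Ω →ₐ[k] Ω) (a b Za : Ω) (Z : MvPolynomial (Fin 2) Ω)
    (U Uf : Polynomial Ω) : MvPolynomial (Fin 2) Ω :=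
  zet τ (Lp a (Psi τ a b Uf)) Za (shU (Uf - U) Z)

/-- `G_f = (E x) P(Z_f) + e E Z_f + E A_f`, `A_f = Pa(w 0 + s, w 1 + U_f(s) + c) - Pa(w)`. -/
noncomputable def Gf {S₀ : IntermediateField k Ω} (p : ℕ) (w : Fin 2 → Ω) (x : Ω) (R : RecB k Ω)
    (E : Ω →ₗ[S₀] Ω) (Uf : Polynomial Ω) : MvPolynomial (Fin 2) Ω :=
  C (E x) * PP p R.κ R.t (shU (Uf - R.U) R.Z) +
    C (algebraMap k Ω R.e) * Dc E (shU (Uf - R.U) R.Z) + Dc E (dsR w Uf R.Pa)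

/-- `E_f = l 0 (E a) + l 1 (E Ψ_f)(s)`. -/
noncomputable def Ef {S₀ : IntermediateField k Ω} (R : RecB k Ω) (E : Ω →ₗ[S₀] Ω)
    (a : Ω) (Ψ : Polynomial Ω) : MvPolynomial (Fin 2) Ω :=
  C (algebraMap k Ω (R.l 0) * E a) +
    C (algebraMap k Ω (R.l 1)) * Dc E (Polynomial.aeval (X 0) Ψ)

/-- `N^oo`: the polynomial of the noises seen by `d`, independent of the approximation. -/
structure NI (v : RVal Ω) (B F : IntermediateField k Ω) (R : RecB k Ω) (d : Ω →ₗ[F] Ω)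
    (N : MvPolynomial (Fin 2) Ω) : Prop where
  ge : ∀ g, v.Ge 0 (coeff g N)
  at0 : ∀ j : ℕ, coeff (Finsupp.single 1 j) N = d (coeff (Finsupp.single 1 j) R.Z)
  eq : ∀ (Uf : Polynomial Ω) (η : ℝ), Rl v B R.U Uf η →
    Dc d (shU (Uf - R.U) R.Z) = shU (Uf - R.U) N

/-- `G^oo`. -/
structure GI (p : ℕ) (v : RVal Ω) (B : IntermediateField k Ω) (w : Fin 2 → Ω) (x : Ω)
    (R : RecB k Ω) {S₀ : IntermediateField k Ω} (E : Ω →ₗ[S₀] Ω) (G : MvPolynomial (Fin 2) Ω) :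
    Prop where
  ge : ∀ g, v.Ge 0 (coeff g G)
  at0 : ∀ j : ℕ, j ≠ 0 → coeff (Finsupp.single 1 j) G = coeff (Finsupp.single 1 j)
    (C (E x) * PP p R.κ R.t R.Z + C (algebraMap k Ω R.e) * Dc E R.Z + Dc E (dsR w 0 R.Pa))
  eq : ∀ (Uf : Polynomial Ω) (η : ℝ), Rl v B R.U Uf η → Gf p w x R E Uf = shU (Uf - R.U) G +
    C (algebraMap k Ω (R.l 1)) * Dc E (Polynomial.aeval (X 0) (Uf - R.U))

/-- The residue polynomial. -/
def Rsp (v : RVal Ω) (G : MvPolynomial (Fin 2) Ω) (g : MvPolynomial (Fin 2) k) : Prop :=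
  ∀ m, Gt v 0 (coeff m G - algebraMap k Ω (coeff m g))

/-! ### Rows -/

section rows

variable (p : ℕ) (v : RVal Ω)

/-- All the data. -/
abbrev AllB (P : (ℕ → IntermediateField k Ω) → (W B F K : IntermediateField k Ω) →
    (Fin 2 → Ω) → (x z a : Ω) → RecB k Ω → Prop) : Prop :=
  ∀ (L : ℕ → IntermediateField k Ω) (W B F K : IntermediateField k Ω) (w : Fin 2 → Ω) (x z a : Ω)
    (R : RecB k Ω), CB p v L W B F K w x z a R → P L W B F K w x z a R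

/-- R1 (61): **the real substitution**. -/
def RowR1 : Prop := AllB (k := k) p v fun _ W B _ _ w x z _ R => ∀ ε : ℝ, 0 < ε →
  ∃ (θ h : MvPolynomial (Fin 2) Ω) (η : ℝ), 0 < η ∧ (∀ g, coeff g θ ∈ W) ∧ (∀ g, coeff g h ∈ W) ∧
    (R.e ≠ 0 → ∀ g, ¬ DvE p g → coeff g θ = 0) ∧ v.Ge (-ε) (z - eval w θ) ∧
    ∀ Uf, Rl v B R.U Uf η →
      (∀ g, v.Ge (-ε) (coeff g (shU (Uf - R.U) R.Z - dsR w Uf θ))) ∧
      ∀ g, v.Ge (-ε) (coeff g (shR w Uf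
        (C (algebraMap k Ω R.e) * θ + C x * PP p R.κ R.t θ + R.Pa - h ^ p)))

/-- R2 (69): **(a*)**. -/
def RowR2 : Prop := AllB (k := k) p v fun L W B F _ w _ z _ R => ∀ ε : ℝ, 0 < ε →
  ∃ η : ℝ, 0 < η ∧ ∀ Uf, Rl v B R.U Uf η → ∀ (J : ℕ) (τ : Ω →ₐ[k] Ω) (ρ : ℝ) (a b Za : Ω),
    MoB v (L J) W B F w z τ ρ a b Za → ∀ d : Ω →ₗ[F] Ω, Fnl v F d → ∀ g,
      v.Ge (-ε) (coeff g (aeval (Lp a (Psi τ a b Uf)) (Dc d (shU (Uf - R.U) R.Z))) +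
        d (coeff g (ztf τ a b Za R.Z R.U Uf)))

/-- R3 (88; 9): **(b*)**, `E x` arbitrary. -/
def RowR3 : Prop := AllB (k := k) p v fun L W B F _ w x z _ R => ∀ ε : ℝ, 0 < ε →
  ∃ η : ℝ, 0 < η ∧ ∀ Uf, Rl v B R.U Uf η → ∀ (J : ℕ) (τ : Ω →ₐ[k] Ω) (ρ : ℝ) (a b Za : Ω),
    MoB v (L J) W B F w z τ ρ a b Za → τ x = x → (∀ g, τ (coeff g R.Pa) = coeff g R.Pa) →
    ∀ (S₀ : IntermediateField k Ω) (E : Ω →ₗ[S₀] Ω), DFn p v F S₀ E → v.Ge 0 (E x) → ∀ g,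
      v.Ge (-ε) (coeff g (aeval (Lp a (Psi τ a b Uf)) (Gf p w x R E Uf) +
        C (E x) * PP p R.κ R.t (ztf τ a b Za R.Z R.U Uf) +
        C (algebraMap k Ω R.e) * Dc E (ztf τ a b Za R.Z R.U Uf) + Ef R E a (Psi τ a b Uf)))

/-- R4 (26): `N^oo` exists. -/
def RowR4 : Prop := AllB (k := k) p v fun _ _ B F _ _ _ _ _ R => ∀ d : Ω →ₗ[F] Ω, Fnl v F d →
  ∃ N : MvPolynomial (Fin 2) Ω, NI v B F R d N

/-- R4' (26): `G^oo` exists. -/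
def RowR4' : Prop := AllB (k := k) p v fun _ _ B F _ w x _ _ R =>
  ∀ (S₀ : IntermediateField k Ω) (E : Ω →ₗ[S₀] Ω), DFn p v F S₀ E → v.Ge 0 (E x) →
  ∃ G : MvPolynomial (Fin 2) Ω, GI p v B w x R E G

/-- The motion is seen: `w 0` moves visibly, or `w 0` moves residually and `w 1` visibly. `r` is the
size of `a`. -/
def Seen (v : RVal Ω) (a : Ω) (Ψ : Polynomial Ω) (r : ℝ) : Prop :=
  (0 < r ∧ a ≠ 0 ∧ v a = -r) ∨ (r = 0 ∧ v.Ge 0 a ∧ ¬ Gt v 0 a ∧ ∃ j, ¬ v.Ge 0 (Ψ.coeff j))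

/-- R7 (`RowVis`; 14: (1b), 82: (2a)): **every threshold `r₁` of `Ψ`, in every system of coordinates
`f`, is `≥ |a|`, positive and `> j |a|` for the noises `U_j`.** -/
def RowVis : Prop := AllB (k := k) p v fun L W B F _ w _ z _ R => ∃ J₀ : ℕ, ∀ J ≥ J₀,
  ∀ (τ : Ω →ₐ[k] Ω) (ρ : ℝ) (a b Za : Ω), MoB v (L J) W B F w z τ ρ a b Za →
    ∀ r₀ : ℝ, Seen v a (Psi τ a b R.U) r₀ → ∀ (f : Polynomial k) (r₁ : ℝ), f.coeff 0 = 0 → 0 ≤ r₁ →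
      (∀ j : ℕ, v.Ge (min 0 (-(r₁ - j * r₀))) ((TWLG76.Sh a f (Psi τ a b R.U)).coeff j)) →
      r₀ ≤ r₁ ∧ 0 < r₁ ∧ ∀ j : ℕ, R.U.coeff j ∈ B ∨ j * r₀ < r₁

/-- The residues of `w 0` are infinite in number for the motions with a residual position. -/
def Rsd (v : RVal Ω) (L : ℕ → IntermediateField k Ω) (W B F : IntermediateField k Ω)
    (w : Fin 2 → Ω) (z : Ω) (U : Polynomial Ω) : Prop :=
  ∀ (J : ℕ) (S : Finset k), ∃ (τ : Ω →ₐ[k] Ω) (ρ : ℝ) (a b Za : Ω) (c : k),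
    MoB v (L J) W B F w z τ ρ a b Za ∧ c ∉ S ∧ Gt v 0 (a - algebraMap k Ω c) ∧
    ∀ j, v.Ge 0 ((Psi τ a b U).coeff j)

/-- R7z (14, 16): **all positions residual**: (1b) by the strict forms (a**), (b**) and `Res0`; (2a) is
impossible (82). -/
def RowR7z : Prop := AllB (k := k) p v fun L W B F _ w x z _ R => Rsd v L W B F w z R.U →
  (∃ (S₀ : IntermediateField k Ω) (E : Ω →ₗ[S₀] Ω), DFn p v F S₀ E ∧ E x = 1) →
  (∀ (d : Ω →ₗ[F] Ω) (N : MvPolynomial (Fin 2) Ω) (n : MvPolynomial (Fin 2) k), Fnl v F d →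
    NI v B F R d N → Rsp v N n → ∀ j : ℕ, j ≠ 0 → coeff (Finsupp.single 1 j) n = 0) ∧
  ∀ (S₀ : IntermediateField k Ω) (E : Ω →ₗ[S₀] Ω) (G : MvPolynomial (Fin 2) Ω)
    (g : MvPolynomial (Fin 2) k), DFn p v F S₀ E → E x = 0 → GI p v B w x R E G → Rsp v G g →
    ∀ j : ℕ, j ≠ 0 → coeff (Finsupp.single 1 j) g = 0

/-- R8 (69; 16): **the shape of `z` exists** (finite by the tie, real substitution). -/
def RowR8 : Prop := ∀ (L : ℕ → IntermediateField k Ω) (W B F K : IntermediateField k Ω)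
  (w : Fin 2 → Ω) (x z a : Ω) (D : Ω → Ω) (T : (Fin 2 → k) → Ω →ₐ[k] Ω) (U : Polynomial Ω) (e : k)
  (κ : ℕ → k) (t : ℕ) (l : Fin 2 → k) (Pa : MvPolynomial (Fin 2) Ω), HB p v L W B F K w x z a →
  BaseD p v W x D → Frm v W B w T U → NFB p v L W K w x z a U e κ t l Pa →
  ∃ Z : MvPolynomial (Fin 2) Ω, CB p v L W B F K w x z a ⟨T, U, e, κ, t, l, Pa, Z⟩

/-- The shape of `w 1` along `w 0`. -/
def ShU (v : RVal Ω) (W : IntermediateField k Ω) (w : Fin 2 → Ω) (U : Polynomial Ω) : Prop :=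
  U.coeff 0 = 0 ∧ (∀ j, Lim v (cadj v W (w 0)) 0 (U.coeff j)) ∧
  ∀ ε : ℝ, 0 < ε → ∃ η : ℝ, 0 < η ∧ ∀ q ∈ PI W, v.Ge (-η) (w 1 - q.eval (w 0)) → ∀ s : k,
    v.Ge (-ε) (q.eval (w 0 + algebraMap k Ω s) - q.eval (w 0) - U.eval (algebraMap k Ω s))

/-- R9 (5; 31): **the frame exists** (drop the coefficients in `O_0`, lift). -/
def RowR9 : Prop := ∀ (L : ℕ → IntermediateField k Ω) (W B F K : IntermediateField k Ω)
  (w : Fin 2 → Ω) (x z a : Ω) (U₀ : Polynomial Ω), HB p v L W B F K w x z a → ShU v W w U₀ →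
  ∃ (T : (Fin 2 → k) → Ω →ₐ[k] Ω) (U : Polynomial Ω), Frm v W B w T U

/-- The tie `a = e z + x P(z) + a₀` modulo null, and its specialisations. -/
structure TieF (p : ℕ) (v : RVal Ω) (F K : IntermediateField k Ω) (x z a : Ω) (e : k) (κ : ℕ → k)
    (t : ℕ) (a₀ : Ω) : Prop where
  kap : κ t ≠ 0
  aF : a₀ ∈ F
  rel : PG p v K 0 (a - (algebraMap k Ω e * z + x * PP p κ t z + a₀))
  tie : ∀ ε : ℝ, 0 < ε → ∃ θ ∈ F, v.Ge (-ε) (z - θ) ∧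
    ∃ h ∈ F, v.Ge (-ε) (algebraMap k Ω e * θ + x * PP p κ t θ + a₀ - h ^ p)

/-- R10 (42: `e = 0` and the assembly, 15: `e ≠ 0`): **the normal form**, for `w 1 - A`, `z - φ`, and
`x'` instead of `x`, from the tie. -/
def RowR10 : Prop := ∀ (L : ℕ → IntermediateField k Ω) (W B F K : IntermediateField k Ω)
  (w : Fin 2 → Ω) (x z a : Ω) (D : Ω → Ω) (U₀ : Polynomial Ω) (e₀ : k) (κ₀ : ℕ → k) (t₀ : ℕ) (a₀ : Ω),
  HB p v L W B F K w x z a → BaseD p v W x D → ShU v W w U₀ → TieF p v F K x z a e₀ κ₀ t₀ a₀ →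
  ∃ A ∈ B, ∃ φ ∈ F, ∃ (T : (Fin 2 → k) → Ω →ₐ[k] Ω) (U : Polynomial Ω) (x' : Ω) (D' : Ω → Ω) (e : k)
    (κ : ℕ → k) (t : ℕ) (l : Fin 2 → k) (Pa : MvPolynomial (Fin 2) Ω), x' ∈ W ∧ Gt v 0 (x - x') ∧
    BaseD p v W x' D' ∧ HB p v L W B F K ![w 0, w 1 - A] x' (z - φ) a ∧
    Frm v W B ![w 0, w 1 - A] T U ∧ NFB p v L W K ![w 0, w 1 - A] x' (z - φ) a U e κ t l Pa

/-- R11 (95; 4): **smallness**. -/
def RowR11 : Prop := AllB (k := k) p v fun L W B F _ w _ z _ R => ∀ ε : ℝ, 0 < ε →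
  ∃ J₀ : ℕ, ∀ J ≥ J₀, ∀ (τ : Ω →ₐ[k] Ω) (ρ : ℝ) (a b Za : Ω),
    MoB v (L J) W B F w z τ ρ a b Za → v.Ge (-ε) a ∧ ∀ j, v.Ge (-ε) ((Psi τ a b R.U).coeff j)

/-- R11m (48; 36): **the motions exist**: a strict motion of `W`, `B` extends to `F`, with the
displacement of `z`. -/
def RowR11m : Prop := ∀ (L : ℕ → IntermediateField k Ω) (W B F K : IntermediateField k Ω)
  (w : Fin 2 → Ω) (x z a : Ω), HB p v L W B F K w x z a → ∃ J₀ : ℕ, ∀ J ≥ J₀,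
  ∀ (τ₀ : Ω →ₐ[k] Ω) (η₀ : ℝ) (a : Ω), SMo v (L J) W τ₀ η₀ → SMo v (L J) B τ₀ η₀ →
    τ₀ (w 0) = w 0 + a → a ∈ W → ∃ (τ : Ω →ₐ[k] Ω) (b Za : Ω) (ρ : ℝ),
      MoB v (L J) W B F w z τ ρ a b Za

/-- R12 (38, 72, 35): **the derivations and the functionals**. -/
def RowR12 : Prop := ∀ (L : ℕ → IntermediateField k Ω) (W B F K : IntermediateField k Ω)
  (w : Fin 2 → Ω) (x z a : Ω) (D₀ : Ω → Ω), HB p v L W B F K w x z a → BaseD p v W x D₀ →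
  (∃ (D : Ω → Ω) (dd : Fin 2 → Ω → Ω), DrvB v W B F w D dd ∧ ∀ y ∈ W, D y = D₀ y) ∧
  (∀ y : Ω, (∀ f ∈ F, ¬ v.Ge 0 (y - f)) → ∃ d : Ω →ₗ[F] Ω, Fnl v F d ∧ d y = 1) ∧
  ∀ D : Ω → Ω, Drv v F D → ∃ (S₀ : IntermediateField k Ω) (E : Ω →ₗ[S₀] Ω),
    DFn p v F S₀ E ∧ ∀ f ∈ F, E f = D f

/-- R12v (19): **the class**: critical elements of `F` with strict partial derivatives. -/
def RowR12v : Prop := ∀ (L : ℕ → IntermediateField k Ω) (W B F K : IntermediateField k Ω)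
  (w : Fin 2 → Ω) (x z a : Ω) (D₀ D : Ω → Ω) (dd : Fin 2 → Ω → Ω), HB p v L W B F K w x z a →
  BaseD p v W x D₀ → DrvB v W B F w D dd → (∀ y ∈ W, D y = D₀ y) →
  ∀ y ∈ F, LP p v F 0 y → (∀ i, Gt v 0 (dd i y)) → ∃ c : k, PG p v F 0 (y - algebraMap k Ω c * x)

/-- **The conclusion of the core**: the jets of `z` along `w 1` are attained. -/
def NoC (v : RVal Ω) (F : IntermediateField k Ω) (Z : MvPolynomial (Fin 2) Ω) : Prop :=
  ∀ j : ℕ, ∃ f ∈ F, v.Ge 0 (coeff (Finsupp.single 1 j) Z - f)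

/-- **The conclusion of the core**: the partial derivatives of the effects along `w 1` are strict. -/
def NoG (p : ℕ) (v : RVal Ω) (F : IntermediateField k Ω) (w : Fin 2 → Ω) (x : Ω) (R : RecB k Ω) :
    Prop :=
  ∀ (S₀ : IntermediateField k Ω) (E : Ω →ₗ[S₀] Ω), DFn p v F S₀ E → E x = 0 → ∀ j : ℕ, j ≠ 0 →
    Gt v 0 (coeff (Finsupp.single 1 j)
      (C (algebraMap k Ω R.e) * Dc E R.Z + Dc E (dsR w 0 R.Pa)))

/-- R15 (51, `T5`; 1: `Asm`): **the core**. -/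
def RowCoreB : Prop := AllB (k := k) p v fun _ _ _ F _ w x _ _ R =>
  (∃ (S₀ : IntermediateField k Ω) (E : Ω →ₗ[S₀] Ω), DFn p v F S₀ E ∧ E x = 1) →
  NoC v F R.Z ∧ NoG p v F w x R

/-- R13 (48, 13): **the end**: the input of 13's `hrone_j1`, over `B = W⟨w 0⟩`, in the big field. -/
def RowR13 : Prop := ∀ (L : ℕ → IntermediateField k Ω) (W B F K : IntermediateField k Ω)
  (w : Fin 2 → Ω) (x z a : Ω) (R : RecB k Ω) (D₀ D : Ω → Ω) (dd : Fin 2 → Ω → Ω),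
  CB p v L W B F K w x z a R → BaseD p v W x D₀ → DrvB v W B F w D dd → (∀ y ∈ W, D y = D₀ y) →
  NoC v F R.Z → NoG p v F w x R →
  ∃ (e : Ω) (A : ℕ → Ω) (M : ℕ) (Q : Polynomial Ω) (J : ℕ) (φ : ℕ → Polynomial Ω) (d : ℕ) (e₂ : Ω),
    GP p v B ∧ TWN1.Nrm p v B (w 1) z 0 0 0 e A M Q J 0 ∧
    TWRR.JL p v B (w 1) z 0 0 e J φ d ∧
    (∀ i ∈ Finset.Icc 1 M, TWRR.OC p v B B x 0 (A i)) ∧
    TWRR.OClsJ p v B (w 1) 0 0 e A M Q φ x ∧ Polynomial.hasseDeriv 1 Q = Polynomial.C e₂ ∧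
    PG p v K 0 (a - (e * z + ∑ i ∈ Finset.Icc 1 M, A i * z ^ p ^ i + Q.eval (w 1)))

end rows

end Pool.Agent.TWRB
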