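import Pool.Agent.Lib.TWCY.TrnE
import Pool.Agent.Lib.TWRB.Core

/-!
# CT, j = 1, row B: the derivations of `F` (`RowR12`, first part)

* `rowR12A`: `D` extends `D₀` by natural values; `dd 0` is `0` on `W`, `1` at `w 0`, natural at `w 1`;
  `dd 1` is `0` on `B`, `1` at `w 1`.
-/

set_option autoImplicit false
set_option linter.unusedSectionVars false

namespace Pool.Agent.TWRB

open Pool.Agent.H15JM (RVal)
open Pool.Agent.LU1 (VPos)
open Pool.Agent.D2 (Ctx0)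
open Pool.Agent.D2P (clI mem_clI)
open Pool.Agent.TWM
open Pool.Agent.TWCY

universe u

variable {k Ω : Type u} [Field k] [Field Ω] [Algebra k Ω] {v : RVal Ω} {p : ℕ}
  {L : ℕ → IntermediateField k Ω} {W B F K : IntermediateField k Ω} {w : Fin 2 → Ω} {x z a : Ω}
  {D₀ : Ω → Ω}

/-- **The derivations** (`RowR12`, first part). -/
theorem rowR12A [IsAlgClosed Ω] (hH : HB p v L W B F K w x z a) (hB : BaseD p v W x D₀) :
    ∃ (D : Ω → Ω) (dd : Fin 2 → Ω → Ω), DrvB v W B F w D dd ∧ ∀ y ∈ W, D y = D₀ y := by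
  have h0 := hH.c0
  have hv1 : v.Ge 0 (1 : Ω) := by
    have := h0.ge (1 : k)
    rwa [map_one] at this
  have hWB : W ≤ B := by
    rw [hH.B_eq]
    exact le_cadj v _ _
  have hw0 : w 0 ∈ B := by
    rw [hH.B_eq]
    exact self_mem_cadj v _ _
  have hBc : Cld v B := by
    rw [hH.B_eq]
    exact cld_cadj v _ _
  -- `D`
  obtain ⟨y0, hy0⟩ := hB.drv.exists_nat hH.sph hH.tw
  obtain ⟨D₁, d1, d2, -, -⟩ := hB.drv.exists_tl h0 hH.cv hH.tw hy0
  rw [← hH.B_eq] at d1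
  obtain ⟨y1, hy1⟩ := d1.exists_nat hH.sph hH.tu
  obtain ⟨D, e1, e2, -, -⟩ := d1.exists_tl h0 hH.cv hH.tu hy1
  rw [← hH.F_eq] at e1
  -- `dd 0`
  obtain ⟨q, q1, q2, q3, q4⟩ := (drv_zero v W).exists_tl (y := 1) h0 hH.cv hH.tw fun b hb r hr => by
    have hr0 := TL.neg_of_ge hH.tw hb hr
    show v.Ge r ((1 : Ω) - 0)
    rw [sub_zero]
    exact hv1.mono hr0.le
  rw [← hH.B_eq] at q1 q4
  have q5 : ∀ f ∈ B, q f ∈ B := q4 B hBc (fun b hb => hWB hb) hw0 (fun _ _ => B.zero_mem) B.one_mem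
  obtain ⟨c, hc⟩ := q1.exists_nat hH.sph hH.tu
  obtain ⟨d, s1, s2, s3, -⟩ := q1.exists_tl h0 hH.cv hH.tu hc
  rw [← hH.F_eq] at s1
  -- `dd 1`
  obtain ⟨g, g1, g2, g3, -⟩ := (drv_zero v B).exists_tl (y := 1) h0 hH.cv hH.tu fun b hb r hr => by
    have hr0 := TL.neg_of_ge hH.tu hb hr
    show v.Ge r ((1 : Ω) - 0)
    rw [sub_zero]
    exact hv1.mono hr0.le
  rw [← hH.F_eq] at g1
  refine ⟨D, ![d, g], ⟨e1, ?_, ?_, ?_, ?_, ?_, ?_, ?_⟩, ?_⟩
  · intro i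
    fin_cases i
    exacts [s1, g1]
  · intro f hf
    rw [e2 f (hWB hf), d2 f hf]
    exact hB.dW f hf
  · intro i f hf
    fin_cases i
    · show d f = 0
      rw [s2 f (hWB hf), q2 f hf]
    · show g f = 0
      rw [g2 f (hWB hf)]
  · show d (w 0) = 1
    rw [s2 _ hw0, q3]
  · show g (w 0) = 0
    rw [g2 _ hw0]
  · exact g3
  · show Lim v B 0 (d (w 1))
    rw [s3]
    intro ε hε
    obtain ⟨b, hb, h1⟩ := hH.tu.lim ε hε
    exact ⟨q b, q5 b hb, hc b hb _ h1⟩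
  · intro f hf
    rw [e2 f (hWB hf), d2 f hf]

end Pool.Agent.TWRB
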