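import Pool.Agent.Lib.TWRB.Core
import Pool.Agent.Lib.TWIV.Ingl

/-!
# CT, j = 1, row B: the functionals which extend derivations (row R12, third part)

* `HB.near`: every `y ≠ 0` is near `c m ^ p`, `c ∈ k`, `m ∈ W`; `HB.strict`;
* `cst D`: the field of the constants of a derivation `D` of `F`;
* `rowR12C`: a derivation of `F` extends to a functional which is linear over its constants.
-/

set_option autoImplicit false

namespace Pool.Agent.TWRB

open Pool.Agent.H15JM (RVal)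
open Pool.Agent.LU1 (VPos)
open Pool.Agent.D2 (Ctx0)
open Pool.Agent.TWM
open Pool.Agent.TWS (IsoE SphC)
open Pool.Agent.TWCY

universe u

variable {k Ω : Type u} [Field k] [Field Ω] [Algebra k Ω] {p : ℕ} {v : RVal Ω}
  {L : ℕ → IntermediateField k Ω} {W B F K : IntermediateField k Ω} {w : Fin 2 → Ω} {x z a : Ω}

/-- `Ω` is near the constants times the `p`-th powers of `W`. -/
theorem HB.near (h : HB p v L W B F K w x z a) (hp : p ≠ 0) {y : Ω} (hy : y ≠ 0) :
    ∃ c : k, ∃ m ∈ W, Gt v (v y) (y - algebraMap k Ω c * m ^ p) := by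
  obtain ⟨m, hm, hm0, hv⟩ := h.full (v y / p)
  have hp' : (p : ℝ) ≠ 0 := by exact_mod_cast hp
  have hmp : m ^ p ≠ 0 := pow_ne_zero _ hm0
  have hvp : v (m ^ p) = v y := by
    rw [v.map_pow hm0, hv]
    field_simp
  have h1 : v (y / m ^ p) = 0 := by
    rw [v.map_div hy hmp, hvp, sub_self]
  obtain ⟨c, -, hc⟩ := h.c0.res (y / m ^ p) (div_ne_zero hy hmp) h1
  refine ⟨c, m, hm, fun h2 => ?_⟩
  have e : y - algebraMap k Ω c * m ^ p = (y / m ^ p - algebraMap k Ω c) * m ^ p := by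
    rw [sub_mul, div_mul_cancel₀ _ hmp]
  rw [e] at h2 ⊢
  have h3 : y / m ^ p - algebraMap k Ω c ≠ 0 := left_ne_zero_of_mul h2
  rw [v.map_mul h3 hmp, hvp]
  have h4 : 0 < v (y / m ^ p - algebraMap k Ω c) := hc h3
  linarith

/-- Strictness. -/
theorem HB.strict (h : HB p v L W B F K w x z a) (hp : p ≠ 0) {E : Ω → Ω}
    (hadd : ∀ y y', E (y + y') = E y + E y') (hE : ∀ (y : Ω) (c : ℝ), v.Ge c y → v.Ge c (E y))
    (h0 : ∀ (c : k) (m : Ω), m ∈ W → E (algebraMap k Ω c * m ^ p) = 0) :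
    ∀ y : Ω, y ≠ 0 → Gt v (v y) (E y) := by
  intro y hy
  obtain ⟨c, m, hm, h1⟩ := h.near hp hy
  have h2 : E y = E (y - algebraMap k Ω c * m ^ p) := by
    have := hadd (y - algebraMap k Ω c * m ^ p) (algebraMap k Ω c * m ^ p)
    rw [sub_add_cancel, h0 c m hm, add_zero] at this
    exact this
  rw [h2]
  intro h3
  by_cases h4 : y - algebraMap k Ω c * m ^ p = 0
  · exfalso
    apply h3
    have := hadd 0 0
    rw [add_zero] at this
    rw [h4]
    exact left_eq_add.mp this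
  · exact (h1 h4).trans_le (hE _ _ (RVal.ge_self _) h3)

theorem HB.W_le (h : HB p v L W B F K w x z a) : W ≤ F := by
  rw [h.F_eq, h.B_eq]
  exact (le_cadj _ _ _).trans (le_cadj _ _ _)

/-! ### the constants -/

section cst

variable {D : Ω → Ω}

theorem _root_.Pool.Agent.TWCY.Drv.one12 (h : Drv v F D) : D 1 = 0 := by
  have := h.alg 1
  rwa [map_one] at this

theorem _root_.Pool.Agent.TWCY.Drv.pow_eq (h : Drv v F D) {f : Ω} (hf : f ∈ F) (n : ℕ) :
    D (f ^ n) = n * f ^ (n - 1) * D f := by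
  induction n with
  | zero => rw [pow_zero, h.one12, Nat.cast_zero, zero_mul, zero_mul]
  | succ n ih =>
    rw [pow_succ, h.mul _ (pow_mem hf n) _ hf, ih]
    rcases n with _ | n
    · simp
    · rw [Nat.add_sub_cancel, Nat.add_sub_cancel, Nat.cast_succ (n + 1), pow_succ f n]
      ring

/-- The field of the constants of a derivation. -/
def cst (h : Drv v F D) : IntermediateField k Ω where
  carrier := {f | f ∈ F ∧ D f = 0}
  mul_mem' := fun ha hb => ⟨mul_mem ha.1 hb.1, by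
    rw [h.mul _ ha.1 _ hb.1, ha.2, hb.2, mul_zero, mul_zero, add_zero]⟩
  add_mem' := fun ha hb => ⟨add_mem ha.1 hb.1, by rw [h.add _ ha.1 _ hb.1, ha.2, hb.2, add_zero]⟩
  algebraMap_mem' := fun c => ⟨F.algebraMap_mem c, h.alg c⟩
  inv_mem' := fun f hf => ⟨inv_mem hf.1, by
    by_cases h0 : f = 0
    · rw [h0, inv_zero]
      have := h.alg 0
      rwa [map_zero] at this
    · have h1 := h.mul f hf.1 f⁻¹ (inv_mem hf.1)
      rw [mul_inv_cancel₀ h0, h.one12, hf.2, mul_zero, add_zero] at h1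
      exact (mul_eq_zero.mp h1.symm).resolve_left h0⟩

theorem mem_cst (h : Drv v F D) {f : Ω} : f ∈ cst h ↔ f ∈ F ∧ D f = 0 := Iff.rfl

end cst

/-- **Row R12, third part.** -/
theorem rowR12C [Fact p.Prime] [CharP Ω p] (h : HB p v L W B F K w x z a) :
    ∀ D : Ω → Ω, Drv v F D → ∃ (S₀ : IntermediateField k Ω) (E : Ω →ₗ[S₀] Ω),
    DFn p v F S₀ E ∧ ∀ f ∈ F, E f = D f := by
  intro D hD
  have hp : p ≠ 0 := (Fact.out : p.Prime).ne_zero
  have hpow : ∀ f ∈ F, f ^ p ∈ cst hD := fun f hf => ⟨pow_mem hf p, by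
    rw [hD.pow_eq hf, CharP.cast_eq_zero Ω p, zero_mul, zero_mul]⟩
  let T : Submodule (cst hD) Ω :=
    { carrier := F
      add_mem' := fun ha hb => add_mem ha hb
      zero_mem' := zero_mem F
      smul_mem' := fun l y hy => by
        rw [Algebra.smul_def]
        exact mul_mem l.2.1 hy }
  let f : T →ₗ[cst hD] Ω :=
    { toFun := fun y => D (y : Ω)
      map_add' := fun y y' => hD.add _ y.2 _ y'.2
      map_smul' := fun l y => by
        change D ((l : Ω) * (y : Ω)) = (l : Ω) * D (y : Ω)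
        rw [hD.mul _ l.2.1 _ y.2, l.2.2, mul_zero, add_zero] }
  obtain ⟨E, h1, h2⟩ := h.sph.exists_ext T f fun y b hy => hD.norm _ y.2 _ hy
  have hE : ∀ f ∈ F, E f = D f := fun f hf => h2 f hf
  refine ⟨cst hD, E, ⟨hpow, h1, ?_, ?_, ?_⟩, hE⟩
  · refine h.strict hp (map_add E) h1 fun c m hm => ?_
    have h3 : algebraMap k Ω c * m ^ p ∈ cst hD :=
      mul_mem ((cst hD).algebraMap_mem c) (hpow m (h.W_le hm))
    rw [hE _ h3.1]
    exact h3.2
  · rw [hE 1 (one_mem F)]
    exact hD.one12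
  · intro f hf g hg
    rw [hE _ (mul_mem hf hg), hE _ hf, hE _ hg]
    exact hD.mul _ hf _ hg

end Pool.Agent.TWRB
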