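import Pool.Agent.Lib.TWRB.Core
import Pool.Agent.Lib.TWFN.V0B
import Pool.Agent.Lib.TWCY.V0R

/-!
# CT, row B, R12v: the class

Critical elements of `F` with strict partial derivatives are in `k x + null` (from `v0b`).
-/

set_option autoImplicit false

namespace Pool.Agent.TWRB

open Pool.Agent.H15JM (RVal)
open Pool.Agent.TWM
open Pool.Agent.TWCY

universe u

variable {k Ω : Type u} [Field k] [Field Ω] [Algebra k Ω] {p : ℕ} {v : RVal Ω}

/-- The partial derivation of `w 1` is `0` on `B`. -/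
theorem DrvB.zero_B [IsAlgClosed Ω] {W B F : IntermediateField k Ω} {w : Fin 2 → Ω} {D : Ω → Ω}
    {dd : Fin 2 → Ω → Ω} (h : DrvB v W B F w D dd) (hw : TL v W (w 0) 0) (hB : B = cadj v W (w 0))
    (hBF : B ≤ F) {a : Ω} (ha : a ∈ B) : dd 1 a = 0 := by
  subst hB
  exact (h.drvi 1).zero_cadj ((le_cadj v W (w 0)).trans hBF) (h.ddW 1) hw hBF h.dd10 ha

/-- R12v: **the class**. -/
theorem rowR12v [hp : Fact p.Prime] [CharP Ω p] [IsAlgClosed Ω] : RowR12v (k := k) (Ω := Ω) p v := by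
  intro L W B F K w x z a D₀ D dd hH hB hD hDD y hy hl hs
  have hBF : B ≤ F := by
    rw [hH.F_eq]
    exact le_cadj v _ _
  have hF : F = cadj v (cadj v W (w 0)) (w 1) := by
    rw [← hH.B_eq]
    exact hH.F_eq
  have htu : TL v (cadj v W (w 0)) (w 1) 0 := by
    rw [← hH.B_eq]
    exact hH.tu
  refine TWFN.v0b hH.c0 hH.tw htu hF hH.gp hH.xW hB.gen hB.lp hD.drv ?_ hD.drvi (hD.ddW 0) hD.dd00
    ?_ hD.dd11 y hy hl hs
  · rw [hDD x hH.xW]
    exact hB.Dx
  · intro a ha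
    refine hD.zero_B hH.tw hH.B_eq hBF ?_
    rw [hH.B_eq]
    exact ha

end Pool.Agent.TWRB
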