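import Pool.Agent.Lib.TWRB.Core

/-!
# CT, j = 1, row B: the core from the rows for one motion
-/

set_option autoImplicit false

open MvPolynomial

namespace Pool.Agent.TWRB

open Pool.Agent.H15JM (RVal)
open Pool.Agent.LU1 (VPos)
open Pool.Agent.D2 (Ctx0)
open Pool.Agent.D2P (clI)
open Pool.Agent.TWM
open Pool.Agent.TWS (IsoE SphC)
open Pool.Agent.TWII (PG LP)
open Pool.Agent.TWN1 (Unh)
open Pool.Agent.TWRR (GP)
open Pool.Agent.TWCT (SMo MovV MovR Hit)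
open Pool.Agent.TWLY
open Pool.Agent.TWCY
open Pool.Agent.TWCU (zet)

universe u

variable {k Ω : Type u} [Field k] [Field Ω] [Algebra k Ω]

section rows

variable (p : ℕ) (v : RVal Ω)

/-- One motion: the polynomials of the noises. -/
def RowOneN : Prop := AllB (k := k) p v fun L W B F _ w x z _ R =>
  (∃ (S₀ : IntermediateField k Ω) (E : Ω →ₗ[S₀] Ω), DFn p v F S₀ E ∧ E x = 1) →
  ∀ (d : Ω →ₗ[F] Ω) (N : MvPolynomial (Fin 2) Ω) (n : MvPolynomial (Fin 2) k), Fnl v F d →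
    NI v B F R d N → Rsp v N n → ∃ J₀ : ℕ, ∀ J ≥ J₀, ∀ (τ : Ω →ₐ[k] Ω) (ρ : ℝ) (a b Za : Ω),
    MoB v (L J) W B F w z τ ρ a b Za → ∀ r, Seen v a (Psi τ a b R.U) r →
      ∀ j : ℕ, j ≠ 0 → coeff (Finsupp.single 1 j) n = 0

/-- One motion: the polynomials of the class functionals. -/
def RowOneG : Prop := AllB (k := k) p v fun L W B F _ w x z _ R =>
  (∃ (S₀ : IntermediateField k Ω) (E : Ω →ₗ[S₀] Ω), DFn p v F S₀ E ∧ E x = 1) →
  ∀ (S₀ : IntermediateField k Ω) (E : Ω →ₗ[S₀] Ω) (G : MvPolynomial (Fin 2) Ω)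
    (g : MvPolynomial (Fin 2) k), DFn p v F S₀ E → E x = 0 → GI p v B w x R E G → Rsp v G g →
    ∃ J₀ : ℕ, ∀ J ≥ J₀, ∀ (τ : Ω →ₐ[k] Ω) (ρ : ℝ) (a b Za : Ω),
    MoB v (L J) W B F w z τ ρ a b Za → ∀ r, Seen v a (Psi τ a b R.U) r →
      ∀ j : ℕ, j ≠ 0 → coeff (Finsupp.single 1 j) g = 0

end rows

section asm

variable {p : ℕ} {v : RVal Ω}

theorem MoB.mono {A A' W B F : IntermediateField k Ω} {w : Fin 2 → Ω} {z : Ω} {τ : Ω →ₐ[k] Ω}
    {η : ℝ} {a b Za : Ω} (h : MoB v A W B F w z τ η a b Za) (hA : A' ≤ A) :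
    MoB v A' W B F w z τ η a b Za :=
  ⟨h.mW.mono hA h.mW.pos le_rfl, h.mC.mono hA h.mC.pos le_rfl, h.mF.mono hA h.mF.pos le_rfl, h.aW,
    h.tw, h.bC, h.tu, h.ZF, h.za⟩

/-- The residue polynomial exists. -/
theorem exists_rsp (hk : Ctx0 k v) {G : MvPolynomial (Fin 2) Ω} (hG : ∀ g, v.Ge 0 (coeff g G)) :
    ∃ g : MvPolynomial (Fin 2) k, Rsp v G g := by
  classical
  have hres : ∀ y : Ω, v.Ge 0 y → ∃ c : k, Gt v 0 (y - algebraMap k Ω c) := fun y hy =>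
    exists_rs0 hk hy
  choose c hc using hres
  obtain ⟨g, hg⟩ : ∃ g : MvPolynomial (Fin 2) k,
      g = ∑ m ∈ G.support, monomial m (c (coeff m G) (hG m)) := ⟨_, rfl⟩
  refine ⟨g, fun m => ?_⟩
  have h1 : coeff m g = if m ∈ G.support then c (coeff m G) (hG m) else 0 := by
    rw [hg, coeff_sum]
    simp_rw [coeff_monomial]
    by_cases hm : m ∈ G.support
    · rw [Finset.sum_eq_single_of_mem m hm, if_pos rfl, if_pos hm]
      intro b _ hb
      rw [if_neg hb]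
    · rw [if_neg hm]
      refine Finset.sum_eq_zero fun b hb => ?_
      rw [if_neg]
      rintro rfl
      exact hm hb
  rw [h1]
  split_ifs with hm
  · exact hc _ _
  · rw [notMem_support_iff.1 hm, map_zero, sub_zero]
    exact Gt.zero

/-- Functionals which see `y`. -/
def RowFun (p : ℕ) (v : RVal Ω) : Prop := ∀ (L : ℕ → IntermediateField k Ω)
  (W B F K : IntermediateField k Ω) (w : Fin 2 → Ω) (x z a : Ω), HB p v L W B F K w x z a →
  ∀ y : Ω, (∀ f ∈ F, ¬ v.Ge 0 (y - f)) → ∃ d : Ω →ₗ[F] Ω, Fnl v F d ∧ d y = 1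

variable {L : ℕ → IntermediateField k Ω} {W B F K : IntermediateField k Ω} {w : Fin 2 → Ω}
  {x z a : Ω} {R : RecB k Ω}

/-- **From one motion to the conclusion.** `Q` is the conclusion. -/
theorem exists_seen (hm : RowR11m (k := k) p v) (h : CB p v L W B F K w x z a R) {Q : Prop}
    (hQ : ∃ J₀ : ℕ, ∀ J ≥ J₀, ∀ (τ : Ω →ₐ[k] Ω) (ρ : ℝ) (a b Za : Ω),
      MoB v (L J) W B F w z τ ρ a b Za → ∀ r, Seen v a (Psi τ a b R.U) r → Q)
    (hR : Rsd v L W B F w z R.U → Q) : Q := by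
  classical
  obtain ⟨J₀, hQ⟩ := hQ
  obtain ⟨J₁, hm⟩ := hm _ _ _ _ _ _ _ _ _ h.toHB
  rcases h.mv with h1 | h1
  · obtain ⟨Φ, η, Z, h2, h3, h4, h5, h6, -, h8⟩ := h1 (max J₀ J₁) 1 one_pos
    rw [← h.B_eq] at h3
    obtain ⟨τ, b, Za, ρ, hM⟩ := hm (max J₀ J₁) (le_max_right _ _) Φ η Z h2 h3 h4 h5
    exact hQ _ (le_max_left _ _) τ ρ Z b Za hM (-v Z) (Or.inl ⟨by linarith, h6, (neg_neg _).symm⟩)
  · obtain ⟨t, ht, ht0, hvt, h2⟩ := h1
    by_cases hA : ∃ J ≥ J₀, ∃ (τ : Ω →ₐ[k] Ω) (ρ : ℝ) (a b Za : Ω),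
        MoB v (L J) W B F w z τ ρ a b Za ∧ v.Ge 0 a ∧ ¬ Gt v 0 a ∧
          ∃ j, ¬ v.Ge 0 ((Psi τ a b R.U).coeff j)
    · obtain ⟨J, hJ, τ, ρ, a', b, Za, hM, h3, h4, h5⟩ := hA
      exact hQ J hJ τ ρ a' b Za hM 0 (Or.inr ⟨rfl, h3, h4, h5⟩)
    · refine hR fun J S => ?_
      obtain ⟨c₀, hc₀⟩ : ∃ c₀ : k, Gt v 0 (t - algebraMap k Ω c₀) :=
        exists_rs0 h.c0 (fun _ => hvt.ge)
      have hc00 : c₀ ≠ 0 := by
        rintro rfl
        rw [map_zero, sub_zero] at hc₀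
        have := hc₀ ht0
        linarith
      obtain ⟨Φ, η, c, hc, h3, h4, h5⟩ := h2 (max J (max J₀ J₁))
        (insert 0 (S.image fun s => s / c₀))
      rw [← h.B_eq] at h4
      rw [Finset.mem_insert, not_or] at hc
      obtain ⟨τ, b, Za, ρ, hM⟩ := hm (max J (max J₀ J₁))
        ((le_max_right _ _).trans (le_max_right _ _)) Φ η (algebraMap k Ω c * t) h3 h4 h5
        (mul_mem (W.algebraMap_mem _) ht)
      have hres : Gt v 0 (algebraMap k Ω c * t - algebraMap k Ω (c * c₀)) := by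
        rw [map_mul, ← mul_sub, mul_comm]
        have := hc₀.mul_ge (h.c0.ge c)
        rwa [add_zero] at this
      have hge : v.Ge 0 (algebraMap k Ω c * t) := by
        have := (h.c0.ge c).mul (show v.Ge 0 t from fun _ => hvt.ge)
        rwa [add_zero] at this
      refine ⟨τ, ρ, _, b, Za, c * c₀, hM.mono (h.mono (le_max_left _ _)), ?_, hres, ?_⟩
      · intro h6
        refine hc.2 (Finset.mem_image.2 ⟨_, h6, ?_⟩)
        field_simp
      · by_contra h6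
        push Not at h6
        refine hA ⟨_, (le_max_left J₀ J₁).trans (le_max_right J _), τ, ρ, _, b, Za, hM, hge, ?_, h6⟩
        intro h7
        have h8 : Gt v 0 (algebraMap k Ω (c * c₀)) := by
          have := h7.sub hres
          rwa [sub_sub_cancel] at this
        have h9 := h8 (by
          rw [Ne, _root_.map_eq_zero]
          exact mul_ne_zero hc.1 hc00)
        rw [h.c0.triv _ (mul_ne_zero hc.1 hc00)] at h9
        exact lt_irrefl _ h9

/-- **The core.** -/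
theorem rowCoreB (h4 : RowR4 (k := k) p v) (h4' : RowR4' (k := k) p v)
    (hN : RowOneN (k := k) p v) (hG : RowOneG (k := k) p v) (h7 : RowR7z (k := k) p v)
    (hm : RowR11m (k := k) p v) (hF : RowFun (k := k) p v) : RowCoreB (k := k) p v := by
  intro L W B F K w x z a R h hE
  constructor
  · intro j
    by_contra hj
    push Not at hj
    obtain ⟨d, hd, hd1⟩ := hF _ _ _ _ _ _ _ _ _ h.toHB _ hj
    obtain ⟨N, hN1⟩ := h4 _ _ _ _ _ _ _ _ _ _ h d hd
    obtain ⟨n, hn⟩ := exists_rsp h.c0 hN1.ge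
    have hj0 : j ≠ 0 := by
      rintro rfl
      refine hj 0 F.zero_mem ?_
      rw [sub_zero, Finsupp.single_zero]
      have := h.Z0
      rw [constantCoeff_eq] at this
      rw [this]
      exact RVal.Ge.zero
    have h1 : ∀ j : ℕ, j ≠ 0 → coeff (Finsupp.single 1 j) n = 0 := by
      refine exists_seen hm h (hN _ _ _ _ _ _ _ _ _ _ h hE d N n hd hN1 hn) fun hR => ?_
      exact (h7 _ _ _ _ _ _ _ _ _ _ h hR hE).1 d N n hd hN1 hn
    have h4 := hn (Finsupp.single 1 j)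
    rw [hN1.at0, hd1, h1 j hj0, map_zero, sub_zero] at h4
    have := h4 one_ne_zero
    rw [v.map_one] at this
    exact lt_irrefl _ this
  · intro S₀ E hE0 hEx j hj0
    obtain ⟨G, hG1⟩ := h4' _ _ _ _ _ _ _ _ _ _ h S₀ E hE0 (by rw [hEx]; exact RVal.Ge.zero)
    obtain ⟨g, hg⟩ := exists_rsp h.c0 hG1.ge
    have h1 : ∀ j : ℕ, j ≠ 0 → coeff (Finsupp.single 1 j) g = 0 := by
      refine exists_seen hm h (hG _ _ _ _ _ _ _ _ _ _ h hE S₀ E G g hE0 hEx hG1 hg) fun hR => ?_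
      exact (h7 _ _ _ _ _ _ _ _ _ _ h hR hE).2 S₀ E G g hE0 hEx hG1 hg
    have h3 := hg (Finsupp.single 1 j)
    rw [h1 j hj0, map_zero, sub_zero, hG1.at0 j hj0, hEx, C_0, zero_mul, zero_add] at h3
    exact h3

end asm

end Pool.Agent.TWRB
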