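import Pool.Agent.Lib.TWRB.Core

/-!
# RowB, R10: the data for `w 1 - A`, `z - φ`

* `hit_sub`: `Hit` is invariant under `y ↦ y - A`, `A ∈ F`;
* `unh_sub'`: the same for `Unh`;
* `HB.shift`: `HB` for `![w 0, w 1 - A]`, `x'`, `z - φ`, where `A ∈ B`, `φ ∈ F`, `x' ∈ W`.
-/

set_option autoImplicit false

open MvPolynomial

namespace Pool.Agent.TWRB

open Pool.Agent.H15JM (RVal)
open Pool.Agent.LU1 (VPos)
open Pool.Agent.D2 (Ctx0)
open Pool.Agent.D2P (clI)
open Pool.Agent.TWM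
open Pool.Agent.TWS (IsoE SphC)
open Pool.Agent.TWII (PG LP)
open Pool.Agent.TWN1 (Unh col Col)
open Pool.Agent.TWRR (GP)
open Pool.Agent.TWCT (SMo MovV MovR Hit)
open Pool.Agent.TWLY
open Pool.Agent.TWCY

universe u

variable {k Ω : Type u} [Field k] [Field Ω] [Algebra k Ω] {p : ℕ} {v : RVal Ω}
  {L : ℕ → IntermediateField k Ω} {W B F K : IntermediateField k Ω} {w : Fin 2 → Ω}
  {x x' z a A φ y : Ω}

theorem col_mem' {b : ℕ → Ω} (hb : ∀ j, b j ∈ F) (hA : A ∈ F) (T : ℕ) : col p b A T ∈ F :=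
  sum_mem fun j _ => mul_mem (hb j) (pow_mem hA _)

theorem col_add' [hp : Fact p.Prime] [CharP Ω p] (b : ℕ → Ω) (y A : Ω) (T : ℕ) :
    col p b (y + A) T = col p b y T + col p b A T := by
  have : ExpChar Ω p := ExpChar.prime hp.out
  unfold col
  rw [← Finset.sum_add_distrib]
  refine Finset.sum_congr rfl fun j _ => ?_
  rw [add_pow_expChar_pow, mul_add]

/-- `Hit` is invariant under translations. -/
theorem hit_sub [hp : Fact p.Prime] [CharP Ω p] (hA : A ∈ F) {s : ℝ} (h : Hit p v F (y - A) s) :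
    Hit p v F y s := by
  obtain ⟨ν, b₀, b, T, j, hb0, hB, hlp, hj, hjT, hn⟩ := h
  refine ⟨ν, b₀ - col p b A T, b, T, j, sub_mem hb0 (col_mem' hB.mem hA T), hB, ?_, hj, hjT, hn⟩
  have e : b₀ - col p b A T + col p b y T = b₀ + col p b (y - A) T := by
    have e1 := col_add' (p := p) b (y - A) A T
    rw [sub_add_cancel] at e1
    rw [e1]
    ring
  rw [e, ← cadj_sub_mem hA]
  exact hlp

theorem unh_sub' (hφ : φ ∈ F) {s ν : ℝ} (h : Unh p v F K (z - φ) s ν a) : Unh p v F K z s ν a := by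
  obtain ⟨f, hf, h1, h2⟩ := h
  refine ⟨Polynomial.taylor (-φ) f, taylor_mem_PI hf (neg_mem hφ), ?_, fun l hl hl0 => ?_⟩
  · rw [Polynomial.taylor_eval, ← sub_eq_add_neg]
    exact h1
  · rw [Polynomial.taylor_taylor, ← sub_eq_add_neg]
    exact h2 l hl hl0

/-- **The data for `w 1 - A`, `z - φ`.** -/
theorem HB.shift [hp : Fact p.Prime] [CharP Ω p] (h : HB p v L W B F K w x z a) (hA : A ∈ B)
    (hφ : φ ∈ F) (hx : x' ∈ W) : HB p v L W B F K ![w 0, w 1 - A] x' (z - φ) a where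
  c0 := h.c0
  cv := h.cv
  sph := h.sph
  hval := h.hval
  cld := h.cld
  full := h.full
  gp := h.gp
  xW := hx
  mono := h.mono
  le := h.le
  dense := h.dense
  tw := h.tw
  B_eq := h.B_eq
  tu := h.tu.sub_mem hA
  F_eq := by
    show F = cadj v B (w 1 - A)
    rw [h.F_eq, cadj_sub_mem hA]
  nh := fun h1 => h.nh (hit_sub hA h1)
  npar := fun g hg h1 => h.npar (A + g) (add_mem hA hg) (by
    have e : w 1 - (A + g) = ![w 0, w 1 - A] 1 - g := by
      show w 1 - (A + g) = w 1 - A - g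
      ring
    rw [e]
    exact h1)
  zt := h.zt.sub_mem hφ
  K_eq := by rw [h.K_eq, cadj_sub_mem hφ]
  aK := h.aK
  lp := h.lp
  crit := h.crit
  hit := fun h1 => h.hit (unh_sub' hφ h1)
  mv := h.mv

end Pool.Agent.TWRB
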