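import Pool.Agent.Lib.TWRB.Core
import Pool.Agent.Lib.TWC.PWm

/-!
# The cocycle relation for the shape of `w 1`

`T ![s, 0] U_j = (D^[j] U)(s)` modulo `O_0`, for `j ≠ 0`, with the Hasse derivatives `D^[j]`.
-/

set_option autoImplicit false

open MvPolynomial

namespace Pool.Agent.TWRB

open Pool.Agent.H15JM (RVal)
open Pool.Agent.D2 (Ctx0)
open Pool.Agent.TWM
open Pool.Agent.TWS (IsoE)

universe u

variable {k Ω : Type u} [Field k] [Field Ω] [Algebra k Ω] {v : RVal Ω}
  {W B : IntermediateField k Ω} {w : Fin 2 → Ω} {T : (Fin 2 → k) → Ω →ₐ[k] Ω} {U : Polynomial Ω}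

/-- On `B` the frame is a group. -/
theorem Frm.comp_B (hB : B = cadj v W (w 0)) (hf : Frm v W B w T U) (c c' : Fin 2 → k) {y : Ω}
    (hy : y ∈ B) : T c (T c' y) = T (c + c') y := by
  rw [hB] at hy
  have hi : IsoE v v ((T c).comp (T c')) := ⟨fun a ha => by
    rw [AlgHom.comp_apply, (hf.iso c).val _ ((map_ne_zero (T c')).2 ha), (hf.iso c').val _ ha]⟩
  refine TWCT.eq_on_cadj hi (hf.iso (c + c')) (fun a ha => ?_) ?_ y hy
  · rw [AlgHom.comp_apply, hf.fix c' a ha, hf.fix c a ha, hf.fix (c + c') a ha]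
  · rw [AlgHom.comp_apply, hf.Tw c', map_add, hf.Tw c, AlgHom.commutes, hf.Tw (c + c'),
      Pi.add_apply, map_add]
    ring

/-- The cocycle relation, for the values. -/
theorem coc_val (tu : TL v B (w 1) 0) (hB : B = cadj v W (w 0)) (hf : Frm v W B w T U)
    (s s' : k) : v.Ge 0 (U.eval (algebraMap k Ω s) +
      (U.map (T ![s, 0] : Ω →+* Ω)).eval (algebraMap k Ω s') -
      U.eval (algebraMap k Ω s + algebraMap k Ω s')) := by
  refine TWCY.ge_zero_of_eps fun ε hε => ?_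
  obtain ⟨θ, hθ, h1⟩ := tu.lim ε hε
  rw [zero_sub] at h1
  have e1 : T ![s, 0] (U.eval (algebraMap k Ω s')) =
      (U.map (T ![s, 0] : Ω →+* Ω)).eval (algebraMap k Ω s') := by
    have h2 := Polynomial.hom_eval₂ U (RingHom.id Ω) (T ![s, 0] : Ω →+* Ω) (algebraMap k Ω s')
    rw [Polynomial.eval_map, ← Polynomial.eval₂_id, AlgHom.coe_toRingHom] at *
    rw [h2, RingHom.comp_id]
    congr 1
    exact (T ![s, 0]).commutes s'
  have e2 : (![s, 0] : Fin 2 → k) + ![s', 0] = ![s + s', 0] := by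
    ext i
    fin_cases i
    · rfl
    · exact add_zero _
  have hT0 : ∀ c : k, T ![c, 0] (w 1) = w 1 + U.eval (algebraMap k Ω c) := by
    intro c
    rw [hf.Tu]
    change w 1 + U.eval (algebraMap k Ω c) + algebraMap k Ω 0 = _
    rw [map_zero, add_zero]
  have h3 := hf.comp_B hB ![s, 0] ![s', 0] hθ
  rw [e2] at h3
  have h4 : T ![s, 0] (T ![s', 0] (w 1)) - T ![s + s', 0] (w 1) =
      T ![s, 0] (T ![s', 0] (w 1 - θ)) - T ![s + s', 0] (w 1 - θ) := by
    rw [map_sub, map_sub, map_sub, h3]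
    ring
  have h5 : v.Ge (-ε) (T ![s, 0] (T ![s', 0] (w 1)) - T ![s + s', 0] (w 1)) := by
    rw [h4]
    exact ((hf.iso _).ge_iff.2 ((hf.iso _).ge_iff.2 h1)).sub ((hf.iso _).ge_iff.2 h1)
  have h6 : T ![s, 0] (T ![s', 0] (w 1)) - T ![s + s', 0] (w 1) =
      U.eval (algebraMap k Ω s) + (U.map (T ![s, 0] : Ω →+* Ω)).eval (algebraMap k Ω s') -
      U.eval (algebraMap k Ω s + algebraMap k Ω s') := by
    rw [hT0 s', map_add, e1, hT0 s, hT0 (s + s'), map_add]
    ring
  rwa [h6] at h5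

/-- **The cocycle relation for the shape of `w 1`.** -/
theorem cocU [Infinite k] (hk : Ctx0 k v) (tu : TL v B (w 1) 0) (hB : B = cadj v W (w 0))
    (hf : Frm v W B w T U) (j : ℕ) (hj : j ≠ 0) (s : k) :
    v.Ge 0 (T ![s, 0] (U.coeff j) - (Polynomial.hasseDeriv j U).eval (algebraMap k Ω s)) := by
  set f : Polynomial Ω := Polynomial.C (U.eval (algebraMap k Ω s)) +
    U.map (T ![s, 0] : Ω →+* Ω) - U.comp (Polynomial.X + Polynomial.C (algebraMap k Ω s)) with hfd
  have h1 : ∀ s' : k, v.Ge 0 (f.eval (algebraMap k Ω s')) := by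
    intro s'
    rw [hfd, Polynomial.eval_sub, Polynomial.eval_add, Polynomial.eval_C, Polynomial.eval_comp,
      Polynomial.eval_add, Polynomial.eval_X, Polynomial.eval_C,
      add_comm (algebraMap k Ω s') (algebraMap k Ω s)]
    exact coc_val tu hB hf s s'
  have h2 := _root_.Pool.Agent.TWC.PW.vand_ge hk (fun s' _ => h1 s') j
  have h3 : f.coeff j = T ![s, 0] (U.coeff j) -
      (Polynomial.hasseDeriv j U).eval (algebraMap k Ω s) := by
    rw [hfd, Polynomial.coeff_sub, Polynomial.coeff_add, Polynomial.coeff_C_of_ne_zero hj, zero_add,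
      Polynomial.coeff_map, ← Polynomial.taylor_apply, Polynomial.taylor_coeff]
    rfl
  rw [← h3]
  exact h2

end Pool.Agent.TWRB
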