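import Pool.Agent.Lib.TWCY.EndD
import Pool.Agent.Lib.TWCF.HB

/-!
# RowB, R13: the end in the big field

`Z` is the shape of `z`, `T (0, c)` fixes `C` and moves `u` by `c`.
* `exists_attained`: an element which is killed by all the functionals is in `F + O_0`;
* `end_att`: the jets of `z` along `u` are attained (`TWRR.Att`);
* `end_vpos`: the derivatives of the effects along `u` are strict.
-/

set_option autoImplicit false

open MvPolynomial

namespace Pool.Agent.TWRB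

open Pool.Agent.H15JM (RVal)
open Pool.Agent.LU1 (VPos)
open Pool.Agent.D2 (Ctx0)
open Pool.Agent.TWM
open Pool.Agent.TWS (IsoE SphC)
open Pool.Agent.TWLY
open Pool.Agent.TWCY
open Pool.Agent.TWCF (NL exists_fun)

universe u

variable {k Ω : Type u} [Field k] [Field Ω] [Algebra k Ω] {v : RVal Ω}
  {F C : IntermediateField k Ω}

/-- **Attained**: an element which is killed by all the functionals. -/
theorem exists_attained (hs : SphC v) {y : Ω}
    (h : ∀ d : Ω →ₗ[F] Ω, NL v d → (∀ f ∈ F, d f = 0) → VPos v (d y)) :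
    ∃ f ∈ F, v.Ge 0 (y - f) := by
  by_contra hno
  push Not at hno
  obtain ⟨d, h1, h2, h3⟩ := exists_fun hs
    (Submodule.restrictScalars F (LinearMap.range (Algebra.linearMap F Ω))) (z := y) (by
      rintro m ⟨f, rfl⟩
      have h4 := hno f f.2
      have e : Algebra.linearMap F Ω f = (f : Ω) := rfl
      rw [e]
      have h5 : y - f ≠ 0 := fun h6 => h4 (by
        rw [h6]
        exact RVal.Ge.zero)
      refine ⟨h5, ?_⟩
      by_contra h6
      exact h4 fun _ => not_lt.1 h6)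
  have h4 := h d h1 fun f hf => h2 f ⟨⟨f, hf⟩, rfl⟩
  rw [h3] at h4
  have h5 := h4 one_ne_zero
  rw [v.map_one] at h5
  exact lt_irrefl _ h5

/-- A functional which kills the constants is strict on `O_0`. -/
theorem vpos_lin (hk : Ctx0 k v) {E : Ω →ₗ[k] Ω} (hE : ∀ (y : Ω) (c : ℝ), v.Ge c y → v.Ge c (E y))
    (h1 : E 1 = 0) {y : Ω} (hy : v.Ge 0 y) : VPos v (E y) := by
  obtain ⟨c, hc⟩ := exists_rs0 hk hy
  obtain ⟨r, hr, h2⟩ := VPos.ge_iff hc
  have h3 := hE _ _ h2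
  have e : E (y - algebraMap k Ω c) = E y := by
    rw [map_sub, Algebra.algebraMap_eq_smul_one, map_smul, h1, smul_zero, sub_zero]
  rw [e] at h3
  exact vpos_of_ge hr h3

variable {T : (Fin 2 → k) → Ω →ₐ[k] Ω} {z u : Ω} {Z : MvPolynomial (Fin 2) Ω}

/-- **The jets of `z` along `u` are attained.** -/
theorem end_att (hk : Ctx0 k v) (hs : SphC v) (hiso : ∀ c, IsoE v v (T c)) (hfix : ∀ c, ∀ a ∈ C, T (p01 c) a = a)
    (hu : ∀ c, T (p01 c) u = u + algebraMap k Ω c) (hZ0 : constantCoeff Z = 0)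
    (hZ : ∀ c : Fin 2 → k, v.Ge 0 (T c z - z - eval (pt c) Z))
    (hN : ∀ d : Ω →ₗ[F] Ω, NL v d → (∀ f ∈ F, d f = 0) → ∀ l : ℕ, l ≠ 0 →
      VPos v (d (coeff (Finsupp.single 1 l) Z))) {D : ℕ} (hD : Z.totalDegree ≤ D) :
    ∃ f : ℕ → Ω, (∀ l, f l ∈ F) ∧ (∀ l, v.Ge 0 (coeff (Finsupp.single 1 l) Z - f l)) ∧
      (∀ l, coeff (Finsupp.single 1 l) Z = 0 → f l = 0) ∧
      TWRR.Att v C F u z (fun c => T (p01 c)) D f := by
  classical
  have h1 : ∀ l : ℕ, ∃ f ∈ F, v.Ge 0 (coeff (Finsupp.single 1 l) Z - f) ∧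
      (coeff (Finsupp.single 1 l) Z = 0 → f = 0) := by
    intro l
    by_cases h0 : coeff (Finsupp.single 1 l) Z = 0
    · refine ⟨0, zero_mem F, ?_, fun _ => rfl⟩
      rw [h0, sub_zero]
      exact RVal.Ge.zero
    · have hl : l ≠ 0 := by
        rintro rfl
        rw [Finsupp.single_zero] at h0
        exact h0 hZ0
      obtain ⟨f, hf, h2⟩ := exists_attained hs fun d hd hdF => hN d hd hdF l hl
      exact ⟨f, hf, h2, fun h3 => absurd h3 h0⟩
  choose f hf hfz hf0 using h1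
  refine ⟨f, hf, hfz, hf0, ⟨fun c => hiso _, fun c a ha => hfix c a ha, fun c => hu c, hf,
    fun c => ?_⟩⟩
  have h2 := hZ (p01 c)
  rw [eval_pt_snd hZ0 hD] at h2
  have e : T (p01 c) z - z - ∑ j ∈ Finset.Icc 1 D, algebraMap k Ω c ^ j * f j =
      (T (p01 c) z - z - ∑ j ∈ Finset.Icc 1 D,
        algebraMap k Ω c ^ j * coeff (Finsupp.single 1 j) Z) +
      ∑ j ∈ Finset.Icc 1 D, algebraMap k Ω c ^ j * (coeff (Finsupp.single 1 j) Z - f j) := by
    simp only [mul_sub, Finset.sum_sub_distrib]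
    ring
  rw [e]
  refine h2.add (RVal.Ge.sum _ _ fun j _ => ?_)
  have h3 := (hk.ge (c ^ j)).mul (hfz j)
  rwa [zero_add, map_pow] at h3

/-- **The derivatives of the effects along `u` are strict.** -/
theorem end_vpos (hk : Ctx0 k v) {e : k} {a₀ : Ω} {A : MvPolynomial (Fin 2) Ω}
    (hA0 : constantCoeff A = 0) (hAF : ∀ l : ℕ, coeff (Finsupp.single 1 l) A ∈ F)
    (hA : ∀ c, T (p01 c) a₀ = a₀ + eval (pt (p01 c)) A) {dd : Ω → Ω} (hd : Drv v F dd)
    {E : Ω →ₗ[k] Ω} (hE : ∀ (y : Ω) (c : ℝ), v.Ge c y → v.Ge c (E y)) (hEF : ∀ f ∈ F, E f = dd f)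
    (hG : ∀ l : ℕ, l ≠ 0 → VPos v (algebraMap k Ω e * E (coeff (Finsupp.single 1 l) Z) +
      dd (coeff (Finsupp.single 1 l) A))) {f : ℕ → Ω} (hf : ∀ l, f l ∈ F)
    (hfz : ∀ l, v.Ge 0 (coeff (Finsupp.single 1 l) Z - f l)) {D : ℕ} (hD : ∀ l, D < l → f l = 0)
    (c : k) : VPos v (dd (algebraMap k Ω e * ∑ j ∈ Finset.Icc 1 D, algebraMap k Ω c ^ j * f j +
      (T (p01 c) a₀ - a₀))) := by
  have hE1 : E 1 = 0 := by
    have h1 := hd.alg 1
    rw [map_one] at h1
    rw [hEF 1 (one_mem F), h1]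
  have e1 : algebraMap k Ω e * ∑ j ∈ Finset.Icc 1 D, algebraMap k Ω c ^ j * f j +
      (T (p01 c) a₀ - a₀) = ∑ j ∈ Finset.Icc 1 (max D A.totalDegree), algebraMap k Ω (c ^ j) *
        (algebraMap k Ω e * f j + coeff (Finsupp.single 1 j) A) := by
    have h1 : ∑ j ∈ Finset.Icc 1 D, algebraMap k Ω c ^ j * f j =
        ∑ j ∈ Finset.Icc 1 (max D A.totalDegree), algebraMap k Ω c ^ j * f j := by
      refine Finset.sum_subset (Finset.Icc_subset_Icc_right (le_max_left _ _)) fun j hj hj2 => ?_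
      have h2 : D < j := by
        by_contra h3
        exact hj2 (Finset.mem_Icc.2 ⟨(Finset.mem_Icc.1 hj).1, not_lt.1 h3⟩)
      rw [hD j h2, mul_zero]
    rw [hA, add_sub_cancel_left, eval_pt_snd hA0 (le_max_right D A.totalDegree), h1,
      Finset.mul_sum, ← Finset.sum_add_distrib]
    refine Finset.sum_congr rfl fun j _ => ?_
    rw [map_pow]
    ring
  have hm : ∀ j, algebraMap k Ω e * f j + coeff (Finsupp.single 1 j) A ∈ F := fun j =>
    add_mem (mul_mem (F.algebraMap_mem _) (hf _)) (hAF _)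
  rw [e1, hd.map_sum _ fun j _ => mul_mem (F.algebraMap_mem _) (hm j)]
  refine Finset.sum_induction _ (VPos v) (fun _ _ h1 h2 => VPos.add h1 h2) VPos.zero fun j hj => ?_
  have hj0 : j ≠ 0 := by
    have := (Finset.mem_Icc.1 hj).1
    omega
  rw [hd.map_smul _ (hm j), hd.add _ (mul_mem (F.algebraMap_mem _) (hf _)) _ (hAF _),
    hd.map_smul _ (hf _)]
  refine VPos.mul' (hk.ge _) ?_
  have h1 : VPos v (E (coeff (Finsupp.single 1 j) Z - f j)) := vpos_lin hk hE hE1 (hfz j)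
  have h2 : algebraMap k Ω e * dd (f j) + dd (coeff (Finsupp.single 1 j) A) =
      (algebraMap k Ω e * E (coeff (Finsupp.single 1 j) Z) + dd (coeff (Finsupp.single 1 j) A)) -
      algebraMap k Ω e * E (coeff (Finsupp.single 1 j) Z - f j) := by
    rw [map_sub, hEF _ (hf j)]
    ring
  rw [h2]
  exact (hG j hj0).sub (VPos.mul' (hk.ge _) h1)

end Pool.Agent.TWRB
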