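import Pool.Agent.Lib.TWRB.FinA
import Pool.Agent.Lib.TWRR.G2
import Pool.Agent.Lib.TWRR.D3
import Pool.Agent.Lib.TWCT.HDup

/-!
# Rows A and B: the end in the real field

* `oc_jets`: the classes of the real jets, from the form of `a` in the big field;
* `false_of_out`: the output of the core is impossible for real data `J1D`.
-/

set_option autoImplicit false

open Polynomial Finset

namespace Pool.Agent.TWRB

open Pool.Agent.H15JM (RVal)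
open Pool.Agent.LU1 (VPos adj)
open Pool.Agent.D2 (Ctx0)
open Pool.Agent.D2P (clI mem_clI)
open Pool.Agent.TWM
open Pool.Agent.TWS (IsoE SphC MonG PM VG PM.le PM.mono PM.cadj PM.cld)
open Pool.Agent.TWII (PG LP)
open Pool.Agent.TWN1
open Pool.Agent.TWTam
open Pool.Agent.TWLY
open Pool.Agent.TWCY (Drv BaseD)
open Pool.Agent.TWRR (Att JL OClsJ OC GP)
open Pool.Agent.TWCT (tH J1D GsM)

universe u

section Jets

variable {k Ω : Type u} [Field k] [Field Ω] [Algebra k Ω] {v : RVal Ω}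
  {C F : IntermediateField k Ω} {p : ℕ} [hp : Fact p.Prime] [CharP Ω p] [IsAlgClosed Ω]
  [IsAlgClosed k]

/-- **The classes of the jets.** -/
theorem oc_jets (hCF : C ≤ F) {z X₀ cx d m φ a₀ : Ω} {s ν : ℝ} {e : k} {κ : ℕ → k} {t : ℕ}
    (hz : TL v F z s) {f : Polynomial Ω} (hf : f ∈ PI F) (hX : X₀ ∈ C) (hcx : cx ∈ C)
    (hd : d ∈ C) (hm : m ∈ C) (hm0 : m ≠ 0) (hmv : p * v m = ν) (hφ : φ ∈ F) (ha : a₀ ∈ F)
    (hrel : PG p v (cadj v F z) 0 (f.eval z / m ^ p - (algebraMap k Ω e * (z / d - φ) +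
      X₀ / cx ^ p * PP p κ t (z / d - φ) + a₀))) {l : ℕ} (hl : l ≠ 0) (hpl : p ∣ l) :
    OC p v C (cadj v F z) X₀ (ν - l * s) ((hasseDeriv l f).eval z) := by
  classical
  set x : Ω := X₀ / cx ^ p with hx
  have hxF : x ∈ F := hCF (div_mem hX (pow_mem hcx p))
  set y : ℕ → Ω := fun j => if j = 0 then m ^ p * algebraMap k Ω e / d else
    m ^ p * (x * algebraMap k Ω (κ (j - 1))) / d ^ p ^ j with hy
  set b₀ : Ω := m ^ p * (a₀ - algebraMap k Ω e * φ - x * PP p κ t φ) with hb₀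
  have hyF : ∀ j, y j ∈ F := by
    intro j
    simp only [hy]
    split_ifs
    · exact div_mem (mul_mem (pow_mem (hCF hm) p) (F.algebraMap_mem _)) (hCF hd)
    · exact div_mem (mul_mem (pow_mem (hCF hm) p) (mul_mem hxF (F.algebraMap_mem _)))
        (pow_mem (hCF hd) _)
  have hPP : PP p κ t φ ∈ F := sum_mem fun i _ => mul_mem (F.algebraMap_mem _) (pow_mem hφ _)
  have hb₀F : b₀ ∈ F := mul_mem (pow_mem (hCF hm) p) (sub_mem (sub_mem ha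
    (mul_mem (F.algebraMap_mem _) hφ)) (mul_mem hxF hPP))
  set g : Polynomial Ω := Polynomial.C b₀ + ∑ j ∈ range (t + 1 + 1), Polynomial.C (y j) * X ^ p ^ j with hg
  have hgF : g ∈ PI F := add_mem (C_mem_PI hb₀F) (sum_mem fun j _ =>
    mul_mem (C_mem_PI (hyF j)) (pow_mem X_mem_PI _))
  have hge : g.eval z = m ^ p * (algebraMap k Ω e * (z / d - φ) + x * PP p κ t (z / d - φ) + a₀) := by
    have h1 : PP p κ t (z / d - φ) = ∑ i ∈ range (t + 1), algebraMap k Ω (κ i) *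
        (z ^ p ^ (i + 1) / d ^ p ^ (i + 1)) - PP p κ t φ := by
      rw [PP, PP, ← sum_sub_distrib]
      refine sum_congr rfl fun i _ => ?_
      rw [sub_pow_char_pow, div_pow]
      ring
    have h2 : ∑ i ∈ range (t + 1), (Polynomial.C (y (i + 1)) * X ^ p ^ (i + 1)).eval z =
        m ^ p * x * ∑ i ∈ range (t + 1), algebraMap k Ω (κ i) *
        (z ^ p ^ (i + 1) / d ^ p ^ (i + 1)) := by
      rw [mul_sum]
      refine sum_congr rfl fun i _ => ?_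
      rw [eval_mul, eval_C, eval_pow, eval_X]
      simp only [hy, Nat.succ_ne_zero, if_false, Nat.add_sub_cancel]
      ring
    have h3 : y 0 = m ^ p * algebraMap k Ω e / d := by simp [hy]
    rw [hg, eval_add, eval_C, eval_finsetSum, sum_range_succ', h2, h1, eval_mul, eval_C, eval_pow,
      eval_X, h3, pow_zero, pow_one, hb₀]
    ring
  have h1 : PG p v (cadj v F z) ν ((f - g).eval z) := by
    have h2 := TWRR.pg_scale (p := p) (le_cadj v F z (hCF hm)) hm0 hrel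
    rw [zero_add, hmv] at h2
    refine (congrArg _ ?_).mp h2
    rw [eval_sub, hge, mul_sub, mul_div_cancel₀ _ (pow_ne_zero p hm0)]
  have h2 := TWRR.pg_jet hz (sub_mem hf hgF) h1 hl
  rw [map_sub, hg, map_add, hasse_add_poly y (t + 1) hl,
    hasseDeriv_eq_zero_of_lt_natDegree (Polynomial.C b₀) l (by
      rw [natDegree_C]
      exact Nat.pos_of_ne_zero hl), zero_add, eval_sub] at h2
  by_cases hj : ∃ j ∈ range (t + 1 + 1), l = p ^ j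
  · obtain ⟨j, hj, hlj⟩ := hj
    have hj0 : j ≠ 0 := by
      rintro rfl
      rw [hlj, pow_zero] at hpl
      exact hp.out.one_lt.ne' (Nat.dvd_one.1 hpl)
    rw [sum_eq_single_of_mem j hj (fun i _ hij => if_neg fun h3 => hij
      (Nat.pow_right_injective hp.out.one_lt (h3.symm.trans hlj))), if_pos hlj, eval_C] at h2
    obtain ⟨κ', hκ'⟩ : ∃ κ' : k, κ' ^ p = κ (j - 1) := IsAlgClosed.exists_pow_nat_eq _ hp.out.pos
    refine ⟨algebraMap k Ω κ' * m / (cx * d ^ p ^ (j - 1)), div_mem (mul_mem (C.algebraMap_mem _) hm)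
      (mul_mem hcx (pow_mem hd _)), ?_⟩
    have e1 : (algebraMap k Ω κ' * m / (cx * d ^ p ^ (j - 1))) ^ p * X₀ = y j := by
      simp only [hy]
      rw [if_neg hj0, hx, div_pow, mul_pow, mul_pow, ← map_pow, hκ', ← pow_mul, ← pow_succ,
        Nat.sub_add_cancel (Nat.one_le_iff_ne_zero.2 hj0)]
      ring
    rw [e1]
    exact h2
  · rw [sum_eq_zero (fun j hj' => if_neg fun h3 => hj ⟨j, hj', h3⟩), eval_zero, sub_zero] at h2
    exact ⟨0, zero_mem _, by rwa [zero_pow hp.out.ne_zero, zero_mul, sub_zero]⟩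

end Jets

/-! ### The base is not null -/

section Base

variable {k Ω : Type u} [Field k] [Field Ω] [Algebra k Ω] {v : RVal Ω}
  {W C : IntermediateField k Ω} {p : ℕ} [hp : Fact p.Prime] [CharP Ω p]

/-- The base element is not null. -/
theorem base_not_pg {x : Ω} {D : Ω → Ω} (hx : x ∈ W) (h : BaseD p v W x D) :
    ¬ PG p v W 0 x := by
  rintro ⟨g, hg, h1⟩
  have h2 := drv_gt h.drv (sub_mem hx (pow_mem hg p)) h1
  rw [TWRR.drv_sub h.drv hx (pow_mem hg p), TWRR.drv_pow h.drv hg, h.Dx, sub_zero] at h2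
  have h3 := h2 one_ne_zero
  rw [v.map_one] at h3
  exact lt_irrefl _ h3

/-- Monomials of `C` with values in `W`. -/
theorem exists_mono (h : Imm v W C) :
    ∃ μ : ℝ → Ω, TWRR.Mono v C μ ∧ ∀ g ∈ VG v C, μ g ∈ W := by
  classical
  have h1 : ∀ g : ℝ, ∃ a : Ω, g ∈ VG v C → a ∈ W ∧ a ≠ 0 ∧ v a = g := by
    intro g
    by_cases hg : g ∈ VG v C
    · rw [VG.imm h] at hg
      obtain ⟨a, ha, ha0, hav⟩ := hg
      exact ⟨a, fun _ => ⟨ha, ha0, hav⟩⟩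
    · exact ⟨0, fun h => absurd h hg⟩
  choose μ hμ using h1
  exact ⟨μ, ⟨fun g hg => h.le (hμ g hg).1, fun g hg => (hμ g hg).2.1, fun g hg => (hμ g hg).2.2⟩,
    fun g hg => (hμ g hg).1⟩

end Base

/-! ### The end in the real field -/

section Real

variable {k Ω₀ Ω : Type u} [Field k] [Field Ω₀] [Algebra k Ω₀] [Field Ω] [Algebra k Ω] {p : ℕ}
  {v₀ : RVal Ω₀} {v : RVal Ω} {ι : Ω₀ →ₐ[k] Ω} {x₀ : Ω₀} {W₀ K₀ : IntermediateField k Ω₀}
  {al : Ω₀} {ν : ℝ} [hp : Fact p.Prime] [CharP Ω₀ p] [CharP Ω p] [CharP k p] [IsAlgClosed k]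
  [IsAlgClosed Ω₀] [IsAlgClosed Ω]

omit [CharP Ω₀ p] [CharP Ω p] [CharP k p] [IsAlgClosed k] [IsAlgClosed Ω] in
/-- The values of the tame closure are divisible. -/
theorem vg_div (hJ : J1D p v₀ v ι x₀ W₀ K₀ al ν) :
    ∀ g ∈ VG v (tH p v₀ ι x₀ (clI v₀ W₀)), g / p ∈ VG v (tH p v₀ ι x₀ (clI v₀ W₀)) := by
  intro g hg
  rw [TWCT.vg_tH hJ.iso] at hg ⊢
  obtain ⟨a, ha, ha0, rfl⟩ := hg
  obtain ⟨q, hq⟩ := TWCT.exists_rat hJ.ctx hJ.x0 hJ.xv ha0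
  have h1 := TWCT.vg_tam hJ.xW hJ.x0 hJ.pd (q / p)
  have e : v₀ a / p = ((q / p : ℚ) : ℝ) * v₀ x₀ := by
    rw [hq]
    push_cast
    ring
  rw [e]
  exact h1

/-- **The end.** -/
theorem false_of_out (hJ : J1D p v₀ v ι x₀ W₀ K₀ al ν) {C F : IntermediateField k Ω₀}
    {y u z : Ω₀} {r t s : ℝ} (hy : TL v₀ (clI v₀ W₀) y r) (hC : C = cadj v₀ (clI v₀ W₀) y)
    (hu : TL v₀ C u t) (hF : F = cadj v₀ C u) (hz : TL v₀ F z s)
    (hK : clI v₀ K₀ = cadj v₀ F z) {G : AddSubgroup ℝ} {M : ℝ → Ω}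
    (hG : GsM v (tH p v₀ ι x₀ (clI v₀ W₀)) G M) {X₁ : Ω₀} (hX : X₁ ∈ clI v₀ W₀)
    {c d m cx : Ω} (hc : c ∈ PM v (tH p v₀ ι x₀ (clI v₀ W₀)) G M) (hc0 : c ≠ 0) (hcv : v c = t)
    (hd : d ∈ PM v (tH p v₀ ι x₀ (clI v₀ W₀)) G M) (hd0 : d ≠ 0) (hdv : v d = s)
    (hm : m ∈ PM v (tH p v₀ ι x₀ (clI v₀ W₀)) G M) (hm0 : m ≠ 0) (hmv : p * v m = ν)
    (hcx : cx ∈ PM v (tH p v₀ ι x₀ (clI v₀ W₀)) G M) (hcx0 : cx ≠ 0) {Dx : Ω → Ω}
    (hB : BaseD p v (PM v (tH p v₀ ι x₀ (clI v₀ W₀)) G M) (ι X₁ / cx ^ p) Dx)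
    {φ a₀ : Ω} {e : k} {κ : ℕ → k} {n : ℕ} {T : k → Ω →ₐ[k] Ω} {D : ℕ} {f : ℕ → Ω}
    {dd : Fin 2 → Ω → Ω}
    (ho : OutE p v (PM v (tH p v₀ ι x₀ C) G M) (PM v (tH p v₀ ι x₀ F) G M)
      (PM v (tH p v₀ ι x₀ (clI v₀ K₀)) G M) (ι u / c) (ι X₁ / cx ^ p) (ι z / d)
      (ι (al ^ p) / m ^ p) φ e κ n a₀ T D f dd)
    (hdW : ∀ i, ∀ b ∈ PM v (tH p v₀ ι x₀ (clI v₀ W₀)) G M, dd i b = 0) : False := by
  classical
  have hp0 : (0 : ℝ) < p := by exact_mod_cast hp.out.pos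
  -- the fields
  have hWC : clI v₀ W₀ ≤ C := by
    rw [hC]
    exact le_cadj _ _ _
  have hCF : C ≤ F := by
    rw [hF]
    exact le_cadj _ _ _
  have hFK : F ≤ clI v₀ K₀ := by
    rw [hK]
    exact le_cadj _ _ _
  have hCK : C ≤ clI v₀ K₀ := hCF.trans hFK
  have hxC : x₀ ∈ C := hWC hJ.xW
  have hxF : x₀ ∈ F := hCF hxC
  have hk : Ctx0 k v₀ := hJ.ctx.toCtx0
  have hyH := TWCT.tl_tH (p := p) (x := x₀) hJ.iso hJ.xW hy
  have huH := TWCT.tl_tH (p := p) (x := x₀) hJ.iso hxC hu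
  have hzH := TWCT.tl_tH (p := p) (x := x₀) hJ.iso hxF hz
  have hWCH : tH p v₀ ι x₀ (clI v₀ W₀) ≤ tH p v₀ ι x₀ C := TWCT.tH_mono hWC
  have hCFH : tH p v₀ ι x₀ C ≤ tH p v₀ ι x₀ F := TWCT.tH_mono hCF
  have hFKH : tH p v₀ ι x₀ F ≤ tH p v₀ ι x₀ (clI v₀ K₀) := TWCT.tH_mono hFK
  have hcK := TWCT.tH_cld (p := p) (x := x₀) hJ.iso hJ.cpl (clI v₀ K₀)
  have hCc : Cld v₀ C := by
    rw [hC]
    exact cld_cadj _ _ _
  have hFc : Cld v₀ F := by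
    rw [hF]
    exact cld_cadj _ _ _
  have hCH : tH p v₀ ι x₀ C = cadj v (tH p v₀ ι x₀ (clI v₀ W₀)) (ι y) := by
    rw [hC, TWCT.tH_cadj hJ.iso hJ.cpl]
  have hFH : tH p v₀ ι x₀ F = cadj v (tH p v₀ ι x₀ C) (ι u) := by
    rw [hF, TWCT.tH_cadj hJ.iso hJ.cpl]
  have hKH : tH p v₀ ι x₀ (clI v₀ K₀) = cadj v (tH p v₀ ι x₀ F) (ι z) := by
    rw [hK, TWCT.tH_cadj hJ.iso hJ.cpl]
  have hiC : Imm v (tH p v₀ ι x₀ (clI v₀ W₀)) (tH p v₀ ι x₀ C) := by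
    rw [hCH]
    exact hyH.imm
  have hiF : Imm v (tH p v₀ ι x₀ (clI v₀ W₀)) (tH p v₀ ι x₀ F) := by
    rw [hFH]
    exact hiC.trans huH.imm
  have hiK : Imm v (tH p v₀ ι x₀ (clI v₀ W₀)) (tH p v₀ ι x₀ (clI v₀ K₀)) := by
    rw [hKH]
    exact hiF.trans hzH.imm
  have hM := hG.monG
  have hV := vg_div hJ
  -- the Gauss extensions
  have hPC : PM v (tH p v₀ ι x₀ (clI v₀ W₀)) G M ≤ PM v (tH p v₀ ι x₀ C) G M := PM.mono hWCH
  have hPCF : PM v (tH p v₀ ι x₀ C) G M ≤ PM v (tH p v₀ ι x₀ F) G M := PM.mono hCFH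
  have hPFK : PM v (tH p v₀ ι x₀ F) G M ≤ PM v (tH p v₀ ι x₀ (clI v₀ K₀)) G M := PM.mono hFKH
  have eC : PM v (tH p v₀ ι x₀ C) G M = cadj v (PM v (tH p v₀ ι x₀ (clI v₀ W₀)) G M) (ι y) := by
    rw [← PM.cadj, ← hCH]
  have eF : PM v (tH p v₀ ι x₀ F) G M = cadj v (PM v (tH p v₀ ι x₀ C) G M) (ι u) := by
    rw [← PM.cadj, ← hFH]
  have eF' : PM v (tH p v₀ ι x₀ F) G M = cadj v (PM v (tH p v₀ ι x₀ C) G M) (ι u / c) := by
    rw [TWCT.cadj_div (hPC hc) hc0, ← eF]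
  have eK : PM v (tH p v₀ ι x₀ (clI v₀ K₀)) G M = cadj v (PM v (tH p v₀ ι x₀ F) G M) (ι z) := by
    rw [← PM.cadj, ← hKH]
  have eK' : PM v (tH p v₀ ι x₀ (clI v₀ K₀)) G M =
      cadj v (PM v (tH p v₀ ι x₀ F) G M) (ι z / d) := by
    rw [TWCT.cadj_div (hPCF (hPC hd)) hd0, ← eK]
  have tyP : TL v (PM v (tH p v₀ ι x₀ (clI v₀ W₀)) G M) (ι y) r := TWS.TL.pm hM (Imm.refl _) hyH
  have tuP : TL v (PM v (tH p v₀ ι x₀ C) G M) (ι u) t := TWS.TL.pm hM hiC huH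
  have tzP : TL v (PM v (tH p v₀ ι x₀ F) G M) (ι z) s := TWS.TL.pm hM hiF hzH
  have tuP' : TL v (PM v (tH p v₀ ι x₀ C) G M) (ι u / c) 0 := by
    have h1 := TWCT.tl_div tuP (hPC hc) hc0
    rwa [hcv, sub_self] at h1
  have tzP' : TL v (PM v (tH p v₀ ι x₀ F) G M) (ι z / d) 0 := by
    have h1 := TWCT.tl_div tzP (hPCF (hPC hd)) hd0
    rwa [hdv, sub_self] at h1
  -- the base
  set ξ : ℝ := p * v cx with hξ
  have hcxp : cx ^ p ≠ 0 := pow_ne_zero p hcx0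
  have hιX : ι X₁ ∈ PM v (tH p v₀ ι x₀ (clI v₀ W₀)) G M := PM.le (TWCT.mem_tH hX)
  have hxW : ι X₁ / cx ^ p ∈ PM v (tH p v₀ ι x₀ (clI v₀ W₀)) G M := div_mem hιX (pow_mem hcx p)
  have hTBW : TamB p v₀ x₀ (clI v₀ W₀) :=
    tamB_of hp.out hk hJ.cpl hJ.x0 (cld_clI v₀ W₀) hJ.xW
  have hlpX : LP p v₀ (clI v₀ W₀) ξ X₁ := by
    have h1 := TWRR.lp_scale (p := p) hcx hcx0 hB.lp
    rw [zero_add, mul_div_cancel₀ _ hcxp] at h1
    obtain ⟨π, hπ⟩ := TWS.exists_pi0 hJ.cw hM (Imm.refl _)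
      (TWCT.tH_cld (p := p) (x := x₀) hJ.iso hJ.cpl (clI v₀ W₀))
    have h2 := (TWRR.Prj.gauss (p := p) hπ hV).lp (TWCT.mem_tH hX) h1
    have h3 : LP p v₀ (tam p v₀ x₀ (clI v₀ W₀)) ξ X₁ := (TWCT.lp_iff' hJ.iso).1 h2
    exact (TWRR.TamB.prj hTBW).lp hX h3
  have hlpXF : LP p v₀ F ξ X₁ := TWRR.lp_mono_field (hWC.trans hCF) hlpX
  have hnX : ¬ PG p v₀ F ξ X₁ := by
    rintro ⟨g, hg, h1⟩
    have h2 : PG p v (PM v (tH p v₀ ι x₀ F) G M) ξ (ι X₁) := by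
      refine ⟨ι g, PM.le (TWCT.mem_tH hg), ?_⟩
      rw [← map_pow, ← map_sub]
      exact (IsoE.gt_iff hJ.iso).2 h1
    have h3 : PG p v (PM v (tH p v₀ ι x₀ F) G M) 0 (ι X₁ / cx ^ p) := by
      have h4 := TWRR.pg_scale (p := p) (inv_mem (hPCF (hPC hcx))) (inv_ne_zero hcx0) h2
      rw [v.map_inv hcx0] at h4
      have e1 : ξ + p * -v cx = 0 := by
        rw [hξ]
        ring
      rw [e1, inv_pow, inv_mul_eq_div] at h4
      exact h4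
    rw [eF] at h3
    have h4 := TWII.PG.down tuP (hPC hxW) h3
    rw [eC] at h4
    exact base_not_pg hxW hB (TWII.PG.down tyP hxW h4)
  -- the polynomial of `al ^ p`
  have hal : al ^ p ∈ clI v₀ K₀ := le_clI _ hJ.mem
  have hzK : z ∈ clI v₀ K₀ := by
    rw [hK]
    exact self_mem_cadj _ _ _
  obtain ⟨f₀, hf₀, hf₀al⟩ := hz.dense (by rw [← hK]; exact hal) (ν + 1)
  have hgt : Gt v₀ ν (al ^ p - f₀.eval z) := Gt.of_ge hf₀al (by linarith)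
  have hf₀K : f₀.eval z ∈ clI v₀ K₀ := eval_mem (PI_mono hFK hf₀) hzK
  have hlpf : LP p v₀ (clI v₀ K₀) ν (f₀.eval z) := by
    have h1 := hJ.lp.sub (lp_of_ge hgt.ge)
    rwa [sub_sub_cancel] at h1
  have hhit : ∃ l : ℕ, p ∣ l ∧ l ≠ 0 ∧
      ¬ PG p v₀ (clI v₀ K₀) (ν - l * s) ((taylor z f₀).coeff l) := by
    by_contra h1
    push Not at h1
    subst hF
    subst hC
    exact hJ.not_unh hy hu hz hK ⟨f₀, hf₀, PG.of_gt hgt, h1⟩
  have hFal : ∀ a ∈ clI v₀ K₀, IsAlgebraic F a → a ∈ F := fun a ha h => by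
    rw [hK] at ha
    exact hz.alg_mem p hFc ha h
  have hCal : ∀ a ∈ clI v₀ K₀, IsAlgebraic C a → a ∈ C := fun a ha h => by
    have h2 := hFal a ha (D2P.isAlgebraic_mono hCF h)
    rw [hF] at h2
    exact hu.alg_mem p hCc h2 h
  -- the classes of the jets
  have hcls : ∀ l : ℕ, l ≠ 0 → p ∣ l →
      OC p v₀ C (clI v₀ K₀) X₁ (ν - l * s) ((hasseDeriv l f₀).eval z) := by
    intro l hl hpl
    refine TWRR.oc_real hJ.iso hJ.cpl hJ.cw hk hJ.x0 hxC hCc hCK (cld_clI v₀ K₀) hCal hM hV hiK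
      hiC (hCK (hWC hX)) (eval_mem (PI_mono hFK (hasse_mem_PI hf₀ l)) hzK) ?_
    have hf₁ : f₀.map ι.toRingHom ∈ PI (PM v (tH p v₀ ι x₀ F) G M) := fun i => by
      rw [coeff_map]
      exact PM.le (TWCT.mem_tH (hf₀ i))
    have he : ∀ q : Polynomial Ω₀, (q.map ι.toRingHom).eval (ι z) = ι (q.eval z) := fun q => by
      have := Polynomial.eval_map_apply (p := q) ι.toRingHom z
      exact this
    have h1 := oc_jets (κ := κ) (t := n) (e := e) hPCF tzP hf₁ (hPC hιX) (hPC hcx) (hPC hd)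
      (hPC hm) hm0 hmv ho.φF ho.aF ?_ hl hpl
    · rw [TWRR.hasse_map, he, ← eK] at h1
      exact h1
    · rw [he, ← eK]
      have h2 : PG p v (PM v (tH p v₀ ι x₀ (clI v₀ K₀)) G M) 0
          (ι (f₀.eval z) / m ^ p - ι (al ^ p) / m ^ p) := by
        refine PG.of_gt ?_
        have h3 := ((IsoE.gt_iff hJ.iso).2 hgt).neg.mul_ge
          (RVal.ge_self (v := v) (m ^ p)⁻¹)
        rw [v.map_inv (pow_ne_zero p hm0), v.map_pow hm0, hmv, add_neg_cancel] at h3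
        refine (congrArg _ ?_).mp h3
        rw [map_sub]
        ring
      have h3 := PG.add' h2 ho.rel
      refine (congrArg _ ?_).mp h3
      ring
  -- the normal form
  have hiWC : Imm v₀ (clI v₀ W₀) C := by
    rw [hC]
    exact hy.imm
  obtain ⟨μ, hμ, hμW⟩ := exists_mono hiWC
  subst hF
  obtain ⟨N, c', e₂, e', κ', g, B, J, -, hc', he', hκ', -, hN, -, he₂, -, hrel⟩ :=
    TWRR.exists_nrm_cls hk hμ hu hz (hWC hX) hlpXF hnX hf₀ (by rw [← hK]; exact hlpf)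
      (by rw [← hK]; exact hhit) (by rw [← hK]; exact hcls)
  rw [← hK] at hrel
  have hrel' : PG p v₀ (clI v₀ K₀) ν (al ^ p - (algebraMap k Ω₀ e' * μ (ν - s) * (z - c') +
      ∑ i ∈ Icc 1 N, algebraMap k Ω₀ (κ' i) * μ (g i) ^ p * X₁ * (z - c') ^ p ^ i +
      B.eval u)) := by
    have h1 := PG.add' (PG.of_gt (p := p) (F := clI v₀ K₀) hgt) hrel
    rwa [sub_add_sub_cancel] at h1
  have hEW : algebraMap k Ω₀ e' * μ (ν - s) ∈ clI v₀ W₀ := by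
    by_cases h0 : e' = 0
    · rw [h0, map_zero, zero_mul]
      exact zero_mem _
    · exact mul_mem ((clI v₀ W₀).algebraMap_mem _) (hμW _ (he' h0))
  have hAW : ∀ i ∈ Icc 1 N, algebraMap k Ω₀ (κ' i) * μ (g i) ^ p * X₁ ∈ clI v₀ W₀ := by
    intro i hi
    by_cases h0 : κ' i = 0
    · rw [h0, map_zero, zero_mul, zero_mul]
      exact zero_mem _
    · exact mul_mem (mul_mem ((clI v₀ W₀).algebraMap_mem _)
        (pow_mem (hμW _ (hκ' i hi h0).1) p)) hX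
  -- the normal form in the big field
  have n1 := TWRR.nrm_core hJ.iso hJ.cpl hJ.cw hk hJ.x0 hxC hCc hu hM hV hiF hiC hN (hPC hc) hc0
    (hPC hd) hd0 (hPC hm) hm0
  rw [hcv, hdv, hmv, sub_self, sub_self, sub_self, map_sub, sub_div] at n1
  have hmp : m ^ p ≠ 0 := pow_ne_zero p hm0
  have hrelH : PG p v (PM v (tH p v₀ ι x₀ (clI v₀ K₀)) G M) 0 (ι (al ^ p) / m ^ p -
      ((m ^ p)⁻¹ * ι (algebraMap k Ω₀ e' * μ (ν - s)) * d * (ι z / d - ι c' / d) +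
      ∑ i ∈ Icc 1 N, TWRR.scA p d m (fun i => ι (algebraMap k Ω₀ (κ' i) * μ (g i) ^ p * X₁)) i *
        (ι z / d - ι c' / d) ^ p ^ i +
      (Polynomial.C (m ^ p)⁻¹ * TWRR.sc c (B.map ι.toRingHom)).eval (ι u / c))) := by
    obtain ⟨q, hq, hqq⟩ := hrel'
    have h1 : PG p v (PM v (tH p v₀ ι x₀ (clI v₀ K₀)) G M) ν
        (ι (al ^ p - (algebraMap k Ω₀ e' * μ (ν - s) * (z - c') +
          ∑ i ∈ Icc 1 N, algebraMap k Ω₀ (κ' i) * μ (g i) ^ p * X₁ * (z - c') ^ p ^ i +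
          B.eval u))) := by
      refine ⟨ι q, PM.le (TWCT.mem_tH hq), ?_⟩
      rw [← map_pow, ← map_sub]
      exact (IsoE.gt_iff hJ.iso).2 hqq
    have h2 := TWRR.pg_scale (p := p) (inv_mem (hPFK (hPCF (hPC hm)))) (inv_ne_zero hm0) h1
    have e1 : ν + p * v m⁻¹ = 0 := by
      rw [v.map_inv hm0, ← hmv]
      ring
    rw [e1] at h2
    refine (congrArg _ ?_).mp h2
    have h3 : (Polynomial.C (m ^ p)⁻¹ * TWRR.sc c (B.map ι.toRingHom)).eval (ι u / c) =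
        (m ^ p)⁻¹ * ι (B.eval u) := by
      rw [eval_mul, eval_C, TWRR.sc_eval, mul_div_cancel₀ _ hc0]
      congr 1
      exact Polynomial.eval_map_apply (p := B) ι.toRingHom u
    have h4 : ∑ i ∈ Icc 1 N, TWRR.scA p d m
        (fun i => ι (algebraMap k Ω₀ (κ' i) * μ (g i) ^ p * X₁)) i *
        (ι z / d - ι c' / d) ^ p ^ i = (m ^ p)⁻¹ * ι (∑ i ∈ Icc 1 N,
        algebraMap k Ω₀ (κ' i) * μ (g i) ^ p * X₁ * (z - c') ^ p ^ i) := by
      rw [map_sum, mul_sum]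
      refine sum_congr rfl fun i _ => ?_
      rw [TWRR.scA, ← sub_div, div_pow, map_mul ι (algebraMap k Ω₀ (κ' i) * μ (g i) ^ p * X₁),
        map_pow ι (z - c'), map_sub]
      field_simp
    have h5 : (m ^ p)⁻¹ * ι (algebraMap k Ω₀ e' * μ (ν - s)) * d * (ι z / d - ι c' / d) =
        (m ^ p)⁻¹ * ι (algebraMap k Ω₀ e' * μ (ν - s) * (z - c')) := by
      rw [← sub_div, map_mul ι (algebraMap k Ω₀ e' * μ (ν - s)), map_sub]
      field_simp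
    rw [h3, h4, h5, map_sub ι, map_add ι, map_add ι, inv_pow]
    ring
  have ho' := ho
  rw [eK', eF'] at ho'
  rw [eF'] at tzP'
  rw [eK', eF'] at hrelH
  have hc'H : ι c' / d ∈ cadj v (PM v (tH p v₀ ι x₀ C) G M) (ι u / c) := by
    rw [← eF']
    exact div_mem (PM.le (TWCT.mem_tH hc')) (hPCF (hPC hd))
  obtain ⟨ψ, D', hjl, hocl⟩ := exists_jl_ocls hJ.c0 hPC tuP' tzP' ho' hxW hdW hc'H n1
    (mul_mem (mul_mem (inv_mem (pow_mem hm p)) (PM.le (TWCT.mem_tH hEW))) hd)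
    (fun i hi => mul_mem (mul_mem (inv_mem (pow_mem hm p)) (PM.le (TWCT.mem_tH (hAW i hi))))
      (pow_mem hd _)) hrelH
  -- back to the real field
  have hocl' : OClsJ p v (PM v (tH p v₀ ι x₀ C) G M) (ι u / c) 0 0
      ((m ^ p)⁻¹ * ι (algebraMap k Ω₀ e' * μ (ν - s)) * d)
      (TWRR.scA p d m fun i => ι (algebraMap k Ω₀ (κ' i) * μ (g i) ^ p * X₁)) N
      (Polynomial.C (m ^ p)⁻¹ * TWRR.sc c (B.map ι.toRingHom)) ψ (ι X₁) := by
    intro l hl hpl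
    obtain ⟨h, hh, h1⟩ := hocl l hl hpl
    refine ⟨h / cx, div_mem hh (hPC hcx), ?_⟩
    have e1 : (h / cx) ^ p * ι X₁ = h ^ p * (ι X₁ / cx ^ p) := by
      rw [div_pow]
      ring
    rw [e1]
    exact h1
  obtain ⟨ψ₀, hjl₀, hocl₀⟩ := TWRR.j1_real (w := u) (y := z - c') hJ.iso hJ.cpl hJ.cw hk hJ.x0
    hxC hCc hu hM hV hiF hiC hN (hWC hX) (hPC hc) hc0 (hPC hd) hd0 (hPC hm) hm0 (φ := ψ)
    (D := D') (by rw [hcv, hdv, sub_self, sub_self, map_sub, sub_div]; exact hjl)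
    (by rw [hcv, hmv, sub_self, sub_self]; exact hocl')
  -- the exit
  have hgp : GP p v₀ C := TWCT.gp_of_div hk fun a ha => by
    rw [VG.imm hiWC] at ha ⊢
    obtain ⟨b, hb, hb0, rfl⟩ := ha
    obtain ⟨b', hb', hb0', h1⟩ := hJ.pd b hb hb0
    refine ⟨b', hb', hb0', ?_⟩
    rw [h1]
    field_simp
  have hOC : ∀ i ∈ Icc 1 N, OC p v₀ C C X₁ (ν - p ^ i * s)
      (algebraMap k Ω₀ (κ' i) * μ (g i) ^ p * X₁) := by
    intro i hi
    by_cases h0 : κ' i = 0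
    · refine ⟨0, zero_mem _, ?_⟩
      rw [h0, map_zero, zero_mul, zero_mul, zero_pow hp.out.ne_zero, zero_mul, sub_zero]
      exact PG.of_gt Gt.zero
    · obtain ⟨q, hq⟩ : ∃ q : k, q ^ p = κ' i := IsAlgClosed.exists_pow_nat_eq _ hp.out.pos
      refine ⟨algebraMap k Ω₀ q * μ (g i), mul_mem (C.algebraMap_mem _)
        (hWC (hμW _ (hκ' i hi h0).1)), ?_⟩
      rw [mul_pow, ← map_pow, hq, sub_self]
      exact PG.of_gt Gt.zero
  have eC₀ : C = clI v₀ (adj W₀ y) := hC.trans clI_adj_clI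
  have htr : Algebra.trdeg k (adj W₀ y) = (2 : ℕ) := by
    rw [TW.HRLU.trdeg_adj (TWC.TL.transcendental hy (le_clI W₀)), hJ.trW]
    norm_num
  subst eC₀
  apply hJ.bad
  refine TWRR.hrone_j1 (C₀ := adj W₀ y) (w := u) (y := z - c') hJ.ctx hJ.cpl hJ.fg hJ.full hJ.tr
    hJ.bd hJ.mem hJ.bda (hJ.full_of (D2P.mem_adj_self W₀ y).2) htr hJ.lev hgp (hWC hX) hu
    (hz.sub_mem hc') ?_ hN hjl₀ hOC hocl₀ he₂ hrel'
  rw [cadj_sub_mem hc']
  exact hK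

end Real

end Pool.Agent.TWRB
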