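import Pool.Agent.Lib.TWRB.Out
import Pool.Agent.Lib.TWRR.J0

/-!
# Rows A and B: the end in the big field, for any normal form

* `exists_jl_ocls`: the limits of the jets and the classes of the effects, for any normal form of `a`
  over `C`, from the output of the core.
-/

set_option autoImplicit false

open Polynomial Finset

namespace Pool.Agent.TWRB

open Pool.Agent.H15JM (RVal)
open Pool.Agent.LU1 (VPos)
open Pool.Agent.D2 (Ctx0)
open Pool.Agent.D2P (mem_clI)
open Pool.Agent.TWM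
open Pool.Agent.TWS (IsoE SphC)
open Pool.Agent.TWII (PG LP)
open Pool.Agent.TWN1
open Pool.Agent.TWLY
open Pool.Agent.TWCY (Drv)
open Pool.Agent.TWRR (Att JL OClsJ)

universe u

variable {k Ω : Type u} [Field k] [Field Ω] [Algebra k Ω] {v : RVal Ω}
  {W C F K : IntermediateField k Ω} {w y x : Ω} {p : ℕ} {T : k → Ω →ₐ[k] Ω} {D : ℕ} {f : ℕ → Ω}

/-- The elements of value `> 0`. -/
def gtM (hk : Ctx0 k v) : Submodule k Ω where
  carrier := {a | Gt v 0 a}
  add_mem' := fun ha hb => Gt.add ha hb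
  zero_mem' := Gt.zero
  smul_mem' := fun c a ha => by
    change Gt v 0 (c • a)
    rw [Algebra.smul_def]
    by_cases hc : c = 0
    · rw [hc, map_zero, zero_mul]
      exact Gt.zero
    have h1 : v.Ge 0 (algebraMap k Ω c) := fun _ => (hk.triv c hc).ge
    have h2 := ha.mul_ge h1
    rw [add_zero] at h2
    rwa [mul_comm]

theorem mem_gtM {hk : Ctx0 k v} {a : Ω} : a ∈ gtM hk ↔ Gt v 0 a := Iff.rfl

/-- `T c` maps `F` into itself. -/
theorem att_mem [IsAlgClosed Ω] (hw : TL v C w 0) (h : Att v C (cadj v C w) w y T D f) (c : k)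
    {g : Ω} (hg : g ∈ cadj v C w) : T c g ∈ cadj v C w := by
  have hcl : Cld v (cadj v C w) := cld_cadj _ _ _
  refine hcl (mem_clI.2 fun r => ?_)
  obtain ⟨G, hG, h1⟩ := hw.dense hg r
  refine ⟨T c (G.eval w), ?_, ?_⟩
  · rw [h.eval hG c]
    exact eval_mem (PI_mono (le_cadj v C w) hG)
      (add_mem (self_mem_cadj v C w) ((cadj v C w).algebraMap_mem c))
  · rw [← map_sub]
    exact (h.iso c).ge_iff.2 h1

theorem drv_zero {d : Ω → Ω} (hd : Drv v F d) : d 0 = 0 := by
  have h1 := hd.alg 0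
  rwa [map_zero] at h1

theorem drv_gt {d : Ω → Ω} (hd : Drv v F d) {g : Ω} (hg : g ∈ F) (h : Gt v 0 g) :
    Gt v 0 (d g) := by
  obtain ⟨μ, hμ, h1⟩ := TWLM.exists_ge_of_gt h
  exact Gt.of_ge (hd.norm g hg _ h1) (by linarith)

/-- The jets of an element of `F`. -/
theorem att_sub [IsAlgClosed Ω] (hw : TL v C w 0) (h : Att v C (cadj v C w) w y T D f)
    {g : Ω} (hg : g ∈ cadj v C w) :
    ∃ (D' : ℕ) (f' : ℕ → Ω), Att v C (cadj v C w) w (y + g) T D' f' ∧ (∀ j, D' < j → f' j = 0) ∧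
      ∀ c, Gt v 0 (T c g - g - (∑ j ∈ Icc 1 D', algebraMap k Ω c ^ j * f' j -
        ∑ j ∈ Icc 1 D, algebraMap k Ω c ^ j * f j)) := by
  obtain ⟨θ, hθ, h1⟩ := hw.dense hg 1
  set D' := max D θ.natDegree with hD'
  set f' : ℕ → Ω := fun j => if j ≤ D' then (if j ≤ D then f j else 0) + (hasseDeriv j θ).eval w
    else 0 with hf'
  have hθF : ∀ j, (hasseDeriv j θ).eval w ∈ cadj v C w := fun j =>
    TWLM.eval_mem_cadj (hasse_mem_PI hθ j)
  have hsum : ∀ c : k, ∑ j ∈ Icc 1 D', algebraMap k Ω c ^ j * f' j =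
      ∑ j ∈ Icc 1 D, algebraMap k Ω c ^ j * f j + (T c (θ.eval w) - θ.eval w) := by
    intro c
    have e1 : ∑ j ∈ Icc 1 D', algebraMap k Ω c ^ j * f' j =
        ∑ j ∈ Icc 1 D', algebraMap k Ω c ^ j * (if j ≤ D then f j else 0) +
          ∑ j ∈ Icc 1 D', algebraMap k Ω c ^ j * (hasseDeriv j θ).eval w := by
      rw [← sum_add_distrib]
      refine sum_congr rfl fun j hj => ?_
      simp only [hf']
      rw [if_pos (mem_Icc.1 hj).2]
      ring
    have e2 : ∑ j ∈ Icc 1 D', algebraMap k Ω c ^ j * (if j ≤ D then f j else 0) =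
        ∑ j ∈ Icc 1 D, algebraMap k Ω c ^ j * f j := by
      symm
      refine sum_subset_zero_on_sdiff (Icc_subset_Icc le_rfl (le_max_left _ _))
        (fun j hj => ?_) (fun j hj => ?_)
      · have h2 : ¬ j ≤ D := fun h3 =>
          (mem_sdiff.1 hj).2 (mem_Icc.2 ⟨(mem_Icc.1 (mem_sdiff.1 hj).1).1, h3⟩)
        rw [if_neg h2, mul_zero]
      · rw [if_pos (mem_Icc.1 hj).2]
    have e3 : ∑ j ∈ Icc 1 D', algebraMap k Ω c ^ j * (hasseDeriv j θ).eval w =
        T c (θ.eval w) - θ.eval w := by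
      rw [h.eval hθ c, TWN1.rt_taylor (le_max_right D θ.natDegree) w (w + algebraMap k Ω c),
        ← hD', sum_range_succ', hasseDeriv_zero', pow_zero, mul_one, add_sub_cancel_right,
        range_eq_Ico, sum_Ico_add' (fun j => (hasseDeriv j θ).eval w *
          (w + algebraMap k Ω c - w) ^ j) 0 D' 1]
      rw [zero_add]
      have e4 : Ico 1 (D' + 1) = Icc 1 D' := by
        ext j
        simp only [mem_Ico, mem_Icc]
        omega
      rw [e4]
      refine sum_congr rfl fun j _ => ?_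
      rw [add_sub_cancel_left]
      ring
    rw [e1, e2, e3]
  have hgt : ∀ c : k, Gt v 0 (T c g - g - (T c (θ.eval w) - θ.eval w)) := by
    intro c
    have e1 : T c g - g - (T c (θ.eval w) - θ.eval w) =
        T c (g - θ.eval w) - (g - θ.eval w) := by
      rw [map_sub]
      ring
    rw [e1]
    exact Gt.of_ge (((h.iso c).ge_iff.2 h1).sub h1) one_pos
  refine ⟨D', f', ⟨h.iso, h.fix, h.w, fun j => ?_, fun c => ?_⟩, fun j hj => ?_, fun c => ?_⟩
  · simp only [hf']
    split_ifs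
    · exact add_mem (h.fF j) (hθF j)
    · exact add_mem (zero_mem _) (hθF j)
    · exact zero_mem _
  · rw [hsum c, map_add]
    have e1 : T c y + T c g - (y + g) - (∑ j ∈ Icc 1 D, algebraMap k Ω c ^ j * f j +
        (T c (θ.eval w) - θ.eval w)) = (T c y - y - ∑ j ∈ Icc 1 D, algebraMap k Ω c ^ j * f j) +
        (T c g - g - (T c (θ.eval w) - θ.eval w)) := by ring
    rw [e1]
    exact (h.jet c).add (hgt c).ge
  · simp only [hf']
    rw [if_neg (by omega)]
  · rw [hsum c, add_sub_cancel_left]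
    exact hgt c

/-- The derivative of a `p ^ i`-th power. -/
theorem der_powq [Fact p.Prime] [CharP Ω p] {i : ℕ} (hi : 1 ≤ i) (q : Polynomial Ω) :
    derivative (q ^ p ^ i) = 0 := by
  have h1 : ((p ^ i : ℕ) : Ω) = 0 :=
    (CharP.cast_eq_zero_iff Ω p _).2 (dvd_pow_self p (by omega))
  rw [derivative_pow, h1, map_zero, zero_mul, zero_mul]

/-- The first form. -/
noncomputable def frm1 (p : ℕ) (x φ a₀ : Ω) (e : k) (κ : ℕ → k) (t : ℕ) : Polynomial Ω :=
  Polynomial.C (algebraMap k Ω e) * (X - Polynomial.C φ) +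
    ∑ i ∈ range (t + 1), Polynomial.C (x * algebraMap k Ω (κ i)) * (X - Polynomial.C φ) ^ p ^ (i + 1) + Polynomial.C a₀

/-- The second form. -/
noncomputable def frm2 (p : ℕ) (c e : Ω) (A : ℕ → Ω) (N : ℕ) (b : Ω) : Polynomial Ω :=
  Polynomial.C e * (X - Polynomial.C c) + ∑ i ∈ Icc 1 N, Polynomial.C (A i) * (X - Polynomial.C c) ^ p ^ i + Polynomial.C b

theorem frm1_eval (x φ a₀ : Ω) (e : k) (κ : ℕ → k) (t : ℕ) (ψ : Ω) :
    (frm1 p x φ a₀ e κ t).eval ψ =
      algebraMap k Ω e * (ψ - φ) + x * PP p κ t (ψ - φ) + a₀ := by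
  rw [frm1, eval_add, eval_add, eval_finsetSum, PP, mul_sum]
  simp only [eval_mul, eval_C, eval_sub, eval_X, eval_pow]
  congr 2
  exact sum_congr rfl fun i _ => by ring

theorem frm2_eval (c e : Ω) (A : ℕ → Ω) (N : ℕ) (b ψ : Ω) :
    (frm2 p c e A N b).eval ψ = e * (ψ - c) + ∑ i ∈ Icc 1 N, A i * (ψ - c) ^ p ^ i + b := by
  rw [frm2, eval_add, eval_add, eval_finsetSum]
  simp only [eval_mul, eval_C, eval_sub, eval_X, eval_pow]

theorem frm1_mem {φ a₀ : Ω} {e : k} {κ : ℕ → k} {t : ℕ} (hx : x ∈ F) (hφ : φ ∈ F)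
    (ha : a₀ ∈ F) : frm1 p x φ a₀ e κ t ∈ PI F :=
  add_mem (add_mem (mul_mem (C_mem_PI (F.algebraMap_mem _)) (sub_mem X_mem_PI (C_mem_PI hφ)))
    (sum_mem fun i _ => mul_mem (C_mem_PI (mul_mem hx (F.algebraMap_mem _)))
      (pow_mem (sub_mem X_mem_PI (C_mem_PI hφ)) _))) (C_mem_PI ha)

theorem frm2_mem {c e b : Ω} {A : ℕ → Ω} {N : ℕ} (hc : c ∈ F) (he : e ∈ F)
    (hA : ∀ i ∈ Icc 1 N, A i ∈ F) (hb : b ∈ F) : frm2 p c e A N b ∈ PI F :=
  add_mem (add_mem (mul_mem (C_mem_PI he) (sub_mem X_mem_PI (C_mem_PI hc)))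
    (sum_mem fun i hi => mul_mem (C_mem_PI (hA i hi))
      (pow_mem (sub_mem X_mem_PI (C_mem_PI hc)) _))) (C_mem_PI hb)

theorem frm1_der [hp : Fact p.Prime] [CharP Ω p] (x φ a₀ : Ω) (e : k) (κ : ℕ → k) (t : ℕ) :
    derivative (frm1 p x φ a₀ e κ t) = Polynomial.C (algebraMap k Ω e) := by
  rw [frm1, map_add, map_add, derivative_C, add_zero, derivative_C_mul, derivative_X_sub_C,
    mul_one, derivative_sum, sum_eq_zero, add_zero]
  intro i _
  rw [derivative_C_mul, der_powq (by omega), mul_zero]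

theorem frm2_der [hp : Fact p.Prime] [CharP Ω p] (c e : Ω) (A : ℕ → Ω) (N : ℕ) (b : Ω) :
    derivative (frm2 p c e A N b) = Polynomial.C e := by
  rw [frm2, map_add, map_add, derivative_C, add_zero, derivative_C_mul, derivative_X_sub_C,
    mul_one, derivative_sum, sum_eq_zero, add_zero]
  intro i hi
  rw [derivative_C_mul, der_powq (mem_Icc.1 hi).1, mul_zero]

section Main

variable [hp : Fact p.Prime] [CharP Ω p] [IsAlgClosed Ω] [IsAlgClosed k]

/-- **The limits of the jets and the classes of the effects**, for any normal form of `a`. -/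
theorem exists_jl_ocls (hk : Ctx0 k v) (hWC : W ≤ C) {u z a φ a₀ : Ω} {e : k} {κ : ℕ → k}
    {t : ℕ} {dd : Fin 2 → Ω → Ω} (hu : TL v C u 0) (hz : TL v (cadj v C u) z 0)
    (ho : OutE p v C (cadj v C u) (cadj v (cadj v C u) z) u x z a φ e κ t a₀ T D f dd)
    (hxW : x ∈ W) (hdW : ∀ i, ∀ b ∈ W, dd i b = 0) {c' : Ω} (hc' : c' ∈ cadj v C u) {e' : Ω}
    {A : ℕ → Ω} {N J : ℕ} {B : Polynomial Ω} (hN : Nrm p v C u (z - c') 0 0 0 e' A N B J 0)
    (he' : e' ∈ W) (hA : ∀ m ∈ Icc 1 N, A m ∈ W)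
    (hrel : PG p v (cadj v (cadj v C u) z) 0
      (a - (e' * (z - c') + ∑ i ∈ Icc 1 N, A i * (z - c') ^ p ^ i + B.eval u))) :
    ∃ (ψ : ℕ → Polynomial Ω) (D' : ℕ), JL p v C u (z - c') 0 0 e' J ψ D' ∧
      OClsJ p v C u 0 0 e' A N B ψ x := by
  classical
  have hCF : C ≤ cadj v C u := le_cadj v C u
  have hFK : cadj v C u ≤ cadj v (cadj v C u) z := le_cadj _ _ _
  have hBF : ∀ l, (hasseDeriv l B).eval u ∈ cadj v C u := fun l =>
    TWLM.eval_mem_cadj (hasse_mem_PI hN.BC l)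
  have hBF0 : B.eval u ∈ cadj v C u := TWLM.eval_mem_cadj hN.BC
  have hxF : x ∈ cadj v C u := hCF (hWC hxW)
  have he'F : e' ∈ cadj v C u := hCF (hWC he')
  have hAF : ∀ m ∈ Icc 1 N, A m ∈ cadj v C u := fun m hm => hCF (hWC (hA m hm))
  -- the difference of the two forms
  set P : Polynomial Ω := frm1 p x φ a₀ e κ t - frm2 p c' e' A N (B.eval u) with hP
  have hPF : P ∈ PI (cadj v C u) := sub_mem (frm1_mem hxF ho.φF ho.aF)
    (frm2_mem hc' he'F hAF hBF0)
  have hPG : PG p v (cadj v (cadj v C u) z) 0 (P.eval z) := by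
    rw [hP, eval_sub, frm1_eval, frm2_eval]
    have h1 := hrel.sub ho.rel
    refine (congrArg _ ?_).mp h1
    ring
  obtain ⟨Q, hQ, hgt⟩ := PG.exists_poly hz hPG
  have hRF : P - Q ^ p ∈ PI (cadj v C u) := sub_mem hPF (pow_mem hQ p)
  -- the linear coefficients
  have hee : Gt v 0 (algebraMap k Ω e - e') := by
    have h1 := TWII.TL.jet_gt hz hRF hgt.ge (l := 1) le_rfl
    rw [taylor_coeff, hasseDeriv_one', map_sub, hP, map_sub, frm1_der, frm2_der, derivative_pow,
      CharP.cast_eq_zero Ω p, map_zero, zero_mul, zero_mul, sub_zero, eval_sub, eval_C,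
      eval_C] at h1
    simpa using h1
  obtain ⟨μ, hμ, hee'⟩ := TWLM.exists_ge_of_gt hee
  obtain ⟨δ, hδ, hdeep⟩ := TL.deep hz {P - Q ^ p} (fun g hg => by
    rw [mem_singleton.1 hg]
    exact hRF)
  set ε := min δ (μ / 2) with hε
  have hε0 : 0 < ε := lt_min hδ (by linarith)
  obtain ⟨θ, hθ, hzθ⟩ := hz.lim ε hε0
  have hθgt : Gt v 0 ((P - Q ^ p).eval θ) := by
    refine ((hdeep θ (hzθ.mono ?_) _ (mem_singleton_self _)).2 0).1 hgt
    have := min_le_left δ (μ / 2)
    linarith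
  -- the jets of `z - c'`
  have hφc : φ - c' ∈ cadj v C u := sub_mem ho.φF hc'
  obtain ⟨D', f', hatt', hf'0, hf'⟩ := att_sub hu ho.att hφc
  have e0 : z - φ + (φ - c') = z - c' := by ring
  rw [e0] at hatt'
  have hTF : ∀ (c : k) {g : Ω}, g ∈ cadj v C u → T c g ∈ cadj v C u := fun c g hg =>
    att_mem hu ho.att c hg
  have hSF : ∀ c : k, ∑ j ∈ Icc 1 D, algebraMap k Ω c ^ j * f j ∈ cadj v C u := fun c =>
    sum_mem fun j _ => mul_mem (pow_mem ((cadj v C u).algebraMap_mem c) j) (ho.att.fF j)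
  have hSF' : ∀ c : k, ∑ j ∈ Icc 1 D', algebraMap k Ω c ^ j * f' j ∈ cadj v C u := fun c =>
    sum_mem fun j _ => mul_mem (pow_mem ((cadj v C u).algebraMap_mem c) j) (hatt'.fF j)
  -- the point values
  have hpt : ∀ (c : k) (i : Fin 2), Gt v 0 (dd i (e' * ∑ j ∈ Icc 1 D', algebraMap k Ω c ^ j * f' j +
      (T c (B.eval u) - B.eval u))) := by
    intro c i
    set S := ∑ j ∈ Icc 1 D, algebraMap k Ω c ^ j * f j with hS
    set S' := ∑ j ∈ Icc 1 D', algebraMap k Ω c ^ j * f' j with hS'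
    have hSm : S ∈ cadj v C u := hSF c
    have hSm' : S' ∈ cadj v C u := hSF' c
    set y₁ := T c (θ - φ) - (θ - φ) with hy₁
    set y₂ := T c (θ - c') - (θ - c') with hy₂
    have hy₁F : y₁ ∈ cadj v C u := sub_mem (hTF c (sub_mem hθ ho.φF)) (sub_mem hθ ho.φF)
    have hy₂F : y₂ ∈ cadj v C u := sub_mem (hTF c (sub_mem hθ hc')) (sub_mem hθ hc')
    -- the difference of `P`
    set g := T c (Q.eval θ) - Q.eval θ with hg
    have hQθ : Q.eval θ ∈ cadj v C u := eval_mem hQ hθ
    have hgF : g ∈ cadj v C u := sub_mem (hTF c hQθ) hQθ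
    set r := T c ((P - Q ^ p).eval θ) - (P - Q ^ p).eval θ with hr
    have hRθ : (P - Q ^ p).eval θ ∈ cadj v C u := eval_mem hRF hθ
    have hrF : r ∈ cadj v C u := sub_mem (hTF c hRθ) hRθ
    have hrgt : Gt v 0 r := (IsoE.gt_iff (ho.att.iso c) |>.2 hθgt).sub hθgt
    have eP : T c (P.eval θ) - P.eval θ = r + g ^ p := by
      have e2 : (P - Q ^ p).eval θ = P.eval θ - Q.eval θ ^ p := (eval_sub _ _ _).trans
        (congrArg _ (eval_pow p))
      rw [hr, hg, sub_pow_char, e2, map_sub, map_pow]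
      ring
    -- the expansion
    have eP' : T c (P.eval θ) - P.eval θ =
        (algebraMap k Ω e * y₁ + ∑ i ∈ range (t + 1), x * algebraMap k Ω (κ i) * y₁ ^ p ^ (i + 1)
          + (T c a₀ - a₀)) -
        (e' * y₂ + ∑ i ∈ Icc 1 N, A i * y₂ ^ p ^ i + (T c (B.eval u) - B.eval u)) := by
      rw [hP, eval_sub, frm1_eval, frm2_eval, PP]
      have hx' : T c x = x := ho.att.fix c x (hWC hxW)
      have he1 : T c e' = e' := ho.att.fix c e' (hWC he')
      have hA1 : ∀ m ∈ Icc 1 N, T c (A m) = A m := fun m hm => ho.att.fix c _ (hWC (hA m hm))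
      have hs1 : ∑ i ∈ range (t + 1), x * algebraMap k Ω (κ i) * y₁ ^ p ^ (i + 1) =
          x * ∑ i ∈ range (t + 1), algebraMap k Ω (κ i) * T c (θ - φ) ^ p ^ (i + 1) -
          x * ∑ i ∈ range (t + 1), algebraMap k Ω (κ i) * (θ - φ) ^ p ^ (i + 1) := by
        rw [mul_sum, mul_sum, ← sum_sub_distrib]
        refine sum_congr rfl fun i _ => ?_
        rw [hy₁, sub_pow_char_pow]
        ring
      have hs2 : ∑ i ∈ Icc 1 N, A i * y₂ ^ p ^ i =
          ∑ i ∈ Icc 1 N, A i * T c (θ - c') ^ p ^ i - ∑ i ∈ Icc 1 N, A i * (θ - c') ^ p ^ i := by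
        rw [← sum_sub_distrib]
        refine sum_congr rfl fun i _ => ?_
        rw [hy₂, sub_pow_char_pow]
        ring
      have hs3 : T c (∑ i ∈ Icc 1 N, A i * (θ - c') ^ p ^ i) =
          ∑ i ∈ Icc 1 N, A i * T c (θ - c') ^ p ^ i := by
        rw [map_sum]
        refine sum_congr rfl fun i hi => ?_
        rw [map_mul, map_pow, hA1 i hi]
      have hs4 : T c (∑ i ∈ range (t + 1), algebraMap k Ω (κ i) * (θ - φ) ^ p ^ (i + 1)) =
          ∑ i ∈ range (t + 1), algebraMap k Ω (κ i) * T c (θ - φ) ^ p ^ (i + 1) := by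
        rw [map_sum]
        refine sum_congr rfl fun i _ => ?_
        rw [map_mul, map_pow, AlgHom.commutes]
      rw [hs1, hs2, map_sub, map_add, map_add, map_add, map_add, map_mul, map_mul, map_mul, hs3,
        hs4, AlgHom.commutes, hx', he1, hy₁, hy₂]
      ring
    -- the derivatives
    have hd := ho.drv i
    have hsx : ∑ i ∈ range (t + 1), x * algebraMap k Ω (κ i) * y₁ ^ p ^ (i + 1) ∈ cadj v C u :=
      sum_mem fun i _ => mul_mem (mul_mem hxF ((cadj v C u).algebraMap_mem _))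
        (pow_mem hy₁F _)
    have hsA : ∑ i ∈ Icc 1 N, A i * y₂ ^ p ^ i ∈ cadj v C u :=
      sum_mem fun i hi => mul_mem (hAF i hi) (pow_mem hy₂F _)
    have hdsx : dd i (∑ i ∈ range (t + 1), x * algebraMap k Ω (κ i) * y₁ ^ p ^ (i + 1)) = 0 := by
      rw [TWRR.drv_sum hd _ _ fun j _ => mul_mem (mul_mem hxF ((cadj v C u).algebraMap_mem _))
        (pow_mem hy₁F _)]
      refine sum_eq_zero fun j _ => ?_
      rw [TWRR.drv_mul hd (mul_mem hxF ((cadj v C u).algebraMap_mem _)) (pow_mem hy₁F _)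
        (hdW i _ (mul_mem hxW (W.algebraMap_mem _))), TWRR.drv_powq hd hy₁F (by omega), mul_zero]
    have hdsA : dd i (∑ i ∈ Icc 1 N, A i * y₂ ^ p ^ i) = 0 := by
      rw [TWRR.drv_sum hd _ _ fun j hj => mul_mem (hAF j hj) (pow_mem hy₂F _)]
      refine sum_eq_zero fun j hj => ?_
      rw [TWRR.drv_mul hd (hAF j hj) (pow_mem hy₂F _) (hdW i _ (hA j hj)),
        TWRR.drv_powq hd hy₂F (mem_Icc.1 hj).1, mul_zero]
    have hdg : dd i (g ^ p) = 0 := TWRR.drv_pow hd hgF
    have hdr : Gt v 0 (dd i r) := drv_gt hd hrF hrgt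
    -- the rest
    have h1 : Gt v 0 (algebraMap k Ω e * (y₁ - S) - e' * (y₂ - S')) := by
      have h2 : v.Ge (-ε) (y₁ - S) := by
        have e1 : y₁ - S = (T c (z - φ) - (z - φ) - S) - (T c (z - θ) - (z - θ)) := by
          rw [hy₁]
          simp only [map_sub]
          ring
        rw [e1]
        have h3 : v.Ge (-ε) (z - θ) := hzθ.mono (by linarith)
        exact ((ho.att.jet c).mono (by linarith)).sub (((ho.att.iso c).ge_iff.2 h3).sub h3)
      have h3 : Gt v 0 (y₁ - S - (y₂ - S')) := by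
        have e1 : y₁ - S - (y₂ - S') = -(T c (φ - c') - (φ - c') - (S' - S)) := by
          rw [hy₁, hy₂]
          simp only [map_sub]
          ring
        rw [e1]
        exact (hf' c).neg
      have e1 : algebraMap k Ω e * (y₁ - S) - e' * (y₂ - S') =
          (algebraMap k Ω e - e') * (y₁ - S) + (y₁ - S - (y₂ - S')) * e' := by ring
      rw [e1]
      have h4 : v.Ge 0 e' := by
        have := hN.ege
        rwa [sub_zero] at this
      have h5 := h3.mul_ge h4
      rw [add_zero] at h5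
      refine Gt.add (Gt.of_ge (hee'.mul h2) ?_) h5
      have := min_le_right δ (μ / 2)
      linarith
    have h1F : algebraMap k Ω e * (y₁ - S) - e' * (y₂ - S') ∈ cadj v C u :=
      sub_mem (mul_mem ((cadj v C u).algebraMap_mem _) (sub_mem hy₁F hSm))
        (mul_mem he'F (sub_mem hy₂F hSm'))
    have hX := ho.eff c i
    rw [← hS] at hX
    set Xc := algebraMap k Ω e * S + (T c a₀ - a₀) with hXc
    have hTa : T c a₀ - a₀ ∈ cadj v C u := sub_mem (hTF c ho.aF) ho.aF
    have hXF : Xc ∈ cadj v C u := add_mem (mul_mem ((cadj v C u).algebraMap_mem _) hSm) hTa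
    have eX : e' * S' + (T c (B.eval u) - B.eval u) = (Xc +
        (algebraMap k Ω e * (y₁ - S) - e' * (y₂ - S'))) +
        ((∑ i ∈ range (t + 1), x * algebraMap k Ω (κ i) * y₁ ^ p ^ (i + 1)) -
          ∑ i ∈ Icc 1 N, A i * y₂ ^ p ^ i) - (r + g ^ p) := by
      rw [← eP, eP', hXc]
      ring
    rw [eX, TWRR.drv_sub hd (add_mem (add_mem hXF h1F) (sub_mem hsx hsA))
      (add_mem hrF (pow_mem hgF p)), hd.add _ (add_mem hXF h1F) _ (sub_mem hsx hsA),
      hd.add _ hXF _ h1F, TWRR.drv_sub hd hsx hsA, hdsx, hdsA, sub_zero, add_zero,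
      hd.add _ hrF _ (pow_mem hgF p), hdg, add_zero]
    exact (Gt.add hX (drv_gt hd h1F h1)).sub hdr
  -- the coefficients
  obtain ⟨ψ, hjl, hψ⟩ := hatt'.exists_jl hk hu p e' J (r := 1) (by norm_num)
  refine ⟨ψ, D', hjl, ?_⟩
  have hcoef : ∀ l, l ≠ 0 → ∀ i, Gt v 0 (dd i (e' * f' l + (hasseDeriv l B).eval u)) := by
    intro l hl i
    have hd := ho.drv i
    set M := max D' B.natDegree with hM
    by_cases hlM : M < l
    · have h1 : B.natDegree < l := (le_max_right _ _).trans_lt hlM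
      have h2 : D' < l := (le_max_left _ _).trans_lt hlM
      rw [hf'0 l h2, hasseDeriv_eq_zero_of_lt_natDegree B l h1, eval_zero, mul_zero, add_zero,
        drv_zero hd]
      exact Gt.zero
    push Not at hlM
    set G : ℕ → Ω := fun j => if j = 0 then 0 else e' * f' j + (hasseDeriv j B).eval u with hG
    have hGF : ∀ j, G j ∈ cadj v C u := by
      intro j
      simp only [hG]
      split_ifs
      · exact zero_mem _
      · exact add_mem (mul_mem he'F (hatt'.fF j)) (hBF j)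
    have hsum : ∀ c : k, ∑ j ∈ range (M + 1), c ^ j • dd i (G j) ∈ gtM hk := by
      intro c
      rw [mem_gtM]
      have e1 : ∑ j ∈ range (M + 1), c ^ j • dd i (G j) =
          dd i (e' * ∑ j ∈ Icc 1 D', algebraMap k Ω c ^ j * f' j +
            (T c (B.eval u) - B.eval u)) := by
        have e2 : e' * ∑ j ∈ Icc 1 D', algebraMap k Ω c ^ j * f' j +
            (T c (B.eval u) - B.eval u) = ∑ j ∈ range (M + 1), algebraMap k Ω c ^ j * G j := by
          rw [hatt'.eval hN.BC c, TWN1.rt_taylor (le_max_right D' B.natDegree) u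
            (u + algebraMap k Ω c), ← hM, sum_range_succ', hasseDeriv_zero', pow_zero, mul_one,
            add_sub_cancel_right, sum_range_succ' (fun j => algebraMap k Ω c ^ j * G j)]
          have h0 : algebraMap k Ω c ^ 0 * G 0 = 0 := by simp [hG]
          rw [h0, add_zero, mul_sum]
          have h2 : ∑ j ∈ Icc 1 D', e' * (algebraMap k Ω c ^ j * f' j) =
              ∑ j ∈ range M, e' * (algebraMap k Ω c ^ (j + 1) * f' (j + 1)) := by
            rw [range_eq_Ico, sum_Ico_add' (fun j => e' * (algebraMap k Ω c ^ j * f' j)) 0 M 1,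
              zero_add]
            have e4 : Ico 1 (M + 1) = Icc 1 M := by
              ext j
              simp only [mem_Ico, mem_Icc]
              omega
            rw [e4]
            refine sum_subset (Icc_subset_Icc le_rfl (le_max_left _ _)) fun j hj hj' => ?_
            have h3 : D' < j := by
              by_contra h4
              exact hj' (mem_Icc.2 ⟨(mem_Icc.1 hj).1, by omega⟩)
            rw [hf'0 j h3, mul_zero, mul_zero]
          rw [h2, ← sum_add_distrib]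
          refine sum_congr rfl fun j _ => ?_
          simp only [hG, Nat.succ_ne_zero, if_false]
          rw [add_sub_cancel_left]
          ring
        rw [e2, TWRR.drv_sum hd _ _ fun j _ => mul_mem
          (pow_mem ((cadj v C u).algebraMap_mem c) j) (hGF j)]
        refine sum_congr rfl fun j _ => ?_
        rw [TWRR.drv_mul hd (pow_mem ((cadj v C u).algebraMap_mem c) j) (hGF j) (by
          rw [← map_pow]
          exact hd.alg _), Algebra.smul_def, map_pow]
      rw [e1]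
      exact hpt c i
    have h1 := TWD.mem_of_vdm (gtM hk) (Set.infinite_univ) (fun c _ => hsum c) l
      (Nat.lt_succ_of_le hlM)
    simp only [hG, if_neg hl] at h1
    exact h1
  refine TWRR.oclsJ_of_drv hu hN hjl ho.drv (fun i => hdW i _ he') (fun m hm i => hdW i _ (hA m hm))
    ho.cls hatt'.fF (fun l hl hpl => ?_) (fun l hl hpl i => ?_)
  · by_cases hlD : l ≤ D'
    · exact hψ l hl hlD fun _ => hpl
    · push Not at hlD
      rw [hf'0 l hlD, hjl.deg l hlD, eval_zero, sub_zero]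
      exact RVal.Ge.zero
  · have h1 := hcoef l hl i
    rw [(ho.drv i).add _ (mul_mem he'F (hatt'.fF l)) _ (hBF l),
      TWRR.drv_mul (ho.drv i) he'F (hatt'.fF l) (hdW i _ he')] at h1
    exact h1

end Main

end Pool.Agent.TWRB
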