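import Pool.Agent.Lib.TWCF.HB
import Pool.Agent.Lib.TWCY.TrnE
import Pool.Agent.Lib.TWCY.Der

/-!
# Row B, R12: the functionals

* `exists_fd`: `y ∉ F + O_0`: there is `d : Ω → Ω`, `F`-linear of norm `≤ 0`, `d F = 0`, `d y = 1`;
* `exists_fdual`: the same for a finite family which is independent over `k` modulo `F + O_0`;
* `fd_lim`, `fd_strict`: `|d y| ≤ 0` for `y ∈ lim F`; `|d y| < |y|`;
* `exists_E`: a derivation `D` of `F` of norm `≤ 0`, with `D S₀ = 0`, extends to an `S₀`-linear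
  `E : Ω → Ω` of norm `≤ 0`; `exists_Ep`: `S₀ = F ^ p`;
* `exists_Dw`, `exists_Du`, `exists_DF`: the derivations of `F = C⟨u⟩`, `C = W⟨w⟩`, with given values.
-/

set_option autoImplicit false

namespace Pool.Agent.TWRB

open Pool.Agent.H15JM (RVal)
open Pool.Agent.LU1 (VPos)
open Pool.Agent.D2 (Ctx0)
open Pool.Agent.TWM
open Pool.Agent.TWS (IsoE SphC)
open Pool.Agent.TWCF (PN NL)
open Pool.Agent.TWCY

universe u

variable {k Ω : Type u} [Field k] [Field Ω] [Algebra k Ω] {v : RVal Ω}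
  {S₀ F W C : IntermediateField k Ω} {D : Ω → Ω}

theorem not_nr {y : Ω} (hy : ¬ Nr v F 0 y) : ∀ f ∈ F, y - f ≠ 0 ∧ v (y - f) < 0 := by
  intro f hf
  have h1 : ¬ v.Ge 0 (y - f) := fun h => hy ⟨f, hf, h⟩
  have h2 : y - f ≠ 0 := fun h => h1 (by rw [h]; exact RVal.Ge.zero)
  refine ⟨h2, lt_of_not_ge fun h => h1 fun _ => h⟩

/-- **Detection of a noise.** -/
theorem exists_fd (hs : SphC v) {y : Ω} (hy : ¬ Nr v F 0 y) :
    ∃ d : Ω →ₗ[F] Ω, (∀ (y : Ω) (c : ℝ), v.Ge c y → v.Ge c (d y)) ∧ (∀ f ∈ F, d f = 0) ∧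
      d y = 1 := by
  obtain ⟨d, h1, h2, h3⟩ := TWCF.exists_fun hs (Submodule.span F ({1} : Set Ω)) (z := y) (by
    intro m hm
    obtain ⟨f, rfl⟩ := Submodule.mem_span_singleton.1 hm
    have e : f • (1 : Ω) = (f : Ω) := by
      rw [IntermediateField.smul_def, smul_eq_mul, mul_one]
    rw [e]
    exact not_nr hy _ f.2)
  refine ⟨d, h1, fun f hf => h2 f ?_, h3⟩
  refine Submodule.mem_span_singleton.2 ⟨⟨f, hf⟩, ?_⟩
  rw [IntermediateField.smul_def, smul_eq_mul, mul_one]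

/-- `|d y| ≤ 0` for the limits `y` of `F`. -/
theorem fd_lim {d : Ω →ₗ[F] Ω} (hd : ∀ (y : Ω) (c : ℝ), v.Ge c y → v.Ge c (d y))
    (hdF : ∀ f ∈ F, d f = 0) {y : Ω} (hy : Lim v F 0 y) : v.Ge 0 (d y) := by
  refine ge_zero_of_eps fun ε hε => ?_
  obtain ⟨f, hf, h1⟩ := Lim.neg_eps hy hε
  have h2 := hd _ _ h1
  rwa [map_sub, hdF f hf, sub_zero] at h2

/-- The functionals are strict. -/
theorem fd_strict (hk : Ctx0 k v) (hfull : ∀ r : ℝ, ∃ y ∈ F, y ≠ 0 ∧ v y = r) {d : Ω →ₗ[F] Ω}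
    (hd : ∀ (y : Ω) (c : ℝ), v.Ge c y → v.Ge c (d y)) (hdF : ∀ f ∈ F, d f = 0) (y : Ω) (c : ℝ)
    (hy : v.Ge c y) : Gt v c (d y) := by
  by_cases h0 : y = 0
  · rw [h0, map_zero]
    exact fun h => absurd rfl h
  obtain ⟨m, hm, hm0, hmv⟩ := hfull (v y)
  have h1 : v (y / m) = 0 := by
    have e : y = y / m * m := by field_simp
    have h2 : v y = v (y / m) + v m := by
      conv_lhs => rw [e]
      exact v.map_mul (div_ne_zero h0 hm0) hm0
    linarith
  obtain ⟨a, -, ha⟩ := hk.res (y / m) (div_ne_zero h0 hm0) h1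
  have h3 : Gt v (v y) (y - algebraMap k Ω a * m) := by
    intro hne
    have e : y - algebraMap k Ω a * m = (y / m - algebraMap k Ω a) * m := by
      field_simp
    have hne' : y / m - algebraMap k Ω a ≠ 0 := fun h => hne (by rw [e, h, zero_mul])
    rw [e, v.map_mul hne' hm0, hmv]
    have := ha hne'
    linarith
  have h4 : d (y - algebraMap k Ω a * m) = d y := by
    rw [map_sub, hdF _ (mul_mem (F.algebraMap_mem a) hm), sub_zero]
  intro hne
  have hne2 : y - algebraMap k Ω a * m ≠ 0 := fun h => hne (by rw [← h4, h, map_zero])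
  have h5 := hd _ _ (RVal.ge_self (v := v) (y - algebraMap k Ω a * m))
  rw [h4] at h5
  have h6 := h3 hne2
  have h7 := hy h0
  have h8 := h5 hne
  linarith

/-- **Detection of a finite family of noises.** -/
theorem exists_fdual (hs : SphC v) (hk : Ctx0 k v) {ι : Type*} [Fintype ι] [DecidableEq ι]
    {n : ι → Ω} (hlim : ∀ j, Lim v F 0 (n j))
    (hind : ∀ c : ι → k, Nr v F 0 (∑ j, algebraMap k Ω (c j) * n j) → ∀ j, c j = 0) :
    ∃ d : ι → Ω →ₗ[F] Ω, (∀ i (y : Ω) (c : ℝ), v.Ge c y → v.Ge c (d i y)) ∧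
      (∀ i, ∀ f ∈ F, d i f = 0) ∧ ∀ i j, d i (n j) = if i = j then 1 else 0 := by
  classical
  -- `F`-combinations
  have key : ∀ g : ι → F, (∃ i, g i = 1) → ¬ Nr v F 0 (∑ j, (g j : Ω) * n j) := by
    rintro g ⟨i, hi⟩ ⟨f, hf, h1⟩
    -- the coefficient of the smallest value
    set s : Finset ι := Finset.univ.filter fun j => g j ≠ 0 with hs'
    have his : i ∈ s := by
      rw [hs', Finset.mem_filter]
      exact ⟨Finset.mem_univ _, by rw [hi]; exact one_ne_zero⟩
    obtain ⟨j₀, hj₀, hmin⟩ := s.exists_min_image (fun j => v (g j : Ω)) ⟨i, his⟩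
    have hg0 : g j₀ ≠ 0 := (Finset.mem_filter.1 hj₀).2
    have hG0 : (g j₀ : Ω) ≠ 0 := fun h => hg0 (Subtype.ext h)
    have hv1 : v (1 : Ω) = 0 := by
      have := hk.triv 1 one_ne_zero
      rwa [map_one] at this
    have hr : v (g j₀ : Ω) ≤ 0 := by
      have h2 := hmin i his
      simp only [hi] at h2
      have e1 : ((1 : F) : Ω) = 1 := rfl
      rw [e1, hv1] at h2
      exact h2
    have hinv : v ((g j₀ : Ω)⁻¹) = - v (g j₀ : Ω) := by
      have h2 := v.map_mul hG0 (inv_ne_zero hG0)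
      rw [mul_inv_cancel₀ hG0, hv1] at h2
      linarith
    -- the residues
    have hge : ∀ j, v.Ge 0 ((g j₀ : Ω)⁻¹ * (g j : Ω)) := by
      intro j hne
      have hgj : (g j : Ω) ≠ 0 := right_ne_zero_of_mul hne
      have h2 := hmin j (Finset.mem_filter.2 ⟨Finset.mem_univ _, fun h => hgj (by rw [h]; rfl)⟩)
      rw [v.map_mul (inv_ne_zero hG0) hgj, hinv]
      linarith
    choose c hc using fun j => hk.residue (hge j)
    have hcj : c j₀ = 1 := by
      have h2 := hc j₀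
      rw [inv_mul_cancel₀ hG0] at h2
      have h3 : VPos v (algebraMap k Ω (1 - c j₀)) := by
        rwa [map_sub, map_one]
      have h4 := hk.const_eq_zero h3
      exact (sub_eq_zero.1 h4).symm
    have hsum : Nr v F 0 (∑ j, algebraMap k Ω (c j) * n j) := by
      -- each error is near
      have hj : ∀ j, Nr v F 0 (((g j₀ : Ω)⁻¹ * (g j : Ω) - algebraMap k Ω (c j)) * n j) := by
        intro j
        set δ := (g j₀ : Ω)⁻¹ * (g j : Ω) - algebraMap k Ω (c j) with hδ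
        have hδF : δ ∈ F := sub_mem (mul_mem (inv_mem (g j₀).2) (g j).2) (F.algebraMap_mem _)
        by_cases hδ0 : δ = 0
        · exact ⟨0, F.zero_mem, by rw [hδ0, zero_mul, sub_zero]; exact RVal.Ge.zero⟩
        · have hpos := hc j hδ0
          obtain ⟨a, ha, h2⟩ := Lim.neg_eps (hlim j) hpos
          refine ⟨δ * a, mul_mem hδF ha, ?_⟩
          rw [← mul_sub]
          have h3 := (RVal.ge_self (v := v) δ).mul h2
          rwa [add_neg_cancel] at h3
      choose a ha h2 using hj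
      refine ⟨(g j₀ : Ω)⁻¹ * f - ∑ j, a j, sub_mem (mul_mem (inv_mem (g j₀).2) hf)
        (sum_mem fun j _ => ha j), ?_⟩
      have e : ∑ j, algebraMap k Ω (c j) * n j - ((g j₀ : Ω)⁻¹ * f - ∑ j, a j) =
          (g j₀ : Ω)⁻¹ * (∑ j, (g j : Ω) * n j - f) -
          ∑ j, (((g j₀ : Ω)⁻¹ * (g j : Ω) - algebraMap k Ω (c j)) * n j - a j) := by
        rw [Finset.sum_sub_distrib, mul_sub, Finset.mul_sum]
        have e1 : ∑ j, ((g j₀ : Ω)⁻¹ * (g j : Ω) - algebraMap k Ω (c j)) * n j =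
            ∑ j, (g j₀ : Ω)⁻¹ * ((g j : Ω) * n j) - ∑ j, algebraMap k Ω (c j) * n j := by
          rw [← Finset.sum_sub_distrib]
          refine Finset.sum_congr rfl fun j _ => by ring
        rw [e1]
        ring
      rw [e]
      refine RVal.Ge.sub ?_ (RVal.Ge.sum _ _ fun j _ => h2 j)
      have h3 := (RVal.ge_self (v := v) ((g j₀ : Ω)⁻¹)).mul h1
      refine h3.mono ?_
      rw [hinv]
      linarith
    have h5 := hind c hsum j₀
    rw [hcj] at h5
    exact one_ne_zero h5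
  -- the functionals
  have h1 : ∀ i, ∃ d : Ω →ₗ[F] Ω, (∀ (y : Ω) (c : ℝ), v.Ge c y → v.Ge c (d y)) ∧
      (∀ f ∈ F, d f = 0) ∧ ∀ j, d (n j) = if i = j then 1 else 0 := by
    intro i
    set m : Option ι → Ω := fun o => o.elim 1 fun j => if i = j then 0 else n j with hm
    have hM : ∀ q ∈ Submodule.span F (Set.range m), n i - q ≠ 0 ∧ v (n i - q) < 0 := by
      intro q hq
      obtain ⟨g, rfl⟩ := (Submodule.mem_span_range_iff_exists_fun F).1 hq
      have e : n i - ∑ o, g o • m o = (∑ j, ((if i = j then (1 : F) else - g (some j) : F) : Ω) * n j)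
          - (g none : Ω) := by
        rw [Fintype.sum_option]
        have e1 : g none • m none = (g none : Ω) := by
          rw [IntermediateField.smul_def, smul_eq_mul]
          simp [hm]
        have e2 : ∑ j, ((if i = j then (1 : F) else - g (some j) : F) : Ω) * n j =
            n i - ∑ j, g (some j) • m (some j) := by
          have e3 : n i = ∑ j, if i = j then n j else 0 := by
            rw [Finset.sum_ite_eq Finset.univ i]
            simp
          conv_rhs => rw [e3]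
          rw [← Finset.sum_sub_distrib]
          refine Finset.sum_congr rfl fun j _ => ?_
          rw [IntermediateField.smul_def, smul_eq_mul]
          by_cases hij : i = j
          · simp [hm, hij]
          · simp [hm, hij]
        rw [e1, e2]
        ring
      rw [e]
      exact not_nr (key (fun j => if i = j then (1 : F) else - g (some j)) ⟨i, by simp⟩) _ (g none).2
    obtain ⟨d, h2, h3, h4⟩ := TWCF.exists_fun hs _ hM
    refine ⟨d, h2, fun f hf => h3 f ?_, fun j => ?_⟩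
    · have e : f = (⟨f, hf⟩ : F) • m none := by
        rw [IntermediateField.smul_def, smul_eq_mul]
        simp [hm]
      rw [e]
      exact Submodule.smul_mem _ _ (Submodule.subset_span ⟨none, rfl⟩)
    · by_cases hij : i = j
      · subst hij
        rw [if_pos rfl, h4]
      · rw [if_neg hij]
        refine h3 _ (Submodule.subset_span ⟨some j, ?_⟩)
        simp [hm, hij]
  choose d h2 h3 h4 using h1
  exact ⟨d, h2, h3, h4⟩

/-! ### Extensions of derivations -/

/-- **A derivation extends**, linearly over a field of constants. -/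
theorem exists_E (hs : SphC v) (hS : S₀ ≤ F) (hD : Drv v F D) (h0 : ∀ s ∈ S₀, D s = 0) :
    ∃ E : Ω →ₗ[S₀] Ω, (∀ (y : Ω) (c : ℝ), v.Ge c y → v.Ge c (E y)) ∧ ∀ f ∈ F, E f = D f := by
  set M : Submodule S₀ Ω :=
    { carrier := F
      add_mem' := fun ha hb => add_mem ha hb
      zero_mem' := F.zero_mem
      smul_mem' := fun s f hf => by
        rw [IntermediateField.smul_def, smul_eq_mul]
        exact mul_mem (hS s.2) hf } with hM
  set f : Ω →ₗ.[S₀] Ω :=
    { domain := M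
      toFun :=
        { toFun := fun y => D y
          map_add' := fun a b => hD.add a a.2 b b.2
          map_smul' := fun s a => by
            show D ((s : Ω) * (a : Ω)) = (s : Ω) * D (a : Ω)
            rw [hD.mul s (hS s.2) a a.2, h0 s s.2, mul_zero, add_zero] } } with hf
  obtain ⟨E, h1, h2⟩ := TWCF.exists_ext hs f (fun y c hc => hD.norm y y.2 c hc)
  exact ⟨E, fun y c hc => h2 y c hc, fun y hy => h1 ⟨y, hy⟩⟩

section frob

variable {p : ℕ} [hp : Fact p.Prime] [CharP Ω p]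

omit hp in
theorem Drv.pow_zero (hD : Drv v F D) {f : Ω} (hf : f ∈ F) : D (f ^ p) = 0 :=
  hD.map_pow_char hf

/-- **A derivation extends**, linearly over `F ^ p`. -/
theorem exists_Ep [IsAlgClosed k] (hs : SphC v) (hD : Drv v F D) :
    ∃ E : Ω →ₗ[powF p 1 F] Ω, (∀ (y : Ω) (c : ℝ), v.Ge c y → v.Ge c (E y)) ∧
      ∀ f ∈ F, E f = D f := by
  refine exists_E hs (powF_le F) hD fun s hs' => ?_
  obtain ⟨b, hb, rfl⟩ := mem_powF.1 hs'
  rw [pow_one]
  exact hD.map_pow_char hb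

/-- Natural values of the extension. -/
theorem ext_nat {E : Ω →ₗ[S₀] Ω} (hE : ∀ (y : Ω) (c : ℝ), v.Ge c y → v.Ge c (E y))
    (hED : ∀ f ∈ F, E f = D f) (y : Ω) : NatV v F D y (E y) := by
  intro ε _ f hf h1
  have h2 := hE _ _ h1
  rwa [map_sub, hED f hf] at h2

end frob

/-! ### The derivations of `F = C⟨u⟩`, `C = W⟨w⟩` -/

section floors

variable [IsAlgClosed Ω] {w u : Ω} {D₀ : Ω → Ω}

omit [IsAlgClosed Ω] in
theorem ge_one' (hk : Ctx0 k v) : v.Ge 0 (1 : Ω) := by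
  have := hk.ge (1 : k)
  rwa [map_one] at this

omit [IsAlgClosed Ω] in
/-- A value of size `≤ 0` is natural for the zero derivation. -/
theorem nat_one {A : IntermediateField k Ω} {z : Ω} (hz : TL v A z 0)
    {D : Ω → Ω} (hD : ∀ a ∈ A, D a = 0) {c : Ω} (hc : v.Ge 0 c) : NatA v A D z c := by
  intro a ha r hr
  rw [hD a ha, sub_zero]
  exact hc.mono (TL.neg_of_ge hz ha hr).le

/-- **The derivations of `F`** over a derivation of `W`, with given natural values. -/
theorem exists_DF (hk : Ctx0 k v) (hΩ : CompleteV v) (tw : TL v W w 0) (hC : C = cadj v W w)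
    (tu : TL v C u 0) (hF : F = cadj v C u) (hD : Drv v W D₀) {y : Ω} (hy : NatA v W D₀ w y) :
    ∃ D₁ : Ω → Ω, Drv v C D₁ ∧ (∀ a ∈ W, D₁ a = D₀ a) ∧ D₁ w = y ∧
      ∀ y' : Ω, NatA v C D₁ u y' → ∃ D : Ω → Ω, Drv v F D ∧ (∀ a ∈ C, D a = D₁ a) ∧ D u = y' := by
  subst hC
  obtain ⟨D₁, h1, h2, h3, -⟩ := hD.exists_tl hk hΩ tw hy
  refine ⟨D₁, h1, h2, h3, fun y' hy' => ?_⟩
  subst hF
  obtain ⟨D, g1, g2, g3, -⟩ := h1.exists_tl hk hΩ tu hy'
  exact ⟨D, g1, g2, g3⟩

/-- **`D x` given, `D w`, `D u` natural values.** -/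
theorem exists_Dx (hk : Ctx0 k v) (hΩ : CompleteV v) (hs : SphC v) (tw : TL v W w 0)
    (hC : C = cadj v W w) (tu : TL v C u 0) (hF : F = cadj v C u) (hD : Drv v W D₀) :
    ∃ D : Ω → Ω, Drv v F D ∧ ∀ a ∈ W, D a = D₀ a := by
  obtain ⟨y, hy⟩ := hD.exists_nat hs tw
  obtain ⟨D₁, h1, h2, -, h4⟩ := exists_DF hk hΩ tw hC tu hF hD hy
  obtain ⟨y', hy'⟩ := h1.exists_nat hs tu
  obtain ⟨D, g1, g2, -⟩ := h4 y' hy'
  refine ⟨D, g1, fun a ha => ?_⟩
  have haC : a ∈ C := by
    rw [hC]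
    exact le_cadj v W _ ha
  rw [g2 a haC, h2 a ha]

/-- **`∂_u`.** -/
theorem exists_Du (hk : Ctx0 k v) (hΩ : CompleteV v) (tu : TL v C u 0) (hF : F = cadj v C u) :
    ∃ D : Ω → Ω, Drv v F D ∧ (∀ a ∈ C, D a = 0) ∧ D u = 1 := by
  subst hF
  obtain ⟨D, g1, g2, g3, -⟩ := (drv_zero v C).exists_tl hk hΩ tu
    (nat_one tu (fun _ _ => rfl) (ge_one' hk))
  exact ⟨D, g1, g2, g3⟩

/-- **`∂_w`**, with a natural value at `u`. -/
theorem exists_Dw (hk : Ctx0 k v) (hΩ : CompleteV v) (hs : SphC v) (tw : TL v W w 0)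
    (hC : C = cadj v W w) (tu : TL v C u 0) (hF : F = cadj v C u) :
    ∃ D : Ω → Ω, Drv v F D ∧ (∀ a ∈ W, D a = 0) ∧ D w = 1 := by
  obtain ⟨D₁, h1, h2, h3, h4⟩ := exists_DF hk hΩ tw hC tu hF (drv_zero v W)
    (nat_one tw (fun _ _ => rfl) (ge_one' hk))
  obtain ⟨y', hy'⟩ := h1.exists_nat hs tu
  obtain ⟨D, g1, g2, -⟩ := h4 y' hy'
  have hle : W ≤ C := by
    rw [hC]
    exact le_cadj v W _
  have hwC : w ∈ C := by
    rw [hC]
    exact self_mem_cadj v W _
  refine ⟨D, g1, fun a ha => ?_, ?_⟩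
  · rw [g2 a (hle ha), h2 a ha]
  · rw [g2 w hwC, h3]

end floors

end Pool.Agent.TWRB
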