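import Pool.Agent.Lib.TWRB.Sub
import Pool.Agent.Lib.TWLG64.Fil

/-!
# RowB: the gauge with bounded weights

* `exists_gauge`: the reduction of `G + P(g) + ν(g)` in the coordinates `c ↦ c - f(s)`, with bounds for
  the exponents of `c` and the weights of the exponents of `s`.
-/

set_option autoImplicit false

open MvPolynomial

namespace Pool.Agent.TWRB

open Pool.Agent.H15JM (RVal)
open Pool.Agent.D2 (Ctx0)
open Pool.Agent.TWM
open Pool.Agent.TWLY
open Pool.Agent.TWLG64 (Fil wt_zero)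

universe u

/-! ## weights -/

section WB

variable {R : Type u} [CommRing R] {W : Fin 2 → ℝ}

/-- weight at most `d` -/
def WB (W : Fin 2 → ℝ) (d : ℝ) (F : MvPolynomial (Fin 2) R) : Prop :=
  ∀ m, coeff m F ≠ 0 → wt W m ≤ d

theorem WB.mono {d e : ℝ} {F : MvPolynomial (Fin 2) R} (h : WB W d F) (hde : d ≤ e) :
    WB W e F := fun m hm => (h m hm).trans hde

theorem WB.add {d : ℝ} {F G : MvPolynomial (Fin 2) R} (h : WB W d F) (h' : WB W d G) :
    WB W d (F + G) := by
  intro m hm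
  rw [coeff_add] at hm
  by_cases h0 : coeff m F = 0
  · rw [h0, zero_add] at hm
    exact h' m hm
  · exact h m h0

theorem WB.sum {ι : Type*} (S : Finset ι) {d : ℝ} (F : ι → MvPolynomial (Fin 2) R)
    (h : ∀ i ∈ S, WB W d (F i)) : WB W d (∑ i ∈ S, F i) := by
  intro m hm
  rw [coeff_sum] at hm
  obtain ⟨i, hi, h1⟩ := Finset.exists_ne_zero_of_sum_ne_zero hm
  exact h i hi m h1

theorem WB.mul {d e : ℝ} {F G : MvPolynomial (Fin 2) R} (h : WB W d F) (h' : WB W e G) :
    WB W (d + e) (F * G) := by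
  classical
  intro m hm
  rw [coeff_mul] at hm
  obtain ⟨x, hx, h1⟩ := Finset.exists_ne_zero_of_sum_ne_zero hm
  rw [Finset.HasAntidiagonal.mem_antidiagonal] at hx
  rw [← hx, wt_add]
  exact add_le_add (h _ (left_ne_zero_of_mul h1)) (h' _ (right_ne_zero_of_mul h1))

theorem WB.C (a : R) : WB W 0 (MvPolynomial.C a : MvPolynomial (Fin 2) R) := by
  classical
  intro m hm
  rw [coeff_C] at hm
  split_ifs at hm with h
  · rw [← h, wt_zero]
  · exact absurd rfl hm

theorem WB.X (i : Fin 2) : WB W (W i) (MvPolynomial.X i : MvPolynomial (Fin 2) R) := by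
  classical
  intro m hm
  rw [coeff_X] at hm
  split_ifs at hm with h
  · rw [← h, wt_single, Nat.cast_one, one_mul]
  · exact absurd rfl hm

theorem WB.pow {d : ℝ} {F : MvPolynomial (Fin 2) R} (h : WB W d F) (n : ℕ) :
    WB W (n * d) (F ^ n) := by
  induction n with
  | zero =>
    rw [pow_zero, Nat.cast_zero, zero_mul, ← C_1]
    exact WB.C 1
  | succ n ih =>
    rw [pow_succ]
    have := ih.mul h
    push_cast
    rwa [add_mul, one_mul]

theorem shU_monomial (t : Polynomial R) (m : Ex) (a : R) :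
    shU t (monomial m a) = C a * (X 0 ^ m 0 * (X 1 + Polynomial.aeval (X 0) t) ^ m 1) := by
  rw [monomial_eq, Finsupp.prod_fintype _ _ (by simp), Fin.prod_univ_two, map_mul, map_mul,
    map_pow, map_pow, shU_X0, shU_X1, ← algebraMap_eq, AlgHom.commutes]

theorem WB.shU {d : ℝ} {F : MvPolynomial (Fin 2) R} (h : WB W d F) {fr : Polynomial R}
    (hfr : ∀ j : ℕ, fr.coeff j ≠ 0 → j * W 0 ≤ W 1) : WB W d (TWRB.shU fr F) := by
  classical
  rw [F.as_sum, map_sum]
  refine WB.sum _ _ fun m hm => ?_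
  rw [shU_monomial]
  have h1 : WB W (W 1) (Polynomial.aeval (MvPolynomial.X 0 : MvPolynomial (Fin 2) R) fr) := by
    rw [Polynomial.aeval_eq_sum_range]
    refine WB.sum _ _ fun j _ => ?_
    intro β hβ
    rw [smul_eq_C_mul, X_pow_eq_monomial, C_mul_monomial, mul_one, coeff_monomial] at hβ
    split_ifs at hβ with h2
    · rw [← h2, wt_single]
      exact hfr j hβ
    · exact absurd rfl hβ
  have h2 := (WB.C (W := W) (coeff m F)).mul (((WB.X (R := R) 0).pow (m 0)).mul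
    (((WB.X (R := R) 1).add h1).pow (m 1)))
  refine h2.mono ?_
  rw [zero_add]
  exact h m (mem_support_iff.mp hm)

end WB

/-! ## the gauge -/

section gauge

variable {k : Type u} [Field k] {p : ℕ} [Fact p.Prime] [CharP k p] {κ : ℕ → k} {t : ℕ}

omit [Fact p.Prime] [CharP k p] in
theorem coeff_PPk (f : MvPolynomial (Fin 2) k) (β : Ex) : coeff β (PP p κ t f) =
    ∑ i ∈ Finset.range (t + 1), κ i * coeff β (f ^ p ^ (i + 1)) := by
  rw [PP, coeff_sum]
  refine Finset.sum_congr rfl fun i _ => ?_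
  rw [algebraMap_eq, coeff_C_mul]

/-- The exponents of the reduction. -/
theorem wt_of_red (hκ : κ t ≠ 0) {W : Fin 2 → ℝ} {e : ℝ} (he : 0 ≤ e)
    {G f : MvPolynomial (Fin 2) k}
    (hred : ∀ α : Ex, α ≠ 0 → coeff (p ^ (t + 1) • α) (G + PP p κ t f) = 0)
    (hG : ∀ α : Ex, α ≠ 0 → coeff (p ^ (t + 1) • α) G ≠ 0 → wt W (p ^ (t + 1) • α) ≤ e) :
    ∀ m, coeff m f ≠ 0 → wt W (p ^ (t + 1) • m) ≤ e := by
  classical
  have hp : 1 < p := Nat.Prime.one_lt Fact.out
  have hQ : (0 : ℝ) < (p : ℝ) ^ (t + 1) := by positivity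
  intro m hm
  by_contra hcon
  push Not at hcon
  obtain ⟨m₀, hm₀, hmax⟩ := f.support.exists_max_image (wt W) ⟨m, mem_support_iff.mpr hm⟩
  have hwt : ∀ m : Ex, wt W (p ^ (t + 1) • m) = (p : ℝ) ^ (t + 1) * wt W m := fun m => by
    rw [wt_smul]
    push_cast
    ring
  have h1 : e < wt W (p ^ (t + 1) • m₀) := by
    rw [hwt] at hcon ⊢
    have := hmax m (mem_support_iff.mpr hm)
    nlinarith
  have h2 : 0 < wt W m₀ := by
    rw [hwt] at h1
    by_contra h
    push Not at h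
    nlinarith
  have hm₀0 : m₀ ≠ 0 := by
    rintro rfl
    rw [wt_zero] at h2
    exact lt_irrefl _ h2
  have h3 : coeff (p ^ (t + 1) • m₀) (PP p κ t f) = κ t * coeff m₀ f ^ p ^ (t + 1) := by
    rw [coeff_PPk, Finset.sum_range_succ, Finset.sum_eq_zero, zero_add]
    · congr 1
      exact coeff_pow_smul p f (t + 1) m₀
    · intro i hi
      rw [Finset.mem_range] at hi
      by_contra h4
      obtain ⟨m', hm', h5⟩ := exists_of_coeff_pow p f (i + 1) (right_ne_zero_of_mul h4)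
      have h6 : wt W (p ^ (t + 1) • m₀) = wt W (p ^ (i + 1) • m') := by rw [hm']
      rw [wt_smul, wt_smul] at h6
      push_cast at h6
      have h7 := hmax m' (mem_support_iff.mpr h5)
      have h8 : (p : ℝ) ^ (i + 1) < (p : ℝ) ^ (t + 1) :=
        pow_lt_pow_right₀ (by exact_mod_cast hp) (by omega)
      have h9 : (0 : ℝ) < (p : ℝ) ^ (i + 1) := by positivity
      nlinarith
  have h4 := hred m₀ hm₀0
  rw [coeff_add, h3] at h4
  have h5 : coeff (p ^ (t + 1) • m₀) G ≠ 0 := by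
    intro h6
    rw [h6, zero_add] at h4
    rcases mul_eq_zero.mp h4 with h7 | h7
    · exact hκ h7
    · exact (mem_support_iff.mp hm₀) (eq_zero_of_pow_eq_zero h7)
  exact absurd (hG m₀ hm₀0 h5) (not_le.mpr h1)

/-- The induction. -/
theorem gauge_ind [IsAlgClosed k] (hκ : κ t ≠ 0)
    (ν : MvPolynomial (Fin 2) k →ₗ[k] MvPolynomial (Fin 2) k) {W : Fin 2 → ℝ}
    (hW : ∀ i, 0 ≤ W i) {K : ℝ} (hK : 0 ≤ K) (n : ℕ)
    (hlow : ∀ (j : ℕ) (F : MvPolynomial (Fin 2) k), (∀ m, coeff m F ≠ 0 → m 1 ≤ j) →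
      ∀ m, coeff m (ν F) ≠ 0 → m 1 < j)
    (hwt : ∀ (d : ℝ) (F : MvPolynomial (Fin 2) k), (∀ m, coeff m F ≠ 0 → m 1 ≤ n) →
      WB W d F → WB W (d + K) (ν F)) :
    ∀ j : ℕ, j ≤ n → ∀ e : ℝ, 0 ≤ e → ∀ G : MvPolynomial (Fin 2) k,
      (∀ α : Ex, α ≠ 0 → coeff (p ^ (t + 1) • α) G ≠ 0 →
        α 1 ≤ j ∧ wt W (p ^ (t + 1) • α) ≤ e) →
      ∃ g : MvPolynomial (Fin 2) k, constantCoeff g = 0 ∧ (∀ m, coeff m g ≠ 0 → m 1 ≤ j) ∧
        WB W (e + j * K) g ∧
        ∀ α : Ex, α ≠ 0 → coeff (p ^ (t + 1) • α) (G + PP p κ t g + ν g) = 0 := by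
  classical
  have hp : 1 < p := Nat.Prime.one_lt Fact.out
  have hQ : (1 : ℝ) ≤ (p : ℝ) ^ (t + 1) := one_le_pow₀ (by exact_mod_cast hp.le)
  have hQ0 : (0 : ℝ) < (p : ℝ) ^ (t + 1) := by positivity
  have hwtW : ∀ m : Ex, 0 ≤ wt W m := fun m => by
    unfold wt
    have h0 := hW 0
    have h1 := hW 1
    positivity
  -- one reduction
  have key : ∀ (j : ℕ) (e : ℝ), 0 ≤ e → ∀ G : MvPolynomial (Fin 2) k,
      (∀ α : Ex, α ≠ 0 → coeff (p ^ (t + 1) • α) G ≠ 0 →
        α 1 ≤ j ∧ wt W (p ^ (t + 1) • α) ≤ e) →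
      ∃ f : MvPolynomial (Fin 2) k, constantCoeff f = 0 ∧
        (∀ α : Ex, α ≠ 0 → coeff (p ^ (t + 1) • α) (G + PP p κ t f) = 0) ∧
        (∀ m, coeff m f ≠ 0 → m 1 ≤ j) ∧ WB W e f := by
    intro j e he G hG
    obtain ⟨f, hf0, hfred⟩ := exists_red (κ := κ) (t := t) (p := p) hκ G
    refine ⟨f, hf0, hfred, fun m hm => ?_, fun m hm => ?_⟩
    · have h1 := wt_of_red (W := ![0, 1]) (e := (p : ℝ) ^ (t + 1) * j) hκ (by positivity) hfred
        (fun α hα h2 => by
          rw [wt_smul]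
          have h3 : wt ![0, 1] α = α 1 := by simp [wt]
          rw [h3]
          push_cast
          have h4 : (α 1 : ℝ) ≤ j := by exact_mod_cast (hG α hα h2).1
          exact mul_le_mul_of_nonneg_left h4 hQ0.le) m hm
      rw [wt_smul] at h1
      have h3 : wt ![0, 1] m = m 1 := by simp [wt]
      rw [h3] at h1
      push_cast at h1
      have h4 := le_of_mul_le_mul_left h1 hQ0
      exact_mod_cast h4
    · have h1 := wt_of_red hκ he hfred (fun α hα h2 => (hG α hα h2).2) m hm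
      rw [wt_smul] at h1
      push_cast at h1
      have := hwtW m
      nlinarith
  intro j
  induction j with
  | zero =>
    intro _ e he G hG
    obtain ⟨f, hf0, hfred, hfc, hfw⟩ := key 0 e he G hG
    refine ⟨f, hf0, hfc, by rwa [Nat.cast_zero, zero_mul, add_zero], fun α hα => ?_⟩
    have h1 : ν f = 0 := by
      by_contra h2
      obtain ⟨m, hm⟩ := MvPolynomial.ne_zero_iff.mp h2
      exact absurd (hlow 0 f hfc m hm) (Nat.not_lt_zero _)
    rw [h1, add_zero]
    exact hfred α hα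
  | succ j ih =>
    intro hj e he G hG
    obtain ⟨f, hf0, hfred, hfc, hfw⟩ := key (j + 1) e he G hG
    have hνw := hwt e f (fun m hm => (hfc m hm).trans hj) hfw
    obtain ⟨g, hg0, hgc, hgw, hgred⟩ := ih (by omega) (e + K) (by linarith)
      (G + PP p κ t f + ν f) (fun α hα h1 => by
        rw [coeff_add, hfred α hα, zero_add] at h1
        refine ⟨?_, hνw _ h1⟩
        have h2 := hlow (j + 1) f hfc _ h1
        have h3 : (p ^ (t + 1) • α : Ex) 1 = p ^ (t + 1) * α 1 := rfl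
        rw [h3] at h2
        have h4 : α 1 ≤ p ^ (t + 1) * α 1 := Nat.le_mul_of_pos_left _ (by positivity)
        omega)
    refine ⟨f + g, by rw [map_add, hf0, hg0, add_zero], fun m hm => ?_, ?_, fun α hα => ?_⟩
    · rw [coeff_add] at hm
      by_cases h0 : coeff m f = 0
      · rw [h0, zero_add] at hm
        exact (hgc m hm).trans (Nat.le_succ j)
      · exact hfc m h0
    · have h1 : e + K + j * K = e + ((j + 1 : ℕ) : ℝ) * K := by
        push_cast
        ring
      rw [← h1]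
      refine WB.add (hfw.mono ?_) hgw
      have : 0 ≤ (j : ℝ) * K := by positivity
      linarith
    · have h1 := hgred α hα
      have h2 : G + PP p κ t (f + g) + ν (f + g) =
          G + PP p κ t f + ν f + PP p κ t g + ν g := by
        rw [PP_add, map_add]
        ring
      rwa [h2]

theorem exists_bd (S : ℕ → Finset Ex) (n : ℕ) :
    ∃ D : ℕ, ∀ b ≤ n, ∀ m' ∈ S b, m' 0 ≤ D := by
  induction n with
  | zero =>
    refine ⟨(S 0).sup fun m' => m' 0, fun b hb m' hm' => ?_⟩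
    obtain rfl : b = 0 := by omega
    exact Finset.le_sup (f := fun m' : Ex => m' 0) hm'
  | succ n ih =>
    obtain ⟨D, hD⟩ := ih
    refine ⟨max D ((S (n + 1)).sup fun m' => m' 0), fun b hb m' hm' => ?_⟩
    rcases Nat.lt_or_ge b (n + 1) with h | h
    · exact (hD b (by omega) m' hm').trans (le_max_left _ _)
    · obtain rfl : b = n + 1 := by omega
      exact (Finset.le_sup (f := fun m' : Ex => m' 0) hm').trans (le_max_right _ _)

/-- **The gauge**, with bounds. -/
theorem exists_gauge [IsAlgClosed k] (hκ : κ t ≠ 0)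
    (ν : MvPolynomial (Fin 2) k →ₗ[k] MvPolynomial (Fin 2) k)
    (hν : ∀ m : Ex, ∀ m' ∈ (ν (monomial m 1)).support, m' 1 < m 1)
    (hνs : ∀ F, ν (X 0 * F) = X 0 * ν F) (N n : ℕ) :
    ∃ B : ℕ, ∀ w₀ om : ℝ, 0 ≤ w₀ → 0 ≤ om → ∀ fr : Polynomial k, fr.coeff 0 = 0 →
      (∀ j : ℕ, fr.coeff j ≠ 0 → j * w₀ ≤ om) → ∀ G : MvPolynomial (Fin 2) k,
      (∀ m ∈ G.support, m 0 ≤ N ∧ m 1 ≤ n) →
      ∃ g : MvPolynomial (Fin 2) k, constantCoeff g = 0 ∧
        (∀ m ∈ g.support, m 1 ≤ n ∧ m 0 * w₀ ≤ B * (w₀ + om)) ∧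
        ∀ α : Ex, α ≠ 0 →
          coeff (p ^ (t + 1) • α) (shU (-fr) (G + PP p κ t g + ν g)) = 0 := by
  classical
  have hp : 1 < p := Nat.Prime.one_lt Fact.out
  -- the degrees of `ν (c ^ b)`
  obtain ⟨D, hDb⟩ := exists_bd (fun b => (ν (X 1 ^ b)).support) n
  have hpow : ∀ (a : ℕ) (F : MvPolynomial (Fin 2) k), ν (X 0 ^ a * F) = X 0 ^ a * ν F := by
    intro a F
    induction a with
    | zero => rw [pow_zero, one_mul, one_mul]
    | succ a ih => rw [pow_succ', mul_assoc, hνs, ih, mul_assoc]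
  have hmon : ∀ m : Ex, (monomial m (1 : k)) = X 0 ^ m 0 * X 1 ^ m 1 := by
    intro m
    rw [monomial_eq, Finsupp.prod_fintype _ _ (by simp), Fin.prod_univ_two, C_1, one_mul]
  have hνm : ∀ m : Ex, m 1 ≤ n → ∀ m', coeff m' (ν (monomial m 1)) ≠ 0 →
      m' 0 ≤ m 0 + D ∧ m' 1 < m 1 := by
    intro m hm m' hm'
    refine ⟨?_, hν m m' (mem_support_iff.mpr hm')⟩
    rw [hmon, hpow, X_pow_eq_monomial, coeff_monomial_mul'] at hm'
    split_ifs at hm' with h1
    · rw [one_mul] at hm'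
      have h2 := hDb (m 1) hm _ (mem_support_iff.mpr hm')
      rw [Finsupp.tsub_apply, Finsupp.single_eq_same] at h2
      omega
    · exact absurd rfl hm'
  have hνF : ∀ (F : MvPolynomial (Fin 2) k) (m' : Ex), coeff m' (ν F) ≠ 0 →
      ∃ m, coeff m F ≠ 0 ∧ coeff m' (ν (monomial m 1)) ≠ 0 := by
    intro F m' hm'
    have h1 : ν F = ∑ m ∈ F.support, coeff m F • ν (monomial m 1) := by
      conv_lhs => rw [F.as_sum]
      rw [map_sum]
      refine Finset.sum_congr rfl fun m _ => ?_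
      rw [← map_smul, smul_monomial, smul_eq_mul, mul_one]
    rw [h1, coeff_sum] at hm'
    obtain ⟨m, hm, h2⟩ := Finset.exists_ne_zero_of_sum_ne_zero hm'
    rw [coeff_smul] at h2
    exact ⟨m, mem_support_iff.mp hm, fun h3 => h2 (by rw [h3, smul_zero])⟩
  refine ⟨max N n + n * D, fun w₀ om hw₀ hom fr hfr0 hfr G hG => ?_⟩
  set W : Fin 2 → ℝ := ![w₀, om] with hWdef
  have hW : ∀ i, 0 ≤ W i := fun i => by
    fin_cases i
    · exact hw₀
    · exact hom
  have hfrW : ∀ j : ℕ, fr.coeff j ≠ 0 → j * W 0 ≤ W 1 := hfr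
  have hfrW' : ∀ j : ℕ, (-fr).coeff j ≠ 0 → j * W 0 ≤ W 1 := fun j hj =>
    hfr j fun h => hj (by rw [Polynomial.coeff_neg, h, neg_zero])
  have hc : ∀ (f : Polynomial k) (j : ℕ) (F : MvPolynomial (Fin 2) k),
      (∀ m, coeff m F ≠ 0 → m 1 ≤ j) → ∀ m, coeff m (shU f F) ≠ 0 → m 1 ≤ j := by
    intro f j F hF
    have h3 : ∀ m : Ex, wt ![0, 1] m = m 1 := fun m => by simp [wt]
    have h1 : WB ![0, 1] (j : ℝ) F := fun m hm => by
      rw [h3]
      exact_mod_cast hF m hm
    have h2 := h1.shU (fr := f) (fun i _ => by simp)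
    intro m hm
    have h4 := h2 m hm
    rw [h3] at h4
    exact_mod_cast h4
  -- in the coordinates of `fr`
  set ν' : MvPolynomial (Fin 2) k →ₗ[k] MvPolynomial (Fin 2) k :=
    (shU (-fr)).toLinearMap ∘ₗ ν ∘ₗ (shU fr).toLinearMap with hν'
  have hν'a : ∀ F, ν' F = shU (-fr) (ν (shU fr F)) := fun F => rfl
  have hlow : ∀ (j : ℕ) (F : MvPolynomial (Fin 2) k), (∀ m, coeff m F ≠ 0 → m 1 ≤ j) →
      ∀ m, coeff m (ν' F) ≠ 0 → m 1 < j := by
    intro j F hF m hm
    rw [hν'a] at hm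
    have h1 := hc fr j F hF
    have h2 : ∀ m', coeff m' (ν (shU fr F)) ≠ 0 → m' 1 < j := by
      intro m' hm'
      obtain ⟨m'', h3, h4⟩ := hνF _ _ hm'
      exact (hν m'' m' (mem_support_iff.mpr h4)).trans_le (h1 m'' h3)
    rcases Nat.eq_zero_or_pos j with h0 | h0
    · exfalso
      have h3 : ν (shU fr F) = 0 := by
        by_contra h4
        obtain ⟨m', hm'⟩ := MvPolynomial.ne_zero_iff.mp h4
        have := h2 m' hm'
        omega
      rw [h3, map_zero, coeff_zero] at hm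
      exact hm rfl
    · have h3 := hc (-fr) (j - 1) (ν (shU fr F)) (fun m' hm' => by
        have := h2 m' hm'
        omega) m hm
      omega
  have hwt : ∀ (d : ℝ) (F : MvPolynomial (Fin 2) k), (∀ m, coeff m F ≠ 0 → m 1 ≤ n) →
      WB W d F → WB W (d + D * w₀) (ν' F) := by
    intro d F hF hd
    rw [hν'a]
    refine WB.shU ?_ hfrW'
    intro m' hm'
    obtain ⟨m, h3, h4⟩ := hνF _ _ hm'
    have h5 := hνm m (hc fr n F hF m h3) m' h4
    have h6 := (hd.shU hfrW) m h3
    have h7 : ((m' 0 : ℕ) : ℝ) ≤ m 0 + D := by exact_mod_cast h5.1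
    have h8 : ((m' 1 : ℕ) : ℝ) ≤ m 1 := by exact_mod_cast h5.2.le
    have h9 : wt W m' = m' 0 * w₀ + m' 1 * om := rfl
    have h10 : wt W m = m 0 * w₀ + m 1 * om := rfl
    rw [h9]
    rw [h10] at h6
    nlinarith [mul_le_mul_of_nonneg_right h7 hw₀, mul_le_mul_of_nonneg_right h8 hom]
  have hG' : WB W (N * w₀ + n * om) (shU (-fr) G) := by
    refine WB.shU (fun m hm => ?_) hfrW'
    have h1 := hG m (mem_support_iff.mpr hm)
    have h2 : ((m 0 : ℕ) : ℝ) ≤ N := by exact_mod_cast h1.1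
    have h3 : ((m 1 : ℕ) : ℝ) ≤ n := by exact_mod_cast h1.2
    have h9 : wt W m = m 0 * w₀ + m 1 * om := rfl
    rw [h9]
    nlinarith [mul_le_mul_of_nonneg_right h2 hw₀, mul_le_mul_of_nonneg_right h3 hom]
  obtain ⟨g, hg0, hgc, hgw, hgred⟩ := gauge_ind (p := p) (κ := κ) (t := t) hκ ν' hW
    (K := D * w₀) (by positivity) n hlow hwt n le_rfl (N * w₀ + n * om) (by positivity)
    (shU (-fr) G) (fun α _ h1 => by
      refine ⟨?_, hG' _ h1⟩
      have h2 := hc (-fr) n G (fun m hm => (hG m (mem_support_iff.mpr hm)).2) _ h1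
      have h3 : (p ^ (t + 1) • α : Ex) 1 = p ^ (t + 1) * α 1 := rfl
      rw [h3] at h2
      have h4 : α 1 ≤ p ^ (t + 1) * α 1 := Nat.le_mul_of_pos_left _ (by positivity)
      omega)
  refine ⟨shU fr g, ?_, fun m hm => ⟨hc fr n g hgc m (mem_support_iff.mp hm), ?_⟩,
    fun α hα => ?_⟩
  · -- the constant coefficient
    have h1 : (constantCoeff : MvPolynomial (Fin 2) k →+* k).comp
        (shU fr : MvPolynomial (Fin 2) k →+* MvPolynomial (Fin 2) k) = constantCoeff := by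
      refine MvPolynomial.ringHom_ext (fun a => ?_) fun i => ?_
      · rw [RingHom.comp_apply, RingHom.coe_coe, ← algebraMap_eq, AlgHom.commutes]
      · fin_cases i
        · simp
        · have h2 : constantCoeff (Polynomial.aeval (X 0 : MvPolynomial (Fin 2) k) fr) = 0 := by
            rw [Polynomial.aeval_eq_sum_range, map_sum]
            refine Finset.sum_eq_zero fun j _ => ?_
            rw [smul_eq_C_mul, map_mul, constantCoeff_C, map_pow, constantCoeff_X]
            rcases Nat.eq_zero_or_pos j with h | h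
            · rw [h, hfr0, zero_mul]
            · rw [zero_pow h.ne', mul_zero]
          simp [h2]
    have h2 := DFunLike.congr_fun h1 g
    rw [RingHom.comp_apply, RingHom.coe_coe] at h2
    rw [h2, hg0]
  · have h1 := (hgw.shU hfrW) m (mem_support_iff.mp hm)
    have h9 : wt W m = m 0 * w₀ + m 1 * om := rfl
    rw [h9] at h1
    have h2 : 0 ≤ ((m 1 : ℕ) : ℝ) * om := by positivity
    have h3 : (N : ℝ) ≤ max N n := by exact_mod_cast le_max_left _ _
    have h4 : (n : ℝ) ≤ max N n := by exact_mod_cast le_max_right _ _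
    push_cast at h3 h4 ⊢
    have h5 : 0 ≤ (n : ℝ) * D * om := by positivity
    have h6 := mul_le_mul_of_nonneg_right h3 hw₀
    have h7 := mul_le_mul_of_nonneg_right h4 hom
    have h8 : ∀ M : ℝ, (M + n * D) * (w₀ + om) = M * w₀ + M * om + n * (D * w₀) +
        n * D * om := fun M => by ring
    rw [h8]
    linarith
  · have h1 := hgred α hα
    have h2 : shU (-fr) (G + PP p κ t (shU fr g) + ν (shU fr g)) =
        shU (-fr) G + PP p κ t g + ν' g := by
      rw [map_add, map_add, hν'a]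
      congr 2
      have h3 := PP_map (p := p) (κ := κ) (t := t) (shU (-fr)) (shU fr g)
      rw [shU_neg_shU] at h3
      exact h3
    rwa [h2]

end gauge

end Pool.Agent.TWRB
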