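import Pool.Agent.Lib.TWRB.ShB
import Pool.Agent.Lib.TWRA.GL
import Pool.Agent.Lib.TWRA.Grd
import Pool.Agent.Lib.TWCT.HDupB

/-!
# CT, j = 1, row B: from the real fields to the data `HB`

* `GLB`: the data in the big field over the real floors `y`, `u`, `z`;
* `RFl.exists_glb`: they exist; `GLB.exists_shU`: the shape of `u` along `y`.
-/

set_option autoImplicit false

open MvPolynomial

namespace Pool.Agent.TWRB

open Pool.Agent.H15JM (RVal)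
open Pool.Agent.LU1 (VPos)
open Pool.Agent.D2 (Ctx0)
open Pool.Agent.D2P (clI)
open Pool.Agent.TWM
open Pool.Agent.TWS (IsoE SphC PM VG TowR)
open Pool.Agent.TWII (PG LP)
open Pool.Agent.TWN1 (Unh)
open Pool.Agent.TWTam (TR tam)
open Pool.Agent.TWRR (GP Prj)
open Pool.Agent.TWCT (SMo MovV MovR Hit J1D tH GsM Chn)
open Pool.Agent.TWLY
open Pool.Agent.TWCY
open Pool.Agent.TWRA (Mn Grd RowGrd)

universe u

section

variable {k Ω₀ Ω : Type u} [Field k] [Field Ω₀] [Algebra k Ω₀] [Field Ω] [Algebra k Ω]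

/-- The real floors. -/
structure RFl (p : ℕ) (v₀ : RVal Ω₀) (v : RVal Ω) (ι : Ω₀ →ₐ[k] Ω) (x₀ : Ω₀)
    (W₀ K₀ : IntermediateField k Ω₀) (al : Ω₀) (ν : ℝ) (C F : IntermediateField k Ω₀)
    (y u z : Ω₀) (r t s : ℝ) : Prop where
  j : J1D p v₀ v ι x₀ W₀ K₀ al ν
  ty : TL v₀ (clI v₀ W₀) y r
  C_eq : C = cadj v₀ (clI v₀ W₀) y
  tu : TL v₀ C u t
  F_eq : F = cadj v₀ C u
  tz : TL v₀ F z s
  K_eq : clI v₀ K₀ = cadj v₀ F z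

/-- The data in the big field, over the real floors. -/
structure GLB (p : ℕ) (v₀ : RVal Ω₀) (v : RVal Ω) (ι : Ω₀ →ₐ[k] Ω) (x₀ : Ω₀)
    (W₀ K₀ : IntermediateField k Ω₀) (al : Ω₀) (ν : ℝ) (C F : IntermediateField k Ω₀)
    (y u z : Ω₀) (r t s : ℝ) (G : AddSubgroup ℝ) (M : ℝ → Ω) (L : ℕ → IntermediateField k Ω)
    (X₀ c₁ c₂ d m cx : Ω) (D : Ω → Ω) : Prop where
  ms : MS v G M
  dj : ∀ g ∈ G, g ∈ VG v (tH p v₀ ι x₀ (clI v₀ W₀)) → g = 0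
  div : ∀ n : ℕ, n ≠ 0 → ∀ g ∈ G, g / n ∈ G
  top : VG v (tH p v₀ ι x₀ (clI v₀ W₀)) ⊔ G = ⊤
  chn : Chn p v₀ v ι x₀ (clI v₀ W₀) L
  /-- the grading of `K' / Kr`, for `Fr` -/
  grF : ∃ π : Ω → Ω, Grd p v ((clI v₀ W₀).map ι) (F.map ι) ((clI v₀ K₀).map ι)
    (PM v (tH p v₀ ι x₀ (clI v₀ W₀)) G M) (PM v (tH p v₀ ι x₀ F) G M)
    (PM v (tH p v₀ ι x₀ (clI v₀ K₀)) G M) (Mn p (ι x₀) ((clI v₀ W₀).map ι) G M) π
  /-- the grading of `K' / Kr`, for `Cr` -/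
  grC : ∃ π : Ω → Ω, Grd p v ((clI v₀ W₀).map ι) (C.map ι) ((clI v₀ K₀).map ι)
    (PM v (tH p v₀ ι x₀ (clI v₀ W₀)) G M) (PM v (tH p v₀ ι x₀ C) G M)
    (PM v (tH p v₀ ι x₀ (clI v₀ K₀)) G M) (Mn p (ι x₀) ((clI v₀ W₀).map ι) G M) π
  XW : X₀ ∈ (clI v₀ W₀).map ι
  c1S : c₁ ∈ Mn p (ι x₀) ((clI v₀ W₀).map ι) G M
  c2S : c₂ ∈ Mn p (ι x₀) ((clI v₀ W₀).map ι) G M
  dS : d ∈ Mn p (ι x₀) ((clI v₀ W₀).map ι) G M
  mS : m ∈ Mn p (ι x₀) ((clI v₀ W₀).map ι) G M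
  cxS : cx ∈ Mn p (ι x₀) ((clI v₀ W₀).map ι) G M
  c1v : v c₁ = r
  c2v : v c₂ = t
  dv : v d = s
  mv : p * v m = ν
  hb : HB p v (fun J => PM v (L J) G M) (PM v (tH p v₀ ι x₀ (clI v₀ W₀)) G M)
    (PM v (tH p v₀ ι x₀ C) G M) (PM v (tH p v₀ ι x₀ F) G M)
    (PM v (tH p v₀ ι x₀ (clI v₀ K₀)) G M) ![ι y / c₁, ι u / c₂] (X₀ / cx ^ p) (ι z / d)
    (ι (al ^ p) / m ^ p)
  base : BaseD p v (PM v (tH p v₀ ι x₀ (clI v₀ W₀)) G M) (X₀ / cx ^ p) D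

end

section

variable {k Ω₀ Ω : Type u} [Field k] [Field Ω₀] [Algebra k Ω₀] [Field Ω] [Algebra k Ω]
  {p : ℕ} {v₀ : RVal Ω₀} {v : RVal Ω} {ι : Ω₀ →ₐ[k] Ω} [hp : Fact p.Prime] [CharP Ω₀ p]
  [CharP Ω p] [CharP k p] [IsAlgClosed k] [IsAlgClosed Ω₀] [IsAlgClosed Ω] {x₀ : Ω₀}
  {W₀ K₀ : IntermediateField k Ω₀} {al : Ω₀} {ν : ℝ} {C F : IntermediateField k Ω₀}
  {y u z : Ω₀} {r t s : ℝ}

omit hp [CharP Ω₀ p] [CharP Ω p] [CharP k p] [IsAlgClosed k] in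
/-- The motions of the normalised first floor. -/
theorem RFl.mv (h : RFl p v₀ v ι x₀ W₀ K₀ al ν C F y u z r t s)
    {L : ℕ → IntermediateField k Ω} (hL : Chn p v₀ v ι x₀ (clI v₀ W₀) L)
    (hcon : TWCT.ConS v L (tH p v₀ ι x₀ (clI v₀ W₀)) (tH p v₀ ι x₀ (clI v₀ W₀)))
    {G : AddSubgroup ℝ} {M : ℝ → Ω} (hM : MS v G M)
    (hG : ∀ g ∈ G, g ∈ VG v (tH p v₀ ι x₀ (clI v₀ W₀)) → g = 0) {c : Ω}
    (hc : c ∈ PM v (tH p v₀ ι x₀ (clI v₀ W₀)) G M) (hc0 : c ≠ 0) (hv : v c = r) :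
    MovV v (fun J => PM v (L J) G M) (PM v (tH p v₀ ι x₀ (clI v₀ W₀)) G M) (ι y / c) 0 ∨
      MovR v (fun J => PM v (L J) G M) (PM v (tH p v₀ ι x₀ (clI v₀ W₀)) G M) (ι y / c) 0 := by
  have hJ := h.j
  have hT : TowR v₀ 2 (cadj v₀ (clI v₀ W₀) y) (clI v₀ K₀) := by
    rw [h.K_eq, ← h.C_eq]
    refine TowR.succ h.tu ?_
    rw [← h.F_eq]
    exact TowR.succ h.tz (TowR.zero (cld_cadj _ _ _))
  have htl : TL v (tH p v₀ ι x₀ (clI v₀ W₀)) (ι y) r := TWCT.tl_tH hJ.iso hJ.xW h.ty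
  have hgs : GsM v (tH p v₀ ι x₀ (clI v₀ W₀)) G M := ⟨hM, hG⟩
  have htl' : TL v (PM v (tH p v₀ ι x₀ (clI v₀ W₀)) G M) (ι y) r :=
    TWS.TL.pm hgs.monG (Imm.refl _) htl
  have hmono : Monotone fun J => PM v (L J) G M := TWCT.mono_pm hL.mono
  have hle : ∀ J, PM v (L J) G M ≤ PM v (tH p v₀ ι x₀ (clI v₀ W₀)) G M := fun J =>
    TWS.PM.mono (hL.le J)
  have hd := TWCT.dense_pm (G := G) (M := M) hL.dense
  have e : (0 : ℝ) = r - v c := by rw [hv, sub_self]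
  rw [e]
  rcases hJ.mvs hL hcon h.ty hT with h1 | h1
  · exact Or.inl (TWRA.MovV.scale hJ.c0 hJ.sph hJ.val hJ.cw hmono hle hd htl' hc hc0
      (TWCT.MovV.pm hJ.c0 hJ.sph hJ.val hJ.cw hL.le hgs htl h1))
  · exact Or.inr (TWRA.MovR.scale hJ.c0 hJ.sph hJ.val hJ.cw hmono hle hd htl' hc hc0
      (TWCT.MovR.pm hJ.c0 hJ.sph hJ.val hJ.cw hL.le hgs htl h1))

/-- **The data in the big field exist.** -/
theorem RFl.exists_glb (h : RFl p v₀ v ι x₀ W₀ K₀ al ν C F y u z r t s)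
    (hnl : ∀ g ∈ C, ¬ Lim v₀ (clI v₀ W₀) t (u - g)) (hnh : ¬ Hit p v₀ C u t) :
    ∃ (G : AddSubgroup ℝ) (M : ℝ → Ω) (L : ℕ → IntermediateField k Ω)
      (X₀ c₁ c₂ d m cx : Ω) (D : Ω → Ω),
      GLB p v₀ v ι x₀ W₀ K₀ al ν C F y u z r t s G M L X₀ c₁ c₂ d m cx D := by
  have hJ := h.j
  have hp0 : (p : ℝ) ≠ 0 := by exact_mod_cast hp.out.ne_zero
  obtain ⟨M, hM⟩ := TWC.exists_ms hJ.val
  obtain ⟨G, hG, hdiv, htop⟩ := TWCT.exists_gsm hJ.ctx hJ.iso hJ.xW hJ.x0 hJ.xv hJ.pd hM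
  obtain ⟨L, hL, hcon⟩ := hJ.cs
  obtain ⟨X₀, hX, hBX⟩ := hJ.exists_bx_pm hG hdiv
  -- the real fields
  have hWC : clI v₀ W₀ ≤ C := by
    rw [h.C_eq]
    exact le_cadj _ _ _
  have hCF : C ≤ F := by
    rw [h.F_eq]
    exact le_cadj _ _ _
  have hFK : F ≤ clI v₀ K₀ := by
    rw [h.K_eq]
    exact le_cadj _ _ _
  have mle : ∀ {A B : IntermediateField k Ω₀}, A ≤ B → A.map ι ≤ B.map ι := fun hAB =>
    IntermediateField.map_mono ι hAB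
  have cC₀ : Cld v₀ C := by
    rw [h.C_eq]
    exact cld_cadj _ _ _
  have cF₀ : Cld v₀ F := by
    rw [h.F_eq]
    exact cld_cadj _ _ _
  have cW : Cld v ((clI v₀ W₀).map ι) := (hJ.iso.cld_iff hJ.cpl).2 (cld_clI v₀ _)
  have cK : Cld v ((clI v₀ K₀).map ι) := (hJ.iso.cld_iff hJ.cpl).2 (cld_clI v₀ _)
  have cC : Cld v (C.map ι) := (hJ.iso.cld_iff hJ.cpl).2 cC₀
  have cF : Cld v (F.map ι) := (hJ.iso.cld_iff hJ.cpl).2 cF₀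
  have tyr : TL v ((clI v₀ W₀).map ι) (ι y) r := hJ.iso.tl_iff.2 h.ty
  have tur : TL v (C.map ι) (ι u) t := hJ.iso.tl_iff.2 h.tu
  have tzr : TL v (F.map ι) (ι z) s := hJ.iso.tl_iff.2 h.tz
  have eC : C.map ι = cadj v ((clI v₀ W₀).map ι) (ι y) := by
    rw [hJ.iso.cadj_map hJ.cpl, ← h.C_eq]
  have eF : F.map ι = cadj v (C.map ι) (ι u) := by
    rw [hJ.iso.cadj_map hJ.cpl, ← h.F_eq]
  have eK : (clI v₀ K₀).map ι = cadj v (F.map ι) (ι z) := by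
    rw [hJ.iso.cadj_map hJ.cpl, ← h.K_eq]
  have hiK : Imm v ((clI v₀ W₀).map ι) ((clI v₀ K₀).map ι) := by
    have h1 : Imm v ((clI v₀ W₀).map ι) (C.map ι) := by
      rw [eC]
      exact tyr.imm
    have h2 : Imm v (C.map ι) (F.map ι) := by
      rw [eF]
      exact tur.imm
    have h3 : Imm v (F.map ι) ((clI v₀ K₀).map ι) := by
      rw [eK]
      exact tzr.imm
    exact (h1.trans h2).trans h3
  -- algebraically closed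
  have haF : ∀ a ∈ (clI v₀ K₀).map ι, IsAlgebraic (F.map ι) a → a ∈ F.map ι := fun a ha h1 => by
    rw [eK] at ha
    exact tzr.alg_mem p cF ha h1
  have haC : ∀ a ∈ (clI v₀ K₀).map ι, IsAlgebraic (C.map ι) a → a ∈ C.map ι := fun a ha h1 => by
    have h2 := haF a ha (D2P.isAlgebraic_mono (mle hCF) h1)
    rw [eF] at h2
    exact tur.alg_mem p cC h2 h1
  have haW : ∀ a ∈ (clI v₀ K₀).map ι, IsAlgebraic ((clI v₀ W₀).map ι) a →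
      a ∈ (clI v₀ W₀).map ι := fun a ha h1 => by
    have h2 := haC a ha (D2P.isAlgebraic_mono (mle hWC) h1)
    rw [eC] at h2
    exact tyr.alg_mem p cW h2 h1
  have hpd : ∀ g ∈ VG v ((clI v₀ W₀).map ι), g / p ∈ VG v ((clI v₀ W₀).map ι) := by
    intro g hg
    obtain ⟨_, ⟨a, ha, rfl⟩, h0, rfl⟩ := hg
    have ha0 : a ≠ 0 := by
      rintro rfl
      exact h0 (map_zero _)
    obtain ⟨b, hb, hb0, h1⟩ := hJ.pd a ha ha0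
    refine ⟨ι b, ⟨b, hb, rfl⟩, IsoE.ne_zero hb0, ?_⟩
    have h2 : v (ι a) = v₀ a := hJ.iso.val a ha0
    change v (ι b) = v (ι a) / p
    rw [h2, hJ.iso.val b hb0, h1]
    field_simp
  have etm : ∀ B : IntermediateField k Ω₀, tam p v (ι x₀) (B.map ι) = tH p v₀ ι x₀ B := fun B =>
    TWCT.tam_map hJ.iso hJ.cpl x₀ B
  have hall : ∀ r : ℝ, ∃ g ∈ G, r - g ∈ VG v (tam p v (ι x₀) ((clI v₀ W₀).map ι)) := by
    intro r
    have h1 : r ∈ VG v (tH p v₀ ι x₀ (clI v₀ W₀)) ⊔ G := by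
      rw [htop]
      exact AddSubgroup.mem_top r
    obtain ⟨a, ha, g, hg, rfl⟩ := AddSubgroup.mem_sup.1 h1
    refine ⟨g, hg, ?_⟩
    rw [etm, add_sub_cancel_right]
    exact ha
  have grF := TWRA.rowGrd (ι x₀) ((clI v₀ W₀).map ι) (F.map ι) ((clI v₀ K₀).map ι) G M hJ.c0
    hJ.cw ⟨x₀, hJ.xW, rfl⟩ (IsoE.ne_zero hJ.x0) cW cF cK (mle (hWC.trans hCF)) (mle hFK) hiK haF
    haW hpd hG.ms (by rw [etm]; exact hG.dj) hall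
  have grC := TWRA.rowGrd (ι x₀) ((clI v₀ W₀).map ι) (C.map ι) ((clI v₀ K₀).map ι) G M hJ.c0
    hJ.cw ⟨x₀, hJ.xW, rfl⟩ (IsoE.ne_zero hJ.x0) cW cC cK (mle hWC) (mle (hCF.trans hFK)) hiK haC
    haW hpd hG.ms (by rw [etm]; exact hG.dj) hall
  rw [etm, etm, etm] at grF grC
  obtain ⟨π, hgrd⟩ := grF
  obtain ⟨c₁, hc1, hc1v⟩ := hgrd.all r
  obtain ⟨c₂, hc2, hc2v⟩ := hgrd.all t
  obtain ⟨d, hd, hdv⟩ := hgrd.all s
  obtain ⟨m, hm, hmv⟩ := hgrd.all (ν / p)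
  have hmν : p * v m = ν := by
    rw [hmv]
    field_simp
  have hgp : GP p v (PM v (tH p v₀ ι x₀ (clI v₀ W₀)) G M) := TWCT.gp_of_div hJ.c0 fun g hg => by
    obtain ⟨c, hc, hcv⟩ := hgrd.all (g / p)
    exact ⟨c, hgrd.sub c hc, hgrd.ne c hc, hcv⟩
  obtain ⟨cx, hcx, D, hD⟩ := hBX.exists_base_of hJ.c0 TWS.PM.cld hgp hgrd.sub hgrd.ne hgrd.all
  have hXW : X₀ / cx ^ p ∈ PM v (tH p v₀ ι x₀ (clI v₀ W₀)) G M :=
    div_mem (hgrd.WW' hX) (pow_mem (hgrd.sub cx hcx) p)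
  have hdb := hJ.hdb hL h.ty h.C_eq h.tu h.F_eq h.tz h.K_eq hnl hnh hG
    (fun g hg => hdiv p hp.out.ne_zero g hg) htop (hgrd.sub _ hc1) (hgrd.ne _ hc1) hc1v
    (hgrd.sub _ hc2) (hgrd.ne _ hc2) hc2v (hgrd.sub d hd) (hgrd.ne d hd) hdv (hgrd.sub m hm)
    (hgrd.ne m hm) hmν
  refine ⟨G, M, L, X₀, c₁, c₂, d, m, cx, D, ?_⟩
  exact
  { ms := hG.ms
    dj := hG.dj
    div := hdiv
    top := htop
    chn := hL
    grF := ⟨π, hgrd⟩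
    grC := grC
    XW := hX
    c1S := hc1
    c2S := hc2
    dS := hd
    mS := hm
    cxS := hcx
    c1v := hc1v
    c2v := hc2v
    dv := hdv
    mv := hmν
    hb :=
    { c0 := hdb.c0
      cv := hdb.cv
      sph := hdb.sph
      hval := hdb.hval
      cld := hdb.cld
      full := hdb.full
      gp := hdb.gp
      xW := hXW
      mono := hdb.mono
      le := hdb.le
      dense := hdb.dense
      tw := hdb.yt
      B_eq := hdb.C_eq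
      tu := hdb.ut
      F_eq := hdb.F_eq
      nh := hdb.nhit
      npar := hdb.nlim
      zt := hdb.zt
      K_eq := hdb.K_eq
      aK := hdb.aK
      lp := hdb.lp
      crit := hdb.crit
      hit := hdb.unh
      mv := h.mv hL hcon hG.ms hG.dj (hgrd.sub _ hc1) (hgrd.ne _ hc1) hc1v }
    base := hD }

/-- **The shape of `u` along `y`.** -/
theorem GLB.exists_shU {G : AddSubgroup ℝ} {M : ℝ → Ω} {L : ℕ → IntermediateField k Ω}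
    {X₀ c₁ c₂ d m cx : Ω} {D : Ω → Ω}
    (h : GLB p v₀ v ι x₀ W₀ K₀ al ν C F y u z r t s G M L X₀ c₁ c₂ d m cx D)
    (hR : RFl p v₀ v ι x₀ W₀ K₀ al ν C F y u z r t s) {Θ : ℕ → Ω₀ → Ω₀}
    (hΘ : TWCT.HsY v₀ (clI v₀ W₀) y r Θ)
    (hfin : TWNI.FinE v₀ (cadj v₀ (clI v₀ W₀) y) r t Θ u) :
    ∃ U : Polynomial Ω, ShU v (PM v (tH p v₀ ι x₀ (clI v₀ W₀)) G M) ![ι y / c₁, ι u / c₂] U := by
  obtain ⟨π, hg⟩ := h.grF
  have tu := hR.tu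
  rw [hR.C_eq] at tu
  exact rowShB x₀ W₀ K₀ al ν y u r t Θ hR.j hR.ty hΘ tu hfin G M h.ms h.dj c₁ c₂
    (hg.sub _ h.c1S) (hg.sub _ h.c2S) (hg.ne _ h.c1S) (hg.ne _ h.c2S) h.c1v h.c2v

end

end Pool.Agent.TWRB
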