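import Pool.Agent.Lib.TWCY.EndD
import Pool.Agent.Lib.TWCY.V0R

/-!
# Rows A and B: the output of the core

* `OutE`: the output of the core in the big field, `F = C⟨u⟩`, `T c : u ↦ u + c` over `C`;
* `outE_of_cg`: `OutE` for row A, `C = W⟨w 0⟩`, `u = w 1`.
-/

set_option autoImplicit false

open MvPolynomial

namespace Pool.Agent.TWRB

open Pool.Agent.H15JM (RVal)
open Pool.Agent.LU1 (VPos)
open Pool.Agent.D2 (Ctx0)
open Pool.Agent.TWM
open Pool.Agent.TWS (IsoE SphC)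
open Pool.Agent.TWII (PG LP)
open Pool.Agent.TWLY
open Pool.Agent.TWCY

universe u

variable {k Ω : Type u} [Field k] [Field Ω] [Algebra k Ω]

/-- **The output of the core**: `a = e (z - φ) + x P(z - φ) + a₀`, the jets of `z - φ` along `u` are
attained, the derivatives of the effects are strict. -/
structure OutE (p : ℕ) (v : RVal Ω) (C F K : IntermediateField k Ω) (u x z a φ : Ω) (e : k)
    (κ : ℕ → k) (t : ℕ) (a₀ : Ω) (T : k → Ω →ₐ[k] Ω) (D : ℕ) (f : ℕ → Ω) (dd : Fin 2 → Ω → Ω) :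
    Prop where
  kap : κ t ≠ 0
  φF : φ ∈ F
  aF : a₀ ∈ F
  rel : PG p v K 0 (a - (algebraMap k Ω e * (z - φ) + x * PP p κ t (z - φ) + a₀))
  att : TWRR.Att v C F u (z - φ) T D f
  drv : ∀ i, Drv v F (dd i)
  ddx : ∀ i, dd i x = 0
  cls : ∀ b ∈ F, LP p v F 0 b → (∀ i, VPos v (dd i b)) →
    ∃ c : k, PG p v F 0 (b - algebraMap k Ω c * x)
  eff : ∀ (c : k) (i : Fin 2), VPos v (dd i (algebraMap k Ω e *
    ∑ j ∈ Finset.Icc 1 D, algebraMap k Ω c ^ j * f j + (T c a₀ - a₀)))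

theorem gt_iff_vpos {v : RVal Ω} {y : Ω} : Gt v 0 y ↔ VPos v y := Iff.rfl

/-- **Row A.** -/
theorem outE_of_cg {p : ℕ} [hp : Fact p.Prime] [CharP Ω p] [IsAlgClosed Ω] {v : RVal Ω}
    {L : ℕ → IntermediateField k Ω} {W F K : IntermediateField k Ω} {w : Fin 2 → Ω} {x z φ a : Ω}
    {R : Rec k Ω} (h : CG p v L W F K w x (z - φ) a R) (hNF : NFree R) (hφ : φ ∈ F) :
    OutE p v (cadj v W (w 0)) F K (w 1) x z a φ R.e R.κ R.t (eval w R.Pa)
      (fun c => R.T (p01 c)) R.f.totalDegree (fun j => coeff (Finsupp.single 1 j) R.f) R.dd where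
  kap := h.kap
  φF := hφ
  aF := h.tie.aF
  rel := h.rel
  att := att_of_nfree h hNF le_rfl
  drv := h.drt.drvi
  ddx := fun i => h.drt.ddW i _ h.xW
  cls := fun b hb hlp hdd => rowV0 L W F K w x (z - φ) a R.D R.T R.dd h.toHD h.base h.trn h.drt b hb
    hlp hdd
  eff := fun c i => by
    have h1 := vpos_dd_snd h hNF c i
    rw [eval_pt_snd h.shp.f0 le_rfl] at h1
    exact h1

end Pool.Agent.TWRB
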