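import Pool.Agent.Lib.TWRB.Out
import Pool.Agent.Lib.TWRB.End

/-!
# Row B: the output of the core from the functionals

`outE_of_end`: `OutE` from `end_att`, `end_vpos`.
-/

set_option autoImplicit false

open MvPolynomial

namespace Pool.Agent.TWRB

open Pool.Agent.H15JM (RVal)
open Pool.Agent.LU1 (VPos)
open Pool.Agent.D2 (Ctx0)
open Pool.Agent.TWM
open Pool.Agent.TWS (IsoE SphC)
open Pool.Agent.TWII (PG LP)
open Pool.Agent.TWLY
open Pool.Agent.TWCY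
open Pool.Agent.TWCF (NL)

universe u

variable {k Ω : Type u} [Field k] [Field Ω] [Algebra k Ω] {v : RVal Ω}

/-- **Row B**: `Z` is the shape of `z - φ`, `A` is the orbit polynomial of `a₀`, `E i` extends `∂_i`. -/
theorem outE_of_end {p : ℕ} {C F K : IntermediateField k Ω} {u x z a φ a₀ : Ω} {e : k} {κ : ℕ → k}
    {t : ℕ} {T : (Fin 2 → k) → Ω →ₐ[k] Ω} {Z A : MvPolynomial (Fin 2) Ω} {dd : Fin 2 → Ω → Ω}
    {E : Fin 2 → Ω →ₗ[k] Ω} (hk : Ctx0 k v) (hs : SphC v) (hiso : ∀ c, IsoE v v (T c))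
    (hfix : ∀ c, ∀ y ∈ C, T (p01 c) y = y) (hu : ∀ c, T (p01 c) u = u + algebraMap k Ω c)
    (hkap : κ t ≠ 0) (hφ : φ ∈ F) (haF : a₀ ∈ F)
    (hrel : PG p v K 0 (a - (algebraMap k Ω e * (z - φ) + x * PP p κ t (z - φ) + a₀)))
    (hZ0 : constantCoeff Z = 0)
    (hZ : ∀ c : Fin 2 → k, v.Ge 0 (T c (z - φ) - (z - φ) - eval (pt c) Z))
    (hN : ∀ d : Ω →ₗ[F] Ω, NL v d → (∀ f ∈ F, d f = 0) → ∀ l : ℕ, l ≠ 0 →
      VPos v (d (coeff (Finsupp.single 1 l) Z)))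
    (hA0 : constantCoeff A = 0) (hAF : ∀ l : ℕ, coeff (Finsupp.single 1 l) A ∈ F)
    (hA : ∀ c, T (p01 c) a₀ = a₀ + eval (pt (p01 c)) A) (hd : ∀ i, Drv v F (dd i))
    (hdx : ∀ i, dd i x = 0) (hE : ∀ (i : Fin 2) (y : Ω) (c : ℝ), v.Ge c y → v.Ge c (E i y))
    (hEF : ∀ i, ∀ f ∈ F, E i f = dd i f)
    (hG : ∀ (i : Fin 2) (l : ℕ), l ≠ 0 →
      VPos v (algebraMap k Ω e * E i (coeff (Finsupp.single 1 l) Z) +
        dd i (coeff (Finsupp.single 1 l) A)))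
    (hcls : ∀ b ∈ F, LP p v F 0 b → (∀ i, VPos v (dd i b)) →
      ∃ c : k, PG p v F 0 (b - algebraMap k Ω c * x)) :
    ∃ f : ℕ → Ω, OutE p v C F K u x z a φ e κ t a₀ (fun c => T (p01 c)) Z.totalDegree f dd := by
  obtain ⟨f, hf, hfz, hf0, hatt⟩ := end_att hk hs hiso hfix hu hZ0 hZ hN le_rfl
  refine ⟨f, ⟨hkap, hφ, haF, hrel, hatt, hd, hdx, hcls, fun c i => ?_⟩⟩
  refine end_vpos hk hA0 hAF hA (hd i) (hE i) (hEF i) (hG i) hf hfz (fun l hl => hf0 l ?_) c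
  refine coeff_eq_zero_of_totalDegree_lt ?_
  have h2 : ∑ i ∈ (Finsupp.single (1 : Fin 2) l).support, (Finsupp.single (1 : Fin 2) l) i = l := by
    have h3 := Finsupp.degree_single (1 : Fin 2) l
    rwa [Finsupp.degree_apply] at h3
  rw [h2]
  exact hl

end Pool.Agent.TWRB
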