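import Pool.Agent.Lib.TWN1.GabB
import Pool.Agent.Lib.TWCT.ConS

/-!
# CT, j = 1, row B, R16: the limits of the base in a pair

`K` is a pair over `C`, radii `0`.
* `KC`: the coefficients of a column are constants;
* `exists_col`: a limit of `C` in `K` is a sum of two columns with constant coefficients, modulo `C`;
* `exists_prim`: after a change of the pair, one column is enough (Euclid);
* `exists_prim_lim`: **(S)**: for a limit `y` of `C` in `K` there is a pair `(y₀, z')` such that `y` is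
  an additive polynomial of `y₀` over `k`, modulo `C` and strictly positive values.
-/

set_option autoImplicit false

open Polynomial Finset

namespace Pool.Agent.TWRB

open Pool.Agent.H15JM (RVal)
open Pool.Agent.D2 (Ctx0)
open Pool.Agent.TWM
open Pool.Agent.TWN1

universe u

variable {k Ω : Type u} [Field k] [Field Ω] [Algebra k Ω] {v : RVal Ω}
  {C K : IntermediateField k Ω} {p : ℕ}

/-- Constant coefficients. -/
def KC (k : Type u) {Ω : Type u} [Field k] [Field Ω] [Algebra k Ω] (x : ℕ → Ω) : Prop :=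
  ∀ j, ∃ c : k, x j = algebraMap k Ω c

theorem KC.mem {x : ℕ → Ω} (h : KC k x) (A : IntermediateField k Ω) (j : ℕ) : x j ∈ A := by
  obtain ⟨c, hc⟩ := h j
  rw [hc]
  exact A.algebraMap_mem c

theorem KC.zero : KC k (fun _ => (0 : Ω)) := fun _ => ⟨0, by rw [map_zero]⟩

theorem KC.ge (h0 : Ctx0 k v) {x : ℕ → Ω} (h : KC k x) (j : ℕ) : v.Ge 0 (x j) := by
  obtain ⟨c, hc⟩ := h j
  rw [hc]
  exact h0.ge c

theorem col_zero (z : Ω) (S : ℕ) : col p (fun _ => (0 : Ω)) z S = 0 := by
  rw [col]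
  exact sum_eq_zero fun j _ => zero_mul _

theorem col_succ (x : ℕ → Ω) (z : Ω) (S : ℕ) :
    col p x z (S + 1) = col p x z S + x (S + 1) * z ^ p ^ (S + 1) := by
  rw [col, col, sum_range_succ]

theorem col_at_zero (x : ℕ → Ω) (z : Ω) : col p x z 0 = x 0 * z := by
  rw [col, zero_add, sum_range_one, pow_zero, pow_one]

theorem KC.colS {x y : ℕ → Ω} (hx : KC k x) (hy : KC k y) (s : k) (d : ℕ) :
    KC k (TWN1.colS p x y (algebraMap k Ω s) d) := by
  intro j
  obtain ⟨a, ha⟩ := hx j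
  obtain ⟨b, hb⟩ := hy (j - d)
  rw [TWN1.colS]
  split_ifs with hd
  · exact ⟨a - b * s ^ p ^ (j - d), by rw [ha, hb, map_sub, map_mul, map_pow]⟩
  · exact ⟨a, by rw [ha, sub_zero]⟩

variable [hp : Fact p.Prime] [CharP Ω p]

/-- **Euclid.** -/
theorem exists_prim [IsAlgClosed k] [IsAlgClosed Ω] (h0 : Ctx0 k v) : ∀ (n S T : ℕ) (u z : Ω)
    (x y : ℕ → Ω), S + T < n → Par v C K u 0 z 0 → KC k x → KC k y →
    ∃ (y₀ z' : Ω) (q : ℕ → Ω) (N : ℕ), Par v C K y₀ 0 z' 0 ∧ KC k q ∧
      col p x u S + col p y z T = col p q y₀ N := by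
  intro n
  induction n with
  | zero =>
    intro S T u z x y h
    exact absurd h (by omega)
  | succ n ih =>
    -- the main step, for T ≤ S
    have key : ∀ (S T : ℕ) (u z : Ω) (x y : ℕ → Ω), S + T < n + 1 → T ≤ S →
        Par v C K u 0 z 0 → KC k x → KC k y → y T ≠ 0 →
        ∃ (y₀ z' : Ω) (q : ℕ → Ω) (N : ℕ), Par v C K y₀ 0 z' 0 ∧ KC k q ∧
          col p x u S + col p y z T = col p q y₀ N := by
      intro S T u z x y hST hTS hP hx hy hyT
      obtain ⟨a, ha⟩ := hx S
      obtain ⟨b, hb⟩ := hy T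
      have hb0 : b ≠ 0 := by
        rintro rfl
        rw [map_zero] at hb
        exact hyT hb
      have hpT : 0 < p ^ T := Nat.pow_pos hp.out.pos
      obtain ⟨s, hs⟩ := IsAlgClosed.exists_pow_nat_eq (a / b) hpT
      have hsE : v.Ge (0 - p ^ (S - T) * 0) (algebraMap k Ω s) := by
        rw [mul_zero, sub_zero]
        exact h0.ge s
      have hP' := hP.step (p := p) (C.algebraMap_mem s) (d := S - T) hsE
      have hx' : KC k (TWN1.colS p x y (algebraMap k Ω s) (S - T)) := hx.colS hy s (S - T)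
      have htop : TWN1.colS p x y (algebraMap k Ω s) (S - T) S = 0 := by
        rw [TWN1.colS, if_pos (Nat.sub_le _ _), Nat.sub_sub_self hTS, ha, hb, ← map_pow, hs,
          ← map_mul, mul_div_cancel₀ _ hb0, sub_self]
      rw [col_step hTS (algebraMap k Ω s)]
      rcases S with _ | S
      · obtain rfl : T = 0 := by omega
        refine ⟨_, _, y, 0, hP'.symm, hy, ?_⟩
        rw [col_at_zero, htop, zero_mul, zero_add]
      · rw [col_succ, htop, zero_mul, add_zero]
        exact ih S T u _ _ y (by omega) hP' hx' hy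
    intro S T u z x y hST hP hx hy
    by_cases hyT : y T = 0
    · rcases T with _ | T
      · refine ⟨u, z, x, S, hP, hx, ?_⟩
        rw [col_at_zero, hyT, zero_mul, add_zero]
      · rw [col_succ, hyT, zero_mul, add_zero]
        exact ih S T u z x y (by omega) hP hx hy
    · by_cases hxS : x S = 0
      · rcases S with _ | S
        · refine ⟨z, u, y, T, hP.symm, hy, ?_⟩
          rw [col_at_zero, hxS, zero_mul, zero_add]
        · rw [col_succ, hxS, zero_mul, add_zero]
          exact ih S T u z x y (by omega) hP hx hy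
      · rcases le_total T S with h1 | h1
        · exact key S T u z x y hST h1 hP hx hy hyT
        · obtain ⟨y₀, z', q, N, h2, h3, h4⟩ := key T S z u y x (by omega) h1 hP.symm hy hx hxS
          exact ⟨y₀, z', q, N, h2, h3, by rw [add_comm, h4]⟩

/-- The representatives. -/
theorem exists_rep (h0 : Ctx0 k v) {A : IntermediateField k Ω} :
    ∀ c ∈ A, c ≠ 0 → ∃ m ∈ {m : Ω | v m = 0 → ∃ κ : k, m = algebraMap k Ω κ},
      m ∈ A ∧ Gt v (v c) (c - m) := by
  intro c hc hc0
  by_cases hv : v c = 0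
  · obtain ⟨κ, -, hκ⟩ := h0.res c hc0 hv
    refine ⟨algebraMap k Ω κ, fun _ => ⟨κ, rfl⟩, A.algebraMap_mem κ, ?_⟩
    rw [hv]
    exact hκ
  · exact ⟨c, fun h => absurd h hv, hc, by rw [sub_self]; exact Gt.zero⟩

/-- The germ of a limit of level `0`, radius `0`: constant coefficients. -/
theorem exists_germ [IsAlgClosed Ω] (h0 : Ctx0 k v) {A : IntermediateField k Ω} {z w : Ω} (hz : TL v A z 0)
    (hw : w ∈ cadj v A z) (hl : Lim v A 0 w) :
    ∃ f ∈ A, ∃ (x : ℕ → Ω) (S : ℕ), KC k x ∧ Gt v 0 (w - (f + col p x z S)) := by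
  obtain ⟨f, hf, e, c, hc, h1⟩ := hz.germ p (exists_rep h0) hw hl
  have hK : KC k (fun i => if i < e then c i else 0) := by
    intro i
    by_cases hi : i < e
    · simp only [if_pos hi]
      rcases hc i with h2 | ⟨h2, -, h3, h4⟩
      · exact ⟨0, by rw [h2, map_zero]⟩
      · rw [mul_zero, add_zero] at h4
        exact h2 h4
    · simp only [if_neg hi]
      exact ⟨0, by rw [map_zero]⟩
  refine ⟨f, hf, _, e, hK, ?_⟩
  have e1 : col p (fun i => if i < e then c i else 0) z e =
      ∑ i ∈ range e, c i * z ^ p ^ i := by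
    rw [col, sum_range_succ]
    simp only [lt_irrefl, if_false, zero_mul, add_zero]
    exact sum_congr rfl fun i hi => by rw [if_pos (mem_range.1 hi)]
  rw [e1]
  exact h1

theorem lim_col {A : IntermediateField k Ω} (h0 : Ctx0 k v) {z : Ω} (hz : Lim v A 0 z)
    {x : ℕ → Ω} (hx : KC k x) (S : ℕ) : Lim v A 0 (col p x z S) := by
  induction S with
  | zero =>
    have h1 := lim_step (p := p) (C := A) (r₁ := 0) (r₂ := 0) (z₂ := 0) (d := 0) hz
      (fun ε hε => ⟨0, zero_mem _, by rw [sub_zero]; exact RVal.Ge.zero⟩) (hx.mem A 0)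
      (by rw [mul_zero, sub_zero]; exact hx.ge h0 0)
    rw [zero_add, pow_zero, pow_one] at h1
    rw [col_at_zero]
    exact h1
  | succ S ih =>
    rw [col_succ]
    exact lim_step hz ih (hx.mem A _) (by rw [mul_zero, sub_zero]; exact hx.ge h0 _)

/-- A limit of the base in a pair. -/
theorem exists_col [IsAlgClosed Ω] (h0 : Ctx0 k v) {u z w : Ω} (hP : Par v C K u 0 z 0)
    (hw : w ∈ K) (hl : Lim v C 0 w) : ∃ c ∈ C, ∃ (x y : ℕ → Ω) (S T : ℕ), KC k x ∧ KC k y ∧
      Gt v 0 (w - (c + col p x u S + col p y z T)) := by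
  rw [hP.eq1] at hw
  obtain ⟨f, hf, y, T, hy, h1⟩ := exists_germ (p := p) h0 hP.t21 hw (hl.mono (le_cadj v C u))
  have hfl : Lim v C 0 f := by
    intro ε hε
    obtain ⟨a, ha, h3⟩ := hl ε hε
    obtain ⟨b, hb, h2⟩ := lim_col h0 hP.t2.lim hy T ε hε
    refine ⟨a - b, sub_mem ha hb, ?_⟩
    have h4 : f - (a - b) = ((w - a) - (col p y z T - b)) - (w - (f + col p y z T)) := by ring
    rw [h4]
    exact (h3.sub h2).sub (h1.ge.mono (by linarith))
  obtain ⟨c, hc, x, S, hx, h2⟩ := exists_germ (p := p) h0 hP.t1 hf hfl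
  refine ⟨c, hc, x, y, S, T, hx, hy, ?_⟩
  have e : w - (c + col p x u S + col p y z T) =
      (w - (f + col p y z T)) + (f - (c + col p x u S)) := by ring
  rw [e]
  exact h1.add h2

/-- **(S) for a pair.** -/
theorem exists_prim_lim [IsAlgClosed k] [IsAlgClosed Ω] (h0 : Ctx0 k v) {u z w : Ω}
    (hP : Par v C K u 0 z 0) (hw : w ∈ K) (hl : Lim v C 0 w) :
    ∃ (y₀ z' : Ω) (q : ℕ → Ω) (N : ℕ), Par v C K y₀ 0 z' 0 ∧ KC k q ∧
      ∃ c ∈ C, Gt v 0 (w - (c + col p q y₀ N)) := by
  obtain ⟨c, hc, x, y, S, T, hx, hy, h1⟩ := exists_col (p := p) h0 hP hw hl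
  obtain ⟨y₀, z', q, N, h2, h3, h4⟩ := exists_prim (p := p) h0 (S + T + 1) S T u z x y
    (Nat.lt_succ_self _) hP hx hy
  refine ⟨y₀, z', q, N, h2, h3, c, hc, ?_⟩
  rw [← h4, ← add_assoc]
  exact h1

end Pool.Agent.TWRB
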