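import Pool.Agent.Lib.TWRB.Glob

/-!
# CT, j = 1, row B: limits come down to the real fields

* `RFl.lim_down`: if `ι z / d - φ` is a limit of `C'` for some `φ ∈ F'`, then `z - φ₀` is a limit of
  `C` for some `φ₀ ∈ F`.
-/

set_option autoImplicit false

open MvPolynomial

namespace Pool.Agent.TWRB

open Pool.Agent.H15JM (RVal)
open Pool.Agent.D2 (Ctx0)
open Pool.Agent.D2P (clI)
open Pool.Agent.TWM
open Pool.Agent.TWS (IsoE SphC PM VG)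
open Pool.Agent.TWTam
open Pool.Agent.TWCT

universe u

variable {k Ω₀ Ω : Type u} [Field k] [Field Ω₀] [Algebra k Ω₀] [Field Ω] [Algebra k Ω]
  {p : ℕ} {v₀ : RVal Ω₀} {v : RVal Ω} {ι : Ω₀ →ₐ[k] Ω} [hp : Fact p.Prime] [CharP Ω₀ p]
  [CharP Ω p] [CharP k p] [IsAlgClosed k] [IsAlgClosed Ω₀] [IsAlgClosed Ω] {x₀ : Ω₀}
  {W₀ K₀ : IntermediateField k Ω₀} {al : Ω₀} {ν : ℝ} {C F : IntermediateField k Ω₀}
  {y u z : Ω₀} {r t s : ℝ}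

/-- **Limits come down** to the real fields. -/
theorem RFl.lim_down (h : RFl p v₀ v ι x₀ W₀ K₀ al ν C F y u z r t s) {G : AddSubgroup ℝ}
    {M : ℝ → Ω} (hM : MS v G M) (hG : ∀ g ∈ G, g ∈ VG v (tH p v₀ ι x₀ (clI v₀ W₀)) → g = 0)
    {d φ : Ω} (hd : d ∈ PM v (tH p v₀ ι x₀ (clI v₀ W₀)) G M) (hd0 : d ≠ 0) {b : Ω₀} {c : ℝ}
    (hb : b ∈ clI v₀ K₀) (hφ : φ ∈ PM v (tH p v₀ ι x₀ F) G M)
    (hl : Lim v (PM v (tH p v₀ ι x₀ C) G M) (c - v d) (ι b / d - φ)) :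
    ∃ φ₀ ∈ F, Lim v₀ C c (b - φ₀) := by
  have hJ := h.j
  have hWC : clI v₀ W₀ ≤ C := by
    rw [h.C_eq]
    exact le_cadj _ _ _
  have hCF : C ≤ F := by
    rw [h.F_eq]
    exact le_cadj _ _ _
  have hFK : F ≤ clI v₀ K₀ := by
    rw [h.K_eq]
    exact le_cadj _ _ _
  have hxC : x₀ ∈ C := hWC hJ.xW
  have hxF : x₀ ∈ F := hCF hxC
  have hyH := tl_tH (p := p) (x := x₀) hJ.iso hJ.xW h.ty
  have huH := tl_tH (p := p) (x := x₀) hJ.iso hxC h.tu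
  have hzH := tl_tH (p := p) (x := x₀) hJ.iso hxF h.tz
  have hgx : Gx v (tH p v₀ ι x₀ (clI v₀ W₀)) G M := ⟨hM, hG⟩
  have hcC := tH_cld (p := p) (x := x₀) hJ.iso hJ.cpl C
  have hcF := tH_cld (p := p) (x := x₀) hJ.iso hJ.cpl F
  have hcK := tH_cld (p := p) (x := x₀) hJ.iso hJ.cpl (clI v₀ K₀)
  have hCH : tH p v₀ ι x₀ C = cadj v (tH p v₀ ι x₀ (clI v₀ W₀)) (ι y) := by
    rw [h.C_eq, tH_cadj hJ.iso hJ.cpl]
  have hFH : tH p v₀ ι x₀ F = cadj v (tH p v₀ ι x₀ C) (ι u) := by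
    rw [h.F_eq, tH_cadj hJ.iso hJ.cpl]
  have hKH : tH p v₀ ι x₀ (clI v₀ K₀) = cadj v (tH p v₀ ι x₀ F) (ι z) := by
    rw [h.K_eq, tH_cadj hJ.iso hJ.cpl]
  have hiC : Imm v (tH p v₀ ι x₀ (clI v₀ W₀)) (tH p v₀ ι x₀ C) := by
    rw [hCH]
    exact hyH.imm
  have hiF : Imm v (tH p v₀ ι x₀ (clI v₀ W₀)) (tH p v₀ ι x₀ F) := by
    rw [hFH]
    exact hiC.trans huH.imm
  have hiK : Imm v (tH p v₀ ι x₀ (clI v₀ W₀)) (tH p v₀ ι x₀ (clI v₀ K₀)) := by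
    rw [hKH]
    exact hiF.trans hzH.imm
  have hCFH : tH p v₀ ι x₀ C ≤ tH p v₀ ι x₀ F := tH_mono hCF
  have hFKH : tH p v₀ ι x₀ F ≤ tH p v₀ ι x₀ (clI v₀ K₀) := tH_mono hFK
  have hTB : TamB p v₀ x₀ (clI v₀ K₀) :=
    tamB_of hp.out hJ.ctx.toCtx0 hJ.cpl hJ.x0 (cld_clI v₀ K₀) (hFK hxF)
  have hFc : Cld v₀ F := by
    rw [h.F_eq]
    exact cld_cadj _ _ _
  have hCc : Cld v₀ C := by
    rw [h.C_eq]
    exact cld_cadj _ _ _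
  have hTS : TamS p v₀ x₀ (clI v₀ K₀) F := by
    rw [h.K_eq]
    exact TWRR.tamS_cadj hxF hFc h.tz
  have hTSC' : TamS p v₀ x₀ F C := by
    rw [h.F_eq]
    exact TWRR.tamS_cadj hxC hCc h.tu
  have hTSC : TamS p v₀ x₀ (clI v₀ K₀) C :=
    ⟨hCF.trans hFK, hCc, hxC, fun t ht htF => hTSC'.root t ht (hTS.root t ht htF)⟩
  have hPF : PM v (tH p v₀ ι x₀ (clI v₀ W₀)) G M ≤ PM v (tH p v₀ ι x₀ F) G M :=
    TWS.PM.mono (tH_mono (hWC.trans hCF))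
  have hPC : PM v (tH p v₀ ι x₀ (clI v₀ W₀)) G M ≤ PM v (tH p v₀ ι x₀ C) G M :=
    TWS.PM.mono (tH_mono hWC)
  have h1 := lim_smul (r' := c) (hPC hd) hl (by rw [sub_add_cancel])
  rw [mul_sub, mul_div_cancel₀ _ hd0] at h1
  obtain ⟨φ₁, hφ₁, h2⟩ := hgx.lim_down (p := p) hJ.cw hiC hcC hiF hcF hiK hcK hCFH hFKH
    (mem_tH hb) (mul_mem (hPF hd) hφ) h1
  obtain ⟨φ', hφ', h3⟩ := hφ₁
  have h3' : ι φ' = φ₁ := h3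
  rw [← h3', ← map_sub] at h2
  have h4 : Lim v₀ (tam p v₀ x₀ C) c (b - φ') := (lim_iff' hJ.iso).1 h2
  obtain ⟨h5, h6⟩ := TamS.lim_sub hTB hTS hTSC hb hφ' h4
  exact ⟨_, h5, h6⟩

end Pool.Agent.TWRB
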