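import Pool.Agent.Lib.TWRB.Gauge
import Pool.Agent.Lib.TWLG64.TrL

/-!
# RowB: the plane lemma for an arbitrary right translation

The relations modulo the valuation ring at `L = (s + x, c + Ψ(s))`, `Ψ` arbitrary, in the coordinates of
`exists_truncL`.
-/

set_option autoImplicit false

open MvPolynomial

namespace Pool.Agent.TWRB

open Pool.Agent.H15JM (RVal)
open Pool.Agent.D2 (Ctx0)
open Pool.Agent.TWM
open Pool.Agent.TWLY
open Pool.Agent.TWLG64 (Fil wt_zero LL mp coeff_mp Siz DnsL FilO tpp coeff_tpp gt_topL plane_one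
  exists_truncL)
open Pool.Agent.TWLG76 (Sh Tr ge_sub_Tr)

universe u

variable {k Ω : Type u} [Field k] [Field Ω] [Algebra k Ω] {v : RVal Ω}

/-- The change of coordinates and the right translation. -/
theorem shU_Lp (x : Ω) (Ψ s q Φ : Polynomial Ω)
    (h : s + Ψ = Φ + q.comp (Polynomial.X + Polynomial.C x)) (F : MvPolynomial (Fin 2) Ω) :
    shU s (aeval (Lp x Ψ) F) = aeval (Lp x Φ) (shU q F) := by
  have h1 : (shU s).comp (aeval (Lp x Ψ)) = (aeval (Lp x Φ)).comp (shU q) := by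
    refine algHom_ext fun i => ?_
    fin_cases i
    · simp only [AlgHom.comp_apply, Fin.zero_eta, shU_X0, aeval_X]
      change shU s (X 0 + C x) = X 0 + C x
      rw [map_add, shU_X0, ← algebraMap_eq, AlgHom.commutes]
    · simp only [AlgHom.comp_apply, Fin.mk_one, shU_X1, aeval_X, map_add, aeval_Lp_aeval]
      change shU s (X 1 + Polynomial.aeval (X 0) Ψ) =
        X 1 + Polynomial.aeval (X 0) Φ + _
      rw [map_add, shU_X1, shU_aeval, add_assoc, add_assoc, ← map_add, ← map_add, h]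
  exact DFunLike.congr_fun h1 F

/-- The coordinates `f`, with the part `δ` of `Ψ` dropped. -/
theorem shU_Sh (x : Ω) (Ψ δ : Polynomial Ω) (f : Polynomial k) (F : MvPolynomial (Fin 2) Ω) :
    shU (f.map (algebraMap k Ω) - δ) (aeval (Lp x Ψ) F) =
      aeval (Lp x (Sh x f Ψ - δ)) (shU (f.map (algebraMap k Ω)) F) := by
  refine shU_Lp x Ψ _ _ _ ?_ F
  unfold Sh
  ring

theorem shU_mp (f : Polynomial k) (F : MvPolynomial (Fin 2) k) :
    shU (f.map (algebraMap k Ω)) (mp Ω F) = mp Ω (shU f F) := by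
  have h1 : (shU (f.map (algebraMap k Ω)) :
      MvPolynomial (Fin 2) Ω →+* MvPolynomial (Fin 2) Ω).comp (mp Ω) =
      (mp Ω).comp (shU f : MvPolynomial (Fin 2) k →+* MvPolynomial (Fin 2) k) := by
    refine MvPolynomial.ringHom_ext (fun a => ?_) fun i => ?_
    · simp [mp, shU]
    · have h2 : Polynomial.aeval (X 0 : MvPolynomial (Fin 2) Ω) (f.map (algebraMap k Ω)) =
          mp Ω (Polynomial.aeval (X 0 : MvPolynomial (Fin 2) k) f) := by
        rw [Polynomial.aeval_def, Polynomial.aeval_def, Polynomial.hom_eval₂,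
          Polynomial.eval₂_map]
        congr 1
        · ext a
          simp [mp]
        · simp [mp]
      fin_cases i
      · simp [mp]
      · simp only [RingHom.comp_apply, RingHom.coe_coe, Fin.mk_one]
        rw [shU_X1, map_add, ← h2]
        simp [mp]
  exact DFunLike.congr_fun h1 F

theorem aeval_Lp_mp (x : Ω) (Φ : Polynomial Ω) (F : MvPolynomial (Fin 2) k) :
    aeval (Lp x Φ) (mp Ω F) = LL k ![x, 0] Φ F := by
  have h1 : (aeval (Lp x Φ) : MvPolynomial (Fin 2) Ω →ₐ[Ω] _).toRingHom.comp (mp Ω) =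
      (LL k ![x, 0] Φ).toRingHom := by
    refine MvPolynomial.ringHom_ext (fun a => ?_) fun i => ?_
    · simp [mp, LL]
    · fin_cases i
      · simp [mp, LL, Lp]
      · simp [mp, LL, Lp]
  exact DFunLike.congr_fun h1 F

/-- Integral shifts preserve the lattice. -/
theorem ge_shU (hk : Ctx0 k v) {s : Polynomial Ω} (hs : ∀ j, v.Ge 0 (s.coeff j))
    {F : MvPolynomial (Fin 2) Ω} {a : ℝ} (hF : ∀ β, v.Ge a (coeff β F)) (β : Ex) :
    v.Ge a (coeff β (shU s F)) := by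
  obtain ⟨N, hN⟩ := exists_deg F
  have h1 := ge_sbU hk (δ := s) (a := -a) (b := 0) le_rfl (by simpa using hs)
    (F := F) (by simpa using hF) hN β
  rw [sbU_eq] at h1
  simpa using h1

/-- Noise polynomials have small weight. -/
theorem noise_wt (hk : Ctx0 k v) {w : Fin 2 → ℝ} {y : Fin 2 → Ω} {Φ : Polynomial Ω}
    (hS : Siz v w y Φ) (hD : DnsL k v w y Φ) {e₀ : ℝ} (he0 : 0 ≤ e₀)
    {N : MvPolynomial (Fin 2) k} (hN : FilO v w 0 e₀ (LL k y Φ N)) :
    ∀ m ∈ N.support, wt w m ≤ e₀ := by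
  classical
  intro m hm
  by_contra hcon
  push Not at hcon
  obtain ⟨m₀, hm₀, hmax⟩ := N.support.exists_max_image (wt w) ⟨m, hm⟩
  set e := wt w m₀ with he
  have he₀ : e₀ < e := lt_of_lt_of_le hcon (hmax m hm)
  have h2 : tpp w e N = 0 := by
    refine hD e (lt_of_le_of_lt he0 he₀) _ ?_ fun β hβ => gt_topL hk hS hmax ?_
    · intro m' hm'
      rw [mem_support_iff, coeff_tpp] at hm'
      by_contra h3
      exact hm' (if_neg h3)
    · refine Gt.of_ge (hN β) (lt_min ?_ ?_)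
      · linarith
      · linarith
  have h3 : coeff m₀ (tpp w e N) = coeff m₀ N := by
    rw [coeff_tpp, if_pos rfl]
  rw [h2, coeff_zero] at h3
  exact (mem_support_iff.mp hm₀) h3.symm

variable {p : ℕ} [Fact p.Prime] [CharP k p] {κ : ℕ → k} {t : ℕ}

/-- **The plane lemma for an arbitrary right translation.** -/
theorem plane_any (hk : Ctx0 k v) (hκ : κ t ≠ 0) {x : Ω} {Ψ : Polynomial Ω} {w₀ w₁ : ℝ}
    {f : Polynomial k} (hw0 : 0 ≤ w₀) (hw01 : w₀ ≤ w₁) (hw1 : 0 < w₁)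
    (hy : 0 < w₀ → x ≠ 0 ∧ v x = -w₀)
    (hsh : ∀ j : ℕ, v.Ge (min 0 (-(w₁ - j * w₀))) ((Sh x f Ψ).coeff j))
    (hS : Siz v ![w₀, w₁] ![x, 0] (Tr w₀ w₁ (Sh x f Ψ)))
    (hD : DnsL k v ![w₀, w₁] ![x, 0] (Tr w₀ w₁ (Sh x f Ψ)))
    {G N : MvPolynomial (Fin 2) k} {Λ Em Nm : MvPolynomial (Fin 2) Ω}
    (hred : ∀ α : Ex, α ≠ 0 → coeff (p ^ (t + 1) • α) (shU f G) = 0)
    (hKR : ∀ g, v.Ge 0 (coeff g (PP p κ t Λ + aeval (Lp x Ψ) (mp Ω G) + Em)))
    (hE : ∀ e, w₁ ≤ e →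
      FilO v ![w₀, w₁] 0 e (shU (f.map (algebraMap k Ω) -
        (Sh x f Ψ - Tr w₀ w₁ (Sh x f Ψ))) Λ) →
      FilO v ![w₀, w₁] 0 e (shU (f.map (algebraMap k Ω) -
        (Sh x f Ψ - Tr w₀ w₁ (Sh x f Ψ))) Em))
    (hNR : ∀ g, v.Ge 0 (coeff g (aeval (Lp x Ψ) (mp Ω N) + Nm)))
    {c' : ℝ} (hc0 : 0 ≤ c') (hc1 : c' < w₁)
    (hN : ∀ e, c' ≤ e →
      FilO v ![w₀, w₁] 0 e (shU (f.map (algebraMap k Ω) -
        (Sh x f Ψ - Tr w₀ w₁ (Sh x f Ψ))) Λ) →
      FilO v ![w₀, w₁] 0 e (shU (f.map (algebraMap k Ω) -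
        (Sh x f Ψ - Tr w₀ w₁ (Sh x f Ψ))) Nm)) :
    ∀ m ∈ N.support, m 1 = 0 := by
  classical
  have hp : 1 < p := Nat.Prime.one_lt Fact.out
  set Φ := Tr w₀ w₁ (Sh x f Ψ) with hΦ
  set s := f.map (algebraMap k Ω) - (Sh x f Ψ - Φ) with hs
  have hs0 : ∀ j, v.Ge 0 (s.coeff j) := fun j => by
    rw [hs, Polynomial.coeff_sub, Polynomial.coeff_map]
    exact (hk.ge _).sub (ge_sub_Tr hsh j)
  have hL : ∀ F : MvPolynomial (Fin 2) k,
      shU s (aeval (Lp x Ψ) (mp Ω F)) = LL k ![x, 0] Φ (shU f F) := by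
    intro F
    rw [hs, shU_Sh, sub_sub_cancel, shU_mp, aeval_Lp_mp]
  have hKR' : ∀ g, v.Ge 0 (coeff g (PP p κ t (shU s Λ) + LL k ![x, 0] Φ (shU f G) +
      shU s Em)) := by
    intro g
    have h1 := ge_shU hk hs0 hKR g
    have h2 : shU s (PP p κ t Λ) = PP p κ t (shU s Λ) :=
      PP_map (p := p) (κ := κ) (t := t) ((shU s).restrictScalars k) Λ
    rwa [map_add, map_add, hL, h2] at h1
  have hFilO : ∀ {ε e : ℝ} {F : MvPolynomial (Fin 2) Ω}, 0 < ε → FilO v ![w₀, w₁] 0 e F →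
      FilO v ![w₀, w₁] ε e F := fun hε h => h.mono hε.le le_rfl
  obtain ⟨hΛ, -⟩ := plane_one (p := p) (κ := κ) (t := t) hk hκ (w := ![w₀, w₁])
    (y := ![x, 0]) (Φ := Φ) hw0 hw01 hw1 hS hy hD hred (Λ := shU s Λ) (ome := w₁) hw1.le le_rfl
    (fun ε hε => ⟨shU s Em, fun β => (hKR' β).mono (by linarith),
      fun e he h => hFilO hε (hE e he h)⟩)
  have hΛ' : FilO v ![w₀, w₁] 0 (max (w₁ / p) c') (shU s Λ) :=
    hΛ.mono le_rfl (le_max_left _ _)
  have hNm := hN _ (le_max_right _ _) hΛ'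
  have hLN : FilO v ![w₀, w₁] 0 (max (w₁ / p) c') (LL k ![x, 0] Φ (shU f N)) := by
    intro β
    have h1 := ge_shU hk hs0 hNR β
    rw [map_add, hL, coeff_add] at h1
    have h2 := (h1.mono (min_le_left 0 (wt ![w₀, w₁] β - max (w₁ / p) c'))).sub
      (by simpa only [neg_zero] using hNm β)
    rw [add_sub_cancel_right] at h2
    simpa only [neg_zero] using h2
  have hwt := noise_wt hk hS hD (hc0.trans (le_max_right _ _)) hLN
  have hlt : max (w₁ / p) c' < w₁ := max_lt (div_lt_self hw1 (by exact_mod_cast hp)) hc1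
  have hN1 : ∀ m, coeff m (shU f N) ≠ 0 → m 1 ≤ 0 := by
    intro m hm
    by_contra hne
    have h1 : (1 : ℝ) ≤ m 1 := by exact_mod_cast (by omega : 1 ≤ m 1)
    have h2 := hwt m (mem_support_iff.mpr hm)
    have h3 : wt ![w₀, w₁] m = m 0 * w₀ + m 1 * w₁ := rfl
    have h4 : 0 ≤ (m 0 : ℝ) * w₀ := by positivity
    rw [h3] at h2
    nlinarith
  have hw3 : ∀ m : Ex, wt ![0, 1] m = m 1 := fun m => by simp [wt]
  intro m hm
  have h1 : WB ![0, 1] (0 : ℝ) (shU f N) := fun m hm => by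
    rw [hw3]
    exact_mod_cast hN1 m hm
  have h2 := h1.shU (fr := -f) (fun i _ => by simp)
  rw [shU_neg_shU] at h2
  have h3 := h2 m (mem_support_iff.mp hm)
  rw [hw3] at h3
  have h4 : m 1 ≤ 0 := by exact_mod_cast h3
  omega

end Pool.Agent.TWRB
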