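import Pool.Agent.Lib.TWRB.R9

/-!
# RowB, R10: the shape for `w 1 - c(w 0)`

* `ShU.subP`: the shape of `w 1 - c(w 0)`, `c` over `W`, is `U - (c(w 0 + X) - c(w 0))`;
* `ShU.exists_frm`: the frame from a shape; the coefficients in `O_0` are dropped;
* `ShU.frm_subP`: both.
-/

set_option autoImplicit false

open Polynomial Finset

namespace Pool.Agent.TWRB

open Pool.Agent.H15JM (RVal)
open Pool.Agent.D2 (Ctx0)
open Pool.Agent.TWM
open Pool.Agent.TWS (IsoE SphC)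

universe u

variable {k Ω : Type u} [Field k] [Field Ω] [Algebra k Ω] {v : RVal Ω}
  {W B : IntermediateField k Ω} {w : Fin 2 → Ω} {U : Polynomial Ω}

/-- `c(w 0 + X) - c(w 0)`. -/
theorem eval_dtay (c : Polynomial Ω) (y s : Ω) :
    (taylor y c - Polynomial.C (c.eval y)).eval s = c.eval (y + s) - c.eval y := by
  rw [eval_sub, eval_C, taylor_eval, add_comm]

/-- **The shape of `w 1 - c(w 0)`.** -/
theorem ShU.subP (h : ShU v W w U) {c : Polynomial Ω} (hc : c ∈ PI W) :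
    ShU v W ![w 0, w 1 - c.eval (w 0)]
      (U - (taylor (w 0) c - Polynomial.C (c.eval (w 0)))) := by
  obtain ⟨h1, h2, h3⟩ := h
  have hcm : ∀ j, (taylor (w 0) c - Polynomial.C (c.eval (w 0))).coeff j ∈ cadj v W (w 0) := by
    intro j
    rw [coeff_sub, taylor_coeff, coeff_C]
    refine sub_mem (TWLM.eval_mem_cadj (TWM.hasse_mem_PI hc j)) ?_
    split_ifs
    · exact TWLM.eval_mem_cadj hc
    · exact zero_mem _
  refine ⟨?_, fun j ε hε => ?_, fun ε hε => ?_⟩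
  · rw [coeff_sub, h1, coeff_sub, taylor_coeff_zero, coeff_C_zero, sub_self, sub_zero]
  · obtain ⟨f, hf, h6⟩ := h2 j ε hε
    refine ⟨f - (taylor (w 0) c - Polynomial.C (c.eval (w 0))).coeff j,
      sub_mem hf (hcm j), ?_⟩
    rw [coeff_sub, sub_sub_sub_cancel_right]
    exact h6
  · obtain ⟨η, hη, h6⟩ := h3 ε hε
    refine ⟨η, hη, fun q hq h7 s => ?_⟩
    have e0 : (![w 0, w 1 - c.eval (w 0)] : Fin 2 → Ω) 0 = w 0 := rfl
    have e1 : (![w 0, w 1 - c.eval (w 0)] : Fin 2 → Ω) 1 = w 1 - c.eval (w 0) := rfl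
    rw [e0, e1] at h7
    rw [e0, eval_sub, eval_dtay]
    have h8 := h6 (q + c) (add_mem hq hc) (by
      rw [eval_add, ← sub_sub, sub_right_comm]
      exact h7) s
    rw [eval_add, eval_add] at h8
    have e2 : q.eval (w 0 + algebraMap k Ω s) - q.eval (w 0) -
        (U.eval (algebraMap k Ω s) - (c.eval (w 0 + algebraMap k Ω s) - c.eval (w 0))) =
        q.eval (w 0 + algebraMap k Ω s) + c.eval (w 0 + algebraMap k Ω s) -
          (q.eval (w 0) + c.eval (w 0)) - U.eval (algebraMap k Ω s) := by ring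
    rw [e2]
    exact h8

/-- **The frame from a shape**, the coefficients in `O_0` are dropped. -/
theorem ShU.exists_frm [IsAlgClosed Ω] (h0 : Ctx0 k v) (hs : SphC v)
    (hval : ∀ ρ : ℝ, ∃ x : Ω, x ≠ 0 ∧ v x = ρ) (hw : TL v W (w 0) 0) (hB : B = cadj v W (w 0))
    (hu : TL v B (w 1) 0) (h : ShU v W w U) :
    ∃ (T : (Fin 2 → k) → Ω →ₐ[k] Ω) (U' : Polynomial Ω), Frm v W B w T U' ∧
      (∀ j, v.Ge 0 (U'.coeff j - U.coeff j)) ∧ ∀ j, v.Ge 0 (U.coeff j) → U'.coeff j = 0 := by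
  obtain ⟨U', h1, h2, h3, h4⟩ := h.normal h0
  obtain ⟨T, hT⟩ := h1.frm h0 hs hval hw hB hu h2 (by rwa [hB])
  refine ⟨T, U', hT, h4, fun j hj => h2 j ?_⟩
  have e : U'.coeff j = (U'.coeff j - U.coeff j) + U.coeff j := by ring
  rw [e]
  exact (h4 j).add hj

/-- **The frame for `w 1 - c(w 0)`.** -/
theorem ShU.frm_subP [IsAlgClosed Ω] (h0 : Ctx0 k v) (hs : SphC v)
    (hval : ∀ ρ : ℝ, ∃ x : Ω, x ≠ 0 ∧ v x = ρ) (hw : TL v W (w 0) 0) (hB : B = cadj v W (w 0))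
    (hu : TL v B (w 1) 0) (h : ShU v W w U) {c : Polynomial Ω} (hc : c ∈ PI W) :
    ∃ (T : (Fin 2 → k) → Ω →ₐ[k] Ω) (U' : Polynomial Ω),
      Frm v W B ![w 0, w 1 - c.eval (w 0)] T U' ∧
      ∀ j, v.Ge 0 ((U - (taylor (w 0) c - Polynomial.C (c.eval (w 0)))).coeff j) →
        U'.coeff j = 0 := by
  have hu' : TL v B (w 1 - c.eval (w 0)) 0 :=
    hu.sub_mem (by rw [hB]; exact TWLM.eval_mem_cadj hc)
  obtain ⟨T, U', h1, -, h2⟩ := (h.subP hc).exists_frm (w := ![w 0, w 1 - c.eval (w 0)]) (B := B) h0 hs hval hw hB hu'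
  exact ⟨T, U', h1, h2⟩

end Pool.Agent.TWRB
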