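import Pool.Agent.Lib.TWRB.Core
import Pool.Agent.Lib.TWCY.Base
import Pool.Agent.Lib.TWCY.BX
import Pool.Agent.Lib.TWCT.Alt2
import Pool.Agent.Lib.TWRR.J0

/-!
# RowB, R10: the coordinate `x` of the base in a field of the chain

* `BaseD.near`: `BaseD` passes to every `x' ∈ W` with `|x - x'| < 0`;
* `exists_near_lev`, `exists_near_poly`: approximation in the fields of the chain, of elements and of
  polynomials with coefficients in `W`;
* `HB.exists_x`: `x' ∈ L J` near `x`, with its derivation.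
-/

set_option autoImplicit false

open MvPolynomial

namespace Pool.Agent.TWRB

open Pool.Agent.H15JM (RVal)
open Pool.Agent.LU1 (VPos)
open Pool.Agent.D2 (Ctx0)
open Pool.Agent.D2P (clI mem_clI)
open Pool.Agent.TWM
open Pool.Agent.TWS (IsoE SphC)
open Pool.Agent.TWII (PG LP)
open Pool.Agent.TWCY

universe u

variable {k Ω : Type u} [Field k] [Field Ω] [Algebra k Ω] {v : RVal Ω}

section base

variable {p : ℕ} [hp : Fact p.Prime] [CharP k p] [CharP Ω p] [IsAlgClosed k] [IsAlgClosed Ω]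
  {W : IntermediateField k Ω} {x x' : Ω} {D : Ω → Ω}

omit [CharP k p] [IsAlgClosed k] [IsAlgClosed Ω] in
/-- The coordinate is not null. -/
theorem BaseD.not_gt (hx : x ∈ W) (h : BaseD p v W x D) (g : Ω) (hg : g ∈ W) :
    ¬ Gt v 0 (x - g ^ p) := by
  intro h1
  obtain ⟨μ, hμ, h2⟩ := TWLM.exists_ge_of_gt h1
  have h3 := h.drv.norm _ (sub_mem hx (pow_mem hg p)) _ h2
  rw [TWRR.drv_sub h.drv hx (pow_mem hg p), TWRR.drv_pow h.drv hg, h.Dx, sub_zero] at h3
  have h4 := h3 one_ne_zero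
  rw [v.map_one] at h4
  linarith

/-- **`BaseD` for the elements near `x`.** -/
theorem BaseD.near (h0 : Ctx0 k v) (hW : Cld v W) (hx : x ∈ W) (h : BaseD p v W x D)
    (hx' : x' ∈ W) (hg : Gt v 0 (x - x')) : BaseD p v W x' (derW p W x') := by
  have hBX : BX p v W x := ⟨hx, h.gen, 1, fun g hgW h1 =>
    BaseD.not_gt hx h g hgW (Gt.of_ge h1 one_pos)⟩
  have hsub : ∀ g : Ω, x - g ^ p = (x - x') + (x' - g ^ p) := fun g => by ring
  have hS : Stp p v W x' := by
    refine ⟨hW, hx', fun f hf => ?_, fun g hgW h1 => ?_, fun ε hε => ?_⟩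
    · obtain ⟨c, hc, h1⟩ := TWCT.pb1_of_pbasis hBX.pbasis hx' (fun g hgW h2 =>
        BaseD.not_gt hx h g hgW (by rw [h2]; exact hg)) f hf
      refine ⟨fun i => c i, fun i => hc _, ?_⟩
      rw [h1, Finset.sum_range]
    · exact BaseD.not_gt hx h g hgW (by rw [hsub]; exact hg.add h1)
    · obtain ⟨g, hgW, h1⟩ := h.lp ε hε
      refine ⟨g, hgW, ?_⟩
      have e : x' - g ^ p = (x - g ^ p) - (x - x') := by ring
      rw [e]
      exact h1.sub (hg.ge.mono (by linarith))
  exact ⟨hS.drv h0, fun f hf => hS.der_mem hf, hS.der_x h0, hS.gen, hS.lp,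
    fun f hf hl => hS.cls h0 hf hl⟩

end base

section near

variable {L : ℕ → IntermediateField k Ω} {W : IntermediateField k Ω}

/-- The elements of `W` are near the fields of the chain. -/
theorem exists_near_lev (hL : Monotone L) (hd : W ≤ clI v (⨆ J, L J)) {y : Ω} (hy : y ∈ W)
    (B : ℝ) : ∃ J : ℕ, ∃ y' ∈ L J, v.Ge B (y - y') := by
  obtain ⟨c, h2, h3⟩ := (mem_clI.1 (hd hy)) B
  have h2' : c ∈ ((⨆ n, L n : IntermediateField k Ω) : Set Ω) := h2
  rw [IntermediateField.coe_iSup_of_directed hL.directed_le, Set.mem_iUnion] at h2'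
  obtain ⟨J₀, h4⟩ := h2'
  exact ⟨J₀, c, h4, h3⟩

/-- The same for finite families. -/
theorem exists_near_fin (hL : Monotone L) (hd : W ≤ clI v (⨆ J, L J)) {ι : Type*} (S : Finset ι)
    {y : ι → Ω} (hy : ∀ i, y i ∈ W) (B : ℝ) :
    ∃ J : ℕ, ∃ y' : ι → Ω, (∀ i, y' i ∈ L J) ∧ (∀ i ∈ S, v.Ge B (y i - y' i)) ∧
      ∀ i, y i = 0 → y' i = 0 := by
  classical
  choose J y' hy' h1 using fun i => exists_near_lev hL hd (hy i) B
  refine ⟨S.sup J, fun i => if i ∈ S ∧ y i ≠ 0 then y' i else 0, fun i => ?_, fun i hi => ?_,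
    fun i hi => ?_⟩
  · dsimp only
    split_ifs with h
    · exact hL (Finset.le_sup h.1) (hy' i)
    · exact zero_mem _
  · dsimp only
    by_cases h0 : y i = 0
    · rw [if_neg (by tauto), h0, sub_zero]
      exact RVal.Ge.zero
    · rw [if_pos ⟨hi, h0⟩]
      exact h1 i
  · dsimp only
    rw [if_neg (by tauto)]

/-- **The same for the coefficients of a polynomial.** -/
theorem exists_near_poly (hL : Monotone L) (hd : W ≤ clI v (⨆ J, L J)) {σ : Type*}
    {P : MvPolynomial σ Ω} (hP : ∀ g, coeff g P ∈ W) (B : ℝ) :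
    ∃ J : ℕ, ∃ P' : MvPolynomial σ Ω, (∀ g, coeff g P' ∈ L J) ∧
      (∀ g, v.Ge B (coeff g P - coeff g P')) ∧ ∀ g, coeff g P = 0 → coeff g P' = 0 := by
  classical
  obtain ⟨J, y', h1, h2, h3⟩ := exists_near_fin hL hd P.support hP B
  have e : ∀ g, coeff g (∑ m ∈ P.support, monomial m (y' m)) = y' g := fun g => by
    rw [coeff_sum]
    simp only [coeff_monomial]
    rw [Finset.sum_ite_eq']
    split_ifs with h
    · rfl
    · exact (h3 g (by rwa [mem_support_iff, not_not] at h)).symm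
  refine ⟨J, ∑ m ∈ P.support, monomial m (y' m), fun g => ?_, fun g => ?_, fun g hg => ?_⟩
  · rw [e]
    exact h1 g
  · rw [e]
    by_cases hg : g ∈ P.support
    · exact h2 g hg
    · have h4 : coeff g P = 0 := by rwa [mem_support_iff, not_not] at hg
      rw [h4, h3 g h4, sub_zero]
      exact RVal.Ge.zero
  · rw [e]
    exact h3 g hg

end near

section HB

variable {p : ℕ} [hp : Fact p.Prime] [CharP k p] [CharP Ω p] [IsAlgClosed k] [IsAlgClosed Ω]
  {L : ℕ → IntermediateField k Ω} {W B F K : IntermediateField k Ω} {w : Fin 2 → Ω}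
  {x z a : Ω} {D : Ω → Ω}

/-- **The coordinate in a field of the chain** (42's C2). -/
theorem HB.exists_x (h : HB p v L W B F K w x z a) (hD : BaseD p v W x D) {ε : ℝ} (hε : 0 < ε) :
    ∃ (x' : Ω) (D' : Ω → Ω) (J : ℕ), x' ∈ W ∧ x' ∈ L J ∧ v.Ge ε (x - x') ∧ Gt v 0 (x - x') ∧
      BaseD p v W x' D' := by
  obtain ⟨J, x', hJ, h1⟩ := exists_near_lev h.mono h.dense h.xW ε
  have h2 : Gt v 0 (x - x') := Gt.of_ge h1 hε
  exact ⟨x', _, J, h.le J hJ, hJ, h1, h2, BaseD.near h.c0 h.cld h.xW hD (h.le J hJ) h2⟩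

end HB

end Pool.Agent.TWRB
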