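import Pool.Agent.Lib.TWRB.C1
import Pool.Agent.Lib.TWRB.X2
import Pool.Agent.Lib.TWRB.ShC
import Pool.Agent.Lib.TWRW.C4
import Pool.Agent.Lib.TWCU.NFg

/-!
# RowB, R10: the normal form

* `rowR10_end`: the last step, for `x' ∈ L J` near `x`;
* `rowR10`: the row.
-/

set_option autoImplicit false

open MvPolynomial

namespace Pool.Agent.TWRB

open Pool.Agent.H15JM (RVal)
open Pool.Agent.LU1 (VPos)
open Pool.Agent.D2 (Ctx0)
open Pool.Agent.D2P (clI mem_clI)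
open Pool.Agent.TWM
open Pool.Agent.TWS (IsoE SphC)
open Pool.Agent.TWII (PG LP)
open Pool.Agent.TWLY
open Pool.Agent.TWCY

universe u

variable {k Ω : Type u} [Field k] [Field Ω] [Algebra k Ω]

variable {p : ℕ} [hp : Fact p.Prime] [CharP k p] [CharP Ω p] [IsAlgClosed k] [IsAlgClosed Ω]
  {v : RVal Ω}

/-- The last step of R10. -/
theorem rowR10_end {L : ℕ → IntermediateField k Ω} {W B F K : IntermediateField k Ω}
    {w : Fin 2 → Ω} {x z a A φ : Ω} {D : Ω → Ω} {U₁ : Polynomial Ω} {e : k} {κ : ℕ → k} {t : ℕ}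
    {l : Fin 2 → k} {P : MvPolynomial (Fin 2) Ω} (h : HB p v L W B F K w x z a)
    (hD : BaseD p v W x D) (hA : A ∈ B) (hφ : φ ∈ F) (hU : ShU v W ![w 0, w 1 - A] U₁)
    (hκ : κ t ≠ 0) (hP : ∀ g, coeff g P ∈ W)
    (hPl : ∀ g, ¬ DvE p g → coeff g P = coeff g (lin l)) (hcas : e = 0 ∨ l = 0)
    (hUp : l 1 ≠ 0 → ∀ j, ¬ p ∣ j → v.Ge 0 (U₁.coeff j))
    (hrel : PG p v K 0 (a - (algebraMap k Ω e * (z - φ) + x * PP p κ t (z - φ) +
      eval ![w 0, w 1 - A] P)))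
    (htie : TiP p v W ![w 0, w 1 - A] x (z - φ) e κ t P) :
    ∃ A ∈ B, ∃ φ ∈ F, ∃ (T : (Fin 2 → k) → Ω →ₐ[k] Ω) (U : Polynomial Ω) (x' : Ω) (D' : Ω → Ω)
      (e : k) (κ : ℕ → k) (t : ℕ) (l : Fin 2 → k) (Pa : MvPolynomial (Fin 2) Ω), x' ∈ W ∧
      Gt v 0 (x - x') ∧ BaseD p v W x' D' ∧ HB p v L W B F K ![w 0, w 1 - A] x' (z - φ) a ∧
      Frm v W B ![w 0, w 1 - A] T U ∧
      NFB p v L W K ![w 0, w 1 - A] x' (z - φ) a U e κ t l Pa := by
  obtain ⟨U, hU1, hU2, hU3, hU4⟩ := hU.normal h.c0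
  have hUp' : l 1 ≠ 0 → ∀ j, ¬ p ∣ j → U.coeff j = 0 := fun hl j hj => hU2 j (by
    have e1 : U.coeff j = (U.coeff j - U₁.coeff j) + U₁.coeff j := by ring
    rw [e1]
    exact (hU4 j).add (hUp hl j hj))
  obtain ⟨r₀, hr⟩ := TWRW.exists_nfb (w := ![w 0, w 1 - A]) (K := K) (z := z - φ) (a := a) (U := U)
    h.c0 h.mono h.le h.dense hκ hP hPl hcas hUp' hrel htie
  obtain ⟨x', D', J, hx1, hx2, hx3, hx4, hx5⟩ :=
    h.exists_x hD (ε := max r₀ 1) (lt_of_lt_of_le one_pos (le_max_right _ _))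
  obtain ⟨P', hP'⟩ := hr x' ⟨J, hx2⟩ (hx3.mono (le_max_left _ _))
  have hH := h.shift (x' := x') hA hφ hx1
  obtain ⟨T, hT⟩ := hU1.frm h.c0 h.sph h.hval hH.tw hH.B_eq hH.tu hU2 (by
    intro j b hb hj
    rw [hH.B_eq] at hb ⊢
    exact hU3 j b hb hj)
  exact ⟨A, hA, φ, hφ, T, U, x', D', e, κ, t, l, P', hx1, hx4, hx5, hH, hT, hP'⟩

/-- **R10.** -/
theorem rowR10 : RowR10 (k := k) p v := by
  intro L W B F K w x z a D U₀ e₀ κ₀ t₀ a₀ h hD hU ht
  have hB := h.B_eq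
  have hF := h.F_eq
  rw [hB] at hF
  have hK := h.K_eq
  by_cases he : e₀ = 0
  · subst he
    obtain ⟨T, hT1, hT2, hT3, hT4⟩ := hU.exists_T h.c0 h.sph h.hval h.tw (by rw [← hB]; exact h.tu)
    obtain ⟨c, l, P, hc, -, hP, hPl, ha₀, hUp⟩ := TWCU.nf0 (z := z) (κ := κ₀) (t := t₀) h.c0
      ⟨hT1, hT2, hT3, hT4, hU.1, hU.2.1⟩ h.tw (by rw [← hB]; exact h.tu) h.xW
      (by rw [← hF]; exact ht.aF) (fun ε hε => by
        obtain ⟨θ, hθ, h1, g, hg, h2⟩ := ht.tie ε hε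
        rw [hF] at hθ hg
        rw [map_zero, zero_mul, zero_add] at h2
        exact ⟨θ, hθ, h1, g, hg, h2⟩)
    have hA : c.eval (w 0) ∈ B := by
      rw [hB, Polynomial.eval_eq_sum_range]
      exact sum_mem fun i _ => mul_mem (le_cadj v W _ (hc i)) (pow_mem (self_mem_cadj v W _) _)
    have hU' := hU.subP hc
    have hH := h.shift (x' := x) hA (zero_mem F) h.xW
    have hF' : F = cadj v (cadj v W (![w 0, w 1 - c.eval (w 0)] 0))
        (![w 0, w 1 - c.eval (w 0)] 1) := by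
      rw [← hH.B_eq]
      exact hH.F_eq
    refine rowR10_end h hD hA (zero_mem F) hU' ht.kap hP hPl (Or.inl rfl) hUp ?_ ?_
    · rw [sub_zero]
      have e1 : a - (algebraMap k Ω 0 * z + x * PP p κ₀ t₀ z +
          eval ![w 0, w 1 - c.eval (w 0)] P) =
          (a - (algebraMap k Ω 0 * z + x * PP p κ₀ t₀ z + a₀)) +
            (a₀ - eval ![w 0, w 1 - c.eval (w 0)] P) := by ring
      rw [e1]
      exact ht.rel.add (PG.of_gt ha₀)
    · rw [sub_zero]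
      refine TWRW.tiP_of_zero (a₀ := a₀) h.c0 hH.tw (by rw [← hH.B_eq]; exact hH.tu) ?_ ?_
      · exact Gt.ge ha₀
      · intro ε hε
        rw [← hF']
        exact ht.tie ε hε
  · obtain ⟨φ, hφ, P, hP, hPl, h1, h2⟩ := TWRW.tiP_of_ne (a := a) h.c0 he h.tw
      (by rw [← hB]; exact h.tu) h.xW hD.lp (by rw [← hF]; exact ht.aF)
      (by rw [← hF]; exact ht.tie) (by rw [← hF, ← hK]; exact ht.rel)
    have ew : (![w 0, w 1 - 0] : Fin 2 → Ω) = w := by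
      funext i
      fin_cases i
      · rfl
      · exact sub_zero _
    rw [← hF] at hφ
    rw [← hF, ← hK] at h2
    refine rowR10_end (A := 0) h hD (zero_mem B) hφ (by rw [ew]; exact hU) ht.kap hP hPl
      (Or.inr rfl) (fun h3 => absurd rfl h3) (by rw [ew]; exact h2) (by rw [ew]; exact h1)

end Pool.Agent.TWRB
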