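import Pool.Agent.Lib.TWRB.Sub

/-!
# RowB, R11: smallness

`Φ` is an isometric endomorphism, the identity on `L J`, `J` large; `W` is the closure of the union of
the `L J`, `T c` (`c ∈ k²`) are isometric, the identity on `W`.

* `small_fix`, `small_fin`: `Φ y - y` is as small as we please, `y ∈ W`;
* `small_lim`: the displacement of a limit `w` of `W` is small;
* `small_gen`: the coefficients of `ζ = Y_a + (Φ Z) - Z(L)` are small, general form: `y` is a limit of
  the values of polynomials over `W` at `P`, `T c P = P + M(c)`, `L` the right translate;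
* `small_psi`: the coefficients of `Ψ = Y + (Φ U)(X) - U(X + C X₀)` are small;
* `small_zet`: the coefficients of `ζ` are small, for `z` over the plane.
-/

set_option autoImplicit false

open MvPolynomial

namespace Pool.Agent.TWRB

open Pool.Agent.H15JM (RVal)
open Pool.Agent.D2 (Ctx0)
open Pool.Agent.D2P (clI mem_clI)
open Pool.Agent.TWM
open Pool.Agent.TWS (IsoE SphC)
open Pool.Agent.TWLY
open Pool.Agent.TWCY
open Pool.Agent.TWCU

universe u

variable {k Ω : Type u} [Field k] [Field Ω] [Algebra k Ω] {v : RVal Ω}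
  {Lq : ℕ → IntermediateField k Ω} {A W C₀ F : IntermediateField k Ω} {Φ : Ω →ₐ[k] Ω}

/-! ### Coefficients of value at least `r` -/

/-- The coefficients are of value `≥ r`. -/
def Cge (v : RVal Ω) (r : ℝ) (q : MvPolynomial (Fin 2) Ω) : Prop := ∀ g, v.Ge r (coeff g q)

theorem Cge.mono {r s : ℝ} {q : MvPolynomial (Fin 2) Ω} (h : Cge v r q) (hs : s ≤ r) : Cge v s q :=
  fun g => (h g).mono hs

theorem Cge.add {r : ℝ} {q q' : MvPolynomial (Fin 2) Ω} (h : Cge v r q) (h' : Cge v r q') :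
    Cge v r (q + q') := fun g => by
  rw [coeff_add]
  exact (h g).add (h' g)

theorem Cge.sub {r : ℝ} {q q' : MvPolynomial (Fin 2) Ω} (h : Cge v r q) (h' : Cge v r q') :
    Cge v r (q - q') := fun g => by
  rw [coeff_sub]
  exact (h g).sub (h' g)

theorem Cge.sum {r : ℝ} {κ : Type*} {S : Finset κ} {q : κ → MvPolynomial (Fin 2) Ω}
    (h : ∀ i ∈ S, Cge v r (q i)) : Cge v r (∑ i ∈ S, q i) := fun g => by
  rw [coeff_sum]
  exact RVal.Ge.sum _ _ fun i hi => h i hi g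

theorem Cge.mul {r r' : ℝ} {q q' : MvPolynomial (Fin 2) Ω} (h : Cge v r q) (h' : Cge v r' q') :
    Cge v (r + r') (q * q') := fun g => by
  classical
  rw [coeff_mul]
  exact RVal.Ge.sum _ _ fun x _ => (h x.1).mul (h' x.2)

theorem Cge.C {r : ℝ} {a : Ω} (h : v.Ge r a) : Cge v r (MvPolynomial.C a) := fun g => by
  classical
  rw [coeff_C]
  split_ifs
  · exact h
  · exact RVal.Ge.zero

theorem Cge.one : Cge v 0 (1 : MvPolynomial (Fin 2) Ω) := by
  have h : Cge v 0 (MvPolynomial.C (1 : Ω)) := Cge.C fun _ => by rw [v.map_one]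
  rwa [C_1] at h

theorem Cge.X (i : Fin 2) : Cge v 0 (MvPolynomial.X i : MvPolynomial (Fin 2) Ω) := fun g => by
  classical
  rw [coeff_X]
  split_ifs
  · intro _
    rw [v.map_one]
  · exact RVal.Ge.zero

theorem Cge.pow {r : ℝ} {q : MvPolynomial (Fin 2) Ω} (h : Cge v r q) (n : ℕ) :
    Cge v (n * r) (q ^ n) := by
  induction n with
  | zero =>
    rw [pow_zero, Nat.cast_zero, zero_mul]
    exact Cge.one
  | succ n ih =>
    rw [pow_succ]
    refine (ih.mul h).mono ?_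
    push_cast
    linarith

/-- Substitution. -/
theorem Cge.aeval {r m : ℝ} {q : MvPolynomial (Fin 2) Ω} (h : Cge v r q) {D : ℕ}
    (hD : ∀ g ∈ q.support, g 0 + g 1 ≤ D) (hm : 0 ≤ m) {Q : Fin 2 → MvPolynomial (Fin 2) Ω}
    (hQ : ∀ i, Cge v (-m) (Q i)) : Cge v (r - D * m) (MvPolynomial.aeval Q q) := by
  have e : MvPolynomial.aeval Q q = ∑ g ∈ q.support,
      MvPolynomial.C (coeff g q) * (Q 0 ^ g 0 * Q 1 ^ g 1) := by
    rw [aeval_def, eval₂_eq']
    refine Finset.sum_congr rfl fun g _ => ?_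
    rw [Fin.prod_univ_two, algebraMap_eq]
  rw [e]
  refine Cge.sum fun g hg => ?_
  refine ((Cge.C (h g)).mul (((hQ 0).pow (g 0)).mul ((hQ 1).pow (g 1)))).mono ?_
  have h1 : ((g 0 : ℝ) + g 1) ≤ D := by exact_mod_cast hD g hg
  nlinarith

theorem exists_tdeg (q : MvPolynomial (Fin 2) Ω) : ∃ D : ℕ, ∀ g ∈ q.support, g 0 + g 1 ≤ D :=
  ⟨q.support.sup fun g => g 0 + g 1, fun _ hg => Finset.le_sup (f := fun g : Ex => g 0 + g 1) hg⟩

theorem exists_cbound (q : MvPolynomial (Fin 2) Ω) : ∃ m : ℝ, 0 ≤ m ∧ Cge v (-m) q := by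
  classical
  obtain ⟨m, hm, h1⟩ : ∃ m : ℝ, 0 ≤ m ∧ ∀ g ∈ q.support, v.Ge (-m) (coeff g q) := by
    induction q.support using Finset.induction_on with
    | empty => exact ⟨0, le_rfl, fun g hg => absurd hg (Finset.notMem_empty g)⟩
    | insert a S _ ih =>
      obtain ⟨m, hm, h1⟩ := ih
      refine ⟨max m (-v (coeff a q)), le_max_of_le_left hm, fun g hg => ?_⟩
      rcases Finset.mem_insert.1 hg with rfl | hg
      · intro _
        have := le_max_right m (-v (coeff g q))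
        linarith
      · exact (h1 g hg).mono (neg_le_neg (le_max_left _ _))
  refine ⟨m, hm, fun g => ?_⟩
  by_cases hg : g ∈ q.support
  · exact h1 g hg
  · rw [notMem_support_iff.1 hg]
    exact RVal.Ge.zero

theorem Cge.map {r : ℝ} {q : MvPolynomial (Fin 2) Ω} (h : Cge v r q) (hΦ : IsoE v v Φ) :
    Cge v r (MvPolynomial.map (Φ : Ω →+* Ω) q) := fun g => by
  rw [coeff_map]
  exact hΦ.ge_iff.2 (h g)

/-! ### Small motions -/

/-- **A motion is small at a fixed element.** -/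
theorem small_fix (hL : Monotone Lq) (hd : W ≤ clI v (⨆ J, Lq J)) {y : Ω} (hy : y ∈ W) (B : ℝ) :
    ∃ J₀ : ℕ, ∀ J ≥ J₀, ∀ Φ : Ω →ₐ[k] Ω, IsoE v v Φ → (∀ a ∈ Lq J, Φ a = a) →
      v.Ge B (Φ y - y) := by
  obtain ⟨c, h2, h3⟩ := (mem_clI.1 (hd hy)) B
  have h2' : c ∈ ((⨆ n, Lq n : IntermediateField k Ω) : Set Ω) := h2
  rw [IntermediateField.coe_iSup_of_directed hL.directed_le, Set.mem_iUnion] at h2'
  obtain ⟨J₀, h4⟩ := h2'
  refine ⟨J₀, fun J hJ Φ hΦ hfix => ?_⟩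
  have h5 : v.Ge B (y - c) := h3
  have e : Φ y - y = Φ (y - c) - (y - c) := by
    rw [map_sub, hfix c (hL hJ h4)]
    ring
  rw [e]
  exact (hΦ.ge_iff.2 h5).sub h5

/-- The same for finitely many elements. -/
theorem small_fin (hL : Monotone Lq) (hd : W ≤ clI v (⨆ J, Lq J)) (S : Finset Ω)
    (hS : ∀ y ∈ S, y ∈ W) (B : ℝ) : ∃ J₀ : ℕ, ∀ J ≥ J₀, ∀ Φ : Ω →ₐ[k] Ω, IsoE v v Φ →
      (∀ a ∈ Lq J, Φ a = a) → ∀ y ∈ S, v.Ge B (Φ y - y) := by
  classical
  induction S using Finset.induction_on with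
  | empty => exact ⟨0, fun _ _ _ _ _ y hy => absurd hy (Finset.notMem_empty y)⟩
  | insert a S _ ih =>
    obtain ⟨J₁, h1⟩ := ih fun y hy => hS y (Finset.mem_insert_of_mem hy)
    obtain ⟨J₂, h2⟩ := small_fix hL hd (hS a (Finset.mem_insert_self a S)) B
    refine ⟨max J₁ J₂, fun J hJ Φ hΦ hfix y hy => ?_⟩
    rcases Finset.mem_insert.1 hy with rfl | hy
    · exact h2 J ((le_max_right _ _).trans hJ) Φ hΦ hfix
    · exact h1 J ((le_max_left _ _).trans hJ) Φ hΦ hfix y hy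

/-- The coefficients of a polynomial over `W`. -/
theorem small_poly (hL : Monotone Lq) (hd : W ≤ clI v (⨆ J, Lq J))
    {q : MvPolynomial (Fin 2) Ω} (hq : ∀ g, coeff g q ∈ W) (B : ℝ) :
    ∃ J₀ : ℕ, ∀ J ≥ J₀, ∀ Φ : Ω →ₐ[k] Ω, IsoE v v Φ → (∀ a ∈ Lq J, Φ a = a) →
      Cge v B (MvPolynomial.map (Φ : Ω →+* Ω) q - q) := by
  classical
  obtain ⟨J₀, h1⟩ := small_fin hL hd (q.support.image fun g => coeff g q) (fun y hy => by
    obtain ⟨g, _, rfl⟩ := Finset.mem_image.1 hy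
    exact hq g) B
  refine ⟨J₀, fun J hJ Φ hΦ hfix g => ?_⟩
  rw [coeff_sub, coeff_map]
  by_cases hg : g ∈ q.support
  · exact h1 J hJ Φ hΦ hfix _ (Finset.mem_image.2 ⟨g, hg, rfl⟩)
  · rw [notMem_support_iff.1 hg]
    have : ((Φ : Ω →+* Ω) 0 : Ω) - 0 = 0 := by rw [map_zero, sub_zero]
    rw [this]
    exact RVal.Ge.zero

/-- The displacement of a limit of `W` is small. -/
theorem small_lim (hL : Monotone Lq) (hd : W ≤ clI v (⨆ J, Lq J)) {w : Ω} (hw : Lim v W 0 w)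
    {ε : ℝ} (hε : 0 < ε) : ∃ J₀ : ℕ, ∀ J ≥ J₀, ∀ Φ : Ω →ₐ[k] Ω, IsoE v v Φ →
      (∀ a ∈ Lq J, Φ a = a) → v.Ge (-ε) (Φ w - w) := by
  obtain ⟨c, hc, h1⟩ := hw ε hε
  obtain ⟨J₀, h2⟩ := small_fix hL hd hc (0 : ℝ)
  refine ⟨J₀, fun J hJ Φ hΦ hfix => ?_⟩
  have e : Φ w - w = (Φ (w - c) - (w - c)) + (Φ c - c) := by
    rw [map_sub]
    ring
  rw [e]
  have h4 : v.Ge (-ε) (w - c) := h1.mono (by linarith)
  exact ((hΦ.ge_iff.2 h4).sub h4).add ((h2 J hJ Φ hΦ hfix).mono (by linarith))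

/-! ### The general form -/

section gen

variable {T : (Fin 2 → k) → Ω →ₐ[k] Ω} {P : Fin 2 → Ω} {M : Fin 2 → MvPolynomial (Fin 2) Ω}
  {y : Ω} {Z : MvPolynomial (Fin 2) Ω}

/-- The displacement of the value of a polynomial. -/
noncomputable def dsp (P : Fin 2 → Ω) (M : Fin 2 → MvPolynomial (Fin 2) Ω)
    (θ : MvPolynomial (Fin 2) Ω) : MvPolynomial (Fin 2) Ω :=
  aeval (fun i => C (P i) + M i) θ - C (eval P θ)

/-- A homomorphism at the value of a polynomial. -/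
theorem map_eval_eq' (Φ : Ω →ₐ[k] Ω) (q : MvPolynomial (Fin 2) Ω) (x : Fin 2 → Ω) :
    Φ (eval x q) = eval (fun i => Φ (x i)) (MvPolynomial.map (Φ : Ω →+* Ω) q) := by
  rw [MvPolynomial.eval_map, eval₂_eq', eval_eq', map_sum]
  refine Finset.sum_congr rfl fun g _ => ?_
  rw [map_mul, map_prod]
  congr 1
  exact Finset.prod_congr rfl fun i _ => map_pow _ _ _

theorem map_aeval_eq (Φ : Ω →ₐ[k] Ω) (q : MvPolynomial (Fin 2) Ω)
    (Q : Fin 2 → MvPolynomial (Fin 2) Ω) :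
    MvPolynomial.map (Φ : Ω →+* Ω) (aeval Q q) =
      aeval (fun i => MvPolynomial.map (Φ : Ω →+* Ω) (Q i))
        (MvPolynomial.map (Φ : Ω →+* Ω) q) := by
  induction q using MvPolynomial.induction_on with
  | C a => rw [aeval_C, algebraMap_eq, map_C, aeval_C, algebraMap_eq]
  | add p q hp hq => rw [map_add, map_add, map_add, map_add, hp, hq]
  | mul_X p i hp => rw [map_mul, map_mul, map_mul, map_mul, hp, aeval_X, map_X, aeval_X]

theorem aeval_aeval_eq (q : MvPolynomial (Fin 2) Ω) (Q L : Fin 2 → MvPolynomial (Fin 2) Ω) :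
    aeval L (aeval Q q) = aeval (fun i => aeval L (Q i)) q := by
  induction q using MvPolynomial.induction_on with
  | C a => rw [aeval_C, algebraMap_eq, aeval_C, aeval_C]
  | add p q hp hq => rw [map_add, map_add, map_add, hp, hq]
  | mul_X p i hp => rw [map_mul, map_mul, map_mul, hp, aeval_X, aeval_X]

/-- The translations. -/
theorem eval_dsp (hfix : ∀ c, ∀ a ∈ W, T c a = a)
    (hP : ∀ c i, T c (P i) = P i + eval (pt c) (M i)) {θ : MvPolynomial (Fin 2) Ω}
    (hθ : ∀ g, coeff g θ ∈ W) (c : Fin 2 → k) :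
    eval (pt c) (dsp P M θ) = T c (eval P θ) - eval P θ := by
  have h1 : MvPolynomial.map ((T c : Ω →ₐ[k] Ω) : Ω →+* Ω) θ = θ := by
    ext g
    rw [coeff_map]
    exact hfix c _ (hθ g)
  unfold dsp
  rw [map_sub, eval_C, map_eval_eq', h1, eval_aeval]
  have h2 : (fun i => eval (pt c) (C (P i) + M i)) = fun i => T c (P i) := by
    funext i
    rw [map_add, eval_C, hP]
  rw [h2]

/-- **The exact identity.** -/
theorem zet_dsp (θ : MvPolynomial (Fin 2) Ω) {L : Fin 2 → MvPolynomial (Fin 2) Ω}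
    (hL : ∀ i, aeval L (M i) = C (Φ (P i) - P i) + MvPolynomial.map (Φ : Ω →+* Ω) (M i)) :
    zet Φ L (Φ (eval P θ) - eval P θ) (dsp P M θ) =
      aeval (fun i => MvPolynomial.map (Φ : Ω →+* Ω) (C (P i) + M i))
        (MvPolynomial.map (Φ : Ω →+* Ω) θ - θ) := by
  have e1 : aeval L (dsp P M θ) =
      aeval (fun i => MvPolynomial.map (Φ : Ω →+* Ω) (C (P i) + M i)) θ - C (eval P θ) := by
    unfold dsp
    rw [map_sub, aeval_C, algebraMap_eq, aeval_aeval_eq]
    congr 3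
    funext i
    rw [map_add, aeval_C, algebraMap_eq, hL, map_add, map_C, C_sub]
    show C (P i) + (C (Φ (P i)) - C (P i) + _) = C (Φ (P i)) + _
    ring
  have e2 : MvPolynomial.map (Φ : Ω →+* Ω) (dsp P M θ) =
      aeval (fun i => MvPolynomial.map (Φ : Ω →+* Ω) (C (P i) + M i))
        (MvPolynomial.map (Φ : Ω →+* Ω) θ) - C (Φ (eval P θ)) := by
    unfold dsp
    rw [map_sub, map_C, map_aeval_eq]
    rfl
  unfold zet
  rw [e1, e2, map_sub, map_sub]
  ring

theorem zet_sub (L : Fin 2 → MvPolynomial (Fin 2) Ω) (a b : Ω) (q r : MvPolynomial (Fin 2) Ω) :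
    zet Φ L a q - zet Φ L b r = zet Φ L (a - b) (q - r) := by
  unfold zet
  rw [C_sub, map_sub, map_sub]
  ring

/-- **Smallness, general form.** -/
theorem small_gen [Infinite k] (hk : Ctx0 k v) (hL : Monotone Lq) (hd : W ≤ clI v (⨆ J, Lq J))
    (hiso : ∀ c, IsoE v v (T c)) (hfix : ∀ c, ∀ a ∈ W, T c a = a)
    (hP : ∀ c i, T c (P i) = P i + eval (pt c) (M i))
    (hy : ∀ ε : ℝ, 0 < ε → ∃ θ : MvPolynomial (Fin 2) Ω, (∀ g, coeff g θ ∈ W) ∧
      v.Ge (-ε) (y - eval P θ))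
    (hZ : ∀ c, v.Ge 0 (T c y - y - eval (pt c) Z)) {ε : ℝ} (hε : 0 < ε) :
    ∃ δ : ℝ, 0 < δ ∧ ∃ J₀ : ℕ, ∀ J ≥ J₀, ∀ Φ : Ω →ₐ[k] Ω, IsoE v v Φ → (∀ a ∈ Lq J, Φ a = a) →
      ∀ L : Fin 2 → MvPolynomial (Fin 2) Ω, (∀ i, Cge v (-δ) (L i)) →
      (∀ i, aeval L (M i) = C (Φ (P i) - P i) + MvPolynomial.map (Φ : Ω →+* Ω) (M i)) →
      ∀ Ya : Ω, v.Ge 0 (Φ y - y - Ya) → Cge v (-ε) (zet Φ L Ya Z) := by
  obtain ⟨θ, hθ, h1⟩ := hy (ε / 2) (by linarith)
  -- `R = Z - Z_θ`
  set R := Z - dsp P M θ with hR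
  have hR1 : Cge v (-(ε / 2)) R := by
    intro g
    refine ge_coeff hk (fun c => ?_) g
    have e : eval (pt c) R = (T c (y - eval P θ) - (y - eval P θ)) -
        (T c y - y - eval (pt c) Z) := by
      rw [hR, map_sub, eval_dsp hfix hP hθ, map_sub]
      ring
    rw [e]
    exact (((hiso c).ge_iff.2 h1).sub h1).sub ((hZ c).mono (by linarith))
  obtain ⟨D, hD⟩ := exists_tdeg R
  obtain ⟨D', hD'⟩ := exists_tdeg θ
  obtain ⟨m₀, hm₀, hb0⟩ := exists_cbound (v := v) (C (P 0) + M 0)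
  obtain ⟨m₁, hm₁, hb1⟩ := exists_cbound (v := v) (C (P 1) + M 1)
  set m := max m₀ m₁ with hm
  have hm0 : 0 ≤ m := le_max_of_le_left hm₀
  obtain ⟨J₀, h2⟩ := small_poly hL hd hθ (D' * m)
  refine ⟨ε / (2 * (D + 1)), by positivity, J₀, fun J hJ Φ hΦ hΦL L hLb hLM Ya hYa => ?_⟩
  have h3 := h2 J hJ Φ hΦ hΦL
  -- the exact part
  have h4 : Cge v 0 (zet Φ L (Φ (eval P θ) - eval P θ) (dsp P M θ)) := by
    rw [zet_dsp θ hLM]
    have hdeg : ∀ g ∈ (MvPolynomial.map (Φ : Ω →+* Ω) θ - θ).support, g 0 + g 1 ≤ D' := by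
      intro g hg
      by_contra hcon
      have h5 : g ∉ θ.support := fun h => hcon (hD' g h)
      have h6 : coeff g (MvPolynomial.map (Φ : Ω →+* Ω) θ - θ) = 0 := by
        rw [coeff_sub, coeff_map, notMem_support_iff.1 h5, map_zero, sub_zero]
      exact (mem_support_iff.1 hg) h6
    refine (h3.aeval hdeg hm0 (Q := fun i => MvPolynomial.map (Φ : Ω →+* Ω) (C (P i) + M i))
      fun i => ?_).mono (by linarith)
    refine Cge.map ?_ hΦ
    fin_cases i
    · exact hb0.mono (neg_le_neg (le_max_left _ _))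
    · exact hb1.mono (neg_le_neg (le_max_right _ _))
  -- the error
  have h5 : Cge v (-ε) (zet Φ L (Ya - (Φ (eval P θ) - eval P θ)) R) := by
    unfold zet
    refine (Cge.add ?_ ?_).sub ?_
    · refine Cge.C ?_
      have e : Ya - (Φ (eval P θ) - eval P θ) =
          (Φ (y - eval P θ) - (y - eval P θ)) - (Φ y - y - Ya) := by
        rw [map_sub]
        ring
      rw [e]
      exact (((hΦ.ge_iff.2 h1).sub h1).mono (by linarith)).sub (hYa.mono (by linarith))
    · exact (hR1.map hΦ).mono (by linarith)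
    · refine (hR1.aeval hD (by positivity) hLb).mono ?_
      have h6 : (D : ℝ) * (ε / (2 * (D + 1))) ≤ ε / 2 := by
        rw [← mul_div_assoc, div_le_iff₀ (by positivity)]
        nlinarith
      linarith
  have e : zet Φ L Ya Z = zet Φ L (Φ (eval P θ) - eval P θ) (dsp P M θ) +
      zet Φ L (Ya - (Φ (eval P θ) - eval P θ)) R := by
    rw [hR, ← zet_sub]
    ring
  rw [e]
  exact (h4.mono (by linarith)).add h5

end gen

/-! ### Density -/

/-- A polynomial in one variable, as a polynomial in `X i`. -/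
noncomputable def mv (i : Fin 2) (g : Polynomial Ω) : MvPolynomial (Fin 2) Ω :=
  Polynomial.aeval (X i) g

theorem mv_eq (i : Fin 2) (g : Polynomial Ω) :
    mv i g = ∑ n ∈ Finset.range (g.natDegree + 1), C (g.coeff n) * X i ^ n := by
  unfold mv
  rw [Polynomial.aeval_eq_sum_range]
  refine Finset.sum_congr rfl fun n _ => ?_
  rw [smul_eq_C_mul]

theorem eval_mv (i : Fin 2) (g : Polynomial Ω) (x : Fin 2 → Ω) : eval x (mv i g) = g.eval (x i) := by
  rw [mv_eq, map_sum, Polynomial.eval_eq_sum_range]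
  exact Finset.sum_congr rfl fun n _ => by rw [map_mul, map_pow, eval_C, eval_X]

theorem coeff_mv_single (i : Fin 2) (g : Polynomial Ω) (n : ℕ) :
    coeff (Finsupp.single i n) (mv i g) = g.coeff n := by
  classical
  rw [mv_eq, coeff_sum]
  have h1 : ∀ j ∈ Finset.range (g.natDegree + 1),
      coeff (Finsupp.single i n) (C (g.coeff j) * X i ^ j : MvPolynomial (Fin 2) Ω) =
      if j = n then g.coeff j else 0 := by
    intro j _
    rw [coeff_C_mul, coeff_X_pow]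
    by_cases hj : j = n
    · rw [if_pos hj, hj, if_pos rfl, mul_one]
    · rw [if_neg hj, if_neg, mul_zero]
      intro h
      have := DFunLike.congr_fun h i
      rw [Finsupp.single_eq_same, Finsupp.single_eq_same] at this
      exact hj this
  rw [Finset.sum_congr rfl h1, Finset.sum_ite_eq']
  split_ifs with h
  · rfl
  · rw [Polynomial.coeff_eq_zero_of_natDegree_lt]
    have := Finset.mem_range.not.1 h
    omega

theorem coeff_mv_mem (i : Fin 2) {g : Polynomial Ω} (hg : ∀ n, g.coeff n ∈ W) (e : Ex) :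
    coeff e (mv i g) ∈ W := by
  classical
  rw [mv_eq, coeff_sum]
  refine sum_mem fun n _ => ?_
  rw [coeff_C_mul, coeff_X_pow]
  refine mul_mem (hg n) ?_
  split_ifs
  exacts [one_mem _, zero_mem _]

theorem Cge_mv {r : ℝ} (i : Fin 2) {g : Polynomial Ω} (hg : ∀ n, v.Ge r (g.coeff n)) :
    Cge v r (mv i g) := by
  rw [mv_eq]
  refine Cge.sum fun n _ => ?_
  have h := (Cge.C (hg n)).mul ((Cge.X (v := v) i).pow n)
  refine h.mono ?_
  rw [mul_zero, add_zero]

/-- The polynomials over `W` in `w` are dense in `C₀`. -/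
theorem dens1 [IsAlgClosed Ω] {w : Ω} (hw : TL v W w 0) (hC : C₀ = cadj v W w) {y : Ω} (hy : y ∈ C₀) (r : ℝ) :
    ∃ g : Polynomial Ω, (∀ n, g.coeff n ∈ W) ∧ v.Ge r (y - g.eval w) := by
  rw [hC] at hy
  obtain ⟨g, hg, h1⟩ := hw.dense hy r
  exact ⟨g, hg, h1⟩

/-- The polynomials over `W` in `w, u` are dense in `F`. -/
theorem dens2 [IsAlgClosed Ω] {w u : Ω} (hw : TL v W w 0) (hC : C₀ = cadj v W w) (hu : TL v C₀ u 0)
    (hF : F = cadj v C₀ u) {y : Ω} (hy : y ∈ F) (r : ℝ) :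
    ∃ q : MvPolynomial (Fin 2) Ω, (∀ g, coeff g q ∈ W) ∧ v.Ge r (y - eval ![w, u] q) := by
  classical
  rw [hF] at hy
  obtain ⟨f, hf, h1⟩ := hu.dense hy r
  obtain ⟨m, hm⟩ : ∃ m : ℝ, v.Ge m u := ⟨v u, fun _ => le_rfl⟩
  have h2 : ∀ i : ℕ, ∃ g : Polynomial Ω, (∀ n, g.coeff n ∈ W) ∧
      v.Ge (r - i * m) (f.coeff i - g.eval w) := fun i => dens1 hw hC (hf i) _
  choose g hg h3 using h2
  refine ⟨∑ i ∈ f.support, mv 0 (g i) * X 1 ^ i, fun e => ?_, ?_⟩
  · rw [coeff_sum]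
    refine sum_mem fun i _ => ?_
    rw [coeff_mul]
    refine sum_mem fun x _ => mul_mem (coeff_mv_mem 0 (hg i) _) ?_
    rw [coeff_X_pow]
    split_ifs
    exacts [one_mem _, zero_mem _]
  · have e : y - eval ![w, u] (∑ i ∈ f.support, mv 0 (g i) * X 1 ^ i) = (y - f.eval u) +
        ∑ i ∈ f.support, (f.coeff i - (g i).eval w) * u ^ i := by
      rw [map_sum, Polynomial.eval_eq_sum, Polynomial.sum_def]
      have e1 : ∑ i ∈ f.support, (f.coeff i - (g i).eval w) * u ^ i =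
          ∑ i ∈ f.support, f.coeff i * u ^ i -
          ∑ i ∈ f.support, eval ![w, u] (mv 0 (g i) * X 1 ^ i) := by
        rw [← Finset.sum_sub_distrib]
        refine Finset.sum_congr rfl fun i _ => ?_
        rw [map_mul, map_pow, eval_X, eval_mv]
        show (f.coeff i - (g i).eval w) * u ^ i = f.coeff i * u ^ i - (g i).eval w * u ^ i
        ring
      rw [e1]
      ring
    rw [e]
    refine h1.add (RVal.Ge.sum _ _ fun i _ => ?_)
    refine ((h3 i).mul (ge_pow hm i)).mono ?_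
    linarith

/-! ### The two instances -/

theorem mv_comp (g : Polynomial Ω) (X₀ : Ω) :
    mv 0 (g.comp (Polynomial.X + Polynomial.C X₀)) =
      aeval (fun i : Fin 2 => if i = 0 then (X 0 + C X₀ : MvPolynomial (Fin 2) Ω) else X 1)
        (mv 0 g) := by
  unfold mv
  rw [Polynomial.aeval_comp]
  rw [map_add, Polynomial.aeval_X, Polynomial.aeval_C, algebraMap_eq]
  rw [← Polynomial.aeval_algHom_apply, aeval_X, if_pos rfl]

theorem mv_map (g : Polynomial Ω) :
    mv 0 (g.map (Φ : Ω →+* Ω)) = MvPolynomial.map (Φ : Ω →+* Ω) (mv 0 g) := by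
  have h : ∀ g : Polynomial Ω, mv 0 (g.map (Φ : Ω →+* Ω)) =
      MvPolynomial.map (Φ : Ω →+* Ω) (mv 0 g) := by
    intro g
    induction g using Polynomial.induction_on' with
    | add p q hp hq =>
      unfold mv at hp hq ⊢
      rw [Polynomial.map_add, map_add, map_add, map_add, hp, hq]
    | monomial n a =>
      unfold mv
      rw [Polynomial.map_monomial, Polynomial.aeval_monomial, Polynomial.aeval_monomial, map_mul,
        map_pow, map_X, algebraMap_eq, map_C]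
  exact h g

theorem natDegree_psi (X₀ Y : Ω) (U : Polynomial Ω) :
    (psi Φ X₀ Y U).natDegree ≤ U.natDegree := by
  unfold psi
  refine (Polynomial.natDegree_sub_le _ _).trans (max_le ?_ ?_)
  · refine (Polynomial.natDegree_add_le _ _).trans (max_le ?_ Polynomial.natDegree_map_le)
    rw [Polynomial.natDegree_C]
    exact Nat.zero_le _
  · refine Polynomial.natDegree_comp_le.trans ?_
    rw [Polynomial.natDegree_X_add_C, mul_one]

/-- The data of the plane: `w`, `u` and the translations. -/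
structure PlT (v : RVal Ω) (W C₀ F : IntermediateField k Ω) (w u : Ω)
    (T : (Fin 2 → k) → Ω →ₐ[k] Ω) (U : Polynomial Ω) : Prop where
  wt : TL v W w 0
  C_eq : C₀ = cadj v W w
  ut : TL v C₀ u 0
  F_eq : F = cadj v C₀ u
  iso : ∀ c, IsoE v v (T c)
  fix : ∀ c, ∀ a ∈ W, T c a = a
  Tw : ∀ c, T c w = w + algebraMap k Ω (c 0)
  Tu : ∀ c, T c u = u + U.eval (algebraMap k Ω (c 0)) + algebraMap k Ω (c 1)

section inst

variable {w u z : Ω} {T : (Fin 2 → k) → Ω →ₐ[k] Ω} {U : Polynomial Ω}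
  {Z : MvPolynomial (Fin 2) Ω}

/-- **`Ψ` is small.** -/
theorem small_psi [IsAlgClosed Ω] [Infinite k] (hk : Ctx0 k v) (hL : Monotone Lq) (hd : W ≤ clI v (⨆ J, Lq J))
    (h : PlT v W C₀ F w u T U) {ε : ℝ} (hε : 0 < ε) : ∃ J₀ : ℕ, ∀ J ≥ J₀, ∀ Φ : Ω →ₐ[k] Ω,
      IsoE v v Φ → (∀ a ∈ Lq J, Φ a = a) → ∀ X₀ Y : Ω, Φ w = w + X₀ → Φ u = u + Y →
      ∀ j, v.Ge (-ε) ((psi Φ X₀ Y U).coeff j) := by
  have a1 : ∀ (c : Fin 2 → k) (i : Fin 2), T c ((![w, 0] : Fin 2 → Ω) i) =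
      (![w, 0] : Fin 2 → Ω) i +
        eval (pt c) ((![X 0, 0] : Fin 2 → MvPolynomial (Fin 2) Ω) i) := by
    intro c i
    fin_cases i
    · show T c w = w + eval (pt c) (X 0)
      rw [eval_X, h.Tw]
      rfl
    · show T c 0 = 0 + eval (pt c) 0
      rw [map_zero, map_zero, add_zero]
  have a2 : ∀ ε : ℝ, 0 < ε → ∃ θ : MvPolynomial (Fin 2) Ω, (∀ g, coeff g θ ∈ W) ∧
      v.Ge (-ε) (u - eval ![w, 0] θ) := by
    intro ε hε
    obtain ⟨θ, hθ, h1⟩ := h.ut.lim ε hε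
    obtain ⟨g, hg, h2⟩ := dens1 h.wt h.C_eq hθ 0
    refine ⟨mv 0 g, coeff_mv_mem 0 hg, ?_⟩
    rw [eval_mv]
    have e : u - g.eval w = (u - θ) + (θ - g.eval w) := by ring
    show v.Ge (-ε) (u - g.eval w)
    rw [e]
    exact (h1.mono (by linarith)).add (h2.mono (by linarith))
  have a3 : ∀ c, v.Ge 0 (T c u - u - eval (pt c) (mv 0 U + X 1)) := by
    intro c
    have e : T c u - u - eval (pt c) (mv 0 U + X 1) = 0 := by
      rw [map_add, eval_mv, eval_X, h.Tu]
      show u + U.eval (algebraMap k Ω (c 0)) + algebraMap k Ω (c 1) - u -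
        (U.eval (algebraMap k Ω (c 0)) + algebraMap k Ω (c 1)) = 0
      ring
    rw [e]
    exact RVal.Ge.zero
  obtain ⟨δ, hδ, J₁, h1⟩ := small_gen (P := ![w, 0]) (M := ![X 0, 0]) (y := u)
    (Z := mv 0 U + X 1) hk hL hd h.iso h.fix a1 a2 a3 hε
  · obtain ⟨J₂, h2⟩ := small_lim hL hd h.wt.lim hδ
    refine ⟨max J₁ J₂, fun J hJ Φ hΦ hfix X₀ Y hX hY j => ?_⟩
    have h3 : v.Ge (-δ) X₀ := by
      have := h2 J ((le_max_right _ _).trans hJ) Φ hΦ hfix
      rw [hX, add_sub_cancel_left] at this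
      exact this
    have h4 := h1 J ((le_max_left _ _).trans hJ) Φ hΦ hfix
      (fun i : Fin 2 => if i = 0 then (X 0 + C X₀ : MvPolynomial (Fin 2) Ω) else X 1)
      (fun i => ?_) (fun i => ?_) Y (by rw [hY]; simp only [add_sub_cancel_left, sub_self]; exact RVal.Ge.zero)
    · have e : zet Φ (fun i : Fin 2 => if i = 0 then (X 0 + C X₀ : MvPolynomial (Fin 2) Ω) else X 1)
          Y (mv 0 U + X 1) = mv 0 (psi Φ X₀ Y U) := by
        unfold zet psi
        rw [map_add, map_add, map_X, aeval_X, if_neg (by decide : ¬(1 : Fin 2) = 0), ← mv_comp,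
          ← mv_map]
        have e1 : ∀ a b : Polynomial Ω, mv 0 (a - b) = mv 0 a - mv 0 b := fun a b => by
          unfold mv; rw [map_sub]
        have e2 : ∀ a b : Polynomial Ω, mv 0 (a + b) = mv 0 a + mv 0 b := fun a b => by
          unfold mv; rw [map_add]
        have e3 : mv 0 (Polynomial.C Y) = (C Y : MvPolynomial (Fin 2) Ω) := by
          unfold mv; rw [Polynomial.aeval_C, algebraMap_eq]
        rw [e1, e2, e3]
        ring
      have h5 := h4 (Finsupp.single 0 j)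
      rw [e, coeff_mv_single] at h5
      exact h5
    · by_cases hi : i = 0
      · rw [if_pos hi]
        exact ((Cge.X (v := v) 0).mono (by linarith)).add (Cge.C h3)
      · rw [if_neg hi]
        exact (Cge.X (v := v) 1).mono (by linarith)
    · fin_cases i
      · show aeval _ (X 0 : MvPolynomial (Fin 2) Ω) = C (Φ w - w) + MvPolynomial.map _ (X 0)
        rw [aeval_X, if_pos rfl, map_X, hX, add_sub_cancel_left]
        ring
      · show aeval _ (0 : MvPolynomial (Fin 2) Ω) = C (Φ 0 - 0) + MvPolynomial.map _ 0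
        rw [map_zero, map_zero, map_zero, sub_zero, C_0, add_zero]

/-- **`ζ` is small.** -/
theorem small_zet [IsAlgClosed Ω] [Infinite k] (hk : Ctx0 k v) (hL : Monotone Lq) (hd : W ≤ clI v (⨆ J, Lq J))
    (h : PlT v W C₀ F w u T U) (hz : Lim v F 0 z)
    (hZ : ∀ c, v.Ge 0 (T c z - z - eval (pt c) Z)) {ε : ℝ} (hε : 0 < ε) :
    ∃ J₀ : ℕ, ∀ J ≥ J₀, ∀ Φ : Ω →ₐ[k] Ω, IsoE v v Φ → (∀ a ∈ Lq J, Φ a = a) →
      ∀ X₀ Y : Ω, Φ w = w + X₀ → Φ u = u + Y → ∀ Za : Ω, v.Ge 0 (Φ z - z - Za) →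
      ∀ g, v.Ge (-ε) (coeff g (zet Φ (Lp X₀ (psi Φ X₀ Y U)) Za Z)) := by
  have a1 : ∀ (c : Fin 2 → k) (i : Fin 2), T c ((![w, u] : Fin 2 → Ω) i) =
      (![w, u] : Fin 2 → Ω) i +
        eval (pt c) ((![X 0, mv 0 U + X 1] : Fin 2 → MvPolynomial (Fin 2) Ω) i) := by
    intro c i
    fin_cases i
    · show T c w = w + eval (pt c) (X 0)
      rw [eval_X, h.Tw]
      rfl
    · show T c u = u + eval (pt c) (mv 0 U + X 1)
      rw [map_add, eval_mv, eval_X, h.Tu]
      show u + U.eval (algebraMap k Ω (c 0)) + algebraMap k Ω (c 1) =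
        u + (U.eval (algebraMap k Ω (c 0)) + algebraMap k Ω (c 1))
      ring
  have a2 : ∀ ε : ℝ, 0 < ε → ∃ θ : MvPolynomial (Fin 2) Ω, (∀ g, coeff g θ ∈ W) ∧
      v.Ge (-ε) (z - eval ![w, u] θ) := by
    intro ε hε
    obtain ⟨θ, hθ, h1⟩ := hz ε hε
    obtain ⟨q, hq, h2⟩ := dens2 h.wt h.C_eq h.ut h.F_eq hθ 0
    refine ⟨q, hq, ?_⟩
    have e : z - eval ![w, u] q = (z - θ) + (θ - eval ![w, u] q) := by ring
    rw [e]
    exact (h1.mono (by linarith)).add (h2.mono (by linarith))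
  obtain ⟨δ, hδ, J₁, h1⟩ := small_gen (P := ![w, u]) (M := ![X 0, mv 0 U + X 1]) (y := z)
    (Z := Z) hk hL hd h.iso h.fix a1 a2 hZ hε
  · obtain ⟨J₂, h2⟩ := small_lim hL hd h.wt.lim hδ
    obtain ⟨J₃, h3⟩ := small_psi hk hL hd h hδ
    refine ⟨max J₁ (max J₂ J₃), fun J hJ Φ hΦ hfix X₀ Y hX hY Za hZa => ?_⟩
    have h4 : v.Ge (-δ) X₀ := by
      have := h2 J (((le_max_left _ _).trans (le_max_right _ _)).trans hJ) Φ hΦ hfix
      rw [hX, add_sub_cancel_left] at this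
      exact this
    have h5 := h3 J (((le_max_right _ _).trans (le_max_right _ _)).trans hJ) Φ hΦ hfix X₀ Y hX hY
    refine h1 J ((le_max_left _ _).trans hJ) Φ hΦ hfix _ (fun i => ?_) (fun i => ?_) Za hZa
    · fin_cases i
      · exact ((Cge.X (v := v) 0).mono (by linarith)).add (Cge.C h4)
      · exact ((Cge.X (v := v) 1).mono (by linarith)).add (Cge_mv 0 h5)
    · fin_cases i
      · show aeval (Lp X₀ (psi Φ X₀ Y U)) (X 0 : MvPolynomial (Fin 2) Ω) =
          C (Φ w - w) + MvPolynomial.map _ (X 0)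
        rw [aeval_X, map_X, hX, add_sub_cancel_left]
        show X 0 + C X₀ = C X₀ + X 0
        ring
      · show aeval (Lp X₀ (psi Φ X₀ Y U)) (mv 0 U + X 1 : MvPolynomial (Fin 2) Ω) =
          C (Φ u - u) + MvPolynomial.map _ (mv 0 U + X 1)
        rw [map_add, aeval_X, map_add, map_X, hY, add_sub_cancel_left, ← mv_map]
        have e0 : aeval (Lp X₀ (psi Φ X₀ Y U)) (mv 0 U) =
            mv 0 (U.comp (Polynomial.X + Polynomial.C X₀)) := by
          unfold mv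
          rw [Polynomial.aeval_comp, map_add, Polynomial.aeval_X, Polynomial.aeval_C,
            algebraMap_eq, ← Polynomial.aeval_algHom_apply, aeval_X]
          rfl
        rw [e0]
        show mv 0 (U.comp (Polynomial.X + Polynomial.C X₀)) + (X 1 + mv 0 (psi Φ X₀ Y U)) = _
        have e1 : ∀ a b : Polynomial Ω, mv 0 (a - b) = mv 0 a - mv 0 b := fun a b => by
          unfold mv; rw [map_sub]
        have e2 : ∀ a b : Polynomial Ω, mv 0 (a + b) = mv 0 a + mv 0 b := fun a b => by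
          unfold mv; rw [map_add]
        have e3 : mv 0 (Polynomial.C Y) = (C Y : MvPolynomial (Fin 2) Ω) := by
          unfold mv; rw [Polynomial.aeval_C, algebraMap_eq]
        unfold psi
        rw [e1, e2, e3]
        ring

end inst

end Pool.Agent.TWRB
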