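import Pool.Agent.Lib.TWRB.Core

/-!
# CT, j = 1, row B: the motions exist (R11m)

A strict motion of `W` and of `B = W⟨w 0⟩` extends to `F = B⟨w 1⟩`; the displacement of `z` is the
displacement of an element of `F` near to `z`.
-/

set_option autoImplicit false

open MvPolynomial

namespace Pool.Agent.TWRB

open Pool.Agent.H15JM (RVal)
open Pool.Agent.D2 (Ctx0)
open Pool.Agent.TWM
open Pool.Agent.TWS (IsoE SphC)
open Pool.Agent.TWCT (SMo)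
open Pool.Agent.TWLY
open Pool.Agent.TWCY

universe u

variable {k Ω : Type u} [Field k] [Field Ω] [Algebra k Ω] {v : RVal Ω}
  {A W B F : IntermediateField k Ω} {w : Fin 2 → Ω} {z : Ω}

/-- The displacement of `z`. -/
theorem exists_Za {τ : Ω →ₐ[k] Ω} {η : ℝ} (h : SMo v A F τ η) (hz : TL v F z 0) :
    ∃ Za ∈ F, ∀ θ ∈ F, v.Ge (-(η / 2)) (z - θ) → Gt v 0 (τ θ - θ - Za) := by
  obtain ⟨θ₀, h0, h1⟩ := hz.lim (η / 2) (half_pos h.pos)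
  refine ⟨τ θ₀ - θ₀, sub_mem (h.mem h0) h0, fun θ hθ h2 => ?_⟩
  have h3 : v.Ge (-(η / 2)) (θ - θ₀) := by
    have e : θ - θ₀ = (z - θ₀) - (z - θ) := by ring
    rw [e]
    exact (h1.mono (by linarith)).sub h2
  have h4 := h.str _ (sub_mem hθ h0) _ h3
  have e : τ θ - θ - (τ θ₀ - θ₀) = τ (θ - θ₀) - (θ - θ₀) := by
    rw [map_sub]
    ring
  rw [e]
  intro h5
  have h6 := h4 h5
  have := h.pos
  linarith

/-- **The motions exist.** -/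
theorem exists_moB [IsAlgClosed Ω] (hk : Ctx0 k v) (hs : SphC v)
    (hval : ∀ r : ℝ, ∃ y : Ω, y ≠ 0 ∧ v y = r) (hcv : CompleteV v) (hAW : A ≤ W) (hWB : W ≤ B)
    (hu : TL v B (w 1) 0) (hF : F = cadj v B (w 1)) (hz : TL v F z 0) {τ₀ : Ω →ₐ[k] Ω} {η₀ : ℝ}
    {a : Ω} (hW : SMo v A W τ₀ η₀) (hB : SMo v A B τ₀ η₀) (hw : τ₀ (w 0) = w 0 + a) (ha : a ∈ W)
    (hwB : w 0 ∈ B) :
    ∃ (τ : Ω →ₐ[k] Ω) (b Za : Ω) (ρ : ℝ), (∀ y ∈ B, τ y = τ₀ y) ∧ ρ ≤ η₀ ∧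
      MoB v A W B F w z τ ρ a b Za := by
  obtain ⟨c, hc, h1⟩ := hu.lim (η₀ / 2) (half_pos hB.pos)
  obtain ⟨τ, ρ, h2, h3, h4, h5, h6⟩ := hB.ext hk hs hval hcv (hAW.trans hWB) hu hc h1
    (sub_mem (hB.mem hc) hc) (by
      rw [sub_self]
      exact Gt.zero)
  rw [← hF] at h4
  obtain ⟨Za, h7, h8⟩ := exists_Za h4 hz
  refine ⟨τ, τ₀ c - c, Za, ρ, h5, h2, ?_, h3, h4, ha, ?_, sub_mem (hB.mem hc) hc, h6, h7, h8⟩
  · exact (hW.congr hAW h3.iso fun y hy => h5 y (hWB hy)).mono le_rfl h3.pos h2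
  · rw [h5 _ hwB, hw]

/-- **R11m**: the motions exist. -/
theorem rowR11m [IsAlgClosed Ω] (p : ℕ) (v : RVal Ω) : RowR11m (k := k) p v := by
  intro L W B F K w x z a h
  refine ⟨0, fun J _ τ₀ η₀ a' hW hB hw ha => ?_⟩
  have hWB : W ≤ B := by
    rw [h.B_eq]
    exact le_cadj v W (w 0)
  have hwB : w 0 ∈ B := by
    rw [h.B_eq]
    exact self_mem_cadj v W (w 0)
  obtain ⟨τ, b, Za, ρ, -, -, h1⟩ := exists_moB h.c0 h.sph h.hval h.cv (h.le J) hWB h.tu h.F_eq h.zt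
    hW hB hw ha hwB
  exact ⟨τ, b, Za, ρ, h1⟩

end Pool.Agent.TWRB
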