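import Pool.Agent.Lib.TWRB.R12A
import Pool.Agent.Lib.TWRB.R12C
import Pool.Agent.Lib.TWCF.HB

/-!
# CT, j = 1, row B: the derivations and the functionals (`RowR12`)

* `rowR12B`: the functional of a noise;
* `rowR12`.
-/

set_option autoImplicit false
set_option linter.unusedSectionVars false

namespace Pool.Agent.TWRB

open Pool.Agent.H15JM (RVal)
open Pool.Agent.LU1 (VPos)
open Pool.Agent.D2 (Ctx0)
open Pool.Agent.TWM
open Pool.Agent.TWCY

universe u

variable {k Ω : Type u} [Field k] [Field Ω] [Algebra k Ω] {v : RVal Ω} {p : ℕ}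
  {L : ℕ → IntermediateField k Ω} {W B F K : IntermediateField k Ω} {w : Fin 2 → Ω} {x z a : Ω}

/-- An `F`-linear map of norm `≤ 0` which is `0` on `F` is a functional of the noises. -/
theorem HB.fnl [Fact p.Prime] (h : HB p v L W B F K w x z a) {d : Ω →ₗ[F] Ω}
    (h1 : ∀ (y : Ω) (c : ℝ), v.Ge c y → v.Ge c (d y)) (h2 : ∀ f ∈ F, d f = 0) : Fnl v F d where
  norm := h1
  str := h.strict (Fact.out : p.Prime).ne_zero (map_add d) h1 fun c m hm =>
    h2 _ (mul_mem (F.algebraMap_mem c) (pow_mem (h.W_le hm) p))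
  zero := h2

/-- **The functional of a noise** (`RowR12`, second part). -/
theorem rowR12B [Fact p.Prime] (h : HB p v L W B F K w x z a) (y : Ω)
    (hy : ∀ f ∈ F, ¬ v.Ge 0 (y - f)) : ∃ d : Ω →ₗ[F] Ω, Fnl v F d ∧ d y = 1 := by
  let M : Submodule F Ω :=
    { carrier := F
      add_mem' := fun ha hb => add_mem ha hb
      zero_mem' := zero_mem F
      smul_mem' := fun l y hy => by
        rw [Algebra.smul_def]
        exact mul_mem l.2 hy }
  obtain ⟨d, h1, h2, h3⟩ := TWCF.exists_fun h.sph M (z := y) fun m hm => by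
    have h4 := hy m hm
    exact ⟨fun h5 => h4 (by rw [h5]; exact RVal.Ge.zero), lt_of_not_ge fun h5 => h4 fun _ => h5⟩
  exact ⟨d, h.fnl h1 h2, h3⟩

variable (p v)

/-- **`RowR12`.** -/
theorem rowR12 [Fact p.Prime] [CharP Ω p] [IsAlgClosed Ω] : RowR12 (k := k) p v :=
  fun _ _ _ _ _ _ _ _ _ _ hH hB => ⟨rowR12A hH hB, rowR12B hH, rowR12C hH⟩

end Pool.Agent.TWRB
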