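import Pool.Agent.Lib.TWCU.Astar

/-!
# RowB, R2: the relations `(a*)`, real form

`S` (the motion `τ`) maps `F` to `F`, `Z_a ∈ F`, `L` is a pair of polynomials over `F`, the coefficients
of `Z` (the displacement of `z` for a real `f`) are in `F + O(ε)`.
* `aeval_lin`: a linear map and the substitution of polynomials over the scalars;
* `astar_f`: `d` `F`-linear of norm `≤ 0`, `d F = 0`: `(d Z)(L) + d ζ` is in `O(ε)`, coefficientwise;
* `astar_f_strict`: the strong form, if `d` is strict and `S` is strict with margin `m > ε` on a field `M`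
  which contains `F` and the coefficients of `Z` modulo `O_0`.
-/

set_option autoImplicit false

open MvPolynomial

namespace Pool.Agent.TWRB

open Pool.Agent.H15JM (RVal)
open Pool.Agent.D2 (Ctx0)
open Pool.Agent.TWM
open Pool.Agent.TWS (IsoE SphC)
open Pool.Agent.TWLY
open Pool.Agent.TWCY
open Pool.Agent.TWCU

universe u

variable {k Ω : Type u} [Field k] [Field Ω] [Algebra k Ω] {v : RVal Ω}
  {S₀ F M : IntermediateField k Ω}

/-- The polynomials over a field are closed under substitution. -/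
theorem coeff_prod_mem {L : Fin 2 → MvPolynomial (Fin 2) Ω} (hL : ∀ i g, coeff g (L i) ∈ S₀)
    (m : Ex) (g : Ex) : coeff g (∏ i, L i ^ m i) ∈ S₀ := by
  classical
  have h1 : ∀ (a b : MvPolynomial (Fin 2) Ω), (∀ g, coeff g a ∈ S₀) → (∀ g, coeff g b ∈ S₀) →
      ∀ g, coeff g (a * b) ∈ S₀ := by
    intro a b ha hb g
    rw [coeff_mul]
    exact sum_mem fun x _ => mul_mem (ha _) (hb _)
  have h2 : ∀ (a : MvPolynomial (Fin 2) Ω), (∀ g, coeff g a ∈ S₀) → ∀ (n : ℕ) (g : Ex),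
      coeff g (a ^ n) ∈ S₀ := by
    intro a ha n
    induction n with
    | zero =>
      intro g
      rw [pow_zero, coeff_one]
      split_ifs
      exacts [one_mem _, zero_mem _]
    | succ n ih =>
      rw [pow_succ]
      exact h1 _ _ ih ha
  rw [Fin.prod_univ_two]
  exact h1 _ _ (h2 _ (hL 0) _) (h2 _ (hL 1) _) g

/-- **A linear map and the substitution**, `L` over the scalars. -/
theorem aeval_lin (d : Ω →ₗ[S₀] Ω) {L : Fin 2 → MvPolynomial (Fin 2) Ω}
    {q : MvPolynomial (Fin 2) Ω}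
    (hL : ∀ m, coeff m q ≠ 0 → ∀ g, coeff g (∏ i, L i ^ m i) ∈ S₀) :
    Dc d (aeval L q) = aeval L (Dc d q) := by
  classical
  have h1 : ∀ r : MvPolynomial (Fin 2) Ω, (∀ g, coeff g r ≠ 0 → g ∈ q.support) →
      aeval L r = ∑ m ∈ q.support, C (coeff m r) * ∏ i, L i ^ m i := by
    intro r hr
    rw [aeval_def, eval₂_eq', algebraMap_eq]
    refine Finset.sum_subset (fun g hg => hr g (mem_support_iff.1 hg)) fun g _ hg => ?_
    rw [notMem_support_iff.1 hg, C_0, zero_mul]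
  ext g
  rw [coeff_Dc' (map_zero d), h1 q fun g hg => mem_support_iff.2 hg,
    h1 (Dc d q) fun g hg => ?_, coeff_sum, coeff_sum, map_sum]
  · refine Finset.sum_congr rfl fun m hm => ?_
    rw [coeff_C_mul, coeff_C_mul, coeff_Dc' (map_zero d)]
    have h3 := hL m (mem_support_iff.1 hm) g
    have h4 : coeff m q * coeff g (∏ i, L i ^ m i) =
        (⟨coeff g (∏ i, L i ^ m i), h3⟩ : S₀) • coeff m q := by
      rw [IntermediateField.smul_def, smul_eq_mul, mul_comm]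
    rw [h4, map_smul, IntermediateField.smul_def, smul_eq_mul, mul_comm]
  · rw [coeff_Dc' (map_zero d)] at hg
    refine mem_support_iff.2 fun h => hg ?_
    rw [h, map_zero]

variable {S : Ω →ₐ[k] Ω} {Za : Ω} {Z ZF : MvPolynomial (Fin 2) Ω}
  {L : Fin 2 → MvPolynomial (Fin 2) Ω}

/-- The identity behind `(a*)`: `(d Z)(L) + d ζ = d (S Z)`, coefficientwise. -/
theorem star_eq (hZa : Za ∈ F) (hL : ∀ i g, coeff g (L i) ∈ F) (d : Ω →ₗ[F] Ω)
    (hdF : ∀ f ∈ F, d f = 0) (g : Ex) :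
    coeff g (aeval L (Dc d Z)) + d (coeff g (zet S L Za Z)) = d (S (coeff g Z)) := by
  classical
  rw [← aeval_lin d fun m _ g => coeff_prod_mem hL m g, coeff_Dc' (map_zero d)]
  unfold zet
  rw [coeff_sub, coeff_add, coeff_map, coeff_C, map_sub, map_add]
  have h1 : d (if 0 = g then Za else 0) = 0 := by
    split_ifs
    · exact hdF _ hZa
    · exact map_zero d
  rw [h1, zero_add]
  change _ + (d (S (coeff g Z)) - _) = _
  ring

/-- **R2, (a*).** -/
theorem astar_f (hS : IsoE v v S) (hSF : ∀ f ∈ F, S f ∈ F) (hZa : Za ∈ F)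
    (hL : ∀ i g, coeff g (L i) ∈ F) (d : Ω →ₗ[F] Ω)
    (hd : ∀ (y : Ω) (c : ℝ), v.Ge c y → v.Ge c (d y)) (hdF : ∀ f ∈ F, d f = 0) {ε : ℝ}
    (hZF : ∀ g, coeff g ZF ∈ F) (hZ : ∀ g, v.Ge (-ε) (coeff g Z - coeff g ZF)) (g : Ex) :
    v.Ge (-ε) (coeff g (aeval L (Dc d Z)) + d (coeff g (zet S L Za Z))) := by
  rw [star_eq hZa hL d hdF]
  have e : S (coeff g Z) = S (coeff g ZF) + S (coeff g Z - coeff g ZF) := by
    rw [map_sub]
    ring
  rw [e, map_add, hdF _ (hSF _ (hZF g)), zero_add]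
  exact hd _ _ (hS.ge_iff.2 (hZ g))

/-- **R2', (a**).** -/
theorem astar_f_strict (hS : IsoE v v S) (hSF : ∀ f ∈ F, S f ∈ F) (hZa : Za ∈ F)
    (hL : ∀ i g, coeff g (L i) ∈ F) (d : Ω →ₗ[F] Ω)
    (hd : ∀ (y : Ω) (c : ℝ), v.Ge c y → Gt v c (d y)) (hdF : ∀ f ∈ F, d f = 0) {ε m : ℝ}
    (hε : 0 ≤ ε) (hm : ε < m) (hFM : F ≤ M)
    (hstr : ∀ y ∈ M, ∀ r : ℝ, v.Ge r y → v.Ge (r + m) (S y - y))
    (hZF : ∀ g, coeff g ZF ∈ F) (hZ : ∀ g, v.Ge (-ε) (coeff g Z - coeff g ZF))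
    (hZM : ∀ g, ∃ y ∈ M, v.Ge 0 (coeff g Z - y)) (g : Ex) :
    Gt v 0 (coeff g (aeval L (Dc d Z)) - coeff g (Dc d Z) + d (coeff g (zet S L Za Z))) := by
  have e0 : coeff g (aeval L (Dc d Z)) - coeff g (Dc d Z) + d (coeff g (zet S L Za Z)) =
      d (S (coeff g Z) - coeff g Z) := by
    rw [map_sub, ← star_eq (S := S) hZa hL d hdF, coeff_Dc' (map_zero d) Z]
    ring
  rw [e0]
  obtain ⟨y, hy, h1⟩ := hZM g
  have h2 : v.Ge (-ε) (y - coeff g ZF) := by
    have e : y - coeff g ZF = (coeff g Z - coeff g ZF) - (coeff g Z - y) := by ring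
    rw [e]
    exact (hZ g).sub (h1.mono (by linarith))
  have e : S (coeff g Z) - coeff g Z = (S (coeff g ZF) - coeff g ZF) +
      (S (y - coeff g ZF) - (y - coeff g ZF)) + (S (coeff g Z - y) - (coeff g Z - y)) := by
    rw [map_sub, map_sub]
    ring
  rw [e, map_add, map_add, hdF _ (sub_mem (hSF _ (hZF g)) (hZF g)), zero_add]
  refine Gt.add ?_ (hd _ _ ((hS.ge_iff.2 h1).sub h1))
  have h3 := hstr _ (sub_mem hy (hFM (hZF g))) _ h2
  have h4 := hd _ _ h3
  intro h5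
  have h6 := h4 h5
  linarith

end Pool.Agent.TWRB
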