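import Pool.Agent.Lib.TWRB.R2
import Pool.Agent.Lib.TWCU.Bstar

/-!
# RowB, R3: the relations `(b*)`, real form

`S` (the motion `τ`) maps `F` to `F`; `D` is `S₀`-linear on `Ω`, of norm `≤ 0`, `D 1 = 0`, where
`F ^ p ⊆ S₀`. No derivation is needed.
* `coeff_pow_mem`, `coeff_PP_mem`: the coefficients of a `p`-th power are in `S₀`;
* `bgen`: the relation of the tie under `S T`, with `Q = Z_a + (S Z)`;
* `Dc_aeval_p`: `D(f(L)) = (D f)(L)` if the exponents of `f` are divisible by `p`;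
* `bstar_gen`: `(b*)`, for a point `V` and a pair `L` with `V_i(L) = S V_i`;
* `err_eq`: the error term.
-/

set_option autoImplicit false

open MvPolynomial

namespace Pool.Agent.TWRB

open Pool.Agent.H15JM (RVal)
open Pool.Agent.D2 (Ctx0)
open Pool.Agent.TWM
open Pool.Agent.TWS (IsoE SphC)
open Pool.Agent.TWLY
open Pool.Agent.TWCY
open Pool.Agent.TWCU

universe u

variable {k Ω : Type u} [Field k] [Field Ω] [Algebra k Ω] {v : RVal Ω}
  {S₀ F M : IntermediateField k Ω} {p : ℕ} {κ : ℕ → k} {t : ℕ}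
  {x : Ω} {e : k} {L V : Fin 2 → MvPolynomial (Fin 2) Ω}

/-! ### Linear maps -/

theorem lin_mul (D : Ω →ₗ[S₀] Ω) {s : Ω} (hs : s ∈ S₀) (y : Ω) : D (s * y) = s * D y := by
  have h := map_smul D (⟨s, hs⟩ : S₀) y
  rwa [IntermediateField.smul_def, IntermediateField.smul_def, smul_eq_mul, smul_eq_mul] at h

theorem lin_zero (D : Ω →ₗ[S₀] Ω) (hD1 : D 1 = 0) {s : Ω} (hs : s ∈ S₀) : D s = 0 := by
  have h := lin_mul D hs 1
  rwa [mul_one, hD1, mul_zero] at h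

theorem Dc_sub' (D : Ω →ₗ[S₀] Ω) (f g : MvPolynomial (Fin 2) Ω) :
    Dc D (f - g) = Dc D f - Dc D g := by
  ext m
  rw [coeff_sub, coeff_Dc' (map_zero D), coeff_Dc' (map_zero D), coeff_Dc' (map_zero D), coeff_sub,
    map_sub]

theorem Dc_C (D : Ω →ₗ[S₀] Ω) (y : Ω) : Dc D (C y : MvPolynomial (Fin 2) Ω) = C (D y) := by
  ext m
  rw [coeff_Dc' (map_zero D), coeff_C, coeff_C]
  split_ifs
  · rfl
  · exact map_zero D

theorem Dc_X (D : Ω →ₗ[S₀] Ω) (hD1 : D 1 = 0) (i : Fin 2) :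
    Dc D (X i : MvPolynomial (Fin 2) Ω) = 0 := by
  classical
  ext m
  rw [coeff_Dc' (map_zero D), coeff_X, coeff_zero]
  split_ifs
  · exact hD1
  · exact map_zero D

section Frob

variable [hp : Fact p.Prime] [CharP Ω p]

/-! ### The coefficients of `p`-th powers -/

/-- The coefficients of a `p`-th power. -/
theorem coeff_pow_mem (hSp : ∀ f ∈ F, f ^ p ∈ S₀) {f : MvPolynomial (Fin 2) Ω}
    (hf : ∀ g, coeff g f ∈ F) (i : ℕ) (g : Ex) : coeff g (f ^ p ^ (i + 1)) ∈ S₀ := by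
  by_cases h : coeff g (f ^ p ^ (i + 1)) = 0
  · rw [h]
    exact zero_mem _
  · obtain ⟨m, rfl, -⟩ := exists_of_coeff_pow p f (i + 1) h
    rw [coeff_pow_smul, pow_succ, pow_mul]
    exact hSp _ (pow_mem (hf m) _)

theorem coeff_PP_mem (hSp : ∀ f ∈ F, f ^ p ∈ S₀) {f : MvPolynomial (Fin 2) Ω}
    (hf : ∀ g, coeff g f ∈ F) (g : Ex) : coeff g (PP p κ t f) ∈ S₀ := by
  unfold PP
  rw [coeff_sum]
  refine sum_mem fun i _ => ?_
  rw [IsScalarTower.algebraMap_apply k Ω (MvPolynomial (Fin 2) Ω), algebraMap_eq, coeff_C_mul]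
  exact mul_mem (S₀.algebraMap_mem _) (coeff_pow_mem hSp hf i g)

omit hp [CharP Ω p] in
/-- The powers with exponents divisible by `p`. -/
theorem prod_eq_pow {m : Ex} (hm : ∀ i, p ∣ m i) (L : Fin 2 → MvPolynomial (Fin 2) Ω) :
    ∃ n : Ex, ∏ i, L i ^ m i = (∏ i, L i ^ n i) ^ p ^ (0 + 1) := by
  choose n hn using hm
  refine ⟨Finsupp.equivFunOnFinite.symm n, ?_⟩
  rw [zero_add, pow_one, ← Finset.prod_pow]
  refine Finset.prod_congr rfl fun i _ => ?_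
  rw [hn i, ← pow_mul, mul_comm]
  rfl

/-- **The substitution, for exponents divisible by `p`.** -/
theorem Dc_aeval_p (hSp : ∀ f ∈ F, f ^ p ∈ S₀) (D : Ω →ₗ[S₀] Ω)
    (hL : ∀ i g, coeff g (L i) ∈ F) {f : MvPolynomial (Fin 2) Ω}
    (hf : ∀ g, coeff g f ≠ 0 → ∀ i, p ∣ g i) : Dc D (aeval L f) = aeval L (Dc D f) := by
  refine aeval_lin D fun m hm g => ?_
  obtain ⟨n, hn⟩ := prod_eq_pow (hf m hm) L
  rw [hn]
  exact coeff_pow_mem hSp (coeff_prod_mem hL n) 0 g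

/-- The exponents stay divisible by `p`. -/
theorem dvd_aeval (L : Fin 2 → MvPolynomial (Fin 2) Ω) {f : MvPolynomial (Fin 2) Ω}
    (hf : ∀ g, coeff g f ≠ 0 → ∀ i, p ∣ g i) {g : Ex} (hg : coeff g (aeval L f) ≠ 0)
    (i : Fin 2) : p ∣ g i := by
  classical
  rw [aeval_def, eval₂_eq', algebraMap_eq, coeff_sum] at hg
  obtain ⟨m, hm, h1⟩ := Finset.exists_ne_zero_of_sum_ne_zero hg
  rw [coeff_C_mul] at h1
  obtain ⟨n, hn⟩ := prod_eq_pow (hf m (mem_support_iff.1 hm)) L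
  rw [hn] at h1
  obtain ⟨q, rfl, -⟩ := exists_of_coeff_pow p _ _ (right_ne_zero_of_mul h1)
  rw [Finsupp.smul_apply, smul_eq_mul, zero_add, pow_one]
  exact Dvd.intro _ rfl

/-! ### The relation of the tie -/

/-- **The relation of the tie, under the motion.** -/
theorem bgen [Infinite k] (hk : Ctx0 k v) {S : Ω →ₐ[k] Ω} (hS : IsoE v v S) (hSx : S x = x)
    (hSF : ∀ f ∈ F, S f ∈ F) (hSp : ∀ f ∈ F, f ^ p ∈ S₀) (D : Ω →ₗ[S₀] Ω)
    (hD : ∀ (y : Ω) (c : ℝ), v.Ge c y → v.Ge c (D y)) (hD1 : D 1 = 0) (hDx : v.Ge 0 (D x))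
    {P H A Z : MvPolynomial (Fin 2) Ω} {θ h a Za : Ω} {ε : ℝ} (hε : 0 < ε)
    (hPF : ∀ g, coeff g P ∈ F) (hHF : ∀ g, coeff g H ∈ F) (hθ : θ ∈ F) (hh : h ∈ F)
    (h1 : ∀ g, v.Ge (-ε) (coeff g (Z - (P - C θ))))
    (h2 : ∀ g, v.Ge (-ε) (coeff g (C (algebraMap k Ω e) * P + C x * PP p κ t P + A - H ^ p)))
    (h3 : v.Ge (-ε) (algebraMap k Ω e * θ + x * PP p κ t θ + a - h ^ p))
    (h4 : v.Ge (-ε) (S θ - θ - Za)) (g : Ex) :
    v.Ge (-(p ^ (t + 1) * ε)) (coeff g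
      (C (algebraMap k Ω e) * Dc D (C Za + MvPolynomial.map (S : Ω →+* Ω) Z) +
      C (D x) * PP p κ t (C Za + MvPolynomial.map (S : Ω →+* Ω) Z) +
      Dc D (MvPolynomial.map (S : Ω →+* Ω) A - C a))) := by
  classical
  have hp1 : (1 : ℝ) ≤ p ^ (t + 1) := by
    have h1 : (1 : ℝ) ≤ p := by exact_mod_cast hp.out.one_lt.le
    exact one_le_pow₀ h1
  have hle : -(p ^ (t + 1) * ε) ≤ -ε := by nlinarith
  let s : MvPolynomial (Fin 2) Ω →ₐ[k] MvPolynomial (Fin 2) Ω := mapAlgHom S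
  have hs : ∀ f, MvPolynomial.map (S : Ω →+* Ω) f = s f := fun f => rfl
  have hsC : ∀ y : Ω, s (C y) = C (S y) := fun y => map_C _ y
  have hCP : ∀ y : Ω, (C (PP p κ t y) : MvPolynomial (Fin 2) Ω) = PP p κ t (C y) := fun y =>
    PP_map (IsScalarTower.toAlgHom k Ω (MvPolynomial (Fin 2) Ω)) y
  rw [hs, hs]
  set Y := s P - C θ with hY
  set G := s H - C h with hG
  set B := s A - C a with hB
  set Q := C Za + s Z with hQ
  have hcC : ∀ (y : Ω) (r : ℝ), v.Ge r y → ∀ g : Ex, v.Ge r (coeff g (C y)) := by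
    intro y r hy g
    rw [coeff_C]
    split_ifs
    · exact hy
    · exact RVal.Ge.zero
  have hcs : ∀ (f : MvPolynomial (Fin 2) Ω) (r : ℝ), (∀ g, v.Ge r (coeff g f)) →
      ∀ g : Ex, v.Ge r (coeff g (s f)) := by
    intro f r hf g
    rw [← hs, coeff_map]
    exact hS.ge_iff.2 (hf g)
  have hsF : ∀ (f : MvPolynomial (Fin 2) Ω) (y : Ω), (∀ g, coeff g f ∈ F) → y ∈ F →
      ∀ g : Ex, coeff g (s f - C y) ∈ F := by
    intro f y hf hy g
    rw [coeff_sub, ← hs, coeff_map, coeff_C]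
    refine sub_mem (hSF _ (hf g)) ?_
    split_ifs
    · exact hy
    · exact zero_mem _
  have hYF := hsF P θ hPF hθ
  have hGF := hsF H h hHF hh
  -- the relation
  set R := C (algebraMap k Ω e) * Y + C x * PP p κ t Y + B - G ^ p with hR
  have hRge : ∀ g, v.Ge (-ε) (coeff g R) := by
    intro g
    have e1 : R = s (C (algebraMap k Ω e) * P + C x * PP p κ t P + A - H ^ p) -
        C (algebraMap k Ω e * θ + x * PP p κ t θ + a - h ^ p) := by
      rw [hR, hY, hG, hB, sub_pow_char, PP_sub]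
      simp only [map_sub, map_add, map_mul, map_pow, hsC, PP_map, AlgHom.commutes, hSx, hCP]
      ring
    rw [e1, coeff_sub]
    exact (hcs _ _ h2 g).sub (hcC _ _ h3 g)
  have hDR : D (coeff g R) = algebraMap k Ω e * D (coeff g Y) + D x * coeff g (PP p κ t Y) +
      D (coeff g B) := by
    rw [hR, coeff_sub, coeff_add, coeff_add, coeff_C_mul, coeff_C_mul, map_sub, map_add, map_add,
      lin_mul D (S₀.algebraMap_mem e), mul_comm x, lin_mul D (coeff_PP_mem hSp hYF g)]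
    have h5 := coeff_pow_mem (p := p) hSp hGF 0 g
    rw [zero_add, pow_one] at h5
    rw [lin_zero D hD1 h5, sub_zero, mul_comm (D x)]
  -- the approximation
  set W := Q - Y with hW
  have hWge : ∀ g, v.Ge (-ε) (coeff g W) := by
    intro g
    have e1 : W = s (Z - (P - C θ)) - C (S θ - θ - Za) := by
      rw [hW, hQ, hY]
      simp only [map_sub, hsC]
      ring
    rw [e1, coeff_sub]
    exact (hcs _ _ h1 g).sub (hcC _ _ h4 g)
  have hPW : v.Ge (-(p ^ (t + 1) * ε)) (coeff g (PP p κ t W)) := by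
    refine ge_coeff hk (fun c => ?_) g
    rw [eval_PP]
    exact ge_PP hk hε (ge_eval hk hWge c)
  have e3 : D (coeff g W) = D (coeff g Q) - D (coeff g Y) := by
    rw [hW, coeff_sub, map_sub]
  have e4 : coeff g (PP p κ t W) = coeff g (PP p κ t Q) - coeff g (PP p κ t Y) := by
    rw [hW, PP_sub, coeff_sub]
  have e2 : coeff g (C (algebraMap k Ω e) * Dc D Q + C (D x) * PP p κ t Q + Dc D B) =
      D (coeff g R) + (algebraMap k Ω e * D (coeff g W) + D x * coeff g (PP p κ t W)) := by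
    rw [hDR, e3, e4, coeff_add, coeff_add, coeff_C_mul, coeff_C_mul,
      coeff_Dc' (map_zero D), coeff_Dc' (map_zero D)]
    ring
  rw [e2]
  have h8 := (hk.ge e).mul (hD _ _ (hWge g))
  have h9 := hDx.mul hPW
  rw [zero_add] at h8 h9
  exact ((hD _ _ (hRge g)).mono hle).add ((h8.mono hle).add h9)

/-- **(b*), general form.** -/
theorem bstar_gen [Infinite k] (hk : Ctx0 k v) {S : Ω →ₐ[k] Ω} (hS : IsoE v v S) (hSx : S x = x)
    (hSF : ∀ f ∈ F, S f ∈ F) (hSp : ∀ f ∈ F, f ^ p ∈ S₀) (D : Ω →ₗ[S₀] Ω)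
    (hD : ∀ (y : Ω) (c : ℝ), v.Ge c y → v.Ge c (D y)) (hD1 : D 1 = 0) (hDx : v.Ge 0 (D x))
    (hL : ∀ i g, coeff g (L i) ∈ F) (hV : ∀ i g, coeff g (V i) ∈ F)
    (hLV : ∀ i, aeval L (V i) = MvPolynomial.map (S : Ω →+* Ω) (V i))
    {Θ H Pa Z : MvPolynomial (Fin 2) Ω} {y : Fin 2 → Ω} {Za : Ω} {ε : ℝ} (hε : 0 < ε)
    (hΘF : ∀ g, coeff g Θ ∈ F) (hHF : ∀ g, coeff g H ∈ F) (hy : ∀ i, y i ∈ F)
    (hSPa : ∀ g, S (coeff g Pa) = coeff g Pa)
    (h1 : ∀ g, v.Ge (-ε) (coeff g (Z - (aeval V Θ - C (eval y Θ)))))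
    (h2 : ∀ g, v.Ge (-ε) (coeff g (C (algebraMap k Ω e) * aeval V Θ +
      C x * PP p κ t (aeval V Θ) + aeval V Pa - (aeval V H) ^ p)))
    (h3 : v.Ge (-ε) (algebraMap k Ω e * eval y Θ + x * PP p κ t (eval y Θ) + eval y Pa -
      (eval y H) ^ p))
    (h4 : v.Ge (-ε) (S (eval y Θ) - eval y Θ - Za))
    (hZp : e ≠ 0 → ∀ g, coeff g Z ≠ 0 → ∀ i, p ∣ g i) (g : Ex) :
    v.Ge (-(p ^ (t + 1) * ε)) (coeff g
      (aeval L (C (D x) * PP p κ t Z + C (algebraMap k Ω e) * Dc D Z +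
        Dc D (aeval V Pa - C (eval y Pa))) +
      C (D x) * PP p κ t (zet S L Za Z) + C (algebraMap k Ω e) * Dc D (zet S L Za Z) +
      (Dc D (aeval L (aeval V Pa - C (eval y Pa))) -
        aeval L (Dc D (aeval V Pa - C (eval y Pa)))))) := by
  have hco : ∀ f : MvPolynomial (Fin 2) Ω, (∀ g, coeff g f ∈ F) → ∀ g,
      coeff g (aeval V f) ∈ F := by
    intro f hf g
    rw [aeval_def, eval₂_eq', algebraMap_eq, coeff_sum]
    refine sum_mem fun m _ => ?_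
    rw [coeff_C_mul]
    exact mul_mem (hf m) (coeff_prod_mem hV m g)
  have hev : ∀ f : MvPolynomial (Fin 2) Ω, (∀ g, coeff g f ∈ F) → eval y f ∈ F := by
    intro f hf
    rw [eval_eq']
    exact sum_mem fun m _ => mul_mem (hf m) (prod_mem fun i _ => pow_mem (hy i) _)
  have h5 := bgen (e := e) (κ := κ) (t := t) hk hS hSx hSF hSp D hD hD1 hDx hε (hco Θ hΘF)
    (hco H hHF) (hev Θ hΘF) (hev H hHF) h1 h2 h3 h4 g
  -- the motion of `Pa(V)`
  have e1 : MvPolynomial.map (S : Ω →+* Ω) (aeval V Pa) = aeval L (aeval V Pa) := by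
    have h6 : ∀ f : MvPolynomial (Fin 2) Ω, (∀ g, S (coeff g f) = coeff g f) →
        MvPolynomial.map (S : Ω →+* Ω) (aeval V f) = aeval L (aeval V f) := by
      intro f hf
      rw [aeval_def, eval₂_eq', algebraMap_eq, map_sum, map_sum]
      refine Finset.sum_congr rfl fun m _ => ?_
      rw [map_mul, map_mul, map_prod, map_prod, map_C, aeval_C, algebraMap_eq]
      congr 1
      · exact congrArg C (hf m)
      · refine Finset.prod_congr rfl fun i _ => ?_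
        rw [map_pow, map_pow, hLV]
    exact h6 Pa hSPa
  have e2 : C Za + MvPolynomial.map (S : Ω →+* Ω) Z = aeval L Z + zet S L Za Z := by
    unfold zet
    ring
  have e3 : MvPolynomial.map (S : Ω →+* Ω) (aeval V Pa) - C (eval y Pa) =
      aeval L (aeval V Pa - C (eval y Pa)) := by
    rw [e1, map_sub, aeval_C, algebraMap_eq]
  have e4 : C (algebraMap k Ω e) * Dc D (aeval L Z) =
      aeval L (C (algebraMap k Ω e) * Dc D Z) := by
    by_cases h0 : e = 0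
    · rw [h0, map_zero, C_0, zero_mul, zero_mul, map_zero]
    · rw [Dc_aeval_p (p := p) hSp D hL (hZp h0), map_mul, aeval_C, algebraMap_eq]
  rw [e2, e3, Dc_add, PP_add, mul_add, e4, PP_aeval] at h5
  convert h5 using 2
  rw [map_add, map_add, map_mul (aeval L) (C (D x)), aeval_C, algebraMap_eq]
  ring

/-- **The error term**: `Pa = e₁ X 0 + e₂ X 1 + Pb`, the exponents of `Pb` (and of `f`, if `e₂ ≠ 0`)
divisible by `p`. -/
theorem err_eq (hSp : ∀ f ∈ F, f ^ p ∈ S₀) (D : Ω →ₗ[S₀] Ω) (hD1 : D 1 = 0)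
    (hL : ∀ i g, coeff g (L i) ∈ F) {w u X' : Ω} {Ψ f : MvPolynomial (Fin 2) Ω}
    (hL0 : L 0 = X 0 + C X') (hL1 : L 1 = X 1 + Ψ) (hV0 : V 0 = C w + X 0)
    (hV1 : V 1 = C u + X 1 + f) {e₁ e₂ : k} (hf : e₂ ≠ 0 → ∀ g, coeff g f ≠ 0 → ∀ i, p ∣ g i)
    {Pa Pb : MvPolynomial (Fin 2) Ω} {y : Fin 2 → Ω} (hy0 : y 0 = w) (hy1 : y 1 = u)
    (hPa : Pa = C (algebraMap k Ω e₁) * X 0 + C (algebraMap k Ω e₂) * X 1 + Pb)
    (hPb : ∀ g, coeff g Pb ≠ 0 → ∀ i, p ∣ g i) :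
    Dc D (aeval L (aeval V Pa - C (eval y Pa))) - aeval L (Dc D (aeval V Pa - C (eval y Pa))) =
      C (algebraMap k Ω e₁ * D X') + C (algebraMap k Ω e₂) * Dc D Ψ := by
  classical
  have hCp : ∀ (a : Ω) (g : Ex), coeff g (C a : MvPolynomial (Fin 2) Ω) ≠ 0 → ∀ i, p ∣ g i := by
    intro a g hg i
    rw [coeff_C] at hg
    split_ifs at hg with h
    · rw [← h, Finsupp.coe_zero, Pi.zero_apply]
      exact dvd_zero p
    · exact absurd rfl hg
  obtain ⟨B, hB⟩ : ∃ B, B = aeval V Pb - C (eval y Pb) := ⟨_, rfl⟩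
  have hBp : ∀ g, coeff g B ≠ 0 → ∀ i, p ∣ g i := by
    intro g hg i
    rw [hB, coeff_sub] at hg
    by_cases h1 : coeff g (aeval V Pb) = 0
    · rw [h1, zero_sub] at hg
      exact hCp _ g (neg_ne_zero.1 hg) i
    · exact dvd_aeval V hPb h1 i
  have e1 : aeval V Pa - C (eval y Pa) =
      C (algebraMap k Ω e₁) * X 0 + C (algebraMap k Ω e₂) * (X 1 + f) + B := by
    rw [hB, hPa]
    simp only [map_add, map_mul, aeval_C, aeval_X, eval_C, eval_X, algebraMap_eq, hV0, hV1, hy0,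
      hy1]
    ring
  have e2 : Dc D (aeval L B) = aeval L (Dc D B) := Dc_aeval_p hSp D hL hBp
  have e3 : C (algebraMap k Ω e₂) * Dc D (aeval L f) =
      C (algebraMap k Ω e₂) * aeval L (Dc D f) := by
    by_cases h0 : e₂ = 0
    · rw [h0, map_zero, C_0, zero_mul, zero_mul]
    · rw [Dc_aeval_p hSp D hL (hf h0)]
  have he₁ := S₀.algebraMap_mem e₁
  have he₂ := S₀.algebraMap_mem e₂
  rw [e1]
  simp only [map_add, map_mul, aeval_C, aeval_X, algebraMap_eq, hL0, hL1, Dc_add,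
    Dc_C_mul he₁, Dc_C_mul he₂, Dc_X D hD1, Dc_C, e2, mul_add, map_zero, mul_zero]
  rw [e3]
  ring

end Frob

end Pool.Agent.TWRB
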