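import Pool.Agent.Lib.TWRB.R3
import Pool.Agent.Lib.TWRB.Sub

/-!
# RowB, R3: the relations `(b*)` for a real `f`

`trf w u f` (`w ↦ w + s`, `u ↦ u + c + f(s)`), `Lp`, `psi` as in `LemR`, `Sub`.
* `aeval_Lp_trf`: `(trf θ)(L) = τ (trf θ)` for `θ` with coefficients fixed by `τ`;
* `bstar_f`: `(b*)` for a real `f`, all cases (`Pa = e₁ X 0 + e₂ X 1 + Pb`).
-/

set_option autoImplicit false

open MvPolynomial

namespace Pool.Agent.TWRB

open Pool.Agent.H15JM (RVal)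
open Pool.Agent.D2 (Ctx0)
open Pool.Agent.TWM
open Pool.Agent.TWS (IsoE SphC)
open Pool.Agent.TWLY
open Pool.Agent.TWCY
open Pool.Agent.TWCU

universe u

variable {k Ω : Type u} [Field k] [Field Ω] [Algebra k Ω] {v : RVal Ω}
  {S₀ F : IntermediateField k Ω} {p : ℕ} {κ : ℕ → k} {t : ℕ} {x w u X' Y' Za : Ω} {e e₁ e₂ : k}
  {τ : Ω →ₐ[k] Ω} {f U : Polynomial Ω} {θ h Pa Pb Z : MvPolynomial (Fin 2) Ω}

/-- The point of `trf`. -/
noncomputable def Vf (w u : Ω) (f : Polynomial Ω) : Fin 2 → MvPolynomial (Fin 2) Ω :=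
  ![C w + X 0, C u + X 1 + Polynomial.aeval (X 0) f]

theorem trf_eq (w u : Ω) (f : Polynomial Ω) (q : MvPolynomial (Fin 2) Ω) :
    trf w u f q = aeval (Vf w u f) q := rfl

theorem map_poly (τ : Ω →ₐ[k] Ω) (f : Polynomial Ω) :
    MvPolynomial.map (τ : Ω →+* Ω) (Polynomial.aeval (X 0 : MvPolynomial (Fin 2) Ω) f) =
      Polynomial.aeval (X 0) (f.map (τ : Ω →+* Ω)) := by
  rw [Polynomial.aeval_def, Polynomial.aeval_def, Polynomial.hom_eval₂, map_X,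
    Polynomial.eval₂_map]
  congr 1
  ext a
  simp

/-- The point and the translation. -/
theorem aeval_Lp_Vf (hw : τ w = w + X') (hu : τ u = u + Y') (f : Polynomial Ω) (i : Fin 2) :
    aeval (Lp X' (psi τ X' Y' f)) (Vf w u f i) =
      MvPolynomial.map (τ : Ω →+* Ω) (Vf w u f i) := by
  fin_cases i
  · change aeval (Lp X' (psi τ X' Y' f)) (C w + X 0) =
      MvPolynomial.map (τ : Ω →+* Ω) (C w + X 0)
    rw [map_add, map_add, aeval_C, aeval_X, map_C, map_X, algebraMap_eq]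
    change C w + (X 0 + C X') = C (τ w) + X 0
    rw [hw, C_add]
    ring
  · change aeval (Lp X' (psi τ X' Y' f)) (C u + X 1 + Polynomial.aeval (X 0) f) =
      MvPolynomial.map (τ : Ω →+* Ω) (C u + X 1 + Polynomial.aeval (X 0) f)
    rw [map_add, map_add, map_add, map_add, aeval_C, aeval_X, map_C, map_X, algebraMap_eq,
      aeval_Lp_aeval, map_poly]
    change C u + (X 1 + Polynomial.aeval (X 0) (psi τ X' Y' f)) + _ = C (τ u) + X 1 + _
    rw [hu, C_add, psi, map_sub, map_add, Polynomial.aeval_C, algebraMap_eq]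
    ring

theorem Vf_mem (hw : w ∈ F) (hu : u ∈ F) (hf : ∀ j, f.coeff j ∈ F) (i : Fin 2) (g : Ex) :
    coeff g (Vf w u f i) ∈ F := by
  fin_cases i
  · exact add_mem (C_mem_PF hw) (X_mem_PF F 0) g
  · exact add_mem (add_mem (C_mem_PF hu) (X_mem_PF F 1)) (aeval_mem_PF hf) g

theorem psi_mem (hτF : ∀ a ∈ F, τ a ∈ F) (hX : X' ∈ F) (hY : Y' ∈ F)
    (hf : ∀ j, f.coeff j ∈ F) (j : ℕ) : (psi τ X' Y' f).coeff j ∈ F := by
  rw [psi, Polynomial.coeff_sub, Polynomial.coeff_add, Polynomial.coeff_map, Polynomial.coeff_C]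
  refine sub_mem (add_mem ?_ (hτF _ (hf j))) ?_
  · split_ifs
    · exact hY
    · exact zero_mem _
  · rw [← Polynomial.taylor_apply, Polynomial.taylor_coeff]
    exact TWM.eval_mem (TWM.hasse_mem_PI (show f ∈ TWM.PI F from hf) j) hX

theorem Lp_mem {Ψ : Polynomial Ω} (hX : X' ∈ F) (hΨ : ∀ j, Ψ.coeff j ∈ F) (i : Fin 2) (g : Ex) :
    coeff g (Lp X' Ψ i) ∈ F := by
  fin_cases i
  · exact add_mem (X_mem_PF F 0) (C_mem_PF hX) g
  · exact add_mem (X_mem_PF F 1) (aeval_mem_PF hΨ) g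

/-- The exponents of `f(s)`. -/
theorem poly_dvd (hf : ∀ j, ¬ p ∣ j → f.coeff j = 0) (g : Ex)
    (hg : coeff g (Polynomial.aeval (X 0 : MvPolynomial (Fin 2) Ω) f) ≠ 0) (i : Fin 2) :
    p ∣ g i := by
  classical
  rw [Polynomial.aeval_eq_sum_range, coeff_sum] at hg
  obtain ⟨j, hj, h1⟩ := Finset.exists_ne_zero_of_sum_ne_zero hg
  rw [coeff_smul, X_pow_eq_monomial, coeff_monomial] at h1
  split_ifs at h1 with h2
  · rw [← h2]
    by_cases hi : i = 0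
    · subst hi
      rw [Finsupp.single_eq_same]
      by_contra h3
      rw [hf j h3, zero_smul] at h1
      exact h1 rfl
    · rw [Finsupp.single_eq_of_ne hi]
      exact dvd_zero p
  · rw [smul_zero] at h1
    exact absurd rfl h1

variable [hp : Fact p.Prime] [CharP Ω p]

/-- **R3: (b*) for a real `f`**, all cases. `D` is `S₀`-linear, of norm `≤ 0`, `D 1 = 0`. -/
theorem bstar_f [Infinite k] (hk : Ctx0 k v) (hτ : IsoE v v τ) (hτF : ∀ a ∈ F, τ a ∈ F)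
    (hτx : τ x = x) (hτw : τ w = w + X') (hτu : τ u = u + Y') (hw : w ∈ F) (hu : u ∈ F)
    (hX : X' ∈ F) (hY : Y' ∈ F) (hSp : ∀ a ∈ F, a ^ p ∈ S₀) (D : Ω →ₗ[S₀] Ω)
    (hD : ∀ (y : Ω) (c : ℝ), v.Ge c y → v.Ge c (D y)) (hD1 : D 1 = 0) (hDx : v.Ge 0 (D x))
    (hf : ∀ j, f.coeff j ∈ F) {ε : ℝ} (hε : 0 < ε) (hθ : ∀ g, coeff g θ ∈ F)
    (hh : ∀ g, coeff g h ∈ F) (hτPa : ∀ g, τ (coeff g Pa) = coeff g Pa)
    (hPa : Pa = C (algebraMap k Ω e₁) * X 0 + C (algebraMap k Ω e₂) * X 1 + Pb)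
    (hPb : ∀ g, coeff g Pb ≠ 0 → ∀ i, p ∣ g i) (hfp : e₂ ≠ 0 → ∀ j, ¬ p ∣ j → f.coeff j = 0)
    (h1 : ∀ g, v.Ge (-ε) (coeff g (shU (f - U) Z - (trf w u f θ - C (eval ![w, u] θ)))))
    (h2 : ∀ g, v.Ge (-ε) (coeff g (C (algebraMap k Ω e) * trf w u f θ +
      C x * PP p κ t (trf w u f θ) + trf w u f Pa - trf w u f h ^ p)))
    (h3 : v.Ge (-ε) (algebraMap k Ω e * eval ![w, u] θ + x * PP p κ t (eval ![w, u] θ) +
      eval ![w, u] Pa - eval ![w, u] h ^ p))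
    (h4 : v.Ge (-ε) (τ (eval ![w, u] θ) - eval ![w, u] θ - Za))
    (hZp : e ≠ 0 → ∀ g, coeff g Z ≠ 0 → ∀ i, p ∣ g i) (g : Ex) :
    v.Ge (-(p ^ (t + 1) * ε)) (coeff g
      (aeval (Lp X' (psi τ X' Y' f)) (C (D x) * PP p κ t (shU (f - U) Z) +
        C (algebraMap k Ω e) * Dc D (shU (f - U) Z) +
        Dc D (trf w u f Pa - C (eval ![w, u] Pa))) +
      C (D x) * PP p κ t (zet τ (Lp X' (psi τ X' Y' f)) Za (shU (f - U) Z)) +
      C (algebraMap k Ω e) * Dc D (zet τ (Lp X' (psi τ X' Y' f)) Za (shU (f - U) Z)) +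
      (C (algebraMap k Ω e₁ * D X') + C (algebraMap k Ω e₂) *
        Dc D (Polynomial.aeval (X 0) (psi τ X' Y' f))))) := by
  have hL := Lp_mem (F := F) hX (psi_mem hτF hX hY hf)
  have hV := Vf_mem (F := F) hw hu hf
  have hy : ∀ i, (![w, u] : Fin 2 → Ω) i ∈ F := by
    intro i
    fin_cases i
    · exact hw
    · exact hu
  have h5 := bstar_gen (e := e) (κ := κ) (t := t) hk hτ hτx hτF hSp D hD hD1 hDx hL hV
    (aeval_Lp_Vf hτw hτu f) hε hθ hh hy hτPa h1 h2 h3 h4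
    (fun he g hg i => dvd_aeval _ (hZp he) hg i) g
  have h6 := err_eq (e₁ := e₁) (e₂ := e₂) hSp D hD1 hL (w := w) (u := u) (X' := X')
    (Ψ := Polynomial.aeval (X 0) (psi τ X' Y' f)) (f := Polynomial.aeval (X 0) f) rfl rfl
    (V := Vf w u f) rfl rfl (fun he => poly_dvd (hfp he)) (y := ![w, u]) rfl rfl hPa hPb
  rw [h6] at h5
  exact h5

end Pool.Agent.TWRB
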