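import Pool.Agent.Lib.TWRB.R5
import Pool.Agent.Lib.TWRB.R3f

/-!
# RowB, R4: the polynomials `N^oo`, `G^oo`, their residues

* `exists_rsp4`: the residue polynomial of a polynomial over the valuation ring;
* `coeff_single_shU`: the substitution does not change the coefficients of `c ^ j`;
* `dtU_ge`: `N^oo = dt d U Z` is in `O_0`;
* `gamf_ge`: `G_f` is in `O(ε)` for the real approximations `f`.
-/

set_option autoImplicit false

open MvPolynomial

namespace Pool.Agent.TWRB

open Pool.Agent.H15JM (RVal)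
open Pool.Agent.D2 (Ctx0)
open Pool.Agent.TWM
open Pool.Agent.TWS (IsoE SphC)
open Pool.Agent.TWLY
open Pool.Agent.TWPL (ptk)
open Pool.Agent.TWCY
open Pool.Agent.TWCU
open Pool.Agent.TWEC

universe u

variable {k Ω : Type u} [Field k] [Field Ω] [Algebra k Ω] {v : RVal Ω}
  {S₀ W C₀ F : IntermediateField k Ω}

/-- **The residue polynomial.** -/
theorem exists_rsp4 (hk : Ctx0 k v) {N : MvPolynomial (Fin 2) Ω} (hN : ∀ g, v.Ge 0 (coeff g N)) :
    ∃ n : MvPolynomial (Fin 2) k, (∀ m, Gt v 0 (coeff m N - algebraMap k Ω (coeff m n))) ∧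
      ∀ m, coeff m N = 0 → coeff m n = 0 := by
  classical
  choose c hc using fun g => hk.residue (hN g)
  refine ⟨∑ m ∈ N.support, monomial m (c m), fun m => ?_, fun m hm => ?_⟩
  · rw [coeff_sum]
    by_cases h : m ∈ N.support
    · rw [Finset.sum_eq_single_of_mem m h fun b _ hb => by rw [coeff_monomial, if_neg hb],
        coeff_monomial, if_pos rfl]
      exact hc m
    · rw [Finset.sum_eq_zero fun b hb => by
        rw [coeff_monomial, if_neg fun h1 : b = m => h (h1 ▸ hb)], map_zero, sub_zero,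
        notMem_support_iff.1 h]
      exact Gt.zero
  · rw [coeff_sum]
    refine Finset.sum_eq_zero fun b hb => ?_
    rw [coeff_monomial, if_neg]
    rintro rfl
    exact mem_support_iff.1 hb hm

/-- Polynomials over `k` with the same residues. -/
theorem rsp_uniq (hk : Ctx0 k v) {N : MvPolynomial (Fin 2) Ω} {n n' : MvPolynomial (Fin 2) k}
    (h : ∀ m, Gt v 0 (coeff m N - algebraMap k Ω (coeff m n)))
    (h' : ∀ m, Gt v 0 (coeff m N - algebraMap k Ω (coeff m n'))) : n = n' := by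
  ext m
  have h1 : Gt v 0 (algebraMap k Ω (coeff m n - coeff m n')) := by
    have e : algebraMap k Ω (coeff m n - coeff m n') =
        (coeff m N - algebraMap k Ω (coeff m n')) - (coeff m N - algebraMap k Ω (coeff m n)) := by
      rw [map_sub]
      ring
    rw [e]
    exact (h' m).sub (h m)
  have h2 := hk.const_eq_zero h1
  exact sub_eq_zero.1 h2

/-! ### The coefficients of `c ^ j` -/

section ev0

variable {R : Type u} [CommRing R]

/-- `F(0, c)`. -/
noncomputable def ev0 : MvPolynomial (Fin 2) R →ₐ[R] Polynomial R := aeval ![0, Polynomial.X]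

theorem coeff_ev0 (F : MvPolynomial (Fin 2) R) (j : ℕ) :
    (ev0 F).coeff j = coeff (Finsupp.single 1 j) F := by
  classical
  induction F using MvPolynomial.induction_on' with
  | monomial m a =>
    rw [ev0, aeval_monomial, Finsupp.prod_fintype _ _ (by simp), Fin.prod_univ_two, coeff_monomial]
    simp only [Matrix.cons_val_zero, Matrix.cons_val_one, Polynomial.algebraMap_eq]
    by_cases h0 : m 0 = 0
    · rw [h0, pow_zero, one_mul, Polynomial.coeff_C_mul, Polynomial.coeff_X_pow]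
      have h1 : m = Finsupp.single 1 j ↔ j = m 1 := by
        constructor
        · intro h
          rw [h, Finsupp.single_eq_same]
        · intro h
          ext i
          fin_cases i
          · simpa using h0
          · simp [h]
      by_cases h2 : j = m 1
      · rw [if_pos h2, if_pos (h1.2 h2), mul_one]
      · rw [if_neg h2, if_neg fun h => h2 (h1.1 h), mul_zero]
    · rw [zero_pow h0, zero_mul, mul_zero, Polynomial.coeff_zero, if_neg]
      rintro rfl
      exact h0 (by simp)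
  | add p q hp hq => rw [map_add, Polynomial.coeff_add, hp, hq, coeff_add]

theorem ev0_shU {t : Polynomial R} (ht : t.coeff 0 = 0) (F : MvPolynomial (Fin 2) R) :
    ev0 (shU t F) = ev0 F := by
  have h : (ev0 (R := R)).comp (shU t) = ev0 := by
    refine algHom_ext fun i => ?_
    fin_cases i
    · simp only [AlgHom.comp_apply, Fin.zero_eta, shU_X0]
    · simp only [AlgHom.comp_apply, Fin.mk_one, shU_X1, map_add]
      rw [← Polynomial.aeval_algHom_apply]
      have h1 : ev0 (X 0 : MvPolynomial (Fin 2) R) = 0 := by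
        rw [ev0, aeval_X]
        rfl
      rw [h1, Polynomial.aeval_def, Polynomial.eval₂_at_zero, ht, map_zero, add_zero]
  exact DFunLike.congr_fun h F

/-- **The substitution does not change the coefficients of `c ^ j`.** -/
theorem coeff_single_shU {t : Polynomial R} (ht : t.coeff 0 = 0) (F : MvPolynomial (Fin 2) R)
    (j : ℕ) : coeff (Finsupp.single 1 j) (shU t F) = coeff (Finsupp.single 1 j) F := by
  rw [← coeff_ev0, ← coeff_ev0, ev0_shU ht]

end ev0

theorem coeff_single_dt (d : Ω →ₗ[S₀] Ω) {t : Polynomial Ω} (ht : t.coeff 0 = 0)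
    (F : MvPolynomial (Fin 2) Ω) (j : ℕ) :
    coeff (Finsupp.single 1 j) (dt d t F) = d (coeff (Finsupp.single 1 j) F) := by
  rw [dt, coeff_single_shU ht, coeff_Dc' (map_zero d), coeff_single_shU]
  rw [Polynomial.coeff_neg, ht, neg_zero]

/-! ### `N^oo` -/

variable {w u z x : Ω} {T : (Fin 2 → k) → Ω →ₐ[k] Ω} {U : Polynomial Ω}
  {Z : MvPolynomial (Fin 2) Ω}

/-- **`N^oo` is in `O_0`.** -/
theorem dtU_ge [Infinite k] (hk : Ctx0 k v) (iso : ∀ c, IsoE v v (T c))
    (fix : ∀ c, ∀ f ∈ W, T c f = f) (hw : ∀ c, T c w = w + algebraMap k Ω (c 0))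
    (hu : ∀ c, T c u = u + U.eval (algebraMap k Ω (c 0)) + algebraMap k Ω (c 1))
    (hU : ∀ j, Lim v C₀ 0 (U.coeff j)) (hCF : C₀ ≤ F) (hWF : W ≤ F) (hwF : w ∈ F) (huF : u ∈ F)
    (hZ : ∀ c, v.Ge 0 (T c z - z - eval (ptk Ω c) Z))
    (hz : ∀ ε : ℝ, 0 < ε → ∃ θ : MvPolynomial (Fin 2) Ω, (∀ g, coeff g θ ∈ W) ∧
      v.Ge (-ε) (z - eval ![w, u] θ))
    (d : Ω →ₗ[F] Ω) (hd : ∀ (y : Ω) (c : ℝ), v.Ge c y → v.Ge c (d y)) (hdF : ∀ f ∈ F, d f = 0)
    (g : Ex) : v.Ge 0 (coeff g (dt d U Z)) := by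
  have hA : AdmE F C₀ (fun _ => True) := admE_all hCF
  have htr : ∀ P : MvPolynomial (Fin 2) Ω, QF (fun _ => True) P := fun P _ _ => trivial
  refine dt_near d hk hA hd hU (htr _) (fun ε hε => ?_) g
  obtain ⟨θ, hθ, h1⟩ := hz ε hε
  have h2 := ge_trf hk iso fix hw hu hZ hε.le hθ h1
  refine ⟨trf w u 0 θ - C (eval ![w, u] θ), htr _, fun m => hdF _ ?_, fun m => ?_⟩
  · have hθF : eval ![w, u] θ ∈ F := by
      rw [eval_eq']
      refine sum_mem fun m _ => mul_mem (hWF (hθ m)) (prod_mem fun i _ => pow_mem ?_ _)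
      fin_cases i
      exacts [hwF, huF]
    refine mem_PF.1 (sub_mem (fun m => ?_) (C_mem_PF hθF)) m
    refine trf_mem hwF huF (fun j => ?_) (fun g => hWF (hθ g)) m
    rw [Polynomial.coeff_zero]
    exact zero_mem _
  · have e3 : trf w u U θ = shU U (trf w u 0 θ) := by
      rw [← sbU_eq, sbU_trf, zero_add]
    rw [map_sub, TWEC.shU_C, ← e3, zero_sub]
    exact h2 m

/-! ### `G_f` -/

section Frob

variable {p : ℕ} [hp : Fact p.Prime] [CharP Ω p] {κ : ℕ → k} {t : ℕ} {e : k}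
  {f : Polynomial Ω} {θ h Pa : MvPolynomial (Fin 2) Ω}

/-- **`G_f` is in `O(ε)`.** -/
theorem gamf_ge [Infinite k] (hk : Ctx0 k v) (hw : w ∈ F) (hu : u ∈ F)
    (hSp : ∀ a ∈ F, a ^ p ∈ S₀) (D : Ω →ₗ[S₀] Ω)
    (hD : ∀ (y : Ω) (c : ℝ), v.Ge c y → v.Ge c (D y)) (hD1 : D 1 = 0) (hDx : v.Ge 0 (D x))
    (hf : ∀ j, f.coeff j ∈ F) {ε : ℝ} (hε : 0 < ε) (hθ : ∀ g, coeff g θ ∈ F)
    (hh : ∀ g, coeff g h ∈ F)
    (h1 : ∀ g, v.Ge (-ε) (coeff g (shU (f - U) Z - (trf w u f θ - C (eval ![w, u] θ)))))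
    (h2 : ∀ g, v.Ge (-ε) (coeff g (C (algebraMap k Ω e) * trf w u f θ +
      C x * PP p κ t (trf w u f θ) + trf w u f Pa - trf w u f h ^ p)))
    (h3 : v.Ge (-ε) (algebraMap k Ω e * eval ![w, u] θ + x * PP p κ t (eval ![w, u] θ) +
      eval ![w, u] Pa - eval ![w, u] h ^ p)) (g : Ex) :
    v.Ge (-(p ^ (t + 1) * ε)) (coeff g (C (D x) * PP p κ t (shU (f - U) Z) +
      C (algebraMap k Ω e) * Dc D (shU (f - U) Z) +
      Dc D (trf w u f Pa - C (eval ![w, u] Pa)))) := by
  have hco : ∀ q : MvPolynomial (Fin 2) Ω, (∀ g, coeff g q ∈ F) → ∀ g,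
      coeff g (trf w u f q) ∈ F := fun q hq g => trf_mem hw hu hf hq g
  have hev : ∀ q : MvPolynomial (Fin 2) Ω, (∀ g, coeff g q ∈ F) → eval ![w, u] q ∈ F := by
    intro q hq
    rw [eval_eq']
    refine sum_mem fun m _ => mul_mem (hq m) (prod_mem fun i _ => pow_mem ?_ _)
    fin_cases i
    exacts [hw, hu]
  have hid : IsoE v v (AlgHom.id k Ω) := ⟨fun _ _ => rfl⟩
  have h5 := bgen (e := e) (κ := κ) (t := t) (S := AlgHom.id k Ω) (Za := 0) hk hid rfl
    (fun f hf => hf) hSp D hD hD1 hDx hε (hco θ hθ) (hco h hh) (hev θ hθ) (hev h hh) h1 h2 h3 (by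
      rw [AlgHom.id_apply, sub_self, sub_zero]
      exact RVal.Ge.zero) g
  have e1 : ∀ q : MvPolynomial (Fin 2) Ω,
      MvPolynomial.map ((AlgHom.id k Ω : Ω →ₐ[k] Ω) : Ω →+* Ω) q = q := fun q => by
    change MvPolynomial.map (RingHom.id Ω) q = q
    rw [map_id]
  rw [e1, e1, C_0, zero_add] at h5
  rwa [add_comm (C (D x) * _)]

end Frob

end Pool.Agent.TWRB
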