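import Pool.Agent.Lib.TWRB.Core
import Pool.Agent.Lib.TWRB.R4a

/-!
# RowB, R4: `N^oo` and `G^oo` exist

* `ni_dt`: `N^oo = dt d U Z`;
* `GU`, `gi_gu`: `G^oo`;
* `rowR4`, `rowR4'`.
-/

set_option autoImplicit false

open MvPolynomial

namespace Pool.Agent.TWRB

open Pool.Agent.H15JM (RVal)
open Pool.Agent.D2 (Ctx0)
open Pool.Agent.TWM
open Pool.Agent.TWS (IsoE SphC)
open Pool.Agent.TWLY
open Pool.Agent.TWCY
open Pool.Agent.TWCU
open Pool.Agent.TWEC (AdmE QF admE_p)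

universe u

variable {k Ω : Type u} [Field k] [Field Ω] [Algebra k Ω] {v : RVal Ω}
  {S₀ C₀ : IntermediateField k Ω} {p : ℕ} {L : ℕ → IntermediateField k Ω}
  {W B F K : IntermediateField k Ω} {w : Fin 2 → Ω} {x z a : Ω} {R : RecB k Ω}
  {q : MvPolynomial (Fin 2) Ω} {U Uf : Polynomial Ω}

/-! ### The substitution `shR` -/

theorem w_pair (w : Fin 2 → Ω) : (![w 0, w 1] : Fin 2 → Ω) = w := by
  ext i
  fin_cases i <;> rfl

theorem shR_eq (w : Fin 2 → Ω) (U : Polynomial Ω) (q : MvPolynomial (Fin 2) Ω) :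
    shR w U q = trf (w 0) (w 1) U q := by
  have h : shR w U = trf (w 0) (w 1) U := by
    refine algHom_ext fun i => ?_
    fin_cases i
    · rw [shR, trf, aeval_X, aeval_X]
      rfl
    · rw [shR, trf, aeval_X, aeval_X]
      change C (w 1) + Polynomial.aeval (X 0) U + X 1 = C (w 1) + X 1 + Polynomial.aeval (X 0) U
      ring
  rw [h]

theorem dsR_eq (w : Fin 2 → Ω) (U : Polynomial Ω) (q : MvPolynomial (Fin 2) Ω) :
    dsR w U q = trf (w 0) (w 1) U q - C (eval ![w 0, w 1] q) := by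
  rw [dsR, shR_eq, w_pair]

/-- `dsR w Uf q` is a substitution of `dsR w U q`. -/
theorem dsR_shU (w : Fin 2 → Ω) (U Uf : Polynomial Ω) (q : MvPolynomial (Fin 2) Ω) :
    dsR w Uf q = shU (Uf - U) (dsR w U q) := by
  rw [dsR_eq, dsR_eq, map_sub, TWEC.shU_C, ← sbU_eq, sbU_trf, add_sub_cancel]

theorem dsR_add (w : Fin 2 → Ω) (U : Polynomial Ω) (q q' : MvPolynomial (Fin 2) Ω) :
    dsR w U (q + q') = dsR w U q + dsR w U q' := by
  rw [dsR, dsR, dsR, map_add, map_add, C_add]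
  ring

theorem dsR_lin (w : Fin 2 → Ω) (U : Polynomial Ω) (l : Fin 2 → k) :
    dsR w U (lin l) = C (algebraMap k Ω (l 0)) * X 0 +
      C (algebraMap k Ω (l 1)) * (X 1 + Polynomial.aeval (X 0) U) := by
  rw [dsR_eq, lin, Fin.sum_univ_two, trf]
  simp only [map_add, map_mul, aeval_C, aeval_X, algebraMap_eq, eval_C, eval_X,
    Matrix.cons_val_zero, Matrix.cons_val_one]
  ring

/-- The exponents stay divisible by `p`. -/
theorem dsR_dvd [hp : Fact p.Prime] [CharP Ω p] (w : Fin 2 → Ω) (U : Polynomial Ω)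
    (hq : ∀ g, coeff g q ≠ 0 → ∀ i, p ∣ g i) :
    ∀ g, coeff g (dsR w U q) ≠ 0 → ∀ i, p ∣ g i := by
  classical
  intro g hg i
  rw [dsR_eq, coeff_sub, coeff_C] at hg
  by_cases h1 : 0 = g
  · rw [← h1, Finsupp.coe_zero, Pi.zero_apply]
    exact dvd_zero p
  · rw [if_neg h1, sub_zero, trf_eq] at hg
    exact dvd_aeval _ hq hg i

/-- `Pa = l 0 X 0 + l 1 X 1 + Pb`, the exponents of `Pb` divisible by `p`. -/
theorem NFB.dvd_pb {U : Polynomial Ω} {e : k} {κ : ℕ → k} {t : ℕ} {l : Fin 2 → k}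
    {Pa : MvPolynomial (Fin 2) Ω} (h : NFB p v L W K w x z a U e κ t l Pa) (g : Ex)
    (hg : coeff g (Pa - lin l) ≠ 0) : ∀ i, p ∣ g i := by
  by_contra h1
  rw [coeff_sub, h.PaD g h1, sub_self] at hg
  exact hg rfl

/-! ### `N^oo` -/

/-- **`N^oo`**. -/
theorem ni_dt [Infinite k] (h : CB p v L W B F K w x z a R) {d : Ω →ₗ[F] Ω}
    (hd : Fnl v F d) : NI v B F R d (dt d R.U R.Z) where
  ge g := by
    have hBF : B ≤ F := h.F_eq ▸ le_cadj v B (w 1)
    have hWB : W ≤ B := h.B_eq ▸ le_cadj v W (w 0)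
    have hwB : w 0 ∈ B := h.B_eq ▸ self_mem_cadj v W (w 0)
    have huF : w 1 ∈ F := h.F_eq ▸ self_mem_cadj v B (w 1)
    refine dtU_ge (T := R.T) (z := z) h.c0 h.frm.iso h.frm.fix h.frm.Tw h.frm.Tu h.frm.Ul hBF
      (hWB.trans hBF) (hBF hwB) huF h.jet (fun ε hε => ?_) d hd.norm hd.zero g
    obtain ⟨θ, -, h1, -, -, h2, -⟩ := h.tie ε hε
    exact ⟨θ, h1, by rwa [w_pair]⟩
  at0 j := coeff_single_dt d h.frm.U0 R.Z j
  eq Uf η hUf := by
    have hBF : B ≤ F := h.F_eq ▸ le_cadj v B (w 1)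
    exact TWRB.Dc_shU d R.U (fun j => hBF (hUf.mem j)) R.Z

/-- R4: `N^oo` exists. -/
theorem rowR4 [Infinite k] : RowR4 (k := k) p v := fun _ _ _ _ _ _ _ _ _ _ h _ hd =>
  ⟨_, ni_dt h hd⟩

/-! ### `G^oo` -/

/-- The substitution of a real difference, for admissible exponents. -/
theorem Dc_shU_adm {Q : Ex → Prop} (hA : AdmE S₀ C₀ Q) (d : Ω →ₗ[S₀] Ω) (U : Polynomial Ω)
    {V : Polynomial Ω} (hV : ∀ j, V.coeff j ∈ C₀) {f : MvPolynomial (Fin 2) Ω} (hf : QF Q f) :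
    Dc d (shU (V - U) f) = shU (V - U) (dt d U f) := by
  have e1 : shU (V - U) f = shU V (shU (-U) f) := by
    rw [shU_shU, sub_eq_add_neg]
  rw [e1, TWEC.Dc_shU hA d hV (hf.shU hA _), dt, shU_shU, sub_add_cancel]

/-- **`G^oo`**. -/
noncomputable def GU (p : ℕ) (w : Fin 2 → Ω) (x : Ω) (R : RecB k Ω) (E : Ω →ₗ[S₀] Ω) :
    MvPolynomial (Fin 2) Ω :=
  C (E x) * PP p R.κ R.t R.Z + C (algebraMap k Ω R.e) * dt E R.U R.Z +
    (dt E R.U (dsR w R.U (R.Pa - lin R.l)) +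
      C (algebraMap k Ω (R.l 1)) * Dc E (Polynomial.aeval (X 0) R.U))

section Frob

variable [hp : Fact p.Prime] [CharP Ω p]

theorem dc_lin (E : Ω →ₗ[S₀] Ω) (h1 : E 1 = 0) (l : Fin 2 → k) (U : Polynomial Ω) :
    Dc E (dsR w U (lin l)) =
      C (algebraMap k Ω (l 1)) * Dc E (Polynomial.aeval (X 0) U) := by
  rw [dsR_lin, Dc_add, Dc_C_mul (S₀.algebraMap_mem _), Dc_C_mul (S₀.algebraMap_mem _), Dc_add,
    Dc_X E h1, Dc_X E h1, mul_zero, zero_add, zero_add]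

theorem shU_poly (t : Polynomial Ω) (E : Ω →ₗ[S₀] Ω) (q : Polynomial Ω) :
    shU t (Dc E (Polynomial.aeval (X 0) q)) = Dc E (Polynomial.aeval (X 0) q) := by
  obtain ⟨q', hq'⟩ : ∃ q' : Polynomial Ω, Dc E (Polynomial.aeval (X 0) q) =
      Polynomial.aeval (X 0) q' := by
    refine ⟨∑ j ∈ Finset.range (q.natDegree + 1), Polynomial.monomial j (E (q.coeff j)), ?_⟩
    rw [Polynomial.aeval_eq_sum_range, map_sum]
    have h1 : ∀ (s : Finset ℕ) (f : ℕ → MvPolynomial (Fin 2) Ω),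
        Dc E (∑ j ∈ s, f j) = ∑ j ∈ s, Dc E (f j) := by
      intro s f
      classical
      induction s using Finset.induction_on with
      | empty =>
        rw [Finset.sum_empty, Finset.sum_empty]
        ext m
        rw [coeff_Dc' (map_zero E), coeff_zero, map_zero]
      | insert a s ha ih => rw [Finset.sum_insert ha, Finset.sum_insert ha, Dc_add, ih]
    rw [h1]
    refine Finset.sum_congr rfl fun j _ => ?_
    classical
    rw [Polynomial.aeval_monomial, algebraMap_eq]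
    ext m
    rw [coeff_Dc' (map_zero E), coeff_smul, coeff_C_mul, coeff_X_pow, smul_eq_mul]
    split_ifs
    · rw [mul_one, mul_one]
    · rw [mul_zero, mul_zero, map_zero]
  rw [hq', shU_aeval]

/-- `G_f` is a substitution of `G^oo`. -/
theorem gf_eq (h : CB p v L W B F K w x z a R) {E : Ω →ₗ[S₀] Ω} (hE : DFn p v F S₀ E)
    {η : ℝ} (hUf : Rl v B R.U Uf η) :
    Gf p w x R E Uf = shU (Uf - R.U) (GU p w x R E) +
      C (algebraMap k Ω (R.l 1)) * Dc E (Polynomial.aeval (X 0) (Uf - R.U)) := by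
  have hBF : B ≤ F := h.F_eq ▸ le_cadj v B (w 1)
  have hA : AdmE S₀ F (fun m => ∀ i, p ∣ m i) := admE_p p hE.pow
  have hUF : ∀ j, Uf.coeff j ∈ F := fun j => hBF (hUf.mem j)
  have e1 : C (algebraMap k Ω R.e) * Dc E (shU (Uf - R.U) R.Z) =
      shU (Uf - R.U) (C (algebraMap k Ω R.e) * dt E R.U R.Z) := by
    rw [map_mul, TWEC.shU_C]
    by_cases he : R.e = 0
    · rw [he, map_zero, C_0, zero_mul, zero_mul]
    · rw [Dc_shU_adm hA E R.U hUF fun g hg => by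
        by_contra h1
        exact hg (h.Zp he g h1)]
  have e2 : dsR w Uf R.Pa = dsR w Uf (R.Pa - lin R.l) + dsR w Uf (lin R.l) := by
    rw [← dsR_add, sub_add_cancel]
  have e3 : Dc E (dsR w Uf (R.Pa - lin R.l)) =
      shU (Uf - R.U) (dt E R.U (dsR w R.U (R.Pa - lin R.l))) := by
    rw [dsR_shU w R.U Uf]
    exact Dc_shU_adm hA E R.U hUF (dsR_dvd w R.U h.dvd_pb)
  have e4 : Dc E (Polynomial.aeval (X 0 : MvPolynomial (Fin 2) Ω) Uf) =
      Dc E (Polynomial.aeval (X 0) R.U) + Dc E (Polynomial.aeval (X 0) (Uf - R.U)) := by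
    rw [← Dc_add, ← map_add, add_sub_cancel]
  rw [Gf, e1, e2, Dc_add, e3, dc_lin E hE.one, e4, GU, show PP p R.κ R.t (shU (Uf - R.U) R.Z) = shU (Uf - R.U) (PP p R.κ R.t R.Z) from PP_aeval _]
  simp only [map_add, map_mul, TWEC.shU_C, shU_poly]
  ring

theorem coeff_single_poly (E : Ω →ₗ[S₀] Ω) (q : Polynomial Ω) {j : ℕ} (hj : j ≠ 0) :
    coeff (Finsupp.single 1 j) (Dc E (Polynomial.aeval (X 0) q)) = 0 := by
  rw [coeff_Dc' (map_zero E), ← coeff_ev0, ← Polynomial.aeval_algHom_apply]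
  have h1 : ev0 (X 0 : MvPolynomial (Fin 2) Ω) = 0 := by
    rw [ev0, aeval_X]
    rfl
  rw [h1, Polynomial.aeval_def, Polynomial.eval₂_at_zero, Polynomial.algebraMap_eq,
    Polynomial.coeff_C_of_ne_zero hj, map_zero]

theorem gu_at0 (h : CB p v L W B F K w x z a R) {E : Ω →ₗ[S₀] Ω} (hE : DFn p v F S₀ E) {j : ℕ}
    (hj : j ≠ 0) : coeff (Finsupp.single 1 j) (GU p w x R E) = coeff (Finsupp.single 1 j)
      (C (E x) * PP p R.κ R.t R.Z + C (algebraMap k Ω R.e) * Dc E R.Z + Dc E (dsR w 0 R.Pa)) := by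
  have e2 : dsR w 0 R.Pa = dsR w 0 (R.Pa - lin R.l) + dsR w 0 (lin R.l) := by
    rw [← dsR_add, sub_add_cancel]
  have e3 : dsR w R.U (R.Pa - lin R.l) = shU (R.U - 0) (dsR w 0 (R.Pa - lin R.l)) :=
    dsR_shU w 0 R.U _
  have hU0 : (R.U - 0).coeff 0 = 0 := by rw [sub_zero, h.frm.U0]
  rw [GU, e2, Dc_add, dc_lin E hE.one]
  simp only [coeff_add, coeff_C_mul, coeff_single_poly E _ hj, mul_zero, add_zero,
    coeff_single_dt E h.frm.U0]
  rw [e3, coeff_single_shU hU0, coeff_Dc' (map_zero E), coeff_Dc' (map_zero E)]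

/-- The tie, in the words of `LemR`. -/
theorem tie_w (h : CB p v L W B F K w x z a R) {ε : ℝ} (hε : 0 < ε) :
    ∃ θ h' : MvPolynomial (Fin 2) Ω, (∀ g, coeff g θ ∈ W) ∧ (∀ g, coeff g h' ∈ W) ∧
      (R.e ≠ 0 → ∀ g, ¬ DvE p g → coeff g θ = 0) ∧ v.Ge (-ε) (z - eval ![w 0, w 1] θ) ∧
      v.Ge (-ε) (algebraMap k Ω R.e * eval ![w 0, w 1] θ +
        x * PP p R.κ R.t (eval ![w 0, w 1] θ) + eval ![w 0, w 1] R.Pa -
        eval ![w 0, w 1] h' ^ p) := by
  obtain ⟨θ, h', h1, h2, h3, h4, h5⟩ := h.tie ε hε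
  refine ⟨θ, h', h1, h2, h3, by rwa [w_pair], ?_⟩
  rw [w_pair]
  have e1 : eval w (PP p R.κ R.t θ) = PP p R.κ R.t (eval w θ) := by
    have := PP_map (p := p) (κ := R.κ) (t := R.t)
      ((aeval w : MvPolynomial (Fin 2) Ω →ₐ[Ω] Ω).restrictScalars k) θ
    simpa [aeval_eq_eval] using this
  rw [map_sub, map_add, map_add, map_mul, map_mul, eval_C, eval_C, e1, map_pow] at h5
  exact h5

/-- **`G^oo`.** -/
theorem gi_gu [Infinite k] (h : CB p v L W B F K w x z a R) {E : Ω →ₗ[S₀] Ω}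
    (hE : DFn p v F S₀ E) (hEx : v.Ge 0 (E x)) : GI p v B w x R E (GU p w x R E) where
  ge g := by
    have hBF : B ≤ F := h.F_eq ▸ le_cadj v B (w 1)
    have hWB : W ≤ B := h.B_eq ▸ le_cadj v W (w 0)
    have hWF : W ≤ F := hWB.trans hBF
    have hwB : w 0 ∈ B := h.B_eq ▸ self_mem_cadj v W (w 0)
    have huF : w 1 ∈ F := h.F_eq ▸ self_mem_cadj v B (w 1)
    have hp1 : (1 : ℝ) ≤ p ^ (R.t + 1) := by
      have h1 : (1 : ℝ) ≤ p := by exact_mod_cast hp.out.one_lt.le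
      exact one_le_pow₀ h1
    refine ge_of_near h.c0 (fun ε hε => ?_) g
    have hε' : 0 < ε / p ^ (R.t + 1) := div_pos hε (by linarith)
    have hle : ε / p ^ (R.t + 1) ≤ ε := div_le_self hε.le hp1
    obtain ⟨θ, h', hθ, hh, -, -, h3, f, hf, hfe, hfn, h1, h2⟩ := exists_lemR (T := R.T) (z := z)
      (U := R.U) (Z := R.Z) (A := B) (x := x) (Q := fun _ => True) (e := R.e) (κ := R.κ)
      (t := R.t) h.c0 h.frm.iso h.frm.fix h.frm.Tw h.frm.Tu h.frm.Ul h.jet h.xW h.PaW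
      (fun ε hε => by
        obtain ⟨θ, h', h1, h2, -, h4, h5⟩ := tie_w h hε
        exact ⟨θ, h', h1, h2, trivial, h4, h5⟩) hε'
    have hRl : Rl v B R.U f (ε / p ^ (R.t + 1)) := ⟨hf, hfe, hfn⟩
    refine ⟨f - R.U, fun j => (hfn j).mono (by linarith), fun g => ?_⟩
    have h5 := gamf_ge (e := R.e) (κ := R.κ) (t := R.t) (U := R.U) (Z := R.Z) h.c0 (hBF hwB) huF
      hE.pow E hE.norm hE.one hEx (fun j => hBF (hf j)) hε' (fun g => hWF (hθ g))
      (fun g => hWF (hh g)) h1 h2 h3 g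
    have h6 := gf_eq h hE hRl
    rw [Gf, dsR_eq] at h6
    rw [h6, coeff_add, mul_div_cancel₀ _ (by linarith : ((p : ℝ) ^ (R.t + 1)) ≠ 0)] at h5
    have h7 : v.Ge (-ε) (coeff g (C (algebraMap k Ω (R.l 1)) *
        Dc E (Polynomial.aeval (X 0) (f - R.U)))) := by
      rw [coeff_C_mul, coeff_Dc' (map_zero E)]
      have h8 : v.Ge (-ε) (coeff g (Polynomial.aeval (X 0 : MvPolynomial (Fin 2) Ω)
          (f - R.U))) := by
        classical
        rw [Polynomial.aeval_eq_sum_range, coeff_sum]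
        refine RVal.Ge.sum _ _ fun j _ => ?_
        rw [coeff_smul, coeff_X_pow, smul_eq_mul]
        split_ifs
        · rw [mul_one]
          exact (hfn j).mono (by linarith)
        · rw [mul_zero]
          exact RVal.Ge.zero
      have h9 := (h.c0.ge (R.l 1)).mul (hE.norm _ _ h8)
      rwa [zero_add] at h9
    have h8 := h5.sub h7
    rwa [add_sub_cancel_right] at h8
  at0 j hj := gu_at0 h hE hj
  eq Uf η hUf := gf_eq h hE hUf

/-- R4': `G^oo` exists. -/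
theorem rowR4' [Infinite k] : RowR4' (k := k) p v := fun _ _ _ _ _ _ _ _ _ _ h _ _ hE hEx =>
  ⟨_, gi_gu h hE hEx⟩

/-- `G^oo` is unique. -/
theorem GI.uniq [Infinite k] (h : CB p v L W B F K w x z a R) {E : Ω →ₗ[S₀] Ω}
    {G G' : MvPolynomial (Fin 2) Ω} (hG : GI p v B w x R E G) (hG' : GI p v B w x R E G') :
    G = G' := by
  obtain ⟨f, h1, h2, h3⟩ := exists_real (A := B) R.U h.frm.Ul one_pos
  have e1 := (hG.eq f 1 ⟨h1, h2, h3⟩).symm.trans (hG'.eq f 1 ⟨h1, h2, h3⟩)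
  have e2 := add_right_cancel e1
  have e3 := congrArg (shU (-(f - R.U))) e2
  rwa [shU_neg_shU, shU_neg_shU] at e3

omit hp [CharP Ω p] in
/-- `N^oo` is unique. -/
theorem NI.uniq (h : CB p v L W B F K w x z a R) {d : Ω →ₗ[F] Ω}
    {N N' : MvPolynomial (Fin 2) Ω} (hN : NI v B F R d N) (hN' : NI v B F R d N') : N = N' := by
  obtain ⟨f, h1, h2, h3⟩ := exists_real (A := B) R.U h.frm.Ul one_pos
  have e1 := (hN.eq f 1 ⟨h1, h2, h3⟩).symm.trans (hN'.eq f 1 ⟨h1, h2, h3⟩)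
  have e3 := congrArg (shU (-(f - R.U))) e1
  rwa [shU_neg_shU, shU_neg_shU] at e3

end Frob

end Pool.Agent.TWRB
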