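import Pool.Agent.Lib.TWEC.Tw

/-!
# RowB, R5: the relations without the real `f`

* `ge_of_near`: the passage to the limit;
* `astar_oo`: the relation `(a*)`, exactly: `(d^U Z)(L) + d^(τU) ζ` is in `O_0`, coefficientwise.
-/

set_option autoImplicit false

open MvPolynomial

namespace Pool.Agent.TWRB

open Pool.Agent.H15JM (RVal)
open Pool.Agent.D2 (Ctx0)
open Pool.Agent.TWM
open Pool.Agent.TWS (IsoE SphC)
open Pool.Agent.TWLY
open Pool.Agent.TWPL (ptk)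
open Pool.Agent.TWCY
open Pool.Agent.TWCU
open Pool.Agent.TWEC

universe u

variable {k Ω : Type u} [Field k] [Field Ω] [Algebra k Ω] {v : RVal Ω}
  {S₀ W C₀ F : IntermediateField k Ω}

/-! ## the passage to the limit -/

theorem degreeOf_shU (t : Polynomial Ω) {E : MvPolynomial (Fin 2) Ω} {N : ℕ}
    (hN : ∀ m ∈ E.support, m 1 ≤ N) : ∀ m ∈ (shU t E).support, m 1 ≤ N := by
  have h3 : degreeOf 1 (shU t E) ≤ N := by
    rw [E.as_sum, map_sum]
    refine (degreeOf_sum_le _ _ _).trans (Finset.sup_le fun m hm => ?_)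
    rw [shU, aeval_monomial, Finsupp.prod_fintype _ _ (by simp), Fin.prod_univ_two,
      algebraMap_eq]
    have h4 : degreeOf 1 (X 1 + Polynomial.aeval (X 0 : MvPolynomial (Fin 2) Ω) t) ≤ 1 := by
      refine (degreeOf_add_le _ _ _).trans (max_le ?_ ?_)
      · rw [degreeOf_X]
        split_ifs
        exacts [le_rfl, zero_le_one]
      · rw [Polynomial.aeval_eq_sum_range]
        refine (degreeOf_sum_le _ _ _).trans (Finset.sup_le fun j _ => ?_)
        rw [smul_eq_C_mul]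
        refine (degreeOf_C_mul_le _ _ _).trans ((degreeOf_pow_le _ _ _).trans ?_)
        rw [degreeOf_X_of_ne (by decide)]
        simp
    refine (degreeOf_C_mul_le _ _ _).trans ((degreeOf_mul_le _ _ _).trans ?_)
    have h5 := degreeOf_pow_le (1 : Fin 2) (X 0 : MvPolynomial (Fin 2) Ω) (m 0)
    rw [degreeOf_X_of_ne (by decide), mul_zero] at h5
    have h6 := degreeOf_pow_le (1 : Fin 2)
      (X 1 + Polynomial.aeval (X 0 : MvPolynomial (Fin 2) Ω) t) (m 1)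
    have h7 := Nat.mul_le_mul_left (m 1) h4
    have h8 := hN m hm
    have h9 : degreeOf 1 ((X 0 : MvPolynomial (Fin 2) Ω) ^ m 0) +
        degreeOf 1 ((X 1 + Polynomial.aeval (X 0 : MvPolynomial (Fin 2) Ω) t) ^ m 1) ≤ N := by
      omega
    exact h9
  exact fun m hm => (degreeOf_le_iff.1 h3) m hm

/-- **The passage to the limit.** -/
theorem ge_of_near (hk : Ctx0 k v) {E : MvPolynomial (Fin 2) Ω}
    (h : ∀ ε : ℝ, 0 < ε → ∃ t : Polynomial Ω, (∀ j, v.Ge (-ε) (t.coeff j)) ∧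
      ∀ g, v.Ge (-ε) (coeff g (shU t E))) (g : Ex) : v.Ge 0 (coeff g E) := by
  obtain ⟨N, hN⟩ := exists_deg E
  have hN1 : (0 : ℝ) < N + 1 := by positivity
  refine ge_zero_of_eps' hN1 fun ε hε => ?_
  obtain ⟨t, ht, h1⟩ := h ε hε
  have h3 := ge_sbU hk hε.le (δ := -t) (fun j => by
    rw [Polynomial.coeff_neg]
    exact (ht j).neg) h1 (degreeOf_shU t hN) g
  rw [sbU_eq, shU_neg_shU] at h3
  exact h3.mono (by nlinarith)

/-! ## (a*) -/

variable {w u z x y Za : Ω} {T : (Fin 2 → k) → Ω →ₐ[k] Ω} {U : Polynomial Ω}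
  {Z : MvPolynomial (Fin 2) Ω} {τ : Ω →ₐ[k] Ω}

/-- **(a*)**, exactly. -/
theorem astar_oo [Infinite k] (hk : Ctx0 k v) (iso : ∀ c, IsoE v v (T c))
    (fix : ∀ c, ∀ f ∈ W, T c f = f) (hw : ∀ c, T c w = w + algebraMap k Ω (c 0))
    (hu : ∀ c, T c u = u + U.eval (algebraMap k Ω (c 0)) + algebraMap k Ω (c 1))
    (hU : ∀ j, Lim v C₀ 0 (U.coeff j)) (hCF : C₀ ≤ F) (hWF : W ≤ F) (hwF : w ∈ F) (huF : u ∈ F)
    (hZ : ∀ c, v.Ge 0 (T c z - z - eval (ptk Ω c) Z))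
    (hz : ∀ ε : ℝ, 0 < ε → ∃ θ : MvPolynomial (Fin 2) Ω, (∀ g, coeff g θ ∈ W) ∧
      v.Ge (-ε) (z - eval ![w, u] θ))
    (hτ : IsoE v v τ) (hτC : ∀ f ∈ C₀, τ f ∈ C₀) (hτF : ∀ f ∈ F, τ f ∈ F) (hx : x ∈ C₀)
    (hy : y ∈ C₀) (hZa : Za ∈ F) (d : Ω →ₗ[F] Ω)
    (hd : ∀ (y : Ω) (c : ℝ), v.Ge c y → v.Ge c (d y)) (hdF : ∀ f ∈ F, d f = 0) (g : Ex) :
    v.Ge 0 (coeff g (aeval (Lp x (psi τ x y U)) (dt d U Z) +
      dt d (U.map (τ : Ω →+* Ω)) (zet τ (Lp x (psi τ x y U)) Za Z))) := by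
  have hA : AdmE F C₀ (fun _ => True) := admE_all hCF
  have htr : ∀ P : MvPolynomial (Fin 2) Ω, QF (fun _ => True) P := fun P _ _ => trivial
  rw [← dt_aeval hA d hx hy τ U (htr Z), ← dt_add]
  have e1 : aeval (Lp x (psi τ x y U)) Z + zet τ (Lp x (psi τ x y U)) Za Z =
      C Za + MvPolynomial.map (τ : Ω →+* Ω) Z := by
    unfold zet
    ring
  rw [e1]
  have hτU : ∀ j, Lim v C₀ 0 ((U.map (τ : Ω →+* Ω)).coeff j) := by
    intro j ε hε
    obtain ⟨a, ha, h1⟩ := hU j ε hε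
    refine ⟨τ a, hτC a ha, ?_⟩
    rw [Polynomial.coeff_map]
    have h2 : (τ : Ω →+* Ω) (U.coeff j) - τ a = τ (U.coeff j - a) := by
      rw [map_sub]
      rfl
    rw [h2]
    exact hτ.ge_iff.2 h1
  refine dt_near d hk hA hd hτU (htr _) (fun ε hε => ?_) g
  obtain ⟨θ, hθ, h1⟩ := hz ε hε
  have h2 := ge_trf hk iso fix hw hu hZ hε.le hθ h1
  refine ⟨C Za + (MvPolynomial.map (τ : Ω →+* Ω) (trf w u 0 θ) - C (τ (eval ![w, u] θ))),
    htr _, fun m => ?_, fun m => ?_⟩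
  · refine hdF _ ?_
    have hθF : eval ![w, u] θ ∈ F := by
      rw [eval_eq']
      refine sum_mem fun m _ => mul_mem (hWF (hθ m)) (prod_mem fun i _ => pow_mem ?_ _)
      fin_cases i
      exacts [hwF, huF]
    refine mem_PF.1 (add_mem (C_mem_PF hZa) (sub_mem (fun m => ?_)
      (C_mem_PF (hτF _ hθF)))) m
    rw [coeff_map]
    refine hτF _ (trf_mem hwF huF (fun j => ?_) (fun g => hWF (hθ g)) m)
    rw [Polynomial.coeff_zero]
    exact zero_mem _
  · have e2 : C Za + MvPolynomial.map (τ : Ω →+* Ω) Z - shU (U.map (τ : Ω →+* Ω))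
        (C Za + (MvPolynomial.map (τ : Ω →+* Ω) (trf w u 0 θ) - C (τ (eval ![w, u] θ)))) =
        MvPolynomial.map (τ : Ω →+* Ω) (Z - (trf w u U θ - C (eval ![w, u] θ))) := by
      have e3 : trf w u U θ = shU U (trf w u 0 θ) := by
        rw [← sbU_eq, sbU_trf, zero_add]
      rw [e3, map_sub, map_sub, map_shU, map_add, map_sub, TWEC.shU_C, TWEC.shU_C, map_C]
      change _ = MvPolynomial.map (τ : Ω →+* Ω) Z -
        (_ - C (τ (eval ![w, u] θ)))
      ring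
    rw [e2, coeff_map, zero_sub]
    exact hτ.ge_iff.2 (h2 m)

end Pool.Agent.TWRB
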