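import Pool.Agent.Lib.TWCT.ConS
import Pool.Agent.Lib.TWFN.B
import Pool.Agent.Lib.TWLG76.Drop
import Pool.Agent.Lib.TWCY.Rs

/-!
# RowB, R7, case (2a)

`C = W⟨w⟩`, the coefficients of `U` are limits of `C` up to `0`, and one of them is not in `C + O_0`.
`Ψ = Y + (τ U) - U (X + s)` is the second coordinate of the position of a motion `τ`, `X, Y ∈ C`.
* `exists_dU`: a `C`-linear functional `d` of norm `≤ 0`, `d C = 0`, with `d (U_l) = 1` for the largest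
  such index `l`;
* `exists_lt`: **the second coordinate is visible if the first one is**: `l |X| < |Ψ_0|` in all
  coordinates `Sh X f`, `f` over `k`;
* `exists_period`: **the residual positions have finitely many residues**.
-/

set_option autoImplicit false

open Polynomial

namespace Pool.Agent.TWRB

open Pool.Agent.H15JM (RVal)
open Pool.Agent.LU1 (VPos)
open Pool.Agent.D2 (Ctx0)
open Pool.Agent.TWM
open Pool.Agent.TWS (IsoE SphC)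
open Pool.Agent.TWFN (AOp Fnl Strct exists_fnl ge_of_lim)
open Pool.Agent.TWCY (Rs exists_rs0)
open Pool.Agent.TWLG76 (Sh Sh_coeff)

universe u

variable {k Ω : Type u} [Field k] [Field Ω] [Algebra k Ω] {v : RVal Ω}
  {C₁ : IntermediateField k Ω} {U : Polynomial Ω} {d : Ω → Ω} {X Y : Ω} {τ : Ω →ₐ[k] Ω}

/-- **The functional.** -/
theorem exists_dU (hsp : SphC v) (imm : ∀ y : Ω, y ≠ 0 → ∃ a ∈ C₁, Gt v (v y) (y - a))
    (hU0 : U.coeff 0 = 0) (hU : ∀ j, Lim v C₁ 0 (U.coeff j))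
    (h2a : ∃ l, ¬ Nr v C₁ 0 (U.coeff l)) :
    ∃ (d : Ω → Ω) (l : ℕ), 1 ≤ l ∧ Fnl v C₁ C₁ d ∧ d (U.coeff l) = 1 ∧
      (∀ m, l < m → Gt v 0 (d (U.coeff m))) ∧ (∀ m, v.Ge 0 (d (U.coeff m))) ∧
      ∀ m, l < m → Nr v C₁ 0 (U.coeff m) := by
  classical
  have hNr0 : Nr v C₁ 0 (0 : Ω) := ⟨0, zero_mem _, by rw [sub_zero]; exact RVal.Ge.zero⟩
  set S := U.support.filter (fun l => ¬ Nr v C₁ 0 (U.coeff l)) with hS
  have hmem : ∀ l, l ∈ S ↔ ¬ Nr v C₁ 0 (U.coeff l) := by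
    intro l
    rw [hS, Finset.mem_filter]
    refine ⟨fun h => h.2, fun h => ⟨?_, h⟩⟩
    rw [mem_support_iff]
    intro h0
    rw [h0] at h
    exact h hNr0
  have hne : S.Nonempty := by
    obtain ⟨l, hl⟩ := h2a
    exact ⟨l, (hmem l).2 hl⟩
  obtain ⟨l, hlS, hmax⟩ := S.exists_max_image (fun l => l) hne
  have hl := (hmem l).1 hlS
  obtain ⟨d, hd, hd1⟩ := exists_fnl hsp le_rfl hl
  have hst := hd.strict imm
  have hNr : ∀ m, l < m → Nr v C₁ 0 (U.coeff m) := by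
    intro m hm
    by_contra h
    exact absurd (hmax m ((hmem m).2 h)) (not_le.2 hm)
  refine ⟨d, l, ?_, hd, hd1, fun m hm => ?_, fun m => ge_of_lim (hU m) hd, hNr⟩
  · rcases Nat.eq_zero_or_pos l with h0 | h0
    · exfalso
      rw [h0, hU0] at hl
      exact hl hNr0
    · exact h0
  · obtain ⟨a, ha, h2⟩ := hNr m hm
    have h3 := hd.toAOp.strict_ge hst h2
    rwa [hd.sub, hd.van a ha, sub_zero] at h3

/-- `d (U (X)) = (d U) (X)`. -/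
theorem d_eval (hd : AOp v C₁ d) (hX : X ∈ C₁) :
    d (U.eval X) = ∑ j ∈ U.support, X ^ j * d (U.coeff j) := by
  rw [eval_eq_sum, Polynomial.sum, hd.sum]
  refine Finset.sum_congr rfl fun j _ => ?_
  rw [mul_comm, hd.lin _ (pow_mem hX j)]

/-- A margin for finitely many coefficients. -/
theorem exists_mrg (S : Finset ℕ) {a : ℕ → Ω} (h : ∀ j ∈ S, Gt v 0 (a j)) :
    ∃ m : ℝ, 0 < m ∧ ∀ j ∈ S, v.Ge m (a j) := by
  classical
  induction S using Finset.induction_on with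
  | empty => exact ⟨1, one_pos, fun j hj => absurd hj (Finset.notMem_empty j)⟩
  | insert i S hi ih =>
    obtain ⟨m, hm, h1⟩ := ih fun j hj => h j (Finset.mem_insert_of_mem hj)
    by_cases h0 : a i = 0
    · refine ⟨m, hm, fun j hj => ?_⟩
      rcases Finset.mem_insert.1 hj with rfl | hj
      · rw [h0]; exact RVal.Ge.zero
      · exact h1 j hj
    · have h2 := h i (Finset.mem_insert_self _ _) h0
      refine ⟨min m (v (a i)), lt_min hm h2, fun j hj => ?_⟩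
      rcases Finset.mem_insert.1 hj with rfl | hj
      · exact fun _ => min_le_right _ _
      · exact (h1 j hj).mono (min_le_left _ _)

/-- **The size of `d (U (X))`**, for a small visible `X`. -/
theorem exists_size {l : ℕ} (hd : AOp v C₁ d) (h1 : d (U.coeff l) = 1)
    (hgt : ∀ m, l < m → Gt v 0 (d (U.coeff m))) (hge : ∀ m, v.Ge 0 (d (U.coeff m))) :
    ∃ ε₀ : ℝ, 0 < ε₀ ∧ ∀ X ∈ C₁, X ≠ 0 → v X < 0 → -ε₀ ≤ v X →
      d (U.eval X) ≠ 0 ∧ v (d (U.eval X)) = l * v X := by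
  classical
  obtain ⟨m, hm, hmar⟩ := exists_mrg (v := v) (U.support.filter fun j => l < j)
    (a := fun j => d (U.coeff j)) fun j hj => hgt j (Finset.mem_filter.1 hj).2
  refine ⟨m / (2 * (U.natDegree + 1)), by positivity, fun X hX hX0 hv hvε => ?_⟩
  have hl : l ∈ U.support := by
    rw [mem_support_iff]
    intro h0
    rw [h0, hd.zero] at h1
    exact zero_ne_one h1
  have hXl : v (X ^ l) = l * v X := v.map_pow hX0 l
  rw [d_eval hd hX, ← Finset.add_sum_erase _ _ hl, h1, mul_one]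
  have h2 : Gt v (v (X ^ l)) (∑ j ∈ U.support.erase l, X ^ j * d (U.coeff j)) := by
    rw [hXl]
    refine Gt.sum _ _ fun j hj => ?_
    obtain ⟨hjl, hjU⟩ := Finset.mem_erase.1 hj
    have hXj : v.Ge (j * v X) (X ^ j) := fun h => (v.map_pow hX0 j).ge
    rcases lt_or_gt_of_ne hjl with h3 | h3
    · refine Gt.of_ge (hXj.mul (hge j)) ?_
      have : (j : ℝ) < l := by exact_mod_cast h3
      nlinarith
    · refine Gt.of_ge (hXj.mul (hmar j (Finset.mem_filter.2 ⟨hjU, h3⟩))) ?_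
      have hj1 : (j : ℝ) ≤ U.natDegree := by exact_mod_cast le_natDegree_of_mem_supp j hjU
      have hl0 : (0 : ℝ) ≤ l := Nat.cast_nonneg l
      have hj0 : (0 : ℝ) ≤ j := Nat.cast_nonneg j
      have h4 : (j : ℝ) * (m / (2 * (U.natDegree + 1))) < m := by
        rw [mul_div_assoc', div_lt_iff₀ (by positivity)]
        nlinarith
      have h5 : (j : ℝ) * (-(m / (2 * (U.natDegree + 1)))) ≤ j * v X :=
        mul_le_mul_of_nonneg_left hvε hj0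
      nlinarith
  have hXl0 : X ^ l ≠ 0 := pow_ne_zero l hX0
  have h3 : Gt v (v (X ^ l)) (X ^ l - (X ^ l + ∑ j ∈ U.support.erase l, X ^ j * d (U.coeff j))) := by
    rw [sub_add_cancel_left]
    exact h2.neg
  have h4 := Gt.val_eq hXl0 h3
  rw [hXl] at h4
  exact h4

/-! ### The position -/

/-- The second coordinate of the position. -/
noncomputable def PsiA (τ : Ω →ₐ[k] Ω) (X Y : Ω) (U : Polynomial Ω) : Polynomial Ω :=
  C Y + U.map (τ : Ω →+* Ω) - U.comp (Polynomial.X + C X)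

theorem PsiA_coeff (τ : Ω →ₐ[k] Ω) (X Y : Ω) (U : Polynomial Ω) (j : ℕ) :
    (PsiA τ X Y U).coeff j =
      (C Y).coeff j + τ (U.coeff j) - (taylor X U).coeff j := by
  rw [PsiA, coeff_sub, coeff_add, coeff_map]
  rfl

theorem PsiA_coeff_zero (τ : Ω →ₐ[k] Ω) (X Y : Ω) (hU0 : U.coeff 0 = 0) :
    (PsiA τ X Y U).coeff 0 = Y - U.eval X := by
  rw [PsiA_coeff, coeff_C_zero, hU0, map_zero, add_zero, taylor_coeff_zero]

theorem aeval_mem' {L : IntermediateField k Ω} {c : Ω} (hc : c ∈ L) (P : k[X]) :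
    aeval c P ∈ L := by
  rw [aeval_eq_sum_range]
  exact sum_mem fun i _ => L.smul_mem (pow_mem hc i)

/-- `d` does not see the changes of coordinates. -/
theorem d_Sh (hd : Fnl v C₁ C₁ d) (hX : X ∈ C₁) (f : k[X]) (P : Polynomial Ω) (j : ℕ) :
    d ((Sh X f P).coeff j) = d (P.coeff j) := by
  rw [Sh_coeff, hd.add, hd.van _ (aeval_mem' hX _), add_zero]

/-- **The second coordinate is visible if the first one is.** -/
theorem exists_lt' (hsp : SphC v) (imm : ∀ y : Ω, y ≠ 0 → ∃ a ∈ C₁, Gt v (v y) (y - a))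
    (hU0 : U.coeff 0 = 0) (hU : ∀ j, Lim v C₁ 0 (U.coeff j))
    (h2a : ∃ l, ¬ Nr v C₁ 0 (U.coeff l)) :
    ∃ (l : ℕ) (ε₀ : ℝ), 1 ≤ l ∧ 0 < ε₀ ∧ (∀ m, l < m → Nr v C₁ 0 (U.coeff m)) ∧
      ∀ (τ : Ω →ₐ[k] Ω) (X Y : Ω), X ∈ C₁ → Y ∈ C₁ → X ≠ 0 → v X < 0 → -ε₀ ≤ v X →
        ∀ f : k[X], (Sh X f (PsiA τ X Y U)).coeff 0 ≠ 0 ∧
          v ((Sh X f (PsiA τ X Y U)).coeff 0) < l * v X := by
  obtain ⟨d, l, hl, hd, h1, h2, h3, hNr⟩ := exists_dU hsp imm hU0 hU h2a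
  obtain ⟨ε₀, hε, h4⟩ := exists_size hd.toAOp h1 h2 h3
  refine ⟨l, ε₀, hl, hε, hNr, fun τ X Y hX hY hX0 hv hvε f => ?_⟩
  obtain ⟨h5, h6⟩ := h4 X hX hX0 hv hvε
  have h7 : d ((Sh X f (PsiA τ X Y U)).coeff 0) = -d (U.eval X) := by
    rw [d_Sh hd hX, PsiA_coeff_zero τ X Y hU0, hd.sub, hd.van _ hY, zero_sub]
  have h8 : (Sh X f (PsiA τ X Y U)).coeff 0 ≠ 0 := by
    intro h
    rw [h, hd.zero] at h7
    exact h5 (neg_eq_zero.1 h7.symm)
  refine ⟨h8, ?_⟩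
  have h9 := hd.strict imm _ h8
  rw [h7] at h9
  have h10 := h9 (neg_ne_zero.2 h5)
  rwa [v.map_neg _ h5, h6] at h10

theorem exists_lt (hsp : SphC v) (imm : ∀ y : Ω, y ≠ 0 → ∃ a ∈ C₁, Gt v (v y) (y - a))
    (hU0 : U.coeff 0 = 0) (hU : ∀ j, Lim v C₁ 0 (U.coeff j))
    (h2a : ∃ l, ¬ Nr v C₁ 0 (U.coeff l)) :
    ∃ (l : ℕ) (ε₀ : ℝ), 1 ≤ l ∧ 0 < ε₀ ∧
      ∀ (τ : Ω →ₐ[k] Ω) (X Y : Ω), X ∈ C₁ → Y ∈ C₁ → X ≠ 0 → v X < 0 → -ε₀ ≤ v X →
        ∀ f : k[X], (Sh X f (PsiA τ X Y U)).coeff 0 ≠ 0 ∧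
          v ((Sh X f (PsiA τ X Y U)).coeff 0) < l * v X := by
  obtain ⟨l, ε₀, hl, hε, -, h⟩ := exists_lt' hsp imm hU0 hU h2a
  exact ⟨l, ε₀, hl, hε, h⟩

/-- **No light coordinates**: `l w₀ < w₁`. -/
theorem lt_of_ge {l : ℕ} {w₀ w₁ : ℝ} (hw1 : 0 ≤ w₁) {P : Polynomial Ω} {X : Ω} {f : k[X]}
    (hX : v X = -w₀) (h0 : (Sh X f P).coeff 0 ≠ 0) (hlt : v ((Sh X f P).coeff 0) < l * v X)
    (h : ∀ j : ℕ, v.Ge (min 0 (-(w₁ - j * w₀))) ((Sh X f P).coeff j)) : l * w₀ < w₁ := by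
  have h1 := h 0 h0
  rw [Nat.cast_zero, zero_mul, sub_zero, min_eq_right (by linarith)] at h1
  rw [hX] at hlt
  linarith

/-! ### The residual positions -/

/-- **The residual positions have finitely many residues.** -/
theorem exists_period (hk : Ctx0 k v) (hsp : SphC v)
    (imm : ∀ y : Ω, y ≠ 0 → ∃ a ∈ C₁, Gt v (v y) (y - a))
    (hU0 : U.coeff 0 = 0) (hU : ∀ j, Lim v C₁ 0 (U.coeff j))
    (h2a : ∃ l, ¬ Nr v C₁ 0 (U.coeff l)) :
    ∃ R : Finset k, ∀ (τ : Ω →ₐ[k] Ω) (X Y : Ω), X ∈ C₁ → Y ∈ C₁ →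
      ∀ f : k[X], v.Ge 0 ((Sh X f (PsiA τ X Y U)).coeff 0) → ∀ c : k, Rs v X c → c ∈ R := by
  classical
  obtain ⟨d, l, hl, hd, h1, h2, h3, -⟩ := exists_dU hsp imm hU0 hU h2a
  have hst := hd.strict imm
  choose a ha using fun j => exists_rs0 hk (h3 j)
  obtain ⟨ν, hν⟩ : ∃ ν : k[X], ν = ∑ j ∈ U.support, C (a j) * Polynomial.X ^ j := ⟨_, rfl⟩
  have hlU : l ∈ U.support := by
    rw [mem_support_iff]
    intro h0
    rw [h0, hd.zero] at h1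
    exact zero_ne_one h1
  have hνl : ν.coeff l = 1 := by
    rw [hν, finsetSum_coeff]
    simp_rw [coeff_C_mul_X_pow]
    rw [Finset.sum_ite_eq, if_pos hlU]
    have h4 := ha l
    rw [h1] at h4
    exact Rs.unique hk h4 Rs.one
  have hne : ν ≠ 0 := by
    intro h
    rw [h, coeff_zero] at hνl
    exact zero_ne_one hνl
  refine ⟨ν.roots.toFinset, fun τ X Y hX hY f hps c hc => ?_⟩
  rw [Multiset.mem_toFinset, mem_roots hne, IsRoot.def]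
  have h7 : d ((Sh X f (PsiA τ X Y U)).coeff 0) = -d (U.eval X) := by
    rw [d_Sh hd hX, PsiA_coeff_zero τ X Y hU0, hd.sub, hd.van _ hY, zero_sub]
  have h8 := (hd.toAOp.strict_ge hst hps).neg
  rw [h7, neg_neg] at h8
  have h9 : Rs v (d (U.eval X)) (ν.eval c) := by
    rw [d_eval hd.toAOp hX, hν, eval_finsetSum]
    refine Rs.sum _ fun j _ => ?_
    rw [eval_mul, eval_C, eval_pow, eval_X, mul_comm]
    exact (ha j).mul hk (hc.pow hk j)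
  exact Rs.unique hk h9 (TWCY.rs_zero_iff.2 h8)

/-- **R7, case (2a)**: good coordinates, and `l w₀ < w₁`. -/
theorem exists_good_2a (p : ℕ) [hp : Fact p.Prime] [CharP k p] [CharP Ω p] [IsAlgClosed k]
    (hk : Ctx0 k v) (hsp : SphC v) (imm : ∀ y : Ω, y ≠ 0 → ∃ a ∈ C₁, Gt v (v y) (y - a))
    (hU0 : U.coeff 0 = 0) (hU : ∀ j, Lim v C₁ 0 (U.coeff j))
    (h2a : ∃ l, ¬ Nr v C₁ 0 (U.coeff l)) :
    ∃ (l : ℕ) (ε₀ : ℝ) (R : Finset k), 1 ≤ l ∧ 0 < ε₀ ∧ (∀ m, l < m → Nr v C₁ 0 (U.coeff m)) ∧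
      ∀ (τ : Ω →ₐ[k] Ω) (X Y : Ω) (w₀ : ℝ), X ∈ C₁ → Y ∈ C₁ → 0 ≤ w₀ → w₀ ≤ ε₀ →
        (0 < w₀ → X ≠ 0 ∧ v X = -w₀) → (w₀ = 0 → ∃ c, c ∉ R ∧ Rs v X c) →
        ∃ (f : k[X]) (w₁ : ℝ), f.coeff 0 = 0 ∧ w₀ ≤ w₁ ∧ 0 < w₁ ∧ l * w₀ < w₁ ∧
          (∀ j : ℕ, v.Ge (min 0 (-(w₁ - j * w₀))) ((Sh X f (PsiA τ X Y U)).coeff j)) ∧
          (∃ j : ℕ, j * w₀ < w₁ ∧ (Sh X f (PsiA τ X Y U)).coeff j ≠ 0 ∧
            v ((Sh X f (PsiA τ X Y U)).coeff j) = -(w₁ - j * w₀)) ∧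
          TWLG64.Siz v ![w₀, w₁] ![X, 0] (TWLG76.Tr w₀ w₁ (Sh X f (PsiA τ X Y U))) ∧
          TWLG64.Dns k v ![w₀, w₁] ![X, 0] (TWLG76.Tr w₀ w₁ (Sh X f (PsiA τ X Y U))) := by
  obtain ⟨l, ε₀, hl, hε, hNr, h1⟩ := exists_lt' hsp imm hU0 hU h2a
  obtain ⟨R, hR⟩ := exists_period hk hsp imm hU0 hU h2a
  refine ⟨l, ε₀, R, hl, hε, hNr, fun τ X Y w₀ hX hY hw0 hwε hpos hzero => ?_⟩
  obtain ⟨f, w₁, h2, h3, h4, h5⟩ := TWLG76.exists_trunc' p hk hw0 hpos (fun h => by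
    obtain ⟨c, -, hc⟩ := hzero h
    exact hc.ge hk) (PsiA τ X Y U)
  have hl1 : (1 : ℝ) ≤ l := by exact_mod_cast hl
  have hlt : l * w₀ < w₁ := by
    rcases hw0.eq_or_lt with h0 | h0
    · rw [← h0, mul_zero]
      refine lt_of_le_of_ne h3 fun h6 => ?_
      obtain ⟨c, hcR, hc⟩ := hzero h0.symm
      refine hcR (hR τ X Y hX hY f ?_ c hc)
      have h7 := h4 0
      rwa [← h6, ← h0, mul_zero, sub_zero, neg_zero, min_self] at h7
    · obtain ⟨hX0, hv⟩ := hpos h0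
      obtain ⟨h6, h7⟩ := h1 τ X Y hX hY hX0 (by rw [hv]; linarith) (by rw [hv]; linarith) f
      exact lt_of_ge h3 hv h6 h7 h4
  rcases h5 with h5 | ⟨h5, h6⟩ | ⟨h5, h6, h7, h8, h9⟩
  · exfalso
    nlinarith
  · rw [h5, h6, mul_zero] at hlt
    exact absurd hlt (lt_irrefl _)
  · exact ⟨f, w₁, h2, h5, h6, hlt, h4, h7, h8, h9⟩

/-! ### The inputs -/

/-- `Ω` is immediate over a field with all values. -/
theorem imm_full (hk : Ctx0 k v) {W : IntermediateField k Ω} (hW : W ≤ C₁)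
    (full : ∀ r : ℝ, ∃ y ∈ W, y ≠ 0 ∧ v y = r) (y : Ω) (_ : y ≠ 0) :
    ∃ a ∈ C₁, Gt v (v y) (y - a) := by
  obtain ⟨b, hb, hb0, hbv⟩ := full (v y)
  have h1 : v.Ge 0 (y / b) := fun h => by
    have h2 : y / b * b = y := div_mul_cancel₀ y hb0
    have h3 := v.map_mul h hb0
    rw [h2, hbv] at h3
    linarith
  obtain ⟨c, hc⟩ := hk.residue h1
  refine ⟨algebraMap k Ω c * b, mul_mem (C₁.algebraMap_mem c) (hW hb), ?_⟩
  have e : y - algebraMap k Ω c * b = (y / b - algebraMap k Ω c) * b := by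
    field_simp
  rw [e]
  have h2 : Gt v 0 (y / b - algebraMap k Ω c) := hc
  have h3 := Gt.mul_ge h2 (RVal.ge_self (v := v) b)
  rwa [zero_add, hbv] at h3

/-- **The motions of the first floor.** -/
theorem exists_mot (hk : Ctx0 k v) {L : ℕ → IntermediateField k Ω} {W : IntermediateField k Ω}
    {w : Ω} (h : TWCT.MovV v L W w 0 ∨ TWCT.MovR v L W w 0) (J : ℕ) {ε : ℝ} (hε : 0 < ε)
    (R : Finset k) :
    ∃ (Φ : Ω →ₐ[k] Ω) (η : ℝ) (X : Ω) (w₀ : ℝ), TWCT.SMo v (L J) W Φ η ∧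
      TWCT.SMo v (L J) (cadj v W w) Φ η ∧ Φ w = w + X ∧ X ∈ W ∧ X ≠ 0 ∧ v X = -w₀ ∧ 0 ≤ w₀ ∧
      w₀ < ε ∧ (w₀ = 0 → ∃ c, c ∉ R ∧ Rs v X c) := by
  classical
  rcases h with h | ⟨t, ht, ht0, hvt, h⟩
  · obtain ⟨Φ, η, Z, h1, h2, h3, h4, h5, h6, h7⟩ := h J ε hε
    exact ⟨Φ, η, Z, -v Z, h1, h2, h3, h4, h5, by ring, by linarith, by linarith,
      fun h8 => by linarith⟩
  · obtain ⟨c₀, hc₀⟩ := exists_rs0 hk (x := t) fun _ => hvt.ge
    have hc₀' : c₀ ≠ 0 := by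
      rintro rfl
      have h1 := TWCY.rs_zero_iff.1 hc₀ ht0
      linarith
    obtain ⟨Φ, η, c, h1, h2, h3, h4⟩ := h J (insert 0 (R.image fun r => r / c₀))
    rw [Finset.mem_insert, not_or] at h1
    have hc : algebraMap k Ω c ≠ 0 := by
      rw [Ne, map_eq_zero]
      exact h1.1
    refine ⟨Φ, η, algebraMap k Ω c * t, 0, h2, h3, h4, mul_mem (W.algebraMap_mem c) ht,
      mul_ne_zero hc ht0, ?_, le_refl _, hε, fun _ => ⟨c * c₀, fun h5 => ?_, ?_⟩⟩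
    · rw [v.map_mul hc ht0, hvt, hk.triv c h1.1, add_zero, neg_zero]
    · apply h1.2
      rw [Finset.mem_image]
      exact ⟨c * c₀, h5, mul_div_cancel_right₀ c hc₀'⟩
    · exact (Rs.const c).mul hk hc₀

end Pool.Agent.TWRB
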