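import Pool.Agent.Lib.TWRB.Sub
import Pool.Agent.Lib.TWCF.HB
import Pool.Agent.Lib.TWCF.Jets
import Pool.Agent.Lib.TWFN.A
import Pool.Agent.Lib.TWCT.ConS
import Pool.Agent.Lib.TWRL.Add
import Pool.Agent.Lib.TWCY.Rs

/-!
# RowB, R7, (2a): not everything is residual

`U_j ∈ lim_0 C`, some `U_l ∉ C + O_0`, `l ≠ 0`. There is an additive polynomial `A ≠ 0` which vanishes
at the residue of the displacement `x` of `w` for all strict motions `τ` of `C` for which `x` and all
the coefficients of `Ψ = y + (τU)(s) - U(s + x)` have size `≤ 0`.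
* `exists_near_move`: `τ y - y ∈ C + O_0` for `y ∈ lim_0 C`;
* `nu_shift`: `ν(s + x̄) = ν(s)`, `ν` the residue of `d U`, `d` a functional which vanishes on `C`;
* `exists_addv_dvd`: every polynomial divides an additive polynomial;
* `exists_add_residual`: the conclusion; `exists_loud`: with a finite set of exceptional residues.
-/

set_option autoImplicit false

namespace Pool.Agent.TWRB

open Pool.Agent.H15JM (RVal)
open Pool.Agent.LU1 (VPos)
open Pool.Agent.D2 (Ctx0)
open Pool.Agent.TWM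
open Pool.Agent.TWS (IsoE SphC)
open Pool.Agent.TWCT (SMo StrM)
open Pool.Agent.TWCY (Rs exists_rs0)
open Pool.Agent.TWCF (NL)

universe u

section alg

variable {R : Type u} [CommRing R]

theorem coeff_comp_X_add_C (f : Polynomial R) (x : R) {N : ℕ} (hN : f.natDegree < N) (j : ℕ) :
    (f.comp (Polynomial.X + Polynomial.C x)).coeff j =
      ∑ e ∈ Finset.range N, f.coeff e * (x ^ (e - j) * (e.choose j : R)) := by
  rw [Polynomial.comp, Polynomial.eval₂_eq_sum_range' _ hN, Polynomial.finsetSum_coeff]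
  refine Finset.sum_congr rfl fun e _ => ?_
  rw [Polynomial.coeff_C_mul, Polynomial.coeff_X_add_C_pow]

end alg

/-- **Every polynomial divides an additive polynomial.** -/
theorem exists_addv_dvd {k : Type u} [Field k] (p : ℕ) [hp : Fact p.Prime] [CharP k p]
    {f : Polynomial k} (hf : f ≠ 0) : ∃ A : Polynomial k, A ≠ 0 ∧ TWRL.Addv p A ∧ f ∣ A := by
  classical
  obtain ⟨n, hn⟩ : ∃ n, n = f.natDegree := ⟨_, rfl⟩
  have hspan : ¬ LinearIndependent k (fun i : Fin (n + 1) =>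
      (⟨(Polynomial.X : Polynomial k) ^ p ^ (i : ℕ) % f, Polynomial.mem_degreeLT.2
        (lt_of_lt_of_le (EuclideanDomain.mod_lt _ hf) (by
          rw [hn]
          exact Polynomial.degree_le_natDegree))⟩ : Polynomial.degreeLT k n)) := by
    intro h
    have h1 := h.fintype_card_le_finrank
    rw [Fintype.card_fin, LinearEquiv.finrank_eq (Polynomial.degreeLTEquiv k n),
      Module.finrank_fin_fun] at h1
    omega
  rw [Fintype.not_linearIndependent_iff] at hspan
  obtain ⟨g, hg, i, hi⟩ := hspan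
  have hg' : ∑ i : Fin (n + 1), g i • ((Polynomial.X : Polynomial k) ^ p ^ (i : ℕ) % f) = 0 := by
    have := congrArg (fun q : Polynomial.degreeLT k n => (q : Polynomial k)) hg
    simpa using this
  refine ⟨∑ i : Fin (n + 1), Polynomial.C (g i) * Polynomial.X ^ p ^ (i : ℕ), ?_, ?_, ?_⟩
  · intro h0
    apply hi
    have h1 := congrArg (fun q => Polynomial.coeff q (p ^ (i : ℕ))) h0
    simp only [Polynomial.finsetSum_coeff, Polynomial.coeff_zero] at h1
    rw [Finset.sum_eq_single i] at h1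
    · rwa [Polynomial.coeff_C_mul, Polynomial.coeff_X_pow, if_pos rfl, mul_one] at h1
    · intro j _ hj
      rw [Polynomial.coeff_C_mul, Polynomial.coeff_X_pow, if_neg, mul_zero]
      intro h2
      exact hj (Fin.ext (Nat.pow_right_injective hp.out.two_le h2).symm)
    · intro h2
      exact absurd (Finset.mem_univ i) h2
  · intro m hm
    by_contra hne
    push Not at hne
    apply hm
    rw [Polynomial.finsetSum_coeff]
    refine Finset.sum_eq_zero fun j _ => ?_
    rw [Polynomial.coeff_C_mul, Polynomial.coeff_X_pow, if_neg (hne j), mul_zero]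
  · rw [← EuclideanDomain.mod_eq_zero]
    have e : (∑ i : Fin (n + 1), Polynomial.C (g i) * Polynomial.X ^ p ^ (i : ℕ)) % f =
        ∑ i : Fin (n + 1), g i • ((Polynomial.X : Polynomial k) ^ p ^ (i : ℕ) % f) := by
      have hadd : ∀ (S : Finset (Fin (n + 1))) (F : Fin (n + 1) → Polynomial k),
          (∑ i ∈ S, F i) % f = ∑ i ∈ S, F i % f := by
        intro S F
        induction S using Finset.induction_on with
        | empty => simp
        | insert a S ha ih => rw [Finset.sum_insert ha, Finset.sum_insert ha, Polynomial.add_mod, ih]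
      rw [hadd]
      refine Finset.sum_congr rfl fun j _ => ?_
      rw [← Polynomial.smul_eq_C_mul, Polynomial.mod_def, Polynomial.mod_def,
        Polynomial.smul_modByMonic]
    rw [e, hg']

variable {k Ω : Type u} [Field k] [Field Ω] [Algebra k Ω] {v : RVal Ω}
  {A C : IntermediateField k Ω} {τ : Ω →ₐ[k] Ω} {η : ℝ} {U : Polynomial Ω} {x y : Ω}

/-- **`τ y - y ∈ C + O_0`.** -/
theorem exists_near_move (hτ : SMo v A C τ η) {y : Ω} (hy : TWM.Lim v C 0 y) :
    ∃ b ∈ C, v.Ge 0 (τ y - y - b) := by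
  obtain ⟨c, hc, h1⟩ := hy (η / 2) (by linarith [hτ.pos])
  rw [zero_sub] at h1
  refine ⟨τ c - c, sub_mem (hτ.mem hc) hc, TWCF.ge_of_sub_eps one_pos fun ε hε => ?_⟩
  rw [zero_sub, one_mul]
  obtain ⟨c', hc', h2⟩ := hy (min ε (η / 2)) (lt_min hε (by linarith [hτ.pos]))
  have h3 : v.Ge (-ε) (y - c') := h2.mono (by linarith [min_le_left ε (η / 2)])
  have h4 : v.Ge (-(η / 2)) (c' - c) := by
    rw [show c' - c = (y - c) - (y - c') by ring]
    exact h1.sub (h2.mono (by linarith [min_le_right ε (η / 2)]))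
  have h5 := hτ.str (c' - c) (sub_mem hc' hc) _ h4
  rw [show τ y - y - (τ c - c) = (τ (y - c') - (y - c')) + (τ (c' - c) - (c' - c)) by
    rw [map_sub, map_sub]; ring]
  exact ((hτ.iso.ge_iff.2 h3).sub h3).add (h5.mono (by linarith [hτ.pos]))

/-- A functional which vanishes on `C` is strict. -/
theorem nl_strict {d : Ω →ₗ[C] Ω} (hd : NL v d) (hdC : ∀ c ∈ C, d c = 0)
    (himm : ∀ y : Ω, y ≠ 0 → ∃ a ∈ C, Gt v (v y) (y - a)) {y : Ω} {r : ℝ} (h : v.Ge r y) :
    Gt v r (d y) := by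
  by_cases h0 : y = 0
  · rw [h0, map_zero]
    exact Gt.zero
  · obtain ⟨a, ha, h1⟩ := himm y h0
    have e : d y = d (y - a) := by rw [map_sub, hdC a ha, sub_zero]
    rw [e]
    by_cases h2 : y - a = 0
    · rw [h2, map_zero]
      exact Gt.zero
    · exact Gt.of_ge (hd _ _ (RVal.ge_self (v := v) _)) (lt_of_le_of_lt (h h0) (h1 h2))

theorem map_C_mul (d : Ω →ₗ[C] Ω) {c : Ω} (hc : c ∈ C) (y : Ω) : d (y * c) = d y * c := by
  have h := d.map_smul (⟨c, hc⟩ : C) y
  rw [IntermediateField.smul_def, IntermediateField.smul_def, smul_eq_mul, smul_eq_mul] at h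
  rw [mul_comm, h, mul_comm]

/-- The value at a limit. -/
theorem nl_lim {d : Ω →ₗ[C] Ω} (hd : NL v d) (hdC : ∀ c ∈ C, d c = 0) {y : Ω}
    (hy : TWM.Lim v C 0 y) : v.Ge 0 (d y) := by
  refine TWCF.ge_of_sub_eps one_pos fun ε hε => ?_
  obtain ⟨c, hc, h1⟩ := hy ε hε
  rw [one_mul]
  have h2 := hd _ _ h1
  rwa [map_sub, hdC c hc, sub_zero] at h2

/-- **The residue of `x` is a period of `ν`.** -/
theorem nu_shift (hk : Ctx0 k v) {d : Ω →ₗ[C] Ω} (hd : NL v d) (hdC : ∀ c ∈ C, d c = 0)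
    (himm : ∀ y : Ω, y ≠ 0 → ∃ a ∈ C, Gt v (v y) (y - a))
    (hU : ∀ j, TWM.Lim v C 0 (U.coeff j)) (hτ : SMo v A C τ η) (hx : x ∈ C) (hy : y ∈ C)
    {x₀ : k} (hx₀ : Rs v x x₀) (hψ : ∀ j, v.Ge 0 ((psi τ x y U).coeff j))
    {ν : Polynomial k} (hν : ∀ j, Rs v (d (U.coeff j)) (ν.coeff j)) :
    ν.comp (Polynomial.X + Polynomial.C x₀) = ν := by
  ext j
  obtain ⟨N, hN⟩ : ∃ N, N = max U.natDegree ν.natDegree + 1 := ⟨_, rfl⟩
  have hN1 : U.natDegree < N := by rw [hN]; exact Nat.lt_succ_of_le (le_max_left _ _)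
  have hN2 : ν.natDegree < N := by rw [hN]; exact Nat.lt_succ_of_le (le_max_right _ _)
  -- the coefficient of `Ψ`
  have e1 : (psi τ x y U).coeff j = (Polynomial.C y).coeff j + τ (U.coeff j) -
      ∑ e ∈ Finset.range N, U.coeff e * (x ^ (e - j) * (e.choose j : Ω)) := by
    rw [psi, Polynomial.coeff_sub, Polynomial.coeff_add, Polynomial.coeff_map,
      coeff_comp_X_add_C U x hN1]
    rfl
  have hyC : (Polynomial.C y).coeff j ∈ C := by
    rw [Polynomial.coeff_C]
    split_ifs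
    · exact hy
    · exact zero_mem C
  have hmC : ∀ e, x ^ (e - j) * (e.choose j : Ω) ∈ C := fun e =>
    mul_mem (pow_mem hx _) (natCast_mem C _)
  -- `d` of it
  have h1 : Gt v 0 (d ((psi τ x y U).coeff j)) := nl_strict hd hdC himm (hψ j)
  have e2 : d ((psi τ x y U).coeff j) = d (τ (U.coeff j)) -
      ∑ e ∈ Finset.range N, d (U.coeff e) * (x ^ (e - j) * (e.choose j : Ω)) := by
    rw [e1, map_sub, map_add, hdC _ hyC, zero_add, map_sum]
    congr 1
    exact Finset.sum_congr rfl fun e _ => map_C_mul d (hmC e) _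
  -- `d τ U_j = d U_j`
  obtain ⟨b, hb, h2⟩ := exists_near_move hτ (hU j)
  have h3 : Rs v (d (τ (U.coeff j))) (ν.coeff j) := by
    refine (hν j).congr ?_
    have h4 := nl_strict hd hdC himm h2
    rw [map_sub, map_sub, hdC b hb, sub_zero] at h4
    exact fun h0 => h4 h0
  have h4 : Rs v (∑ e ∈ Finset.range N, d (U.coeff e) * (x ^ (e - j) * (e.choose j : Ω)))
      (∑ e ∈ Finset.range N, ν.coeff e * (x₀ ^ (e - j) * (e.choose j : k))) := by
    refine Rs.sum _ fun e _ => (hν e).mul hk ((hx₀.pow hk _).mul hk ?_)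
    have h5 := Rs.const (v := v) (Ω := Ω) ((e.choose j : ℕ) : k)
    rwa [map_natCast] at h5
  have h5 := h3.sub h4
  rw [← e2] at h5
  have h6 : Rs v (d ((psi τ x y U).coeff j)) (0 : k) := TWCY.rs_zero_iff.2 fun h0 => h1 h0
  have h7 := h5.unique hk h6
  rw [coeff_comp_X_add_C ν x₀ hN2 j]
  exact (sub_eq_zero.1 h7).symm

/-- **(2a): not everything is residual.** -/
theorem exists_add_residual (p : ℕ) [hp : Fact p.Prime] [CharP k p] (hk : Ctx0 k v) (hs : SphC v)
    (himm : ∀ y : Ω, y ≠ 0 → ∃ a ∈ C, Gt v (v y) (y - a))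
    (hU : ∀ j, TWM.Lim v C 0 (U.coeff j)) {l : ℕ} (hl0 : l ≠ 0)
    (hl : ∀ c ∈ C, ¬ v.Ge 0 (U.coeff l - c)) :
    ∃ P : Polynomial k, P ≠ 0 ∧ TWRL.Addv p P ∧ ∀ (A : IntermediateField k Ω) (τ : Ω →ₐ[k] Ω)
      (η : ℝ) (x y : Ω) (x₀ : k), SMo v A C τ η → x ∈ C → y ∈ C → Rs v x x₀ →
      (∀ j, v.Ge 0 ((psi τ x y U).coeff j)) → P.eval x₀ = 0 := by
  classical
  obtain ⟨d, hd, hd0, hdl⟩ := TWCF.exists_fun (S := C) hs (Submodule.span C {(1 : Ω)})
    (z := U.coeff l) (fun m hm => by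
      obtain ⟨c, rfl⟩ := Submodule.mem_span_singleton.1 hm
      have hc : c • (1 : Ω) ∈ C := by
        rw [IntermediateField.smul_def, smul_eq_mul, mul_one]
        exact c.2
      have h1 := hl _ hc
      refine ⟨fun h0 => h1 (by rw [h0]; exact RVal.Ge.zero), ?_⟩
      by_contra hlt
      exact h1 (RVal.Ge.of_le (not_lt.1 hlt)))
  have hdC : ∀ c ∈ C, d c = 0 := fun c hc => hd0 c (Submodule.mem_span_singleton.2
    ⟨⟨c, hc⟩, by rw [IntermediateField.smul_def, smul_eq_mul, mul_one]⟩)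
  choose n hn using fun j => exists_rs0 hk (nl_lim hd hdC (hU j))
  obtain ⟨ν, hν⟩ : ∃ ν : Polynomial k, ∀ j, Rs v (d (U.coeff j)) (ν.coeff j) := by
    refine ⟨∑ j ∈ Finset.range (U.natDegree + 1), Polynomial.monomial j (n j), fun j => ?_⟩
    rw [Polynomial.finsetSum_coeff]
    simp only [Polynomial.coeff_monomial]
    rw [Finset.sum_ite_eq']
    split_ifs with h
    · exact hn j
    · have h1 : U.coeff j = 0 := Polynomial.coeff_eq_zero_of_natDegree_lt (by
        rw [Finset.mem_range] at h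
        omega)
      rw [h1, map_zero]
      exact Rs.zero
  have hνl : ν.coeff l = 1 := by
    have h1 := hν l
    rw [hdl] at h1
    exact h1.unique hk Rs.one
  have hf : ν - Polynomial.C (ν.eval 0) ≠ 0 := by
    intro h0
    have h1 := congrArg (fun q => Polynomial.coeff q l) h0
    simp only [Polynomial.coeff_sub, Polynomial.coeff_zero] at h1
    rw [hνl, Polynomial.coeff_C, if_neg hl0, sub_zero] at h1
    exact one_ne_zero h1
  obtain ⟨P, hP0, hPa, q, hq⟩ := exists_addv_dvd p hf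
  refine ⟨P, hP0, hPa, fun A τ η x y x₀ hτ hx hy hx₀ hψ => ?_⟩
  have h1 := nu_shift hk hd hdC himm hU hτ hx hy hx₀ hψ hν
  have h2 := congrArg (Polynomial.eval 0) h1
  rw [Polynomial.eval_comp, Polynomial.eval_add, Polynomial.eval_X, Polynomial.eval_C,
    zero_add] at h2
  rw [hq, Polynomial.eval_mul, Polynomial.eval_sub, Polynomial.eval_C, h2, sub_self, zero_mul]

/-- **(2a)**: a motion whose displacement of `w` is residual, outside a finite set of residues, moves
`u` visibly. -/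
theorem exists_loud (p : ℕ) [hp : Fact p.Prime] [CharP k p] (hk : Ctx0 k v) (hs : SphC v)
    (himm : ∀ y : Ω, y ≠ 0 → ∃ a ∈ C, Gt v (v y) (y - a))
    (hU : ∀ j, TWM.Lim v C 0 (U.coeff j)) {l : ℕ} (hl0 : l ≠ 0)
    (hl : ∀ c ∈ C, ¬ v.Ge 0 (U.coeff l - c)) :
    ∃ S : Finset k, ∀ (A : IntermediateField k Ω) (τ : Ω →ₐ[k] Ω) (η : ℝ) (x y : Ω) (x₀ : k),
      SMo v A C τ η → x ∈ C → y ∈ C → Rs v x x₀ → x₀ ∉ S →
      ∃ j, ¬ v.Ge 0 ((psi τ x y U).coeff j) := by
  classical
  obtain ⟨P, hP0, -, hP⟩ := exists_add_residual p hk hs himm hU hl0 hl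
  refine ⟨P.roots.toFinset, fun A τ η x y x₀ hτ hx hy hx₀ hS => ?_⟩
  by_contra hne
  push Not at hne
  exact hS (Multiset.mem_toFinset.2 ((Polynomial.mem_roots hP0).2
    (hP A τ η x y x₀ hτ hx hy hx₀ hne)))

end Pool.Agent.TWRB
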