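import Pool.Agent.Lib.TWRB.R7zG
import Pool.Agent.Lib.TWLG0.Res0

/-!
# RowB, R7z: the residue polynomials at residual positions

* `inv_res`: a polynomial `N` with `N(L) - N` strict: its residue is invariant under
  `(s, t) ↦ (c + s, y + t + δ(c, s))`;
* `const_of_inv`: it is constant.
-/

set_option autoImplicit false

open MvPolynomial

namespace Pool.Agent.TWRB

open Pool.Agent.H15JM (RVal)
open Pool.Agent.LU1 (VPos)
open Pool.Agent.D2 (Ctx0)
open Pool.Agent.TWM
open Pool.Agent.TWS (IsoE SphC)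
open Pool.Agent.TWLY
open Pool.Agent.TWCY
open Pool.Agent.TWCU
open Pool.Agent.TWLG0 (bc Cob eval_bc res_const')

universe u

variable {k Ω : Type u} [Field k] [Field Ω] [Algebra k Ω] {v : RVal Ω}

theorem eval_sum_of_subset {R : Type*} [CommRing R] {f : MvPolynomial (Fin 2) R} {S : Finset Ex}
    (h : f.support ⊆ S) (P : Fin 2 → R) :
    eval P f = ∑ d ∈ S, coeff d f * (P 0 ^ d 0 * P 1 ^ d 1) := by
  rw [eval_eq']
  have h1 : ∀ d : Ex, ∏ i, P i ^ d i = P 0 ^ d 0 * P 1 ^ d 1 := fun d => Fin.prod_univ_two _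
  simp_rw [h1]
  refine Finset.sum_subset h fun d _ hd => ?_
  rw [notMem_support_iff.1 hd, zero_mul]

/-- Residues of values at integral points. -/
theorem rs_eval' (hk : Ctx0 k v) {f : MvPolynomial (Fin 2) Ω} {G : MvPolynomial (Fin 2) k}
    (hf : ∀ g, Rs v (coeff g f) (coeff g G)) {P : Fin 2 → Ω} {q : Fin 2 → k}
    (hP : ∀ i, Rs v (P i) (q i)) : Rs v (eval P f) (eval q G) := by
  classical
  rw [eval_sum_of_subset (S := f.support ∪ G.support) Finset.subset_union_left,
    eval_sum_of_subset (S := f.support ∪ G.support) Finset.subset_union_right]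
  exact Rs.sum _ fun d _ => (hf d).mul hk (((hP 0).pow hk _).mul hk ((hP 1).pow hk _))

/-- The same in one variable, at points of `k`. -/
theorem rs_eval1 (hk : Ctx0 k v) {f : Polynomial Ω} {G : Polynomial k}
    (hf : ∀ j, Rs v (f.coeff j) (G.coeff j)) (s : k) :
    Rs v (f.eval (algebraMap k Ω s)) (G.eval s) := by
  rw [Polynomial.eval_eq_sum_range' (n := max f.natDegree G.natDegree + 1)
    (Nat.lt_succ_of_le (le_max_left _ _)), Polynomial.eval_eq_sum_range'
    (n := max f.natDegree G.natDegree + 1) (Nat.lt_succ_of_le (le_max_right _ _))]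
  exact Rs.sum _ fun j _ => (hf j).mul hk ((Rs.const s).pow hk _)

/-- The same for polynomials over `k`, at integral points. -/
theorem rs_paeval (hk : Ctx0 k v) {x : Ω} {a : k} (hx : Rs v x a) (n : Polynomial k) :
    Rs v (Polynomial.aeval x n) (n.eval a) := by
  induction n using Polynomial.induction_on' with
  | add P Q hP hQ =>
    rw [map_add, Polynomial.eval_add]
    exact hP.add hQ
  | monomial i c =>
    rw [Polynomial.aeval_monomial, Polynomial.eval_monomial]
    exact (Rs.const c).mul hk (hx.pow hk i)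

/-- **The invariance of the residue polynomial.** -/
theorem inv_res [Infinite k] (hk : Ctx0 k v) {ι : Type} [Fintype ι] {δ : k → k → k}
    {F G : ι → Polynomial k}
    (hFG : ∀ s t, δ s t = ∑ i, (F i).eval s * (G i).eval t) (hd' : ∀ s, δ s 0 = 0)
    {a : Ω} {c y : k} {Ψ : Polynomial Ω} (ha : Rs v a c) (hy : Rs v (Ψ.coeff 0) y)
    (hΨ : ∀ j, 1 ≤ j → Gt v 0 (Ψ.coeff j - Polynomial.aeval a (bc F G j)))
    {N : MvPolynomial (Fin 2) Ω} {n : MvPolynomial (Fin 2) k}
    (hN : ∀ m, Rs v (coeff m N) (coeff m n)) {L : Fin 2 → MvPolynomial (Fin 2) Ω}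
    (hL0 : L 0 = X 0 + C a) (hL1 : L 1 = X 1 + Polynomial.aeval (X 0) Ψ)
    (h : ∀ m, Gt v 0 (coeff m (aeval L N - N))) (s t : k) :
    eval ![c + s, y + t + δ c s] n = eval ![s, t] n := by
  have h1 : Rs v (eval (pt ![s, t]) (aeval L N)) (eval ![s, t] n) := by
    refine rs_eval hk (fun m => (hN m).congr ?_) _
    rw [← coeff_sub]
    exact h m
  rw [eval_aeval] at h1
  -- the second coordinate
  set q : Polynomial k := ∑ i, Polynomial.C ((F i).eval c) * G i with hq
  have hqe : ∀ s, q.eval s = δ c s := fun s => by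
    rw [hq, Polynomial.eval_finsetSum, hFG]
    exact Finset.sum_congr rfl fun i _ => by rw [Polynomial.eval_mul, Polynomial.eval_C]
  have hq0 : q.coeff 0 = 0 := by
    rw [Polynomial.coeff_zero_eq_eval_zero, hqe, hd']
  have h2 : Rs v (Ψ.eval (algebraMap k Ω s)) (y + δ c s) := by
    have h3 := rs_eval1 hk (f := Ψ) (G := Polynomial.C y + q) (fun j => ?_) s
    · rwa [Polynomial.eval_add, Polynomial.eval_C, hqe] at h3
    · rcases Nat.eq_zero_or_pos j with rfl | hj
      · rw [Polynomial.coeff_add, Polynomial.coeff_C_zero, hq0, add_zero]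
        exact hy
      · rw [Polynomial.coeff_add, Polynomial.coeff_C_of_ne_zero (by omega), zero_add, ← eval_bc]
        exact (rs_paeval hk ha (bc F G j)).congr (hΨ j hj)
  have h4 : Rs v (eval (fun i => eval (pt ![s, t]) (L i)) N) (eval ![c + s, y + t + δ c s] n) := by
    refine rs_eval' hk hN fun i => ?_
    fin_cases i
    · change Rs v (eval (pt ![s, t]) (L 0)) (c + s)
      rw [hL0, map_add, eval_X, eval_C, add_comm c]
      exact (Rs.const s).add ha
    · change Rs v (eval (pt ![s, t]) (L 1)) (y + t + δ c s)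
      have e1 : eval (pt ![s, t]) (Polynomial.aeval (X 0 : MvPolynomial (Fin 2) Ω) Ψ) =
          Ψ.eval (algebraMap k Ω s) := by
        have e2 : eval (pt ![s, t]) (Polynomial.aeval (X 0 : MvPolynomial (Fin 2) Ω) Ψ) =
            aeval (pt ![s, t]) (Polynomial.aeval (X 0 : MvPolynomial (Fin 2) Ω) Ψ) := rfl
        rw [e2, ← Polynomial.aeval_algHom_apply, aeval_X, Polynomial.coe_aeval_eq_eval]
        rfl
      rw [hL1, map_add, eval_X, e1, show y + t + δ c s = t + (y + δ c s) by ring]
      exact (Rs.const t).add h2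
  exact Rs.unique hk h4 h1

end Pool.Agent.TWRB
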