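import Pool.Agent.Lib.TWRB.R7zA
import Pool.Agent.Lib.TWRB.R7zH
import Pool.Agent.Lib.TWRB.R3f
import Pool.Agent.Lib.TWRB.R11
import Pool.Agent.Lib.TWLG0.Late

/-!
# RowB, R7z: all positions residual

The coefficients of `U` are in `B` (`inB_of_rsd`), so that everything is real:
* `real_tie`: `θ`, `h` over `W`, near to the shape of `z`;
* `zet_small`: `ζ` is of size `≤ 0` at residual positions;
* `inv_N`, `inv_G`: `N(L) - N`, `G(L) - G` are strict;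
* `const_of_rsd`: the residue polynomials are constant;
* `rowR7z`.
-/

set_option autoImplicit false

open MvPolynomial

namespace Pool.Agent.TWRB.Rz

open Pool.Agent.H15JM (RVal)
open Pool.Agent.LU1 (VPos)
open Pool.Agent.D2 (Ctx0)
open Pool.Agent.TWM
open Pool.Agent.TWS (IsoE SphC)
open Pool.Agent.TWCT (SMo)
open Pool.Agent.TWLY
open Pool.Agent.TWCY
open Pool.Agent.TWCU
open Pool.Agent.TWLG0 (bc Cob eval_bc res_const' exists_coc_late)

universe u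

variable {k Ω : Type u} [Field k] [Field Ω] [Algebra k Ω] {p : ℕ} {v : RVal Ω}
  {L : ℕ → IntermediateField k Ω} {W B F K : IntermediateField k Ω} {w : Fin 2 → Ω} {x z a : Ω}
  {R : RecB k Ω} {A : IntermediateField k Ω} {τ : Ω →ₐ[k] Ω} {ρ : ℝ} {a' b Za : Ω}

omit [Field Ω] in
theorem vec_eta' (w : Fin 2 → Ω) : (![w 0, w 1] : Fin 2 → Ω) = w := by
  funext i
  fin_cases i <;> rfl

theorem leBF (h : HB p v L W B F K w x z a) : B ≤ F := by
  rw [h.F_eq]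
  exact TWM.le_cadj v B (w 1)

theorem leWF (h : HB p v L W B F K w x z a) : W ≤ F := h.leWB.trans (leBF h)

theorem w0F (h : HB p v L W B F K w x z a) : w 0 ∈ F := leBF h (by
  rw [h.B_eq]
  exact self_mem_cadj v W _)

theorem w1F (h : HB p v L W B F K w x z a) : w 1 ∈ F := by
  rw [h.F_eq]
  exact self_mem_cadj v B _

theorem fnl_gt {d : Ω →ₗ[F] Ω} (hd : Fnl v F d) (y : Ω) (c : ℝ) (hy : v.Ge c y) :
    Gt v c (d y) := by
  by_cases h0 : y = 0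
  · rw [h0, map_zero]
    exact Gt.zero
  · exact (hd.str y h0).mono (hy h0)

theorem dfn_gt {S₀ : IntermediateField k Ω} {E : Ω →ₗ[S₀] Ω} (hE : DFn p v F S₀ E) (y : Ω) (c : ℝ)
    (hy : v.Ge c y) : Gt v c (E y) := by
  by_cases h0 : y = 0
  · rw [h0, map_zero]
    exact Gt.zero
  · exact (hE.str y h0).mono (hy h0)

theorem eval_PPw' {κ : ℕ → k} {t : ℕ} (w : Fin 2 → Ω) (g : MvPolynomial (Fin 2) Ω) :
    eval w (PP p κ t g) = PP p κ t (eval w g) := by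
  unfold PP
  rw [map_sum]
  refine Finset.sum_congr rfl fun i _ => ?_
  rw [map_mul, map_pow]
  congr 1
  rw [IsScalarTower.algebraMap_apply k Ω (MvPolynomial (Fin 2) Ω), algebraMap_eq, eval_C]

/-- The real objects of precision `ε`. -/
structure RT (p : ℕ) (v : RVal Ω) (F : IntermediateField k Ω) (w : Fin 2 → Ω) (x z : Ω)
    (R : RecB k Ω) (ε : ℝ) (θ h : MvPolynomial (Fin 2) Ω) : Prop where
  θF : ∀ g, coeff g θ ∈ F
  hF : ∀ g, coeff g h ∈ F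
  near : v.Ge (-ε) (z - eval ![w 0, w 1] θ)
  tie : v.Ge (-ε) (algebraMap k Ω R.e * eval ![w 0, w 1] θ +
    x * PP p R.κ R.t (eval ![w 0, w 1] θ) + eval ![w 0, w 1] R.Pa - eval ![w 0, w 1] h ^ p)
  nearZ : ∀ g, v.Ge (-ε) (coeff g (R.Z -
    (aeval (Vf (w 0) (w 1) R.U) θ - C (eval ![w 0, w 1] θ))))
  tieZ : ∀ g, v.Ge (-ε) (coeff g (C (algebraMap k Ω R.e) * aeval (Vf (w 0) (w 1) R.U) θ +
    C x * PP p R.κ R.t (aeval (Vf (w 0) (w 1) R.U) θ) + aeval (Vf (w 0) (w 1) R.U) R.Pa -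
      aeval (Vf (w 0) (w 1) R.U) h ^ p))

/-- **The real tie.** -/
theorem real_tie [Infinite k] (h : CB p v L W B F K w x z a R) (hU : ∀ j, R.U.coeff j ∈ B) {ε : ℝ}
    (hε : 0 < ε) : ∃ θ h, RT p v F w x z R ε θ h := by
  have h0 := exists_lemR (A := B) (Q := fun _ => True) (w := w 0) (u := w 1) (z := z) (x := x)
    (e := R.e) (κ := R.κ) (t := R.t) (p := p) h.c0 h.frm.iso h.frm.fix h.frm.Tw h.frm.Tu h.frm.Ul
    h.jet h.xW h.PaW (fun ε hε => by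
      obtain ⟨θ, g, h1, h2, -, h3, h4⟩ := h.tie ε hε
      refine ⟨θ, g, h1, h2, trivial, ?_, ?_⟩
      · rw [vec_eta']
        exact h3
      · rw [vec_eta']
        rwa [map_sub, map_add, map_add, map_mul, map_mul, map_pow, eval_C, eval_C,
          eval_PPw'] at h4) hε
  obtain ⟨θ, g, h1, h2, -, h3, h4, f, h5, h6, h7, h8, h9⟩ := h0
  have hf : f = R.U := Polynomial.ext fun j => h6 j (hU j)
  subst hf
  refine ⟨θ, g, fun m => leWF h.toHB (h1 m), fun m => leWF h.toHB (h2 m), h3, h4, fun m => ?_, h9⟩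
  have h10 := h8 m
  rw [sub_self, sbU_eq, shU_zero] at h10
  exact h10

/-- The coefficients of the shape are limits of `F`. -/
theorem lim_Z [Infinite k] (h : CB p v L W B F K w x z a R) (hU : ∀ j, R.U.coeff j ∈ B) (g : Ex) :
    Lim v F 0 (coeff g R.Z) := by
  intro ε hε
  obtain ⟨θ, g', h1⟩ := real_tie h hU hε
  refine ⟨coeff g (aeval (Vf (w 0) (w 1) R.U) θ - C (eval ![w 0, w 1] θ)), ?_, ?_⟩
  · rw [coeff_sub, coeff_C]
    refine sub_mem ?_ ?_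
    · rw [aeval_def, eval₂_eq', algebraMap_eq, coeff_sum]
      refine sum_mem fun m _ => ?_
      rw [coeff_C_mul]
      exact mul_mem (h1.θF m)
        (coeff_prod_mem (Vf_mem (w0F h.toHB) (w1F h.toHB) fun j => leBF h.toHB (hU j)) m g)
    · split_ifs
      · refine eval_mem' h1.θF fun i => ?_
        fin_cases i
        exacts [show w 0 ∈ F from w0F h.toHB, show w 1 ∈ F from w1F h.toHB]
      · exact zero_mem _
  · rw [zero_sub, ← coeff_sub]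
    exact h1.nearZ g

theorem ge_zero_of_scaled {q m : ℝ} (hq : 0 < q) (hm : 0 < m) {y : Ω}
    (h : ∀ ε : ℝ, 0 < ε → ε ≤ m → v.Ge (-(q * ε)) y) : v.Ge 0 y := by
  refine ge_zero_of_forall fun ε hε => ?_
  refine (h (min m (ε / q)) (lt_min hm (div_pos hε hq)) (min_le_left _ _)).mono ?_
  have h1 : q * min m (ε / q) ≤ q * (ε / q) := mul_le_mul_of_nonneg_left (min_le_right _ _) hq.le
  rw [mul_div_cancel₀ _ hq.ne'] at h1
  linarith

theorem lin_eq (l : Fin 2 → k) : (lin l : MvPolynomial (Fin 2) Ω) =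
    C (algebraMap k Ω (l 0)) * X 0 + C (algebraMap k Ω (l 1)) * X 1 := by
  unfold lin
  rw [Fin.sum_univ_two]

/-- The linear part of `Pa`. -/
theorem Pa_eq (h : CB p v L W B F K w x z a R) :
    R.Pa = C (algebraMap k Ω (R.l 0)) * X 0 + C (algebraMap k Ω (R.l 1)) * X 1 +
      (R.Pa - lin R.l) ∧ ∀ g, coeff g (R.Pa - lin R.l) ≠ 0 → ∀ i, p ∣ g i := by
  refine ⟨by rw [lin_eq]; ring, fun g hg => ?_⟩
  by_contra hcon
  exact hg (by rw [coeff_sub, h.PaD g hcon, sub_self])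

theorem Zp' (h : CB p v L W B F K w x z a R) (he : R.e ≠ 0) (g : Ex) (hg : coeff g R.Z ≠ 0) :
    ∀ i, p ∣ g i := by
  by_contra hcon
  exact hg (h.Zp he g hcon)

theorem Lp_mem' (h : CB p v L W B F K w x z a R) (hU : ∀ j, R.U.coeff j ∈ B)
    (hM : MoB v A W B F w z τ ρ a' b Za) (i : Fin 2) (g : Ex) :
    coeff g (Lp a' (psi τ a' b R.U) i) ∈ F :=
  Lp_mem (leWF h.toHB hM.aW) (psi_mem (fun _ hf => hM.mF.mem hf) (leWF h.toHB hM.aW) (leBF h.toHB hM.bC)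
    fun j => leBF h.toHB (hU j)) i g

theorem y_mem (h : CB p v L W B F K w x z a R) (i : Fin 2) : (![w 0, w 1] : Fin 2 → Ω) i ∈ F := by
  fin_cases i
  exacts [show w 0 ∈ F from w0F h.toHB, show w 1 ∈ F from w1F h.toHB]

section Frob

variable [hp : Fact p.Prime] [CharP Ω p]

/-- The tie makes the effects small. -/
theorem G_ge [Infinite k] (h : CB p v L W B F K w x z a R) (hU : ∀ j, R.U.coeff j ∈ B)
    {S₀ : IntermediateField k Ω} {E : Ω →ₗ[S₀] Ω} (hE : DFn p v F S₀ E) (hx : v.Ge 0 (E x))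
    (g : Ex) : v.Ge 0 (coeff g (C (E x) * PP p R.κ R.t R.Z + C (algebraMap k Ω R.e) * Dc E R.Z +
      Dc E (aeval (Vf (w 0) (w 1) R.U) R.Pa - C (eval ![w 0, w 1] R.Pa)))) := by
  have hp1 : (0 : ℝ) < p ^ (R.t + 1) := by
    have h1 : (0 : ℝ) < p := by exact_mod_cast hp.out.pos
    positivity
  refine ge_zero_of_scaled hp1 one_pos fun ε hε _ => ?_
  obtain ⟨θ, g', h1⟩ := real_tie h hU hε
  have hV := Vf_mem (F := F) (w0F h.toHB) (w1F h.toHB) fun j => leBF h.toHB (hU j)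
  have hco : ∀ f : MvPolynomial (Fin 2) Ω, (∀ g, coeff g f ∈ F) → ∀ g,
      coeff g (aeval (Vf (w 0) (w 1) R.U) f) ∈ F := by
    intro f hf g
    rw [aeval_def, eval₂_eq', algebraMap_eq, coeff_sum]
    refine sum_mem fun m _ => ?_
    rw [coeff_C_mul]
    exact mul_mem (hf m) (coeff_prod_mem hV m g)
  have h2 := bgen (S₀ := S₀) (F := F) (p := p) (κ := R.κ) (t := R.t) (e := R.e) (x := x)
    (S := AlgHom.id k Ω) (Za := 0) h.c0 ⟨fun _ _ => rfl⟩ rfl (fun _ hf => hf) hE.pow E hE.norm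
    hE.one hx hε (hco θ h1.θF) (hco g' h1.hF) (eval_mem' h1.θF (y_mem h))
    (eval_mem' h1.hF (y_mem h)) h1.nearZ h1.tieZ h1.tie
    (by rw [AlgHom.id_apply, sub_self, sub_zero]; exact RVal.Ge.zero) g
  have e1 : ∀ f : MvPolynomial (Fin 2) Ω,
      MvPolynomial.map ((AlgHom.id k Ω : Ω →ₐ[k] Ω) : Ω →+* Ω) f = f := fun f => map_id f
  rw [C_0, zero_add, e1, e1] at h2
  convert h2 using 2
  ring

theorem Cge_Lp {Ψ : Polynomial Ω} (ha : v.Ge 0 a') (hΨ : ∀ j, v.Ge 0 (Ψ.coeff j)) (i : Fin 2) :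
    Cge v 0 (Lp a' Ψ i) := by
  fin_cases i
  · exact (Cge.X (v := v) 0).add (Cge.C ha)
  · exact (Cge.X (v := v) 1).add (Cge_mv 0 hΨ)

/-- **`ζ` is of size `≤ 0` at the residual positions.** -/
theorem zet_small [Infinite k] (h : CB p v L W B F K w x z a R) (hU : ∀ j, R.U.coeff j ∈ B)
    (hM : MoB v A W B F w z τ ρ a' b Za) (hx : τ x = x)
    (hPa : ∀ g, τ (coeff g R.Pa) = coeff g R.Pa) {S₀ : IntermediateField k Ω} {E : Ω →ₗ[S₀] Ω}
    (hE : DFn p v F S₀ E) (hE1 : E x = 1) (ha : v.Ge 0 a')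
    (hΨ : ∀ j, v.Ge 0 ((psi τ a' b R.U).coeff j)) (g : Ex) :
    v.Ge 0 (coeff g (zet τ (Lp a' (psi τ a' b R.U)) Za R.Z)) := by
  have hp1 : (0 : ℝ) < p ^ (R.t + 1) := by
    have h1 : (0 : ℝ) < p := by exact_mod_cast hp.out.pos
    positivity
  have hEx : v.Ge 0 (E x) := by
    rw [hE1]
    intro _
    rw [v.map_one]
  have hL := Lp_mem' h hU hM
  have hV := Vf_mem (F := F) (w0F h.toHB) (w1F h.toHB) fun j => leBF h.toHB (hU j)
  obtain ⟨hPaE, hPb⟩ := Pa_eq h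
  have herr := err_eq (p := p) (F := F) hE.pow E hE.one hL (V := Vf (w 0) (w 1) R.U) (w := w 0)
    (u := w 1) (X' := a') (Ψ := Polynomial.aeval (X 0) (psi τ a' b R.U))
    (f := Polynomial.aeval (X 0) R.U) rfl rfl rfl rfl
    (fun he => poly_dvd (h.Up he)) (y := ![w 0, w 1]) rfl rfl hPaE hPb
  have h1 : ∀ g, v.Ge 0 (coeff g
      (aeval (Lp a' (psi τ a' b R.U)) (C (E x) * PP p R.κ R.t R.Z +
        C (algebraMap k Ω R.e) * Dc E R.Z +
        Dc E (aeval (Vf (w 0) (w 1) R.U) R.Pa - C (eval ![w 0, w 1] R.Pa))) +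
      C (E x) * PP p R.κ R.t (zet τ (Lp a' (psi τ a' b R.U)) Za R.Z) +
      C (algebraMap k Ω R.e) * Dc E (zet τ (Lp a' (psi τ a' b R.U)) Za R.Z) +
      (C (algebraMap k Ω (R.l 0) * E a') + C (algebraMap k Ω (R.l 1)) *
        Dc E (Polynomial.aeval (X 0) (psi τ a' b R.U))))) := by
    intro g
    refine ge_zero_of_scaled (m := ρ / 2) hp1 (half_pos hM.mF.pos) fun ε hε hερ => ?_
    obtain ⟨θ, g', h2⟩ := real_tie h hU hε
    have h3 := bstar_gen (S₀ := S₀) (F := F) (p := p) (κ := R.κ) (t := R.t) (e := R.e) (x := x)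
      h.c0 hM.mF.iso hx (fun f hf => hM.mF.mem hf) hE.pow E hE.norm hE.one hEx hL hV
      (aeval_Lp_Vf hM.tw hM.tu R.U) hε h2.θF h2.hF (y_mem h) hPa h2.nearZ h2.tieZ h2.tie
      ((hM.za _ (eval_mem' h2.θF (y_mem h)) (h2.near.mono (by linarith))).ge.mono
        (by linarith)) (Zp' h) g
    rwa [herr] at h3
  have h4 : ∀ g, v.Ge 0 (coeff g (aeval (Lp a' (psi τ a' b R.U)) (C (E x) * PP p R.κ R.t R.Z +
        C (algebraMap k Ω R.e) * Dc E R.Z +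
        Dc E (aeval (Vf (w 0) (w 1) R.U) R.Pa - C (eval ![w 0, w 1] R.Pa))))) := by
    intro g
    obtain ⟨D, hD⟩ := exists_tdeg (C (E x) * PP p R.κ R.t R.Z +
        C (algebraMap k Ω R.e) * Dc E R.Z +
        Dc E (aeval (Vf (w 0) (w 1) R.U) R.Pa - C (eval ![w 0, w 1] R.Pa)))
    have h5 := Cge.aeval (v := v) (fun g => G_ge h hU hE hEx g) hD le_rfl
      (Q := Lp a' (psi τ a' b R.U)) (fun i => by rw [neg_zero]; exact Cge_Lp ha hΨ i) g
    rwa [mul_zero, sub_zero] at h5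
  have h6 : ∀ g, v.Ge 0 (coeff g (C (algebraMap k Ω (R.l 0) * E a') +
      C (algebraMap k Ω (R.l 1)) * Dc E (Polynomial.aeval (X 0) (psi τ a' b R.U)))) := by
    intro g
    rw [coeff_add, coeff_C_mul, coeff_Dc' (map_zero E)]
    refine RVal.Ge.add ?_ ?_
    · rw [coeff_C]
      split_ifs
      · have h7 := (h.c0.ge (R.l 0)).mul (hE.norm _ _ ha)
        rwa [add_zero] at h7
      · exact RVal.Ge.zero
    · have h7 := (h.c0.ge (R.l 1)).mul (hE.norm _ _ (Cge_mv (v := v) 0 hΨ g))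
      rwa [add_zero] at h7
  refine zet_le (p := p) (κ := R.κ) (t := R.t) (e := R.e) h.c0 E hE.norm h.kap (fun g => ?_) g
  have h8 := ((h1 g).sub (h4 g)).sub (h6 g)
  rw [← coeff_sub, ← coeff_sub] at h8
  have e8 : ∀ a₁ a₂ a₃ a₄ : MvPolynomial (Fin 2) Ω, a₁ + C (E x) * a₂ + a₃ + a₄ - a₁ - a₄ =
      a₂ + a₃ := by
    intro a₁ a₂ a₃ a₄
    rw [hE1, C_1]
    ring
  rwa [e8] at h8

omit hp [CharP Ω p] in
/-- The invariance of the noises. -/
theorem inv_N [Infinite k] (h : CB p v L W B F K w x z a R) (hU : ∀ j, R.U.coeff j ∈ B)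
    (hM : MoB v A W B F w z τ ρ a' b Za)
    (hζ : ∀ g, v.Ge 0 (coeff g (zet τ (Lp a' (psi τ a' b R.U)) Za R.Z)))
    {d : Ω →ₗ[F] Ω} (hd : Fnl v F d) {N : MvPolynomial (Fin 2) Ω} (hN : NI v B F R d N) (g : Ex) :
    Gt v 0 (coeff g (aeval (Lp a' (psi τ a' b R.U)) N - N)) := by
  have e := hN.eq R.U 0 ⟨hU, fun _ _ => rfl, fun j => by
    rw [sub_self, Polynomial.coeff_zero]
    exact RVal.Ge.zero⟩
  rw [sub_self, shU_zero, shU_zero] at e
  rw [← e]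
  exact inv_fnl hM.mF.iso hM.mF.str hM.mF.pos (fun f hf => hM.mF.mem hf) hM.ZF (Lp_mem' h hU hM) d
    (fnl_gt hd) hd.zero (lim_Z h hU) hζ g

omit [Fact p.Prime] [CharP Ω p] in
theorem dsR_eq (w : Fin 2 → Ω) (U : Polynomial Ω) (q : MvPolynomial (Fin 2) Ω) :
    dsR w U q = aeval (Vf (w 0) (w 1) U) q - C (eval ![w 0, w 1] q) := by
  have h1 : shR w U = aeval (Vf (w 0) (w 1) U) := by
    unfold shR
    congr 1
    funext i
    fin_cases i
    · rfl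
    · show C (w 1) + Polynomial.aeval (X 0) U + X 1 = C (w 1) + X 1 + Polynomial.aeval (X 0) U
      ring
  unfold dsR
  rw [h1, vec_eta']

/-- The invariance of the effects. -/
theorem inv_G [Infinite k] (h : CB p v L W B F K w x z a R) (hU : ∀ j, R.U.coeff j ∈ B)
    (hM : MoB v A W B F w z τ ρ a' b Za) (hx : τ x = x)
    (hPa : ∀ g, τ (coeff g R.Pa) = coeff g R.Pa) (ha : v.Ge 0 a')
    (hΨ : ∀ j, v.Ge 0 ((psi τ a' b R.U).coeff j))
    (hζ : ∀ g, v.Ge 0 (coeff g (zet τ (Lp a' (psi τ a' b R.U)) Za R.Z)))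
    {S₀ : IntermediateField k Ω} {E : Ω →ₗ[S₀] Ω} (hE : DFn p v F S₀ E) (hE0 : E x = 0)
    {G : MvPolynomial (Fin 2) Ω} (hG : GI p v B w x R E G) (g : Ex) :
    Gt v 0 (coeff g (aeval (Lp a' (psi τ a' b R.U)) G - G)) := by
  have e := hG.eq R.U 0 ⟨hU, fun _ _ => rfl, fun j => by
    rw [sub_self, Polynomial.coeff_zero]
    exact RVal.Ge.zero⟩
  have e0 : Dc E (0 : MvPolynomial (Fin 2) Ω) = 0 := by
    ext m
    rw [coeff_Dc' (map_zero E), coeff_zero, map_zero]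
  unfold Gf at e
  rw [sub_self, shU_zero, shU_zero, hE0, C_0, zero_mul, zero_add, map_zero, e0, mul_zero, add_zero,
    dsR_eq] at e
  have hL := Lp_mem' h hU hM
  have hV := Vf_mem (F := F) (w0F h.toHB) (w1F h.toHB) fun j => leBF h.toHB (hU j)
  obtain ⟨hPaE, hPb⟩ := Pa_eq h
  have herr := err_eq (p := p) (F := F) hE.pow E hE.one hL (V := Vf (w 0) (w 1) R.U) (w := w 0)
    (u := w 1) (X' := a') (Ψ := Polynomial.aeval (X 0) (psi τ a' b R.U))
    (f := Polynomial.aeval (X 0) R.U) rfl rfl rfl rfl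
    (fun he => poly_dvd (h.Up he)) (y := ![w 0, w 1]) rfl rfl hPaE hPb
  obtain ⟨θ, g', h2⟩ := real_tie h hU (ε := ρ / 2) (half_pos hM.mF.pos)
  have h3 := inv_dfn (S₀ := S₀) (F := F) (p := p) (κ := R.κ) (t := R.t) (e := R.e) (x := x)
    hM.mF.iso hx hM.mF.str (fun f hf => hM.mF.mem hf) hE.pow E h.c0 (dfn_gt hE) hE.one hE0 hL hV
    (aeval_Lp_Vf hM.tw hM.tu R.U) (half_pos hM.mF.pos) (half_lt_self hM.mF.pos) h2.θF h2.hF
    (y_mem h) hPa h2.nearZ h2.tieZ h2.tie (leWF h.toHB h.xW) (fun g => leWF h.toHB (h.PaW g))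
    (hM.za _ (eval_mem' h2.θF (y_mem h)) h2.near) (Zp' h) (lim_Z h hU) (fun _ => hζ) g
  rw [herr, e, coeff_add] at h3
  have h4 : Gt v 0 (coeff g (C (algebraMap k Ω (R.l 0) * E a') +
      C (algebraMap k Ω (R.l 1)) * Dc E (Polynomial.aeval (X 0) (psi τ a' b R.U)))) := by
    rw [coeff_add, coeff_C_mul, coeff_Dc' (map_zero E)]
    have hk0 : ∀ (c : k) (y : Ω), v.Ge 0 y → Gt v 0 (algebraMap k Ω c * E y) := by
      intro c y hy
      have h5 := (dfn_gt hE y 0 hy).mul_ge (h.c0.ge c)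
      rwa [add_zero, mul_comm] at h5
    refine Gt.add ?_ (hk0 _ _ (Cge_mv (v := v) 0 hΨ g))
    rw [coeff_C]
    split_ifs
    · exact hk0 _ _ ha
    · exact Gt.zero
  have h5 := h3.sub h4
  rwa [add_sub_cancel_right] at h5

end Frob

/-- **The residue polynomials which are invariant at the residual positions are constant.** -/
theorem const_of_rsd [hp : Fact p.Prime] [CharP k p] [IsAlgClosed k] [IsAlgClosed Ω]
    (h : CB p v L W B F K w x z a R) (hU : ∀ j, R.U.coeff j ∈ B)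
    (hR : Rsd v L W B F w z R.U) : ∃ J₀ : ℕ, ∀ J ≥ J₀, ∀ (N : MvPolynomial (Fin 2) Ω)
      (n : MvPolynomial (Fin 2) k), Rsp v N n →
      (∀ (τ : Ω →ₐ[k] Ω) (ρ : ℝ) (a' b Za : Ω), MoB v (L J) W B F w z τ ρ a' b Za → v.Ge 0 a' →
        (∀ j, v.Ge 0 ((psi τ a' b R.U).coeff j)) →
        ∀ g, Gt v 0 (coeff g (aeval (Lp a' (psi τ a' b R.U)) N - N))) →
      n = C (coeff 0 n) := by
  have : Infinite k := IsAlgClosed.instInfinite
  obtain ⟨m, F', G', δ, hFG, hd, hd', hco, hcob, ε₀, hε₀, J₀, hdec⟩ :=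
    exists_coc_late (S := fun s : k => R.T ![s, 0]) (U := R.U) (w := w 0) (u := w 1) h.c0 h.mono
      h.dense h.tw (by rw [← h.B_eq]; exact h.tu.lim) (fun s => h.frm.iso _)
      (fun s => h.frm.fix _) (fun s => h.frm.Tw _) (fun s => by
        rw [h.frm.Tu]
        simp) h.frm.U0 (by rw [← h.B_eq]; exact hU) (by rw [← h.B_eq]; exact h.npar)
  refine ⟨J₀, fun J hJ N n hn hinv => ?_⟩
  set Γ : Set (k × k) := {q | ∃ (τ : Ω →ₐ[k] Ω) (ρ : ℝ) (a' b Za : Ω),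
    MoB v (L J) W B F w z τ ρ a' b Za ∧ Rs v a' q.1 ∧
      (∀ j, v.Ge 0 ((psi τ a' b R.U).coeff j)) ∧ Rs v ((psi τ a' b R.U).coeff 0) q.2} with hΓ
  have hinf : (Prod.fst '' Γ).Infinite := by
    intro hfin
    obtain ⟨τ, ρ, a', b, Za, c, h1, h2, h3, h4⟩ := hR J hfin.toFinset
    apply h2
    rw [Set.Finite.mem_toFinset]
    obtain ⟨y, hy⟩ := exists_rs0 h.c0 (h4 0)
    exact ⟨(c, y), ⟨τ, ρ, a', b, Za, h1, h3, h4, hy⟩, rfl⟩
  refine res_const' p hFG hd hco hcob hinf ?_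
  rintro q ⟨τ, ρ, a', b, Za, h1, h2, h3, h4⟩ s t
  refine inv_res h.c0 hFG hd' h2 h4 (fun j hj => ?_) hn (L := Lp a' (psi τ a' b R.U)) rfl rfl
    (hinv τ ρ a' b Za h1 (h2.ge h.c0) h3) s t
  have h5 := hdec J hJ 0 le_rfl hε₀.le τ a' h1.mW.iso h1.mW.fix h1.tw
    (by rw [neg_zero]; exact h2.ge h.c0) j hj
  rw [mul_zero, sub_zero, neg_zero] at h5
  have e1 : (psi τ a' b R.U).coeff j = (R.U.map (τ : Ω →+* Ω) -
      R.U.comp (Polynomial.X + Polynomial.C a')).coeff j := by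
    unfold psi
    rw [add_sub_assoc, Polynomial.coeff_add, Polynomial.coeff_C_of_ne_zero (by omega), zero_add]
  rw [e1]
  exact h5

end Pool.Agent.TWRB.Rz

namespace Pool.Agent.TWRB

open Pool.Agent.H15JM (RVal)
open Pool.Agent.D2 (Ctx0)
open Pool.Agent.TWM
open Pool.Agent.TWLY
open Pool.Agent.TWCY
open Pool.Agent.TWCU
open Rz

universe u

variable {k Ω : Type u} [Field k] [Field Ω] [Algebra k Ω] {p : ℕ} {v : RVal Ω}

/-- **R7z.** -/
theorem rowR7z [hp : Fact p.Prime] [CharP k p] [CharP Ω p] [IsAlgClosed k] [IsAlgClosed Ω] :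
    RowR7z (k := k) p v := by
  intro L W B F K w x z a R h hR hE
  have : Infinite k := IsAlgClosed.instInfinite
  obtain ⟨S₁, E₁, hE1, hE1x⟩ := hE
  have hU := inB_of_rsd h h.frm.inB hR
  obtain ⟨J₀, hJ₀⟩ := const_of_rsd h hU hR
  obtain ⟨J₁, hJ₁⟩ := h.xL
  obtain ⟨J₂, hJ₂⟩ := h.PaL
  obtain ⟨J, hJ⟩ : ∃ J, J = max J₀ (max J₁ J₂) := ⟨_, rfl⟩
  have hx : ∀ (τ : Ω →ₐ[k] Ω) (ρ : ℝ) (a' b Za : Ω), MoB v (L J) W B F w z τ ρ a' b Za →
      τ x = x := fun τ ρ a' b Za hM =>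
    hM.mW.fix _ (h.mono (by rw [hJ]; exact (le_max_left _ _).trans (le_max_right _ _)) hJ₁)
  have hPa : ∀ (τ : Ω →ₐ[k] Ω) (ρ : ℝ) (a' b Za : Ω), MoB v (L J) W B F w z τ ρ a' b Za →
      ∀ g, τ (coeff g R.Pa) = coeff g R.Pa := fun τ ρ a' b Za hM g =>
    hM.mW.fix _ (h.mono (by rw [hJ]; exact (le_max_right _ _).trans (le_max_right _ _)) (hJ₂ g))
  have hζ : ∀ (τ : Ω →ₐ[k] Ω) (ρ : ℝ) (a' b Za : Ω), MoB v (L J) W B F w z τ ρ a' b Za →
      v.Ge 0 a' → (∀ j, v.Ge 0 ((psi τ a' b R.U).coeff j)) →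
      ∀ g, v.Ge 0 (coeff g (zet τ (Lp a' (psi τ a' b R.U)) Za R.Z)) :=
    fun τ ρ a' b Za hM ha hΨ => zet_small h hU hM (hx _ _ _ _ _ hM) (hPa _ _ _ _ _ hM) hE1 hE1x
      ha hΨ
  have hC : ∀ n : MvPolynomial (Fin 2) k, n = C (coeff 0 n) → ∀ j : ℕ, j ≠ 0 →
      coeff (Finsupp.single 1 j) n = 0 := by
    intro n hn j hj
    rw [hn, coeff_C, if_neg]
    intro h0
    have := DFunLike.congr_fun h0 1
    rw [Finsupp.single_eq_same] at this
    exact hj this.symm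
  refine ⟨fun d N n hd hN hn => hC n ?_, fun S₀ E G g hE hEx hG hg => hC g ?_⟩
  · exact hJ₀ J (by rw [hJ]; exact le_max_left _ _) N n hn fun τ ρ a' b Za hM ha hΨ =>
      inv_N h hU hM (hζ τ ρ a' b Za hM ha hΨ) hd hN
  · exact hJ₀ J (by rw [hJ]; exact le_max_left _ _) G g hg fun τ ρ a' b Za hM ha hΨ =>
      inv_G h hU hM (hx _ _ _ _ _ hM) (hPa _ _ _ _ _ hM) ha hΨ (hζ τ ρ a' b Za hM ha hΨ) hE hEx hG

end Pool.Agent.TWRB
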