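import Pool.Agent.Lib.TWRB.Core
import Pool.Agent.Lib.TWRB.R7a
import Pool.Agent.Lib.TWRB.R7b

/-!
# RowB, R7z: all positions residual, (2a) is impossible

`inB_of_rsd`: if infinitely many residues of `w 0` belong to motions with a residual position, the
coefficients of `U` are in `B`.
-/

set_option autoImplicit false

open MvPolynomial

namespace Pool.Agent.TWRB

open Pool.Agent.H15JM (RVal)
open Pool.Agent.LU1 (VPos)
open Pool.Agent.D2 (Ctx0)
open Pool.Agent.TWM
open Pool.Agent.TWS (IsoE SphC)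
open Pool.Agent.TWCT (SMo)

universe u

variable {k Ω : Type u} [Field k] [Field Ω] [Algebra k Ω] {p : ℕ} {v : RVal Ω}
  {L : ℕ → IntermediateField k Ω} {W B F K : IntermediateField k Ω} {w : Fin 2 → Ω} {x z a : Ω}
  {R : RecB k Ω}

theorem HB.leWB (h : HB p v L W B F K w x z a) : W ≤ B := by
  rw [h.B_eq]
  exact TWM.le_cadj v W (w 0)

/-- Every element of `Ω` is approximated from `B`. -/
theorem HB.imm (h : HB p v L W B F K w x z a) (y : Ω) (hy : y ≠ 0) :
    ∃ b ∈ B, Gt v (v y) (y - b) :=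
  imm_full h.c0 h.leWB h.full y hy

/-- **(2a) is impossible if the positions are residual.** -/
theorem inB_of_rsd [hp : Fact p.Prime] [CharP k p] (h : CB p v L W B F K w x z a R)
    (hin : ∀ j, ∀ b ∈ B, v.Ge 0 (R.U.coeff j - b) → R.U.coeff j ∈ B)
    (hR : Rsd v L W B F w z R.U) (j : ℕ) : R.U.coeff j ∈ B := by
  by_contra hj
  have hj0 : j ≠ 0 := by
    rintro rfl
    exact hj (by rw [h.frm.U0]; exact zero_mem B)
  obtain ⟨S, hS⟩ := exists_loud p h.c0 h.sph h.imm h.frm.Ul hj0 fun c hc h1 => hj (hin j c hc h1)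
  obtain ⟨τ, ρ, a', b, Za, c, hτ, hc, h1, h2⟩ := hR 0 S
  obtain ⟨i, hi⟩ := hS _ τ ρ a' b c hτ.mC (h.leWB hτ.aW) hτ.bC h1 hc
  exact hi (h2 i)

end Pool.Agent.TWRB
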