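import Pool.Agent.Lib.TWRB.R3
import Pool.Agent.Lib.TWCT.ConS
import Pool.Agent.Lib.TWLY.D
import Pool.Agent.Lib.TWLG0.Res0

/-!
# RowB, R7z: all positions residual, the parts

`S` is a motion: an isometry, `S F = F`, strict on `F` with margin `m`.
* `lim_move`, `near_move`: the motion of limits of `F`;
* `inv_fnl`: `(d Z)(L) - d Z` is strict, `d` `F`-linear, if `ζ` is of size `≤ 0`;
* `inv_dfn`: the same for `E` `F ^ p`-linear, `E x = 0`, and `Y = e Z + (Pa(V) - Pa(y))`;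
* `zet_le`: `ζ` is of size `≤ 0`;
* `inv_res`: the invariance of the residue polynomials.
-/

set_option autoImplicit false

open MvPolynomial

namespace Pool.Agent.TWRB

open Pool.Agent.H15JM (RVal)
open Pool.Agent.LU1 (VPos)
open Pool.Agent.D2 (Ctx0)
open Pool.Agent.TWM
open Pool.Agent.TWS (IsoE SphC)
open Pool.Agent.TWCT (StrM)
open Pool.Agent.TWLY
open Pool.Agent.TWCY
open Pool.Agent.TWCU

universe u

variable {k Ω : Type u} [Field k] [Field Ω] [Algebra k Ω] {v : RVal Ω}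
  {S₀ F M : IntermediateField k Ω} {p : ℕ} {κ : ℕ → k} {t : ℕ}
  {x : Ω} {e : k} {L V : Fin 2 → MvPolynomial (Fin 2) Ω}

theorem ge_zero_of_forall {y : Ω} (h : ∀ ε : ℝ, 0 < ε → v.Ge (-ε) y) : v.Ge 0 y := by
  intro hy
  by_contra h1
  push Not at h1
  have h2 := h (-(v y) / 2) (by linarith) hy
  linarith

/-! ### The motion of limits -/

/-- The motion of a small limit of `F`. -/
theorem lim_move {S : Ω →ₐ[k] Ω} (hS : IsoE v v S) {m ε : ℝ} (hstr : StrM v S F m) (hε : 0 < ε)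
    (hm : ε ≤ m) {y : Ω} (hy : Lim v F 0 y) (hy' : v.Ge (-ε) y) : v.Ge 0 (S y - y) := by
  refine ge_zero_of_forall fun ε' hε' => ?_
  obtain ⟨f, hf, h1⟩ := hy (min ε ε') (lt_min hε hε')
  rw [zero_sub] at h1
  have h2 : v.Ge (-ε) f := by
    have e : f = y - (y - f) := by ring
    rw [e]
    exact hy'.sub (h1.mono (by have := min_le_left ε ε'; linarith))
  have h3 := hstr f hf _ h2
  have e : S y - y = (S (y - f) - (y - f)) + (S f - f) := by
    rw [map_sub]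
    ring
  rw [e]
  have h4 : v.Ge (-ε') (y - f) := h1.mono (by have := min_le_right ε ε'; linarith)
  exact ((hS.ge_iff.2 h4).sub h4).add (h3.mono (by linarith))

/-- The motion of a limit of `F` is in `F + O_0`. -/
theorem near_move {S : Ω →ₐ[k] Ω} (hS : IsoE v v S) {m : ℝ} (hstr : StrM v S F m) (hm : 0 < m)
    (hSF : ∀ f ∈ F, S f ∈ F) {y : Ω} (hy : Lim v F 0 y) : ∃ f ∈ F, v.Ge 0 (S y - y - f) := by
  obtain ⟨f, hf, h1⟩ := hy m hm
  rw [zero_sub] at h1
  refine ⟨S f - f, sub_mem (hSF f hf) hf, ?_⟩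
  have e : S y - y - (S f - f) = S (y - f) - (y - f) := by
    rw [map_sub]
    ring
  rw [e]
  refine lim_move hS hstr hm le_rfl (fun ε hε => ?_) h1
  obtain ⟨g, hg, h2⟩ := hy ε hε
  exact ⟨g - f, sub_mem hg hf, by rwa [sub_sub_sub_cancel_right]⟩

/-- **The invariance of the noises.** -/
theorem inv_fnl {S : Ω →ₐ[k] Ω} (hS : IsoE v v S) {m : ℝ} (hstr : StrM v S F m) (hm : 0 < m)
    (hSF : ∀ f ∈ F, S f ∈ F) {Za : Ω} (hZa : Za ∈ F) (hL : ∀ i g, coeff g (L i) ∈ F)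
    (d : Ω →ₗ[F] Ω) (hd : ∀ (y : Ω) (c : ℝ), v.Ge c y → Gt v c (d y)) (hdF : ∀ f ∈ F, d f = 0)
    {Z : MvPolynomial (Fin 2) Ω} (hZ : ∀ g, Lim v F 0 (coeff g Z))
    (hζ : ∀ g, v.Ge 0 (coeff g (zet S L Za Z))) (g : Ex) :
    Gt v 0 (coeff g (aeval L (Dc d Z) - Dc d Z)) := by
  have h1 := star_eq (S := S) (Z := Z) hZa hL d hdF g
  have e : coeff g (aeval L (Dc d Z) - Dc d Z) =
      d (S (coeff g Z) - coeff g Z) - d (coeff g (zet S L Za Z)) := by
    rw [coeff_sub, coeff_Dc' (map_zero d) Z, map_sub, ← h1]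
    ring
  rw [e]
  refine Gt.sub ?_ (hd _ _ (hζ g))
  obtain ⟨f, hf, h2⟩ := near_move hS hstr hm hSF (hZ g)
  have e1 : d (S (coeff g Z) - coeff g Z) = d (S (coeff g Z) - coeff g Z - f) := by
    rw [map_sub d _ f, hdF f hf, sub_zero]
  rw [e1]
  exact hd _ _ h2

/-- **`ζ` is of size `≤ 0`**, from `(b*)` with `E x = 1`. -/
theorem zet_le [Fact p.Prime] [Infinite k] (hk : Ctx0 k v) (D : Ω →ₗ[S₀] Ω)
    (hD : ∀ (y : Ω) (c : ℝ), v.Ge c y → v.Ge c (D y)) (hκ : κ t ≠ 0)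
    {ζ : MvPolynomial (Fin 2) Ω}
    (h : ∀ g, v.Ge 0 (coeff g (PP p κ t ζ + C (algebraMap k Ω e) * Dc D ζ))) (g : Ex) :
    v.Ge 0 (coeff g ζ) := by
  refine ge_coeff hk (fun c => ?_) g
  have h1 := ge_eval hk h c
  rw [map_add, map_mul, eval_C, eval_PP, ← eval_lin_pt] at h1
  intro hy
  by_contra hv
  push Not at hv
  obtain ⟨h2, h3⟩ := v_PP (p := p) hk hκ hy hv
  have h4 := (hk.ge e).mul (hD _ _ (RVal.ge_self (eval (pt c) ζ)))
  rw [zero_add] at h4
  have h5 := (h1.mono hv.le).sub h4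
  rw [add_sub_cancel_right] at h5
  have h6 := h5 h2
  rw [h3] at h6
  have h7 : (1 : ℝ) < (p : ℝ) ^ (t + 1) := by
    have h8 : (1 : ℝ) < p := by exact_mod_cast (Fact.out : p.Prime).one_lt
    exact one_lt_pow₀ h8 (by omega)
  nlinarith

section Frob

variable [hp : Fact p.Prime] [CharP Ω p]

/-- **The invariance of the effects**, `E x = 0`. -/
theorem inv_dfn {S : Ω →ₐ[k] Ω} (hS : IsoE v v S) (hSx : S x = x) {m : ℝ}
    (hstr : StrM v S F m) (hSF : ∀ f ∈ F, S f ∈ F) (hSp : ∀ f ∈ F, f ^ p ∈ S₀) (D : Ω →ₗ[S₀] Ω)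
    (hk : Ctx0 k v) (hD : ∀ (y : Ω) (c : ℝ), v.Ge c y → Gt v c (D y)) (hD1 : D 1 = 0)
    (hDx : D x = 0) (hL : ∀ i g, coeff g (L i) ∈ F) (hV : ∀ i g, coeff g (V i) ∈ F)
    (hLV : ∀ i, aeval L (V i) = MvPolynomial.map (S : Ω →+* Ω) (V i))
    {Θ H Pa Z : MvPolynomial (Fin 2) Ω} {y : Fin 2 → Ω} {Za : Ω} {ε : ℝ} (hε : 0 < ε)
    (hεm : ε < m)
    (hΘF : ∀ g, coeff g Θ ∈ F) (hHF : ∀ g, coeff g H ∈ F) (hy : ∀ i, y i ∈ F)
    (hSPa : ∀ g, S (coeff g Pa) = coeff g Pa)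
    (h1 : ∀ g, v.Ge (-ε) (coeff g (Z - (aeval V Θ - C (eval y Θ)))))
    (h2 : ∀ g, v.Ge (-ε) (coeff g (C (algebraMap k Ω e) * aeval V Θ +
      C x * PP p κ t (aeval V Θ) + aeval V Pa - (aeval V H) ^ p)))
    (h3 : v.Ge (-ε) (algebraMap k Ω e * eval y Θ + x * PP p κ t (eval y Θ) + eval y Pa -
      (eval y H) ^ p)) (hxF : x ∈ F) (hPaF : ∀ g, coeff g Pa ∈ F)
    (h4 : Gt v 0 (S (eval y Θ) - eval y Θ - Za))
    (hZp : e ≠ 0 → ∀ g, coeff g Z ≠ 0 → ∀ i, p ∣ g i)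
    (hZ : ∀ g, Lim v F 0 (coeff g Z))
    (hζ : e ≠ 0 → ∀ g, v.Ge 0 (coeff g (zet S L Za Z))) (g : Ex) :
    Gt v 0 (coeff g (aeval L (C (algebraMap k Ω e) * Dc D Z +
        Dc D (aeval V Pa - C (eval y Pa))) -
      (C (algebraMap k Ω e) * Dc D Z + Dc D (aeval V Pa - C (eval y Pa))) +
      (Dc D (aeval L (aeval V Pa - C (eval y Pa))) -
        aeval L (Dc D (aeval V Pa - C (eval y Pa)))))) := by
  classical
  have hco : ∀ f : MvPolynomial (Fin 2) Ω, (∀ g, coeff g f ∈ F) → ∀ g,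
      coeff g (aeval V f) ∈ F := by
    intro f hf g
    rw [aeval_def, eval₂_eq', algebraMap_eq, coeff_sum]
    refine sum_mem fun m _ => ?_
    rw [coeff_C_mul]
    exact mul_mem (hf m) (coeff_prod_mem hV m g)
  have hev : ∀ f : MvPolynomial (Fin 2) Ω, (∀ g, coeff g f ∈ F) → eval y f ∈ F := by
    intro f hf
    rw [eval_eq']
    exact sum_mem fun m _ => mul_mem (hf m) (prod_mem fun i _ => pow_mem (hy i) _)
  have hCF : ∀ (a : Ω), a ∈ F → ∀ g : Ex, coeff g (C a : MvPolynomial (Fin 2) Ω) ∈ F := by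
    intro a ha g
    rw [coeff_C]
    split_ifs
    · exact ha
    · exact zero_mem _
  have hD0 : ∀ (y : Ω), v.Ge 0 y → Gt v 0 (D y) := fun y hy => hD y 0 hy
  -- the objects
  obtain ⟨P, hP⟩ : ∃ P, P = aeval V Θ := ⟨_, rfl⟩
  obtain ⟨Hv, hHv⟩ : ∃ Hv, Hv = aeval V H := ⟨_, rfl⟩
  obtain ⟨A, hA⟩ : ∃ A, A = aeval V Pa := ⟨_, rfl⟩
  obtain ⟨θ, hθ⟩ : ∃ θ, θ = eval y Θ := ⟨_, rfl⟩
  obtain ⟨h, hh⟩ : ∃ h, h = eval y H := ⟨_, rfl⟩
  obtain ⟨a, ha⟩ : ∃ a, a = eval y Pa := ⟨_, rfl⟩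
  have hPF : ∀ g, coeff g P ∈ F := hP ▸ hco Θ hΘF
  have hHvF : ∀ g, coeff g Hv ∈ F := hHv ▸ hco H hHF
  have hAF : ∀ g, coeff g A ∈ F := hA ▸ hco Pa hPaF
  have hθF : θ ∈ F := hθ ▸ hev Θ hΘF
  have hhF : h ∈ F := hh ▸ hev H hHF
  have haF : a ∈ F := ha ▸ hev Pa hPaF
  -- the motion of `Pa(V)`
  have e1 : MvPolynomial.map (S : Ω →+* Ω) A = aeval L A := by
    rw [hA, aeval_def, eval₂_eq', algebraMap_eq, map_sum, map_sum]
    refine Finset.sum_congr rfl fun m _ => ?_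
    rw [map_mul, map_mul, map_prod, map_prod, map_C, aeval_C, algebraMap_eq]
    congr 1
    · exact congrArg C (hSPa m)
    · refine Finset.prod_congr rfl fun i _ => ?_
      rw [map_pow, map_pow, hLV]
  rw [← hP] at h1 h2
  rw [← hθ] at h1 h3 h4
  rw [← hA, ← hHv] at h2
  rw [← hh, ← ha] at h3
  rw [← hA, ← ha]
  -- the real displacements
  obtain ⟨Q, hQ⟩ : ∃ Q, Q = P - C θ := ⟨_, rfl⟩
  have hQF : ∀ g, coeff g Q ∈ F := fun g => by
    rw [hQ, coeff_sub]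
    exact sub_mem (hPF g) (hCF θ hθF g)
  obtain ⟨G, hG⟩ : ∃ G, G = Hv - C h := ⟨_, rfl⟩
  have hGF : ∀ g, coeff g G ∈ F := fun g => by
    rw [hG, coeff_sub]
    exact sub_mem (hHvF g) (hCF h hhF g)
  obtain ⟨B, hB⟩ : ∃ B, B = A - C a := ⟨_, rfl⟩
  have hBF : ∀ g, coeff g B ∈ F := fun g => by
    rw [hB, coeff_sub]
    exact sub_mem (hAF g) (hCF a haF g)
  rw [← hQ] at h1
  rw [← hB]
  have hCP : ∀ y : Ω, (C (PP p κ t y) : MvPolynomial (Fin 2) Ω) = PP p κ t (C y) := fun y =>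
    PP_map (IsScalarTower.toAlgHom k Ω (MvPolynomial (Fin 2) Ω)) y
  -- the relation of the tie
  obtain ⟨ρ, hρ⟩ : ∃ ρ, ρ = algebraMap k Ω e * θ + x * PP p κ t θ + a - h ^ p := ⟨_, rfl⟩
  rw [← hρ] at h3
  have hρF : ρ ∈ F := by
    rw [hρ]
    exact sub_mem (add_mem (add_mem (mul_mem (F.algebraMap_mem e) hθF)
      (mul_mem hxF (PP_mem hθF))) haF) (pow_mem hhF p)
  obtain ⟨R, hR⟩ : ∃ R, R = C (algebraMap k Ω e) * Q + C x * PP p κ t Q + B - G ^ p := ⟨_, rfl⟩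
  have hPQ : ∀ g, coeff g (PP p κ t Q) ∈ F :=
    coeff_PP_mem (S₀ := F) (fun f hf => pow_mem hf p) hQF
  have hPG : ∀ g, coeff g (G ^ p) ∈ F := fun g => by
    have := coeff_pow_mem (p := p) (S₀ := F) (fun f hf => pow_mem hf p) hGF 0 g
    rwa [zero_add, pow_one] at this
  have hRF : ∀ g, coeff g R ∈ F := fun g => by
    rw [hR, coeff_sub, coeff_add, coeff_add, coeff_C_mul, coeff_C_mul]
    exact sub_mem (add_mem (add_mem (mul_mem (F.algebraMap_mem e) (hQF g))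
      (mul_mem hxF (hPQ g))) (hBF g)) (hPG g)
  have hRge : ∀ g, v.Ge (-ε) (coeff g R) := fun g => by
    have e2 : R = (C (algebraMap k Ω e) * P + C x * PP p κ t P + A - Hv ^ p) - C ρ := by
      rw [hR, hQ, hG, hB, sub_pow_char, PP_sub, hρ]
      simp only [map_sub, map_add, map_mul, map_pow, hCP]
      ring
    rw [e2, coeff_sub]
    refine (h2 g).sub ?_
    rw [coeff_C]
    split_ifs
    · exact h3
    · exact RVal.Ge.zero
  -- the pieces which are killed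
  have hSR : ∀ y ∈ F, v.Ge (-ε) y → Gt v 0 (D (S y - y)) := fun y hy hy' =>
    hD0 _ ((hstr y hy _ hy').mono (by linarith))
  have hmS : ∀ (f : MvPolynomial (Fin 2) Ω), (∀ g, coeff g f ∈ F) → ∀ g,
      coeff g (MvPolynomial.map (S : Ω →+* Ω) f) ∈ F := fun f hf g => by
    rw [coeff_map]
    exact hSF _ (hf g)
  have hSPP : ∀ g, S (coeff g (PP p κ t Q)) ∈ S₀ := fun g => by
    have e2 : S (coeff g (PP p κ t Q)) =
        coeff g (PP p κ t (MvPolynomial.map (S : Ω →+* Ω) Q)) := by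
      have e3 := PP_map (p := p) (κ := κ) (t := t) (mapAlgHom S : MvPolynomial (Fin 2) Ω →ₐ[k] _) Q
      have e4 : (mapAlgHom S : MvPolynomial (Fin 2) Ω →ₐ[k] _) (PP p κ t Q) =
        MvPolynomial.map (S : Ω →+* Ω) (PP p κ t Q) := rfl
      have e5 : (mapAlgHom S : MvPolynomial (Fin 2) Ω →ₐ[k] _) Q =
        MvPolynomial.map (S : Ω →+* Ω) Q := rfl
      rw [e4, e5] at e3
      rw [← e3, coeff_map]
      rfl
    rw [e2]
    exact coeff_PP_mem hSp (hmS Q hQF) g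
  have hSGp : ∀ g, S (coeff g (G ^ p)) ∈ S₀ := fun g => by
    have e2 : S (coeff g (G ^ p)) = coeff g (MvPolynomial.map (S : Ω →+* Ω) G ^ p) := by
      rw [← map_pow, coeff_map]
      rfl
    rw [e2]
    have := coeff_pow_mem (p := p) hSp (hmS G hGF) 0 g
    rwa [zero_add, pow_one] at this
  have hGp : ∀ g, coeff g (G ^ p) ∈ S₀ := fun g => by
    have := coeff_pow_mem (p := p) hSp hGF 0 g
    rwa [zero_add, pow_one] at this
  have hxs : ∀ s ∈ S₀, D (x * s) = 0 := fun s hs => by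
    rw [mul_comm, lin_mul D hs, hDx, mul_zero]
  have he : algebraMap k Ω e ∈ S₀ := S₀.algebraMap_mem e
  have hke : ∀ y, Gt v 0 y → Gt v 0 (algebraMap k Ω e * y) := fun y hy => by
    by_cases he0 : e = 0
    · rw [he0, map_zero, zero_mul]
      exact Gt.zero
    · intro h0
      have hy0 : y ≠ 0 := right_ne_zero_of_mul h0
      have he1 : algebraMap k Ω e ≠ 0 := left_ne_zero_of_mul h0
      rw [v.map_mul he1 hy0, hk.triv _ he0, zero_add]
      exact hy hy0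
  -- `(S - 1) Y`
  have hY : ∀ g, Gt v 0 (D (S (algebraMap k Ω e * coeff g Z + coeff g B) -
      (algebraMap k Ω e * coeff g Z + coeff g B))) := fun g => by
    have e2 : S (algebraMap k Ω e * coeff g Z + coeff g B) -
        (algebraMap k Ω e * coeff g Z + coeff g B) =
        algebraMap k Ω e * (S (coeff g (Z - Q)) - coeff g (Z - Q)) +
          (S (coeff g R) - coeff g R) -
          x * (S (coeff g (PP p κ t Q)) - coeff g (PP p κ t Q)) +
          (S (coeff g (G ^ p)) - coeff g (G ^ p)) := by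
      rw [hR, coeff_sub, coeff_sub, coeff_add, coeff_add, coeff_C_mul, coeff_C_mul]
      simp only [map_sub, map_add, map_mul, AlgHom.commutes, hSx]
      ring
    rw [e2, map_add, map_sub, map_add, lin_mul D he, hxs _ (sub_mem (hSPP g)
      (coeff_PP_mem hSp hQF g)), lin_zero D hD1 (sub_mem (hSGp g) (hGp g)), sub_zero, add_zero]
    refine Gt.add (hke _ (hD0 _ ?_)) (hSR _ (hRF g) (hRge g))
    refine lim_move hS hstr hε hεm.le (fun ε' hε' => ?_) (h1 g)
    obtain ⟨f, hf, h5⟩ := hZ g ε' hε'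
    exact ⟨f - coeff g Q, sub_mem hf (hQF g), by rwa [coeff_sub, sub_sub_sub_cancel_right]⟩
  -- the constant
  have hc₀ : Gt v 0 (D (algebraMap k Ω e * Za + S a - a)) := by
    have hPθ : PP p κ t θ ∈ S₀ := by
      unfold PP
      refine sum_mem fun i _ => mul_mem (S₀.algebraMap_mem _) ?_
      rw [pow_succ, pow_mul]
      exact hSp _ (pow_mem hθF _)
    have hSPθ : S (PP p κ t θ) ∈ S₀ := by
      rw [PP_map]
      unfold PP
      refine sum_mem fun i _ => mul_mem (S₀.algebraMap_mem _) ?_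
      rw [pow_succ, pow_mul]
      exact hSp _ (pow_mem (hSF _ hθF) _)
    have e2 : algebraMap k Ω e * Za + S a - a =
        (S ρ - ρ) - algebraMap k Ω e * (S θ - θ - Za) - x * (S (PP p κ t θ) - PP p κ t θ) +
          ((S h) ^ p - h ^ p) := by
      rw [hρ]
      simp only [map_sub, map_add, map_mul, map_pow, AlgHom.commutes, hSx]
      ring
    rw [e2, map_add, map_sub, map_sub, lin_mul D he, hxs _ (sub_mem hSPθ hPθ),
      lin_zero D hD1 (sub_mem (hSp _ (hSF _ hhF)) (hSp _ hhF)), sub_zero, add_zero]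
    refine Gt.sub (hSR _ hρF h3) (hke _ ?_)
    exact hD0 _ (h4.ge)
  -- the sum
  have e4 : C (algebraMap k Ω e) * aeval L (Dc D Z) =
      C (algebraMap k Ω e) * Dc D (aeval L Z) := by
    by_cases h0 : e = 0
    · rw [h0, map_zero, C_0, zero_mul, zero_mul]
    · rw [Dc_aeval_p (p := p) hSp D hL (hZp h0)]
  have e5 : aeval L (C (algebraMap k Ω e) * Dc D Z + Dc D B) -
      (C (algebraMap k Ω e) * Dc D Z + Dc D B) + (Dc D (aeval L B) - aeval L (Dc D B)) =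
      C (algebraMap k Ω e) * Dc D (aeval L Z) + Dc D (aeval L B) -
        (C (algebraMap k Ω e) * Dc D Z + Dc D B) := by
    rw [map_add, map_mul (aeval L), aeval_C, algebraMap_eq, e4]
    ring
  have e6 : coeff g (aeval L Z) = coeff g (C Za) + S (coeff g Z) - coeff g (zet S L Za Z) := by
    unfold zet
    rw [coeff_sub, coeff_add, coeff_map]
    change _ = _ + S (coeff g Z) - (_ + S (coeff g Z) - _)
    ring
  have e7 : coeff g (aeval L B) = S (coeff g B) + coeff g (C (S a - a)) := by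
    have e8 : aeval L B = MvPolynomial.map (S : Ω →+* Ω) B + C (S a - a) := by
      rw [hB, map_sub, map_sub, e1, aeval_C, algebraMap_eq, map_C, C_sub]
      change _ - _ = _ - C (S a) + _
      ring
    rw [e8, coeff_add, coeff_map]
    rfl
  have e9 : coeff g (C (algebraMap k Ω e * Za + S a - a)) =
      algebraMap k Ω e * coeff g (C Za : MvPolynomial (Fin 2) Ω) + coeff g (C (S a - a)) := by
    rw [← coeff_C_mul, ← coeff_add, ← C_mul, ← C_add, add_sub_assoc]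
  have e10 : coeff g (C (algebraMap k Ω e) * Dc D (aeval L Z) + Dc D (aeval L B) -
      (C (algebraMap k Ω e) * Dc D Z + Dc D B)) =
      D (S (algebraMap k Ω e * coeff g Z + coeff g B) -
        (algebraMap k Ω e * coeff g Z + coeff g B)) +
      D (coeff g (C (algebraMap k Ω e * Za + S a - a))) -
      algebraMap k Ω e * D (coeff g (zet S L Za Z)) := by
    rw [coeff_sub, coeff_add, coeff_add, coeff_C_mul, coeff_C_mul, coeff_Dc' (map_zero D),
      coeff_Dc' (map_zero D), coeff_Dc' (map_zero D), coeff_Dc' (map_zero D), ← lin_mul D he,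
      ← lin_mul D he, ← lin_mul D he, e9, e6, e7, ← map_add, ← map_add, ← map_sub, ← map_add,
      ← map_sub]
    congr 1
    rw [map_add, map_mul, AlgHom.commutes]
    ring
  rw [e5, e10]
  refine Gt.sub (Gt.add (hY g) ?_) ?_
  · rw [coeff_C]
    split_ifs
    · exact hc₀
    · rw [map_zero]
      exact Gt.zero
  · by_cases h0 : e = 0
    · rw [h0, map_zero, zero_mul]
      exact Gt.zero
    · exact hke _ (hD0 _ (hζ h0 g))

end Frob

end Pool.Agent.TWRB
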