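import Pool.Agent.Lib.TWRB.R8a
import Pool.Agent.Lib.TWRB.R2

/-!
# RowB, R8: the displacement of `z` is a polynomial

`T c w = w + c₀`, `T c u = u + U(c₀) + c₁`, `W` fixed, `U` a polynomial with coefficients in the limits
of `F`; `z` is a limit of polynomials `θ(w, u)` over `W` with
`|e θ + x P(θ) + Pa - h ^ p| ≤ ε` at `(w, u)` (the tie); `D` a derivation of `F`, of norm `≤ 0`, `D x` a
unit. Then `T c z - z = Z(c)` modulo `O_0` for a polynomial `Z` over `Ω` (`exists_Z`).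
-/

set_option autoImplicit false

open MvPolynomial

namespace Pool.Agent.TWRB8

open Pool.Agent.H15JM (RVal)
open Pool.Agent.D2 (Ctx0)
open Pool.Agent.TWM
open Pool.Agent.TWS (IsoE SphC)
open Pool.Agent.TWLY
open Pool.Agent.TWCY
open Pool.Agent.TWCF
open Pool.Agent.TWRB (trf sbU sbU_trf sbU_C trf_mem map_eval_W coeff_prod_mem)
open Pool.Agent.TWPL (ptk)

universe u

variable {k Ω : Type u} [Field k] [Field Ω] [Algebra k Ω] {v : RVal Ω}
  {W F : IntermediateField k Ω} {w u z x : Ω} {T : (Fin 2 → k) → Ω →ₐ[k] Ω} {U f : Polynomial Ω}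
  {D : Ω → Ω} {e : k} {p : ℕ} {κ : ℕ → k} {t : ℕ} {Pa θ h : MvPolynomial (Fin 2) Ω}

/-- The action on the values of the polynomials over `W`. -/
theorem T_eval (hTW : ∀ c, ∀ f ∈ W, T c f = f) (hTw : ∀ c, T c w = w + algebraMap k Ω (c 0))
    (hTu : ∀ c, T c u = u + U.eval (algebraMap k Ω (c 0)) + algebraMap k Ω (c 1))
    (hθ : ∀ g, coeff g θ ∈ W) (c : Fin 2 → k) :
    T c (eval ![w, u] θ) = eval (pt c) (trf w u U θ) := by
  rw [map_eval_W (hTW c) hθ, hTw, hTu]
  exact (TWRB.eval_trf w u U θ c).symm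

/-- `θ(w + s, u + c + f(s)) - θ(w, u)`. -/
noncomputable def dq (w u : Ω) (f : Polynomial Ω) (θ : MvPolynomial (Fin 2) Ω) :
    MvPolynomial (Fin 2) Ω :=
  trf w u f θ - C (eval ![w, u] θ)

theorem coeff0_dq (hU0 : U.coeff 0 = 0) (θ : MvPolynomial (Fin 2) Ω) :
    coeff 0 (dq w u U θ) = 0 := by
  unfold dq
  rw [coeff_sub, coeff_zero_C]
  have h1 := TWRB.eval_trf w u U θ (0 : Fin 2 → Ω)
  have h2 : eval (ptk Ω (0 : Fin 2 → Ω)) (trf w u U θ) = coeff 0 (trf w u U θ) := by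
    rw [← constantCoeff_eq]
    exact eval₂Hom_zero_apply _ _
  rw [← h2, h1, sub_eq_zero]
  congr 2
  funext i
  fin_cases i
  · simp
  · simp [← Polynomial.coeff_zero_eq_eval_zero, hU0]

theorem eval_dq (hTW : ∀ c, ∀ f ∈ W, T c f = f) (hTw : ∀ c, T c w = w + algebraMap k Ω (c 0))
    (hTu : ∀ c, T c u = u + U.eval (algebraMap k Ω (c 0)) + algebraMap k Ω (c 1))
    (hθ : ∀ g, coeff g θ ∈ W) (c : Fin 2 → k) :
    eval (pt c) (dq w u U θ) = T c (eval ![w, u] θ) - eval ![w, u] θ := by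
  unfold dq
  rw [map_sub, eval_C, T_eval hTW hTw hTu hθ]

theorem sbU_dq (f δ : Polynomial Ω) (θ : MvPolynomial (Fin 2) Ω) :
    sbU δ (dq w u f θ) = dq w u (f + δ) θ := by
  unfold dq
  rw [map_sub, sbU_trf, sbU_C]

/-- The relation between the displacement polynomials. -/
noncomputable def rl (w u x : Ω) (e : k) (p : ℕ) (κ : ℕ → k) (t : ℕ)
    (Pa θ h : MvPolynomial (Fin 2) Ω) (f : Polynomial Ω) : MvPolynomial (Fin 2) Ω :=
  C (algebraMap k Ω e) * dq w u f θ + C x * PP p κ t (dq w u f θ) + dq w u f Pa - dq w u f h ^ p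

theorem sbU_rl (f δ : Polynomial Ω) :
    sbU δ (rl w u x e p κ t Pa θ h f) = rl w u x e p κ t Pa θ h (f + δ) := by
  have h1 : sbU δ (PP p κ t (dq w u f θ)) = PP p κ t (sbU δ (dq w u f θ)) :=
    PP_map ((sbU δ).restrictScalars k) _
  unfold rl
  rw [map_sub, map_add, map_add, map_mul, map_mul, map_pow, h1, sbU_dq, sbU_dq, sbU_dq, sbU_C, sbU_C]

/-- **The relation at `U`.** -/
theorem rel_U [Infinite k] [hp : Fact p.Prime] [CharP Ω p] (hk : Ctx0 k v)
    (hTi : ∀ c, IsoE v v (T c)) (hTW : ∀ c, ∀ f ∈ W, T c f = f)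
    (hTw : ∀ c, T c w = w + algebraMap k Ω (c 0))
    (hTu : ∀ c, T c u = u + U.eval (algebraMap k Ω (c 0)) + algebraMap k Ω (c 1)) (hx : x ∈ W)
    (hPa : ∀ g, coeff g Pa ∈ W) (hθ : ∀ g, coeff g θ ∈ W) (hh : ∀ g, coeff g h ∈ W) {r : ℝ}
    (hrel : v.Ge r (algebraMap k Ω e * eval ![w, u] θ + x * PP p κ t (eval ![w, u] θ) +
      eval ![w, u] Pa - eval ![w, u] h ^ p)) :
    GeC v r (rl w u x e p κ t Pa θ h U) := by
  intro g
  refine ge_coeff hk (fun c => ?_) g
  have e1 : eval (pt c) (rl w u x e p κ t Pa θ h U) =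
      T c (algebraMap k Ω e * eval ![w, u] θ + x * PP p κ t (eval ![w, u] θ) +
      eval ![w, u] Pa - eval ![w, u] h ^ p) -
      (algebraMap k Ω e * eval ![w, u] θ + x * PP p κ t (eval ![w, u] θ) +
      eval ![w, u] Pa - eval ![w, u] h ^ p) := by
    unfold rl
    rw [map_sub (eval (pt c)), map_add (eval (pt c)), map_add (eval (pt c)), map_mul (eval (pt c)),
      map_mul (eval (pt c)), map_pow (eval (pt c)), eval_C, eval_C, eval_PP,
      eval_dq hTW hTw hTu hθ, eval_dq hTW hTw hTu hPa, eval_dq hTW hTw hTu hh, PP_sub,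
      sub_pow_char, map_sub (T c), map_add (T c), map_add (T c), map_mul (T c),
      map_mul (T c), map_pow (T c), AlgHom.commutes, hTW c x hx, PP_map]
    ring
  rw [e1]
  exact ((hTi c).ge_iff.2 hrel).sub hrel

theorem dq_mem (hWF : W ≤ F) (hw : w ∈ F) (hu : u ∈ F) (hf : ∀ j, f.coeff j ∈ F)
    (hθ : ∀ g, coeff g θ ∈ W) (g : Ex) : coeff g (dq w u f θ) ∈ F := by
  classical
  unfold dq
  rw [coeff_sub, coeff_C]
  refine sub_mem (trf_mem hw hu hf (fun g => hWF (hθ g)) g) ?_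
  split_ifs
  · refine eval_mem' (fun g => hWF (hθ g)) fun i => ?_
    fin_cases i
    exacts [hw, hu]
  · exact zero_mem _

/-- The exponents of the substitution. -/
theorem WD.trf {n N : ℕ} (hf : f.natDegree ≤ n) (h : WD n N θ) : WD n N (TWRB.trf w u f θ) := by
  unfold TWRB.trf
  rw [aeval_def, eval₂_eq', algebraMap_eq]
  refine WD.sum _ fun m hm => ?_
  have h1 := h m (mem_support_iff.1 hm)
  rw [Fin.prod_univ_two]
  simp only [Matrix.cons_val_zero, Matrix.cons_val_one]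
  have h2 : WD n 1 (MvPolynomial.C w + MvPolynomial.X 0 : MvPolynomial (Fin 2) Ω) :=
    ((WD.C w).mono (Nat.zero_le _)).add WD.X0
  have h3 : WD n n (MvPolynomial.C u + MvPolynomial.X 1 +
      Polynomial.aeval (MvPolynomial.X 0) f : MvPolynomial (Fin 2) Ω) :=
    (((WD.C u).mono (Nat.zero_le _)).add WD.X1).add (WD.aevalX hf)
  refine ((WD.C (coeff m θ)).mul ((h2.pow (m 0)).mul (h3.pow (m 1)))).mono ?_
  rw [mul_comm n (m 1)] at h1
  omega

theorem WD.dq {n N : ℕ} (hf : f.natDegree ≤ n) (h : WD n N θ) : WD n N (dq w u f θ) :=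
  (WD.trf hf h).sub ((WD.C _).mono (Nat.zero_le _))

theorem exists_bound (q : MvPolynomial (Fin 2) Ω) : ∃ B : ℝ, ∀ g, v.Ge (-B) (coeff g q) := by
  refine ⟨∑ m ∈ q.support, |v (coeff m q)|, fun g hg => ?_⟩
  have h1 := Finset.single_le_sum (f := fun m => |v (coeff m q)|) (fun m _ => abs_nonneg _)
    (mem_support_iff.2 hg)
  have h2 := neg_abs_le (v (coeff g q))
  linarith

/-- **The coefficients of high weight are small**: real form. -/
theorem dq_small [Infinite k] [hp : Fact p.Prime] [CharP Ω p] (hk : Ctx0 k v) (hWF : W ≤ F)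
    (hw : w ∈ F) (hu : u ∈ F) (hD : Drv v F D) (hx : x ∈ W) (hD0 : D x ≠ 0) (hDv : v (D x) = 0)
    (hκ : κ t ≠ 0) (hPa : ∀ g, coeff g Pa ∈ W) (hθ : ∀ g, coeff g θ ∈ W) (hh : ∀ g, coeff g h ∈ W)
    (hf : ∀ j, f.coeff j ∈ F) {n N : ℕ} (hfn : f.natDegree ≤ n) (hN : WD n N Pa) {ε : ℝ}
    (hε : 0 ≤ ε) (hrel : GeC v (-ε) (rl w u x e p κ t Pa θ h f)) {g : Ex}
    (hg : N < g 0 + n * g 1) : v.Ge (-ε) (coeff g (dq w u f θ)) := by
  classical
  have hq := dq_mem (f := f) hWF hw hu hf hθ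
  have hA := dq_mem (f := f) hWF hw hu hf hPa
  have hs := dq_mem (f := f) hWF hw hu hf hh
  have hxF : x ∈ F := hWF hx
  set q := dq w u f θ with hqd
  set A := dq w u f Pa with hAd
  set s := dq w u f h with hsd
  -- the derivation
  have h2 : ∀ g, v.Ge (-ε) (coeff g (C (algebraMap k Ω e) * Dc D q + C (D x) * PP p κ t q +
      Dc D A)) := by
    intro g
    refine ge_coeff hk (fun c => ?_) g
    have m1 : eval (pt c) q ∈ F := eval_pt_mem hq c
    have m2 : eval (pt c) A ∈ F := eval_pt_mem hA c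
    have m3 : eval (pt c) s ∈ F := eval_pt_mem hs c
    have m4 : algebraMap k Ω e * eval (pt c) q ∈ F := mul_mem (F.algebraMap_mem _) m1
    have m5 : x * PP p κ t (eval (pt c) q) ∈ F := mul_mem hxF (PP_mem m1)
    have m6 := add_mem (add_mem m4 m5) m2
    have h1 : v.Ge (-ε) (algebraMap k Ω e * eval (pt c) q + x * PP p κ t (eval (pt c) q) +
        eval (pt c) A - eval (pt c) s ^ p) := by
      have h0 := ge_eval hk hrel c
      unfold rl at h0
      rwa [← hqd, ← hAd, ← hsd, map_sub, map_add, map_add, map_mul, map_mul, map_pow, eval_C, eval_C,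
        eval_PP] at h0
    have h3 := hD.norm _ (sub_mem m6 (pow_mem m3 p)) _ h1
    rw [hD.map_sub m6 (pow_mem m3 p), hD.map_pow_char m3, hD.add _ (add_mem m4 m5) _ m2,
      hD.add _ m4 _ m5, hD.map_smul _ m1, hD.mul _ hxF _ (PP_mem m1), Drv.map_PP hD m1] at h3
    rw [map_add, map_add, map_mul, map_mul, eval_C, eval_C, eval_Dc hD hq, eval_Dc hD hA, eval_PP]
    convert h3 using 1
    ring
  obtain ⟨B, hB⟩ := exists_bound (v := v) q
  have hsm : ∀ (j : ℕ) (g : Ex), (p ^ j • g) 0 + n * (p ^ j • g) 1 = p ^ j * (g 0 + n * g 1) := by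
    intro j g
    rw [Finsupp.smul_apply, Finsupp.smul_apply, smul_eq_mul, smul_eq_mul]
    ring
  have hst : ∀ g ∈ {g : Ex | N < g 0 + n * g 1}, ∀ j : ℕ, p ^ j • g ∈ {g : Ex | N < g 0 + n * g 1} := by
    intro g hg j
    have h3 : N < g 0 + n * g 1 := hg
    change N < (p ^ j • g) 0 + n * (p ^ j • g) 1
    rw [hsm]
    calc N < g 0 + n * g 1 := h3
      _ = 1 * (g 0 + n * g 1) := (one_mul _).symm
      _ ≤ p ^ j * (g 0 + n * g 1) :=
        Nat.mul_le_mul_right _ (Nat.one_le_iff_ne_zero.2 (pow_ne_zero _ hp.out.ne_zero))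
  refine chain_fin' hk hp.out hκ hε (z := fun g => coeff g q) hB hst (fun g hg r hr hZ => ?_) g hg
  have h3 := h2 (p ^ (t + 1) • g)
  have h4 : coeff (p ^ (t + 1) • g) A = 0 := by
    by_contra h5
    have h6 : WD n N A := WD.dq hfn hN
    have h7 := h6 _ h5
    have h8 : N < (p ^ (t + 1) • g) 0 + n * (p ^ (t + 1) • g) 1 := hst g hg (t + 1)
    omega
  rw [coeff_add, coeff_add, coeff_C_mul, coeff_C_mul, coeff_Dc hD, coeff_Dc hD, h4, hD.map_zero,
    add_zero] at h3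
  have h5 : v.Ge r (D (coeff (p ^ (t + 1) • g) q)) := hD.norm _ (hq _) _ hZ
  have h6 : v.Ge r (coeff (p ^ (t + 1) • g) (PP p κ t q)) := by
    refine ge_of_unit_mul hD0 hDv ?_
    have e1 : D x * coeff (p ^ (t + 1) • g) (PP p κ t q) =
        (algebraMap k Ω e * D (coeff (p ^ (t + 1) • g) q) +
          D x * coeff (p ^ (t + 1) • g) (PP p κ t q)) -
        algebraMap k Ω e * D (coeff (p ^ (t + 1) • g) q) := by ring
    rw [e1]
    have h7 := (hk.ge e).mul h5
    rw [zero_add] at h7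
    exact (h3.mono hr).sub h7
  rwa [coeff_PP_smul] at h6

/-- An approximation of `U` by a polynomial over `F`. -/
theorem exists_near (hUF : ∀ j, Lim v F 0 (U.coeff j)) {ε : ℝ} (hε : 0 < ε) :
    ∃ f : Polynomial Ω, (∀ j, f.coeff j ∈ F) ∧ f.natDegree ≤ U.natDegree ∧
      ∀ j, v.Ge (-ε) (f.coeff j - U.coeff j) := by
  classical
  choose a ha hUa using fun j => Lim.neg_eps (hUF j) hε
  have hc : ∀ j, (∑ i ∈ Finset.range (U.natDegree + 1), Polynomial.monomial i (a i)).coeff j =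
      if j ∈ Finset.range (U.natDegree + 1) then a j else 0 := by
    intro j
    rw [Polynomial.finsetSum_coeff]
    simp only [Polynomial.coeff_monomial]
    rw [Finset.sum_ite_eq']
  refine ⟨∑ i ∈ Finset.range (U.natDegree + 1), Polynomial.monomial i (a i), fun j => ?_, ?_,
    fun j => ?_⟩
  · rw [hc]
    split_ifs
    exacts [ha j, zero_mem _]
  · refine Polynomial.natDegree_le_iff_coeff_eq_zero.2 fun j hj => ?_
    rw [hc, if_neg]
    rw [Finset.mem_range]
    omega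
  · rw [hc]
    split_ifs with h1
    · have e1 : a j - U.coeff j = -(U.coeff j - a j) := by ring
      rw [e1]
      exact (hUa j).neg
    · rw [Finset.mem_range] at h1
      rw [Polynomial.coeff_eq_zero_of_natDegree_lt (by omega), sub_zero]
      exact RVal.Ge.zero

theorem exists_WD (n : ℕ) (q : MvPolynomial (Fin 2) Ω) : ∃ N : ℕ, WD n N q :=
  ⟨q.support.sup fun m => m 0 + n * m 1, fun _ hm =>
    Finset.le_sup (f := fun m : Ex => m 0 + n * m 1) (mem_support_iff.2 hm)⟩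

/-- **The coefficients of high weight are small.** -/
theorem dq_small_U [Infinite k] [hp : Fact p.Prime] [CharP Ω p] (hk : Ctx0 k v) (hWF : W ≤ F)
    (hw : w ∈ F) (hu : u ∈ F) (hD : Drv v F D) (hx : x ∈ W) (hD0 : D x ≠ 0) (hDv : v (D x) = 0)
    (hκ : κ t ≠ 0) (hPa : ∀ g, coeff g Pa ∈ W) (hθ : ∀ g, coeff g θ ∈ W) (hh : ∀ g, coeff g h ∈ W)
    (hUF : ∀ j, Lim v F 0 (U.coeff j)) {n N : ℕ} (hUn : U.natDegree ≤ n) (hn1 : 1 ≤ n)
    (hN : WD n N Pa) {ε : ℝ} (hε : 0 < ε) (hrel : GeC v (-ε) (rl w u x e p κ t Pa θ h U)) {g : Ex}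
    (hg : N < g 0 + n * g 1) : v.Ge (-(3 * ε)) (coeff g (dq w u U θ)) := by
  obtain ⟨M, hM⟩ := exists_WD n (rl w u x e p κ t Pa θ h U)
  obtain ⟨M', hM'⟩ := exists_WD n θ
  have h1 : ∀ (N : ℕ) (q : MvPolynomial (Fin 2) Ω), WD n N q → ∀ m, coeff m q ≠ 0 → m 1 ≤ N := by
    intro N q hq m hm
    have h2 := hq m hm
    have h3 : 1 * m 1 ≤ n * m 1 := Nat.mul_le_mul_right _ hn1
    omega
  have hpos : (0 : ℝ) < M + M' + 1 := by positivity
  obtain ⟨f, hfF, hfn, hfU⟩ := exists_near hUF (ε := ε / (M + M' + 1)) (by positivity)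
  have hfn' : f.natDegree ≤ n := hfn.trans hUn
  have hMε : (M : ℝ) * (ε / (M + M' + 1)) ≤ ε := by
    rw [mul_div_assoc', div_le_iff₀ hpos]
    have h2 : (0 : ℝ) ≤ M' := Nat.cast_nonneg _
    nlinarith
  have hMε' : (M' : ℝ) * (ε / (M + M' + 1)) ≤ ε := by
    rw [mul_div_assoc', div_le_iff₀ hpos]
    have h2 : (0 : ℝ) ≤ M := Nat.cast_nonneg _
    nlinarith
  have hε' : (0 : ℝ) ≤ ε / (M + M' + 1) := by positivity
  -- the relation at `f`
  have h2 : GeC v (-(2 * ε)) (rl w u x e p κ t Pa θ h f) := by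
    intro g
    have e1 : rl w u x e p κ t Pa θ h f = sbU (f - U) (rl w u x e p κ t Pa θ h U) := by
      rw [sbU_rl, add_sub_cancel]
    rw [e1]
    have h3 := sbU_ge (K := 0) (r := -ε) hε' (δ := f - U) (fun j => by
      rw [Polynomial.coeff_sub]
      exact hfU j) (n := n) ((Polynomial.natDegree_sub_le _ _).trans (max_le hfn' hUn))
      (h1 M _ hM) (fun m _ => hrel m) (g := g) (Nat.zero_le _)
    refine h3.mono ?_
    linarith
  have h3 : ∀ g : Ex, N + 1 ≤ g 0 + n * g 1 → v.Ge (-(2 * ε)) (coeff g (dq w u f θ)) :=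
    fun g hg => dq_small hk hWF hw hu hD hx hD0 hDv hκ hPa hθ hh hfF hfn' hN (by linarith) h2 hg
  have e1 : dq w u U θ = sbU (U - f) (dq w u f θ) := by
    rw [sbU_dq, add_sub_cancel]
  rw [e1]
  have h4 := sbU_ge (K := N + 1) (r := -(2 * ε)) hε' (δ := U - f) (fun j => by
      have e2 : (U - f).coeff j = -(f.coeff j - U.coeff j) := by
        rw [Polynomial.coeff_sub]
        ring
      rw [e2]
      exact (hfU j).neg) (n := n) ((Polynomial.natDegree_sub_le _ _).trans (max_le hUn hfn'))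
      (h1 M' _ (WD.dq hfn' hM')) h3 (g := g) hg
  refine h4.mono ?_
  linarith

/-- **R8: the displacement of `z` is a polynomial**, modulo `O_0`. -/
theorem exists_Z [Infinite k] [hp : Fact p.Prime] [CharP Ω p] (hk : Ctx0 k v) (hsp : SphC v)
    (hWF : W ≤ F) (hw : w ∈ F) (hu : u ∈ F)
    (hTi : ∀ c, IsoE v v (T c)) (hTW : ∀ c, ∀ f ∈ W, T c f = f)
    (hTw : ∀ c, T c w = w + algebraMap k Ω (c 0))
    (hTu : ∀ c, T c u = u + U.eval (algebraMap k Ω (c 0)) + algebraMap k Ω (c 1))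
    (hU0 : U.coeff 0 = 0) (hUF : ∀ j, Lim v F 0 (U.coeff j)) (hD : Drv v F D) (hx : x ∈ W)
    (hD0 : D x ≠ 0) (hDv : v (D x) = 0) (hκ : κ t ≠ 0) (hPa : ∀ g, coeff g Pa ∈ W) {G : Ex → Prop}
    (tie : ∀ ε : ℝ, 0 < ε → ∃ θ h : MvPolynomial (Fin 2) Ω, (∀ g, coeff g θ ∈ W) ∧
      (∀ g, coeff g h ∈ W) ∧ (∀ g, g ≠ 0 → coeff g (trf w u U θ) ≠ 0 → G g) ∧
      v.Ge (-ε) (z - eval ![w, u] θ) ∧
      v.Ge (-ε) (algebraMap k Ω e * eval ![w, u] θ + x * PP p κ t (eval ![w, u] θ) +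
        eval ![w, u] Pa - eval ![w, u] h ^ p)) :
    ∃ Z : MvPolynomial (Fin 2) Ω, coeff 0 Z = 0 ∧ (∀ g, coeff g Z ≠ 0 → G g) ∧
      (∀ g, v.Ge 0 (coeff g Z) → coeff g Z = 0) ∧
      ∀ c, v.Ge 0 (T c z - z - eval (pt c) Z) := by
  classical
  have he : ∀ n : ℕ, (0 : ℝ) < 1 / (n + 1) := fun n => by positivity
  choose θ h hθ hh hG hz hrel using fun n : ℕ => tie _ (he n)
  obtain ⟨N, hN⟩ := exists_WD (U.natDegree + 1) Pa
  -- the differences
  have hdiff : ∀ (r : ℝ) (n m : ℕ), v.Ge r (eval ![w, u] (θ m) - eval ![w, u] (θ n)) →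
      ∀ g, v.Ge r (coeff g (dq w u U (θ m)) - coeff g (dq w u U (θ n))) := by
    intro r n m h0 g
    rw [← coeff_sub]
    refine ge_coeff hk (fun c => ?_) g
    rw [map_sub, eval_dq hTW hTw hTu (hθ m), eval_dq hTW hTw hTu (hθ n)]
    have e1 : T c (eval ![w, u] (θ m)) - eval ![w, u] (θ m) -
        (T c (eval ![w, u] (θ n)) - eval ![w, u] (θ n)) =
        T c (eval ![w, u] (θ m) - eval ![w, u] (θ n)) -
          (eval ![w, u] (θ m) - eval ![w, u] (θ n)) := by
      rw [map_sub]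
      ring
    rw [e1]
    exact ((hTi c).ge_iff.2 h0).sub h0
  have hmono : ∀ n m : ℕ, n ≤ m → (1 : ℝ) / (m + 1) ≤ 1 / (n + 1) := by
    intro n m hnm
    apply one_div_le_one_div_of_le
    · positivity
    · have : (n : ℝ) ≤ m := by exact_mod_cast hnm
      linarith
  have hcau : ∀ (g : Ex) (n m : ℕ), n ≤ m →
      v.Ge (-(1 / ((n : ℝ) + 1))) (coeff g (dq w u U (θ m)) - coeff g (dq w u U (θ n))) := by
    intro g n m hnm
    refine hdiff _ n m ?_ g
    have e1 : eval ![w, u] (θ m) - eval ![w, u] (θ n) =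
        (z - eval ![w, u] (θ n)) - (z - eval ![w, u] (θ m)) := by ring
    rw [e1]
    exact (hz n).sub ((hz m).mono (neg_le_neg (hmono n m hnm)))
  choose Y hY using fun g => hsp (fun n => coeff g (dq w u U (θ n))) (fun n => -(1 / ((n : ℝ) + 1)))
    (fun n m hnm => hcau g n m hnm)
  have hlim : ∀ (y : Ω) (Q : ℝ), 0 < Q → (∀ n : ℕ, v.Ge (-(Q * (1 / ((n : ℝ) + 1)))) y) →
      v.Ge 0 y := by
    intro y Q hQ h0
    refine ge_zero_of_eps' hQ fun ε hε => ?_
    obtain ⟨n, hn⟩ := exists_nat_one_div_lt hε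
    refine (h0 n).mono ?_
    have := mul_le_mul_of_nonneg_left hn.le hQ.le
    linarith
  -- the exact properties of the jets
  have hY0 : v.Ge 0 (Y 0) := by
    refine hlim _ 1 one_pos fun n => ?_
    have h1 := hY 0 n
    rw [coeff0_dq hU0, sub_zero] at h1
    rwa [one_mul]
  have hYG : ∀ g, ¬ v.Ge 0 (Y g) → G g := by
    intro g hg
    by_contra hGg
    have hg0 : g ≠ 0 := by
      rintro rfl
      exact hg hY0
    refine hg (hlim _ 1 one_pos fun n => ?_)
    have h1 := hY g n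
    have h2 : coeff g (dq w u U (θ n)) = 0 := by
      unfold dq
      rw [coeff_sub, coeff_C, if_neg (Ne.symm hg0), sub_zero]
      by_contra h3
      exact hGg (hG n g hg0 h3)
    rw [h2, sub_zero] at h1
    rwa [one_mul]
  have hYN : ∀ g : Ex, N < g 0 + (U.natDegree + 1) * g 1 → v.Ge 0 (Y g) := by
    intro g hg
    refine hlim _ 3 (by norm_num) fun n => ?_
    have h1 := hY g n
    have h2 := dq_small_U hk hWF hw hu hD hx hD0 hDv hκ hPa (hθ n) (hh n) hUF
      (Nat.le_succ _) (Nat.succ_le_succ (Nat.zero_le _)) hN (he n)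
      (rel_U hk hTi hTW hTw hTu hx hPa (hθ n) (hh n) (hrel n)) hg
    have e1 : Y g = (Y g - coeff g (dq w u U (θ n))) + coeff g (dq w u U (θ n)) := by ring
    rw [e1]
    refine (h1.mono ?_).add h2
    have := (he n).le
    linarith
  -- the polynomial
  set S : Finset Ex := ((Finset.range (N + 1) ×ˢ Finset.range (N + 1)).image
    fun ab => TWLY.mk ab.1 ab.2).filter fun g => ¬ v.Ge 0 (Y g) with hS
  have hmem : ∀ g, g ∈ S ↔ ¬ v.Ge 0 (Y g) := by
    intro g
    rw [hS, Finset.mem_filter, and_iff_right_iff_imp]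
    intro hg
    have h1 : ¬ N < g 0 + (U.natDegree + 1) * g 1 := fun h1 => hg (hYN g h1)
    have h2 : 1 * g 1 ≤ (U.natDegree + 1) * g 1 :=
      Nat.mul_le_mul_right _ (Nat.succ_le_succ (Nat.zero_le _))
    refine Finset.mem_image.2 ⟨(g 0, g 1), ?_, mk_eta g⟩
    rw [Finset.mem_product, Finset.mem_range, Finset.mem_range]
    constructor <;> simp only [] <;> omega
  have hc : ∀ g, coeff g (∑ m ∈ S, monomial m (Y m)) = if g ∈ S then Y g else 0 := by
    intro g
    rw [coeff_sum]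
    simp only [coeff_monomial]
    rw [Finset.sum_ite_eq']
  refine ⟨∑ m ∈ S, monomial m (Y m), ?_, fun g hg => ?_, fun g hg => ?_, fun c => ?_⟩
  · rw [hc, if_neg]
    rw [hmem]
    exact fun h0 => h0 hY0
  · rw [hc] at hg
    by_cases h1 : g ∈ S
    · exact hYG g ((hmem g).1 h1)
    · rw [if_neg h1] at hg
      exact absurd rfl hg
  · rw [hc] at hg ⊢
    by_cases h1 : g ∈ S
    · rw [if_pos h1] at hg
      exact absurd hg ((hmem g).1 h1)
    · rw [if_neg h1]
  · refine hlim _ 1 one_pos fun n => ?_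
    rw [one_mul]
    have e1 : T c z - z - eval (pt c) (∑ m ∈ S, monomial m (Y m)) =
        T c (z - eval ![w, u] (θ n)) - (z - eval ![w, u] (θ n)) +
        eval (pt c) (dq w u U (θ n) - ∑ m ∈ S, monomial m (Y m)) := by
      rw [map_sub (eval (pt c)), eval_dq hTW hTw hTu (hθ n), map_sub]
      ring
    rw [e1]
    refine (((hTi c).ge_iff.2 (hz n)).sub (hz n)).add (ge_eval hk (fun g => ?_) c)
    rw [coeff_sub, hc]
    have h1 := hY g n
    have e2 : coeff g (dq w u U (θ n)) = Y g - (Y g - coeff g (dq w u U (θ n))) := by ring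
    by_cases h2 : g ∈ S
    · rw [if_pos h2]
      have e3 : coeff g (dq w u U (θ n)) - Y g = -(Y g - coeff g (dq w u U (θ n))) := by ring
      rw [e3]
      exact h1.neg
    · rw [if_neg h2, sub_zero, e2]
      have h3 : v.Ge 0 (Y g) := by
        by_contra h3
        exact h2 ((hmem g).2 h3)
      exact (h3.mono (by have := (he n).le; linarith)).sub h1

/-- The exponents divisible by `p`. -/
theorem trf_dvd [hp : Fact p.Prime] [CharP Ω p] (hθ : ∀ g, coeff g θ ≠ 0 → ∀ i, p ∣ g i) {g : Ex}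
    (hg : coeff g (trf w u f θ) ≠ 0) (i : Fin 2) : p ∣ g i := by
  classical
  by_contra hgi
  refine hg ?_
  unfold trf
  rw [aeval_def, eval₂_eq', algebraMap_eq, coeff_sum]
  refine Finset.sum_eq_zero fun m hm => ?_
  have h1 := hθ m (mem_support_iff.1 hm)
  obtain ⟨a, ha⟩ := h1 0
  obtain ⟨b, hb⟩ := h1 1
  rw [coeff_C_mul, Fin.prod_univ_two, ha, hb, mul_comm p a, mul_comm p b, pow_mul, pow_mul,
    ← mul_pow]
  have h2 := coeff_pow_ndvd (p := p) ((![C w + X 0, C u + X 1 + Polynomial.aeval (X 0) f] :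
    Fin 2 → MvPolynomial (Fin 2) Ω) 0 ^ a * (![C w + X 0, C u + X 1 +
      Polynomial.aeval (X 0) f] : Fin 2 → MvPolynomial (Fin 2) Ω) 1 ^ b) hgi (j := 1) one_ne_zero
  rw [pow_one] at h2
  rw [h2, mul_zero]

end Pool.Agent.TWRB8
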