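import Pool.Agent.Lib.TWCF.Shift
import Pool.Agent.Lib.TWRB.LemR

/-!
# RowB, R8, part 1: substitutions, sizes, weights

* `sbU_ge`: `sbU δ q = q(s, c + δ(s))` and the sizes of the coefficients of weight `≥ K` (weight
  `a + n b` of `s^a c^b`, `n ≥ deg δ`);
* `chain_fin'`: the chain, with an error.
-/

set_option autoImplicit false

open MvPolynomial

namespace Pool.Agent.TWRB8

open Pool.Agent.H15JM (RVal)
open Pool.Agent.D2 (Ctx0)
open Pool.Agent.TWM
open Pool.Agent.TWS (IsoE SphC)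
open Pool.Agent.TWLY
open Pool.Agent.TWCY
open Pool.Agent.TWCF
open Pool.Agent.TWRB (trf sbU sbU_trf sbU_C)

universe u

variable {k Ω : Type u} [Field k] [Field Ω] [Algebra k Ω] {v : RVal Ω}

section size

/-- All coefficients have value `≥ r`. -/
def GeC (v : RVal Ω) (r : ℝ) (q : MvPolynomial (Fin 2) Ω) : Prop := ∀ g, v.Ge r (coeff g q)

theorem GeC.mul {a b : ℝ} {q q' : MvPolynomial (Fin 2) Ω} (h : GeC v a q) (h' : GeC v b q') :
    GeC v (a + b) (q * q') := by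
  classical
  intro g
  rw [coeff_mul]
  exact RVal.Ge.sum _ _ fun x _ => (h _).mul (h' _)

theorem GeC.one : GeC v 0 (1 : MvPolynomial (Fin 2) Ω) := by
  classical
  intro g
  rw [coeff_one]
  split_ifs
  · intro _
    rw [v.map_one]
  · exact RVal.Ge.zero

theorem GeC.X (i : Fin 2) : GeC v 0 (X i : MvPolynomial (Fin 2) Ω) := by
  classical
  intro g
  rw [coeff_X]
  split_ifs
  · intro _
    rw [v.map_one]
  · exact RVal.Ge.zero

theorem GeC.add {a : ℝ} {q q' : MvPolynomial (Fin 2) Ω} (h : GeC v a q) (h' : GeC v a q') :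
    GeC v a (q + q') := fun g => by
  rw [coeff_add]
  exact (h g).add (h' g)

theorem GeC.sum {a : ℝ} {ι : Type*} (S : Finset ι) {q : ι → MvPolynomial (Fin 2) Ω}
    (h : ∀ i ∈ S, GeC v a (q i)) : GeC v a (∑ i ∈ S, q i) := fun g => by
  rw [coeff_sum]
  exact RVal.Ge.sum _ _ fun i hi => h i hi g

theorem GeC.mono {a b : ℝ} {q : MvPolynomial (Fin 2) Ω} (h : GeC v a q) (hab : b ≤ a) :
    GeC v b q := fun g => (h g).mono hab

theorem GeC.C {a : ℝ} {x : Ω} (h : v.Ge a x) : GeC v a (C x : MvPolynomial (Fin 2) Ω) := by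
  classical
  intro g
  rw [coeff_C]
  split_ifs
  exacts [h, RVal.Ge.zero]

theorem GeC.pow {a : ℝ} {q : MvPolynomial (Fin 2) Ω} (h : GeC v (-a) q) (n : ℕ) :
    GeC v (-(n * a)) (q ^ n) := by
  induction n with
  | zero =>
    rw [pow_zero]
    refine GeC.one.mono ?_
    push_cast
    linarith
  | succ n ih =>
    rw [pow_succ]
    refine (ih.mul h).mono ?_
    push_cast
    linarith

/-- The exponents have weight `≤ N`. -/
def WD (n N : ℕ) (q : MvPolynomial (Fin 2) Ω) : Prop := ∀ g, coeff g q ≠ 0 → g 0 + n * g 1 ≤ N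

theorem WD.mul {n a b : ℕ} {q q' : MvPolynomial (Fin 2) Ω} (h : WD n a q) (h' : WD n b q') :
    WD n (a + b) (q * q') := by
  classical
  intro g hg
  rw [coeff_mul] at hg
  obtain ⟨x, hx, h1⟩ := Finset.exists_ne_zero_of_sum_ne_zero hg
  have h2 := h _ (left_ne_zero_of_mul h1)
  have h3 := h' _ (right_ne_zero_of_mul h1)
  have h4 := Finset.HasAntidiagonal.mem_antidiagonal.1 hx
  rw [← h4, Finsupp.add_apply, Finsupp.add_apply, mul_add]
  omega

theorem WD.one {n : ℕ} : WD n 0 (1 : MvPolynomial (Fin 2) Ω) := by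
  classical
  intro g hg
  rw [coeff_one] at hg
  by_cases h : (0 : Ex) = g
  · rw [← h]
    simp
  · rw [if_neg h] at hg
    exact absurd rfl hg

theorem WD.pow {n a : ℕ} {q : MvPolynomial (Fin 2) Ω} (h : WD n a q) (j : ℕ) :
    WD n (j * a) (q ^ j) := by
  induction j with
  | zero =>
    rw [pow_zero, zero_mul]
    exact WD.one
  | succ j ih =>
    rw [pow_succ, Nat.succ_mul]
    exact ih.mul h

theorem WD.mono {n a b : ℕ} {q : MvPolynomial (Fin 2) Ω} (h : WD n a q) (hab : a ≤ b) :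
    WD n b q := fun g hg => (h g hg).trans hab

theorem WD.add {n a : ℕ} {q q' : MvPolynomial (Fin 2) Ω} (h : WD n a q) (h' : WD n a q') :
    WD n a (q + q') := by
  intro g hg
  rw [coeff_add] at hg
  by_cases h1 : coeff g q = 0
  · rw [h1, zero_add] at hg
    exact h' g hg
  · exact h g h1

theorem WD.sub {n a : ℕ} {q q' : MvPolynomial (Fin 2) Ω} (h : WD n a q) (h' : WD n a q') :
    WD n a (q - q') := by
  intro g hg
  rw [coeff_sub] at hg
  by_cases h1 : coeff g q = 0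
  · rw [h1, zero_sub, neg_ne_zero] at hg
    exact h' g hg
  · exact h g h1

theorem WD.sum {n a : ℕ} {ι : Type*} (S : Finset ι) {q : ι → MvPolynomial (Fin 2) Ω}
    (h : ∀ i ∈ S, WD n a (q i)) : WD n a (∑ i ∈ S, q i) := by
  intro g hg
  rw [coeff_sum] at hg
  obtain ⟨i, hi, h1⟩ := Finset.exists_ne_zero_of_sum_ne_zero hg
  exact h i hi g h1

theorem WD.C {n : ℕ} (x : Ω) : WD n 0 (C x : MvPolynomial (Fin 2) Ω) := by
  classical
  intro g hg
  rw [coeff_C] at hg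
  by_cases h : (0 : Ex) = g
  · rw [← h]
    simp
  · rw [if_neg h] at hg
    exact absurd rfl hg

theorem WD.X0 {n : ℕ} : WD n 1 (X 0 : MvPolynomial (Fin 2) Ω) := by
  classical
  intro g hg
  rw [coeff_X] at hg
  by_cases h : Finsupp.single 0 1 = g
  · rw [← h]
    simp
  · rw [if_neg h] at hg
    exact absurd rfl hg

theorem WD.X1 {n : ℕ} : WD n n (X 1 : MvPolynomial (Fin 2) Ω) := by
  classical
  intro g hg
  rw [coeff_X] at hg
  by_cases h : Finsupp.single 1 1 = g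
  · rw [← h]
    simp
  · rw [if_neg h] at hg
    exact absurd rfl hg

variable {δ : Polynomial Ω}

theorem aevalX_eq {n : ℕ} (hδ : δ.natDegree ≤ n) :
    Polynomial.aeval (X 0 : MvPolynomial (Fin 2) Ω) δ =
      ∑ j ∈ Finset.range (n + 1), C (δ.coeff j) * X 0 ^ j := by
  rw [Polynomial.aeval_eq_sum_range' (n := n + 1) (by omega)]
  refine Finset.sum_congr rfl fun j _ => ?_
  rw [smul_eq_C_mul]

theorem WD.aevalX {n : ℕ} (hδ : δ.natDegree ≤ n) :
    WD n n (Polynomial.aeval (X 0 : MvPolynomial (Fin 2) Ω) δ) := by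
  rw [aevalX_eq hδ]
  refine WD.sum _ fun j hj => ?_
  have h1 := (WD.C (n := n) (δ.coeff j)).mul ((WD.X0 (Ω := Ω) (n := n)).pow j)
  refine h1.mono ?_
  have := Finset.mem_range.1 hj
  omega

theorem GeC.aevalX {r : ℝ} (hδ : ∀ j, v.Ge r (δ.coeff j)) :
    GeC v r (Polynomial.aeval (MvPolynomial.X 0 : MvPolynomial (Fin 2) Ω) δ) := by
  rw [aevalX_eq le_rfl]
  refine GeC.sum _ fun j _ => ?_
  have h0 : GeC v 0 ((MvPolynomial.X 0 : MvPolynomial (Fin 2) Ω) ^ j) := by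
    have := (GeC.X (v := v) (0 : Fin 2)).mono (b := -(0 : ℝ)) (by simp)
    refine (this.pow j).mono ?_
    simp
  have := (GeC.C (hδ j)).mul h0
  rwa [add_zero] at this

/-- The image of a monomial. -/
theorem sbU_mon (δ : Polynomial Ω) (m : Ex) (a : Ω) :
    sbU δ (monomial m a) = C a * (X 0 ^ m 0 * (X 1 + Polynomial.aeval (X 0) δ) ^ m 1) := by
  unfold sbU
  rw [aeval_monomial, algebraMap_eq, Finsupp.prod_fintype _ _ (fun i => by simp), Fin.prod_univ_two]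
  simp

/-- **`sbU` and the sizes.** -/
theorem sbU_ge {ε r : ℝ} (hε : 0 ≤ ε) (hδ : ∀ j, v.Ge (-ε) (δ.coeff j)) {n : ℕ}
    (hn : δ.natDegree ≤ n) {K N : ℕ} {q : MvPolynomial (Fin 2) Ω}
    (hN : ∀ m, coeff m q ≠ 0 → m 1 ≤ N) (hq : ∀ m : Ex, K ≤ m 0 + n * m 1 → v.Ge r (coeff m q))
    {g : Ex} (hg : K ≤ g 0 + n * g 1) : v.Ge (r - N * ε) (coeff g (sbU δ q)) := by
  classical
  rw [q.as_sum, map_sum, coeff_sum]
  refine RVal.Ge.sum _ _ fun m hm => ?_
  rw [sbU_mon, coeff_C_mul]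
  by_cases h0 : coeff g (X 0 ^ m 0 * (X 1 + Polynomial.aeval (X 0) δ) ^ m 1 :
      MvPolynomial (Fin 2) Ω) = 0
  · rw [h0, mul_zero]
    exact RVal.Ge.zero
  have h1 : WD n (m 0 + m 1 * n) (X 0 ^ m 0 * (X 1 + Polynomial.aeval (X 0) δ) ^ m 1 :
      MvPolynomial (Fin 2) Ω) := by
    have h2 := ((WD.X0 (Ω := Ω) (n := n)).pow (m 0)).mul ((WD.X1.add (WD.aevalX hn)).pow (m 1))
    refine h2.mono ?_
    omega
  have h2 := h1 g h0
  have h3 : K ≤ m 0 + n * m 1 := by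
    rw [mul_comm n (m 1)]
    exact hg.trans h2
  have h4 : GeC v (-(N * ε)) (X 0 ^ m 0 * (X 1 + Polynomial.aeval (X 0) δ) ^ m 1 :
      MvPolynomial (Fin 2) Ω) := by
    have h5 : GeC v (-0) ((X 0 : MvPolynomial (Fin 2) Ω)) := (GeC.X 0).mono (by simp)
    have h6 : GeC v (-ε) (X 1 + Polynomial.aeval (X 0) δ : MvPolynomial (Fin 2) Ω) :=
      ((GeC.X 1).mono (by linarith)).add (GeC.aevalX hδ)
    refine ((h5.pow (m 0)).mul (h6.pow (m 1))).mono ?_
    have h7 := hN m (mem_support_iff.1 hm)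
    have h8 : ((m 1 : ℕ) : ℝ) ≤ N := by exact_mod_cast h7
    have h9 := mul_le_mul_of_nonneg_right h8 hε
    linarith
  have h5 := (hq m h3).mul (h4 g)
  refine h5.mono ?_
  linarith

end size

section chain

variable {p : ℕ} {κ : ℕ → k} {t : ℕ} {I : Type*} [MulAction ℕ I]

/-- One step of the chain, with the error `ε`. -/
theorem chain_step' (hk : Ctx0 k v) (hp : p.Prime) (hκ : κ t ≠ 0) {ε : ℝ} (hε : 0 ≤ ε) {z : I → Ω}
    {g : I} {c : ℝ} (hc : c < -ε) (hz0 : z g ≠ 0) (hvz : v (z g) ≤ c)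
    (rel : ∀ r ≤ -ε, v.Ge r (z (p ^ (t + 1) • g)) →
      v.Ge r (∑ i ∈ Finset.range (t + 1), algebraMap k Ω (κ i) * z (p ^ (t - i) • g) ^ p ^ (i + 1))) :
    ∃ j : ℕ, 0 < j ∧ z (p ^ j • g) ≠ 0 ∧ v (z (p ^ j • g)) ≤ (p : ℝ) ^ j * c := by
  by_contra hno
  push Not at hno
  have hp0 : (0 : ℝ) < p := by exact_mod_cast hp.pos
  have hp1 : (1 : ℝ) ≤ p := by exact_mod_cast hp.one_lt.le
  have hc0 : c < 0 := by linarith
  have hQ1 : (1 : ℝ) ≤ (p : ℝ) ^ (t + 1) := one_le_pow₀ hp1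
  have hQ0 : (0 : ℝ) < (p : ℝ) ^ (t + 1) := pow_pos hp0 _
  have hQc : (p : ℝ) ^ (t + 1) * c < -ε := by
    have : (p : ℝ) ^ (t + 1) * c ≤ 1 * c := mul_le_mul_of_nonpos_right hQ1 hc0.le
    linarith
  -- the size of the sum
  have hs : Gt v ((p : ℝ) ^ (t + 1) * c)
      (∑ i ∈ Finset.range (t + 1), algebraMap k Ω (κ i) * z (p ^ (t - i) • g) ^ p ^ (i + 1)) := by
    by_cases h0 : z (p ^ (t + 1) • g) = 0
    · exact Gt.of_ge (rel (-ε) le_rfl fun h => absurd h0 h) hQc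
    · have h1 := hno (t + 1) (Nat.succ_pos t) h0
      rcases le_total (v (z (p ^ (t + 1) • g))) (-ε) with h2 | h2
      · exact Gt.of_ge (rel _ h2 fun _ => le_rfl) h1
      · exact Gt.of_ge (rel (-ε) le_rfl fun _ => h2) hQc
  rw [Finset.sum_range_succ, Nat.sub_self, pow_zero, one_smul] at hs
  -- the other terms
  have ho : Gt v ((p : ℝ) ^ (t + 1) * c)
      (∑ i ∈ Finset.range t, algebraMap k Ω (κ i) * z (p ^ (t - i) • g) ^ p ^ (i + 1)) := by
    refine Gt.sum _ _ fun i hi => ?_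
    have hi' : i < t := Finset.mem_range.1 hi
    by_cases h0 : z (p ^ (t - i) • g) = 0
    · rw [h0, zero_pow (pow_ne_zero _ hp.ne_zero), mul_zero]
      exact fun h => absurd rfl h
    have h1 := hno (t - i) (by omega) h0
    intro hne
    have h2 : v.Ge 0 (algebraMap k Ω (κ i)) := hk.ge _
    have h3 : v.Ge ((p ^ (i + 1) : ℕ) * v (z (p ^ (t - i) • g))) (z (p ^ (t - i) • g) ^ p ^ (i + 1)) :=
      TWM.ge_pow (fun _ => le_rfl) _
    have h4 := h2.mul h3 hne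
    refine lt_of_lt_of_le ?_ h4
    rw [zero_add]
    have h5 : (p : ℝ) ^ (t + 1) * c = ((p ^ (i + 1) : ℕ) : ℝ) * ((p : ℝ) ^ (t - i) * c) := by
      rw [← mul_assoc]
      congr 1
      push_cast
      rw [← pow_add]
      congr 1
      omega
    rw [h5]
    exact mul_lt_mul_of_pos_left h1 (by exact_mod_cast pow_pos hp.pos _)
  have hl : Gt v ((p : ℝ) ^ (t + 1) * c) (algebraMap k Ω (κ t) * z g ^ p ^ (t + 1)) := by
    have h := hs.sub ho
    rwa [add_sub_cancel_left] at h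
  have hκ0 : algebraMap k Ω (κ t) ≠ 0 := (map_ne_zero _).2 hκ
  have hvκ : v (algebraMap k Ω (κ t)) = 0 := hk.triv _ hκ
  have hpow : z g ^ p ^ (t + 1) ≠ 0 := pow_ne_zero _ hz0
  have h6 := hl (mul_ne_zero hκ0 hpow)
  rw [v.map_mul hκ0 hpow, hvκ, zero_add, v.map_pow hz0] at h6
  push_cast at h6
  have h7 : (p : ℝ) ^ (t + 1) * v (z g) ≤ (p : ℝ) ^ (t + 1) * c :=
    mul_le_mul_of_nonneg_left hvz hQ0.le
  linarith

/-- **Finite shape, with the error `ε`.** -/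
theorem chain_fin' (hk : Ctx0 k v) (hp : p.Prime) (hκ : κ t ≠ 0) {ε : ℝ} (hε : 0 ≤ ε) {z : I → Ω}
    {B : ℝ} (hB : ∀ g, v.Ge (-B) (z g)) {S : Set I} (hS : ∀ g ∈ S, ∀ j : ℕ, p ^ j • g ∈ S)
    (rel : ∀ g ∈ S, ∀ r ≤ -ε, v.Ge r (z (p ^ (t + 1) • g)) →
      v.Ge r (∑ i ∈ Finset.range (t + 1), algebraMap k Ω (κ i) * z (p ^ (t - i) • g) ^ p ^ (i + 1))) :
    ∀ g ∈ S, v.Ge (-ε) (z g) := by
  intro g hg
  by_contra hno
  have hz : z g ≠ 0 ∧ v (z g) < -ε := by
    constructor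
    · rintro h0
      exact hno fun h => absurd h0 h
    · by_contra h
      exact hno fun _ => not_lt.1 h
  obtain ⟨hz0, hc⟩ := hz
  have hc0 : v (z g) < 0 := by linarith
  -- the sizes grow
  have key : ∀ n : ℕ, ∃ g' ∈ S, z g' ≠ 0 ∧ v (z g') ≤ (2 : ℝ) ^ n * v (z g) := by
    intro n
    induction n with
    | zero => exact ⟨g, hg, hz0, by simp⟩
    | succ n ih =>
      obtain ⟨g', hg', h0, h1⟩ := ih
      have h2 : (2 : ℝ) ^ n * v (z g) < -ε := by
        have h3 : (1 : ℝ) ≤ 2 ^ n := one_le_pow₀ (by norm_num)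
        have := mul_le_mul_of_nonpos_right h3 hc0.le
        linarith
      have h20 : (2 : ℝ) ^ n * v (z g) ≤ 0 := by linarith
      obtain ⟨j, hj, h3, h4⟩ := chain_step' hk hp hκ hε h2 h0 h1 (rel g' hg')
      refine ⟨_, hS g' hg' j, h3, h4.trans ?_⟩
      have h5 : (2 : ℝ) ≤ (p : ℝ) ^ j := by
        have h6 : 2 ≤ p ^ j := hp.two_le.trans (Nat.le_self_pow hj.ne' p)
        exact_mod_cast h6
      calc (p : ℝ) ^ j * (2 ^ n * v (z g)) ≤ 2 * (2 ^ n * v (z g)) :=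
            mul_le_mul_of_nonpos_right h5 h20
        _ = 2 ^ (n + 1) * v (z g) := by ring
  obtain ⟨n, hn⟩ : ∃ n : ℕ, (2 : ℝ) ^ n * v (z g) < -B := by
    obtain ⟨n, hn⟩ := pow_unbounded_of_one_lt (B / (-v (z g))) (by norm_num : (1 : ℝ) < 2)
    refine ⟨n, ?_⟩
    have hpos : 0 < -v (z g) := by linarith
    rw [div_lt_iff₀ hpos] at hn
    linarith
  obtain ⟨g', _, h0, h1⟩ := key n
  have h2 := hB g' h0
  linarith

end chain

end Pool.Agent.TWRB8
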