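import Pool.Agent.Lib.TWRB.Core
import Pool.Agent.Lib.TWCT.FinY
import Pool.Agent.Lib.TWCT.Null

/-!
# RowB, R9: the frame

`B = W⟨w 0⟩`, `w 1` a floor over `B` of finite shape along the Hasse derivatives `Θ` of `W⟨w 0⟩`,
everything in a spherically complete field, radii `0`.
* `shU_of_fin`: the shape `U` of `w 1` along `w 0`;
* `ShU.congr`, `ShU.normal`: `U` can be changed by coefficients in `O_0`; normal form;
* `ShU.frm`, `rowR9`: the frame;
* `finE_up`: finite shape goes from the real field to the normalised big field.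
-/

set_option autoImplicit false

open Polynomial Finset

namespace Pool.Agent.TWRB

open Pool.Agent.H15JM (RVal)
open Pool.Agent.D2 (Ctx0)
open Pool.Agent.TWM
open Pool.Agent.TWS (IsoE SphC)
open Pool.Agent.TWLM (HSd Oi Fbr)
open Pool.Agent.TWNI (FinE)
open Pool.Agent.TWCT (HsY)

universe u

variable {k Ω : Type u} [Field k] [Field Ω] [Algebra k Ω] {v : RVal Ω}
  {W : IntermediateField k Ω} {w y : Ω} {Θ : ℕ → Ω → Ω}

/-- The natural value of an additive map of norm `≤ 0` at a limit of radius `0`. -/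
theorem exists_nat (hs : SphC v) {C : IntermediateField k Ω} {D : Ω → Ω}
    (hsub : ∀ f ∈ C, ∀ g ∈ C, D (f - g) = D f - D g)
    (hnrm : ∀ f ∈ C, ∀ b : ℝ, v.Ge b f → v.Ge b (D f)) (hy : Lim v C 0 y) :
    ∃ y' : Ω, ∀ ε : ℝ, 0 < ε → ∀ f ∈ C, v.Ge (-ε) (y - f) → v.Ge (-ε) (y' - D f) := by
  choose a ha hza using fun n : ℕ => hy (1 / ((n : ℝ) + 1)) (by positivity)
  obtain ⟨y', hy'⟩ := hs (fun n => D (a n)) (fun n => 0 - 1 / ((n : ℝ) + 1)) fun n m hnm => by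
    rw [← hsub _ (ha m) _ (ha n)]
    refine hnrm _ (sub_mem (ha m) (ha n)) _ ?_
    have e : a m - a n = (y - a n) - (y - a m) := by ring
    rw [e]
    refine (hza n).sub ((hza m).mono ?_)
    have h1 : 1 / ((m : ℝ) + 1) ≤ 1 / ((n : ℝ) + 1) := by
      refine one_div_le_one_div_of_le (by positivity) ?_
      have : (n : ℝ) ≤ m := by exact_mod_cast hnm
      linarith
    linarith
  refine ⟨y', fun ε hε f hf hr => ?_⟩
  obtain ⟨n, hn⟩ := exists_nat_one_div_lt hε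
  have e : y' - D f = (y' - D (a n)) + D (a n - f) := by
    rw [hsub _ (ha n) _ hf]
    ring
  rw [e]
  refine ((hy' n).mono (by linarith)).add (hnrm _ (sub_mem (ha n) hf) _ ?_)
  have e1 : a n - f = (y - f) - (y - a n) := by ring
  rw [e1]
  exact hr.sub ((hza n).mono (by linarith))

omit [Algebra k Ω] in
/-- A polynomial at a translate. -/
theorem eval_shift {f : Polynomial Ω} {w s : Ω} {N : ℕ} (hN : f.natDegree ≤ N) :
    f.eval (w + s) = ∑ j ∈ range (N + 1), (hasseDeriv j f).eval w * s ^ j := by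
  rw [eval_eq_taylor f w, add_sub_cancel_left,
    eval_eq_sum_range' (n := N + 1) (by rw [natDegree_taylor]; omega)]
  refine sum_congr rfl fun j _ => ?_
  rw [taylor_coeff]

/-- Finite shape, uniformly in the index. -/
theorem fin_unif {C : IntermediateField k Ω} {u : Ω} (hu : Lim v C 0 u) (hΘ : HSd C Θ)
    (hoi : Oi v C 0 Θ) (hnrm : ∀ j : ℕ, ∀ f ∈ C, ∀ b : ℝ, v.Ge b f → v.Ge b (Θ j f)) {L : ℕ}
    (hfin : ∀ l : ℕ, L < l → ∀ ε : ℝ, 0 < ε → TWII.Nr v C 0 u fun θ => v.Ge (0 - l * 0 - ε) (Θ l θ))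
    {ε : ℝ} (hε : 0 < ε) :
    ∃ δ : ℝ, 0 < δ ∧ δ ≤ ε ∧ ∀ θ ∈ C, v.Ge (-δ) (u - θ) → ∀ l : ℕ, L < l → v.Ge (-ε) (Θ l θ) := by
  obtain ⟨θ₀, hθ₀, h1⟩ := hu ε hε
  obtain ⟨M, hM⟩ := hoi θ₀ hθ₀ (-ε)
  obtain ⟨δ, hδ, h2⟩ := TWN1.exists_min_pos (range M)
    (fun l a => L < l → ∀ θ ∈ C, v.Ge (-a) (u - θ) → v.Ge (-ε) (Θ l θ))
    (fun l a a' ha h3 hl θ hθ h4 => h3 hl θ hθ (h4.mono (by linarith)))
    (fun l _ => by
      by_cases hl : L < l
      · obtain ⟨a, ha, h3⟩ := hfin l hl ε hε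
        refine ⟨a, ha, fun _ θ hθ h4 => ?_⟩
        have h5 := h3 θ hθ (h4.mono (by linarith))
        exact h5.mono (by linarith)
      · exact ⟨1, one_pos, fun h => absurd h hl⟩)
  refine ⟨min δ ε, lt_min hδ hε, min_le_right _ _, fun θ hθ h3 l hl => ?_⟩
  by_cases hlM : l < M
  · exact h2 l (mem_range.2 hlM) hl θ hθ (h3.mono (by linarith [min_le_left δ ε]))
  · have e : Θ l θ = Θ l (θ - θ₀) + Θ l θ₀ := by
      rw [hΘ.sub l hθ hθ₀]
      ring
    rw [e]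
    refine (hnrm l _ (sub_mem hθ hθ₀) _ ?_).add ((hM l (not_lt.1 hlM)).mono (by linarith))
    have e1 : θ - θ₀ = (u - θ₀) - (u - θ) := by ring
    rw [e1]
    exact (h1.mono (by linarith)).sub (h3.mono (by linarith [min_le_right δ ε]))

/-- The powers of a constant. -/
theorem ge_pow_alg (h0 : Ctx0 k v) (s : k) (j : ℕ) : v.Ge 0 (algebraMap k Ω s ^ j) := by
  rw [← map_pow]
  exact h0.ge _

/-- A polynomial with coefficients in `O_0` at a constant. -/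
theorem ge_eval (h0 : Ctx0 k v) {Q : Polynomial Ω} {e : ℝ} (hQ : ∀ j, v.Ge e (Q.coeff j)) (s : k) :
    v.Ge e (Q.eval (algebraMap k Ω s)) := by
  rw [eval_eq_sum_range]
  refine RVal.Ge.sum _ _ fun j _ => ?_
  have h1 := (hQ j).mul (ge_pow_alg h0 s j)
  rwa [add_zero] at h1

variable {w' : Fin 2 → Ω} {U U' : Polynomial Ω}

/-- **The shape of `w 1`**, from the finite shape. -/
theorem shU_of_fin (h0 : Ctx0 k v) (hs : SphC v)
    (hu : TL v (cadj v W (w' 0)) (w' 1) 0) (hΘ : HsY v W (w' 0) 0 Θ)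
    (hfin : FinE v (cadj v W (w' 0)) 0 0 Θ (w' 1)) : ∃ U : Polynomial Ω, ShU v W w' U := by
  classical
  have hH := hΘ.fbr.toHSd
  have hnrm : ∀ j : ℕ, ∀ f ∈ cadj v W (w' 0), ∀ b : ℝ, v.Ge b f → v.Ge b (Θ j f) :=
    fun j f hf b hb => (hΘ.fbr.norm j hf hb).mono (by rw [mul_zero, sub_zero])
  obtain ⟨L, hL⟩ := hfin
  have hnat := fun j : ℕ => exists_nat (C := cadj v W (w' 0)) hs (D := Θ j)
    (fun f hf g hg => hH.sub j hf hg) (hnrm j) hu.lim
  choose u' hu1 using hnat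
  obtain ⟨U, hU⟩ : ∃ U : Polynomial Ω, U = ∑ j ∈ Icc 1 L, Polynomial.C (u' j) * X ^ j := ⟨_, rfl⟩
  have hUc : ∀ j, U.coeff j = if j ∈ Icc 1 L then u' j else 0 := by
    intro j
    rw [hU, finsetSum_coeff]
    simp only [coeff_C_mul, coeff_X_pow, mul_ite, mul_one, mul_zero]
    rw [Finset.sum_ite_eq]
  have hU0 : U.coeff 0 = 0 := by
    rw [hUc, if_neg (by simp)]
  have hUdeg : U.natDegree ≤ L := by
    refine natDegree_le_iff_coeff_eq_zero.2 fun j hj => ?_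
    rw [hUc, if_neg (by rw [mem_Icc]; omega)]
  refine ⟨U, hU0, fun j => ?_, fun ε hε => ?_⟩
  · rw [hUc]
    split_ifs
    · intro ε hε
      obtain ⟨θ, hθ, h1⟩ := hu.lim ε hε
      exact ⟨Θ j θ, hH.mem j θ hθ, (hu1 j ε hε θ hθ (h1.mono (by linarith))).mono (by linarith)⟩
    · intro ε hε
      exact ⟨0, zero_mem _, by rw [sub_zero]; exact RVal.Ge.zero⟩
  obtain ⟨δ, hδ, hδε, h5⟩ := fin_unif hu.lim hH hΘ.fbr.oi hnrm hL hε
  refine ⟨δ, hδ, fun f hf h8 s => ?_⟩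
  set θ : Ω := f.eval (w' 0) with hθ
  have hθC : θ ∈ cadj v W (w' 0) := TWLM.eval_mem_cadj hf
  have h9 := h5 θ hθC h8
  set N : ℕ := max L f.natDegree with hN
  have e1 : f.eval (w' 0 + algebraMap k Ω s) = ∑ j ∈ range (N + 1), Θ j θ * algebraMap k Ω s ^ j := by
    rw [hθ, eval_shift (le_max_right L _)]
    exact sum_congr rfl fun j _ => by rw [hΘ.pol j f hf]
  have e2 : U.eval (algebraMap k Ω s) = ∑ j ∈ range (N + 1), U.coeff j * algebraMap k Ω s ^ j :=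
    eval_eq_sum_range' (by
      have := le_max_left L f.natDegree
      omega) _
  have e3 : f.eval (w' 0 + algebraMap k Ω s) - θ - U.eval (algebraMap k Ω s) =
      ∑ j ∈ range N, (Θ (j + 1) θ - U.coeff (j + 1)) * algebraMap k Ω s ^ (j + 1) := by
    rw [e1, e2, sum_range_succ', sum_range_succ', hU0, pow_zero, hH.c0 θ hθC]
    simp only [sub_mul, sum_sub_distrib]
    ring
  rw [e3]
  refine RVal.Ge.sum _ _ fun j _ => ?_
  have h11 : v.Ge (-ε) (Θ (j + 1) θ - U.coeff (j + 1)) := by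
    rw [hUc]
    split_ifs with hj
    · rw [← neg_sub]
      exact ((hu1 (j + 1) δ hδ θ hθC h8).mono (by linarith)).neg
    · rw [sub_zero]
      refine h9 (j + 1) ?_
      rw [mem_Icc] at hj
      omega
  have h12 := h11.mul (ge_pow_alg h0 s (j + 1))
  rwa [add_zero] at h12

/-- `U` can be changed by coefficients in `O_0`. -/
theorem ShU.congr (h0 : Ctx0 k v) (h : ShU v W w' U) (h1 : U'.coeff 0 = 0)
    (h2 : ∀ j, v.Ge 0 (U'.coeff j - U.coeff j)) : ShU v W w' U' := by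
  obtain ⟨-, h4, h5⟩ := h
  refine ⟨h1, fun j ε hε => ?_, fun ε hε => ?_⟩
  · obtain ⟨f, hf, h6⟩ := h4 j ε hε
    refine ⟨f, hf, ?_⟩
    have e : U'.coeff j - f = (U'.coeff j - U.coeff j) + (U.coeff j - f) := by ring
    rw [e]
    exact ((h2 j).mono (by linarith)).add h6
  · obtain ⟨η, hη, h6⟩ := h5 ε hε
    refine ⟨η, hη, fun q hq h7 s => ?_⟩
    have e : q.eval (w' 0 + algebraMap k Ω s) - q.eval (w' 0) - U'.eval (algebraMap k Ω s) =
        (q.eval (w' 0 + algebraMap k Ω s) - q.eval (w' 0) - U.eval (algebraMap k Ω s)) -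
          (U' - U).eval (algebraMap k Ω s) := by
      rw [eval_sub]
      ring
    rw [e]
    refine (h6 q hq h7 s).sub ((ge_eval h0 (e := 0) (fun j => ?_) s).mono (by linarith))
    rw [coeff_sub]
    exact h2 j

/-- **The normal form of the shape**: the coefficients in `O_0` are `0`, the others are in `B` or not in
`B + O_0`. -/
theorem ShU.normal (h0 : Ctx0 k v) (h : ShU v W w' U) :
    ∃ U' : Polynomial Ω, ShU v W w' U' ∧ (∀ j, v.Ge 0 (U'.coeff j) → U'.coeff j = 0) ∧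
      (∀ j, ∀ f ∈ cadj v W (w' 0), v.Ge 0 (U'.coeff j - f) → U'.coeff j ∈ cadj v W (w' 0)) ∧
      ∀ j, v.Ge 0 (U'.coeff j - U.coeff j) := by
  classical
  have hnat : ∀ j : ℕ, ∃ y' : Ω, v.Ge 0 (y' - U.coeff j) ∧ (v.Ge 0 (U.coeff j) → y' = 0) ∧
      (v.Ge 0 y' → y' = 0) ∧
      (y' ∈ cadj v W (w' 0) ∨ ∀ f ∈ cadj v W (w' 0), ¬ v.Ge 0 (y' - f)) := by
    intro j
    by_cases h1 : v.Ge 0 (U.coeff j)
    · refine ⟨0, ?_, fun _ => rfl, fun _ => rfl, Or.inl (zero_mem _)⟩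
      rw [zero_sub]
      exact h1.neg
    by_cases h2 : ∃ f ∈ cadj v W (w' 0), v.Ge 0 (U.coeff j - f)
    · obtain ⟨f, hf, h3⟩ := h2
      refine ⟨f, ?_, fun h4 => absurd h4 h1, fun h4 => ?_, Or.inl hf⟩
      · rw [← neg_sub]
        exact h3.neg
      · exfalso
        apply h1
        have e : U.coeff j = (U.coeff j - f) + f := by ring
        rw [e]
        exact h3.add h4
    · push Not at h2
      refine ⟨U.coeff j, ?_, fun h3 => absurd h3 h1, fun h3 => absurd h3 h1, Or.inr h2⟩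
      rw [sub_self]
      exact RVal.Ge.zero
  choose u' hu1 hu2 hu3 hu4 using hnat
  obtain ⟨U', hU⟩ : ∃ U' : Polynomial Ω,
    U' = ∑ j ∈ range (U.natDegree + 1), Polynomial.C (u' j) * X ^ j := ⟨_, rfl⟩
  have hUc : ∀ j, U'.coeff j = u' j := by
    intro j
    rw [hU, finsetSum_coeff]
    simp only [coeff_C_mul, coeff_X_pow, mul_ite, mul_one, mul_zero]
    rw [Finset.sum_ite_eq]
    split_ifs with hj
    · rfl
    · rw [mem_range] at hj
      have h1 : U.coeff j = 0 := coeff_eq_zero_of_natDegree_lt (by omega)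
      exact (hu2 j (by rw [h1]; exact RVal.Ge.zero)).symm
  have h1 : ∀ j, v.Ge 0 (U'.coeff j - U.coeff j) := fun j => by
    rw [hUc]
    exact hu1 j
  refine ⟨U', h.congr h0 ?_ h1, fun j => ?_, fun j => ?_, h1⟩
  · rw [hUc]
    exact hu2 0 (by rw [h.1]; exact RVal.Ge.zero)
  · rw [hUc]
    exact hu3 j
  · rw [hUc]
    intro f hf h2
    exact (hu4 j).resolve_right fun h3 => h3 f hf h2

/-- **The isometries** from a shape. -/
theorem ShU.exists_T [IsAlgClosed Ω] (h0 : Ctx0 k v) (hs : SphC v)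
    (hval : ∀ ρ : ℝ, ∃ x : Ω, x ≠ 0 ∧ v x = ρ) (hw : TL v W (w' 0) 0)
    (hu : TL v (cadj v W (w' 0)) (w' 1) 0) (h : ShU v W w' U) :
    ∃ T : (Fin 2 → k) → Ω →ₐ[k] Ω, (∀ c, IsoE v v (T c)) ∧ (∀ c, ∀ f ∈ W, T c f = f) ∧
      (∀ c, T c (w' 0) = w' 0 + algebraMap k Ω (c 0)) ∧
      ∀ c, T c (w' 1) = w' 1 + U.eval (algebraMap k Ω (c 0)) + algebraMap k Ω (c 1) := by
  obtain ⟨h1, h2, h3⟩ := h
  have hT : ∀ c : Fin 2 → k, ∃ T : Ω →ₐ[k] Ω, IsoE v v T ∧ (∀ f ∈ W, T f = f) ∧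
      T (w' 0) = w' 0 + algebraMap k Ω (c 0) ∧
      T (w' 1) = w' 1 + U.eval (algebraMap k Ω (c 0)) + algebraMap k Ω (c 1) := by
    intro c
    obtain ⟨T₁, g1, g2, g3, -⟩ := TWCT.exists_trans h0 hs hval hw (h0.ge (c 0))
    have h4 : v.Ge 0 (w' 1 + U.eval (algebraMap k Ω (c 0)) + algebraMap k Ω (c 1) -
        T₁ (w' 1)) := by
      refine TWM.ge_of_eps fun ε hε => ?_
      rw [zero_sub]
      obtain ⟨η, hη, h5⟩ := h3 ε hε
      obtain ⟨θ₁, hθ₁, h6⟩ := hu.lim (min η ε) (lt_min hη hε)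
      obtain ⟨q, hq, h7⟩ := hw.dense hθ₁ 0
      have h8 : v.Ge (-(min η ε)) (w' 1 - q.eval (w' 0)) := by
        have e : w' 1 - q.eval (w' 0) = (w' 1 - θ₁) + (θ₁ - q.eval (w' 0)) := by ring
        rw [e]
        exact (h6.mono (by linarith)).add (h7.mono (by linarith [lt_min hη hε]))
      have h9 := h5 q hq (h8.mono (by linarith [min_le_left η ε])) (c 0)
      have e1 : T₁ (q.eval (w' 0)) = q.eval (w' 0 + algebraMap k Ω (c 0)) := by
        rw [eval_eq_sum_range, eval_eq_sum_range, map_sum]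
        refine sum_congr rfl fun i _ => ?_
        rw [map_mul, map_pow, g2 _ (hq i), g3]
      have e4 : w' 1 + U.eval (algebraMap k Ω (c 0)) + algebraMap k Ω (c 1) - T₁ (w' 1) =
          (w' 1 - q.eval (w' 0)) - T₁ (w' 1 - q.eval (w' 0)) -
            (q.eval (w' 0 + algebraMap k Ω (c 0)) - q.eval (w' 0) -
              U.eval (algebraMap k Ω (c 0))) + algebraMap k Ω (c 1) := by
        rw [map_sub, e1]
        ring
      have h10 : v.Ge (-ε) (w' 1 - q.eval (w' 0)) :=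
        h8.mono (by linarith [min_le_right η ε])
      rw [e4]
      exact ((h10.sub (g1.ge_iff.2 h10)).sub h9).add ((h0.ge (c 1)).mono (by linarith))
    obtain ⟨T, f1, f2, f3, -⟩ := TWCT.IsoE.exists_trans h0 hs hval g1 hu h4
    refine ⟨T, f1, fun f hf => ?_, ?_, f3⟩
    · rw [f2 f (le_cadj v W _ hf), g2 f hf]
    · rw [f2 _ (self_mem_cadj v W _), g3]
  choose T hT1 hT2 hT3 hT4 using hT
  exact ⟨T, hT1, hT2, hT3, hT4⟩

/-- **The frame** from a shape in normal form. -/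
theorem ShU.frm [IsAlgClosed Ω] (h0 : Ctx0 k v) (hs : SphC v)
    (hval : ∀ ρ : ℝ, ∃ x : Ω, x ≠ 0 ∧ v x = ρ) {B : IntermediateField k Ω}
    (hw : TL v W (w' 0) 0) (hB : B = cadj v W (w' 0)) (hu : TL v B (w' 1) 0) (h : ShU v W w' U)
    (hdrop : ∀ j, v.Ge 0 (U.coeff j) → U.coeff j = 0)
    (hinB : ∀ j, ∀ b ∈ B, v.Ge 0 (U.coeff j - b) → U.coeff j ∈ B) :
    ∃ T : (Fin 2 → k) → Ω →ₐ[k] Ω, Frm v W B w' T U := by
  subst hB
  obtain ⟨T, h1, h2, h3, h4⟩ := h.exists_T h0 hs hval hw hu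
  exact ⟨T, h1, h2, h3, h4, h.1, h.2.1, hdrop, hinB⟩

/-- **R9.** -/
theorem rowR9 [IsAlgClosed Ω] (p : ℕ) : RowR9 (k := k) (Ω := Ω) p v := by
  intro L W B F K w x z a U₀ hH h
  obtain ⟨U, h1, h2, h3, -⟩ := h.normal hH.c0
  obtain ⟨T, hT⟩ := h1.frm hH.c0 hH.sph hH.hval hH.tw hH.B_eq hH.tu h2 (by rwa [hH.B_eq])
  exact ⟨T, U, hT⟩

/-! ### From the real field -/

variable {Ω₀ : Type u} [Field Ω₀] [Algebra k Ω₀] {v₀ : RVal Ω₀} {ι : Ω₀ →ₐ[k] Ω}

omit [Algebra k Ω] in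
/-- The Hasse derivatives and the scaling. -/
theorem hasse_scale (f : Polynomial Ω) (c : Ω) (l : ℕ) :
    hasseDeriv l (f.comp (Polynomial.C c * X)) =
      Polynomial.C (c ^ l) * (hasseDeriv l f).comp (Polynomial.C c * X) := by
  ext n
  rw [hasseDeriv_coeff, comp_C_mul_X_coeff, coeff_C_mul, comp_C_mul_X_coeff, hasseDeriv_coeff,
    pow_add]
  ring

/-- **Finite shape goes up**, from the real field to the normalised big field. -/
theorem finE_up [IsAlgClosed Ω₀] (hI : IsoE v₀ v ι) {A : IntermediateField k Ω₀}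
    {B : IntermediateField k Ω} {y₀ u₀ : Ω₀} {r t : ℝ} {Θ₀ : ℕ → Ω₀ → Ω₀} {Θ : ℕ → Ω → Ω}
    (hy : TL v₀ A y₀ r) (hΘ₀ : HsY v₀ A y₀ r Θ₀) (hu : Lim v₀ (cadj v₀ A y₀) t u₀)
    (hfin : FinE v₀ (cadj v₀ A y₀) r t Θ₀ u₀) (hAB : A.map ι ≤ B) {c d : Ω} (hc : c ∈ B)
    (hc0 : c ≠ 0) (hvc : v c = r) (hd : d ∈ B) (hd0 : d ≠ 0) (hvd : v d = t)
    (hΘ : HsY v B (ι y₀ / c) 0 Θ) : FinE v (cadj v B (ι y₀ / c)) 0 0 Θ (ι u₀ / d) := by
  obtain ⟨L, hL⟩ := hfin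
  refine ⟨L, fun l hl ε hε => ⟨ε, hε, fun θ' hθ' h1 => ?_⟩⟩
  obtain ⟨δ, hδ, h2⟩ := hL l hl ε hε
  obtain ⟨θ₁, hθ₁, h3⟩ := hu (min δ ε) (lt_min hδ hε)
  obtain ⟨f, hf, h4⟩ := hy.dense hθ₁ t
  have h5 : v₀.Ge (t - min δ ε) (u₀ - f.eval y₀) := by
    have e : u₀ - f.eval y₀ = (u₀ - θ₁) + (θ₁ - f.eval y₀) := by ring
    rw [e]
    exact h3.add (h4.mono (by linarith [lt_min hδ hε]))
  have h6 : v₀.Ge (t - l * r - ε) (Θ₀ l (f.eval y₀)) :=
    h2 _ (TWLM.eval_mem_cadj hf) (h5.mono (by linarith [min_le_left δ ε]))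
  rw [hΘ₀.pol l f hf] at h6
  set g : Polynomial Ω := Polynomial.C d⁻¹ * (f.map ι.toRingHom).comp (Polynomial.C c * X) with hg
  have hmap : ∀ q : Polynomial Ω₀, (q.map ι.toRingHom).eval (ι y₀) = ι (q.eval y₀) := fun q =>
    TWCT.eval_map_ι q y₀
  have hgB : g ∈ PI B := by
    intro i
    rw [hg, coeff_C_mul, comp_C_mul_X_coeff, coeff_map]
    exact mul_mem (inv_mem hd) (mul_mem (hAB ⟨_, hf i, rfl⟩) (pow_mem hc i))
  have e1 : g.eval (ι y₀ / c) = ι (f.eval y₀) / d := by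
    rw [hg, eval_mul, eval_C, eval_comp, eval_mul, eval_C, eval_X, mul_div_cancel₀ _ hc0, hmap]
    ring
  have e2 : (hasseDeriv l g).eval (ι y₀ / c) = c ^ l * ι ((hasseDeriv l f).eval y₀) * d⁻¹ := by
    rw [hg, TWN1.hasse_C_mul, hasse_scale, eval_mul, eval_C, eval_mul, eval_C, eval_comp, eval_mul,
      eval_C, eval_X, mul_div_cancel₀ _ hc0, TWRR.hasse_map, hmap]
    ring
  have hgC : g.eval (ι y₀ / c) ∈ cadj v B (ι y₀ / c) := TWLM.eval_mem_cadj hgB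
  have h7 : v.Ge (-t) d⁻¹ := fun _ => by rw [RVal.map_inv v hd0, hvd]
  have h8 : v.Ge (0 - l * 0 - ε) (Θ l (g.eval (ι y₀ / c))) := by
    rw [hΘ.pol l g hgB, e2]
    have h9 : v.Ge (l * r) (c ^ l) := fun _ => by rw [RVal.map_pow v hc0, hvc]
    exact ((h9.mul (hI.ge_iff.2 h6)).mul h7).mono (by linarith)
  have e3 : Θ l θ' = Θ l (θ' - g.eval (ι y₀ / c)) + Θ l (g.eval (ι y₀ / c)) := by
    rw [hΘ.fbr.toHSd.sub l hθ' hgC]
    ring
  have e4 : θ' - g.eval (ι y₀ / c) = ι (u₀ - f.eval y₀) * d⁻¹ - (ι u₀ / d - θ') := by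
    rw [e1, map_sub]
    ring
  have h9 : v.Ge (0 - ε) (θ' - g.eval (ι y₀ / c)) := by
    rw [e4]
    exact (((hI.ge_iff.2 h5).mul h7).mono (by linarith [min_le_right δ ε])).sub
      (h1.mono (by linarith))
  have h10 := hΘ.fbr.norm l (sub_mem hθ' hgC) h9
  rw [e3]
  exact (h10.mono (by linarith)).add h8

end Pool.Agent.TWRB
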