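import Pool.Agent.Lib.TWRB.Core
import Pool.Agent.Lib.TWRB.R8
import Pool.Agent.Lib.TWCY.TrnE

/-!
# RowB, R8 and R2: the rows
-/

set_option autoImplicit false

open MvPolynomial

namespace Pool.Agent.TWRB

open Pool.Agent.H15JM (RVal)
open Pool.Agent.D2 (Ctx0)
open Pool.Agent.TWM
open Pool.Agent.TWS (IsoE SphC)
open Pool.Agent.TWCT (SMo)
open Pool.Agent.TWLY
open Pool.Agent.TWCY
open Pool.Agent.TWCU (zet)

universe u

variable {k Ω : Type u} [Field k] [Field Ω] [Algebra k Ω] {v : RVal Ω} {p : ℕ}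

theorem eval_PPw {κ : ℕ → k} {t : ℕ} (w : Fin 2 → Ω) (g : MvPolynomial (Fin 2) Ω) :
    eval w (PP p κ t g) = PP p κ t (eval w g) := by
  unfold PP
  rw [map_sum]
  refine Finset.sum_congr rfl fun i _ => ?_
  rw [map_mul, map_pow]
  congr 1
  rw [IsScalarTower.algebraMap_apply k Ω (MvPolynomial (Fin 2) Ω), algebraMap_eq, eval_C]

omit [Field Ω] in
theorem vec_eta (w : Fin 2 → Ω) : (![w 0, w 1] : Fin 2 → Ω) = w := by
  funext i
  fin_cases i <;> rfl

theorem shR_eq_trf (w : Fin 2 → Ω) (U : Polynomial Ω) : shR w U = trf (w 0) (w 1) U := by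
  unfold shR trf
  congr 1
  funext i
  fin_cases i
  · rfl
  · show C (w 1) + Polynomial.aeval (X 0) U + X 1 = C (w 1) + X 1 + Polynomial.aeval (X 0) U
    ring

/-- **R8.** -/
theorem rowR8 [hp : Fact p.Prime] [CharP Ω p] [CharP k p] [IsAlgClosed k] [IsAlgClosed Ω] :
    RowR8 (k := k) p v := by
  intro L W B F K w x z a D₀ T U e κ t l Pa hH hB hF hN
  have h0 := hH.c0
  have : Infinite k := IsAlgClosed.instInfinite
  obtain ⟨y0, hy0⟩ := hB.drv.exists_nat hH.sph hH.tw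
  obtain ⟨D₁, a1, a2, -, -⟩ := hB.drv.exists_tl h0 hH.cv hH.tw hy0
  rw [← hH.B_eq] at a1
  obtain ⟨y1, hy1⟩ := a1.exists_nat hH.sph hH.tu
  obtain ⟨D, b1, b2, -, -⟩ := a1.exists_tl h0 hH.cv hH.tu hy1
  rw [← hH.F_eq] at b1
  have hWB : W ≤ B := by
    rw [hH.B_eq]
    exact le_cadj v W _
  have hBF : B ≤ F := by
    rw [hH.F_eq]
    exact le_cadj v B _
  have hDx : D x = 1 := by
    rw [b2 _ (hWB hH.xW), a2 _ hH.xW, hB.Dx]
  obtain ⟨Z, h1, h2, h3, h4⟩ := TWRB8.exists_Z (F := F) (w := w 0) (u := w 1) (z := z) (T := T)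
    (U := U) (D := D) (e := e) (κ := κ) (t := t) (Pa := Pa) (p := p)
    (G := fun g => e ≠ 0 → DvE p g) h0 hH.sph (hWB.trans hBF)
    (hBF (by
      rw [hH.B_eq]
      exact self_mem_cadj v W _)) (by
      rw [hH.F_eq]
      exact self_mem_cadj v B _) hF.iso hF.fix hF.Tw hF.Tu hF.U0
    (fun j ε hε => by
      obtain ⟨b, hb, h5⟩ := hF.Ul j ε hε
      exact ⟨b, hBF hb, h5⟩) b1 hH.xW (by rw [hDx]; exact one_ne_zero) (by rw [hDx, v.map_one])
    hN.kap hN.PaW (fun ε hε => by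
      obtain ⟨θ, h, c1, c2, c3, c4, c5⟩ := hN.tie ε hε
      refine ⟨θ, h, c1, c2, fun g _ hg he i => ?_, ?_, ?_⟩
      · exact TWRB8.trf_dvd (fun m hm i => by
          by_contra h6
          exact hm (c3 he m fun h7 => h6 (h7 i))) hg i
      · rw [vec_eta]
        exact c4
      · rw [vec_eta]
        rwa [map_sub, map_add, map_add, map_mul, map_mul, map_pow, eval_C, eval_C, eval_PPw] at c5)
  refine ⟨Z, { toHB := hH, toNFB := hN, frm := hF, Z0 := ?_, jet := h4, Zp := fun he g hg => ?_ }⟩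
  · rw [constantCoeff_eq]
    exact h1
  · by_contra h5
    exact hg (h2 g h5 he)

/-- **R2**, from R1. -/
theorem rowR2_of (h1 : RowR1 (k := k) p v) : RowR2 (k := k) p v := by
  intro L W B F K w x z a R hR ε hε
  obtain ⟨θ, h, η, hη, hθ, -, -, -, h2⟩ := h1 L W B F K w x z a R hR ε hε
  have hWB : W ≤ B := by
    rw [hR.B_eq]
    exact le_cadj v W _
  have hBF : B ≤ F := by
    rw [hR.F_eq]
    exact le_cadj v B _
  have hw0 : w 0 ∈ F := hBF (by
    rw [hR.B_eq]
    exact self_mem_cadj v W _)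
  have hw1 : w 1 ∈ F := by
    rw [hR.F_eq]
    exact self_mem_cadj v B _
  refine ⟨η, hη, fun Uf hU J τ ρ a' b Za hM d hd g => ?_⟩
  refine astar_f (F := F) hM.mF.iso (fun f hf => hM.mF.mem hf) hM.ZF (fun i g => ?_) d hd.norm
    hd.zero (ZF := dsR w Uf θ) (fun g => ?_) (h2 Uf hU).1 g
  · have hC : ∀ y ∈ F, ∀ g : Ex, coeff g (C y : MvPolynomial (Fin 2) Ω) ∈ F :=
      fun y hy => C_mem_PF hy
    fin_cases i
    · change coeff g (X 0 + C a') ∈ F
      rw [coeff_add]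
      exact add_mem (X_mem_PF F 0 g) (hC _ (hBF (hWB hM.aW)) g)
    · change coeff g (X 1 + Polynomial.aeval (X 0) (Psi τ a' b Uf)) ∈ F
      rw [coeff_add]
      refine add_mem (X_mem_PF F 1 g) (aeval_mem_PF (fun j => ?_) g)
      unfold Psi psi
      have hU' : ∀ j, Uf.coeff j ∈ F := fun j => hBF (hU.mem j)
      rw [Polynomial.coeff_sub, Polynomial.coeff_add, Polynomial.coeff_C, Polynomial.coeff_map]
      refine sub_mem (add_mem ?_ (hM.mF.mem (hU' j))) ?_
      · split_ifs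
        exacts [hBF hM.bC, zero_mem _]
      · have e1 : Uf.comp (Polynomial.X + Polynomial.C a') = Polynomial.taylor a' Uf := rfl
        rw [e1, Polynomial.taylor_coeff, Polynomial.eval_eq_sum_range]
        refine sum_mem fun i _ => mul_mem ?_ (pow_mem (hBF (hWB hM.aW)) i)
        rw [Polynomial.hasseDeriv_coeff]
        exact mul_mem (natCast_mem F _) (hU' _)
  · unfold dsR
    rw [coeff_sub, coeff_C, shR_eq_trf]
    refine sub_mem (trf_mem hw0 hw1 (fun j => hBF (hU.mem j)) (fun g => hBF (hWB (hθ g))) g) ?_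
    split_ifs
    · refine eval_mem' (fun g => hBF (hWB (hθ g))) fun i => ?_
      fin_cases i
      exacts [hw0, hw1]
    · exact zero_mem _

end Pool.Agent.TWRB
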