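import Pool.Agent.Lib.TWRB.RowR3
import Pool.Agent.Lib.TWRB.RowR8

/-!
# RowB: R1 and R2 as rows
-/

set_option autoImplicit false

open MvPolynomial

namespace Pool.Agent.TWRB

open Pool.Agent.H15JM (RVal)
open Pool.Agent.D2 (Ctx0)
open Pool.Agent.TWM
open Pool.Agent.TWS (IsoE SphC)
open Pool.Agent.TWLY
open Pool.Agent.TWCY

universe u

variable {k Ω : Type u} [Field k] [Field Ω] [Algebra k Ω] {v : RVal Ω} {p : ℕ}

/-- **R1.** -/
theorem rowR1 [Infinite k] : RowR1 (k := k) p v := by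
  intro L W B F K w x z a R h ε hε
  obtain ⟨θ, h', hθ, hh, hq, h1, h2⟩ := h.tie (ε / 2) (half_pos hε)
  have h2' : v.Ge (-(ε / 2)) (algebraMap k Ω R.e * eval ![w 0, w 1] θ +
      x * PP p R.κ R.t (eval ![w 0, w 1] θ) + eval ![w 0, w 1] R.Pa -
      eval ![w 0, w 1] h' ^ p) := by
    rw [cons_eta]
    rw [map_sub, map_add, map_add, map_mul, map_mul, map_pow, eval_C, eval_C, eval_PPy] at h2
    exact h2
  have h1' : v.Ge (-(ε / 2)) (z - eval ![w 0, w 1] θ) := by rwa [cons_eta]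
  obtain ⟨ε₀, he0, h3⟩ := lemR (T := R.T) (U := R.U) (Z := R.Z) h.c0 h.frm.iso h.frm.fix h.frm.Tw
    h.frm.Tu h.jet h.xW h.PaW (half_pos hε).le (half_lt_self hε) hθ hh h1' h2'
  refine ⟨θ, h', ε₀, he0, hθ, hh, hq, h1.mono (by linarith), fun Uf hUf => ?_⟩
  obtain ⟨h4, h5⟩ := h3 Uf hUf.near
  refine ⟨fun g => ?_, fun g => ?_⟩
  · rw [dsR_trf]
    exact h4 g
  · have h6 := h5 g
    have h7 : trf (w 0) (w 1) Uf (PP p R.κ R.t θ) = PP p R.κ R.t (trf (w 0) (w 1) Uf θ) := by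
      rw [← AlgHom.restrictScalars_apply k (trf (w 0) (w 1) Uf), PP_map]
      rfl
    have hCf : ∀ a : Ω, trf (w 0) (w 1) Uf (C a) = C a := fun a => by simp [trf]
    rw [shR_trf, map_sub, map_add, map_add, map_mul, map_mul, map_pow, hCf, hCf, h7]
    exact h6

/-- **R2.** -/
theorem rowR2 [Infinite k] : RowR2 (k := k) p v := rowR2_of rowR1

end Pool.Agent.TWRB
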