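import Pool.Agent.Lib.TWRB.Core
import Pool.Agent.Lib.TWRB.R11

/-!
# RowB: the row R11

* `CB.plT`: the data of the plane;
* `rowR11`: `a` and the coefficients of `Ψ` are small;
* `MoB.ge0`: `τ z - z - Za` is in `O_0`; `small_ztf`: the coefficients of `ζ` are small.
-/

set_option autoImplicit false

open MvPolynomial

namespace Pool.Agent.TWRB

open Pool.Agent.H15JM (RVal)
open Pool.Agent.D2 (Ctx0)
open Pool.Agent.D2P (clI)
open Pool.Agent.TWM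
open Pool.Agent.TWS (IsoE SphC)
open Pool.Agent.TWCT (SMo)
open Pool.Agent.TWLY
open Pool.Agent.TWCY
open Pool.Agent.TWCU (zet)

universe u

variable {k Ω : Type u} [Field k] [Field Ω] [Algebra k Ω] {p : ℕ} {v : RVal Ω}
  {L : ℕ → IntermediateField k Ω} {W B F K A : IntermediateField k Ω} {w : Fin 2 → Ω}
  {x z a b Za : Ω} {R : RecB k Ω} {τ : Ω →ₐ[k] Ω} {ρ : ℝ}

/-- The data of the plane. -/
theorem CB.plT (h : CB p v L W B F K w x z a R) : PlT v W B F (w 0) (w 1) R.T R.U :=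
  ⟨h.tw, h.B_eq, h.tu, h.F_eq, h.frm.iso, h.frm.fix, h.frm.Tw, h.frm.Tu⟩

/-- `τ z - z - Za` is in `O_0`, for a limit `z` of `F`. -/
theorem MoB.ge0 (h : MoB v A W B F w z τ ρ a b Za) (hz : Lim v F 0 z) :
    v.Ge 0 (τ z - z - Za) := by
  intro h0
  refine le_of_forall_pos_le_add fun ε hε => ?_
  have hp := h.mF.pos
  set δ : ℝ := min ε (ρ / 2) with hδ
  have hδ0 : 0 < δ := lt_min hε (by linarith)
  obtain ⟨θ, hθ, h1⟩ := hz δ hδ0
  have h1' : v.Ge (-δ) (z - θ) := h1.mono (by linarith)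
  have h2 := h.za θ hθ (h1'.mono (by linarith [min_le_right ε (ρ / 2)]))
  have h3 : v.Ge (-δ) (τ (z - θ)) := h.mF.iso.ge_iff.2 h1'
  have e : τ z - z - Za = (τ θ - θ - Za) + (τ (z - θ) - (z - θ)) := by
    rw [map_sub]
    ring
  have h4 : v.Ge (-δ) (τ z - z - Za) := by
    rw [e]
    exact (h2.ge.mono (by linarith)).add (h3.sub h1')
  have h5 := h4 h0
  linarith [min_le_left ε (ρ / 2)]

/-- **R11.** -/
theorem rowR11 [IsAlgClosed k] [IsAlgClosed Ω] : RowR11 (k := k) p v := by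
  intro L W B F K w x z a R h ε hε
  have : Infinite k := IsAlgClosed.instInfinite
  obtain ⟨J₁, h1⟩ := small_lim h.mono h.dense h.tw.lim hε
  obtain ⟨J₂, h2⟩ := small_psi h.c0 h.mono h.dense h.plT hε
  refine ⟨max J₁ J₂, fun J hJ τ ρ a b Za hτ => ⟨?_, ?_⟩⟩
  · have := h1 J ((le_max_left _ _).trans hJ) τ hτ.mW.iso hτ.mW.fix
    rwa [hτ.tw, add_sub_cancel_left] at this
  · exact h2 J ((le_max_right _ _).trans hJ) τ hτ.mW.iso hτ.mW.fix a b hτ.tw hτ.tu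

theorem ztf_self (τ : Ω →ₐ[k] Ω) (a b Za : Ω) (Z : MvPolynomial (Fin 2) Ω) (U : Polynomial Ω) :
    ztf τ a b Za Z U U = zet τ (Lp a (Psi τ a b U)) Za Z := by
  unfold ztf
  rw [sub_self, shU_zero]

/-- **`ζ` is small.** -/
theorem small_ztf [IsAlgClosed k] [IsAlgClosed Ω] (h : CB p v L W B F K w x z a R) {ε : ℝ}
    (hε : 0 < ε) : ∃ J₀ : ℕ, ∀ J ≥ J₀, ∀ (τ : Ω →ₐ[k] Ω) (ρ : ℝ) (a b Za : Ω),
      MoB v (L J) W B F w z τ ρ a b Za → ∀ g, v.Ge (-ε) (coeff g (ztf τ a b Za R.Z R.U R.U)) := by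
  have : Infinite k := IsAlgClosed.instInfinite
  obtain ⟨J₀, h1⟩ := small_zet h.c0 h.mono h.dense h.plT h.zt.lim h.jet hε
  refine ⟨J₀, fun J hJ τ ρ a b Za hτ g => ?_⟩
  rw [ztf_self]
  exact h1 J hJ τ hτ.mW.iso hτ.mW.fix a b hτ.tw hτ.tu Za (hτ.ge0 h.zt.lim) g

end Pool.Agent.TWRB
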