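import Pool.Agent.Lib.TWRB.Core
import Pool.Agent.Lib.TWRB.R3f

/-!
# RowB: the row R3

`rowR3`: the relation `(b*)` for a real approximation of `U`, up to `ε`.
-/

set_option autoImplicit false

open MvPolynomial

namespace Pool.Agent.TWRB

open Pool.Agent.H15JM (RVal)
open Pool.Agent.LU1 (VPos)
open Pool.Agent.D2 (Ctx0)
open Pool.Agent.TWM
open Pool.Agent.TWS (IsoE SphC)
open Pool.Agent.TWPL (ptk)
open Pool.Agent.TWLY
open Pool.Agent.TWCY
open Pool.Agent.TWCU (zet)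

universe u

variable {k Ω : Type u} [Field k] [Field Ω] [Algebra k Ω] {v : RVal Ω}
  {L : ℕ → IntermediateField k Ω} {W B F K A : IntermediateField k Ω} {w : Fin 2 → Ω}
  {x z a : Ω} {R : RecB k Ω} {p : ℕ}

omit [Field Ω] in
theorem cons_eta (w : Fin 2 → Ω) : (![w 0, w 1] : Fin 2 → Ω) = w := by
  funext i
  fin_cases i <;> rfl

theorem shR_trf (w : Fin 2 → Ω) (U : Polynomial Ω) (q : MvPolynomial (Fin 2) Ω) :
    shR w U q = trf (w 0) (w 1) U q := by
  unfold shR trf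
  congr 2
  funext i
  fin_cases i
  · rfl
  · change C (w 1) + Polynomial.aeval (X 0) U + X 1 = C (w 1) + X 1 + Polynomial.aeval (X 0) U
    ring

theorem dsR_trf (w : Fin 2 → Ω) (U : Polynomial Ω) (q : MvPolynomial (Fin 2) Ω) :
    dsR w U q = trf (w 0) (w 1) U q - C (eval ![w 0, w 1] q) := by
  rw [dsR, shR_trf, cons_eta]

theorem eval_PPy {κ : ℕ → k} {t : ℕ} (y : Fin 2 → Ω) (q : MvPolynomial (Fin 2) Ω) :
    eval y (PP p κ t q) = PP p κ t (eval y q) := by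
  have h : ∀ G : MvPolynomial (Fin 2) Ω, eval y G = (MvPolynomial.aeval (R := Ω) y) G := fun G => by
    rw [← MvPolynomial.coe_aeval_eq_eval]
    rfl
  rw [h, h, ← AlgHom.restrictScalars_apply k, PP_map]
  rfl

/-- The displacement of an approximation. -/
theorem MoB.near {τ : Ω →ₐ[k] Ω} {b Za a' : Ω} {η : ℝ} (h : MoB v A W B F w z τ η a' b Za)
    (hz : Lim v F 0 z) {ε : ℝ} (hε : 0 < ε) {θ : Ω} (hθ : θ ∈ F) (h1 : v.Ge (-ε) (z - θ)) :
    v.Ge (-ε) (τ θ - θ - Za) := by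
  have hη := h.mF.pos
  obtain ⟨θ', hθ', h2⟩ := Lim.neg_eps hz (lt_min (half_pos hη) hε)
  have h3 := h.za θ' hθ' (h2.mono (neg_le_neg (min_le_left _ _)))
  have h4 : v.Ge (-ε) (θ - θ') := by
    have e : θ - θ' = (z - θ') - (z - θ) := by ring
    rw [e]
    exact (h2.mono (neg_le_neg (min_le_right _ _))).sub h1
  have e : τ θ - θ - Za = (τ θ' - θ' - Za) + (τ (θ - θ') - (θ - θ')) := by
    rw [map_sub]
    ring
  rw [e]
  refine (h3.ge.mono (by linarith)).add ((h.mF.iso.ge_iff.2 h4).sub h4)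

theorem HB.WB (h : HB p v L W B F K w x z a) : W ≤ B := by
  rw [h.B_eq]
  exact le_cadj v W (w 0)

theorem HB.BF (h : HB p v L W B F K w x z a) : B ≤ F := by
  rw [h.F_eq]
  exact le_cadj v B (w 1)

theorem HB.w0B (h : HB p v L W B F K w x z a) : w 0 ∈ B := by
  rw [h.B_eq]
  exact self_mem_cadj v W (w 0)

theorem HB.w1F (h : HB p v L W B F K w x z a) : w 1 ∈ F := by
  rw [h.F_eq]
  exact self_mem_cadj v B (w 1)

/-- **R3.** -/
theorem rowR3 [hp : Fact p.Prime] [CharP Ω p] [Infinite k] : RowR3 (k := k) p v := by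
  intro L W B F K w x z a R h ε hε
  have hp0 : (0 : ℝ) < p ^ (R.t + 1) := by
    have h1 : (0 : ℝ) < p := by exact_mod_cast hp.out.pos
    positivity
  obtain ⟨ε', he', hmul⟩ : ∃ ε' : ℝ, 0 < ε' ∧ p ^ (R.t + 1) * ε' = ε :=
    ⟨ε / p ^ (R.t + 1), div_pos hε hp0, by field_simp⟩
  obtain ⟨θ, h', hθ, hh, -, h1, h2⟩ := h.tie (ε' / 2) (half_pos he')
  have hxW : x ∈ W := h.xW
  have h2' : v.Ge (-(ε' / 2)) (algebraMap k Ω R.e * eval ![w 0, w 1] θ +
      x * PP p R.κ R.t (eval ![w 0, w 1] θ) + eval ![w 0, w 1] R.Pa -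
      eval ![w 0, w 1] h' ^ p) := by
    rw [cons_eta]
    rw [map_sub, map_add, map_add, map_mul, map_mul, map_pow, eval_C, eval_C, eval_PPy] at h2
    exact h2
  have h1' : v.Ge (-(ε' / 2)) (z - eval ![w 0, w 1] θ) := by rwa [cons_eta]
  obtain ⟨ε₀, he0, h3⟩ := lemR (T := R.T) (U := R.U) (Z := R.Z) h.c0 h.frm.iso h.frm.fix h.frm.Tw
    h.frm.Tu h.jet hxW h.PaW (half_pos he').le (half_lt_self he') hθ hh h1' h2'
  refine ⟨ε₀, he0, fun Uf hUf J τ ρ a b Za hM hτx hτPa S₀ E hE hEx g => ?_⟩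
  obtain ⟨h4, h5⟩ := h3 Uf hUf.near
  have hWF : W ≤ F := h.WB.trans h.BF
  have hw0 : w 0 ∈ F := h.BF h.w0B
  have hθF : eval ![w 0, w 1] θ ∈ F := by
    rw [cons_eta, eval_eq']
    refine sum_mem fun m _ => mul_mem (hWF (hθ m)) (prod_mem fun i _ => pow_mem ?_ _)
    fin_cases i
    exacts [hw0, h.w1F]
  have h6 := hM.near h.zt.lim he' hθF (h1'.mono (by linarith))
  have h7 := bstar_f (e := R.e) (e₁ := R.l 0) (e₂ := R.l 1) (Pb := R.Pa - lin R.l) (κ := R.κ)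
    (t := R.t) (Z := R.Z) (U := R.U) (F := F) h.c0 hM.mF.iso (fun y hy => hM.mF.mem hy) hτx hM.tw
    hM.tu hw0 h.w1F (hWF hM.aW) (h.BF hM.bC) hE.pow E hE.norm hE.one hEx
    (fun j => h.BF (hUf.mem j)) he' (fun g => hWF (hθ g)) (fun g => hWF (hh g)) hτPa ?_ ?_ ?_
    h4 h5 (h2'.mono (by linarith)) h6 ?_ g
  · rw [hmul] at h7
    have e1 : Gf p w x R E Uf = C (E x) * PP p R.κ R.t (shU (Uf - R.U) R.Z) +
        C (algebraMap k Ω R.e) * Dc E (shU (Uf - R.U) R.Z) +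
        Dc E (trf (w 0) (w 1) Uf R.Pa - C (eval ![w 0, w 1] R.Pa)) := by
      rw [Gf, dsR_trf]
    rw [e1]
    exact h7
  · rw [lin, Fin.sum_univ_two]
    ring
  · intro m hm
    by_contra h8
    rw [coeff_sub, h.PaD m h8, sub_self] at hm
    exact hm rfl
  · intro hl j hj
    have h8 := h.Up hl j hj
    rw [hUf.eq j (by rw [h8]; exact zero_mem _), h8]
  · intro he m hm
    by_contra h8
    exact hm (h.Zp he m h8)

end Pool.Agent.TWRB
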