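import Pool.Agent.Lib.TWRB.R9
import Pool.Agent.Lib.TWCT.GssF

/-!
# RowB: the shape of the second floor in the big field

`exists_shB`: from the finite shape of the real second floor along the real first floor, the shape `ShU`
of the normalised floors over the Gauss extension of the tame closure. `RowShB`, `rowShB`.
-/

set_option autoImplicit false

open Polynomial Finset

namespace Pool.Agent.TWRB

open Pool.Agent.H15JM (RVal)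
open Pool.Agent.D2 (Ctx0)
open Pool.Agent.D2P (clI)
open Pool.Agent.TWM
open Pool.Agent.TWS (IsoE SphC PM VG)
open Pool.Agent.TWNI (FinE)
open Pool.Agent.TWTam (tam le_tam)
open Pool.Agent.TWCT (HsY J1D tH GsM)

universe u

variable {k Ω₀ Ω : Type u} [Field k] [Field Ω₀] [Algebra k Ω₀] [Field Ω] [Algebra k Ω]

/-- **The shape of the second floor in the big field**, as a row. -/
def RowShB (p : ℕ) (v₀ : RVal Ω₀) (v : RVal Ω) (ι : Ω₀ →ₐ[k] Ω) : Prop :=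
  ∀ (x₀ : Ω₀) (W₀ K₀ : IntermediateField k Ω₀) (al : Ω₀) (ν : ℝ) (y u : Ω₀) (r t : ℝ)
    (Θ : ℕ → Ω₀ → Ω₀), J1D p v₀ v ι x₀ W₀ K₀ al ν → TL v₀ (clI v₀ W₀) y r →
    HsY v₀ (clI v₀ W₀) y r Θ → TL v₀ (cadj v₀ (clI v₀ W₀) y) u t →
    FinE v₀ (cadj v₀ (clI v₀ W₀) y) r t Θ u → ∀ (G : AddSubgroup ℝ) (M : ℝ → Ω), MS v G M →
    (∀ g ∈ G, g ∈ VG v (tH p v₀ ι x₀ (clI v₀ W₀)) → g = 0) → ∀ c₁ c₂ : Ω,
    c₁ ∈ PM v (tH p v₀ ι x₀ (clI v₀ W₀)) G M → c₂ ∈ PM v (tH p v₀ ι x₀ (clI v₀ W₀)) G M →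
    c₁ ≠ 0 → c₂ ≠ 0 → v c₁ = r → v c₂ = t →
    ∃ U : Polynomial Ω, ShU v (PM v (tH p v₀ ι x₀ (clI v₀ W₀)) G M) ![ι y / c₁, ι u / c₂] U

variable {p : ℕ} {v₀ : RVal Ω₀} {v : RVal Ω} {ι : Ω₀ →ₐ[k] Ω} [hp : Fact p.Prime] [CharP Ω₀ p]
  [CharP Ω p] [CharP k p] [IsAlgClosed k] [IsAlgClosed Ω₀] [IsAlgClosed Ω]

omit hp [CharP Ω₀ p] [CharP Ω p] [CharP k p] [IsAlgClosed k] in
/-- The floors in the big field. -/
theorem tl_floors (hI : IsoE v₀ v ι) (hcv : CompleteV v₀) {x₀ : Ω₀} {W : IntermediateField k Ω₀}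
    (hx : x₀ ∈ W) {y u : Ω₀} {r t : ℝ} (hy : TL v₀ W y r) (hu : TL v₀ (cadj v₀ W y) u t)
    {G : AddSubgroup ℝ} {M : ℝ → Ω} (hG : GsM v (tH p v₀ ι x₀ W) G M) {c₁ c₂ : Ω}
    (h1 : c₁ ∈ PM v (tH p v₀ ι x₀ W) G M) (h2 : c₂ ∈ PM v (tH p v₀ ι x₀ W) G M) (h10 : c₁ ≠ 0)
    (h20 : c₂ ≠ 0) (hv1 : v c₁ = r) (hv2 : v c₂ = t) :
    TL v (PM v (tH p v₀ ι x₀ W) G M) (ι y / c₁) 0 ∧
      TL v (cadj v (PM v (tH p v₀ ι x₀ W) G M) (ι y / c₁)) (ι u / c₂) 0 := by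
  have hyH : TL v (tH p v₀ ι x₀ W) (ι y) r := by
    rw [tH, hI.tl_iff]
    exact TWTam.tl_tam hx hy
  have huH : TL v (cadj v (tH p v₀ ι x₀ W) (ι y)) (ι u) t := by
    rw [← TWCT.tH_cadj hI hcv, tH, hI.tl_iff]
    exact TWTam.tl_tam (le_cadj v₀ W y hx) hu
  obtain ⟨g1, g2⟩ := TWS.TL.pm_scale hG.monG (Imm.refl _) hyH h1 h10 hv1
  refine ⟨g1, ?_⟩
  have g3 := TWS.TL.pm hG.monG hyH.imm huH
  rw [← g2] at g3
  exact (TWS.TL.scale g3 (le_cadj v _ _ h2) h20 hv2).1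

/-- **The shape of the second floor in the big field.** -/
theorem rowShB : RowShB p v₀ v ι := by
  intro x₀ W₀ K₀ al ν y u r t Θ hJ hy hΘ hu hfin G M hM hG c₁ c₂ h1 h2 h10 h20 hv1 hv2
  obtain ⟨g1, g2⟩ := tl_floors hJ.iso hJ.cpl hJ.xW hy hu ⟨hM, hG⟩ h1 h2 h10 h20 hv1 hv2
  obtain ⟨Θ', hΘ'⟩ := TWCT.exists_hsY hJ.cw g1
  have hle : (clI v₀ W₀).map ι ≤ PM v (tH p v₀ ι x₀ (clI v₀ W₀)) G M := by
    refine le_trans ?_ PM.le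
    rintro _ ⟨a, ha, rfl⟩
    exact ⟨a, le_tam _ ha, rfl⟩
  have h3 := finE_up hJ.iso hy hΘ hu.lim hfin hle h1 h10 hv1 h2 h20 hv2 hΘ'
  exact shU_of_fin (w' := ![ι y / c₁, ι u / c₂]) hJ.c0 hJ.sph g2 hΘ' h3

end Pool.Agent.TWRB
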