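import Pool.Agent.Lib.TWRB.OutB
import Pool.Agent.Lib.TWRB.RowR3

/-!
# CT, j = 1, row B: the output of the core in the big field

* `outE_of_cb`: `OutE` from the data `CB` and the conclusions `NoC`, `NoG`, for every `u` with
  `u - w 1 ∈ B`;
* `OutE.real`: `OutE` for `x` instead of `x'`, `x - x'` strict;
* `RowTopB`, `rowTopB_of`: from `HB`, `BaseD`, `ShU`, `TieF` to `OutE`.
-/

set_option autoImplicit false

open MvPolynomial

namespace Pool.Agent.TWRB

open Pool.Agent.H15JM (RVal)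
open Pool.Agent.LU1 (VPos adj)
open Pool.Agent.D2 (Ctx0)
open Pool.Agent.D2P (clI)
open Pool.Agent.TWM
open Pool.Agent.TWS (IsoE SphC)
open Pool.Agent.TWII (PG LP)
open Pool.Agent.TWLY
open Pool.Agent.TWCY
open Pool.Agent.TWCF (NL)

universe u

variable {k Ω : Type u} [Field k] [Field Ω] [Algebra k Ω] {v : RVal Ω}
  {L : ℕ → IntermediateField k Ω} {W B F K : IntermediateField k Ω} {w : Fin 2 → Ω}
  {x z a : Ω} {R : RecB k Ω} {p : ℕ}

section frm

variable {T : (Fin 2 → k) → Ω →ₐ[k] Ω} {U : Polynomial Ω}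

/-- `T (0, c)` fixes `B`. -/
theorem Frm.fix0 (hT : Frm v W B w T U) (hB : B = cadj v W (w 0)) (c : k) :
    ∀ y ∈ B, T (p01 c) y = y := by
  have h1 : adj W (w 0) ≤ TWCT.fixF (T (p01 c)) := D2P.adj_le (fun y hy => hT.fix _ y hy) (by
    rw [TWCT.mem_fixF, hT.Tw, p01_zero, map_zero, add_zero])
  rw [hB]
  exact fun y hy => TWCT.clI_le_fixF (hT.iso _) h1 hy

theorem Frm.T1 (hT : Frm v W B w T U) (c : k) : T (p01 c) (w 1) = w 1 + algebraMap k Ω c := by
  rw [hT.Tu, p01_zero, p01_one, map_zero, ← Polynomial.coeff_zero_eq_eval_zero, hT.U0, add_zero]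

end frm

/-- The value of the orbit polynomial at `(0, c)`. -/
theorem CB.T_a0 (h : CB p v L W B F K w x z a R) (c : k) :
    R.T (p01 c) (eval w R.Pa) = eval w R.Pa + eval (pt (p01 c)) (dsR w 0 R.Pa) := by
  have h1 : R.T (p01 c) (eval ![w 0, w 1] R.Pa) =
      eval ![R.T (p01 c) (w 0), R.T (p01 c) (w 1)] R.Pa := map_eval_W (h.frm.fix _) h.PaW _ _
  have h2 : eval (pt (p01 c)) (trf (w 0) (w 1) 0 R.Pa) = eval ![w 0 + algebraMap k Ω (p01 c 0),
      w 1 + (0 : Polynomial Ω).eval (algebraMap k Ω (p01 c 0)) + algebraMap k Ω (p01 c 1)] R.Pa :=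
    eval_trf (w 0) (w 1) 0 R.Pa (p01 c)
  rw [cons_eta] at h1
  rw [dsR_trf, map_sub, eval_C, cons_eta, add_sub_cancel, h1, h2, h.frm.Tw, h.frm.T1,
    Polynomial.eval_zero, add_zero, p01_one]

theorem CB.constantCoeff_ds (_ : CB p v L W B F K w x z a R) :
    constantCoeff (dsR w 0 R.Pa) = 0 := by
  have h2 : eval (pt (p01 (0 : k))) (trf (w 0) (w 1) 0 R.Pa) =
      eval ![w 0 + algebraMap k Ω (p01 (0 : k) 0), w 1 + (0 : Polynomial Ω).eval
        (algebraMap k Ω (p01 (0 : k) 0)) + algebraMap k Ω (p01 (0 : k) 1)] R.Pa :=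
    eval_trf (w 0) (w 1) 0 R.Pa (p01 (0 : k))
  have e : (pt (p01 (0 : k)) : Fin 2 → Ω) = 0 := by
    funext i
    fin_cases i
    · exact map_zero _
    · exact map_zero _
  rw [e, eval_zero, p01_zero, p01_one, map_zero, Polynomial.eval_zero, add_zero, add_zero,
    add_zero] at h2
  rw [dsR_trf, map_sub, h2, constantCoeff_C, sub_self]

/-- **The output of the core, from `CB`.** -/
theorem outE_of_cb {φ : Ω} (h : CB p v L W B F K w x (z - φ) a R) (hφ : φ ∈ F) {D₀ D : Ω → Ω}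
    {dd : Fin 2 → Ω → Ω} (hD : BaseD p v W x D₀) (hd : DrvB v W B F w D dd)
    (hDD : ∀ y ∈ W, D y = D₀ y) (h12 : RowR12 (k := k) p v) (h12v : RowR12v (k := k) p v)
    (hC : NoC v F R.Z) (hG : NoG p v F w x R) {u : Ω} (hu : u - w 1 ∈ B) :
    ∃ f : ℕ → Ω, OutE p v B F K u x z a φ R.e R.κ R.t (eval w R.Pa) (fun c => R.T (p01 c))
      R.Z.totalDegree f dd := by
  have hWB := h.toHB.WB
  have hBF := h.toHB.BF
  have hw0 : w 0 ∈ F := hBF h.toHB.w0B
  have hw1 := h.toHB.w1F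
  obtain ⟨-, -, hE⟩ := h12 L W B F K w x (z - φ) a D₀ h.toHB hD
  choose S E hE1 hE2 using fun i : Fin 2 => hE (dd i) (hd.drvi i)
  have hPe : eval w R.Pa ∈ F := eval_mem' (fun g => hBF (hWB (h.PaW g))) fun i => by
    fin_cases i
    · exact hw0
    · exact hw1
  have hPF : ∀ g, coeff g (dsR w 0 R.Pa) ∈ F := by
    intro g
    rw [dsR_trf, coeff_sub]
    refine sub_mem (trf_mem hw0 hw1 (fun j => by rw [Polynomial.coeff_zero]; exact zero_mem _)
      (fun g => hBF (hWB (h.PaW g))) g) ?_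
    have h1 : (C (eval ![w 0, w 1] R.Pa) : MvPolynomial (Fin 2) Ω) ∈ PF F :=
      C_mem_PF (by rw [cons_eta]; exact hPe)
    exact h1 g
  have hlin : ∀ (S : IntermediateField k Ω) (E : Ω →ₗ[S] Ω) (y : Ω),
      (LinearMap.restrictScalars k E) y = E y := fun _ _ _ => rfl
  have hl0 : ∀ (E : Ω → Ω), E 0 = 0 → ∀ (l : ℕ) (P : MvPolynomial (Fin 2) Ω),
      coeff (Finsupp.single 1 l) (C (algebraMap k Ω R.e) * Dc E P) =
        algebraMap k Ω R.e * E (coeff (Finsupp.single 1 l) P) := fun E h0 l P => by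
    rw [coeff_C_mul, TWCU.coeff_Dc' h0]
  refine outE_of_end (T := R.T) (Z := R.Z) (A := dsR w 0 R.Pa) (dd := dd)
    (E := fun i => LinearMap.restrictScalars k (E i)) h.c0 h.sph h.frm.iso
    (h.frm.fix0 h.B_eq) (fun c => ?_) h.kap hφ ?_ h.rel h.Z0 h.jet ?_ ?_ (fun l => hPF _) (h.T_a0)
    hd.drvi (fun i => hd.ddW i _ h.xW) (fun i y c hy => (hE1 i).norm y c hy)
    (fun i f hf => hE2 i f hf) ?_ fun b hb hlp hb2 => ?_
  · have h1 : R.T (p01 c) (u - w 1) = u - w 1 := h.frm.fix0 h.B_eq c _ hu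
    have e : u = (u - w 1) + w 1 := by ring
    rw [e, map_add, h1, h.frm.T1]
    ring
  · exact hPe
  · intro d hd1 hd2 l _
    obtain ⟨f, hf, h1⟩ := hC l
    have h2 : VPos v ((LinearMap.restrictScalars k d) (coeff (Finsupp.single 1 l) R.Z - f)) :=
      vpos_lin h.c0 (fun y c hy => hd1 y c hy) (hd2 1 (one_mem F)) h1
    rw [map_sub] at h2
    have h3 : (LinearMap.restrictScalars k d) f = 0 := hd2 f hf
    rw [h3, sub_zero] at h2
    exact h2
  · exact h.constantCoeff_ds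
  · intro i l hl
    have h1 := hG (S i) (E i) (hE1 i) (by rw [hE2 i x (hBF (hWB h.xW))]; exact hd.ddW i _ h.xW) l hl
    rw [coeff_add, hl0 _ (map_zero _), TWCU.coeff_Dc' (map_zero _), hE2 i _ (hPF _)] at h1
    exact h1
  · exact h12v L W B F K w x (z - φ) a D₀ D dd h.toHB hD hd hDD b hb hlp hb2

section real

variable {C : IntermediateField k Ω} {u x' φ a₀ : Ω} {e : k} {κ : ℕ → k} {t : ℕ}
  {T : k → Ω →ₐ[k] Ω} {D : ℕ} {f : ℕ → Ω} {dd : Fin 2 → Ω → Ω}

/-- The displacement of a polynomial. -/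
theorem att_poly {y : Ω} (h : TWRR.Att v C F u y T D f) {q : Polynomial Ω} (hq : q ∈ PI C) {N : ℕ}
    (hN : q.natDegree ≤ N) (c : k) : T c (q.eval u) - q.eval u =
      ∑ j ∈ Finset.Icc 1 N, algebraMap k Ω c ^ j * (Polynomial.hasseDeriv j q).eval u := by
  rw [h.eval hq, TWN1.rt_taylor hN u (u + algebraMap k Ω c), Finset.sum_range_succ',
    Polynomial.hasseDeriv_zero', pow_zero, mul_one, add_sub_cancel_right, add_sub_cancel_left]
  refine Finset.sum_bij' (fun j _ => j + 1) (fun j _ => j - 1) (fun j hj => ?_) (fun j hj => ?_)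
    (fun j _ => ?_) (fun j hj => ?_) (fun j _ => ?_)
  · exact Finset.mem_Icc.2 ⟨Nat.succ_pos j, Nat.succ_le_of_lt (Finset.mem_range.1 hj)⟩
  · obtain ⟨h1, h2⟩ := Finset.mem_Icc.1 hj
    exact Finset.mem_range.2 (by omega)
  · exact Nat.add_sub_cancel j 1
  · have := (Finset.mem_Icc.1 hj).1
    omega
  · exact mul_comm _ _

/-- **Change of the class**: `x` instead of `x'`. -/
theorem OutE.real [hp : Fact p.Prime] [CharP Ω p] [CharP k p] [IsAlgClosed Ω] (hk : Ctx0 k v) (hcv : CompleteV v)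
    (h : OutE p v C F K u x' z a φ e κ t a₀ T D f dd) (hF : F = cadj v C u) (hu : TL v C u 0)
    (hz : TL v F z 0) (hx' : x' ∈ C) (hx : Gt v 0 (x - x')) (hdx : ∀ i, dd i x = 0) :
    ∃ (φ' a₀' : Ω) (D' : ℕ) (f' : ℕ → Ω),
      OutE p v C F K u x z a φ' e κ t a₀' T D' f' dd := by
  classical
  have hCF : C ≤ F := by
    rw [hF]
    exact le_cadj v C u
  have huF : u ∈ F := by
    rw [hF]
    exact self_mem_cadj v C u
  obtain ⟨μ, hμ, h1⟩ := TWLM.exists_ge_of_gt hx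
  rw [zero_add] at h1
  have hp0 : (0 : ℝ) < p ^ (t + 1) := pow_pos (by exact_mod_cast hp.out.pos) _
  set ε : ℝ := μ / (2 * p ^ (t + 1)) with hε
  have hε0 : 0 < ε := by positivity
  have hεμ : (p : ℝ) ^ (t + 1) * ε = μ / 2 := by
    rw [hε]
    field_simp
  -- the approximation
  obtain ⟨θ₁, hθ₁, h2⟩ := hz.lim ε hε0
  have h3 : θ₁ - φ ∈ cadj v C u := by
    rw [← hF]
    exact sub_mem hθ₁ h.φF
  obtain ⟨q, hq, h4⟩ := hu.dense h3 0
  set θ := q.eval u with hθ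
  have hθF : θ ∈ F := by
    rw [hF]
    exact TWLM.eval_mem_cadj hq
  have hzθ : v.Ge (-ε) (z - (φ + θ)) := by
    have e1 : z - (φ + θ) = (z - θ₁) + (θ₁ - φ - θ) := by ring
    rw [e1]
    exact (h2.mono (by linarith)).add (h4.mono (by linarith))
  have hx'F := hCF hx'
  -- the translations
  have hCm : ∀ c, C.map (T c) = C := fun c => by
    ext y
    constructor
    · rintro ⟨b, hb, rfl⟩
      have h5 : T c b = b := h.att.fix c b hb
      exact h5.symm ▸ hb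
    · exact fun hy => ⟨y, hy, h.att.fix c y hy⟩
  have hTF : ∀ c, ∀ y ∈ F, T c y ∈ F := fun c y hy => by
    have h5 : (cadj v C u).map (T c) = cadj v C u :=
      TWCT.cadj_map_eq hcv (h.att.iso c) (hCm c) (C.algebraMap_mem c) (h.att.w c)
    rw [hF] at hy ⊢
    rw [← h5]
    exact ⟨y, hy, rfl⟩
  set N := max D q.natDegree with hN
  set f' : ℕ → Ω := fun j => (if j ≤ D then f j else 0) - (Polynomial.hasseDeriv j q).eval u with hf'
  have hsum : ∀ c : k, ∑ j ∈ Finset.Icc 1 N, algebraMap k Ω c ^ j * f' j =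
      ∑ j ∈ Finset.Icc 1 D, algebraMap k Ω c ^ j * f j - (T c θ - θ) := fun c => by
    rw [att_poly h.att hq (le_max_right D q.natDegree) c]
    simp only [hf', mul_sub, Finset.sum_sub_distrib]
    congr 1
    have h5 : ∑ j ∈ Finset.Icc 1 D, algebraMap k Ω c ^ j * f j =
        ∑ j ∈ Finset.Icc 1 D, algebraMap k Ω c ^ j * (if j ≤ D then f j else 0) :=
      Finset.sum_congr rfl fun j hj => by rw [if_pos (Finset.mem_Icc.1 hj).2]
    rw [h5]
    refine (Finset.sum_subset (Finset.Icc_subset_Icc_right (le_max_left _ _)) fun j hj hj2 => ?_).symm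
    rw [if_neg, mul_zero]
    exact fun h6 => hj2 (Finset.mem_Icc.2 ⟨(Finset.mem_Icc.1 hj).1, h6⟩)
  have hPP : ∀ y ∈ F, PP p κ t y ∈ F := fun y hy => PP_mem hy
  refine ⟨φ + θ, a₀ + algebraMap k Ω e * θ + x' * PP p κ t θ, N, f', ?_⟩
  refine ⟨h.kap, add_mem h.φF hθF, add_mem (add_mem h.aF (mul_mem (F.algebraMap_mem _) hθF))
    (mul_mem hx'F (hPP _ hθF)), ?_, ⟨h.att.iso, h.att.fix, h.att.w, fun j => ?_, fun c => ?_⟩,
    h.drv, hdx, fun b hb hlp hdd => ?_, fun c i => ?_⟩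
  · have h5 : Gt v 0 ((x - x') * PP p κ t (z - (φ + θ))) := by
      have h6 := h1.mul (ge_PP (κ := κ) (t := t) (p := p) hk hε0 hzθ)
      rw [hεμ] at h6
      exact Gt.of_ge h6 (by linarith)
    have h6 := h.rel.sub (PG.of_gt (p := p) (F := K) h5)
    have e1 : z - φ = (z - (φ + θ)) + θ := by ring
    have e2 : PP p κ t (z - φ) = PP p κ t (z - (φ + θ)) + PP p κ t θ := by
      rw [e1, PP_add]
    have e3 : a - (algebraMap k Ω e * (z - (φ + θ)) + x * PP p κ t (z - (φ + θ)) +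
        (a₀ + algebraMap k Ω e * θ + x' * PP p κ t θ)) =
        a - (algebraMap k Ω e * (z - φ) + x' * PP p κ t (z - φ) + a₀) -
          (x - x') * PP p κ t (z - (φ + θ)) := by
      rw [e2]
      ring
    rw [e3]
    exact h6
  · simp only [hf']
    refine sub_mem ?_ ?_
    · split_ifs
      · exact h.att.fF j
      · exact zero_mem _
    · rw [hF]
      exact TWLM.eval_mem_cadj (TWLM.hasseDeriv_mem_PI hq j)
  · rw [hsum c]
    have e1 : T c (z - (φ + θ)) - (z - (φ + θ)) -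
        (∑ j ∈ Finset.Icc 1 D, algebraMap k Ω c ^ j * f j - (T c θ - θ)) =
        T c (z - φ) - (z - φ) - ∑ j ∈ Finset.Icc 1 D, algebraMap k Ω c ^ j * f j := by
      rw [map_sub, map_add, map_sub]
      ring
    rw [e1]
    exact h.att.jet c
  · obtain ⟨c, hc⟩ := h.cls b hb hlp hdd
    refine ⟨c, ?_⟩
    have h5 : Gt v 0 (algebraMap k Ω c * (x - x')) := by
      have h6 := hx.mul_ge (hk.ge c)
      rw [add_zero] at h6
      rwa [mul_comm]
    have h6 := hc.sub (PG.of_gt (p := p) (F := F) h5)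
    have e1 : b - algebraMap k Ω c * x = b - algebraMap k Ω c * x' -
        algebraMap k Ω c * (x - x') := by ring
    rw [e1]
    exact h6
  · rw [hsum c]
    have hTx : T c x' = x' := h.att.fix c x' hx'
    have hTPP : T c (PP p κ t θ) = PP p κ t (T c θ) := PP_map (T c) θ
    have hy : T c θ - θ ∈ F := sub_mem (hTF c θ hθF) hθF
    have e1 : algebraMap k Ω e * (∑ j ∈ Finset.Icc 1 D, algebraMap k Ω c ^ j * f j -
          (T c θ - θ)) + (T c (a₀ + algebraMap k Ω e * θ + x' * PP p κ t θ) -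
          (a₀ + algebraMap k Ω e * θ + x' * PP p κ t θ)) =
        (algebraMap k Ω e * ∑ j ∈ Finset.Icc 1 D, algebraMap k Ω c ^ j * f j + (T c a₀ - a₀)) +
          x' * PP p κ t (T c θ - θ) := by
      rw [map_add, map_add, map_mul, map_mul, hTx, hTPP, PP_sub, AlgHom.commutes]
      ring
    have hold : algebraMap k Ω e * ∑ j ∈ Finset.Icc 1 D, algebraMap k Ω c ^ j * f j +
        (T c a₀ - a₀) ∈ F :=
      add_mem (mul_mem (F.algebraMap_mem _) (sum_mem fun j _ =>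
        mul_mem (pow_mem (F.algebraMap_mem _) _) (h.att.fF j))) (sub_mem (hTF c a₀ h.aF) h.aF)
    rw [e1, (h.drv i).add _ hold _ (mul_mem hx'F (hPP _ hy)),
      (h.drv i).mul _ hx'F _ (hPP _ hy), (h.drv i).map_PP hy, h.ddx i, mul_zero, mul_zero, add_zero,
      add_zero]
    exact h.eff c i

end real

/-- **The output of the core in the big field**, for the original floors and the original `x`. -/
def RowTopB (p : ℕ) (v : RVal Ω) : Prop := ∀ (L : ℕ → IntermediateField k Ω)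
  (W B F K : IntermediateField k Ω) (w : Fin 2 → Ω) (x z a : Ω) (D : Ω → Ω) (U₀ : Polynomial Ω)
  (e₀ : k) (κ₀ : ℕ → k) (t₀ : ℕ) (a₀ : Ω), HB p v L W B F K w x z a → BaseD p v W x D →
  ShU v W w U₀ → TieF p v F K x z a e₀ κ₀ t₀ a₀ →
  ∃ (φ : Ω) (e : k) (κ : ℕ → k) (t : ℕ) (a₁ : Ω) (T : k → Ω →ₐ[k] Ω) (n : ℕ) (f : ℕ → Ω)
    (dd : Fin 2 → Ω → Ω), OutE p v B F K (w 1) x z a φ e κ t a₁ T n f dd ∧
    ∀ i, ∀ b ∈ W, dd i b = 0

/-- **The wiring**: R10, R8, R12, R12v, the core. -/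
theorem rowTopB_of [hp : Fact p.Prime] [CharP Ω p] [CharP k p] [IsAlgClosed Ω]
    (h8 : RowR8 (k := k) p v) (h10 : RowR10 (k := k) p v) (h12 : RowR12 (k := k) p v)
    (h12v : RowR12v (k := k) p v) (hC : RowCoreB (k := k) p v) : RowTopB (k := k) p v := by
  intro L W B F K w x z a D U₀ e₀ κ₀ t₀ a₀ h hD hU hT
  obtain ⟨A, hA, φ, hφ, T, U, x', D', e, κ, t, l, Pa, hx'W, hxx, hD', hHB, hFr, hNF⟩ :=
    h10 L W B F K w x z a D U₀ e₀ κ₀ t₀ a₀ h hD hU hT
  obtain ⟨Z, hCB⟩ := h8 L W B F K ![w 0, w 1 - A] x' (z - φ) a D' T U e κ t l Pa hHB hD' hFr hNF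
  obtain ⟨⟨D₁, dd, hdd, hDD⟩, -, hE⟩ := h12 L W B F K ![w 0, w 1 - A] x' (z - φ) a D' hHB hD'
  obtain ⟨S₀, E, hE1, hE2⟩ := hE D₁ hdd.drv
  have hWF : W ≤ F := h.WB.trans h.BF
  obtain ⟨hNC, hNG⟩ := hC L W B F K ![w 0, w 1 - A] x' (z - φ) a ⟨T, U, e, κ, t, l, Pa, Z⟩ hCB
    ⟨S₀, E, hE1, by rw [hE2 x' (hWF hx'W), hDD x' hx'W, hD'.Dx]⟩
  obtain ⟨f, hO⟩ := outE_of_cb hCB hφ hD' hdd hDD h12 h12v hNC hNG (u := w 1) (by
    change w 1 - (w 1 - A) ∈ B
    rw [sub_sub_cancel]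
    exact hA)
  obtain ⟨φ', a₁, n, f', hO'⟩ := hO.real h.c0 h.cv h.F_eq h.tu h.zt (h.WB hx'W) hxx
    fun i => hdd.ddW i x h.xW
  exact ⟨φ', e, κ, t, a₁, _, n, f', dd, hO', hdd.ddW⟩

end Pool.Agent.TWRB
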