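import Pool.Agent.Lib.TWRB.Glob
import Pool.Agent.Lib.TWRB.TopB
import Pool.Agent.Lib.TWRB.Fin

/-!
# CT, j = 1, row B: the skeleton, with the tie

* `RFl.false_of_tie`: real floors with the tie in the big field, from `RowTopB` and the real end.
-/

set_option autoImplicit false

open MvPolynomial

namespace Pool.Agent.TWRB

open Pool.Agent.H15JM (RVal)
open Pool.Agent.LU1 (VPos)
open Pool.Agent.D2 (Ctx0)
open Pool.Agent.D2P (clI)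
open Pool.Agent.TWM
open Pool.Agent.TWS (IsoE SphC PM VG TowR)
open Pool.Agent.TWII (PG LP)
open Pool.Agent.TWNI (FinE)
open Pool.Agent.TWCT (HsY Hit J1D tH GsM)
open Pool.Agent.TWLY
open Pool.Agent.TWCY

universe u

variable {k Ω₀ Ω : Type u} [Field k] [Field Ω₀] [Algebra k Ω₀] [Field Ω] [Algebra k Ω]
  {p : ℕ} {v₀ : RVal Ω₀} {v : RVal Ω} {ι : Ω₀ →ₐ[k] Ω} [hp : Fact p.Prime] [CharP Ω₀ p]
  [CharP Ω p] [CharP k p] [IsAlgClosed k] [IsAlgClosed Ω₀] [IsAlgClosed Ω] {x₀ : Ω₀}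
  {W₀ K₀ : IntermediateField k Ω₀} {al : Ω₀} {ν : ℝ} {C F : IntermediateField k Ω₀}
  {y u z : Ω₀} {r t s : ℝ}

/-- **Row B with the tie**: the tie and the shape in the big field for the real floors `y`, `u`,
`z`. -/
theorem RFl.false_of_tie' (hTop : RowTopB (k := k) p v)
    (h : RFl p v₀ v ι x₀ W₀ K₀ al ν C F y u z r t s)
    (hnl : ∀ g ∈ C, ¬ Lim v₀ (clI v₀ W₀) t (u - g)) (hnh : ¬ Hit p v₀ C u t)
    (ht : ∀ (G : AddSubgroup ℝ) (M : ℝ → Ω) (L : ℕ → IntermediateField k Ω)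
      (X₀ c₁ c₂ d m cx : Ω) (D : Ω → Ω),
      GLB p v₀ v ι x₀ W₀ K₀ al ν C F y u z r t s G M L X₀ c₁ c₂ d m cx D →
      (∃ U : Polynomial Ω, ShU v (PM v (tH p v₀ ι x₀ (clI v₀ W₀)) G M)
        ![ι y / c₁, ι u / c₂] U) ∧
      ∃ (e : k) (κ : ℕ → k) (n : ℕ) (a₀ : Ω), TieF p v (PM v (tH p v₀ ι x₀ F) G M)
        (PM v (tH p v₀ ι x₀ (clI v₀ K₀)) G M) (X₀ / cx ^ p) (ι z / d) (ι (al ^ p) / m ^ p) e κ n
        a₀) : False := by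
  obtain ⟨G, M, L, X₀, c₁, c₂, d, m, cx, D, hG⟩ := h.exists_glb hnl hnh
  obtain ⟨⟨U, hU⟩, e₀, κ₀, n₀, a₀, hT⟩ := ht G M L X₀ c₁ c₂ d m cx D hG
  obtain ⟨φ, e, κ, n, a₁, T, n', f, dd, hO, hdd⟩ := hTop _ _ _ _ _ ![ι y / c₁, ι u / c₂] _ _ _ D U
    e₀ κ₀ n₀ a₀ hG.hb hG.base hU hT
  obtain ⟨π, hg⟩ := hG.grF
  obtain ⟨X₁, hX₁, hX⟩ := hG.XW
  have hX' : ι X₁ = X₀ := hX
  subst hX'
  exact false_of_out h.j h.ty h.C_eq h.tu h.F_eq h.tz h.K_eq ⟨hG.ms, hG.dj⟩ hX₁ (hg.sub _ hG.c2S)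
    (hg.ne _ hG.c2S) hG.c2v (hg.sub _ hG.dS) (hg.ne _ hG.dS) hG.dv (hg.sub _ hG.mS)
    (hg.ne _ hG.mS) hG.mv (hg.sub _ hG.cxS) (hg.ne _ hG.cxS) hG.base hO hdd

/-- **Row B with the tie**: the tie in the big field, the second floor of finite shape. -/
theorem RFl.false_of_tie (hTop : RowTopB (k := k) p v)
    (h : RFl p v₀ v ι x₀ W₀ K₀ al ν C F y u z r t s)
    (hnl : ∀ g ∈ C, ¬ Lim v₀ (clI v₀ W₀) t (u - g)) (hnh : ¬ Hit p v₀ C u t) {Θ : ℕ → Ω₀ → Ω₀}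
    (hΘ : HsY v₀ (clI v₀ W₀) y r Θ) (hfin : FinE v₀ (cadj v₀ (clI v₀ W₀) y) r t Θ u)
    (ht : ∀ (G : AddSubgroup ℝ) (M : ℝ → Ω) (L : ℕ → IntermediateField k Ω)
      (X₀ c₁ c₂ d m cx : Ω) (D : Ω → Ω),
      GLB p v₀ v ι x₀ W₀ K₀ al ν C F y u z r t s G M L X₀ c₁ c₂ d m cx D →
      ∃ (e : k) (κ : ℕ → k) (n : ℕ) (a₀ : Ω), TieF p v (PM v (tH p v₀ ι x₀ F) G M)
        (PM v (tH p v₀ ι x₀ (clI v₀ K₀)) G M) (X₀ / cx ^ p) (ι z / d) (ι (al ^ p) / m ^ p) e κ n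
        a₀) : False :=
  h.false_of_tie' hTop hnl hnh fun G M L X₀ c₁ c₂ d m cx D hG =>
    ⟨hG.exists_shU h hΘ hfin, ht G M L X₀ c₁ c₂ d m cx D hG⟩

end Pool.Agent.TWRB
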