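import Pool.Agent.Lib.TWLG64.Fil

/-!
# Substitution of small arguments in strictly positive polynomials

`R` is a polynomial in two variables over `Ω` whose coefficients have positive value, `L` a pair of
polynomials whose coefficients have value `≥ -η`. If `η` is small, depending on `R` only, the
coefficients of `R(L)` have positive value.
-/

set_option autoImplicit false

namespace Pool.Agent.TWRB

open MvPolynomial
open Pool.Agent.H15JM (RVal)
open Pool.Agent.D2 (Ctx0)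
open Pool.Agent.TWM (Gt)
open Pool.Agent.TWLY
open Pool.Agent.TWLG64

universe u

variable {k Ω : Type u} [Field k] [Field Ω] [Algebra k Ω] {v : RVal Ω}

/-- The trivial weights. -/
theorem wt_triv (β : Ex) : wt (fun _ => (0 : ℝ)) β = 0 := by simp [wt]

theorem fil_triv {d : ℝ} {F : MvPolynomial (Fin 2) Ω} :
    Fil v (fun _ => 0) d F ↔ ∀ β, v.Ge (-d) (coeff β F) := by
  unfold Fil
  simp only [wt_triv, zero_sub]

/-- A uniform bound for finitely many strictly positive coefficients. -/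
theorem exists_margin {R : MvPolynomial (Fin 2) Ω} (hR : ∀ β, Gt v 0 (coeff β R)) :
    ∃ m : ℝ, 0 < m ∧ ∀ β, v.Ge m (coeff β R) := by
  classical
  by_cases hne : R.support.Nonempty
  · obtain ⟨γ, hγ, hmin⟩ := R.support.exists_min_image (fun β => v (coeff β R)) hne
    refine ⟨v (coeff γ R), hR γ (mem_support_iff.1 hγ), fun β hβ => ?_⟩
    exact hmin β (mem_support_iff.2 hβ)
  · rw [Finset.not_nonempty_iff_eq_empty] at hne
    refine ⟨1, one_pos, fun β hβ => ?_⟩
    exact absurd (mem_support_iff.2 hβ) (by rw [hne]; exact Finset.notMem_empty β)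

/-- **Substitution of small arguments.** -/
theorem exists_small (hk : Ctx0 k v) {R : MvPolynomial (Fin 2) Ω}
    (hR : ∀ β, Gt v 0 (coeff β R)) :
    ∃ η : ℝ, 0 < η ∧ ∀ L : Fin 2 → MvPolynomial (Fin 2) Ω,
      (∀ i β, v.Ge (-η) (coeff β (L i))) → ∀ β, Gt v 0 (coeff β (aeval L R)) := by
  classical
  obtain ⟨m, hm, hge⟩ := exists_margin hR
  obtain ⟨D, hD⟩ : ∃ D : ℕ, ∀ γ ∈ R.support, γ 0 + γ 1 ≤ D :=
    ⟨R.support.sup fun γ => γ 0 + γ 1, fun γ hγ =>
      Finset.le_sup (f := fun γ : Ex => γ 0 + γ 1) hγ⟩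
  refine ⟨m / (2 * (D + 1)), by positivity, fun L hL β => ?_⟩
  set η : ℝ := m / (2 * (D + 1)) with hη
  have hη0 : 0 < η := by positivity
  have hL' : ∀ i, Fil v (fun _ => 0) η (L i) := fun i => fil_triv.2 (hL i)
  have e1 : aeval L R = ∑ γ ∈ R.support, MvPolynomial.C (coeff γ R) * (L 0 ^ γ 0 * L 1 ^ γ 1) := by
    rw [aeval_def, eval₂_eq']
    refine Finset.sum_congr rfl fun γ _ => ?_
    rw [Fin.prod_univ_two]
    rfl
  have h1 : Fil v (fun _ => 0) (-(m / 2)) (aeval L R) := by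
    rw [e1]
    refine Fil.sum _ _ fun γ hγ => ?_
    have h2 : Fil v (fun _ => 0) (-m) (MvPolynomial.C (coeff γ R) : MvPolynomial (Fin 2) Ω) :=
      Fil.C (by rw [neg_neg]; exact hge γ)
    have h3 := h2.mul (((hL' 0).pow hk (γ 0)).mul ((hL' 1).pow hk (γ 1)))
    refine h3.mono ?_
    have h4 : ((γ 0 + γ 1 : ℕ) : ℝ) ≤ D := by exact_mod_cast hD γ hγ
    push_cast at h4
    have h5 : ((γ 0 : ℝ) + γ 1) * η ≤ D * η := mul_le_mul_of_nonneg_right h4 hη0.le
    have h6 : (D : ℝ) * η ≤ m / 2 := by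
      rw [hη]
      have h7 : (0 : ℝ) < 2 * ((D : ℝ) + 1) := by positivity
      rw [mul_div_assoc', div_le_div_iff₀ h7 two_pos]
      nlinarith
    linarith
  refine Gt.of_ge (r' := m / 2) ?_ (by linarith)
  have h2 := fil_triv.1 h1 β
  rwa [neg_neg] at h2

/-- **The smallness row.** -/
theorem small_translate (hk : Ctx0 k v) {R : MvPolynomial (Fin 2) Ω}
    (hR : ∀ β, Gt v 0 (coeff β R)) :
    ∃ η : ℝ, 0 < η ∧ ∀ (x y : Ω) (Φ : Polynomial Ω), v.Ge (-η) x → v.Ge (-η) y →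
      (∀ j, v.Ge (-η) (Φ.coeff j)) → ∀ β : Ex, Gt v 0 (coeff β (aeval
        (![X 0 + MvPolynomial.C x, X 1 + MvPolynomial.C y + Polynomial.aeval (X 0) Φ] :
          Fin 2 → MvPolynomial (Fin 2) Ω) R)) := by
  classical
  obtain ⟨η, hη, h⟩ := exists_small hk hR
  refine ⟨η, hη, fun x y Φ hx hy hΦ => h _ ?_⟩
  have hX : ∀ i : Fin 2, Fil v (fun _ => 0) η (X i : MvPolynomial (Fin 2) Ω) := fun i =>
    (Fil.X (w := fun _ => 0) hk i).mono hη.le
  have hC : ∀ a : Ω, v.Ge (-η) a →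
      Fil v (fun _ => 0) η (MvPolynomial.C a : MvPolynomial (Fin 2) Ω) := fun a ha => Fil.C ha
  have hP : Fil v (fun _ => 0) η (Polynomial.aeval (X 0 : MvPolynomial (Fin 2) Ω) Φ) := by
    rw [Polynomial.aeval_eq_sum_range]
    refine Fil.sum _ _ fun j _ => ?_
    rw [Algebra.smul_def, MvPolynomial.algebraMap_eq]
    have h1 := (hC _ (hΦ j)).mul ((Fil.X (v := v) (w := fun _ => 0) hk 0).pow hk j)
    refine h1.mono ?_
    rw [mul_zero, add_zero]
  intro i
  fin_cases i
  · exact fil_triv.1 ((hX 0).add (hC x hx))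
  · exact fil_triv.1 (((hX 1).add (hC y hy)).add hP)

end Pool.Agent.TWRB
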