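import Pool.Agent.Lib.TWRB.SmallW

/-!
# The smallness row for the gauge

`R b`, `b ≤ n`, have strictly positive coefficients. For all late translations `Lp x Ψ` and all
polynomials `g` over `k` of degree `≤ n` in the second variable and of small weight in the first
one, the coefficients of `∑ g_m s^(m 0) R (m 1)` at `Lp x Ψ` are strictly positive.
-/

set_option autoImplicit false

namespace Pool.Agent.TWRB

open MvPolynomial
open Pool.Agent.H15JM (RVal)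
open Pool.Agent.D2 (Ctx0)
open Pool.Agent.TWM (Gt)
open Pool.Agent.TWLY
open Pool.Agent.TWLG64

universe u

variable {k Ω : Type u} [Field k] [Field Ω] [Algebra k Ω] {v : RVal Ω}

/-- Substitution of small arguments in finitely many polynomials. -/
theorem exists_small_fam (hk : Ctx0 k v) {ι : Type*} (S : Finset ι)
    {R : ι → MvPolynomial (Fin 2) Ω} (hR : ∀ b ∈ S, ∀ β, Gt v 0 (coeff β (R b))) :
    ∃ η : ℝ, 0 < η ∧ ∀ L : Fin 2 → MvPolynomial (Fin 2) Ω,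
      (∀ i β, v.Ge (-η) (coeff β (L i))) → ∀ b ∈ S, ∀ β, v.Ge (2 * η) (coeff β (aeval L (R b))) := by
  classical
  have h1 : ∀ b : S, ∃ η : ℝ, 0 < η ∧ ∀ L : Fin 2 → MvPolynomial (Fin 2) Ω,
      (∀ i β, v.Ge (-η) (coeff β (L i))) → ∀ β, v.Ge (2 * η) (coeff β (aeval L (R b))) :=
    fun b => exists_small_margin hk (hR b b.2)
  choose e he0 he using h1
  obtain ⟨η, hη, hle⟩ : ∃ η : ℝ, 0 < η ∧ ∀ b : S, η ≤ e b := by
    by_cases hne : (Finset.univ : Finset S).Nonempty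
    · obtain ⟨c, _, hc⟩ := Finset.exists_min_image Finset.univ e hne
      exact ⟨e c, he0 c, fun b => hc b (Finset.mem_univ b)⟩
    · rw [Finset.not_nonempty_iff_eq_empty] at hne
      refine ⟨1, one_pos, fun b => ?_⟩
      have := Finset.mem_univ b
      rw [hne] at this
      exact absurd this (Finset.notMem_empty b)
  refine ⟨η, hη, fun L hL b hb β => ?_⟩
  have h5 := hle ⟨b, hb⟩
  exact (he ⟨b, hb⟩ L (fun i β => (hL i β).mono (by linarith)) β).mono (by linarith)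

/-- The coefficients of `Lp x Ψ`. -/
theorem ge_Lp (hk : Ctx0 k v) {η : ℝ} (hη : 0 ≤ η) {x : Ω} {Ψ : Polynomial Ω} (hx : v.Ge (-η) x)
    (hΨ : ∀ j, v.Ge (-η) (Ψ.coeff j)) (i : Fin 2) (β : Ex) : v.Ge (-η) (coeff β (Lp x Ψ i)) := by
  have hX : ∀ i : Fin 2, Fil v (fun _ => 0) η (X i : MvPolynomial (Fin 2) Ω) := fun i =>
    (Fil.X (w := fun _ => 0) hk i).mono hη
  have hC : ∀ a : Ω, v.Ge (-η) a →
      Fil v (fun _ => 0) η (MvPolynomial.C a : MvPolynomial (Fin 2) Ω) := fun a ha => Fil.C ha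
  have hP : Fil v (fun _ => 0) η (Polynomial.aeval (X 0 : MvPolynomial (Fin 2) Ω) Ψ) := by
    rw [Polynomial.aeval_eq_sum_range]
    refine Fil.sum _ _ fun j _ => ?_
    rw [Algebra.smul_def, MvPolynomial.algebraMap_eq]
    have h1 := (hC _ (hΨ j)).mul ((Fil.X (v := v) (w := fun _ => 0) hk 0).pow hk j)
    refine h1.mono ?_
    rw [mul_zero, add_zero]
  fin_cases i
  · exact fil_triv.1 ((hX 0).add (hC x hx)) β
  · exact fil_triv.1 ((hX 1).add hP) β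

/-- The coefficients of `(s + x)^n`. -/
theorem fil_pow_translate (hk : Ctx0 k v) {w0 η : ℝ} (hw0 : 0 ≤ w0) {x : Ω} (hx : v.Ge (-w0) x)
    {n : ℕ} (hn : (n : ℝ) * w0 ≤ η) :
    Fil v (fun _ => 0) η ((X 0 + MvPolynomial.C x : MvPolynomial (Fin 2) Ω) ^ n) := by
  have h2 : Fil v ![w0, 0] w0 (X 0 + MvPolynomial.C x : MvPolynomial (Fin 2) Ω) := by
    refine Fil.add ?_ (Fil.C hx)
    have h3 := Fil.X (v := v) (w := ![w0, 0]) hk 0
    exact h3
  have h3 := h2.pow hk n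
  refine fil_triv.2 fun β => ?_
  refine (h3 β).mono ?_
  have h5 : 0 ≤ wt ![w0, 0] β := by
    unfold wt
    have h7 : ((![w0, 0] : Fin 2 → ℝ) 0) = w0 := rfl
    have h6 : ((![w0, 0] : Fin 2 → ℝ) 1) = 0 := rfl
    rw [h7, h6, mul_zero, add_zero]
    positivity
  linarith

/-- **The smallness row for the gauge.** -/
theorem small_gauge (hk : Ctx0 k v) (R : ℕ → MvPolynomial (Fin 2) Ω) (n : ℕ)
    (hR : ∀ b ≤ n, ∀ β, Gt v 0 (coeff β (R b))) :
    ∃ η : ℝ, 0 < η ∧ ∀ (x : Ω) (Ψ : Polynomial Ω) (w0 : ℝ), 0 ≤ w0 → v.Ge (-w0) x →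
      v.Ge (-η) x → (∀ j, v.Ge (-η) (Ψ.coeff j)) → ∀ g : MvPolynomial (Fin 2) k,
      (∀ m ∈ g.support, m 1 ≤ n ∧ (m 0 : ℝ) * w0 ≤ η) →
      ∀ β, Gt v 0 (coeff β (aeval (Lp x Ψ) (∑ m ∈ g.support,
        MvPolynomial.C (algebraMap k Ω (coeff m g)) * X 0 ^ m 0 * R (m 1)))) := by
  classical
  obtain ⟨η, hη, h⟩ := exists_small_fam hk (Finset.range (n + 1)) (R := R)
    fun b hb => hR b (Nat.lt_succ_iff.1 (Finset.mem_range.1 hb))
  refine ⟨η, hη, fun x Ψ w0 hw0 hx0 hx hΨ g hg β => ?_⟩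
  rw [map_sum, coeff_sum]
  refine Gt.sum _ _ fun m hm => ?_
  obtain ⟨hm1, hm0⟩ := hg m hm
  rw [map_mul, map_mul, map_pow, aeval_C, aeval_X, MvPolynomial.algebraMap_eq]
  have h2 : Fil v (fun _ => 0) (-(2 * η)) (aeval (Lp x Ψ) (R (m 1))) :=
    fil_triv.2 fun β => by
      rw [neg_neg]
      exact h _ (ge_Lp hk hη.le hx hΨ) _ (Finset.mem_range.2 (Nat.lt_succ_iff.2 hm1)) β
  have h5 : Fil v (fun _ => 0) 0
      (MvPolynomial.C (algebraMap k Ω (coeff m g)) : MvPolynomial (Fin 2) Ω) :=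
    Fil.C (by rw [neg_zero]; exact hk.ge _)
  have h6 := (h5.mul (fil_pow_translate hk hw0 hx0 hm0)).mul h2
  have h7 := fil_triv.1 h6 β
  exact Gt.of_ge h7 (by linarith)

/-- **The smallness row for the gauge**, for a linear map. -/
theorem small_gauge_lin (hk : Ctx0 k v)
    (Rr : MvPolynomial (Fin 2) k →ₗ[k] MvPolynomial (Fin 2) Ω)
    (hX : ∀ F, Rr (X 0 * F) = X 0 * Rr F) (n : ℕ)
    (hR : ∀ b ≤ n, ∀ β, Gt v 0 (coeff β (Rr (X 1 ^ b)))) :
    ∃ η : ℝ, 0 < η ∧ ∀ (x : Ω) (Ψ : Polynomial Ω) (w0 : ℝ), 0 ≤ w0 → v.Ge (-w0) x →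
      v.Ge (-η) x → (∀ j, v.Ge (-η) (Ψ.coeff j)) → ∀ g : MvPolynomial (Fin 2) k,
      (∀ m ∈ g.support, m 1 ≤ n ∧ (m 0 : ℝ) * w0 ≤ η) →
      ∀ β, Gt v 0 (coeff β (aeval (Lp x Ψ) (Rr g))) := by
  classical
  obtain ⟨η, hη, h⟩ := small_gauge hk (fun b => Rr (X 1 ^ b)) n hR
  refine ⟨η, hη, fun x Ψ w0 hw0 hx0 hx hΨ g hg β => ?_⟩
  have h1 := h x Ψ w0 hw0 hx0 hx hΨ g hg β
  have hXn : ∀ (a : ℕ) (F : MvPolynomial (Fin 2) k), Rr (X 0 ^ a * F) = X 0 ^ a * Rr F := by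
    intro a F
    induction a with
    | zero => rw [pow_zero, one_mul, pow_zero, one_mul]
    | succ a ih => rw [pow_succ', mul_assoc, hX, ih, pow_succ', mul_assoc]
  have e1 : Rr g = ∑ m ∈ g.support,
      MvPolynomial.C (algebraMap k Ω (coeff m g)) * X 0 ^ m 0 * Rr (X 1 ^ m 1) := by
    conv_lhs => rw [g.as_sum]
    rw [map_sum]
    refine Finset.sum_congr rfl fun m _ => ?_
    have e2 : monomial m (coeff m g) = coeff m g • (X 0 ^ m 0 * X 1 ^ m 1 :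
        MvPolynomial (Fin 2) k) := by
      rw [MvPolynomial.smul_eq_C_mul, monomial_eq, Finsupp.prod_fintype _ _ fun i => pow_zero _,
        Fin.prod_univ_two]
    rw [e2, map_smul, hXn, Algebra.smul_def, mul_assoc]
    rfl
  rw [e1]
  exact h1

end Pool.Agent.TWRB
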