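import Pool.Agent.Lib.TWRB.Sub
import Pool.Agent.Lib.TWRB.Small
import Pool.Agent.Lib.TWLG64.E2s

/-!
# Substitution of small arguments, with weights

`R b` are polynomials in two variables over `Ω` whose coefficients have positive value, `g b`
polynomials in the first variable over `k` of small weight, of any degree. For all late
translations `Lp x Ψ`, all coefficients of `∑ b, g b * R b` at `Lp x Ψ` have positive value.
-/

set_option autoImplicit false

namespace Pool.Agent.TWRB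

open MvPolynomial
open Pool.Agent.H15JM (RVal)
open Pool.Agent.D2 (Ctx0)
open Pool.Agent.TWM (Gt)
open Pool.Agent.TWLY
open Pool.Agent.TWLG64

universe u

variable {k Ω : Type u} [Field k] [Field Ω] [Algebra k Ω] {v : RVal Ω}

/-- **Substitution of small arguments**, with a margin. -/
theorem exists_small_margin (hk : Ctx0 k v) {R : MvPolynomial (Fin 2) Ω}
    (hR : ∀ β, Gt v 0 (coeff β R)) :
    ∃ η : ℝ, 0 < η ∧ ∀ L : Fin 2 → MvPolynomial (Fin 2) Ω,
      (∀ i β, v.Ge (-η) (coeff β (L i))) → ∀ β, v.Ge (2 * η) (coeff β (aeval L R)) := by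
  classical
  obtain ⟨m, hm, hge⟩ := exists_margin hR
  obtain ⟨D, hD⟩ : ∃ D : ℕ, ∀ γ ∈ R.support, γ 0 + γ 1 ≤ D :=
    ⟨R.support.sup fun γ => γ 0 + γ 1, fun γ hγ =>
      Finset.le_sup (f := fun γ : Ex => γ 0 + γ 1) hγ⟩
  refine ⟨m / (4 * (D + 1)), by positivity, fun L hL β => ?_⟩
  set η : ℝ := m / (4 * (D + 1)) with hη
  have hη0 : 0 < η := by positivity
  have h8 : (4 * ((D : ℝ) + 1)) * η = m := by
    rw [hη]
    have h7 : (4 * ((D : ℝ) + 1)) ≠ 0 := by positivity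
    field_simp
  have hL' : ∀ i, Fil v (fun _ => 0) η (L i) := fun i => fil_triv.2 (hL i)
  have e1 : aeval L R = ∑ γ ∈ R.support, MvPolynomial.C (coeff γ R) * (L 0 ^ γ 0 * L 1 ^ γ 1) := by
    rw [aeval_def, eval₂_eq']
    refine Finset.sum_congr rfl fun γ _ => ?_
    rw [Fin.prod_univ_two]
    rfl
  have h1 : Fil v (fun _ => 0) (-(2 * η)) (aeval L R) := by
    rw [e1]
    refine Fil.sum _ _ fun γ hγ => ?_
    have h2 : Fil v (fun _ => 0) (-m) (MvPolynomial.C (coeff γ R) : MvPolynomial (Fin 2) Ω) :=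
      Fil.C (by rw [neg_neg]; exact hge γ)
    have h3 := h2.mul (((hL' 0).pow hk (γ 0)).mul ((hL' 1).pow hk (γ 1)))
    refine h3.mono ?_
    have h4 : ((γ 0 + γ 1 : ℕ) : ℝ) ≤ D := by exact_mod_cast hD γ hγ
    push_cast at h4
    have h5 : ((γ 0 : ℝ) + γ 1) * η ≤ D * η := mul_le_mul_of_nonneg_right h4 hη0.le
    have h9 : 0 ≤ (D : ℝ) * η := by positivity
    nlinarith
  have h2 := fil_triv.1 h1 β
  rwa [neg_neg] at h2

/-- The coefficients of `g(s + x)`, `g` of weight `≤ η`. -/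
theorem fil_translate (hk : Ctx0 k v) {w0 η : ℝ} (hw0 : 0 ≤ w0) {x : Ω} (hx : v.Ge (-w0) x)
    (Ψ : Polynomial Ω) {g : MvPolynomial (Fin 2) k}
    (hg : ∀ m ∈ g.support, m 1 = 0 ∧ (m 0 : ℝ) * w0 ≤ η) :
    Fil v (fun _ => 0) η (aeval (Lp x Ψ) (mp Ω g)) := by
  classical
  have e1 : aeval (Lp x Ψ) (mp Ω g) = ∑ γ ∈ g.support,
      MvPolynomial.C (algebraMap k Ω (coeff γ g)) * (X 0 + MvPolynomial.C x) ^ γ 0 := by
    have h1 : aeval (Lp x Ψ) (mp Ω g) = eval₂ (algebraMap k (MvPolynomial (Fin 2) Ω)) (Lp x Ψ) g := by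
      unfold mp
      rw [aeval_def, eval₂_map]
      rfl
    rw [h1, eval₂_eq']
    refine Finset.sum_congr rfl fun γ hγ => ?_
    rw [Fin.prod_univ_two, (hg γ hγ).1, pow_zero, mul_one]
    rfl
  rw [e1]
  refine Fil.sum _ _ fun γ hγ => ?_
  have h2 : Fil v ![w0, 0] w0 (X 0 + MvPolynomial.C x : MvPolynomial (Fin 2) Ω) := by
    refine Fil.add ?_ (Fil.C hx)
    have h3 := Fil.X (v := v) (w := ![w0, 0]) hk 0
    exact h3
  have h3 := h2.pow hk (γ 0)
  have h4 : Fil v (fun _ => 0) η ((X 0 + MvPolynomial.C x : MvPolynomial (Fin 2) Ω) ^ γ 0) := by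
    refine fil_triv.2 fun β => ?_
    refine (h3 β).mono ?_
    have h5 : 0 ≤ wt ![w0, 0] β := by
      unfold wt
      have : ((![w0, 0] : Fin 2 → ℝ) 0) = w0 := rfl
      have h6 : ((![w0, 0] : Fin 2 → ℝ) 1) = 0 := rfl
      rw [this, h6, mul_zero, add_zero]
      positivity
    have h6 := (hg γ hγ).2
    linarith
  have h5 : Fil v (fun _ => 0) 0
      (MvPolynomial.C (algebraMap k Ω (coeff γ g)) : MvPolynomial (Fin 2) Ω) :=
    Fil.C (by rw [neg_zero]; exact hk.ge _)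
  refine (h5.mul h4).mono ?_
  rw [zero_add]

/-- **The smallness row, with weights.** -/
theorem small_translate_fam (hk : Ctx0 k v) {ι : Type*} (S : Finset ι)
    {R : ι → MvPolynomial (Fin 2) Ω} (hR : ∀ b ∈ S, ∀ β, Gt v 0 (coeff β (R b))) :
    ∃ η : ℝ, 0 < η ∧ ∀ (w0 : ℝ) (x : Ω) (Ψ : Polynomial Ω), 0 ≤ w0 → v.Ge (-w0) x →
      v.Ge (-η) x → (∀ j, v.Ge (-η) (Ψ.coeff j)) →
      ∀ g : ι → MvPolynomial (Fin 2) k,
        (∀ b ∈ S, ∀ m ∈ (g b).support, m 1 = 0 ∧ (m 0 : ℝ) * w0 ≤ η) →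
        ∀ β : Ex, Gt v 0 (coeff β (aeval (Lp x Ψ) (∑ b ∈ S, mp Ω (g b) * R b))) := by
  classical
  have h1 : ∀ b : S, ∃ η : ℝ, 0 < η ∧ ∀ L : Fin 2 → MvPolynomial (Fin 2) Ω,
      (∀ i β, v.Ge (-η) (coeff β (L i))) → ∀ β, v.Ge (2 * η) (coeff β (aeval L (R b))) :=
    fun b => exists_small_margin hk (hR b b.2)
  choose e he0 he using h1
  obtain ⟨η, hη, hle⟩ : ∃ η : ℝ, 0 < η ∧ ∀ b : S, η ≤ e b := by
    by_cases hne : (Finset.univ : Finset S).Nonempty
    · obtain ⟨c, _, hc⟩ := Finset.exists_min_image Finset.univ e hne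
      exact ⟨e c, he0 c, fun b => hc b (Finset.mem_univ b)⟩
    · rw [Finset.not_nonempty_iff_eq_empty] at hne
      refine ⟨1, one_pos, fun b => ?_⟩
      have := Finset.mem_univ b
      rw [hne] at this
      exact absurd this (Finset.notMem_empty b)
  refine ⟨η, hη, fun w0 x Ψ hw0 hx0 hx hΨ g hg β => ?_⟩
  have hL : ∀ i β, v.Ge (-η) (coeff β (Lp x Ψ i)) := by
    have hX : ∀ i : Fin 2, Fil v (fun _ => 0) η (X i : MvPolynomial (Fin 2) Ω) := fun i =>
      (Fil.X (w := fun _ => 0) hk i).mono hη.le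
    have hC : ∀ a : Ω, v.Ge (-η) a →
        Fil v (fun _ => 0) η (MvPolynomial.C a : MvPolynomial (Fin 2) Ω) := fun a ha => Fil.C ha
    have hP : Fil v (fun _ => 0) η (Polynomial.aeval (X 0 : MvPolynomial (Fin 2) Ω) Ψ) := by
      rw [Polynomial.aeval_eq_sum_range]
      refine Fil.sum _ _ fun j _ => ?_
      rw [Algebra.smul_def, MvPolynomial.algebraMap_eq]
      have h1 := (hC _ (hΨ j)).mul ((Fil.X (v := v) (w := fun _ => 0) hk 0).pow hk j)
      refine h1.mono ?_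
      rw [mul_zero, add_zero]
    intro i
    fin_cases i
    · exact fil_triv.1 ((hX 0).add (hC x hx))
    · exact fil_triv.1 ((hX 1).add hP)
  rw [map_sum, coeff_sum]
  refine Gt.sum _ _ fun b hb => ?_
  rw [map_mul]
  have h2 : Fil v (fun _ => 0) (-(2 * e ⟨b, hb⟩)) (aeval (Lp x Ψ) (R b)) :=
    fil_triv.2 fun β => by
      rw [neg_neg]
      exact he ⟨b, hb⟩ _ (fun i β => (hL i β).mono (by have := hle ⟨b, hb⟩; linarith)) β
  have h3 := (fil_translate hk hw0 hx0 Ψ (hg b hb)).mul h2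
  have h4 := fil_triv.1 h3 β
  refine Gt.of_ge h4 ?_
  have h5 := hle ⟨b, hb⟩
  have h6 := he0 ⟨b, hb⟩
  linarith

end Pool.Agent.TWRB
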