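import Pool.Agent.Lib.TWRB.Vis
import Pool.Agent.Lib.TWRB.Core

/-!
# RowB, R7: the weights of a visible position
-/

set_option autoImplicit false

namespace Pool.Agent.TWRB

open Pool.Agent.H15JM (RVal)
open Pool.Agent.TWM

universe u

variable {k Ω : Type u} [Field k] [Field Ω] [Algebra k Ω]

/-- **R7.** -/
theorem rowVis [IsAlgClosed k] [IsAlgClosed Ω] (p : ℕ) (v : RVal Ω) : RowVis (k := k) p v := by
  intro L W B F K w x z a R h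
  obtain ⟨J₀, h1⟩ := exists_vis h.c0 h.sph h.full h.mono h.dense h.tw h.B_eq h.tu h.npar
    h.frm.iso h.frm.fix h.frm.Tw h.frm.Tu h.frm.U0 h.frm.Ul h.frm.inB
  refine ⟨J₀, fun J hJ τ ρ a b Za hm r₀ hs f r₁ _ hr hsh => ?_⟩
  have h2 : 0 ≤ r₀ ∧ (0 < r₀ → a ≠ 0 ∧ v a = -r₀) ∧ v.Ge (-r₀) a ∧
      ¬ (v.Ge 0 a ∧ ∀ j, v.Ge 0 ((Psi τ a b R.U).coeff j)) := by
    rcases hs with ⟨h2, h3, h4⟩ | ⟨h2, h3, -, j, h5⟩
    · refine ⟨h2.le, fun _ => ⟨h3, h4⟩, fun _ => h4.ge, fun h5 => ?_⟩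
      have := h5.1 h3
      rw [h4] at this
      linarith
    · refine ⟨h2.ge, fun h6 => absurd h2 h6.ne', ?_, fun h6 => h5 (h6.2 j)⟩
      rw [h2, neg_zero]
      exact h3
  exact h1 J hJ τ hm.mW.iso hm.mW.fix a b hm.aW hm.bC hm.tw r₀ h2.1 h2.2.1 h2.2.2.1 h2.2.2.2 f r₁
    hr hsh

end Pool.Agent.TWRB
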