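import Pool.Agent.Lib.TWRB.T5E
import Pool.Agent.Lib.TWRB.VisR
import Pool.Agent.Lib.TWRB.R7z
import Pool.Agent.Lib.TWRB.R11m
import Pool.Agent.Lib.TWRB.R12

/-!
# RowB: the core

* `rowOneN`, `rowOneG`: the rows for one motion;
* `rowCore`: `RowCoreB`, without hypotheses.
-/

set_option autoImplicit false

open MvPolynomial

namespace Pool.Agent.TWRB

open Pool.Agent.H15JM (RVal)

universe u

variable {k Ω : Type u} [Field k] [Field Ω] [Algebra k Ω] (p : ℕ) (v : RVal Ω)

section one

variable [Fact p.Prime] [CharP k p] [CharP Ω p] [IsAlgClosed k] [IsAlgClosed Ω]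

/-- **One motion: the polynomials of the noises.** -/
theorem rowOneN : RowOneN (k := k) p v := by
  intro L W B F K w x z a R h hE d N n hd hN hn
  have hV : RowVis (k := k) p v := rowVis p v
  have h11 : RowR11 (k := k) p v := rowR11
  by_cases he : R.e = 0
  · exact oneN0 hV h11 h he hE hd hN hn
  · exact oneN_ne hV h11 h he hE hd hN hn

/-- **One motion: the polynomials of the class functionals.** -/
theorem rowOneG : RowOneG (k := k) p v := by
  intro L W B F K w x z a R h hE S₁ E₁ N n hd hdx hN hn
  have hV : RowVis (k := k) p v := rowVis p v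
  have h11 : RowR11 (k := k) p v := rowR11
  by_cases he : R.e = 0
  · exact oneG0 hV h11 h he hE hd hdx hN hn
  · exact oneG_ne hV h11 h he hE hd hdx hN hn

omit [CharP k p] [CharP Ω p] [IsAlgClosed k] [IsAlgClosed Ω] in
theorem rowFun : RowFun (k := k) p v := fun _ _ _ _ _ _ _ _ _ h y hy =>
  rowR12B h y hy

/-- **The core.** -/
theorem rowCore : RowCoreB (k := k) p v := by
  have : Infinite k := IsAlgClosed.instInfinite
  exact rowCoreB rowR4 rowR4' (rowOneN p v) (rowOneG p v) rowR7z (rowR11m p v) (rowFun p v)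

end one

end Pool.Agent.TWRB
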