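import Pool.Agent.Lib.TWRB.T5a
import Pool.Agent.Lib.TWRB.RowR11
import Pool.Agent.Lib.TWEC.Tw3
import Pool.Agent.Lib.TWEC.TwL

/-!
# RowB, T5: the weights of the error term

* `er_eq`: `Er = e₁ D y + e₂ (D ψ)(s)`;
* `er_fil`: its weights are `< w₁`, strictly.
-/

set_option autoImplicit false

open MvPolynomial

namespace Pool.Agent.TWRB

open Pool.Agent.H15JM (RVal)
open Pool.Agent.LU1 (VPos)
open Pool.Agent.D2 (Ctx0)
open Pool.Agent.TWM
open Pool.Agent.TWS (IsoE SphC)
open Pool.Agent.TWLY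
open Pool.Agent.TWEC
open Pool.Agent.TWCY
open Pool.Agent.TWCU
open Pool.Agent.TWLG64 (LL mp FilO NRelO DnsL Siz plane_one)
open Pool.Agent.TWLG76 (Sh Tr exists_truncP)

universe u

variable {k Ω : Type u} [Field k] [Field Ω] [Algebra k Ω] {v : RVal Ω}

section

variable {S₀ F : IntermediateField k Ω}

/-- The functional at a polynomial in `s`. -/
theorem Dc_polyS (D : Ω →ₗ[S₀] Ω) (q : Polynomial Ω) :
    Dc D (Polynomial.aeval (X 0 : MvPolynomial (Fin 2) Ω) q) =
      Polynomial.aeval (X 0) (pm D q) := by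
  ext g
  rw [coeff_Dc' (map_zero D), coeff_polyS, coeff_polyS, pm_coeff (map_zero D)]
  split_ifs
  exacts [rfl, map_zero D]

theorem dt_polyS (D : Ω →ₗ[S₀] Ω) (t q : Polynomial Ω) :
    dt D t (Polynomial.aeval (X 0 : MvPolynomial (Fin 2) Ω) q) =
      Polynomial.aeval (X 0) (pm D q) := by
  rw [dt, shU_aeval, Dc_polyS, shU_aeval]

theorem qf_polyS {p : ℕ} {q : Polynomial Ω} (hq : ∀ j, ¬ p ∣ j → q.coeff j = 0) :
    QF (fun m => ∀ i, p ∣ m i) (Polynomial.aeval (X 0 : MvPolynomial (Fin 2) Ω) q) := by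
  intro g hg
  rw [coeff_polyS] at hg
  split_ifs at hg with h
  · intro i
    fin_cases i
    · by_contra h1
      exact hg (hq _ h1)
    · change p ∣ g 1
      rw [h]
      exact dvd_zero p
  · exact absurd rfl hg

variable {p : ℕ} [Fact p.Prime] [CharP k p] {D : Ω →ₗ[S₀] Ω}

/-- A polynomial in `s^p`, at `s + y`. -/
theorem pm_comp (hD : DFn p v F S₀ D) {y : Ω} (hy : y ∈ F) {q : Polynomial Ω}
    (hq : ∀ j, ¬ p ∣ j → q.coeff j = 0) :
    (Polynomial.aeval (X 0 : MvPolynomial (Fin 2) Ω))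
      (pm D (q.comp (Polynomial.X + Polynomial.C y))) =
      aeval (Lp y (psi (AlgHom.id k Ω) y 0 q)) (Dc D (Polynomial.aeval (X 0) q)) := by
  have : CharP Ω p := charP_of_injective_algebraMap (algebraMap k Ω).injective p
  have h := dt_aeval (k := k) (admE_p (S₀ := S₀) (C₀ := F) p hD.pow) D hy (zero_mem F)
    (AlgHom.id k Ω) q (qf_polyS (p := p) hq)
  rw [aeval_Lp_aeval, dt_polyS] at h
  rw [h, dt_polyS, Dc_polyS]

theorem aeval_Lp_congr (y : Ω) (Ψ Ψ' q : Polynomial Ω) :
    aeval (Lp y Ψ) (Polynomial.aeval (X 0 : MvPolynomial (Fin 2) Ω) q) =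
      aeval (Lp y Ψ') (Polynomial.aeval (X 0 : MvPolynomial (Fin 2) Ω) q) := by
  rw [aeval_Lp_aeval, aeval_Lp_aeval]

/-- **The error term.** -/
theorem er_eq (hD : DFn p v F S₀ D) {y b : Ω} (hy : y ∈ F) {U : Polynomial Ω} {e₁ e₂ : k}
    (hU : e₂ ≠ 0 → ∀ j, ¬ p ∣ j → U.coeff j = 0) {τ : Ω →ₐ[k] Ω} :
    Er D τ y b U e₁ e₂ = C (algebraMap k Ω e₁ * D y) +
      C (algebraMap k Ω e₂) * Polynomial.aeval (X 0) (pm D (psi τ y b U)) := by
  by_cases h0 : e₂ = 0
  · rw [Er, h0, map_zero, C_0, zero_mul, zero_mul, zero_mul, add_zero, add_zero, add_zero]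
  have h1 := hU h0
  have h2 := pm_comp hD hy h1
  have h3 : aeval (Lp y (psi τ y b U)) (Dc D (Polynomial.aeval (X 0) U)) =
      Polynomial.aeval (X 0) (pm D (U.comp (Polynomial.X + Polynomial.C y))) := by
    rw [h2, Dc_polyS]
    exact aeval_Lp_congr _ _ _ _
  have h4 : pm D (psi τ y b U) = Polynomial.C (D b) + pm D (U.map (τ : Ω →+* Ω)) -
      pm D (U.comp (Polynomial.X + Polynomial.C y)) := by
    ext j
    rw [pm_coeff (map_zero D), psi, Polynomial.coeff_sub, Polynomial.coeff_add,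
      Polynomial.coeff_sub, Polynomial.coeff_add, pm_coeff (map_zero D), pm_coeff (map_zero D),
      map_sub, map_add, Polynomial.coeff_C, Polynomial.coeff_C]
    split_ifs
    · rfl
    · rw [map_zero]
  have h5 : Polynomial.aeval (X 0 : MvPolynomial (Fin 2) Ω)
      (Polynomial.C (D b) + pm D (U.map (τ : Ω →+* Ω)) -
        pm D (U.comp (Polynomial.X + Polynomial.C y))) =
      C (D b) + Polynomial.aeval (X 0 : MvPolynomial (Fin 2) Ω) (pm D (U.map (τ : Ω →+* Ω))) -
        Polynomial.aeval (X 0 : MvPolynomial (Fin 2) Ω)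
          (pm D (U.comp (Polynomial.X + Polynomial.C y))) := by
    rw [map_sub, map_add, Polynomial.aeval_C, algebraMap_eq]
  rw [Er, h3, h4, Dc_polyS, h5, C_add, C_mul, C_mul]
  ring

/-- The coefficients of `D ψ`. -/
theorem psi_Sh (hD : DFn p v F S₀ D) {y : Ω} (hy : y ∈ F) {f : Polynomial k}
    (hf : ∀ j, ¬ p ∣ j → j ≠ 1 → f.coeff j = 0) (Ψ : Polynomial Ω) (j : ℕ) :
    D (Ψ.coeff j) = D ((Sh y f Ψ).coeff j) +
      if j = 0 then algebraMap k Ω (f.coeff 1) * D y else 0 := by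
  classical
  have hk0 : ∀ c : k, D (algebraMap k Ω c) = 0 := fun c => by
    have h := map_kmul D c 1
    rw [mul_one, hD.one, mul_zero] at h
    exact h
  set fb := f.map (algebraMap k Ω) with hfb
  set g := fb - Polynomial.C (algebraMap k Ω (f.coeff 1)) * Polynomial.X with hg
  have hp1 : ¬ p ∣ 1 := fun h => (Fact.out : p.Prime).one_lt.ne' (Nat.dvd_one.1 h)
  have hg1 : ∀ j, ¬ p ∣ j → g.coeff j = 0 := fun j hj => by
    rw [hg, Polynomial.coeff_sub, Polynomial.coeff_C_mul, Polynomial.coeff_X, hfb,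
      Polynomial.coeff_map]
    split_ifs with h
    · rw [← h, mul_one, sub_self]
    · rw [mul_zero, sub_zero, hf j hj (fun h1 => h h1.symm), map_zero]
  have hg2 : pm D g = 0 := by
    ext j
    rw [pm_coeff (map_zero D), Polynomial.coeff_zero, hg, Polynomial.coeff_sub,
      Polynomial.coeff_C_mul, Polynomial.coeff_X, hfb, Polynomial.coeff_map, map_sub, map_kmul,
      hk0]
    split_ifs
    · rw [hD.one, mul_zero, sub_zero]
    · rw [map_zero, mul_zero, sub_zero]
  have hg3 : ∀ j, D ((g.comp (Polynomial.X + Polynomial.C y)).coeff j) = 0 := fun j => by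
    have h := pm_comp hD hy hg1
    rw [Dc_polyS, hg2, map_zero, map_zero] at h
    have h1 : coeff (Finsupp.single 0 j) (Polynomial.aeval (X 0 : MvPolynomial (Fin 2) Ω)
        (pm D (g.comp (Polynomial.X + Polynomial.C y)))) = 0 := by
      rw [h, coeff_zero]
    rw [coeff_polyS, pm_coeff (map_zero D)] at h1
    simpa using h1
  have e1 : Ψ = Sh y f Ψ - fb + (g.comp (Polynomial.X + Polynomial.C y) +
      Polynomial.C (algebraMap k Ω (f.coeff 1)) * (Polynomial.X + Polynomial.C y)) := by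
    have e2 : g.comp (Polynomial.X + Polynomial.C y) +
        Polynomial.C (algebraMap k Ω (f.coeff 1)) * (Polynomial.X + Polynomial.C y) =
        fb.comp (Polynomial.X + Polynomial.C y) := by
      rw [hg, Polynomial.sub_comp, Polynomial.mul_comp, Polynomial.C_comp, Polynomial.X_comp]
      ring
    rw [e2, Sh, ← hfb]
    ring
  have e3 : Ψ.coeff j = (Sh y f Ψ).coeff j - fb.coeff j +
      ((g.comp (Polynomial.X + Polynomial.C y)).coeff j +
      algebraMap k Ω (f.coeff 1) * ((if 1 = j then 1 else 0) + if j = 0 then y else 0)) := by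
    conv_lhs => rw [e1]
    rw [Polynomial.coeff_add, Polynomial.coeff_sub, Polynomial.coeff_add, Polynomial.coeff_C_mul,
      Polynomial.coeff_add, Polynomial.coeff_X, Polynomial.coeff_C]
  rw [e3, map_add, map_sub, map_add, hg3, map_kmul, map_add, hfb, Polynomial.coeff_map, hk0,
    sub_zero, zero_add]
  have h5 : D (if 1 = j then (1 : Ω) else 0) = 0 := by
    split_ifs
    exacts [hD.one, map_zero D]
  rw [h5, zero_add]
  split_ifs
  · rfl
  · rw [map_zero, mul_zero]

omit [Fact p.Prime] [CharP k p] in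
/-- The threshold, strictly below. -/
theorem str1 (hD : DFn p v F S₀ D) {w₁ t : ℝ} (hw1 : 0 < w₁) {z : Ω}
    (hz : v.Ge (min 0 (t - w₁)) z) :
    ∃ c' : ℝ, 0 ≤ c' ∧ c' < w₁ ∧ v.Ge (min 0 (t - c')) (D z) := by
  by_cases h0 : D z = 0
  · refine ⟨0, le_rfl, hw1, ?_⟩
    rw [h0]
    exact RVal.Ge.zero
  have hz0 : z ≠ 0 := fun h => h0 (by rw [h, map_zero])
  have h1 := hD.str z hz0 h0
  have h2 := hz hz0
  rcases le_or_gt 0 (t - w₁) with h3 | h3
  · refine ⟨0, le_rfl, hw1, fun _ => ?_⟩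
    rw [min_eq_left h3] at h2
    exact (min_le_left _ _).trans (h2.trans h1.le)
  · rw [min_eq_right h3.le] at h2
    refine ⟨max 0 (t - v (D z)), le_max_left _ _, max_lt hw1 (by linarith), fun _ => ?_⟩
    refine (min_le_right _ _).trans ?_
    have := le_max_right 0 (t - v (D z))
    linarith

omit [Fact p.Prime] [CharP k p] in
theorem str2 (hD : DFn p v F S₀ D) {w₀ w₁ : ℝ} (hw1 : 0 < w₁) {q : Polynomial Ω}
    (hq : ∀ j : ℕ, v.Ge (min 0 (-(w₁ - j * w₀))) (q.coeff j)) :
    ∃ c' : ℝ, 0 ≤ c' ∧ c' < w₁ ∧ ∀ j : ℕ, v.Ge (min 0 (j * w₀ - c')) (D (q.coeff j)) := by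
  classical
  have key : ∀ s : Finset ℕ, ∃ c' : ℝ, 0 ≤ c' ∧ c' < w₁ ∧
      ∀ j ∈ s, v.Ge (min 0 (j * w₀ - c')) (D (q.coeff j)) := by
    intro s
    induction s using Finset.induction_on with
    | empty => exact ⟨0, le_rfl, hw1, fun j hj => absurd hj (Finset.notMem_empty j)⟩
    | insert a s ha ih =>
      obtain ⟨c₁, h1, h2, h3⟩ := ih
      obtain ⟨c₂, h4, h5, h6⟩ := str1 hD (t := a * w₀) hw1 (z := q.coeff a)
        ((hq a).mono (min_le_min le_rfl (by linarith)))
      refine ⟨max c₁ c₂, h1.trans (le_max_left _ _), max_lt h2 h5, fun j hj => ?_⟩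
      rcases Finset.mem_insert.1 hj with h | h
      · rw [h]
        exact h6.mono (min_le_min le_rfl (by linarith [le_max_right c₁ c₂]))
      · exact (h3 j h).mono (min_le_min le_rfl (by linarith [le_max_left c₁ c₂]))
  obtain ⟨c', h1, h2, h3⟩ := key q.support
  refine ⟨c', h1, h2, fun j => ?_⟩
  by_cases h : j ∈ q.support
  · exact h3 j h
  · rw [Polynomial.notMem_support_iff.1 h, map_zero]
    exact RVal.Ge.zero

set_option linter.unusedVariables false in
/-- **The weights of the error term.** -/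
theorem er_fil (hk : Ctx0 k v) (hD : DFn p v F S₀ D) {y b : Ω} (hy : y ∈ F) (hb : b ∈ F)
    {U : Polynomial Ω} {e₁ e₂ : k} (hU : e₂ ≠ 0 → ∀ j, ¬ p ∣ j → U.coeff j = 0)
    {τ : Ω →ₐ[k] Ω} {f : Polynomial k} {w₀ w₁ : ℝ} (hw0 : 0 ≤ w₀) (hw01 : w₀ ≤ w₁) (hw1 : 0 < w₁)
    (hyw : 0 < w₀ → y ≠ 0 ∧ v y = -w₀) (hy0 : w₀ = 0 → v.Ge 0 y) (hf0 : f.coeff 0 = 0)
    (hsh : ∀ j : ℕ, v.Ge (min 0 (-(w₁ - j * w₀))) ((Sh y f (psi τ y b U)).coeff j))
    (hpar : (∀ j, ¬ p ∣ j → (psi τ y b U).coeff j = 0) →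
      (∀ j, ¬ p ∣ j → j ≠ 1 → f.coeff j = 0) ∧ ∀ j, ¬ p ∣ j → (Sh y f (psi τ y b U)).coeff j = 0) :
    ∃ c' : ℝ, 0 ≤ c' ∧ c' < w₁ ∧ ∀ e, c' ≤ e → ∀ s : Polynomial Ω,
      FilO v ![w₀, w₁] 0 e (shU s (Er D τ y b U e₁ e₂)) := by
  classical
  have : CharP Ω p := charP_of_injective_algebraMap (algebraMap k Ω).injective p
  -- the constant term
  have hyG : v.Ge (min 0 (0 - w₁)) y := by
    rcases hw0.eq_or_lt with h0 | h0
    · exact (hy0 h0.symm).mono (min_le_left _ _)
    · intro _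
      rw [(hyw h0).2]
      exact (min_le_right _ _).trans (by linarith)
  obtain ⟨c₁, h1, h2, h3⟩ := str1 hD hw1 hyG
  obtain ⟨c₂, h4, h5, h6⟩ := str2 hD hw1 hsh
  -- the coefficients of `D ψ`
  have h7 : e₂ ≠ 0 → ∀ j : ℕ, v.Ge (min 0 (j * w₀ - max c₁ c₂)) (D ((psi τ y b U).coeff j)) := by
    intro h0 j
    have hU' := hU h0
    have hψ : ∀ j, ¬ p ∣ j → (psi τ y b U).coeff j = 0 := by
      intro j hj
      have hE : U.comp (Polynomial.X + Polynomial.C y) =
          Polynomial.expand Ω p ((Polynomial.contract p U).comp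
            (Polynomial.X + Polynomial.C (y ^ p))) := by
        have hUe : Polynomial.expand Ω p (Polynomial.contract p U) = U := by
          ext i
          rw [Polynomial.coeff_expand (Fact.out : p.Prime).pos]
          split_ifs with hi
          · rw [Polynomial.coeff_contract (Fact.out : p.Prime).ne_zero,
              Nat.div_mul_cancel hi]
          · exact (hU' i hi).symm
        conv_lhs => rw [← hUe]
        rw [Polynomial.expand_eq_comp_X_pow, Polynomial.comp_assoc, Polynomial.X_pow_comp,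
          Polynomial.expand_eq_comp_X_pow, Polynomial.comp_assoc, Polynomial.add_comp,
          Polynomial.X_comp, Polynomial.C_comp, Polynomial.C_pow, add_pow_char]
      have h8 : (U.comp (Polynomial.X + Polynomial.C y)).coeff j = 0 := by
        rw [hE, Polynomial.coeff_expand (Fact.out : p.Prime).pos, if_neg hj]
      rw [psi, Polynomial.coeff_sub, Polynomial.coeff_add, h8, Polynomial.coeff_map, hU' j hj,
        map_zero, Polynomial.coeff_C, if_neg (fun h => hj (by rw [h]; exact dvd_zero p)), add_zero,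
        sub_zero]
    have hf := (hpar hψ).1
    rw [psi_Sh hD hy hf]
    refine ((h6 j).mono (min_le_min le_rfl (by linarith [le_max_right c₁ c₂]))).add ?_
    split_ifs with hj
    · have h9 := (hk.ge (f.coeff 1)).mul h3
      rw [zero_add] at h9
      refine h9.mono (min_le_min le_rfl ?_)
      rw [hj, Nat.cast_zero, zero_mul]
      linarith [le_max_left c₁ c₂]
    · exact RVal.Ge.zero
  refine ⟨max c₁ c₂, h1.trans (le_max_left _ _), max_lt h2 h5, fun e he s β => ?_⟩
  rw [er_eq hD hy hU, map_add, TWEC.shU_C, map_mul (shU s), TWEC.shU_C, shU_aeval, coeff_add,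
    coeff_C_mul, coeff_polyS, pm_coeff (map_zero D), neg_zero]
  have hwt : wt ![w₀, w₁] β = β 0 * w₀ + β 1 * w₁ := by
    unfold wt
    rfl
  refine RVal.Ge.add ?_ ?_
  · rw [coeff_C]
    split_ifs with hβ
    · have h9 := (hk.ge e₁).mul h3
      rw [zero_add] at h9
      refine h9.mono (min_le_min le_rfl ?_)
      rw [hwt, ← hβ]
      simp only [Finsupp.coe_zero, Pi.zero_apply, Nat.cast_zero, zero_mul]
      linarith [le_max_left c₁ c₂]
    · exact RVal.Ge.zero
  · by_cases h0 : e₂ = 0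
    · rw [h0, map_zero, zero_mul]
      exact RVal.Ge.zero
    · split_ifs with hβ
      · have h9 := (hk.ge e₂).mul (h7 h0 (β 0))
        rw [zero_add] at h9
        refine h9.mono (min_le_min le_rfl ?_)
        rw [hwt, hβ, Nat.cast_zero, zero_mul, add_zero]
        linarith
      · rw [mul_zero]
        exact RVal.Ge.zero

end

end Pool.Agent.TWRB
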