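import Pool.Agent.Lib.TWRB.TwistB
import Pool.Agent.Lib.TWEC.Tw

/-!
# RowB, `e ≠ 0`: norms and weights of the twisted functionals in the letters

`dt d (tw U) F`, `(expand p F)` has exponents divisible by `p`, `C₀ ^ p ⊆ S₀`.
* `dt_ge_tw`, `dt_gt_tw`: norm `≤ 0`; `dt_fil_tw`, `dt_min_tw`, `dt_filO_tw`: weights `p w`;
* `dt_filOw`: the form with `FilO`.
-/

set_option autoImplicit false

open MvPolynomial

namespace Pool.Agent.TWRB

open Pool.Agent.H15JM (RVal)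
open Pool.Agent.D2 (Ctx0)
open Pool.Agent.TWM
open Pool.Agent.TWLY
open Pool.Agent.TWCY
open Pool.Agent.TWCU
open Pool.Agent.TWEC
open Pool.Agent.TWLG64

universe u

variable {k Ω : Type u} [Field k] [Field Ω] [Algebra k Ω] {v : RVal Ω}
  {S₀ C₀ : IntermediateField k Ω} {w : Fin 2 → ℝ} {Q : Ex → Prop}

/-- The form with `FilO`. -/
theorem dt_filOw (d : Ω →ₗ[S₀] Ω) (hk : Ctx0 k v) (hA : AdmE S₀ C₀ Q)
    (hd : ∀ (y : Ω) (c : ℝ), v.Ge c y → v.Ge c (d y)) {t : Polynomial Ω}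
    (ht : ∀ j, Lim v C₀ 0 (t.coeff j)) (htw : ∀ j : ℕ, j * w 0 < w 1 ∨ t.coeff j ∈ C₀) {ε e : ℝ}
    {F : MvPolynomial (Fin 2) Ω} (hQ : QF Q F) (hF : FilO v w ε e F) :
    FilO v w ε e (dt d t F) := fun g =>
  dt_min d hk hA hd ht htw hQ hF g

variable (p : ℕ) [hp : Fact p.Prime] [CharP Ω p]

omit hp [CharP Ω p] in
theorem qf_expand (F : MvPolynomial (Fin 2) Ω) :
    QF (fun m : Ex => ∀ i, p ∣ m i) (expand p F) := fun g hg => by
  by_contra h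
  exact hg (coeff_expand_not F h)

omit [CharP Ω p] in
theorem fil_expand {e : ℝ} (F : MvPolynomial (Fin 2) Ω) :
    Fil v w e (expand p F) ↔ Fil v (fun i => (p : ℝ) * w i) e F := by
  constructor
  · intro h β
    rw [wt_twist, ← coeff_expand_smul p hp.out.ne_zero]
    exact h _
  · intro h β
    by_cases h1 : ∀ i, p ∣ β i
    · have h2 := h (dvx p β)
      rw [wt_twist, ← coeff_expand_smul p hp.out.ne_zero, smul_dvx h1] at h2
      exact h2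
    · rw [coeff_expand_not F h1]
      exact RVal.Ge.zero

variable (d : Ω →ₗ[S₀] Ω)

/-- **Norm `≤ 0`.** -/
theorem dt_ge_tw (hk : Ctx0 k v) (hC : ∀ c ∈ C₀, c ^ p ∈ S₀)
    (hd : ∀ (y : Ω) (c : ℝ), v.Ge c y → v.Ge c (d y)) {t : Polynomial Ω}
    (ht : ∀ j, Lim v C₀ 0 (t.coeff j)) {r : ℝ} {F : MvPolynomial (Fin 2) Ω}
    (hF : ∀ g, v.Ge r (coeff g F)) (g : Ex) : v.Ge r (coeff g (dt d (tw p t) F)) := by
  refine (ge_expand hp.out.ne_zero _).1 ?_ g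
  rw [← dt_expand p (map_zero d)]
  exact dt_ge d hk (admE_p p hC) hd ht (qf_expand p F) ((ge_expand hp.out.ne_zero _).2 hF)

theorem dt_gt_tw (hk : Ctx0 k v) (hC : ∀ c ∈ C₀, c ^ p ∈ S₀)
    (hd : ∀ (y : Ω) (c : ℝ), v.Ge c y → v.Ge c (d y)) {t : Polynomial Ω}
    (ht : ∀ j, Lim v C₀ 0 (t.coeff j)) {r : ℝ} {F : MvPolynomial (Fin 2) Ω}
    (hF : ∀ g, Gt v r (coeff g F)) (g : Ex) : Gt v r (coeff g (dt d (tw p t) F)) := by
  refine (gt_expand hp.out.ne_zero _).1 ?_ g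
  rw [← dt_expand p (map_zero d)]
  exact dt_gt d hk (admE_p p hC) hd ht (qf_expand p F) ((gt_expand hp.out.ne_zero _).2 hF)

/-- **Weights.** -/
theorem dt_fil_tw (hk : Ctx0 k v) (hC : ∀ c ∈ C₀, c ^ p ∈ S₀)
    (hd : ∀ (y : Ω) (c : ℝ), v.Ge c y → v.Ge c (d y)) {t : Polynomial Ω}
    (ht : ∀ j, Lim v C₀ 0 (t.coeff j)) (htw : ∀ j : ℕ, j * w 0 < w 1 ∨ t.coeff j ∈ C₀) {e : ℝ}
    {F : MvPolynomial (Fin 2) Ω} (hF : Fil v (fun i => (p : ℝ) * w i) e F) :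
    Fil v (fun i => (p : ℝ) * w i) e (dt d (tw p t) F) := by
  rw [← fil_expand] at hF ⊢
  rw [← dt_expand p (map_zero d)]
  exact dt_fil d hk (admE_p p hC) hd ht htw (qf_expand p F) hF

theorem dt_filO_tw (hk : Ctx0 k v) (hC : ∀ c ∈ C₀, c ^ p ∈ S₀)
    (hd : ∀ (y : Ω) (c : ℝ), v.Ge c y → v.Ge c (d y)) {t : Polynomial Ω}
    (ht : ∀ j, Lim v C₀ 0 (t.coeff j)) (htw : ∀ j : ℕ, j * w 0 < w 1 ∨ t.coeff j ∈ C₀) {ε e : ℝ}
    {F : MvPolynomial (Fin 2) Ω} (hF : FilO v (fun i => (p : ℝ) * w i) ε e F) :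
    FilO v (fun i => (p : ℝ) * w i) ε e (dt d (tw p t) F) := by
  rw [← filO_expand hp.out.ne_zero] at hF ⊢
  rw [← dt_expand p (map_zero d)]
  exact dt_filOw d hk (admE_p p hC) hd ht htw (qf_expand p F) hF

/-- The heavy condition, in the letters. -/
theorem heavy_tw {t : Polynomial Ω} (htw : ∀ j : ℕ, j * w 0 < w 1 ∨ t.coeff j ∈ C₀)
    (hC : ∀ c ∈ C₀, c ^ p ∈ S₀) (j : ℕ) :
    j * ((p : ℝ) * w 0) < (p : ℝ) * w 1 ∨ (tw p t).coeff j ∈ S₀ := by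
  have hp0 : (0 : ℝ) < p := by exact_mod_cast hp.out.pos
  refine (htw j).imp (fun h => ?_) fun h => ?_
  · have := mul_lt_mul_of_pos_left h hp0
    linarith
  · rw [coeff_tw]
    exact hC _ h

end Pool.Agent.TWRB
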