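import Pool.Agent.Lib.TWRB.T5a
import Pool.Agent.Lib.TWRB.TwistC

/-!
# RowB: the twisted functionals in the coordinates

* `shU_dt`: `shU s (dt d t F) = dt d (s + t) (shU s F)`;
* `dt_shs`: weights.
-/

set_option autoImplicit false

open MvPolynomial

namespace Pool.Agent.TWRB

open Pool.Agent.H15JM (RVal)
open Pool.Agent.D2 (Ctx0)
open Pool.Agent.TWM
open Pool.Agent.TWLY
open Pool.Agent.TWCY
open Pool.Agent.TWEC
open Pool.Agent.TWLG64 (FilO)
open Pool.Agent.TWLG76 (Sh Tr coeff_Tr_lt coeff_Tr_ge)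

universe u

variable {k Ω : Type u} [Field k] [Field Ω] [Algebra k Ω] {v : RVal Ω}

/-- The coordinates and the twisted functional. -/
theorem shU_dt (d : Ω → Ω) (s t : Polynomial Ω) (F : MvPolynomial (Fin 2) Ω) :
    shU s (dt d t F) = dt d (s + t) (shU s F) := by
  have h : shU (-(s + t)) (shU s F) = shU (-t) F := by
    rw [shU_shU]
    congr 2
    ring
  rw [dt, dt, h, shU_shU]

/-- The heavy coefficients of the translation are in the base. -/
theorem coeff_comp_mem {C₀ : IntermediateField k Ω} {y : Ω} (hy : y ∈ C₀) {q : Polynomial Ω}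
    {w₀ w₁ : ℝ} (hw0 : 0 ≤ w₀) (hq : ∀ j : ℕ, q.coeff j ∈ C₀ ∨ j * w₀ < w₁) {j : ℕ}
    (hj : w₁ ≤ j * w₀) : (q.comp (Polynomial.X + Polynomial.C y)).coeff j ∈ C₀ := by
  rw [Polynomial.comp, Polynomial.eval₂_eq_sum_range, Polynomial.finsetSum_coeff]
  refine sum_mem fun i _ => ?_
  rw [Polynomial.coeff_C_mul, Polynomial.coeff_X_add_C_pow]
  by_cases hij : i < j
  · rw [Nat.choose_eq_zero_of_lt hij, Nat.cast_zero, mul_zero, mul_zero]
    exact zero_mem _
  · push Not at hij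
    have h1 : q.coeff i ∈ C₀ := by
      refine (hq i).resolve_right fun h2 => ?_
      have h3 : (j : ℝ) ≤ i := by exact_mod_cast hij
      nlinarith
    exact mul_mem h1 (mul_mem (pow_mem hy _) (natCast_mem _ _))

/-- **The weights of `dt d (τ U)` in the coordinates.** -/
theorem dt_shs (hk : Ctx0 k v) {S₀ C₀ : IntermediateField k Ω} {Q : Ex → Prop}
    (hA : AdmE S₀ C₀ Q) (d : Ω →ₗ[S₀] Ω) (hd : ∀ (y : Ω) (c : ℝ), v.Ge c y → v.Ge c (d y))
    {τ : Ω →ₐ[k] Ω} {U : Polynomial Ω} {y b : Ω} (hy : y ∈ C₀) (hb : b ∈ C₀)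
    (hUl : ∀ j, Lim v C₀ 0 ((U.map (τ : Ω →+* Ω)).coeff j)) {f : Polynomial k} {w₀ w₁ : ℝ}
    (hw0 : 0 ≤ w₀) (_hw1 : 0 < w₁) (htw : ∀ j : ℕ, U.coeff j ∈ C₀ ∨ j * w₀ < w₁)
    (_hsh : ∀ j : ℕ, v.Ge (min 0 (-(w₁ - j * w₀))) ((Sh y f (psi τ y b U)).coeff j))
    {e : ℝ} (_he : 0 ≤ e) {Λ : MvPolynomial (Fin 2) Ω} (hQ : QF Q Λ)
    (hF : FilO v ![w₀, w₁] 0 e (shU (shs y f w₀ w₁ (psi τ y b U)) Λ)) :
    FilO v ![w₀, w₁] 0 e (shU (shs y f w₀ w₁ (psi τ y b U)) (dt d (U.map (τ : Ω →+* Ω)) Λ)) := by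
  set s := shs y f w₀ w₁ (psi τ y b U) with hs
  -- the coefficients of `f`
  have hf : ∀ j, (f.map (algebraMap k Ω)).coeff j ∈ C₀ := fun j => by
    rw [Polynomial.coeff_map]
    exact C₀.algebraMap_mem _
  -- the light coefficients
  have hlt : ∀ j : ℕ, (j : ℝ) * w₀ < w₁ → Lim v C₀ 0 ((s + U.map (τ : Ω →+* Ω)).coeff j) := by
    intro j hj
    have e1 : (s + U.map (τ : Ω →+* Ω)).coeff j = (f.map (algebraMap k Ω)).coeff j +
        (U.map (τ : Ω →+* Ω)).coeff j := by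
      rw [hs, shs, Polynomial.coeff_add, Polynomial.coeff_sub, Polynomial.coeff_sub,
        coeff_Tr_lt hj, sub_self, sub_zero]
    rw [e1]
    intro ε hε
    obtain ⟨a, ha, h1⟩ := hUl j ε hε
    refine ⟨(f.map (algebraMap k Ω)).coeff j + a, add_mem (hf j) ha, ?_⟩
    rw [add_sub_add_left_eq_sub]
    exact h1
  -- the heavy coefficients
  have hge : ∀ j : ℕ, w₁ ≤ (j : ℝ) * w₀ → (s + U.map (τ : Ω →+* Ω)).coeff j ∈ C₀ := by
    intro j hj
    have e1 : (s + U.map (τ : Ω →+* Ω)).coeff j =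
        ((f.map (algebraMap k Ω)).comp (Polynomial.X + Polynomial.C y)).coeff j -
          (Polynomial.C b : Polynomial Ω).coeff j +
          (U.comp (Polynomial.X + Polynomial.C y)).coeff j := by
      rw [hs, shs, Polynomial.coeff_add, Polynomial.coeff_sub, Polynomial.coeff_sub,
        coeff_Tr_ge hj, sub_zero, Sh, psi, Polynomial.coeff_sub, Polynomial.coeff_add,
        Polynomial.coeff_sub, Polynomial.coeff_add]
      ring
    rw [e1]
    refine add_mem (sub_mem (coeff_comp_mem (w₀ := w₀) (w₁ := w₁) hy hw0 (fun i => Or.inl (hf i))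
      hj) ?_) (coeff_comp_mem hy hw0 htw hj)
    rw [Polynomial.coeff_C]
    split_ifs
    exacts [hb, zero_mem _]
  rw [shU_dt]
  refine dt_filOw d hk hA hd (fun j => ?_) (fun j => ?_) (hQ.shU hA _) hF
  · rcases lt_or_ge ((j : ℝ) * w₀) w₁ with h | h
    · exact hlt j h
    · exact lim_self (hge j h)
  · rcases lt_or_ge ((j : ℝ) * w₀) w₁ with h | h
    · exact Or.inl (by simpa using h)
    · exact Or.inr (hge j h)

end Pool.Agent.TWRB
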