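import Pool.Agent.Lib.TWRB.T5Mv
import Pool.Agent.Lib.TWRB.T5B
import Pool.Agent.Lib.TWRB.T5C
import Pool.Agent.Lib.TWRB.R4
import Pool.Agent.Lib.TWRB.RowR3
import Pool.Agent.Lib.TWRB.Asm

/-!
# RowB: one motion, `e = 0`
-/

set_option autoImplicit false

open MvPolynomial

namespace Pool.Agent.TWRB

open Pool.Agent.H15JM (RVal)
open Pool.Agent.LU1 (VPos)
open Pool.Agent.D2 (Ctx0)
open Pool.Agent.TWM
open Pool.Agent.TWS (IsoE SphC)
open Pool.Agent.TWLY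
open Pool.Agent.TWCY
open Pool.Agent.TWCU
open Pool.Agent.TWEC
open Pool.Agent.TWLG64 (LL mp FilO NRelO DnsL Siz plane_one coeff_mp)
open Pool.Agent.TWLG76 (Sh Tr exists_truncP)

universe u

variable {k Ω : Type u} [Field k] [Field Ω] [Algebra k Ω] {v : RVal Ω}

/-! ### Linear maps -/

section lin

variable {S₀ : IntermediateField k Ω}

theorem Dc_X0_mul (d : Ω →ₗ[S₀] Ω) (f : MvPolynomial (Fin 2) Ω) :
    Dc d (X 0 * f) = X 0 * Dc d f := by
  classical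
  ext g
  rw [coeff_Dc' (map_zero d), coeff_X_mul', coeff_X_mul']
  split_ifs
  · rw [coeff_Dc' (map_zero d)]
  · rw [map_zero]

theorem dt_X0_mul (d : Ω →ₗ[S₀] Ω) (t : Polynomial Ω) (f : MvPolynomial (Fin 2) Ω) :
    dt d t (X 0 * f) = X 0 * dt d t f := by
  rw [dt, map_mul, shU_X0, Dc_X0_mul, map_mul, shU_X0, dt]

theorem dt_C_mul (d : Ω →ₗ[S₀] Ω) (t : Polynomial Ω) {c : Ω} (hc : c ∈ S₀)
    (f : MvPolynomial (Fin 2) Ω) : dt d t (C c * f) = C c * dt d t f := by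
  rw [dt, map_mul, TWEC.shU_C, Dc_C_mul hc, map_mul, TWEC.shU_C, dt]

/-- `g ↦ dt d U g`, on the polynomials over `k`. -/
noncomputable def dtl (d : Ω →ₗ[S₀] Ω) (U : Polynomial Ω) :
    MvPolynomial (Fin 2) k →ₗ[k] MvPolynomial (Fin 2) Ω where
  toFun g := dt d U (mp Ω g)
  map_add' g g' := by rw [map_add, dt_add]
  map_smul' c g := by
    rw [smul_eq_C_mul, map_mul, mp, map_C, dt_C_mul d U (S₀.algebraMap_mem c), RingHom.id_apply,
      Algebra.smul_def, IsScalarTower.algebraMap_apply k Ω (MvPolynomial (Fin 2) Ω), algebraMap_eq]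

theorem dtl_apply (d : Ω →ₗ[S₀] Ω) (U : Polynomial Ω) (g : MvPolynomial (Fin 2) k) :
    dtl d U g = dt d U (mp Ω g) := rfl

theorem mp_X0_mul (g : MvPolynomial (Fin 2) k) : mp Ω (X 0 * g) = X 0 * mp Ω g := by
  rw [map_mul, mp, map_X]

theorem dtl_X0_mul (d : Ω →ₗ[S₀] Ω) (U : Polynomial Ω) (g : MvPolynomial (Fin 2) k) :
    dtl d U (X 0 * g) = X 0 * dtl d U g := by
  rw [dtl_apply, mp_X0_mul, dt_X0_mul, dtl_apply]

/-- **The residues of a linear map.** -/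
theorem exists_res_lin (hk : Ctx0 k v)
    (Rr : MvPolynomial (Fin 2) k →ₗ[k] MvPolynomial (Fin 2) Ω)
    (hge : ∀ g β, v.Ge 0 (coeff β (Rr g))) (hX : ∀ F, Rr (X 0 * F) = X 0 * Rr F) :
    ∃ ν : MvPolynomial (Fin 2) k →ₗ[k] MvPolynomial (Fin 2) k,
      (∀ g β, Gt v 0 (coeff β (Rr g - mp Ω (ν g)))) ∧ ∀ F, ν (X 0 * F) = X 0 * ν F := by
  classical
  choose ν hν _ using fun g => exists_rsp4 hk (hge g)
  have huniq : ∀ (g : MvPolynomial (Fin 2) k) (n : MvPolynomial (Fin 2) k),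
      (∀ β, Gt v 0 (coeff β (Rr g - mp Ω n))) → ν g = n := fun g n hn =>
    rsp_uniq hk (hν g) (fun m => by
      have := hn m
      rwa [coeff_sub, coeff_mp] at this)
  have hν' : ∀ g β, Gt v 0 (coeff β (Rr g - mp Ω (ν g))) := fun g β => by
    rw [coeff_sub, coeff_mp]
    exact hν g β
  refine ⟨⟨⟨ν, fun g g' => huniq _ _ fun β => ?_⟩, fun c g => huniq _ _ fun β => ?_⟩, hν',
    fun F => huniq _ _ fun β => ?_⟩
  · have e : Rr (g + g') - mp Ω (ν g + ν g') = (Rr g - mp Ω (ν g)) + (Rr g' - mp Ω (ν g')) := by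
      rw [map_add, map_add]
      ring
    rw [e, coeff_add]
    exact (hν' g β).add (hν' g' β)
  · have e : Rr (c • g) - mp Ω ((RingHom.id k) c • ν g) =
        C (algebraMap k Ω c) * (Rr g - mp Ω (ν g)) := by
      rw [map_smul, RingHom.id_apply, smul_eq_C_mul (ν g), map_mul, mp, map_C, Algebra.smul_def,
        IsScalarTower.algebraMap_apply k Ω (MvPolynomial (Fin 2) Ω), algebraMap_eq]
      ring
    rw [e, coeff_C_mul, mul_comm]
    have := (hν' g β).mul_ge (hk.ge c)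
    rwa [add_zero] at this
  · have e : Rr (X 0 * F) - mp Ω (X 0 * ν F) = X 0 * (Rr F - mp Ω (ν F)) := by
      rw [hX, mp_X0_mul]
      ring
    change Gt v 0 (coeff β (Rr (X 0 * F) - mp Ω (X 0 * ν F)))
    rw [e, coeff_X_mul']
    split_ifs
    · exact hν' F _
    · exact Gt.zero

end lin

/-! ### The data -/

section data

variable {p : ℕ} {L : ℕ → IntermediateField k Ω} {W B F K A : IntermediateField k Ω}
  {w : Fin 2 → Ω} {x z a : Ω} {R : RecB k Ω}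

theorem HB.WF (h : HB p v L W B F K w x z a) : W ≤ F := h.WB.trans h.BF

theorem HB.wF (h : HB p v L W B F K w x z a) (i : Fin 2) : w i ∈ F := by
  fin_cases i
  exacts [h.BF h.w0B, h.w1F]

theorem CB.Ul (h : CB p v L W B F K w x z a R) (j : ℕ) : Lim v F 0 (R.U.coeff j) := by
  intro ε hε
  obtain ⟨c, hc, h1⟩ := h.frm.Ul j ε hε
  exact ⟨c, h.BF hc, h1⟩

theorem CB.frO (h : CB p v L W B F K w x z a R) (g : MvPolynomial (Fin 2) k) :
    FrO v W F w z R.T R.U (R.Z + mp Ω g) where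
  c0 := h.c0
  iso := h.frm.iso
  fix := h.frm.fix
  Tw := h.frm.Tw
  Tu := h.frm.Tu
  le := h.WF
  wF := h.wF
  Ul := h.Ul
  jet c := by
    have e1 : eval (TWCY.pt c) (mp Ω g) = algebraMap k Ω (eval c g) := TWCY.eval_pt_map c g
    have e : R.T c z - z - eval (TWCY.pt c) (R.Z + mp Ω g) =
        (R.T c z - z - eval (TWCY.pt c) R.Z) - eval (TWCY.pt c) (mp Ω g) := by
      rw [map_add]
      ring
    rw [e, e1]
    exact (h.jet c).sub (h.c0.ge _)

theorem CB.tiO (h : CB p v L W B F K w x z a R) : TiO p v W w x z R.e R.κ R.t R.Pa := by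
  intro ε hε
  obtain ⟨θ, h', h1, h2, h3, h4, h5⟩ := h.tie ε hε
  refine ⟨θ, h', h1, h2, fun he g hg => ?_, h4, h5⟩
  by_contra h6
  exact hg (h3 he g h6)

theorem MoB.moO {τ : Ω →ₐ[k] Ω} {y b Za : Ω} {ρ : ℝ} (hM : MoB v A W B F w z τ ρ y b Za)
    (h : HB p v L W B F K w x z a) : MoO v F w z τ y b Za where
  iso := hM.mF.iso
  map _ hf := hM.mF.mem hf
  aF := h.WF hM.aW
  bF := h.BF hM.bC
  ZF := hM.ZF
  Sw := hM.tw
  Su := hM.tu
  za _ hε _ hθ h1 := hM.near h.zt.lim hε hθ h1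

variable {S₀ : IntermediateField k Ω}

theorem ln_eq (l : Fin 2 → k) : TWEC.ln Ω l = lin l := by
  rw [lin, Fin.sum_univ_two, TWEC.ln]

/-- `G^oo`, the two forms. -/
theorem gm_eq (D : Ω →ₗ[S₀] Ω) :
    Gm D R.U R.e (R.l 1) x p R.κ R.t R.Z (Ap w R.l R.Pa) (bw w R.l) (eval w R.Pa) =
      GU p w x R D := by
  have e1 : dt D R.U (dsR w R.U (R.Pa - lin R.l)) =
      shU R.U (Dc D (trf (w 0) (w 1) 0 (R.Pa - lin R.l) - C (eval w (R.Pa - lin R.l)))) := by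
    have e2 := dsR_shU w R.U 0 (R.Pa - lin R.l)
    rw [zero_sub] at e2
    rw [dt, ← e2, dsR_eq, w_pair]
  have e3 : eval w (lin R.l : MvPolynomial (Fin 2) Ω) = bw w R.l := by
    rw [lin, Fin.sum_univ_two, bw, map_add, map_mul, map_mul, eval_C, eval_C, eval_X, eval_X]
  rw [GU, Gm, e1, TWEC.Ap, ln_eq, Dc_sub', TWEC.Dc_C, map_sub (shU R.U), TWEC.shU_C,
    map_sub (eval w), map_sub D, e3, C_sub, C_sub]
  ring

theorem gm_gauge [Fact p.Prime] [CharP Ω p] (D : Ω →ₗ[S₀] Ω) (U : Polynomial Ω) (e e₂ : k)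
    (κ : ℕ → k) (t : ℕ) (Z Z' A' : MvPolynomial (Fin 2) Ω) (b a₀ : Ω) :
    Gm D U e e₂ x p κ t (Z + Z') A' b a₀ = Gm D U e e₂ x p κ t Z A' b a₀ +
      C (D x) * PP p κ t Z' + C (algebraMap k Ω e) * dt D U Z' := by
  rw [Gm, Gm, dt_add, PP_add]
  ring

/-- **The relation `(b*)` for the gauge `g`.** -/
theorem CB.relK [Fact p.Prime] [CharP Ω p] [Infinite k] (h : CB p v L W B F K w x z a R)
    {τ : Ω →ₐ[k] Ω} {ρ : ℝ} {y b Za : Ω} (hM : MoB v A W B F w z τ ρ y b Za) (hx : τ x = x)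
    (hPa : ∀ g, τ (coeff g R.Pa) = coeff g R.Pa) {D : Ω →ₗ[S₀] Ω} (hD : DFn p v F S₀ D)
    (hDx : v.Ge 0 (D x)) (g : MvPolynomial (Fin 2) k)
    (hg : R.e ≠ 0 → QF (fun m => ∀ i, p ∣ m i) (mp Ω g)) (β : Ex) :
    v.Ge 0 (coeff β (aeval (Lp y (psi τ y b R.U)) (GU p w x R D +
        C (D x) * PP p R.κ R.t (mp Ω g) + C (algebraMap k Ω R.e) * dt D R.U (mp Ω g)) +
      C (D x) * PP p R.κ R.t (zet τ (Lp y (psi τ y b R.U)) Za (R.Z + mp Ω g)) +
      C (algebraMap k Ω R.e) *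
        dt D (R.U.map (τ : Ω →+* Ω)) (zet τ (Lp y (psi τ y b R.U)) Za (R.Z + mp Ω g)) +
      Er D τ y b R.U (R.l 0) (R.l 1))) := by
  have h1 := bstar_fr (l := R.l) (h.frO g) h.xW h.PaW (fun m hm => by
    rw [h.PaD m hm, ln_eq]) h.tiO (fun he => QF.add (fun m hm => by
      by_contra h2
      exact hm (h.Zp he m h2)) (hg he)) (hM.moO h.toHB) hx hPa hD.pow D hD.norm hD.one hDx β
  rwa [gm_gauge, gm_eq] at h1

/-- **The relation `(a*)` for the gauge `g`.** -/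
theorem CB.relN [Infinite k] (h : CB p v L W B F K w x z a R)
    {τ : Ω →ₐ[k] Ω} {ρ : ℝ} {y b Za : Ω} (hM : MoB v A W B F w z τ ρ y b Za)
    {d : Ω →ₗ[F] Ω} (hd : Fnl v F d) (g : MvPolynomial (Fin 2) k) (β : Ex) :
    v.Ge 0 (coeff β (aeval (Lp y (psi τ y b R.U)) (dt d R.U R.Z + dt d R.U (mp Ω g)) +
      dt d (R.U.map (τ : Ω →+* Ω)) (zet τ (Lp y (psi τ y b R.U)) Za (R.Z + mp Ω g)))) := by
  have h1 := astar_fr (h.frO g) (fun ε hε => by
    obtain ⟨θ, h', h1, -, -, h4, -⟩ := h.tie ε hε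
    exact ⟨θ, h1, h4⟩) (hM.moO h.toHB) d hd.norm hd.zero β
  rwa [dt_add] at h1

end data

/-! ### `e = 0` -/

section e0

variable {p : ℕ} [Fact p.Prime] [CharP k p] [CharP Ω p] [IsAlgClosed k] {L : ℕ → IntermediateField k Ω}
  {W B F K : IntermediateField k Ω} {w : Fin 2 → Ω} {x z a : Ω} {R : RecB k Ω}

/-- The motions fix `x` and the coefficients of `Pa`. -/
theorem CB.fixed (h : CB p v L W B F K w x z a R) : ∃ J₀ : ℕ, ∀ J ≥ J₀, ∀ (τ : Ω →ₐ[k] Ω) (ρ : ℝ)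
    (y b Za : Ω), MoB v (L J) W B F w z τ ρ y b Za →
      τ x = x ∧ ∀ g, τ (coeff g R.Pa) = coeff g R.Pa := by
  obtain ⟨J₁, h1⟩ := h.xL
  obtain ⟨J₂, h2⟩ := h.PaL
  refine ⟨max J₁ J₂, fun J hJ τ ρ y b Za hM => ⟨hM.mW.fix _ (h.mono ((le_max_left _ _).trans hJ) h1),
    fun g => hM.mW.fix _ (h.mono ((le_max_right _ _).trans hJ) (h2 g))⟩⟩

/-- One motion, `e = 0`: the polynomials of the noises. -/
theorem oneN0 (hV : RowVis (k := k) p v) (h11 : RowR11 (k := k) p v)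
    (h : CB p v L W B F K w x z a R) (he : R.e = 0)
    (hE : ∃ (S₀ : IntermediateField k Ω) (E : Ω →ₗ[S₀] Ω), DFn p v F S₀ E ∧ E x = 1)
    {d : Ω →ₗ[F] Ω} {N : MvPolynomial (Fin 2) Ω} {n : MvPolynomial (Fin 2) k} (hd : Fnl v F d)
    (hN : NI v B F R d N) (hn : Rsp v N n) : ∃ J₀ : ℕ, ∀ J ≥ J₀, ∀ (τ : Ω →ₐ[k] Ω) (ρ : ℝ)
    (y b Za : Ω), MoB v (L J) W B F w z τ ρ y b Za → ∀ r, Seen v y (Psi τ y b R.U) r →
      ∀ j : ℕ, j ≠ 0 → coeff (Finsupp.single 1 j) n = 0 := by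
  classical
  have : Infinite k := IsAlgClosed.instInfinite
  obtain ⟨S₀, E, hE0, hEx⟩ := hE
  have hEx' : v.Ge 0 (E x) := by
    rw [hEx]
    exact fun _ => by rw [v.map_one]
  have hNd : N = dt d R.U R.Z := hN.uniq h (ni_dt h hd)
  have hA : AdmE F F (fun _ => True) := admE_all le_rfl
  -- the residues
  obtain ⟨G, hG, -⟩ := exists_rsp4 h.c0 (gi_gu h hE0 hEx').ge
  obtain ⟨ν, hν, hνX⟩ := exists_res_lin h.c0 (dtl (k := k) d R.U) (fun g β =>
    dt_ge d h.c0 hA hd.norm h.Ul (fun _ _ => trivial) (fun m => by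
      rw [coeff_mp]
      exact h.c0.ge _) β) (dtl_X0_mul d R.U)
  obtain ⟨ε₀, hε₀, hcore⟩ := core5 (p := p) (κ := R.κ) (t := R.t) h.c0 h.kap
    (RN := dt d R.U R.Z) (RG := GU p w x R E) (N := n) (G := G) (Rd := dtl d R.U) (RD := 0)
    (νd := ν) (νD := 0)
    (fun β => by
      rw [coeff_sub, coeff_mp, ← hNd]
      exact hn β)
    (fun β => by
      rw [coeff_sub, coeff_mp]
      exact hG β) (dtl_X0_mul d R.U) (fun F' => by simp) hνX (fun F' => by simp)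
    (fun b β => hν _ β) (fun b β => by
      rw [LinearMap.zero_apply, LinearMap.zero_apply, map_zero, sub_zero, coeff_zero]
      exact Gt.zero) (fun m m' hm' => by
      rw [LinearMap.zero_apply, support_zero] at hm'
      exact absurd hm' (Finset.notMem_empty _))
  obtain ⟨J₁, hJ₁⟩ := moveData hV h11 h hε₀
  obtain ⟨J₂, hJ₂⟩ := h.fixed
  refine ⟨max J₁ J₂, fun J hJ τ ρ y b Za hM r hr j hj => ?_⟩
  obtain ⟨hr0, hrε, hry, hry0, hΨ, hthr⟩ := hJ₁ J ((le_max_left _ _).trans hJ) τ ρ y b Za hM r hr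
  obtain ⟨hτx, hτP⟩ := hJ₂ J ((le_max_right _ _).trans hJ) τ ρ y b Za hM
  have hyF : y ∈ F := h.WF hM.aW
  have hbF : b ∈ F := h.BF hM.bC
  obtain ⟨g, hg0, hg⟩ := hcore y (Psi τ y b R.U) r hr0 hrε hry hry0 hΨ
    (fun g => zet τ (Lp y (psi τ y b R.U)) Za (R.Z + mp Ω g))
    (fun _ => Er E τ y b R.U (R.l 0) (R.l 1))
    (fun g => dt d (R.U.map (τ : Ω →+* Ω)) (zet τ (Lp y (psi τ y b R.U)) Za (R.Z + mp Ω g)))
    (fun g _ β => by
      have h1 := h.relK hM hτx hτP hE0 hEx' g (fun h2 => absurd he h2) β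
      rw [hEx, he, map_zero, C_0, C_1, one_mul, one_mul, zero_mul, zero_mul, add_zero,
        add_zero] at h1
      rw [LinearMap.zero_apply, add_zero, add_comm (PP p R.κ R.t _)]
      exact h1)
    (fun g _ β => h.relN hM hd g β)
    (fun f w₁ hf0 hw1 hsh hpar hfz => by
      obtain ⟨h1, h2, h3⟩ := hthr f w₁ hf0 hw1 hsh
      obtain ⟨c', hc0, hc1, hEr⟩ := er_fil (p := p) (e₁ := R.l 0) (e₂ := R.l 1) h.c0 hE0 hyF hbF
        h.Up hr0 h1 h2 hry hry0 hf0 hsh hpar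
      refine ⟨h1, h2, fun g hg => ⟨fun e he' _ => hEr e (hc1.le.trans he') _, 0, le_rfl, h2,
        fun e he' hF => ?_⟩⟩
      refine dt_shs h.c0 hA d hd.norm hyF hbF (fun j => ?_) hr0 h2
        (fun j => (h3 j).imp (fun h4 => h.BF h4) id) hsh he' (fun _ _ => trivial) hF
      rw [Polynomial.coeff_map]
      intro ε hε
      obtain ⟨c, hc, h4⟩ := h.Ul j ε hε
      refine ⟨τ c, hM.mF.mem hc, ?_⟩
      have h5 := hM.mF.iso.ge_iff.2 h4
      rw [map_sub] at h5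
      exact h5)
  have h1 : coeff (Finsupp.single 1 j) (n + ν g) = 0 := by
    by_contra h2
    have h3 := hg _ (mem_support_iff.2 h2)
    rw [Finsupp.single_eq_same] at h3
    exact hj h3
  have h2 : coeff (Finsupp.single 1 j) (ν g) = 0 := by
    have h3 := hν g (Finsupp.single 1 j)
    rw [coeff_sub, coeff_mp, dtl_apply, coeff_single_dt d h.frm.U0, coeff_mp,
      hd.zero _ (F.algebraMap_mem _), zero_sub] at h3
    exact h.c0.const_eq_zero (by
      have := h3.neg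
      rwa [neg_neg] at this)
  rwa [coeff_add, h2, add_zero] at h1

/-- One motion, `e = 0`: the polynomials of the class functionals. -/
theorem oneG0 (hV : RowVis (k := k) p v) (h11 : RowR11 (k := k) p v)
    (h : CB p v L W B F K w x z a R) (he : R.e = 0)
    (hE : ∃ (S₀ : IntermediateField k Ω) (E : Ω →ₗ[S₀] Ω), DFn p v F S₀ E ∧ E x = 1)
    {S₁ : IntermediateField k Ω} {E₁ : Ω →ₗ[S₁] Ω} {N : MvPolynomial (Fin 2) Ω}
    {n : MvPolynomial (Fin 2) k} (hd : DFn p v F S₁ E₁) (hdx : E₁ x = 0)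
    (hN : GI p v B w x R E₁ N) (hn : Rsp v N n) : ∃ J₀ : ℕ, ∀ J ≥ J₀, ∀ (τ : Ω →ₐ[k] Ω) (ρ : ℝ)
    (y b Za : Ω), MoB v (L J) W B F w z τ ρ y b Za → ∀ r, Seen v y (Psi τ y b R.U) r →
      ∀ j : ℕ, j ≠ 0 → coeff (Finsupp.single 1 j) n = 0 := by
  classical
  have : Infinite k := IsAlgClosed.instInfinite
  obtain ⟨S₀, E, hE0, hEx⟩ := hE
  have hEx' : v.Ge 0 (E x) := by
    rw [hEx]
    exact fun _ => by rw [v.map_one]
  have hdx' : v.Ge 0 (E₁ x) := by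
    rw [hdx]
    exact RVal.Ge.zero
  have hNd : N = GU p w x R E₁ := hN.uniq h (gi_gu h hd hdx')
  obtain ⟨G, hG, -⟩ := exists_rsp4 h.c0 (gi_gu h hE0 hEx').ge
  obtain ⟨ε₀, hε₀, hcore⟩ := core5 (p := p) (κ := R.κ) (t := R.t) h.c0 h.kap
    (RN := GU p w x R E₁) (RG := GU p w x R E) (N := n) (G := G) (Rd := 0) (RD := 0)
    (νd := 0) (νD := 0)
    (fun β => by
      rw [coeff_sub, coeff_mp, ← hNd]
      exact hn β)
    (fun β => by
      rw [coeff_sub, coeff_mp]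
      exact hG β) (fun F' => by simp) (fun F' => by simp) (fun F' => by simp) (fun F' => by simp)
    (fun b β => by
      rw [LinearMap.zero_apply, LinearMap.zero_apply, map_zero, sub_zero, coeff_zero]
      exact Gt.zero) (fun b β => by
      rw [LinearMap.zero_apply, LinearMap.zero_apply, map_zero, sub_zero, coeff_zero]
      exact Gt.zero) (fun m m' hm' => by
      rw [LinearMap.zero_apply, support_zero] at hm'
      exact absurd hm' (Finset.notMem_empty _))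
  obtain ⟨J₁, hJ₁⟩ := moveData hV h11 h hε₀
  obtain ⟨J₂, hJ₂⟩ := h.fixed
  refine ⟨max J₁ J₂, fun J hJ τ ρ y b Za hM r hr j hj => ?_⟩
  obtain ⟨hr0, hrε, hry, hry0, hΨ, hthr⟩ := hJ₁ J ((le_max_left _ _).trans hJ) τ ρ y b Za hM r hr
  obtain ⟨hτx, hτP⟩ := hJ₂ J ((le_max_right _ _).trans hJ) τ ρ y b Za hM
  have hyF : y ∈ F := h.WF hM.aW
  have hbF : b ∈ F := h.BF hM.bC
  obtain ⟨g, -, hg⟩ := hcore y (Psi τ y b R.U) r hr0 hrε hry hry0 hΨ
    (fun g => zet τ (Lp y (psi τ y b R.U)) Za (R.Z + mp Ω g))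
    (fun _ => Er E τ y b R.U (R.l 0) (R.l 1))
    (fun _ => Er E₁ τ y b R.U (R.l 0) (R.l 1))
    (fun g _ β => by
      have h1 := h.relK hM hτx hτP hE0 hEx' g (fun h2 => absurd he h2) β
      rw [hEx, he, map_zero, C_0, C_1, one_mul, one_mul, zero_mul, zero_mul, add_zero,
        add_zero] at h1
      rw [LinearMap.zero_apply, add_zero, add_comm (PP p R.κ R.t _)]
      exact h1)
    (fun g _ β => by
      have h1 := h.relK hM hτx hτP hd hdx' g (fun h2 => absurd he h2) β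
      simp only [hdx, he, map_zero, zero_mul, add_zero] at h1
      rw [LinearMap.zero_apply, add_zero]
      exact h1)
    (fun f w₁ hf0 hw1 hsh hpar hfz => by
      obtain ⟨h1, h2, h3⟩ := hthr f w₁ hf0 hw1 hsh
      obtain ⟨c', hc0, hc1, hEr⟩ := er_fil (p := p) (e₁ := R.l 0) (e₂ := R.l 1) h.c0 hE0 hyF hbF
        h.Up hr0 h1 h2 hry hry0 hf0 hsh hpar
      obtain ⟨c₁, hc0', hc1', hEr'⟩ := er_fil (p := p) (e₁ := R.l 0) (e₂ := R.l 1) h.c0 hd hyF
        hbF h.Up hr0 h1 h2 hry hry0 hf0 hsh hpar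
      exact ⟨h1, h2, fun g hg => ⟨fun e he' _ => hEr e (hc1.le.trans he') _, c₁, hc0', hc1',
        fun e he' _ => hEr' e he' _⟩⟩)
  by_contra h2
  have h3 := hg (Finsupp.single 1 j) (by
    rw [LinearMap.zero_apply, add_zero]
    exact mem_support_iff.2 h2)
  rw [Finsupp.single_eq_same] at h3
  exact hj h3

end e0

end Pool.Agent.TWRB
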