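import Pool.Agent.Lib.TWRB.TwistC
import Pool.Agent.Lib.TWLG76.DropP

/-!
# RowB, `e ≠ 0`: the good coordinates in the letters

`fr f` is the Frobenius twist of a polynomial over `k`. The good coordinates `f`, the weights `w` of
`(x, Ψ)` give the good coordinates `fr f`, the weights `p w` of `(x ^ p, tw Ψ)`.
* `Sh_tw`, `Tr_tw`, `tw_mapk`; `thr_tw`, `siz_tw`, `dnsL_tw`, `val_tw`: the data;
* `map_frob_shU`: the Frobenius twist of `shU f` over `k`.
-/

set_option autoImplicit false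

open MvPolynomial

namespace Pool.Agent.TWRB

open Pool.Agent.H15JM (RVal)
open Pool.Agent.D2 (Ctx0)
open Pool.Agent.TWM
open Pool.Agent.TWLY
open Pool.Agent.TWLG64
open Pool.Agent.TWLG76 (Sh Tr coeff_Tr)

universe u

variable {k Ω : Type u} [Field k] [Field Ω] [Algebra k Ω] {v : RVal Ω}
  (p : ℕ) [hp : Fact p.Prime] [CharP Ω p]

/-- The Frobenius twist, over `k`. -/
noncomputable def fr [CharP k p] (f : Polynomial k) : Polynomial k := f.map (frobenius k p)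

@[simp]
theorem coeff_fr [CharP k p] (f : Polynomial k) (j : ℕ) : (fr p f).coeff j = f.coeff j ^ p := by
  rw [fr, Polynomial.coeff_map, frobenius_def]

theorem tw_mapk [CharP k p] (f : Polynomial k) :
    tw p (f.map (algebraMap k Ω)) = (fr p f).map (algebraMap k Ω) := by
  ext j
  rw [coeff_tw, Polynomial.coeff_map, Polynomial.coeff_map, coeff_fr, map_pow]

theorem tw_comp (U : Polynomial Ω) (x : Ω) :
    tw p (U.comp (Polynomial.X + Polynomial.C x)) =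
      (tw p U).comp (Polynomial.X + Polynomial.C (x ^ p)) := by
  rw [tw, tw, Polynomial.map_comp, Polynomial.map_add, Polynomial.map_X, Polynomial.map_C,
    frobenius_def]

/-- **The change of coordinates in the letters.** -/
theorem Sh_tw [CharP k p] (x : Ω) (f : Polynomial k) (Ψ : Polynomial Ω) :
    tw p (Sh x f Ψ) = Sh (x ^ p) (fr p f) (tw p Ψ) := by
  rw [Sh, Sh, tw_sub, tw_add, tw_comp, tw_mapk]

theorem Tr_tw (w₀ w₁ : ℝ) (Φ : Polynomial Ω) :
    tw p (Tr w₀ w₁ Φ) = Tr (p * w₀) (p * w₁) (tw p Φ) := by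
  have hp0 : (0 : ℝ) < p := by exact_mod_cast hp.out.pos
  ext j
  rw [coeff_tw, coeff_Tr, coeff_Tr, coeff_tw]
  have h1 : ((j : ℝ) * w₀ < w₁) ↔ (j : ℝ) * (p * w₀) < p * w₁ := by
    rw [mul_left_comm, mul_lt_mul_iff_right₀ hp0]
  by_cases h : (j : ℝ) * w₀ < w₁
  · rw [if_pos h, if_pos (h1.1 h)]
  · rw [if_neg h, if_neg (fun h2 => h (h1.2 h2)), zero_pow hp.out.ne_zero]

omit hp [CharP Ω p] in
/-- The powers. -/
theorem ge_pow_min {y : Ω} {a : ℝ} (h : v.Ge (min 0 a) y) : v.Ge (min 0 (p * a)) (y ^ p) := by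
  have hp0 : (0 : ℝ) ≤ p := Nat.cast_nonneg p
  have h1 := ge_pow h p
  refine h1.mono ?_
  rw [mul_min_of_nonneg _ _ hp0, mul_zero]

/-- The threshold. -/
theorem thr_tw {w₀ w₁ : ℝ} {Φ : Polynomial Ω}
    (h : ∀ j : ℕ, v.Ge (min 0 (-(w₁ - j * w₀))) (Φ.coeff j)) (j : ℕ) :
    v.Ge (min 0 (-(p * w₁ - j * (p * w₀)))) ((tw p Φ).coeff j) := by
  rw [coeff_tw]
  have h1 := ge_pow_min p (h j)
  convert h1 using 2
  ring

omit [CharP Ω p] in
theorem val_tw {w₀ : ℝ} {x : Ω} (h : 0 < w₀ → x ≠ 0 ∧ v x = -w₀) :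
    0 < (p : ℝ) * w₀ → x ^ p ≠ 0 ∧ v (x ^ p) = -(p * w₀) := by
  have hp0 : (0 : ℝ) < p := by exact_mod_cast hp.out.pos
  intro h1
  obtain ⟨h2, h3⟩ := h ((mul_pos_iff_of_pos_left hp0).1 h1)
  refine ⟨pow_ne_zero _ h2, ?_⟩
  rw [v.map_pow h2, h3]
  ring

omit hp in
theorem vec_tw (w₀ w₁ : ℝ) :
    (fun i => (p : ℝ) * (![w₀, w₁] : Fin 2 → ℝ) i) = ![p * w₀, p * w₁] := by
  funext i
  fin_cases i <;> rfl

omit [CharP Ω p] in
theorem vec_tw' (x : Ω) : (fun i => (![x, 0] : Fin 2 → Ω) i ^ p) = ![x ^ p, 0] := by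
  funext i
  fin_cases i
  · rfl
  · exact zero_pow hp.out.ne_zero

theorem siz_tw {w₀ w₁ : ℝ} {x : Ω} {Φ : Polynomial Ω}
    (h : Siz v ![w₀, w₁] ![x, 0] Φ) : Siz v ![p * w₀, p * w₁] ![x ^ p, 0] (tw p Φ) := by
  have h1 := siz_twist p h
  rwa [vec_tw, vec_tw'] at h1

theorem dnsL_tw [CharP k p] [IsAlgClosed k] {w₀ w₁ : ℝ} {x : Ω} {Φ : Polynomial Ω}
    (h : DnsL k v ![w₀, w₁] ![x, 0] Φ) : DnsL k v ![p * w₀, p * w₁] ![x ^ p, 0] (tw p Φ) := by
  have h1 := dnsL_twist p h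
  rwa [vec_tw, vec_tw'] at h1

omit [CharP Ω p] in
/-- The weights of a polynomial in the letters. -/
theorem filO_vec {w₀ w₁ ε e : ℝ} (F : MvPolynomial (Fin 2) Ω) :
    FilO v ![w₀, w₁] ε e (expand p F) ↔ FilO v ![p * w₀, p * w₁] ε e F := by
  rw [filO_expand hp.out.ne_zero, vec_tw]

/-- `N` has no `c` iff its twist has no `c`. -/
theorem noc_expand {N : MvPolynomial (Fin 2) k} (h : ∀ m ∈ N.support, m 1 = 0) :
    ∀ m ∈ (expand p N).support, m 1 = 0 := by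
  intro m hm
  rw [mem_support_iff] at hm
  by_cases h1 : ∀ i, p ∣ m i
  · have h2 : dvx p m ∈ N.support := by
      rw [mem_support_iff, ← coeff_expand_smul p hp.out.ne_zero, smul_dvx h1]
      exact hm
    have h3 := h _ h2
    rw [← smul_dvx h1, Finsupp.smul_apply, h3, smul_zero]
  · exact absurd (coeff_expand_not N h1) hm

end Pool.Agent.TWRB
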