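import Pool.Agent.Lib.TWRB.TwistD

/-!
# RowB, `e ≠ 0`: in the letters the twisted polynomial is a limit of the scalars

* `lim_tw`: `(tw U)_j` is a limit of `S₀`, if `U_j` is a limit of `C₀` and `C₀ ^ p ⊆ S₀`;
* `lim_map`: limits and motions.
-/

set_option autoImplicit false

open MvPolynomial

namespace Pool.Agent.TWRB

open Pool.Agent.H15JM (RVal)
open Pool.Agent.D2 (Ctx0)
open Pool.Agent.TWM
open Pool.Agent.TWS (IsoE)

universe u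

variable {k Ω : Type u} [Field k] [Field Ω] [Algebra k Ω] {v : RVal Ω}
  {S₀ C₀ : IntermediateField k Ω}

/-- **The limits in the letters.** -/
theorem lim_pow_p (p : ℕ) [hp : Fact p.Prime] [CharP Ω p] (hC : ∀ c ∈ C₀, c ^ p ∈ S₀) {y : Ω}
    (h : Lim v C₀ 0 y) : Lim v S₀ 0 (y ^ p) := by
  have hp0 : (0 : ℝ) < p := by exact_mod_cast hp.out.pos
  intro ε hε
  obtain ⟨c, hc, h1⟩ := h (ε / p) (by positivity)
  refine ⟨c ^ p, hC c hc, ?_⟩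
  rw [← sub_pow_char]
  refine (TWM.ge_pow h1 p).mono ?_
  have h2 : (p : ℝ) * (0 - ε / p) = 0 - ε := by
    field_simp
    ring
  rw [h2]

theorem lim_tw (p : ℕ) [hp : Fact p.Prime] [CharP Ω p] (hC : ∀ c ∈ C₀, c ^ p ∈ S₀)
    {U : Polynomial Ω} (h : ∀ j, Lim v C₀ 0 (U.coeff j)) (j : ℕ) :
    Lim v S₀ 0 ((tw p U).coeff j) := by
  rw [coeff_tw]
  exact lim_pow_p p hC (h j)

/-- Limits and motions. -/
theorem lim_map {τ : Ω →ₐ[k] Ω} (hτ : IsoE v v τ) (hτC : ∀ f ∈ C₀, τ f ∈ C₀) {U : Polynomial Ω}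
    (h : ∀ j, Lim v C₀ 0 (U.coeff j)) (j : ℕ) :
    Lim v C₀ 0 ((U.map (τ : Ω →+* Ω)).coeff j) := by
  intro ε hε
  obtain ⟨a, ha, h1⟩ := h j ε hε
  refine ⟨τ a, hτC a ha, ?_⟩
  rw [Polynomial.coeff_map]
  have h2 : (τ : Ω →+* Ω) (U.coeff j) - τ a = τ (U.coeff j - a) := by
    rw [map_sub]
    rfl
  rw [h2]
  exact hτ.ge_iff.2 h1

end Pool.Agent.TWRB
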