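import Pool.Agent.Lib.TWRB.TwistE
import Pool.Agent.Lib.TWEC.Tw3

/-!
# RowB, `e ≠ 0`: `(b*)` in the letters

`e₁ = e₂ = 0`, `Z = expand p Z'`, `A = expand p A'`.
* `gm_expand`, `er_zero`: the terms of `bstar_oo`;
* `bstar_tw`: `(b*)` in the letters, from `bstar_oo`;
* `pa_expand`: the exponents of `A`.
-/

set_option autoImplicit false

open MvPolynomial

namespace Pool.Agent.TWRB

open Pool.Agent.H15JM (RVal)
open Pool.Agent.D2 (Ctx0)
open Pool.Agent.TWM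
open Pool.Agent.TWLY
open Pool.Agent.TWCY
open Pool.Agent.TWCU
open Pool.Agent.TWEC

universe u

variable {k Ω : Type u} [Field k] [Field Ω] [Algebra k Ω] {v : RVal Ω}
  {S₀ : IntermediateField k Ω} (p : ℕ) [hp : Fact p.Prime] [CharP Ω p] {κ : ℕ → k} {t : ℕ}

/-- **`Γ` in the letters.** -/
theorem gm_expand (D : Ω →ₗ[S₀] Ω) (U : Polynomial Ω) (e : k) (x : Ω)
    (Z A : MvPolynomial (Fin 2) Ω) (b a₀ : Ω) :
    Gm D U e 0 x p κ t (expand p Z) (expand p A) b a₀ =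
      expand p (Gm D (tw p U) e 0 x p κ t Z A b a₀) := by
  unfold Gm
  rw [dt_expand p (map_zero D), PP_expand, Dc_expand hp.out.ne_zero (map_zero D), shU_expand]
  simp only [map_add, map_mul, expand_C, map_zero, zero_mul, add_zero]

omit hp [CharP Ω p] in
/-- No error. -/
theorem er_zero (D : Ω → Ω) (τ : Ω →ₐ[k] Ω) (x y : Ω) (U : Polynomial Ω) :
    Er D τ x y U (0 : k) 0 = 0 := by
  unfold Er
  rw [map_zero, zero_mul, zero_mul, add_zero, C_0, zero_mul, add_zero]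

/-- **`(b*)` in the letters.** -/
theorem bstar_tw (D : Ω →ₗ[S₀] Ω) (τ : Ω →ₐ[k] Ω) (X' Y' Za x b a₀ : Ω) (U : Polynomial Ω)
    (e : k) (Z A : MvPolynomial (Fin 2) Ω) {r : ℝ} :
    (∀ g, v.Ge r (coeff g (aeval (Lp X' (psi τ X' Y' U))
        (Gm D U e 0 x p κ t (expand p Z) (expand p A) b a₀) +
      C (D x) * PP p κ t (zet τ (Lp X' (psi τ X' Y' U)) Za (expand p Z)) +
      C (algebraMap k Ω e) *
        dt D (U.map (τ : Ω →+* Ω)) (zet τ (Lp X' (psi τ X' Y' U)) Za (expand p Z)) +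
      Er D τ X' Y' U (0 : k) 0))) ↔
    ∀ g, v.Ge r (coeff g (aeval (Lp (X' ^ p) (psi τ (X' ^ p) (Y' ^ p) (tw p U)))
        (Gm D (tw p U) e 0 x p κ t Z A b a₀) +
      C (D x) * PP p κ t (zet τ (Lp (X' ^ p) (psi τ (X' ^ p) (Y' ^ p) (tw p U))) Za Z) +
      C (algebraMap k Ω e) * dt D ((tw p U).map (τ : Ω →+* Ω))
        (zet τ (Lp (X' ^ p) (psi τ (X' ^ p) (Y' ^ p) (tw p U))) Za Z))) := by
  rw [er_zero, add_zero, gm_expand]
  exact bstar_expand_ge p (map_zero D) e (D x) τ X' Y' Za U _ Z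

omit hp [CharP Ω p] in
/-- The exponents divisible by `p`. -/
theorem exists_expand_of_qf {F : MvPolynomial (Fin 2) Ω} (h : QF (fun m => ∀ i, p ∣ m i) F) :
    ∃ F' : MvPolynomial (Fin 2) Ω, expand p F' = F :=
  exists_expand fun g hg => by
    by_contra h1
    exact hg (h g h1)

end Pool.Agent.TWRB
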