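import Pool.Agent.Lib.TWRB.T5D
import Pool.Agent.Lib.TWRB.TwistD
import Pool.Agent.Lib.TWRB.TwistE
import Pool.Agent.Lib.TWRB.TwistF

/-!
# RowB: one motion, `e ≠ 0`, in the letters `s ^ p`, `c ^ p`
-/

set_option autoImplicit false

open MvPolynomial

namespace Pool.Agent.TWRB

open Pool.Agent.H15JM (RVal)
open Pool.Agent.LU1 (VPos)
open Pool.Agent.D2 (Ctx0)
open Pool.Agent.TWM
open Pool.Agent.TWS (IsoE SphC)
open Pool.Agent.TWLY
open Pool.Agent.TWCY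
open Pool.Agent.TWCU
open Pool.Agent.TWEC
open Pool.Agent.TWLG64 (LL mp FilO NRelO DnsL Siz plane_one coeff_mp)
open Pool.Agent.TWLG76 (Sh Tr exists_truncP)

universe u

variable {k Ω : Type u} [Field k] [Field Ω] [Algebra k Ω] {v : RVal Ω}

/-! ### Linear maps -/

section lin

variable {S₀ : IntermediateField k Ω}

theorem smul_dtl (c : k) (d : Ω →ₗ[S₀] Ω) (U : Polynomial Ω) (g : MvPolynomial (Fin 2) k) :
    (c • dtl d U) g = C (algebraMap k Ω c) * dt d U (mp Ω g) := by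
  rw [LinearMap.smul_apply, dtl_apply, Algebra.smul_def,
    IsScalarTower.algebraMap_apply k Ω (MvPolynomial (Fin 2) Ω), algebraMap_eq]

theorem smul_dtl_X0 (c : k) (d : Ω →ₗ[S₀] Ω) (U : Polynomial Ω) (g : MvPolynomial (Fin 2) k) :
    (c • dtl d U) (X 0 * g) = X 0 * (c • dtl d U) g := by
  rw [smul_dtl, smul_dtl, mp_X0_mul, dt_X0_mul]
  ring

theorem smul_dtl_ge (hk : Ctx0 k v) (c : k) {d : Ω →ₗ[S₀] Ω}
    (hd : ∀ (y : Ω) (c : ℝ), v.Ge c y → v.Ge c (d y)) {U : Polynomial Ω}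
    (hU : ∀ j, Lim v S₀ 0 (U.coeff j)) (g : MvPolynomial (Fin 2) k) (β : Ex) :
    v.Ge 0 (coeff β ((c • dtl d U) g)) := by
  rw [smul_dtl]
  refine ge_C_mul (hk.ge c) (fun β => ?_) β
  exact dt_ge d hk (admE_all le_rfl) hd hU (fun _ _ => trivial) (fun m => by
    rw [coeff_mp]
    exact hk.ge _) β

/-- The functional lowers the degree in the second variable. -/
theorem dt_X1_lt (d : Ω →ₗ[S₀] Ω) (h1 : d 1 = 0) (t : Polynomial Ω) (n : ℕ) :
    ∀ m ∈ (dt d t (X 1 ^ n)).support, m 1 < n := by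
  classical
  rcases Nat.eq_zero_or_pos n with h0 | h0
  · intro m hm
    rw [h0, pow_zero, dt, map_one, ← C_1, TWEC.Dc_C, h1, C_0, map_zero, support_zero] at hm
    exact absurd hm (Finset.notMem_empty _)
  · obtain ⟨N, rfl⟩ : ∃ N, n = N + 1 := ⟨n - 1, by omega⟩
    have h2 : ∀ m ∈ (Dc d (shU (-t) (X 1 ^ (N + 1)))).support, m 1 ≤ N := by
      intro m hm
      by_contra h3
      push Not at h3
      refine mem_support_iff.1 hm ?_
      rw [coeff_Dc' (map_zero d)]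
      have h4 : coeff m (shU (-t) (X 1 ^ (N + 1)) - X 1 ^ (N + 1) : MvPolynomial (Fin 2) Ω) = 0 := by
        have h5 : ∀ m ∈ (shU (-t) (X 1 ^ (N + 1)) - X 1 ^ (N + 1) :
            MvPolynomial (Fin 2) Ω).support, m 1 ≤ N := by
          refine degreeOf_le_iff.1 ?_
          rw [map_pow, shU_X1, add_pow, Finset.sum_range_succ, Nat.sub_self, pow_zero,
            Nat.choose_self, Nat.cast_one, mul_one, mul_one, add_sub_cancel_right]
          refine (degreeOf_sum_le _ _ _).trans (Finset.sup_le fun i hi => ?_)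
          rw [Finset.mem_range] at hi
          have h6 : degreeOf 1 (Polynomial.aeval (X 0 : MvPolynomial (Fin 2) Ω) (-t)) = 0 := by
            refine Nat.le_zero.1 ?_
            rw [Polynomial.aeval_eq_sum_range]
            refine (degreeOf_sum_le _ _ _).trans (Finset.sup_le fun j _ => ?_)
            rw [smul_eq_C_mul]
            refine (degreeOf_C_mul_le _ _ _).trans ((degreeOf_pow_le _ _ _).trans ?_)
            rw [degreeOf_X_of_ne (by decide)]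
            simp
          have h7 : degreeOf 1 ((X 1 : MvPolynomial (Fin 2) Ω) ^ i) ≤ i := by
            refine (degreeOf_pow_le _ _ _).trans ?_
            rw [degreeOf_X, if_pos rfl, mul_one]
          have h8 := degreeOf_pow_le (1 : Fin 2)
            (Polynomial.aeval (X 0 : MvPolynomial (Fin 2) Ω) (-t)) (N + 1 - i)
          rw [h6, mul_zero] at h8
          have h9 : degreeOf 1 (((N + 1).choose i : ℕ) : MvPolynomial (Fin 2) Ω) = 0 := by
            rw [← map_natCast (C : Ω →+* MvPolynomial (Fin 2) Ω), degreeOf_C]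
          refine (degreeOf_mul_le _ _ _).trans ?_
          have h10 := degreeOf_mul_le (1 : Fin 2) ((X 1 : MvPolynomial (Fin 2) Ω) ^ i)
            (Polynomial.aeval (X 0 : MvPolynomial (Fin 2) Ω) (-t) ^ (N + 1 - i))
          omega
        by_contra h6
        have := h5 m (mem_support_iff.2 h6)
        omega
      rw [coeff_sub, sub_eq_zero] at h4
      rw [h4, coeff_X_pow]
      split_ifs
      exacts [h1, map_zero d]
    intro m hm
    exact Nat.lt_succ_of_le (degreeOf_shU t h2 m hm)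

theorem dt_mono_lt (d : Ω →ₗ[S₀] Ω) (h1 : d 1 = 0) (t : Polynomial Ω) (m : Ex) :
    ∀ m' ∈ (dt d t (mp Ω (monomial m (1 : k)))).support, m' 1 < m 1 := by
  classical
  have e1 : mp Ω (monomial m (1 : k)) = X 0 ^ m 0 * X 1 ^ m 1 := by
    rw [mp, map_monomial, map_one, monomial_eq, C_1, one_mul,
      Finsupp.prod_fintype _ _ (fun i => pow_zero _), Fin.prod_univ_two]
  have e2 : ∀ (n : ℕ) (f : MvPolynomial (Fin 2) Ω), dt d t (X 0 ^ n * f) =
      X 0 ^ n * dt d t f := by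
    intro n f
    induction n with
    | zero => rw [pow_zero, one_mul, one_mul]
    | succ n ih => rw [pow_succ', mul_assoc, dt_X0_mul, ih, mul_assoc]
  intro m' hm'
  rw [e1, e2, X_pow_eq_monomial, mem_support_iff, coeff_monomial_mul'] at hm'
  split_ifs at hm' with h
  · rw [one_mul] at hm'
    have h2 := dt_X1_lt d h1 t (m 1) _ (mem_support_iff.2 hm')
    rw [Finsupp.tsub_apply, Finsupp.single_apply, if_neg (by decide), Nat.sub_zero] at h2
    exact h2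
  · exact absurd rfl hm'

end lin

/-! ### The relations in the letters -/

section letters

variable {p : ℕ} [hp : Fact p.Prime] [CharP Ω p] {L : ℕ → IntermediateField k Ω}
  {W B F K A S₀ : IntermediateField k Ω} {w : Fin 2 → Ω} {x z a : Ω} {R : RecB k Ω}

theorem CB.l0 (h : CB p v L W B F K w x z a R) (he : R.e ≠ 0) : R.l = 0 := h.cas.resolve_left he

/-- `G^oo` is a polynomial in the letters. -/
theorem CB.gu_expand (h : CB p v L W B F K w x z a R) (he : R.e ≠ 0)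
    {Z' : MvPolynomial (Fin 2) Ω} (hZ : expand p Z' = R.Z) (D : Ω →ₗ[S₀] Ω) :
    ∃ Γ : MvPolynomial (Fin 2) Ω, expand p Γ = GU p w x R D := by
  have hl := h.l0 he
  have hQ : QF (fun m => ∀ i, p ∣ m i) (TWEC.Ap w R.l R.Pa) :=
    (qf_pp fun m hm => by rw [h.PaD m hm, ln_eq]).map_aeval
      (admE_p (S₀ := ⊤) (C₀ := F) p fun c _ => IntermediateField.mem_top) _
  obtain ⟨A', hA'⟩ := exists_expand_of_qf p hQ
  refine ⟨Gm D (tw p R.U) R.e 0 x p R.κ R.t Z' A' (bw w R.l) (eval w R.Pa), ?_⟩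
  rw [← gm_expand, hZ, hA', ← gm_eq, hl]
  rfl

/-- **`(b*)` in the letters, for the gauge `g`.** -/
theorem CB.relK_tw [Infinite k] (h : CB p v L W B F K w x z a R) (he : R.e ≠ 0)
    {Z' Γ : MvPolynomial (Fin 2) Ω} (hZ : expand p Z' = R.Z)
    {τ : Ω →ₐ[k] Ω} {ρ : ℝ} {y b Za : Ω} (hM : MoB v A W B F w z τ ρ y b Za) (hx : τ x = x)
    (hPa : ∀ g, τ (coeff g R.Pa) = coeff g R.Pa) {D : Ω →ₗ[S₀] Ω} (hD : DFn p v F S₀ D)
    (hDx : v.Ge 0 (D x)) (hΓ : expand p Γ = GU p w x R D) (g : MvPolynomial (Fin 2) k) (β : Ex) :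
    v.Ge 0 (coeff β (aeval (Lp (y ^ p) (psi τ (y ^ p) (b ^ p) (tw p R.U))) (Γ +
        C (D x) * PP p R.κ R.t (mp Ω g) +
        C (algebraMap k Ω R.e) * dt D (tw p R.U) (mp Ω g)) +
      C (D x) * PP p R.κ R.t (zet τ (Lp (y ^ p) (psi τ (y ^ p) (b ^ p) (tw p R.U))) Za
        (Z' + mp Ω g)) +
      C (algebraMap k Ω R.e) * dt D ((tw p R.U).map (τ : Ω →+* Ω))
        (zet τ (Lp (y ^ p) (psi τ (y ^ p) (b ^ p) (tw p R.U))) Za (Z' + mp Ω g)))) := by
  have hl := h.l0 he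
  have h1 := fun β => h.relK hM hx hPa hD hDx (expand p g) (fun _ => by
    rw [mp_expand]
    exact qf_expand p _) β
  have e1 : GU p w x R D + C (D x) * PP p R.κ R.t (mp Ω (expand p g)) +
      C (algebraMap k Ω R.e) * dt D R.U (mp Ω (expand p g)) = expand p (Γ +
        C (D x) * PP p R.κ R.t (mp Ω g) +
        C (algebraMap k Ω R.e) * dt D (tw p R.U) (mp Ω g)) := by
    rw [mp_expand, dt_expand p (map_zero D), PP_expand, ← hΓ]
    simp only [map_add, map_mul, expand_C]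
  have e2 : R.Z + mp Ω (expand p g) = expand p (Z' + mp Ω g) := by
    rw [map_add, hZ, mp_expand]
  rw [e1, e2, hl] at h1
  refine (bstar_expand_ge p (map_zero D) R.e (D x) τ y b Za R.U _ _).1 (fun β => ?_) β
  have h2 := h1 β
  rw [show Er D τ y b R.U ((0 : Fin 2 → k) 0) ((0 : Fin 2 → k) 1) = 0 from
    er_zero D τ y b R.U, add_zero] at h2
  exact h2

/-- **`(a*)` in the letters, for the gauge `g`.** -/
theorem CB.relN_tw [Infinite k] (h : CB p v L W B F K w x z a R)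
    {Z' : MvPolynomial (Fin 2) Ω} (hZ : expand p Z' = R.Z)
    {τ : Ω →ₐ[k] Ω} {ρ : ℝ} {y b Za : Ω} (hM : MoB v A W B F w z τ ρ y b Za)
    {d : Ω →ₗ[F] Ω} (hd : Fnl v F d) (g : MvPolynomial (Fin 2) k) (β : Ex) :
    v.Ge 0 (coeff β (aeval (Lp (y ^ p) (psi τ (y ^ p) (b ^ p) (tw p R.U)))
        (dt d (tw p R.U) Z' + dt d (tw p R.U) (mp Ω g)) +
      dt d ((tw p R.U).map (τ : Ω →+* Ω))
        (zet τ (Lp (y ^ p) (psi τ (y ^ p) (b ^ p) (tw p R.U))) Za (Z' + mp Ω g)))) := by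
  have h1 := fun β => h.relN hM hd (expand p g) β
  have e2 : R.Z + mp Ω (expand p g) = expand p (Z' + mp Ω g) := by
    rw [map_add, hZ, mp_expand]
  simp only [← dt_add, e2] at h1
  rw [← dt_add]
  exact (astar_expand_ge p (map_zero d) τ y b Za R.U _).1 h1 β

end letters

/-! ### The run -/

section run

variable {p : ℕ} [hp : Fact p.Prime] [CharP k p] [CharP Ω p] [IsAlgClosed k]
  {L : ℕ → IntermediateField k Ω} {W B F K S₁ : IntermediateField k Ω} {w : Fin 2 → Ω} {x z a : Ω}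
  {R : RecB k Ω}

/-- The residues of `c • dt d U`. -/
theorem exists_nu {S₀ : IntermediateField k Ω} (hk : Ctx0 k v) (c : k) {d : Ω →ₗ[S₀] Ω}
    (hd : ∀ (y : Ω) (c : ℝ), v.Ge c y → v.Ge c (d y)) (hd1 : d 1 = 0) {U : Polynomial Ω}
    (hU : ∀ j, Lim v S₀ 0 (U.coeff j)) (hU0 : U.coeff 0 = 0) :
    ∃ ν : MvPolynomial (Fin 2) k →ₗ[k] MvPolynomial (Fin 2) k,
      (∀ g β, Gt v 0 (coeff β ((c • dtl d U) g - mp Ω (ν g)))) ∧
      (∀ F, ν (X 0 * F) = X 0 * ν F) ∧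
      (∀ m : Ex, ∀ m' ∈ (ν (monomial m 1)).support, m' 1 < m 1) ∧
      ∀ g (j : ℕ), coeff (Finsupp.single 1 j) (ν g) = 0 := by
  obtain ⟨ν, hν, hνX⟩ := exists_res_lin hk (c • dtl d U) (smul_dtl_ge hk c hd hU)
    (smul_dtl_X0 c d U)
  refine ⟨ν, hν, hνX, fun m m' hm' => ?_, fun g j => ?_⟩
  · refine dt_mono_lt d hd1 U m m' ?_
    by_contra h1
    refine mem_support_iff.1 hm' ?_
    have h2 := hν (monomial m 1) m'
    rw [coeff_sub, coeff_mp, smul_dtl, coeff_C_mul, notMem_support_iff.1 h1, mul_zero,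
      zero_sub] at h2
    refine hk.const_eq_zero (c := coeff m' (ν (monomial m 1))) ?_
    have := h2.neg
    rwa [neg_neg] at this
  · have h2 := hν g (Finsupp.single 1 j)
    have h3 : d (algebraMap k Ω (coeff (Finsupp.single 1 j) g)) = 0 := by
      have e : algebraMap k Ω (coeff (Finsupp.single 1 j) g) =
          (⟨algebraMap k Ω (coeff (Finsupp.single 1 j) g), S₀.algebraMap_mem _⟩ : S₀) •
            (1 : Ω) := by
        rw [IntermediateField.smul_def, smul_eq_mul, mul_one]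
      rw [e, map_smul, hd1, smul_zero]
    rw [coeff_sub, coeff_mp, smul_dtl, coeff_C_mul, coeff_single_dt d hU0, coeff_mp, h3,
      mul_zero, zero_sub] at h2
    refine hk.const_eq_zero (c := coeff (Finsupp.single 1 j) (ν g)) ?_
    have := h2.neg
    rwa [neg_neg] at this

theorem exists_fr (f : Polynomial k) : ∃ f' : Polynomial k, fr p f' = f := by
  have hs : Function.Surjective (frobenius k p) := fun c => by
    obtain ⟨b, hb⟩ := IsAlgClosed.exists_pow_nat_eq c hp.out.pos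
    exact ⟨b, by rw [frobenius_def, hb]⟩
  exact Polynomial.map_surjective _ hs f

theorem ge_of_pow_min {y : Ω} {c : ℝ} (h : v.Ge (min 0 (p * c)) (y ^ p)) : v.Ge (min 0 c) y := by
  have hp0 : (0 : ℝ) < p := by exact_mod_cast hp.out.pos
  intro h0
  have h1 := h (pow_ne_zero _ h0)
  rw [v.map_pow h0] at h1
  have h2 : (p : ℝ) * min 0 c = min 0 (p * c) := by
    rw [mul_min_of_nonneg _ _ hp0.le, mul_zero]
  rw [← h2] at h1
  exact le_of_mul_le_mul_left h1 hp0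

/-- **The run in the letters.** -/
theorem run_ne (hV : RowVis (k := k) p v) (h11 : RowR11 (k := k) p v)
    (h : CB p v L W B F K w x z a R) (he : R.e ≠ 0)
    (hE : ∃ (S₀ : IntermediateField k Ω) (E : Ω →ₗ[S₀] Ω), DFn p v F S₀ E ∧ E x = 1)
    {Z' Γ' : MvPolynomial (Fin 2) Ω} (hZ : expand p Z' = R.Z) {n' : MvPolynomial (Fin 2) k}
    (hn' : ∀ β, Gt v 0 (coeff β (Γ' - mp Ω n'))) (hS₁ : ∀ c ∈ F, c ^ p ∈ S₁)
    {δ : Ω →ₗ[S₁] Ω} (hδ : ∀ (y : Ω) (c : ℝ), v.Ge c y → v.Ge c (δ y)) (hδ1 : δ 1 = 0) (c₁ : k)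
    (hrel : ∃ J₀ : ℕ, ∀ J ≥ J₀, ∀ (τ : Ω →ₐ[k] Ω) (ρ : ℝ) (y b Za : Ω),
      MoB v (L J) W B F w z τ ρ y b Za → ∀ g : MvPolynomial (Fin 2) k, ∀ β,
        v.Ge 0 (coeff β (aeval (Lp (y ^ p) (psi τ (y ^ p) (b ^ p) (tw p R.U)))
          (Γ' + C (algebraMap k Ω c₁) * dt δ (tw p R.U) (mp Ω g)) +
          C (algebraMap k Ω c₁) * dt δ ((tw p R.U).map (τ : Ω →+* Ω))
            (zet τ (Lp (y ^ p) (psi τ (y ^ p) (b ^ p) (tw p R.U))) Za (Z' + mp Ω g))))) :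
    ∃ J₀ : ℕ, ∀ J ≥ J₀, ∀ (τ : Ω →ₐ[k] Ω) (ρ : ℝ) (y b Za : Ω),
      MoB v (L J) W B F w z τ ρ y b Za → ∀ r, Seen v y (Psi τ y b R.U) r →
      ∀ j : ℕ, j ≠ 0 → coeff (Finsupp.single 1 j) n' = 0 := by
  classical
  have : Infinite k := IsAlgClosed.instInfinite
  have hp0 : (0 : ℝ) < p := by exact_mod_cast hp.out.pos
  obtain ⟨S₀, E, hE0, hEx⟩ := hE
  have hEx' : v.Ge 0 (E x) := by
    rw [hEx]
    exact fun _ => by rw [v.map_one]
  obtain ⟨Γ, hΓ⟩ := h.gu_expand he hZ E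
  have hΓge : ∀ β, v.Ge 0 (coeff β Γ) :=
    (ge_expand hp.out.ne_zero Γ).1 (by
      rw [hΓ]
      exact (gi_gu h hE0 hEx').ge)
  obtain ⟨G, hG, -⟩ := exists_rsp4 h.c0 hΓge
  have hU0 : (tw p R.U).coeff 0 = 0 := by rw [coeff_tw, h.frm.U0, zero_pow hp.out.ne_zero]
  have hUE : ∀ j, Lim v S₀ 0 ((tw p R.U).coeff j) := lim_tw p hE0.pow h.Ul
  have hUδ : ∀ j, Lim v S₁ 0 ((tw p R.U).coeff j) := lim_tw p hS₁ h.Ul
  obtain ⟨νd, hνd, hνdX, -, hνd0⟩ := exists_nu h.c0 c₁ hδ hδ1 hUδ hU0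
  obtain ⟨νD, hνD, hνDX, hνDl, -⟩ := exists_nu h.c0 R.e hE0.norm hE0.one hUE hU0
  obtain ⟨ε₀, hε₀, hcore⟩ := core5 (p := p) (κ := R.κ) (t := R.t) h.c0 h.kap
    (RN := Γ') (RG := Γ) (N := n') (G := G) (Rd := c₁ • dtl δ (tw p R.U))
    (RD := R.e • dtl E (tw p R.U)) (νd := νd) (νD := νD) hn'
    (fun β => by
      rw [coeff_sub, coeff_mp]
      exact hG β) (smul_dtl_X0 c₁ δ _) (smul_dtl_X0 R.e E _) hνdX hνDX
    (fun b β => hνd _ β) (fun b β => hνD _ β) hνDl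
  obtain ⟨J₁, hJ₁⟩ := moveData hV h11 h (div_pos hε₀ hp0)
  obtain ⟨J₂, hJ₂⟩ := h.fixed
  obtain ⟨J₃, hJ₃⟩ := hrel
  refine ⟨max J₁ (max J₂ J₃), fun J hJ τ ρ y b Za hM r hr j hj => ?_⟩
  obtain ⟨hr0, hrε, hry, hry0, hΨ, hthr⟩ := hJ₁ J ((le_max_left _ _).trans hJ) τ ρ y b Za hM r hr
  obtain ⟨hτx, hτP⟩ := hJ₂ J ((le_max_left _ _).trans ((le_max_right _ _).trans hJ)) τ ρ y b Za hM
  have hR := hJ₃ J ((le_max_right _ _).trans ((le_max_right _ _).trans hJ)) τ ρ y b Za hM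
  have hyF : y ∈ F := h.WF hM.aW
  have hbF : b ∈ F := h.BF hM.bC
  have hpr : (p : ℝ) * (ε₀ / p) = ε₀ := by field_simp
  have htwΨ : tw p (Psi τ y b R.U) = psi τ (y ^ p) (b ^ p) (tw p R.U) := psi_tw p τ y b R.U
  -- weights
  have hwts : ∀ {S : IntermediateField k Ω} (hS : ∀ c ∈ F, c ^ p ∈ S) {D : Ω →ₗ[S] Ω}
      (hD : ∀ (y : Ω) (c : ℝ), v.Ge c y → v.Ge c (D y)) (c : k) {f : Polynomial k} {w₁ : ℝ}
      (_ : r ≤ w₁) (_ : 0 < w₁) (_ : ∀ j : ℕ, R.U.coeff j ∈ B ∨ j * r < w₁)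
      (_ : ∀ j : ℕ, v.Ge (min 0 (-(p * w₁ - j * (p * r))))
        ((Sh (y ^ p) f (psi τ (y ^ p) (b ^ p) (tw p R.U))).coeff j)) {e : ℝ} (_ : 0 ≤ e)
      {Λ : MvPolynomial (Fin 2) Ω},
      FilO v ![p * r, p * w₁] 0 e (shU (shs (y ^ p) f (p * r) (p * w₁)
        (psi τ (y ^ p) (b ^ p) (tw p R.U))) Λ) →
      FilO v ![p * r, p * w₁] 0 e (shU (shs (y ^ p) f (p * r) (p * w₁)
        (psi τ (y ^ p) (b ^ p) (tw p R.U)))
          (C (algebraMap k Ω c) * dt D ((tw p R.U).map (τ : Ω →+* Ω)) Λ)) := by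
    intro S hS D hD c f w₁ h1 h2 h3 h4 e he' Λ hF β
    rw [map_mul, TWEC.shU_C, coeff_C_mul]
    have h5 := dt_shs h.c0 (admE_all (le_refl S)) D hD (hS y hyF) (hS b hbF)
      (U := tw p R.U) (τ := τ) (fun j => by
        rw [← tw_map]
        exact lim_tw p hS (lim_map hM.mF.iso (fun f hf => hM.mF.mem hf) h.Ul) j)
      (mul_nonneg hp0.le hr0) (mul_pos hp0 h2) (fun j => (h3 j).imp (fun h6 => by
        rw [coeff_tw]
        exact hS _ (h.BF h6)) fun h6 => by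
          have := mul_lt_mul_of_pos_left h6 hp0
          linarith) h4 he' (fun _ _ => trivial) hF β
    have h6 := (h.c0.ge c).mul h5
    rwa [zero_add] at h6
  obtain ⟨g, hg0, hg⟩ := hcore (y ^ p) (psi τ (y ^ p) (b ^ p) (tw p R.U)) (p * r)
    (mul_nonneg hp0.le hr0) (by
      rw [← hpr]
      exact mul_le_mul_of_nonneg_left hrε hp0.le) (val_tw p hry)
    (fun h1 => by
      have h2 := hry0 ((mul_eq_zero.1 h1).resolve_left hp0.ne')
      have h3 := TWM.ge_pow h2 p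
      rwa [mul_zero] at h3)
    (fun j => by
      rw [← htwΨ, ← hpr]
      exact thr_tw p hΨ j)
    (fun g => zet τ (Lp (y ^ p) (psi τ (y ^ p) (b ^ p) (tw p R.U))) Za (Z' + mp Ω g))
    (fun g => C (algebraMap k Ω R.e) * dt E ((tw p R.U).map (τ : Ω →+* Ω))
      (zet τ (Lp (y ^ p) (psi τ (y ^ p) (b ^ p) (tw p R.U))) Za (Z' + mp Ω g)))
    (fun g => C (algebraMap k Ω c₁) * dt δ ((tw p R.U).map (τ : Ω →+* Ω))
      (zet τ (Lp (y ^ p) (psi τ (y ^ p) (b ^ p) (tw p R.U))) Za (Z' + mp Ω g)))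
    (fun g _ β => by
      have h1 := h.relK_tw he hZ hM hτx hτP hE0 hEx' hΓ g β
      rw [hEx, C_1, one_mul, one_mul] at h1
      rw [smul_dtl, add_comm (PP p R.κ R.t _)]
      exact h1)
    (fun g _ β => by
      rw [smul_dtl]
      exact hR g β)
    (fun f' w₁' hf0 hw1 hsh _ _ => by
      obtain ⟨f, rfl⟩ := exists_fr (p := p) f'
      obtain ⟨w₁, rfl⟩ : ∃ w₁ : ℝ, w₁' = p * w₁ := ⟨w₁' / p, by field_simp⟩
      have hf0' : f.coeff 0 = 0 := by
        rw [coeff_fr] at hf0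
        exact pow_eq_zero_iff hp.out.ne_zero |>.1 hf0
      have hw1' : 0 ≤ w₁ := nonneg_of_mul_nonneg_right hw1 hp0
      have hsh' : ∀ j : ℕ, v.Ge (min 0 (-(w₁ - j * r))) ((Sh y f (Psi τ y b R.U)).coeff j) := by
        intro j
        have h1 := hsh j
        rw [← htwΨ, ← Sh_tw, coeff_tw] at h1
        refine ge_of_pow_min (p := p) ?_
        have e1 : (p : ℝ) * -(w₁ - j * r) = -(p * w₁ - j * (p * r)) := by ring
        rw [e1]
        exact h1
      obtain ⟨h1, h2, h3⟩ := hthr f w₁ hf0' hw1' hsh'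
      exact ⟨mul_le_mul_of_nonneg_left h1 hp0.le, mul_pos hp0 h2, fun g _ =>
        ⟨fun e he' hF => hwts hE0.pow hE0.norm R.e h1 h2 h3 hsh
          ((mul_pos hp0 h2).le.trans he') hF, 0, le_rfl, mul_pos hp0 h2, fun e he' hF =>
          hwts hS₁ hδ c₁ h1 h2 h3 hsh he' hF⟩⟩)
  have h1 : coeff (Finsupp.single 1 j) (n' + νd g) = 0 := by
    by_contra h2
    have h3 := hg _ (mem_support_iff.2 h2)
    rw [Finsupp.single_eq_same] at h3
    exact hj h3
  rwa [coeff_add, hνd0, add_zero] at h1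

/-- The residue polynomial in the letters. -/
theorem exists_expand_rsp (hk : Ctx0 k v) {N' : MvPolynomial (Fin 2) Ω}
    {n : MvPolynomial (Fin 2) k} (hn : Rsp v (expand p N') n) :
    ∃ n' : MvPolynomial (Fin 2) k, expand p n' = n ∧ ∀ β, Gt v 0 (coeff β (N' - mp Ω n')) := by
  obtain ⟨n', rfl⟩ := exists_expand (p := p) (F := n) fun g hg => by
    have h1 := hn g
    rw [coeff_expand_not N' hg, zero_sub] at h1
    refine hk.const_eq_zero (c := coeff g n) ?_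
    have := h1.neg
    rwa [neg_neg] at this
  refine ⟨n', rfl, (gt_expand hp.out.ne_zero _).1 fun g => ?_⟩
  rw [map_sub, ← mp_expand, coeff_sub, coeff_mp]
  exact hn g

theorem coeff_expand_single {n' : MvPolynomial (Fin 2) k}
    (h : ∀ j : ℕ, j ≠ 0 → coeff (Finsupp.single 1 j) n' = 0) (j : ℕ) (hj : j ≠ 0) :
    coeff (Finsupp.single 1 j) (expand p n') = 0 := by
  by_cases h1 : p ∣ j
  · obtain ⟨i, rfl⟩ := h1
    have e : (Finsupp.single 1 (p * i) : Ex) = p • Finsupp.single 1 i := by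
      rw [Finsupp.smul_single, smul_eq_mul]
    rw [e, coeff_expand_smul p hp.out.ne_zero]
    exact h i (right_ne_zero_of_mul hj)
  · refine coeff_expand_not n' fun h2 => h1 ?_
    have := h2 1
    rwa [Finsupp.single_eq_same] at this

/-- One motion, `e ≠ 0`: the polynomials of the noises. -/
theorem oneN_ne (hV : RowVis (k := k) p v) (h11 : RowR11 (k := k) p v)
    (h : CB p v L W B F K w x z a R) (he : R.e ≠ 0)
    (hE : ∃ (S₀ : IntermediateField k Ω) (E : Ω →ₗ[S₀] Ω), DFn p v F S₀ E ∧ E x = 1)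
    {d : Ω →ₗ[F] Ω} {N : MvPolynomial (Fin 2) Ω} {n : MvPolynomial (Fin 2) k} (hd : Fnl v F d)
    (hN : NI v B F R d N) (hn : Rsp v N n) : ∃ J₀ : ℕ, ∀ J ≥ J₀, ∀ (τ : Ω →ₐ[k] Ω) (ρ : ℝ)
    (y b Za : Ω), MoB v (L J) W B F w z τ ρ y b Za → ∀ r, Seen v y (Psi τ y b R.U) r →
      ∀ j : ℕ, j ≠ 0 → coeff (Finsupp.single 1 j) n = 0 := by
  have : Infinite k := IsAlgClosed.instInfinite
  obtain ⟨Z', hZ⟩ := exists_expand (p := p) (F := R.Z) fun g hg => h.Zp he g hg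
  have hNd : N = expand p (dt d (tw p R.U) Z') := by
    rw [← dt_expand p (map_zero d), hZ]
    exact hN.uniq h (ni_dt h hd)
  rw [hNd] at hn
  obtain ⟨n', rfl, hn'⟩ := exists_expand_rsp h.c0 hn
  obtain ⟨J₀, hJ⟩ := run_ne hV h11 h he hE hZ hn' (S₁ := F) (δ := d) (fun c hc => pow_mem hc p)
    hd.norm (hd.zero 1 F.one_mem) 1 ⟨0, fun J _ τ ρ y b Za hM g β => by
      rw [map_one, C_1, one_mul, one_mul]
      exact h.relN_tw hZ hM hd g β⟩
  exact ⟨J₀, fun J h1 τ ρ y b Za hM r hr => coeff_expand_single (hJ J h1 τ ρ y b Za hM r hr)⟩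

/-- One motion, `e ≠ 0`: the polynomials of the class functionals. -/
theorem oneG_ne (hV : RowVis (k := k) p v) (h11 : RowR11 (k := k) p v)
    (h : CB p v L W B F K w x z a R) (he : R.e ≠ 0)
    (hE : ∃ (S₀ : IntermediateField k Ω) (E : Ω →ₗ[S₀] Ω), DFn p v F S₀ E ∧ E x = 1)
    {E₁ : Ω →ₗ[S₁] Ω} {N : MvPolynomial (Fin 2) Ω}
    {n : MvPolynomial (Fin 2) k} (hd : DFn p v F S₁ E₁) (hdx : E₁ x = 0)
    (hN : GI p v B w x R E₁ N) (hn : Rsp v N n) : ∃ J₀ : ℕ, ∀ J ≥ J₀, ∀ (τ : Ω →ₐ[k] Ω) (ρ : ℝ)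
    (y b Za : Ω), MoB v (L J) W B F w z τ ρ y b Za → ∀ r, Seen v y (Psi τ y b R.U) r →
      ∀ j : ℕ, j ≠ 0 → coeff (Finsupp.single 1 j) n = 0 := by
  have : Infinite k := IsAlgClosed.instInfinite
  have hdx' : v.Ge 0 (E₁ x) := by
    rw [hdx]
    exact RVal.Ge.zero
  obtain ⟨Z', hZ⟩ := exists_expand (p := p) (F := R.Z) fun g hg => h.Zp he g hg
  obtain ⟨Γ', hΓ⟩ := h.gu_expand he hZ E₁
  have hNd : N = expand p Γ' := by
    rw [hΓ]
    exact hN.uniq h (gi_gu h hd hdx')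
  rw [hNd] at hn
  obtain ⟨n', rfl, hn'⟩ := exists_expand_rsp h.c0 hn
  obtain ⟨J₂, hJ₂⟩ := h.fixed
  obtain ⟨J₀, hJ⟩ := run_ne hV h11 h he hE hZ hn' (S₁ := S₁) (δ := E₁) hd.pow
    hd.norm hd.one R.e ⟨J₂, fun J hJ τ ρ y b Za hM g β => by
      obtain ⟨hτx, hτP⟩ := hJ₂ J hJ τ ρ y b Za hM
      have h1 := h.relK_tw he hZ hM hτx hτP hd hdx' hΓ g β
      rw [hdx, C_0, zero_mul, zero_mul, add_zero, add_zero] at h1
      exact h1⟩
  exact ⟨J₀, fun J h1 τ ρ y b Za hM r hr => coeff_expand_single (hJ J h1 τ ρ y b Za hM r hr)⟩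

end run

end Pool.Agent.TWRB
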