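import Pool.Agent.Lib.TWRB.RowR11
import Pool.Agent.Lib.TWRB.Core

/-!
# RowB: the data of a late motion
-/

set_option autoImplicit false

open MvPolynomial

namespace Pool.Agent.TWRB

open Pool.Agent.H15JM (RVal)
open Pool.Agent.D2 (Ctx0)
open Pool.Agent.TWM
open Pool.Agent.TWLG76 (Sh)

universe u

variable {k Ω : Type u} [Field k] [Field Ω] [Algebra k Ω] {v : RVal Ω}

theorem natDegree_psi_le (τ : Ω →ₐ[k] Ω) (y b : Ω) (U : Polynomial Ω) :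
    (psi τ y b U).natDegree ≤ U.natDegree := by
  unfold psi
  refine (Polynomial.natDegree_sub_le _ _).trans (max_le ?_ ?_)
  · refine (Polynomial.natDegree_add_le _ _).trans (max_le ?_ ?_)
    · rw [Polynomial.natDegree_C]
      exact Nat.zero_le _
    · exact Polynomial.natDegree_map_le
  · refine Polynomial.natDegree_comp_le.trans ?_
    rw [Polynomial.natDegree_X_add_C, mul_one]

/-- **The data of a late motion**: the sizes and the thresholds. -/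
theorem moveData {p : ℕ} (hV : RowVis (k := k) p v) (h11 : RowR11 (k := k) p v)
    {L : ℕ → IntermediateField k Ω} {W B F K : IntermediateField k Ω} {w : Fin 2 → Ω} {x z a : Ω}
    {R : RecB k Ω} (h : CB p v L W B F K w x z a R) {ε₀ : ℝ} (hε : 0 < ε₀) :
    ∃ J₀ : ℕ, ∀ J ≥ J₀, ∀ (τ : Ω →ₐ[k] Ω) (ρ : ℝ) (y b Za : Ω),
      MoB v (L J) W B F w z τ ρ y b Za → ∀ r, Seen v y (Psi τ y b R.U) r →
      0 ≤ r ∧ r ≤ ε₀ ∧ (0 < r → y ≠ 0 ∧ v y = -r) ∧ (r = 0 → v.Ge 0 y) ∧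
      (∀ j : ℕ, v.Ge (min 0 (-(ε₀ - j * r))) ((Psi τ y b R.U).coeff j)) ∧
      ∀ (f : Polynomial k) (w₁ : ℝ), f.coeff 0 = 0 → 0 ≤ w₁ →
        (∀ j : ℕ, v.Ge (min 0 (-(w₁ - j * r))) ((Sh y f (Psi τ y b R.U)).coeff j)) →
        r ≤ w₁ ∧ 0 < w₁ ∧ ∀ j : ℕ, R.U.coeff j ∈ B ∨ j * r < w₁ := by
  set n := R.U.natDegree with hn
  have hn1 : (0 : ℝ) < n + 1 := by positivity
  obtain ⟨J₁, hJ₁⟩ := hV _ _ _ _ _ _ _ _ _ _ h
  obtain ⟨J₂, hJ₂⟩ := h11 _ _ _ _ _ _ _ _ _ _ h (ε₀ / (n + 1)) (div_pos hε hn1)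
  have hε1 : (n + 1) * (ε₀ / (n + 1)) = ε₀ := by field_simp
  have hε2 : 0 < ε₀ / (n + 1) := div_pos hε hn1
  refine ⟨max J₁ J₂, fun J hJ τ ρ y b Za hM r hr => ?_⟩
  obtain ⟨h1, h2⟩ := hJ₂ J ((le_max_right _ _).trans hJ) τ ρ y b Za hM
  have hr0 : 0 ≤ r := by
    rcases hr with ⟨h3, -⟩ | ⟨h3, -⟩
    · exact h3.le
    · exact h3.ge
  have hrε : r ≤ ε₀ / (n + 1) := by
    rcases hr with ⟨-, h3, h4⟩ | ⟨h3, -⟩
    · have h5 := h1 h3
      rw [h4] at h5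
      linarith
    · rw [h3]
      exact hε2.le
  have hle : ε₀ / (n + 1) ≤ ε₀ := by
    have : (0 : ℝ) ≤ n := Nat.cast_nonneg n
    nlinarith
  refine ⟨hr0, hrε.trans hle, fun h3 => ?_, fun h3 => ?_, fun j => ?_, fun f w₁ hf hw hs =>
    hJ₁ J ((le_max_left _ _).trans hJ) τ ρ y b Za hM r hr f w₁ hf hw hs⟩
  · rcases hr with ⟨-, h4, h5⟩ | ⟨h4, -⟩
    · exact ⟨h4, h5⟩
    · exact absurd h3 (by rw [h4]; exact lt_irrefl _)
  · rcases hr with ⟨h4, -⟩ | ⟨-, h4, -⟩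
    · exact absurd h4 (by rw [h3]; exact lt_irrefl _)
    · exact h4
  · by_cases hj : j ≤ n
    · refine (h2 j).mono ((min_le_right _ _).trans ?_)
      have h3 : (j : ℝ) ≤ n := by exact_mod_cast hj
      have h4 : (j : ℝ) * r ≤ n * (ε₀ / (n + 1)) :=
        mul_le_mul h3 hrε hr0 (Nat.cast_nonneg n)
      have h5 : (n : ℝ) * (ε₀ / (n + 1)) + ε₀ / (n + 1) = ε₀ :=
        (by ring : (n : ℝ) * (ε₀ / (n + 1)) + ε₀ / (n + 1) = (n + 1) * (ε₀ / (n + 1))).trans hε1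
      linarith
    · rw [Polynomial.coeff_eq_zero_of_natDegree_lt
        ((natDegree_psi_le τ y b R.U).trans_lt (not_le.1 hj))]
      exact RVal.Ge.zero

end Pool.Agent.TWRB
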