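import Pool.Agent.Lib.TWRB.PlaneA
import Pool.Agent.Lib.TWRB.SmallG
import Pool.Agent.Lib.TWLG76.DropP

/-!
# RowB: the core of the assembly

`core5`: the margins, the gauge, the coordinates and the plane lemma, for abstract linear data
-/

set_option autoImplicit false

open MvPolynomial

namespace Pool.Agent.TWRB

open Pool.Agent.H15JM (RVal)
open Pool.Agent.LU1 (VPos)
open Pool.Agent.D2 (Ctx0)
open Pool.Agent.TWM
open Pool.Agent.TWS (IsoE SphC)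
open Pool.Agent.TWLY
open Pool.Agent.TWLG64 (LL mp FilO NRelO DnsL Siz plane_one)
open Pool.Agent.TWLG76 (Sh Tr exists_truncP)

universe u

variable {k Ω : Type u} [Field k] [Field Ω] [Algebra k Ω] {v : RVal Ω}

section core

variable {p : ℕ} [Fact p.Prime] [CharP k p] {κ : ℕ → k} {t : ℕ}

/-- the inclusion of the constants, linear over `k` -/
noncomputable def mpl (k Ω : Type u) [Field k] [Field Ω] [Algebra k Ω] :
    MvPolynomial (Fin 2) k →ₗ[k] MvPolynomial (Fin 2) Ω :=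
  (mapAlgHom (Algebra.ofId k Ω)).toLinearMap

theorem mpl_apply (F : MvPolynomial (Fin 2) k) : mpl k Ω F = mp Ω F := rfl

/-- the shift of the coordinates -/
noncomputable def shs (x : Ω) (f : Polynomial k) (w₀ w₁ : ℝ) (Ψ : Polynomial Ω) : Polynomial Ω :=
  f.map (algebraMap k Ω) - (Sh x f Ψ - Tr w₀ w₁ (Sh x f Ψ))

/-- **The core of the assembly.** -/
theorem core5 [IsAlgClosed k] (hk : Ctx0 k v) (hκ : κ t ≠ 0)
    {RN RG : MvPolynomial (Fin 2) Ω} {N G : MvPolynomial (Fin 2) k}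
    (hN : ∀ β, Gt v 0 (coeff β (RN - mp Ω N))) (hG : ∀ β, Gt v 0 (coeff β (RG - mp Ω G)))
    {Rd RD : MvPolynomial (Fin 2) k →ₗ[k] MvPolynomial (Fin 2) Ω}
    {νd νD : MvPolynomial (Fin 2) k →ₗ[k] MvPolynomial (Fin 2) k}
    (hRd : ∀ F, Rd (X 0 * F) = X 0 * Rd F) (hRD : ∀ F, RD (X 0 * F) = X 0 * RD F)
    (hνd : ∀ F, νd (X 0 * F) = X 0 * νd F) (hνD : ∀ F, νD (X 0 * F) = X 0 * νD F)
    (hd : ∀ (b : ℕ) (β), Gt v 0 (coeff β (Rd (X 1 ^ b) - mp Ω (νd (X 1 ^ b)))))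
    (hDD : ∀ (b : ℕ) (β), Gt v 0 (coeff β (RD (X 1 ^ b) - mp Ω (νD (X 1 ^ b)))))
    (hν : ∀ m : Ex, ∀ m' ∈ (νD (monomial m 1)).support, m' 1 < m 1) :
    ∃ ε₀ : ℝ, 0 < ε₀ ∧ ∀ (x : Ω) (Ψ : Polynomial Ω) (w₀ : ℝ), 0 ≤ w₀ → w₀ ≤ ε₀ →
      (0 < w₀ → x ≠ 0 ∧ v x = -w₀) → (w₀ = 0 → v.Ge 0 x) →
      (∀ j : ℕ, v.Ge (min 0 (-(ε₀ - j * w₀))) (Ψ.coeff j)) →
      ∀ Λ Em Nm : MvPolynomial (Fin 2) k → MvPolynomial (Fin 2) Ω,
      (∀ g, constantCoeff g = 0 → ∀ β, v.Ge 0 (coeff β (PP p κ t (Λ g) +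
        aeval (Lp x Ψ) (RG + PP p κ t (mp Ω g) + RD g) + Em g))) →
      (∀ g, constantCoeff g = 0 → ∀ β, v.Ge 0 (coeff β (aeval (Lp x Ψ) (RN + Rd g) + Nm g))) →
      (∀ (f : Polynomial k) (w₁ : ℝ), f.coeff 0 = 0 → 0 ≤ w₁ →
        (∀ j : ℕ, v.Ge (min 0 (-(w₁ - j * w₀))) ((Sh x f Ψ).coeff j)) →
        ((∀ j, ¬ p ∣ j → Ψ.coeff j = 0) → (∀ j, ¬ p ∣ j → j ≠ 1 → f.coeff j = 0) ∧
          ∀ j, ¬ p ∣ j → (Sh x f Ψ).coeff j = 0) → (w₀ = 0 → f = 0) →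
        w₀ ≤ w₁ ∧ 0 < w₁ ∧ ∀ g, constantCoeff g = 0 →
          (∀ e, w₁ ≤ e → FilO v ![w₀, w₁] 0 e (shU (shs x f w₀ w₁ Ψ) (Λ g)) →
            FilO v ![w₀, w₁] 0 e (shU (shs x f w₀ w₁ Ψ) (Em g))) ∧
          ∃ c' : ℝ, 0 ≤ c' ∧ c' < w₁ ∧
            ∀ e, c' ≤ e → FilO v ![w₀, w₁] 0 e (shU (shs x f w₀ w₁ Ψ) (Λ g)) →
              FilO v ![w₀, w₁] 0 e (shU (shs x f w₀ w₁ Ψ) (Nm g))) →
      ∃ g, constantCoeff g = 0 ∧ ∀ m ∈ (N + νd g).support, m 1 = 0 := by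
  classical
  -- the degree of `G`
  obtain ⟨M, n, hMn⟩ : ∃ M n : ℕ, ∀ m ∈ G.support, m 0 ≤ M ∧ m 1 ≤ n :=
    ⟨G.support.sup fun m => m 0, G.support.sup fun m => m 1, fun m hm =>
      ⟨Finset.le_sup (f := fun m : Ex => m 0) hm, Finset.le_sup (f := fun m : Ex => m 1) hm⟩⟩
  obtain ⟨B, hB⟩ := exists_gauge (p := p) (t := t) hκ νD hν hνD M n
  -- the margins
  have hX : ∀ (F : MvPolynomial (Fin 2) k), mpl k Ω (X 0 * F) = X 0 * mpl k Ω F := fun F => by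
    rw [mpl_apply, mpl_apply, map_mul]
    congr 1
    exact map_X _ _
  obtain ⟨η₁, h1, hη₁⟩ := small_translate hk hN
  obtain ⟨η₂, h2, hη₂⟩ := small_translate hk hG
  obtain ⟨η₃, h3, hη₃⟩ := small_gauge_lin hk (Rd - (mpl k Ω).comp νd) (fun F => by
    rw [LinearMap.sub_apply, LinearMap.sub_apply, LinearMap.comp_apply, LinearMap.comp_apply,
      hRd, hνd, hX, mul_sub]) n (fun b _ β => hd b β)
  obtain ⟨η₄, h4, hη₄⟩ := small_gauge_lin hk (RD - (mpl k Ω).comp νD) (fun F => by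
    rw [LinearMap.sub_apply, LinearMap.sub_apply, LinearMap.comp_apply, LinearMap.comp_apply,
      hRD, hνD, hX, mul_sub]) n (fun b _ β => hDD b β)
  set η := min (min η₁ η₂) (min η₃ η₄) with hη
  have hη0 : 0 < η := lt_min (lt_min h1 h2) (lt_min h3 h4)
  have e1 : η ≤ η₁ := (min_le_left _ _).trans (min_le_left _ _)
  have e2 : η ≤ η₂ := (min_le_left _ _).trans (min_le_right _ _)
  have e3 : η ≤ η₃ := (min_le_right _ _).trans (min_le_left _ _)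
  have e4 : η ≤ η₄ := (min_le_right _ _).trans (min_le_right _ _)
  have hB1 : (0 : ℝ) < 2 * B + 1 := by positivity
  refine ⟨η / (2 * B + 1), by positivity, ?_⟩
  set ε₀ := η / (2 * B + 1) with hε₀
  have hε0 : 0 < ε₀ := by positivity
  have hεη : ε₀ ≤ η := by
    rw [hε₀, div_le_iff₀ hB1]
    have : (0 : ℝ) ≤ B := Nat.cast_nonneg _
    nlinarith
  have hBε : B * (ε₀ + ε₀) ≤ η := by
    have h5 : (2 * B + 1) * ε₀ = η := by
      rw [hε₀]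
      field_simp
    nlinarith
  intro x Ψ w₀ hw0 hwε hy hy' hΨ Λ Em Nm hKR hNR hW
  have hx : v.Ge (-w₀) x := by
    rcases hw0.eq_or_lt with h0 | h0
    · rw [← h0, neg_zero]
      exact hy' h0.symm
    · intro _
      rw [(hy h0).2]
  have hxε : v.Ge (-ε₀) x := hx.mono (by linarith)
  have hΨε : ∀ j, v.Ge (-ε₀) (Ψ.coeff j) := fun j => (hΨ j).mono (by
    refine le_min (by linarith) ?_
    have : (0 : ℝ) ≤ j * w₀ := by positivity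
    linarith)
  -- the coordinates
  obtain ⟨f, w₁, hf0, hw1, hwt, hpar, hpar', hfz, hsh, halt⟩ := exists_truncP p hk hw0 hy hy'
    (∀ j, ¬ p ∣ j → Ψ.coeff j = 0) Ψ id
  obtain ⟨hw01, hw1', hWg⟩ := hW f w₁ hf0 hw1 hsh (fun h => ⟨hpar h, hpar' h⟩) hfz
  obtain ⟨-, hfw⟩ := hwt ε₀ hε0.le hΨ
  have hmain : Siz v ![w₀, w₁] ![x, 0] (Tr w₀ w₁ (Sh x f Ψ)) ∧
      DnsL k v ![w₀, w₁] ![x, 0] (Tr w₀ w₁ (Sh x f Ψ)) := by
    rcases halt with h5 | ⟨-, h5⟩ | ⟨-, -, -, h5⟩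
    · linarith
    · linarith
    · exact h5
  -- the gauge
  obtain ⟨g, hg0, hgw, hgr⟩ := hB w₀ ε₀ hw0 hε0.le (-f)
    (by rw [Polynomial.coeff_neg, hf0, neg_zero])
    (fun j hj => hfw j fun h5 => hj (by rw [Polynomial.coeff_neg, h5, neg_zero])) G hMn
  rw [neg_neg] at hgr
  have hgη : ∀ m ∈ g.support, m 1 ≤ n ∧ (m 0 : ℝ) * w₀ ≤ η := fun m hm =>
    ⟨(hgw m hm).1, ((hgw m hm).2.trans (mul_le_mul_of_nonneg_left (by linarith)
      (Nat.cast_nonneg _))).trans hBε⟩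
  have hLp : (![X 0 + C x, X 1 + C 0 + Polynomial.aeval (X 0) Ψ] :
      Fin 2 → MvPolynomial (Fin 2) Ω) = Lp x Ψ := by
    rw [Lp, C_0, add_zero]
  -- small terms
  have s1 : ∀ β, Gt v 0 (coeff β (aeval (Lp x Ψ) (RN - mp Ω N))) := fun β => by
    rw [← hLp]
    exact hη₁ x 0 Ψ (hxε.mono (by linarith)) RVal.Ge.zero (fun j => (hΨε j).mono (by linarith)) β
  have s2 : ∀ β, Gt v 0 (coeff β (aeval (Lp x Ψ) (RG - mp Ω G))) := fun β => by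
    rw [← hLp]
    exact hη₂ x 0 Ψ (hxε.mono (by linarith)) RVal.Ge.zero (fun j => (hΨε j).mono (by linarith)) β
  have s3 : ∀ β, Gt v 0 (coeff β (aeval (Lp x Ψ) (Rd g - mp Ω (νd g)))) := fun β =>
    hη₃ x Ψ w₀ hw0 hx (hxε.mono (by linarith)) (fun j => (hΨε j).mono (by linarith)) g
      (fun m hm => ⟨(hgη m hm).1, (hgη m hm).2.trans e3⟩) β
  have s4 : ∀ β, Gt v 0 (coeff β (aeval (Lp x Ψ) (RD g - mp Ω (νD g)))) := fun β =>
    hη₄ x Ψ w₀ hw0 hx (hxε.mono (by linarith)) (fun j => (hΨε j).mono (by linarith)) g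
      (fun m hm => ⟨(hgη m hm).1, (hgη m hm).2.trans e4⟩) β
  refine ⟨g, hg0, ?_⟩
  obtain ⟨hE, c', hc0, hc1, hN'⟩ := hWg g hg0
  refine plane_any (p := p) (t := t) hk hκ hw0 hw01 hw1' hy hsh hmain.1 hmain.2
    (G := G + PP p κ t g + νD g) (N := N + νd g) (Λ := Λ g) (Em := Em g) (Nm := Nm g)
    hgr (fun β => ?_) hE (fun β => ?_) hc0 hc1 hN'
  · have h5 := ((hKR g hg0 β).sub (fun h => (s2 β h).le)).sub (fun h => (s4 β h).le)
    have hPP : mp Ω (PP p κ t g) = PP p κ t (mp Ω g) := by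
      have := PP_map (p := p) (κ := κ) (t := t) (mapAlgHom (Algebra.ofId k Ω) :
        MvPolynomial (Fin 2) k →ₐ[k] MvPolynomial (Fin 2) Ω) g
      exact this
    rw [← coeff_sub, ← coeff_sub, map_add, map_add, map_sub, map_sub] at h5
    have e5 : PP p κ t (Λ g) + aeval (Lp x Ψ) (mp Ω (G + PP p κ t g + νD g)) + Em g =
        PP p κ t (Λ g) + (aeval (Lp x Ψ) RG + aeval (Lp x Ψ) (PP p κ t (mp Ω g)) +
          aeval (Lp x Ψ) (RD g)) + Em g - (aeval (Lp x Ψ) RG - aeval (Lp x Ψ) (mp Ω G)) -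
          (aeval (Lp x Ψ) (RD g) - aeval (Lp x Ψ) (mp Ω (νD g))) := by
      rw [map_add (mp Ω), map_add (mp Ω), hPP, map_add, map_add]
      ring
    rw [e5]
    exact h5
  · have h5 := ((hNR g hg0 β).sub (fun h => (s1 β h).le)).sub (fun h => (s3 β h).le)
    rw [← coeff_sub, ← coeff_sub, map_add, map_sub, map_sub] at h5
    have e5 : aeval (Lp x Ψ) (mp Ω (N + νd g)) + Nm g =
        aeval (Lp x Ψ) RN + aeval (Lp x Ψ) (Rd g) + Nm g -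
          (aeval (Lp x Ψ) RN - aeval (Lp x Ψ) (mp Ω N)) -
          (aeval (Lp x Ψ) (Rd g) - aeval (Lp x Ψ) (mp Ω (νd g))) := by
      rw [map_add (mp Ω), map_add]
      ring
    rw [e5]
    exact h5

end core

end Pool.Agent.TWRB
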