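import Pool.Agent.Lib.TWRB.Glob
import Pool.Agent.Lib.TWRB.R12
import Pool.Agent.Lib.TWRB.R12v
import Pool.Agent.Lib.TWCY.TieT
import Pool.Agent.Lib.TWCY.E1

/-!
# CT, j = 1, row B: the tie from an additive form

* `HB.cls_B`: a critical element of `B` with strict derivative is in the class `x`;
* `HB.tieF_of_col`: the tie from a column over `B`, all whose entries have strict derivatives;
* `tieF_of_af`: the tie over every `GLB` from a real additive form, the column of the top has one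
  class.
-/

set_option autoImplicit false

open MvPolynomial

namespace Pool.Agent.TWRB

open Pool.Agent.H15JM (RVal)
open Pool.Agent.LU1 (VPos)
open Pool.Agent.D2 (Ctx0)
open Pool.Agent.D2P (clI)
open Pool.Agent.TWM
open Pool.Agent.TWS (IsoE SphC PM VG)
open Pool.Agent.TWII (PG LP)
open Pool.Agent.TWN1 (Unh AF col)
open Pool.Agent.TWCT (J1D tH mem_tH lp_tH tH_mono)
open Pool.Agent.TWLY
open Pool.Agent.TWCY

universe u

section big

variable {k Ω : Type u} [Field k] [Field Ω] [Algebra k Ω] {v : RVal Ω}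
  {L : ℕ → IntermediateField k Ω} {W B F K : IntermediateField k Ω} {w : Fin 2 → Ω}
  {x z a : Ω} {p : ℕ} {D₀ D : Ω → Ω} {dd : Fin 2 → Ω → Ω}

/-- **The class**: critical elements of `B` with strict derivative. -/
theorem HB.cls_B [hp : Fact p.Prime] [CharP Ω p] [IsAlgClosed Ω] (h : HB p v L W B F K w x z a)
    (hB : BaseD p v W x D₀) (hd : DrvB v W B F w D dd) (hDD : ∀ y ∈ W, D y = D₀ y) {b : Ω}
    (hb : b ∈ B) (hlp : LP p v B 0 b) (hs : Gt v 0 (dd 0 b)) :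
    ∃ c : k, PG p v B 0 (b - algebraMap k Ω c * x) := by
  have hWB : W ≤ B := by
    rw [h.B_eq]
    exact le_cadj v W (w 0)
  have hBF : B ≤ F := by
    rw [h.F_eq]
    exact le_cadj v B (w 1)
  have h1 : ∀ i, Gt v 0 (dd i b) := by
    intro i
    fin_cases i
    · exact hs
    · change Gt v 0 (dd 1 b)
      rw [hd.zero_B h.tw h.B_eq hBF hb]
      exact Gt.zero
  have h2 : LP p v F 0 b := fun ε hε => by
    obtain ⟨g, hg, h3⟩ := hlp ε hε
    exact ⟨g, hBF hg, h3⟩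
  obtain ⟨c, hc⟩ := rowR12v L W B F K w x z a D₀ D dd h hB hd hDD b (hBF hb) h2 h1
  refine ⟨c, ?_⟩
  have h3 := h.F_eq
  subst h3
  exact TWII.PG.down h.tu (sub_mem hb (mul_mem (B.algebraMap_mem c) (hWB h.xW))) hc

/-- **The tie from a column.** -/
theorem HB.tieF_of_col [hp : Fact p.Prime] [CharP Ω p] [CharP k p] [IsAlgClosed Ω]
    (h : HB p v L W B F K w x z a) (hB : BaseD p v W x D₀) (hd : DrvB v W B F w D dd)
    (hDD : ∀ y ∈ W, D y = D₀ y) {g₀ : Ω} {Y : ℕ → Ω} {T : ℕ} (hg₀ : g₀ ∈ F) (hY : ∀ j, Y j ∈ B)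
    (hY0 : v.Ge 0 (Y 0)) (hYlp : ∀ j, j ≠ 0 → LP p v B 0 (Y j))
    (hYs : ∀ j, j ≠ 0 → Gt v 0 (dd 0 (Y j)))
    (hrel : PG p v K 0 (a - (g₀ + ∑ j ∈ Finset.range (T + 1), Y j * z ^ p ^ j))) :
    ∃ (e : k) (κ : ℕ → k) (n : ℕ) (a₀ : Ω), TieF p v F K x z a e κ n a₀ := by
  classical
  have hWB : W ≤ B := by
    rw [h.B_eq]
    exact le_cadj v W (w 0)
  have hBF : B ≤ F := by
    rw [h.F_eq]
    exact le_cadj v B (w 1)
  have hFK : F ≤ K := by
    rw [h.K_eq]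
    exact le_cadj v F z
  have hzK : z ∈ K := by
    rw [h.K_eq]
    exact self_mem_cadj v F z
  have hxF : x ∈ F := hBF (hWB h.xW)
  -- the decomposition of the entries
  have hdec : ∀ j, ∃ (c : k) (g s : Ω), g ∈ B ∧ Gt v 0 s ∧ (j = 0 → Y j = algebraMap k Ω c + s) ∧
      (j ≠ 0 → Y j = algebraMap k Ω c * x + g ^ p + s) := by
    intro j
    by_cases hj : j = 0
    · subst hj
      obtain ⟨c, hc⟩ := exists_rs0 h.c0 hY0
      exact ⟨c, 0, _, zero_mem B, hc, fun _ => by ring, fun h1 => absurd rfl h1⟩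
    · obtain ⟨c, g, hg, hc⟩ := h.cls_B hB hd hDD (hY j) (hYlp j hj) (hYs j hj)
      exact ⟨c, g, _, hg, hc, fun h1 => absurd h1 hj, fun _ => by ring⟩
  choose c g s hg hs hc0 hcj using hdec
  -- the approximation
  have hmar : ∀ j, ∃ μ : ℝ, 0 < μ ∧ v.Ge μ (s j) := fun j => by
    obtain ⟨μ, hμ, h1⟩ := TWLM.exists_ge_of_gt (hs j)
    rw [zero_add] at h1
    exact ⟨μ, hμ, h1⟩
  choose μ hμ hsμ using hmar
  obtain ⟨μ₀, hμ₀, hμle⟩ : ∃ μ₀ : ℝ, 0 < μ₀ ∧ ∀ j ∈ Finset.range (T + 1), μ₀ ≤ μ j := by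
    refine ⟨(Finset.range (T + 1)).inf' ⟨0, Finset.mem_range.2 (Nat.succ_pos T)⟩ μ, ?_,
      fun j hj => Finset.inf'_le _ hj⟩
    exact (Finset.lt_inf'_iff _).2 fun j _ => hμ j
  have hpT : (0 : ℝ) < p ^ T := pow_pos (by exact_mod_cast hp.out.pos) _
  obtain ⟨φ, hφ, hzφ⟩ := h.zt.lim (μ₀ / (2 * p ^ T)) (by positivity)
  have hsm : ∀ j ∈ Finset.range (T + 1), Gt v 0 (s j * (z - φ) ^ p ^ j) := by
    intro j hj
    have h1 : v.Ge (((p ^ j : ℕ) : ℝ) * (0 - μ₀ / (2 * p ^ T))) ((z - φ) ^ p ^ j) := TWM.ge_pow hzφ _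
    refine Gt.of_ge ((hsμ j).mul h1) ?_
    have hp1 : (1 : ℝ) ≤ p := by exact_mod_cast hp.out.one_lt.le
    have h2 : ((p ^ j : ℕ) : ℝ) ≤ p ^ T := by
      push_cast
      exact pow_le_pow_right₀ hp1 (by have := Finset.mem_range.1 hj; omega)
    have h3 : ((p ^ j : ℕ) : ℝ) * (μ₀ / (2 * p ^ T)) ≤ μ₀ / 2 := by
      calc ((p ^ j : ℕ) : ℝ) * (μ₀ / (2 * p ^ T)) ≤ p ^ T * (μ₀ / (2 * p ^ T)) :=
            mul_le_mul_of_nonneg_right h2 (by positivity)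
        _ = μ₀ / 2 := by field_simp
    have h4 := hμle j hj
    rw [zero_sub, mul_neg]
    linarith
  -- the new form
  set a₀ : Ω := g₀ + ∑ j ∈ Finset.range (T + 1), s j * φ ^ p ^ j with ha₀
  have hsB : ∀ j, s j ∈ F := by
    intro j
    by_cases hj : j = 0
    · have h1 : s j = Y j - algebraMap k Ω (c j) := by
        rw [hc0 j hj]
        ring
      rw [h1]
      exact sub_mem (hBF (hY j)) (F.algebraMap_mem _)
    · have h1 : s j = Y j - (algebraMap k Ω (c j) * x + g j ^ p) := by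
        rw [hcj j hj]
        ring
      rw [h1]
      exact sub_mem (hBF (hY j)) (add_mem (mul_mem (F.algebraMap_mem _) hxF)
        (pow_mem (hBF (hg j)) p))
  have ha₀F : a₀ ∈ F := add_mem hg₀ (sum_mem fun j _ => mul_mem (hsB j) (pow_mem hφ _))
  have hterm : ∀ i, Y (i + 1) * z ^ p ^ (i + 1) =
      algebraMap k Ω (c (i + 1)) * x * z ^ p ^ (i + 1) + (g (i + 1) * z ^ p ^ i) ^ p +
        (s (i + 1) * (z - φ) ^ p ^ (i + 1) + s (i + 1) * φ ^ p ^ (i + 1)) := by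
    intro i
    have h1 : (z - φ) ^ p ^ (i + 1) = z ^ p ^ (i + 1) - φ ^ p ^ (i + 1) :=
      sub_pow_char_pow z φ _
    rw [hcj (i + 1) (Nat.succ_ne_zero i), h1, mul_pow, ← pow_mul, ← pow_succ]
    ring
  have hrel2 : PG p v K 0 (a - (algebraMap k Ω (c 0) * z +
      x * ∑ i ∈ Finset.range T, algebraMap k Ω (c (i + 1)) * z ^ p ^ (i + 1) + a₀)) := by
    have hpow : PG p v K 0 ((∑ i ∈ Finset.range T, g (i + 1) * z ^ p ^ i) ^ p) :=
      ⟨_, sum_mem fun i _ => mul_mem (hFK (hBF (hg _))) (pow_mem hzK _), by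
        rw [sub_self]
        exact Gt.zero⟩
    have hsum : Gt v 0 (∑ j ∈ Finset.range (T + 1), s j * (z - φ) ^ p ^ j) :=
      Gt.sum _ _ fun j hj => hsm j hj
    have h1 := (hrel.add hpow).add (PG.of_gt (p := p) (F := K) hsum)
    have e1 : ∑ j ∈ Finset.range (T + 1), Y j * z ^ p ^ j = algebraMap k Ω (c 0) * z +
        x * ∑ i ∈ Finset.range T, algebraMap k Ω (c (i + 1)) * z ^ p ^ (i + 1) +
        (∑ i ∈ Finset.range T, g (i + 1) * z ^ p ^ i) ^ p +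
        (∑ j ∈ Finset.range (T + 1), s j * (z - φ) ^ p ^ j +
          ∑ j ∈ Finset.range (T + 1), s j * φ ^ p ^ j) := by
      rw [Finset.sum_range_succ', Finset.sum_congr rfl fun i _ => hterm i,
        Finset.sum_add_distrib, Finset.sum_add_distrib, Finset.sum_add_distrib,
        Finset.sum_range_succ' (fun j => s j * (z - φ) ^ p ^ j),
        Finset.sum_range_succ' (fun j => s j * φ ^ p ^ j), sum_pow_char, hc0 0 rfl, Finset.mul_sum]
      rw [pow_zero, pow_one, pow_one, pow_one]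
      have e2 : ∑ i ∈ Finset.range T, algebraMap k Ω (c (i + 1)) * x * z ^ p ^ (i + 1) =
          ∑ i ∈ Finset.range T, x * (algebraMap k Ω (c (i + 1)) * z ^ p ^ (i + 1)) :=
        Finset.sum_congr rfl fun i _ => by ring
      rw [e2]
      ring
    have e3 : a - (algebraMap k Ω (c 0) * z +
        x * ∑ i ∈ Finset.range T, algebraMap k Ω (c (i + 1)) * z ^ p ^ (i + 1) + a₀) =
        a - (g₀ + ∑ j ∈ Finset.range (T + 1), Y j * z ^ p ^ j) +
        (∑ i ∈ Finset.range T, g (i + 1) * z ^ p ^ i) ^ p +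
        ∑ j ∈ Finset.range (T + 1), s j * (z - φ) ^ p ^ j := by
      rw [e1, ha₀]
      ring
    rw [e3]
    exact h1
  -- the top
  by_cases hall : ∀ i < T, c (i + 1) = 0
  · exfalso
    apply h.hit
    refine ⟨Polynomial.C (algebraMap k Ω (c 0)) * Polynomial.X + Polynomial.C a₀, ?_, ?_, ?_⟩
    · exact add_mem (mul_mem (C_mem_PI (F.algebraMap_mem _)) X_mem_PI) (C_mem_PI ha₀F)
    · rw [Polynomial.eval_add, Polynomial.eval_mul, Polynomial.eval_C, Polynomial.eval_C,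
        Polynomial.eval_X]
      have e1 : ∑ i ∈ Finset.range T, algebraMap k Ω (c (i + 1)) * z ^ p ^ (i + 1) = 0 :=
        Finset.sum_eq_zero fun i hi => by rw [hall i (Finset.mem_range.1 hi), map_zero, zero_mul]
      rw [e1, mul_zero, add_zero] at hrel2
      exact hrel2
    · intro l hpl hl
      have h1 : (Polynomial.taylor z (Polynomial.C (algebraMap k Ω (c 0)) * Polynomial.X +
          Polynomial.C a₀)).coeff l = 0 := by
        refine Polynomial.coeff_eq_zero_of_natDegree_lt ?_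
        rw [Polynomial.natDegree_taylor]
        have h2 : 1 < l := lt_of_lt_of_le hp.out.one_lt (Nat.le_of_dvd (Nat.pos_of_ne_zero hl) hpl)
        refine lt_of_le_of_lt (Polynomial.natDegree_add_le _ _) (max_lt ?_ ?_)
        · refine lt_of_le_of_lt (Polynomial.natDegree_C_mul_le _ _) ?_
          rw [Polynomial.natDegree_X]
          exact h2
        · rw [Polynomial.natDegree_C]
          omega
      rw [h1]
      exact PG.of_gt Gt.zero
  · push Not at hall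
    obtain ⟨i₀, hi₀, hci₀⟩ := hall
    obtain ⟨n, hn, hnmax⟩ : ∃ n ∈ (Finset.range T).filter (fun i => c (i + 1) ≠ 0),
        ∀ i ∈ (Finset.range T).filter (fun i => c (i + 1) ≠ 0), i ≤ n := by
      have hne : ((Finset.range T).filter (fun i => c (i + 1) ≠ 0)).Nonempty :=
        ⟨i₀, Finset.mem_filter.2 ⟨Finset.mem_range.2 hi₀, hci₀⟩⟩
      exact ⟨_, Finset.max'_mem _ hne, fun i hi => Finset.le_max' _ i hi⟩
    obtain ⟨hn1, hn2⟩ := Finset.mem_filter.1 hn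
    have hPP : PP p (fun i => c (i + 1)) n z =
        ∑ i ∈ Finset.range T, algebraMap k Ω (c (i + 1)) * z ^ p ^ (i + 1) := by
      unfold PP
      refine Finset.sum_subset (Finset.range_subset_range.2 (Finset.mem_range.1 hn1))
        fun i hi hi2 => ?_
      have h1 : c (i + 1) = 0 := by
        by_contra h2
        exact hi2 (Finset.mem_range.2 (Nat.lt_succ_of_le (hnmax i (Finset.mem_filter.2 ⟨hi, h2⟩))))
      simp only [h1, map_zero, zero_mul]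
    rw [← hPP] at hrel2
    refine ⟨c 0, fun i => c (i + 1), n, a₀, hn2, ha₀F, hrel2, fun ε hε => ?_⟩
    exact tie_of_rel h.zt hxF ha₀F h.K_eq h.lp hrel2 hε

end big

section real

variable {k Ω₀ Ω : Type u} [Field k] [Field Ω₀] [Algebra k Ω₀] [Field Ω] [Algebra k Ω]
  {p : ℕ} {v₀ : RVal Ω₀} {v : RVal Ω} {ι : Ω₀ →ₐ[k] Ω} [hp : Fact p.Prime] [CharP Ω₀ p]
  [CharP Ω p] [CharP k p] [IsAlgClosed k] [IsAlgClosed Ω₀] [IsAlgClosed Ω] {x₀ : Ω₀}
  {W₀ K₀ : IntermediateField k Ω₀} {al : Ω₀} {ν : ℝ} {C F : IntermediateField k Ω₀}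
  {y u z : Ω₀} {r t s : ℝ}

omit [CharP Ω₀ p] [IsAlgClosed k] [IsAlgClosed Ω₀] in
/-- **The tie over every `GLB`** from a real additive form of `al ^ p` over `C` in `u`, `z`, when
the column of `z` has one class. -/
theorem GLB.tieF_of_af {G : AddSubgroup ℝ} {M : ℝ → Ω} {L : ℕ → IntermediateField k Ω}
    {X₀ c₁ c₂ d m cx : Ω} {D : Ω → Ω}
    (hg : GLB p v₀ v ι x₀ W₀ K₀ al ν C F y u z r t s G M L X₀ c₁ c₂ d m cx D)
    (h : RFl p v₀ v ι x₀ W₀ K₀ al ν C F y u z r t s) {b₀ : Ω₀} {x Y : ℕ → Ω₀} {S T : ℕ}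
    (haf : AF p v₀ C (clI v₀ K₀) ν (al ^ p) b₀ u t x S z s Y T) {X₁ : Ω₀} (hX₁ : X₁ ∈ clI v₀ W₀)
    (hoc : TWRR.OCol p v₀ C ν s X₁ Y) :
    ∃ (e : k) (κ : ℕ → k) (n : ℕ) (a₀ : Ω), TieF p v (PM v (tH p v₀ ι x₀ F) G M)
      (PM v (tH p v₀ ι x₀ (clI v₀ K₀)) G M) (X₀ / cx ^ p) (ι z / d) (ι (al ^ p) / m ^ p)
      e κ n a₀ := by
  have hJ := h.j
  have hp0 : (p : ℝ) ≠ 0 := by exact_mod_cast hp.out.ne_zero
  obtain ⟨π, hgrd⟩ := hg.grC
  have hWC : clI v₀ W₀ ≤ C := by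
    rw [h.C_eq]
    exact le_cadj _ _ _
  have hCF : C ≤ F := by
    rw [h.F_eq]
    exact le_cadj _ _ _
  have huF : u ∈ F := by
    rw [h.F_eq]
    exact self_mem_cadj _ _ _
  have hPC : PM v (tH p v₀ ι x₀ (clI v₀ W₀)) G M ≤ PM v (tH p v₀ ι x₀ C) G M :=
    TWS.PM.mono (tH_mono hWC)
  have hPF : PM v (tH p v₀ ι x₀ C) G M ≤ PM v (tH p v₀ ι x₀ F) G M :=
    TWS.PM.mono (tH_mono hCF)
  have hdW := hgrd.sub d hg.dS
  have hmW := hgrd.sub m hg.mS
  have hd0 : d ≠ 0 := hgrd.ne d hg.dS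
  have hm0 : m ≠ 0 := hgrd.ne m hg.mS
  have hmp0 : m ^ p ≠ 0 := pow_ne_zero p hm0
  have hvm : v (m ^ p) = ν := by
    rw [v.map_pow hm0]
    exact hg.mv
  obtain ⟨D', dd, hDr, hDD⟩ := rowR12A hg.hb hg.base
  have hdr0 := hDr.drvi 0
  have memC : ∀ {b : Ω₀}, b ∈ C → ι b ∈ PM v (tH p v₀ ι x₀ C) G M := fun hb =>
    TWS.PM.le (mem_tH hb)
  -- the scalings
  have hpow : ∀ i : ℕ, (d ^ p ^ i / m) ^ p = d ^ p ^ (i + 1) / m ^ p := fun i => by
    rw [div_pow, ← pow_mul, ← pow_succ]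
  have htW : ∀ i : ℕ, d ^ p ^ i / m ∈ PM v (tH p v₀ ι x₀ C) G M := fun i =>
    hPC (div_mem (pow_mem hdW _) hmW)
  have ht0 : ∀ i : ℕ, d ^ p ^ i / m ≠ 0 := fun i => div_ne_zero (pow_ne_zero _ hd0) hm0
  have hvt : ∀ i : ℕ, ν - p ^ (i + 1) * s + p * v (d ^ p ^ i / m) = 0 := fun i => by
    rw [v.map_div (pow_ne_zero _ hd0) hm0, v.map_pow hd0, hg.dv]
    have h1 := hg.mv
    push_cast
    rw [pow_succ]
    linarith
  have hvt' : ∀ i : ℕ, v (d ^ p ^ (i + 1) / m ^ p) = p ^ (i + 1) * s - ν := fun i => by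
    rw [v.map_div (pow_ne_zero _ hd0) hmp0, v.map_pow hd0, hg.dv, hvm]
    push_cast
    ring
  -- the entries
  have hY : ∀ j, ι (Y j) * (d ^ p ^ j / m ^ p) ∈ PM v (tH p v₀ ι x₀ C) G M := fun j =>
    mul_mem (memC (haf.c2.mem j)) (hPC (div_mem (pow_mem hdW _) (pow_mem hmW _)))
  have hY0 : v.Ge 0 (ι (Y 0) * (d ^ p ^ 0 / m ^ p)) := by
    have h1 : v.Ge (ν - s) (ι (Y 0)) := hJ.iso.ge_iff.2 haf.c2.lin
    have h2 : v.Ge (s - ν) (d ^ p ^ 0 / m ^ p) := RVal.Ge.of_le (by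
      rw [pow_zero, pow_one, v.map_div hd0 hmp0, hg.dv, hvm])
    exact (h1.mul h2).mono (by linarith)
  have hYlp : ∀ j, j ≠ 0 → LP p v (PM v (tH p v₀ ι x₀ C) G M) 0
      (ι (Y j) * (d ^ p ^ j / m ^ p)) := by
    intro j hj
    obtain ⟨i, rfl⟩ := Nat.exists_eq_succ_of_ne_zero hj
    have h1 : LP p v (tH p v₀ ι x₀ C) (ν - p ^ (i + 1) * s) (ι (Y (i + 1))) :=
      lp_tH hJ.iso (haf.c2.lev (i + 1) (Nat.succ_ne_zero i))
    have h2 : LP p v (PM v (tH p v₀ ι x₀ C) G M) (ν - p ^ (i + 1) * s) (ι (Y (i + 1))) := by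
      intro ε hε
      obtain ⟨g, hg, h3⟩ := h1 ε hε
      exact ⟨g, TWS.PM.le hg, h3⟩
    have h3 := TWCT.lp_smul (r' := 0) (htW i) (ht0 i) h2 (hvt i).symm
    rw [hpow, mul_comm] at h3
    exact h3
  have hYs : ∀ j, j ≠ 0 → Gt v 0 (dd 0 (ι (Y j) * (d ^ p ^ j / m ^ p))) := by
    intro j hj
    obtain ⟨i, rfl⟩ := Nat.exists_eq_succ_of_ne_zero hj
    obtain ⟨h1, hh1, g, hg1, hgt⟩ := hoc (i + 1) (Nat.succ_ne_zero i)
    set R : Ω₀ := Y (i + 1) - h1 ^ p * X₁ - g ^ p with hR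
    have e : ι (Y (i + 1)) * (d ^ p ^ (i + 1) / m ^ p) = (ι h1 * (d ^ p ^ i / m)) ^ p * ι X₁ +
        (ι g * (d ^ p ^ i / m)) ^ p + ι R * (d ^ p ^ (i + 1) / m ^ p) := by
      have e1 : Y (i + 1) = h1 ^ p * X₁ + g ^ p + R := by
        rw [hR]
        ring
      rw [e1, map_add, map_add, map_mul, map_pow, map_pow, mul_pow, mul_pow, hpow]
      ring
    have hX₁' : ι X₁ ∈ PM v (tH p v₀ ι x₀ (clI v₀ W₀)) G M := TWS.PM.le (mem_tH hX₁)
    have hXF : ι X₁ ∈ PM v (tH p v₀ ι x₀ F) G M := hPF (hPC hX₁')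
    have hAF : ι h1 * (d ^ p ^ i / m) ∈ PM v (tH p v₀ ι x₀ F) G M :=
      hPF (mul_mem (memC hh1) (htW i))
    have hBF : ι g * (d ^ p ^ i / m) ∈ PM v (tH p v₀ ι x₀ F) G M :=
      hPF (mul_mem (memC hg1) (htW i))
    have hRC : R ∈ C := sub_mem (sub_mem (haf.c2.mem _) (mul_mem (pow_mem hh1 p) (hWC hX₁)))
      (pow_mem hg1 p)
    have hRF : ι R * (d ^ p ^ (i + 1) / m ^ p) ∈ PM v (tH p v₀ ι x₀ F) G M :=
      hPF (mul_mem (memC hRC) (hPC (div_mem (pow_mem hdW _) (pow_mem hmW _))))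
    have hAp : dd 0 ((ι h1 * (d ^ p ^ i / m)) ^ p) = 0 := hdr0.pow_p hp.out.ne_zero hAF
    have hBp : dd 0 ((ι g * (d ^ p ^ i / m)) ^ p) = 0 := hdr0.pow_p hp.out.ne_zero hBF
    have hX0 : dd 0 (ι X₁) = 0 := hDr.ddW 0 _ hX₁'
    have h2 : dd 0 (ι (Y (i + 1)) * (d ^ p ^ (i + 1) / m ^ p)) =
        dd 0 (ι R * (d ^ p ^ (i + 1) / m ^ p)) := by
      rw [e, hdr0.add _ (add_mem (mul_mem (pow_mem hAF p) hXF) (pow_mem hBF p)) _ hRF,
        hdr0.add _ (mul_mem (pow_mem hAF p) hXF) _ (pow_mem hBF p),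
        hdr0.mul _ (pow_mem hAF p) _ hXF, hAp, hBp, hX0]
      ring
    rw [h2]
    have h3 : Gt v 0 (ι R * (d ^ p ^ (i + 1) / m ^ p)) := by
      have h4 : Gt v (ν - p ^ (i + 1) * s) (ι R) := hJ.iso.gt_iff.2 hgt
      have h5 : v.Ge (p ^ (i + 1) * s - ν) (d ^ p ^ (i + 1) / m ^ p) :=
        RVal.Ge.of_le (hvt' i).ge
      have h6 := h4.mul_ge h5
      rwa [show ν - p ^ (i + 1) * s + (p ^ (i + 1) * s - ν) = 0 by ring] at h6
    obtain ⟨μ, hμ, h4⟩ := TWLM.exists_ge_of_gt h3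
    exact Gt.of_ge (hdr0.norm _ hRF _ h4) (by linarith)
  -- the relation
  have hb : ι (b₀ + col p x u S) / m ^ p ∈ PM v (tH p v₀ ι x₀ F) G M := by
    refine div_mem (TWS.PM.le (mem_tH (add_mem (hCF haf.b0) ?_))) (pow_mem (hPF (hPC hmW)) p)
    exact sum_mem fun j _ => mul_mem (hCF (haf.c1.mem j)) (pow_mem huF _)
  refine hg.hb.tieF_of_col hg.base hDr hDD hb hY hY0 hYlp hYs (T := T) ?_
  have h1 : PG p v (tH p v₀ ι x₀ (clI v₀ K₀)) ν
      (ι (al ^ p - (b₀ + col p x u S + col p Y z T))) := by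
    obtain ⟨g, hg1, h2⟩ := haf.rel
    refine ⟨ι g, mem_tH hg1, ?_⟩
    rw [← map_pow, ← map_sub]
    exact hJ.iso.gt_iff.2 h2
  have h2 : PG p v (PM v (tH p v₀ ι x₀ (clI v₀ K₀)) G M) ν
      (ι (al ^ p - (b₀ + col p x u S + col p Y z T))) := TWII.PG.of_le TWS.PM.le h1
  obtain ⟨π', hgrd'⟩ := hg.grF
  have hmK : m ∈ PM v (tH p v₀ ι x₀ (clI v₀ K₀)) G M := by
    have hFK : F ≤ clI v₀ K₀ := by
      rw [h.K_eq]
      exact le_cadj _ _ _
    exact TWS.PM.mono (tH_mono hFK) (hPF (hPC hmW))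
  have h3 := TWCT.pg_smul (r' := 0) (inv_mem hmK) (inv_ne_zero hm0) h2 (by
    rw [v.map_inv hm0]
    have := hg.mv
    linarith)
  have e : ι (al ^ p) / m ^ p - (ι (b₀ + col p x u S) / m ^ p +
      ∑ j ∈ Finset.range (T + 1), ι (Y j) * (d ^ p ^ j / m ^ p) * (ι z / d) ^ p ^ j) =
      m⁻¹ ^ p * ι (al ^ p - (b₀ + col p x u S + col p Y z T)) := by
    have e1 : ∑ j ∈ Finset.range (T + 1), ι (Y j) * (d ^ p ^ j / m ^ p) * (ι z / d) ^ p ^ j =
        ι (col p Y z T) / m ^ p := by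
      rw [TWCT.map_col, TWN1.col, Finset.sum_div]
      refine Finset.sum_congr rfl fun j _ => ?_
      have h4 : d ^ p ^ j ≠ 0 := pow_ne_zero _ hd0
      rw [div_pow]
      field_simp
    rw [e1, map_sub, map_add ι (b₀ + col p x u S), inv_pow]
    field_simp
  rw [e]
  exact h3

end real

end Pool.Agent.TWRB
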