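import Pool.Agent.Lib.TWLG64.PlaneO
import Pool.Agent.Lib.TWCU.Astar

/-!
# RowB, `e ≠ 0`: the letters `s ^ p`, `c ^ p`

A polynomial with exponents divisible by `p` is `expand p F'`. The constructions of RowB commute with
`expand p`; `tw Ψ` is the polynomial with coefficients `Ψ_j ^ p`.
* `exists_expand`; `aeval_Lp_expand`, `aeval_shU_expand`, `Dc_expand`, `PP_expand`, `zet_expand`,
  `LL_expand`, `mp_expand`;
* `coeff_expand_iff`, `filO_expand`, `filM_expand`: coefficients and weights;
* `siz_twist`, `dnsL_twist`: `Siz`, `DnsL` for the letters, weights `p w`;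
* `tw_psi`: the displacement polynomial.
-/

set_option autoImplicit false

open MvPolynomial

namespace Pool.Agent.TWRB

open Pool.Agent.H15JM (RVal)
open Pool.Agent.LU1 (VPos)
open Pool.Agent.D2 (Ctx0)
open Pool.Agent.TWM
open Pool.Agent.TWS (IsoE SphC)
open Pool.Agent.TWLY
open Pool.Agent.TWCY
open Pool.Agent.TWCU
open Pool.Agent.TWLG64

universe u

variable {k Ω : Type u} [Field k] [Field Ω] [Algebra k Ω] {v : RVal Ω}

/-- The exponents divided by `p`. -/
noncomputable def dvx (p : ℕ) (m : Ex) : Ex := m.mapRange (· / p) (Nat.zero_div p)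

theorem smul_dvx {p : ℕ} {m : Ex} (h : ∀ i, p ∣ m i) : p • dvx p m = m := by
  ext i
  rw [Finsupp.smul_apply, dvx, Finsupp.mapRange_apply, smul_eq_mul]
  exact Nat.mul_div_cancel' (h i)

/-- **A polynomial with exponents divisible by `p`.** -/
theorem exists_expand {R : Type*} [CommSemiring R] {p : ℕ} {F : MvPolynomial (Fin 2) R}
    (h : ∀ g : Ex, (¬ ∀ i, p ∣ g i) → coeff g F = 0) : ∃ F' : MvPolynomial (Fin 2) R,
    expand p F' = F := by
  refine ⟨∑ m ∈ F.support, monomial (dvx p m) (coeff m F), ?_⟩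
  rw [map_sum]
  conv_rhs => rw [F.as_sum]
  refine Finset.sum_congr rfl fun m hm => ?_
  have h1 : ∀ i, p ∣ m i := by
    by_contra h2
    exact mem_support_iff.1 hm (h m h2)
  rw [expand_monomial, smul_dvx h1]

theorem coeff_expand_not {R : Type*} [CommSemiring R] {p : ℕ} (F : MvPolynomial (Fin 2) R)
    {g : Ex} (h : ¬ ∀ i, p ∣ g i) : coeff g (expand p F) = 0 := by
  push Not at h
  obtain ⟨i, hi⟩ := h
  exact coeff_expand_of_not_dvd F hi

/-- **Coefficients.** -/
theorem coeff_expand_iff {R : Type*} [CommSemiring R] {p : ℕ} (hp : p ≠ 0) {P : R → Prop}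
    (h0 : P 0) (F : MvPolynomial (Fin 2) R) :
    (∀ g, P (coeff g (expand p F))) ↔ ∀ g, P (coeff g F) := by
  constructor
  · intro h g
    rw [← coeff_expand_smul p hp]
    exact h _
  · intro h g
    by_cases h1 : ∀ i, p ∣ g i
    · rw [← smul_dvx h1, coeff_expand_smul p hp]
      exact h _
    · rw [coeff_expand_not F h1]
      exact h0

theorem ge_expand {p : ℕ} (hp : p ≠ 0) {r : ℝ} (F : MvPolynomial (Fin 2) Ω) :
    (∀ g, v.Ge r (coeff g (expand p F))) ↔ ∀ g, v.Ge r (coeff g F) :=
  coeff_expand_iff hp RVal.Ge.zero F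

theorem gt_expand {p : ℕ} (hp : p ≠ 0) {r : ℝ} (F : MvPolynomial (Fin 2) Ω) :
    (∀ g, Gt v r (coeff g (expand p F))) ↔ ∀ g, Gt v r (coeff g F) :=
  coeff_expand_iff hp Gt.zero F

theorem constantCoeff_expand {R : Type*} [CommSemiring R] {p : ℕ} (hp : p ≠ 0)
    (F : MvPolynomial (Fin 2) R) : constantCoeff (expand p F) = constantCoeff F := by
  rw [constantCoeff_eq]
  have h1 := coeff_expand_smul p hp F 0
  rwa [smul_zero] at h1

/-! ### Substitutions -/

/-- The Frobenius twist. -/
noncomputable def tw (p : ℕ) [Fact p.Prime] [CharP Ω p] (Ψ : Polynomial Ω) : Polynomial Ω :=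
  Ψ.map (frobenius Ω p)

theorem aeval_expand_of (p : ℕ) {R : Type*} [CommSemiring R] [Algebra R Ω]
    {L L' : Fin 2 → MvPolynomial (Fin 2) Ω} (hL : ∀ i, expand p (L' i) = L i ^ p)
    (F : MvPolynomial (Fin 2) R) :
    aeval L (expand p F) = expand p (aeval L' F) := by
  rw [aeval_expand]
  have h1 : (fun i => L i ^ p) = fun i => expand p (L' i) := funext fun i => (hL i).symm
  induction F using MvPolynomial.induction_on with
  | C a =>
    rw [← algebraMap_eq, AlgHom.commutes, AlgHom.commutes,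
      IsScalarTower.algebraMap_apply R Ω (MvPolynomial (Fin 2) Ω), algebraMap_eq, expand_C]
  | add f g hf hg => rw [map_add, map_add, map_add, hf, hg]
  | mul_X f i hf =>
    rw [map_mul, map_mul, map_mul, hf, aeval_X, aeval_X, hL i]
    rfl

section Fr

variable (p : ℕ) [hp : Fact p.Prime] [CharP Ω p]

@[simp]
theorem coeff_tw (Ψ : Polynomial Ω) (j : ℕ) : (tw p Ψ).coeff j = Ψ.coeff j ^ p := by
  rw [tw, Polynomial.coeff_map, frobenius_def]

theorem tw_add (Ψ Φ : Polynomial Ω) : tw p (Ψ + Φ) = tw p Ψ + tw p Φ := Polynomial.map_add _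

theorem tw_sub (Ψ Φ : Polynomial Ω) : tw p (Ψ - Φ) = tw p Ψ - tw p Φ := Polynomial.map_sub _

theorem tw_neg (Ψ : Polynomial Ω) : tw p (-Ψ) = -tw p Ψ := Polynomial.map_neg _

theorem tw_C (y : Ω) : tw p (Polynomial.C y) = Polynomial.C (y ^ p) := by
  rw [tw, Polynomial.map_C, frobenius_def]

theorem tw_natDegree_le (Ψ : Polynomial Ω) : (tw p Ψ).natDegree ≤ Ψ.natDegree :=
  Polynomial.natDegree_map_le

/-- The displacement polynomial. -/
theorem tw_psi (S : Ω →ₐ[k] Ω) (x y : Ω) (U : Polynomial Ω) :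
    tw p (Polynomial.C y + U.map (S : Ω →+* Ω) - U.comp (Polynomial.X + Polynomial.C x)) =
      Polynomial.C (y ^ p) + (tw p U).map (S : Ω →+* Ω) -
        (tw p U).comp (Polynomial.X + Polynomial.C (x ^ p)) := by
  rw [tw_sub, tw_add, tw_C]
  congr 1
  · congr 1
    rw [tw, tw, Polynomial.map_map, Polynomial.map_map]
    congr 1
    ext a
    simp only [RingHom.comp_apply, frobenius_def]
    exact (map_pow S a p).symm
  · rw [tw, tw, Polynomial.map_comp, Polynomial.map_add, Polynomial.map_X, Polynomial.map_C,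
      frobenius_def]

theorem expand_aeval_tw (Ψ : Polynomial Ω) :
    expand p (Polynomial.aeval (X 0 : MvPolynomial (Fin 2) Ω) (tw p Ψ)) =
      Polynomial.aeval (X 0 : MvPolynomial (Fin 2) Ω) Ψ ^ p := by
  induction Ψ using Polynomial.induction_on' with
  | add f g hf hg => rw [tw_add, map_add, map_add, map_add, hf, hg, add_pow_char]
  | monomial n c =>
    rw [tw, Polynomial.map_monomial, Polynomial.aeval_monomial, Polynomial.aeval_monomial, map_mul,
      map_pow, expand_X, algebraMap_eq, expand_C, mul_pow, ← map_pow, frobenius_def, ← pow_mul,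
      ← pow_mul, mul_comm p n]

theorem expand_Lp (x : Ω) (Ψ : Polynomial Ω) (i : Fin 2) :
    expand p ((![X 0 + C (x ^ p), X 1 + Polynomial.aeval (X 0) (tw p Ψ)] :
      Fin 2 → MvPolynomial (Fin 2) Ω) i) =
      (![X 0 + C x, X 1 + Polynomial.aeval (X 0) Ψ] : Fin 2 → MvPolynomial (Fin 2) Ω) i ^ p := by
  fin_cases i
  · change expand p (X 0 + C (x ^ p)) = (X 0 + C x) ^ p
    rw [map_add, expand_X, expand_C, add_pow_char, ← map_pow]
  · change expand p (X 1 + Polynomial.aeval (X 0) (tw p Ψ)) =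
      (X 1 + Polynomial.aeval (X 0) Ψ) ^ p
    rw [map_add, expand_X, expand_aeval_tw, add_pow_char]

/-- **The right translate in the letters.** -/
theorem aeval_Lp_expand (x : Ω) (Ψ : Polynomial Ω) (F : MvPolynomial (Fin 2) Ω) :
    aeval (![X 0 + C x, X 1 + Polynomial.aeval (X 0) Ψ] : Fin 2 → MvPolynomial (Fin 2) Ω)
      (expand p F) = expand p (aeval
        (![X 0 + C (x ^ p), X 1 + Polynomial.aeval (X 0) (tw p Ψ)] :
          Fin 2 → MvPolynomial (Fin 2) Ω) F) :=
  aeval_expand_of p (expand_Lp p x Ψ) F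

/-- **The shift in the letters.** -/
theorem aeval_shU_expand (t : Polynomial Ω) (F : MvPolynomial (Fin 2) Ω) :
    aeval (![X 0, X 1 + Polynomial.aeval (X 0) t] : Fin 2 → MvPolynomial (Fin 2) Ω)
      (expand p F) = expand p (aeval
        (![X 0, X 1 + Polynomial.aeval (X 0) (tw p t)] : Fin 2 → MvPolynomial (Fin 2) Ω) F) := by
  refine aeval_expand_of p (fun i => ?_) F
  fin_cases i
  · exact expand_X p 0
  · change expand p (X 1 + Polynomial.aeval (X 0) (tw p t)) =
      (X 1 + Polynomial.aeval (X 0) t) ^ p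
    rw [map_add, expand_X, expand_aeval_tw, add_pow_char]

theorem LL_expand (y : Fin 2 → Ω) (Φ : Polynomial Ω) (G : MvPolynomial (Fin 2) k) :
    LL k y Φ (expand p G) = expand p (LL k (fun i => y i ^ p) (tw p Φ) G) := by
  refine aeval_expand_of p (fun i => ?_) G
  fin_cases i
  · change expand p (X 0 + C (y 0 ^ p)) = (X 0 + C (y 0)) ^ p
    rw [map_add, expand_X, expand_C, add_pow_char, ← map_pow]
  · change expand p (X 1 + C (y 1 ^ p) + Polynomial.aeval (X 0) (tw p Φ)) =
      (X 1 + C (y 1) + Polynomial.aeval (X 0) Φ) ^ p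
    rw [map_add, map_add, expand_X, expand_C, expand_aeval_tw, add_pow_char, add_pow_char,
      MvPolynomial.C_pow]

end Fr

theorem Dc_expand {p : ℕ} (hp : p ≠ 0) {d : Ω → Ω} (h0 : d 0 = 0) (F : MvPolynomial (Fin 2) Ω) :
    Dc d (expand p F) = expand p (Dc d F) := by
  ext g
  rw [coeff_Dc' h0]
  by_cases h1 : ∀ i, p ∣ g i
  · rw [← smul_dvx h1, coeff_expand_smul p hp, coeff_expand_smul p hp, coeff_Dc' h0]
  · rw [coeff_expand_not F h1, coeff_expand_not _ h1, h0]

theorem PP_expand (p : ℕ) (κ : ℕ → k) (t : ℕ) (q : ℕ) (F : MvPolynomial (Fin 2) Ω) :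
    PP p κ t (expand q F) = expand q (PP p κ t F) :=
  (PP_map ((expand q : MvPolynomial (Fin 2) Ω →ₐ[Ω] _).restrictScalars k) F).symm

theorem PP_expand' (p : ℕ) (κ : ℕ → k) (t : ℕ) (q : ℕ) (F : MvPolynomial (Fin 2) k) :
    PP p κ t (expand q F) = expand q (PP p κ t F) :=
  (PP_map (expand q : MvPolynomial (Fin 2) k →ₐ[k] _) F).symm

theorem mp_expand (p : ℕ) (N : MvPolynomial (Fin 2) k) : mp Ω (expand p N) = expand p (mp Ω N) := by
  rw [mp]
  exact map_expand p _ N

/-- **`ζ` in the letters.** -/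
theorem zet_expand (p : ℕ) (S : Ω →ₐ[k] Ω) {L L' : Fin 2 → MvPolynomial (Fin 2) Ω}
    (hL : ∀ i, expand p (L' i) = L i ^ p) (Za : Ω) (Z : MvPolynomial (Fin 2) Ω) :
    zet S L Za (expand p Z) = expand p (zet S L' Za Z) := by
  unfold zet
  rw [map_sub, map_add, expand_C, map_expand, aeval_expand_of p hL]

theorem zet_Lp_expand (p : ℕ) [Fact p.Prime] [CharP Ω p] (S : Ω →ₐ[k] Ω) (x : Ω)
    (Ψ : Polynomial Ω) (Za : Ω) (Z : MvPolynomial (Fin 2) Ω) :
    zet S (![X 0 + C x, X 1 + Polynomial.aeval (X 0) Ψ] : Fin 2 → MvPolynomial (Fin 2) Ω) Za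
      (expand p Z) = expand p (zet S
        (![X 0 + C (x ^ p), X 1 + Polynomial.aeval (X 0) (tw p Ψ)] :
          Fin 2 → MvPolynomial (Fin 2) Ω) Za Z) :=
  zet_expand p S (expand_Lp p x Ψ) Za Z

/-! ### Weights -/

theorem wt_twist (p : ℕ) (w : Fin 2 → ℝ) (m : Ex) :
    wt (fun i => (p : ℝ) * w i) m = wt w (p • m) := by
  rw [wt_smul]
  simp only [wt]
  ring

theorem filO_expand {p : ℕ} (hp : p ≠ 0) {w : Fin 2 → ℝ} {ε e : ℝ}
    (F : MvPolynomial (Fin 2) Ω) :
    FilO v w ε e (expand p F) ↔ FilO v (fun i => (p : ℝ) * w i) ε e F := by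
  constructor
  · intro h β
    rw [wt_twist, ← coeff_expand_smul p hp]
    exact h _
  · intro h β
    by_cases h1 : ∀ i, p ∣ β i
    · have h2 := h (dvx p β)
      rw [wt_twist, ← coeff_expand_smul p hp, smul_dvx h1] at h2
      exact h2
    · rw [coeff_expand_not F h1]
      exact RVal.Ge.zero

theorem filM_expand {p : ℕ} (hp : p ≠ 0) {w : Fin 2 → ℝ} {e : ℝ}
    (F : MvPolynomial (Fin 2) Ω) :
    FilM v w e (expand p F) ↔ FilM v (fun i => (p : ℝ) * w i) e F := by
  constructor
  · intro h β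
    rw [wt_twist, ← coeff_expand_smul p hp]
    exact h _
  · intro h β
    by_cases h1 : ∀ i, p ∣ β i
    · have h2 := h (dvx p β)
      rw [wt_twist, ← coeff_expand_smul p hp, smul_dvx h1] at h2
      exact h2
    · rw [coeff_expand_not F h1]
      exact ⟨fun _ => RVal.Ge.zero, fun _ h2 => absurd rfl h2⟩

section Tw

variable (p : ℕ) [hp : Fact p.Prime] [CharP Ω p] {w : Fin 2 → ℝ} {y : Fin 2 → Ω}
  {Φ : Polynomial Ω}

theorem siz_twist (h : Siz v w y Φ) :
    Siz v (fun i => (p : ℝ) * w i) (fun i => y i ^ p) (tw p Φ) where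
  y := fun i => by
    have h1 := ge_pow (h.y i) p
    rwa [mul_neg] at h1
  phi := fun j => by
    have h1 := ge_pow (h.phi j) p
    rw [coeff_tw]
    refine h1.mono (le_of_eq ?_)
    ring

theorem LL_frob [CharP k p] (H : MvPolynomial (Fin 2) k) :
    MvPolynomial.map (frobenius Ω p) (LL k y Φ H) =
      LL k (fun i => y i ^ p) (tw p Φ) (MvPolynomial.map (frobenius k p) H) := by
  have h1 : Polynomial.aeval (X 0 : MvPolynomial (Fin 2) Ω) (tw p Φ) =
      MvPolynomial.map (frobenius Ω p) (Polynomial.aeval (X 0 : MvPolynomial (Fin 2) Ω) Φ) := by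
    induction Φ using Polynomial.induction_on' with
    | add f g hf hg => rw [tw_add, map_add, map_add, map_add, hf, hg]
    | monomial n c =>
      rw [tw, Polynomial.map_monomial, Polynomial.aeval_monomial, Polynomial.aeval_monomial,
        map_mul, map_pow, map_X, algebraMap_eq, map_C]
  induction H using MvPolynomial.induction_on with
  | C a =>
    rw [map_C, ← algebraMap_eq, AlgHom.commutes, AlgHom.commutes,
      IsScalarTower.algebraMap_apply k Ω (MvPolynomial (Fin 2) Ω),
      IsScalarTower.algebraMap_apply k Ω (MvPolynomial (Fin 2) Ω), algebraMap_eq, map_C,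
      frobenius_def, frobenius_def, map_pow, map_pow, map_pow]
  | add f g hf hg => rw [map_add, map_add, hf, hg, map_add, map_add]
  | mul_X f i hf =>
    rw [map_mul, map_mul, hf, map_mul, map_mul, map_X]
    congr 1
    fin_cases i
    · simp [LL, frobenius_def]
    · simp [LL, h1, frobenius_def]

/-- **`DnsL` for the letters.** -/
theorem dnsL_twist [CharP k p] [IsAlgClosed k] (h : DnsL k v w y Φ) :
    DnsL k v (fun i => (p : ℝ) * w i) (fun i => y i ^ p) (tw p Φ) := by
  intro d' hd H hiso hinv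
  have hp0 : (0 : ℝ) < p := by exact_mod_cast hp.out.pos
  have hroot : ∀ a : k, ∃ b : k, b ^ p = a ∧ (a = 0 → b = 0) := by
    intro a
    obtain ⟨b, hb⟩ := IsAlgClosed.exists_pow_nat_eq a hp.out.pos
    refine ⟨b, hb, fun h0 => ?_⟩
    rw [h0] at hb
    exact eq_zero_of_pow_eq_zero hb
  choose rt hrt hrt0 using hroot
  set H' : MvPolynomial (Fin 2) k := ∑ m ∈ H.support, monomial m (rt (coeff m H)) with hH'
  have hc : ∀ m, coeff m H' = rt (coeff m H) := by
    classical
    intro m
    rw [hH', coeff_sum]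
    simp_rw [coeff_monomial]
    rw [Finset.sum_ite_eq']
    split_ifs with h1
    · rfl
    · rw [notMem_support_iff.1 h1, hrt0 0 rfl]
  have hmap : MvPolynomial.map (frobenius k p) H' = H := by
    ext m
    rw [coeff_map, hc, frobenius_def, hrt]
  have hwt : ∀ m : Ex, wt (fun i => (p : ℝ) * w i) m = p * wt w m := fun m => by
    simp only [wt]
    ring
  have h0 : H' = 0 := by
    refine h (d' / p) (by positivity) H' (fun m hm => ?_) (fun be hbe => ?_)
    · have h1 : m ∈ H.support := by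
        rw [mem_support_iff] at hm ⊢
        intro h2
        apply hm
        rw [hc, h2, hrt0 0 rfl]
      have h2 := hiso m h1
      rw [hwt] at h2
      rw [← h2]
      field_simp
    · have hbe' : wt (fun i => (p : ℝ) * w i) be < d' := by
        rw [hwt]
        rwa [lt_div_iff₀ hp0, mul_comm] at hbe
      have h1 := hinv be hbe'
      rw [← hmap, ← LL_frob p, hwt, coeff_map, frobenius_def] at h1
      intro h3
      have h4 := h1 (pow_ne_zero _ h3)
      rw [v.map_pow h3] at h4
      have h6 : (p : ℝ) * (wt w be - d' / p) = p * wt w be - d' := by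
        field_simp
      have h5 : (p : ℝ) * (wt w be - d' / p) < p * v (coeff be (LL k y Φ H')) := by
        rw [h6]
        exact h4
      exact lt_of_mul_lt_mul_left h5 hp0.le
  rw [← hmap, h0, map_zero]

end Tw

end Pool.Agent.TWRB
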