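import Pool.Agent.Lib.TWRB.Twist
import Pool.Agent.Lib.TWRB.Sub

/-!
# RowB, `e ≠ 0`: the letters `s ^ p`, `c ^ p`, for the constructions of `Sub`

* `shU_expand`, `Lp_expand`, `zetLp_expand`, `dt_expand`: the constructions in the letters;
* `psi_tw`, `tw_map`: the displacement polynomial;
* `lim_pow`: limits.
-/

set_option autoImplicit false

open MvPolynomial

namespace Pool.Agent.TWRB

open Pool.Agent.H15JM (RVal)
open Pool.Agent.D2 (Ctx0)
open Pool.Agent.TWM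
open Pool.Agent.TWLY
open Pool.Agent.TWCY
open Pool.Agent.TWCU

universe u

variable {k Ω : Type u} [Field k] [Field Ω] [Algebra k Ω] {v : RVal Ω}
  (p : ℕ) [hp : Fact p.Prime] [CharP Ω p]

theorem shU_expand (t : Polynomial Ω) (F : MvPolynomial (Fin 2) Ω) :
    shU t (expand p F) = expand p (shU (tw p t) F) :=
  aeval_shU_expand p t F

theorem Lp_expand (x : Ω) (Ψ : Polynomial Ω) (F : MvPolynomial (Fin 2) Ω) :
    aeval (Lp x Ψ) (expand p F) = expand p (aeval (Lp (x ^ p) (tw p Ψ)) F) :=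
  aeval_Lp_expand p x Ψ F

theorem zetLp_expand (S : Ω →ₐ[k] Ω) (x : Ω) (Ψ : Polynomial Ω) (Za : Ω)
    (Z : MvPolynomial (Fin 2) Ω) :
    zet S (Lp x Ψ) Za (expand p Z) = expand p (zet S (Lp (x ^ p) (tw p Ψ)) Za Z) :=
  zet_Lp_expand p S x Ψ Za Z

theorem tw_map (S : Ω →ₐ[k] Ω) (U : Polynomial Ω) :
    tw p (U.map (S : Ω →+* Ω)) = (tw p U).map (S : Ω →+* Ω) := by
  ext j
  rw [coeff_tw, Polynomial.coeff_map, Polynomial.coeff_map, coeff_tw, map_pow]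

theorem psi_tw (S : Ω →ₐ[k] Ω) (x y : Ω) (U : Polynomial Ω) :
    tw p (psi S x y U) = psi S (x ^ p) (y ^ p) (tw p U) :=
  tw_psi p S x y U

/-- **The twisted functional in the letters.** -/
theorem dt_expand {d : Ω → Ω} (h0 : d 0 = 0) (t : Polynomial Ω) (F : MvPolynomial (Fin 2) Ω) :
    dt d t (expand p F) = expand p (dt d (tw p t) F) := by
  unfold dt
  rw [shU_expand, Dc_expand hp.out.ne_zero h0, shU_expand, tw_neg]

/-- **(a*) in the letters.** -/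
theorem astar_expand {d : Ω → Ω} (h0 : d 0 = 0) (τ : Ω →ₐ[k] Ω) (x y Za : Ω) (U : Polynomial Ω)
    (Z : MvPolynomial (Fin 2) Ω) :
    aeval (Lp x (psi τ x y U)) (dt d U (expand p Z)) +
        dt d (U.map (τ : Ω →+* Ω)) (zet τ (Lp x (psi τ x y U)) Za (expand p Z)) =
      expand p (aeval (Lp (x ^ p) (psi τ (x ^ p) (y ^ p) (tw p U))) (dt d (tw p U) Z) +
        dt d ((tw p U).map (τ : Ω →+* Ω))
          (zet τ (Lp (x ^ p) (psi τ (x ^ p) (y ^ p) (tw p U))) Za Z)) := by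
  rw [dt_expand p h0, Lp_expand, zetLp_expand, dt_expand p h0, tw_map, psi_tw, map_add]

theorem astar_expand_ge {d : Ω → Ω} (h0 : d 0 = 0) (τ : Ω →ₐ[k] Ω) (x y Za : Ω)
    (U : Polynomial Ω) (Z : MvPolynomial (Fin 2) Ω) {r : ℝ} :
    (∀ g, v.Ge r (coeff g (aeval (Lp x (psi τ x y U)) (dt d U (expand p Z)) +
        dt d (U.map (τ : Ω →+* Ω)) (zet τ (Lp x (psi τ x y U)) Za (expand p Z))))) ↔
      ∀ g, v.Ge r (coeff g (aeval (Lp (x ^ p) (psi τ (x ^ p) (y ^ p) (tw p U)))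
        (dt d (tw p U) Z) + dt d ((tw p U).map (τ : Ω →+* Ω))
          (zet τ (Lp (x ^ p) (psi τ (x ^ p) (y ^ p) (tw p U))) Za Z))) := by
  rw [astar_expand p h0]
  exact ge_expand hp.out.ne_zero _

/-- **(b*) in the letters.** -/
theorem bstar_expand {κ : ℕ → k} {t : ℕ} {D : Ω → Ω} (h0 : D 0 = 0) (e : k) (ξ : Ω)
    (τ : Ω →ₐ[k] Ω) (x y Za : Ω) (U : Polynomial Ω) (Γ Z : MvPolynomial (Fin 2) Ω) :
    aeval (Lp x (psi τ x y U)) (expand p Γ) +
        C ξ * PP p κ t (zet τ (Lp x (psi τ x y U)) Za (expand p Z)) +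
        C (algebraMap k Ω e) * dt D (U.map (τ : Ω →+* Ω))
          (zet τ (Lp x (psi τ x y U)) Za (expand p Z)) =
      expand p (aeval (Lp (x ^ p) (psi τ (x ^ p) (y ^ p) (tw p U))) Γ +
        C ξ * PP p κ t (zet τ (Lp (x ^ p) (psi τ (x ^ p) (y ^ p) (tw p U))) Za Z) +
        C (algebraMap k Ω e) * dt D ((tw p U).map (τ : Ω →+* Ω))
          (zet τ (Lp (x ^ p) (psi τ (x ^ p) (y ^ p) (tw p U))) Za Z)) := by
  rw [Lp_expand, zetLp_expand, dt_expand p h0, PP_expand, tw_map, psi_tw]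
  simp only [map_add, map_mul, expand_C]

theorem bstar_expand_ge {κ : ℕ → k} {t : ℕ} {D : Ω → Ω} (h0 : D 0 = 0) (e : k) (ξ : Ω)
    (τ : Ω →ₐ[k] Ω) (x y Za : Ω) (U : Polynomial Ω) (Γ Z : MvPolynomial (Fin 2) Ω) {r : ℝ} :
    (∀ g, v.Ge r (coeff g (aeval (Lp x (psi τ x y U)) (expand p Γ) +
        C ξ * PP p κ t (zet τ (Lp x (psi τ x y U)) Za (expand p Z)) +
        C (algebraMap k Ω e) * dt D (U.map (τ : Ω →+* Ω))
          (zet τ (Lp x (psi τ x y U)) Za (expand p Z))))) ↔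
      ∀ g, v.Ge r (coeff g (aeval (Lp (x ^ p) (psi τ (x ^ p) (y ^ p) (tw p U))) Γ +
        C ξ * PP p κ t (zet τ (Lp (x ^ p) (psi τ (x ^ p) (y ^ p) (tw p U))) Za Z) +
        C (algebraMap k Ω e) * dt D ((tw p U).map (τ : Ω →+* Ω))
          (zet τ (Lp (x ^ p) (psi τ (x ^ p) (y ^ p) (tw p U))) Za Z))) := by
  rw [bstar_expand p h0]
  exact ge_expand hp.out.ne_zero _

end Pool.Agent.TWRB
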