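import Pool.Agent.Lib.TWRA.GlA
import Pool.Agent.Lib.TWRA.Mv
import Pool.Agent.Lib.TWCT.HDupB
import Pool.Agent.Lib.TWCY.Base
import Pool.Agent.Lib.TWCY.BX
import Pool.Agent.Lib.TWRB.Core

/-!
# CT, row B: from the real fields to the big field

* `RDB`: the real data of `RowB`; `UPB`: the data in the big field, with the scales;
* `RDB.exists_up`: they exist; `HDB.hb`, `UPB.hB`: `HB`.
-/

set_option autoImplicit false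

open MvPolynomial

namespace Pool.Agent.TWRB

open Pool.Agent.H15JM (RVal)
open Pool.Agent.LU1 (VPos)
open Pool.Agent.D2 (Ctx0)
open Pool.Agent.D2P (clI)
open Pool.Agent.TWM
open Pool.Agent.TWS (IsoE SphC TowR PM VG)
open Pool.Agent.TWII (PG LP)
open Pool.Agent.TWRR (GP)
open Pool.Agent.TWCT (ConS MovV MovR J1D tH RowB GsM Chn HDB Hit tl_tH dense_pm mono_pm)
open Pool.Agent.TWCY (BaseD BX)
open Pool.Agent.TWRA (Mn mn_mem exists_mn exists_gl)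

universe u

variable {k Ω₀ Ω : Type u} [Field k] [Field Ω₀] [Algebra k Ω₀] [Field Ω] [Algebra k Ω]

/-- **The real data of `RowB`.** -/
structure RDB (p : ℕ) (v₀ : RVal Ω₀) (v : RVal Ω) (ι : Ω₀ →ₐ[k] Ω) (x₀ : Ω₀)
    (W₀ K₀ : IntermediateField k Ω₀) (al : Ω₀) (ν : ℝ) (y u z : Ω₀) (r t s : ℝ) : Prop where
  j1d : J1D p v₀ v ι x₀ W₀ K₀ al ν
  yt : TL v₀ (clI v₀ W₀) y r
  ut : TL v₀ (cadj v₀ (clI v₀ W₀) y) u t
  zt : TL v₀ (cadj v₀ (cadj v₀ (clI v₀ W₀) y) u) z s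
  K_eq : clI v₀ K₀ = cadj v₀ (cadj v₀ (cadj v₀ (clI v₀ W₀) y) u) z
  npar : ∀ g ∈ cadj v₀ (clI v₀ W₀) y, ¬ Lim v₀ (clI v₀ W₀) t (u - g)
  nh : ¬ Hit p v₀ (cadj v₀ (clI v₀ W₀) y) u t

/-- **The data in the big field, with the scales.** -/
structure UPB (p : ℕ) (v₀ : RVal Ω₀) (v : RVal Ω) (ι : Ω₀ →ₐ[k] Ω) (x₀ : Ω₀)
    (W₀ K₀ : IntermediateField k Ω₀) (al : Ω₀) (ν : ℝ) (y u z : Ω₀) (r t s : ℝ)
    (G : AddSubgroup ℝ) (M : ℝ → Ω) (L : ℕ → IntermediateField k Ω) (X₀ d m cx c₁ c₂ : Ω)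
    (D : Ω → Ω) : Prop where
  gs : GsM v (tH p v₀ ι x₀ (clI v₀ W₀)) G M
  div : ∀ n : ℕ, n ≠ 0 → ∀ g ∈ G, g / n ∈ G
  top : VG v (tH p v₀ ι x₀ (clI v₀ W₀)) ⊔ G = ⊤
  chn : Chn p v₀ v ι x₀ (clI v₀ W₀) L
  con : ConS v L (tH p v₀ ι x₀ (clI v₀ W₀)) (tH p v₀ ι x₀ (clI v₀ W₀))
  X_mem : X₀ ∈ (clI v₀ W₀).map ι
  dS : d ∈ Mn p (ι x₀) ((clI v₀ W₀).map ι) G M
  mS : m ∈ Mn p (ι x₀) ((clI v₀ W₀).map ι) G M
  cS : cx ∈ Mn p (ι x₀) ((clI v₀ W₀).map ι) G M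
  c1S : c₁ ∈ Mn p (ι x₀) ((clI v₀ W₀).map ι) G M
  c2S : c₂ ∈ Mn p (ι x₀) ((clI v₀ W₀).map ι) G M
  dv : v d = s
  mv : p * v m = ν
  c1v : v c₁ = r
  c2v : v c₂ = t
  hb : HDB p v (fun J => PM v (L J) G M) (PM v (tH p v₀ ι x₀ (clI v₀ W₀)) G M)
    (PM v (tH p v₀ ι x₀ (cadj v₀ (clI v₀ W₀) y)) G M)
    (PM v (tH p v₀ ι x₀ (cadj v₀ (cadj v₀ (clI v₀ W₀) y) u)) G M)
    (PM v (tH p v₀ ι x₀ (clI v₀ K₀)) G M)
    (ι y / c₁) (ι u / c₂) (ι z / d) (ι (al ^ p) / m ^ p)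
  xW : X₀ / cx ^ p ∈ PM v (tH p v₀ ι x₀ (clI v₀ W₀)) G M
  base : BaseD p v (PM v (tH p v₀ ι x₀ (clI v₀ W₀)) G M) (X₀ / cx ^ p) D
  mov : MovV v (fun J => PM v (L J) G M) (PM v (tH p v₀ ι x₀ (clI v₀ W₀)) G M) (ι y / c₁) 0 ∨
    MovR v (fun J => PM v (L J) G M) (PM v (tH p v₀ ι x₀ (clI v₀ W₀)) G M) (ι y / c₁) 0

variable {p : ℕ} {v₀ : RVal Ω₀} {v : RVal Ω} {ι : Ω₀ →ₐ[k] Ω} {x₀ : Ω₀}
  {W₀ K₀ : IntermediateField k Ω₀} {al : Ω₀} {ν : ℝ} {y u z : Ω₀} {r t s : ℝ}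

/-- `HB`. -/
theorem HDB.hb {L : ℕ → IntermediateField k Ω} {W C F K : IntermediateField k Ω}
    {w u x z a : Ω} (h : HDB p v L W C F K w u z a) (hx : x ∈ W)
    (hm : MovV v L W w 0 ∨ MovR v L W w 0) : HB p v L W C F K ![w, u] x z a where
  c0 := h.c0
  cv := h.cv
  sph := h.sph
  hval := h.hval
  cld := h.cld
  full := h.full
  gp := h.gp
  xW := hx
  mono := h.mono
  le := h.le
  dense := h.dense
  tw := h.yt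
  B_eq := h.C_eq
  tu := h.ut
  F_eq := h.F_eq
  nh := h.nhit
  npar := h.nlim
  zt := h.zt
  K_eq := h.K_eq
  aK := h.aK
  lp := h.lp
  crit := h.crit
  hit := h.unh
  mv := hm

theorem RDB.tow (h : RDB p v₀ v ι x₀ W₀ K₀ al ν y u z r t s) :
    TowR v₀ 2 (cadj v₀ (clI v₀ W₀) y) (clI v₀ K₀) := by
  rw [h.K_eq]
  exact TowR.succ h.ut (TowR.succ h.zt (TowR.zero (cld_cadj _ _ _)))

/-- **`HB`** in the big field. -/
theorem UPB.hB {G : AddSubgroup ℝ} {M : ℝ → Ω} {L : ℕ → IntermediateField k Ω}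
    {X₀ d m cx c₁ c₂ : Ω} {D : Ω → Ω}
    (h : UPB p v₀ v ι x₀ W₀ K₀ al ν y u z r t s G M L X₀ d m cx c₁ c₂ D) :
    HB p v (fun J => PM v (L J) G M) (PM v (tH p v₀ ι x₀ (clI v₀ W₀)) G M)
      (PM v (tH p v₀ ι x₀ (cadj v₀ (clI v₀ W₀) y)) G M)
      (PM v (tH p v₀ ι x₀ (cadj v₀ (cadj v₀ (clI v₀ W₀) y) u)) G M)
      (PM v (tH p v₀ ι x₀ (clI v₀ K₀)) G M)
      ![ι y / c₁, ι u / c₂] (X₀ / cx ^ p) (ι z / d) (ι (al ^ p) / m ^ p) :=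
  HDB.hb h.hb h.xW h.mov

variable [hp : Fact p.Prime] [CharP Ω₀ p] [CharP Ω p] [CharP k p] [IsAlgClosed k]
  [IsAlgClosed Ω₀] [IsAlgClosed Ω]

/-- **The data in the big field.** -/
theorem RDB.exists_up (h : RDB p v₀ v ι x₀ W₀ K₀ al ν y u z r t s) :
    ∃ (G : AddSubgroup ℝ) (M : ℝ → Ω) (L : ℕ → IntermediateField k Ω) (X₀ d m cx c₁ c₂ : Ω)
      (D : Ω → Ω),
      UPB p v₀ v ι x₀ W₀ K₀ al ν y u z r t s G M L X₀ d m cx c₁ c₂ D := by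
  have hJ := h.j1d
  have hp0 : (p : ℝ) ≠ 0 := by exact_mod_cast hp.out.ne_zero
  obtain ⟨G, M, L, hG, hdiv, htop, -, hL, hcon⟩ := exists_gl hJ
  obtain ⟨X₀, hX, hBX⟩ := hJ.exists_bx_pm hG hdiv
  have hall := exists_mn hJ hG.ms htop
  have hS : ∀ {c : Ω}, c ∈ Mn p (ι x₀) ((clI v₀ W₀).map ι) G M →
      c ∈ PM v (tH p v₀ ι x₀ (clI v₀ W₀)) G M ∧ c ≠ 0 := fun h => mn_mem hG.ms h
  obtain ⟨d, hd, hdv⟩ := hall s
  obtain ⟨c₁, hc1, hc1v⟩ := hall r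
  obtain ⟨c₂, hc2, hc2v⟩ := hall t
  obtain ⟨m, hm, hmv⟩ := hall (ν / p)
  have hmν : p * v m = ν := by
    rw [hmv]
    field_simp
  have hgp : GP p v (PM v (tH p v₀ ι x₀ (clI v₀ W₀)) G M) := TWCT.gp_of_div hJ.c0 fun g hg => by
    obtain ⟨c, hc, hcv⟩ := hall (g / p)
    exact ⟨c, (hS hc).1, (hS hc).2, hcv⟩
  obtain ⟨cx, hcx, D, hD⟩ := hBX.exists_base_of hJ.c0 TWS.PM.cld hgp (fun c hc => (hS hc).1)
    (fun c hc => (hS hc).2) hall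
  have hWW : (clI v₀ W₀).map ι ≤ PM v (tH p v₀ ι x₀ (clI v₀ W₀)) G M := by
    rintro _ ⟨a, ha, rfl⟩
    exact TWS.PM.le (TWCT.mem_tH ha)
  have hb := hJ.hdb hL h.yt rfl h.ut rfl h.zt h.K_eq h.npar h.nh hG (hdiv p hp.out.ne_zero) htop
    (hS hc1).1 (hS hc1).2 hc1v (hS hc2).1 (hS hc2).2 hc2v (hS hd).1 (hS hd).2 hdv (hS hm).1
    (hS hm).2 hmν
  -- the motions of the first floor
  have htl : TL v (tH p v₀ ι x₀ (clI v₀ W₀)) (ι y) r := tl_tH hJ.iso hJ.xW h.yt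
  have htl' : TL v (PM v (tH p v₀ ι x₀ (clI v₀ W₀)) G M) (ι y) r :=
    TWS.TL.pm hG.monG (Imm.refl _) htl
  have hmono : Monotone fun J => PM v (L J) G M := mono_pm hL.mono
  have hle : ∀ J, PM v (L J) G M ≤ PM v (tH p v₀ ι x₀ (clI v₀ W₀)) G M := fun J =>
    TWS.PM.mono (hL.le J)
  have hde := dense_pm (G := G) (M := M) hL.dense
  have hmov : MovV v (fun J => PM v (L J) G M) (PM v (tH p v₀ ι x₀ (clI v₀ W₀)) G M)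
      (ι y / c₁) 0 ∨ MovR v (fun J => PM v (L J) G M) (PM v (tH p v₀ ι x₀ (clI v₀ W₀)) G M)
      (ι y / c₁) 0 := by
    have e : (0 : ℝ) = r - v c₁ := by rw [hc1v, sub_self]
    rw [e]
    rcases hJ.mvs hL hcon h.yt h.tow with h1 | h1
    · exact Or.inl (TWRA.MovV.scale hJ.c0 hJ.sph hJ.val hJ.cw hmono hle hde htl' (hS hc1).1
        (hS hc1).2 (TWCT.MovV.pm hJ.c0 hJ.sph hJ.val hJ.cw hL.le hG htl h1))
    · exact Or.inr (TWRA.MovR.scale hJ.c0 hJ.sph hJ.val hJ.cw hmono hle hde htl' (hS hc1).1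
        (hS hc1).2 (TWCT.MovR.pm hJ.c0 hJ.sph hJ.val hJ.cw hL.le hG htl h1))
  exact ⟨G, M, L, X₀, d, m, cx, c₁, c₂, D,
    { gs := hG
      div := hdiv
      top := htop
      chn := hL
      con := hcon
      X_mem := hX
      dS := hd
      mS := hm
      cS := hcx
      c1S := hc1
      c2S := hc2
      dv := hdv
      mv := hmν
      c1v := hc1v
      c2v := hc2v
      hb := hb
      xW := div_mem (hWW hX) (pow_mem (hS hcx).1 p)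
      base := hD
      mov := hmov }⟩

end Pool.Agent.TWRB
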