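import Pool.Agent.Lib.TWRB.VisA

/-!
# RowB, R7: the weights of a visible position, II

* `exists_vis`: if a late motion has a visible position then, in every system of coordinates `Sh a f`,
  `|a| ≤ r₁`, `0 < r₁` and the noises of `U` are in degrees `j` with `j |a| < r₁`; `r₁` is any threshold
  for the coefficients of `Sh a f Ψ`, known up to `O_0`.
-/

set_option autoImplicit false

namespace Pool.Agent.TWRB

open Polynomial
open Pool.Agent.H15JM (RVal)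
open Pool.Agent.D2 (Ctx0)
open Pool.Agent.D2P (clI)
open Pool.Agent.TWM
open Pool.Agent.TWS (IsoE SphC)
open Pool.Agent.TWLG76 (Sh Sh_coeff)
open Pool.Agent.TWLG0 (exists_cocL two_le_min bs_zero)

universe u

variable {k Ω : Type u} [Field k] [Field Ω] [Algebra k Ω] {v : RVal Ω}

/-- **The weights of a visible position.** -/
theorem exists_vis [IsAlgClosed k] [IsAlgClosed Ω] (hk : Ctx0 k v) (hsp : SphC v)
    {L : ℕ → IntermediateField k Ω} {W B : IntermediateField k Ω}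
    (full : ∀ r : ℝ, ∃ y ∈ W, y ≠ 0 ∧ v y = r) (hL : Monotone L) (hd : W ≤ clI v (⨆ J, L J))
    {w : Fin 2 → Ω} (hw : TL v W (w 0) 0) (hB : B = cadj v W (w 0)) (hu : TL v B (w 1) 0)
    (npar : ∀ g ∈ B, ¬ Lim v W 0 (w 1 - g)) {T : (Fin 2 → k) → Ω →ₐ[k] Ω} {U : Polynomial Ω}
    (iso : ∀ c, IsoE v v (T c)) (fix : ∀ c, ∀ f ∈ W, T c f = f)
    (Tw : ∀ c, T c (w 0) = w 0 + algebraMap k Ω (c 0))
    (Tu : ∀ c, T c (w 1) = w 1 + U.eval (algebraMap k Ω (c 0)) + algebraMap k Ω (c 1))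
    (U0 : U.coeff 0 = 0) (Ul : ∀ j, Lim v B 0 (U.coeff j))
    (att : ∀ j, ∀ g ∈ B, v.Ge 0 (U.coeff j - g) → U.coeff j ∈ B) :
    ∃ J₀ : ℕ, ∀ J ≥ J₀, ∀ τ : Ω →ₐ[k] Ω, IsoE v v τ → (∀ y ∈ L J, τ y = y) →
      ∀ a b : Ω, a ∈ W → b ∈ B → τ (w 0) = w 0 + a → ∀ r₀ : ℝ, 0 ≤ r₀ →
      (0 < r₀ → a ≠ 0 ∧ v a = -r₀) → v.Ge (-r₀) a →
      ¬ (v.Ge 0 a ∧ ∀ j, v.Ge 0 ((PsiA τ a b U).coeff j)) →
      ∀ (f : k[X]) (r₁ : ℝ), 0 ≤ r₁ →
      (∀ j : ℕ, v.Ge (min 0 (-(r₁ - j * r₀))) ((Sh a f (PsiA τ a b U)).coeff j)) →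
      r₀ ≤ r₁ ∧ 0 < r₁ ∧ ∀ j : ℕ, U.coeff j ∈ B ∨ j * r₀ < r₁ := by
  have : Infinite k := IsAlgClosed.instInfinite
  have hWB : W ≤ B := by
    rw [hB]
    exact le_cadj v W (w 0)
  have imm : ∀ y : Ω, y ≠ 0 → ∃ a ∈ B, Gt v (v y) (y - a) := imm_full hk hWB full
  have hatt : ∀ j, Nr v B 0 (U.coeff j) → U.coeff j ∈ B := fun j hj => by
    obtain ⟨g, hg, h1⟩ := hj
    exact att j g hg h1
  -- the residual case
  have hres : ∀ (τ : Ω →ₐ[k] Ω) (a b : Ω), v.Ge 0 a →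
      ¬ (v.Ge 0 a ∧ ∀ j, v.Ge 0 ((PsiA τ a b U).coeff j)) → ∀ (f : k[X]) (r₁ : ℝ), 0 ≤ r₁ →
      (∀ j : ℕ, v.Ge (min 0 (-(r₁ - j * (0 : ℝ)))) ((Sh a f (PsiA τ a b U)).coeff j)) →
      0 < r₁ := by
    intro τ a b ha hn f r₁ hr hsh
    rcases hr.eq_or_lt with h0 | h0
    · exfalso
      refine hn ⟨ha, fun j => ?_⟩
      have h1 := hsh j
      rw [← h0, mul_zero, sub_zero, neg_zero, min_self] at h1
      exact (ge_Sh_iff hk ha f _ j).1 h1
    · exact h0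
  by_cases h2a : ∃ l, ¬ Nr v B 0 (U.coeff l)
  · obtain ⟨l, hl, hmax⟩ := exists_last h2a
    obtain ⟨ε₀, hl1, hε, hlt⟩ := exists_lt_max hsp imm U0 Ul hl hmax
    obtain ⟨J₀, hJ₀⟩ := small_lim (v := v) hL hd hw.lim hε
    refine ⟨J₀, fun J hJ τ hτ hfix a b ha hb hτw r₀ hr0 hra hrg hn f r₁ hr1 hsh => ?_⟩
    rcases hr0.eq_or_lt with h0 | h0
    · subst h0
      rw [neg_zero] at hrg
      have h1 := hres τ a b hrg hn f r₁ hr1 hsh
      exact ⟨h1.le, h1, fun j => Or.inr (by rw [mul_zero]; exact h1)⟩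
    · obtain ⟨h1, h2⟩ := hra h0
      have h3 := hJ₀ J hJ τ hτ hfix
      rw [hτw, add_sub_cancel_left] at h3
      obtain ⟨h4, h5⟩ := hlt τ a b (hWB ha) hb h1 (by rw [h2]; linarith) (h3 h1) f
      have h6 : (l : ℝ) * r₀ < r₁ := lt_of_ge hr1 h2 h4 h5 hsh
      have h7 : (1 : ℝ) ≤ l := by exact_mod_cast hl1
      have h8 : r₀ ≤ l * r₀ := by nlinarith
      refine ⟨by linarith, by linarith, fun j => ?_⟩
      by_cases hj : U.coeff j ∈ B
      · exact Or.inl hj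
      · right
        have hjl : j ≤ l := by
          by_contra h9
          exact hj (hatt j (hmax j (not_le.1 h9)))
        have h9 : (j : ℝ) ≤ l := by exact_mod_cast hjl
        nlinarith
  · push Not at h2a
    have hUC : ∀ j, U.coeff j ∈ B := fun j => hatt j (h2a j)
    subst hB
    have e1 : ∀ s : k, algebraMap k Ω ((![s, 0] : Fin 2 → k) 0) = algebraMap k Ω s := fun s => rfl
    have e2 : ∀ s : k, algebraMap k Ω ((![s, 0] : Fin 2 → k) 1) = 0 := fun s => map_zero _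
    obtain ⟨n, F, G, δ, hFG, hd0, hd0', -, hcob, ε₀, hε, J₁, hdec⟩ :=
      exists_cocL (S := fun s : k => T ![s, 0]) (U := U) hk hw hu.lim (fun s => iso _)
        (fun s => fix _) (fun s => by rw [Tw, e1]) (fun s => by rw [Tu, e1, e2, add_zero]) U0 hUC
        npar hL hd
    obtain ⟨J₂, hJ₂⟩ := small_lim (v := v) hL hd hw.lim hε
    refine ⟨max J₁ J₂, fun J hJ τ hτ hfix a b ha hb hτw r₀ hr0 hra hrg hn f r₁ hr1 hsh => ?_⟩
    rcases hr0.eq_or_lt with h0 | h0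
    · subst h0
      rw [neg_zero] at hrg
      have h1 := hres τ a b hrg hn f r₁ hr1 hsh
      exact ⟨h1.le, h1, fun j => Or.inl (hUC j)⟩
    · obtain ⟨h1, h2⟩ := hra h0
      have h3 := hJ₂ J ((le_max_right _ _).trans hJ) τ hτ hfix
      rw [hτw, add_sub_cancel_left] at h3
      have h4 : r₀ ≤ ε₀ := by
        have := h3 h1
        rw [h2] at this
        linarith
      have h5 := hdec J ((le_max_left _ _).trans hJ) r₀ hr0 h4 τ a hτ hfix hτw hrg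
      have h6 : 2 * r₀ ≤ r₁ := by
        refine two_le_min hk hFG hd0 hd0' hcob h0 h1 h2 (μ := 0) (Ψ := PsiA τ a b U)
          (fun j hj => ?_) hsh
        rw [bs_zero]
        have h7 := h5 j hj
        have e : (PsiA τ a b U).coeff j =
            (U.map (τ : Ω →+* Ω) - U.comp (X + C a)).coeff j := by
          rw [PsiA, add_sub_assoc, coeff_add, coeff_C_of_ne_zero (by omega), zero_add]
        rwa [e]
      exact ⟨by linarith, by linarith, fun j => Or.inl (hUC j)⟩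

end Pool.Agent.TWRB
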