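import Pool.Agent.Lib.TWLG0.Dec
import Pool.Agent.Lib.TWRB.R7a
import Pool.Agent.Lib.TWRB.R11

/-!
# RowB, R7: the weights of a visible position, I

* `exists_cocL`: the cocycle of `TWLG0.exists_coc`, for the motions which are the identity on `L J` only;
* `two_le_min`: in every system of coordinates the weight of the second variable is at least `2 |x|`, for
  coefficients which are known up to `O_0`;
* `exists_lt_max`: `TWRB.exists_lt` for the last noise.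
-/

set_option autoImplicit false

namespace Pool.Agent.TWLG0

open Polynomial
open Pool.Agent.H15JM (RVal)
open Pool.Agent.LU1 (VPos)
open Pool.Agent.D2 (Ctx0)
open Pool.Agent.D2P (clI)
open Pool.Agent.TWM
open Pool.Agent.TWRZ
open Pool.Agent.TWS (IsoE)
open Pool.Agent.TWLG76 (Sh Sh_coeff v_aeval)

universe u

variable {k Ω : Type u} [Field k] [Field Ω] [Algebra k Ω] {v : RVal Ω}

/-- The value of a translate, for a motion which is nearly the identity on `W`. -/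
theorem map_eval_near {L : ℕ → IntermediateField k Ω} {W : IntermediateField k Ω}
    (hL : Monotone L) (hd : W ≤ clI v (⨆ J, L J)) (w : Ω) {P : Polynomial Ω} (hP : P ∈ PI W)
    (B : ℝ) : ∃ J₀ : ℕ, ∀ J ≥ J₀, ∀ τ : Ω →ₐ[k] Ω, IsoE v v τ → (∀ f ∈ L J, τ f = f) →
      ∀ x : Ω, τ w = w + x → v.Ge (-1) x → v.Ge B (τ (P.eval w) - P.eval (w + x)) := by
  classical
  obtain ⟨M, hM1, hM⟩ : ∃ M : ℝ, 1 ≤ M ∧ v.Ge (-M) w :=
    ⟨max 1 (-(v w)), le_max_left _ _, fun _ => by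
      have := le_max_right 1 (-(v w))
      linarith⟩
  obtain ⟨J₀, h1⟩ := TWRB.small_fin (v := v) hL hd (P.support.image fun i => P.coeff i)
    (fun y hy => by
      obtain ⟨i, _, rfl⟩ := Finset.mem_image.1 hy
      exact hP i) (B + P.natDegree * M)
  refine ⟨J₀, fun J hJ τ hτ hfix x hτw hx => ?_⟩
  have hwx : v.Ge (-M) (w + x) := hM.add (hx.mono (by linarith))
  have e : τ (P.eval w) - P.eval (w + x) =
      ∑ i ∈ Finset.range (P.natDegree + 1), (τ (P.coeff i) - P.coeff i) * (w + x) ^ i := by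
    rw [eval_eq_sum_range, eval_eq_sum_range, map_sum, ← Finset.sum_sub_distrib]
    refine Finset.sum_congr rfl fun i _ => ?_
    rw [map_mul, map_pow, hτw]
    ring
  rw [e]
  refine RVal.Ge.sum _ _ fun i hi => ?_
  have h2 : v.Ge (B + P.natDegree * M) (τ (P.coeff i) - P.coeff i) := by
    by_cases h3 : i ∈ P.support
    · exact h1 J hJ τ hτ hfix _ (Finset.mem_image.2 ⟨i, h3, rfl⟩)
    · rw [Polynomial.notMem_support_iff.1 h3, map_zero, sub_zero]
      exact RVal.Ge.zero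
  refine (h2.mul (ge_pow hwx i)).mono ?_
  have h4 : (i : ℝ) ≤ P.natDegree := by
    have := Finset.mem_range.1 hi
    exact_mod_cast (by omega : i ≤ P.natDegree)
  nlinarith

section main

variable {W : IntermediateField k Ω} {w u : Ω} {S : k → Ω →ₐ[k] Ω} {U : Polynomial Ω}
  {f : ℕ → Polynomial Ω} {b : ℕ → k[X]} {m : ℝ}

/-- **The displacement of a motion**, the identity on `L J`. -/
theorem Rsd.decL (h : Rsd k v W w U f b m) {L : ℕ → IntermediateField k Ω}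
    (hL : Monotone L) (hd : W ≤ clI v (⨆ J, L J)) : ∃ ε₀ : ℝ, 0 < ε₀ ∧ ∃ J₀ : ℕ, ∀ J ≥ J₀,
    ∀ ω : ℝ, 0 ≤ ω → ω ≤ ε₀ → ∀ (τ : Ω →ₐ[k] Ω) (x : Ω), IsoE v v τ → (∀ f ∈ L J, τ f = f) →
      τ w = w + x → v.Ge (-ω) x → ∀ j : ℕ, 1 ≤ j → Gt v (-(ω - j * ω))
        ((U.map (τ : Ω →+* Ω) - U.comp (X + C x)).coeff j -
          aeval x (bc (cF U b) (cG k U) j)) := by
  classical
  set n := U.natDegree with hn
  obtain ⟨D, hD⟩ : ∃ D : ℕ, ∀ j ∈ Finset.range (n + 1),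
      (taylor w (f j) - hasseDeriv j U - (b j).map (algebraMap k Ω)).natDegree ≤ D :=
    ⟨(Finset.range (n + 1)).sup fun j =>
      (taylor w (f j) - hasseDeriv j U - (b j).map (algebraMap k Ω)).natDegree, fun j hj =>
        Finset.le_sup (f := fun j =>
          (taylor w (f j) - hasseDeriv j U - (b j).map (algebraMap k Ω)).natDegree) hj⟩
  obtain ⟨J₀, hJ₀⟩ : ∃ J₀ : ℕ, ∀ j ∈ Finset.range (n + 1), ∀ J ≥ J₀, ∀ τ : Ω →ₐ[k] Ω,
      IsoE v v τ → (∀ f ∈ L J, τ f = f) → ∀ x : Ω, τ w = w + x → v.Ge (-1) x →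
        v.Ge 1 (τ ((f j).eval w) - (f j).eval (w + x)) := by
    choose J₁ h1 using fun j => map_eval_near (v := v) hL hd w (h.fW j) 1
    refine ⟨(Finset.range (n + 1)).sup J₁, fun j hj J hJ => h1 j J ((Finset.le_sup hj).trans hJ)⟩
  have hDpos : (0 : ℝ) < 2 * (D + n + 1) := by positivity
  have hle : m / (2 * (D + n + 1)) ≤ 1 := by
    rw [div_le_one hDpos]
    have := h.le
    have h0 : (0 : ℝ) ≤ D := Nat.cast_nonneg D
    have h0' : (0 : ℝ) ≤ n := Nat.cast_nonneg n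
    linarith
  refine ⟨m / (2 * (D + n + 1)), div_pos h.pos hDpos, J₀, fun J hJ ω hω hωε τ x hτ hτW hτw hx j
    hj => ?_⟩
  have hDn : ((D : ℝ) + n + 1) * ω ≤ m / 2 := by
    have h1 : (0 : ℝ) < D + n + 1 := by positivity
    calc ((D : ℝ) + n + 1) * ω ≤ (D + n + 1) * (m / (2 * (D + n + 1))) :=
          mul_le_mul_of_nonneg_left hωε h1.le
      _ = m / 2 := by field_simp
  have hcomp : (U.comp (X + C x)).coeff j = (hasseDeriv j U).eval x := by
    rw [← taylor_coeff]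
    rfl
  rw [coeff_sub, coeff_map, hcomp, bc_cF]
  by_cases hjn : j ≤ n
  · rw [if_pos ⟨hj, hjn⟩]
    have e : (τ : Ω →+* Ω) (U.coeff j) - (hasseDeriv j U).eval x - aeval x (b j) =
        τ (U.coeff j - (f j).eval w) + (τ ((f j).eval w) - (f j).eval (w + x)) +
          (taylor w (f j) - hasseDeriv j U - (b j).map (algebraMap k Ω)).eval x := by
      rw [map_sub, eval_sub, eval_sub, taylor_eval, eval_map_algebraMap, add_comm w]
      change τ (U.coeff j) - _ - _ = _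
      ring
    rw [e]
    have hDω : 0 ≤ (D : ℝ) * ω := by positivity
    have h1 := eval_ge (hD j (Finset.mem_range.2 (by omega))) (h.res j hj hjn) hω hx
    have h2 : v.Ge (m - D * ω) (τ (U.coeff j - (f j).eval w)) :=
      (hτ.ge_iff.2 (h.near j)).mono (by
        have := h.le
        linarith)
    have h2' : v.Ge (m - D * ω) (τ ((f j).eval w) - (f j).eval (w + x)) :=
      (hJ₀ j (Finset.mem_range.2 (by omega)) J hJ τ hτ hτW x hτw
        (hx.mono (by linarith))).mono (by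
          have := h.le
          linarith)
    refine Gt.of_ge ((h2.add h2').add h1) ?_
    have h3 : (j : ℝ) ≤ n := by exact_mod_cast hjn
    have h4 : (j : ℝ) * ω ≤ n * ω := mul_le_mul_of_nonneg_right h3 hω
    have := h.pos
    nlinarith
  · rw [if_neg (fun h' => hjn h'.2), map_zero, sub_zero,
      coeff_eq_zero_of_natDegree_lt (by omega), map_zero,
      hasseDeriv_eq_zero_of_lt_natDegree U j (by omega), eval_zero, sub_zero]
    exact Gt.zero

/-- **The cocycle**, for the motions which are the identity on `L J`. -/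
theorem exists_cocL [IsAlgClosed Ω] [Infinite k] (hk : Ctx0 k v) (hw : TL v W w 0)
    (hu : Lim v (cadj v W w) 0 u) (hiso : ∀ s, IsoE v v (S s))
    (hSW : ∀ s, ∀ f ∈ W, S s f = f) (hSw : ∀ s, S s w = w + algebraMap k Ω s)
    (hSu : ∀ s, S s u = u + U.eval (algebraMap k Ω s)) (hU0 : U.coeff 0 = 0)
    (hUC : ∀ j, U.coeff j ∈ cadj v W w) (hn : ∀ g ∈ cadj v W w, ¬ Lim v W 0 (u - g))
    {L : ℕ → IntermediateField k Ω} (hL : Monotone L) (hd : W ≤ clI v (⨆ J, L J)) :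
    ∃ (n : ℕ) (F G : Fin n → k[X]) (δ : k → k → k),
      (∀ s t, δ s t = ∑ i, (F i).eval s * (G i).eval t) ∧ (∀ t, δ 0 t = 0) ∧ (∀ s, δ s 0 = 0) ∧
      (∀ a b c : k, δ a b + δ (a + b) c = δ b c + δ a (b + c)) ∧ ¬ Cob δ ∧
      ∃ ε₀ : ℝ, 0 < ε₀ ∧ ∃ J₀ : ℕ, ∀ J ≥ J₀, ∀ ω : ℝ, 0 ≤ ω → ω ≤ ε₀ →
        ∀ (τ : Ω →ₐ[k] Ω) (x : Ω), IsoE v v τ →
        (∀ f ∈ L J, τ f = f) → τ w = w + x → v.Ge (-ω) x → ∀ j : ℕ, 1 ≤ j →
          Gt v (-(ω - j * ω)) ((U.map (τ : Ω →+* Ω) - U.comp (X + C x)).coeff j -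
            aeval x (bc F G j)) := by
  obtain ⟨f, b, m, h⟩ := exists_rsd hk hw hu hiso hSW hSw hSu hUC
  have hUk : ∀ s : k, U.eval (algebraMap k Ω s) ∈ cadj v W w := fun s =>
    eval_mem hUC (algebraMap_mem _ s)
  refine ⟨U.natDegree, cF U b, cG k U, cδ U b, fun s t => rfl, fun t => ?_, cδ_zero U b,
    cocy_k (T := S) (V := fun s => U.eval (algebraMap k Ω s)) hk hiso
      (law_C hiso hSW hSw) hUk h.pos fun s t => h.hco hk hiso hSW hSw hU0 s t,
    h.not_cob hk hw hu hiso hSW hSw hSu hU0 hUC hn, h.decL hL hd⟩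
  refine const_zero hk h.pos ?_
  have h1 := h.hco hk hiso hSW hSw hU0 0 t
  rw [zero_C hiso hSW hSw _ (hUk t), zero_add, map_zero, ← coeff_zero_eq_eval_zero, hU0, zero_add,
    sub_self, zero_sub] at h1
  simpa using h1.neg

end main

/-- **The weight of the second variable is at least `2 |x|`**, for coefficients known up to `O_0`. -/
theorem two_le_min [Infinite k] (hk : Ctx0 k v) {ι : Type} [Fintype ι] {δ : k → k → k}
    {F G : ι → k[X]} (hFG : ∀ s t, δ s t = ∑ i, (F i).eval s * (G i).eval t)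
    (hd : ∀ t, δ 0 t = 0) (hd' : ∀ s, δ s 0 = 0) (hc : ¬ Cob δ) {w₀ : ℝ} (hw0 : 0 < w₀) {x : Ω}
    (hx : x ≠ 0) (hv : v x = -w₀) {Ψ : Polynomial Ω} {μ : k[X]}
    (hΨ : ∀ j : ℕ, 1 ≤ j → Gt v (-(w₀ - j * w₀)) (Ψ.coeff j - aeval x (bs F G μ j))) {f : k[X]}
    {w₁ : ℝ} (h : ∀ j : ℕ, v.Ge (min 0 (-(w₁ - j * w₀))) ((Sh x f Ψ).coeff j)) :
    2 * w₀ ≤ w₁ := by
  obtain ⟨j, hj, hne⟩ := exists_ne hFG hd' hc (μ + f)
  set g := bc F G j + (C ((μ + f).coeff j) - hasseDeriv j (μ + f)) with hg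
  have hgb : g = bs F G μ j + (C (f.coeff j) - hasseDeriv j f) := bs_add F G μ f j
  have h1 : (Sh x f Ψ).coeff j = aeval x g + (Ψ.coeff j - aeval x (bs F G μ j)) := by
    rw [Sh_coeff, hgb, map_add]
    ring
  have h2 : g.coeff 0 = 0 := bs_coeff_zero hFG hd (μ + f) j
  have h3 : 1 ≤ g.natDegree := by
    by_contra h4
    have h5 : g.natDegree = 0 := by omega
    apply hne
    rw [Polynomial.eq_C_of_natDegree_eq_zero h5, h2, C_0]
  obtain ⟨h4, h5⟩ := v_aeval hk hw0 hx hv hne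
  have h6 : (1 : ℝ) ≤ g.natDegree := by exact_mod_cast h3
  have h7 : (1 : ℝ) ≤ j := by exact_mod_cast hj
  have h8 : Gt v (v (aeval x g)) (aeval x g - (Sh x f Ψ).coeff j) := by
    rw [h1, sub_add_cancel_left, h5]
    refine (Gt.neg (hΨ j hj)).mono ?_
    nlinarith
  obtain ⟨h9, h10⟩ := Gt.val_eq h4 h8
  have h11 := h j h9
  rw [h10, h5] at h11
  have h12 : w₀ ≤ (g.natDegree : ℝ) * w₀ := by nlinarith
  have h13 : w₀ ≤ (j : ℝ) * w₀ := by nlinarith
  rcases min_le_iff.1 h11 with h14 | h14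
  · linarith
  · linarith

end Pool.Agent.TWLG0

namespace Pool.Agent.TWRB

open Polynomial
open Pool.Agent.H15JM (RVal)
open Pool.Agent.D2 (Ctx0)
open Pool.Agent.TWM
open Pool.Agent.TWS (IsoE SphC)
open Pool.Agent.TWFN (AOp Fnl Strct exists_fnl ge_of_lim)
open Pool.Agent.TWLG76 (Sh Sh_coeff)

universe u

variable {k Ω : Type u} [Field k] [Field Ω] [Algebra k Ω] {v : RVal Ω}
  {C₁ : IntermediateField k Ω} {U : Polynomial Ω}

/-- There is a last noise. -/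
theorem exists_last (h2a : ∃ l, ¬ Nr v C₁ 0 (U.coeff l)) :
    ∃ l, ¬ Nr v C₁ 0 (U.coeff l) ∧ ∀ m, l < m → Nr v C₁ 0 (U.coeff m) := by
  classical
  have hNr0 : Nr v C₁ 0 (0 : Ω) := ⟨0, zero_mem _, by rw [sub_zero]; exact RVal.Ge.zero⟩
  set S := U.support.filter (fun l => ¬ Nr v C₁ 0 (U.coeff l)) with hS
  have hmem : ∀ l, l ∈ S ↔ ¬ Nr v C₁ 0 (U.coeff l) := by
    intro l
    rw [hS, Finset.mem_filter]
    refine ⟨fun h => h.2, fun h => ⟨?_, h⟩⟩
    rw [mem_support_iff]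
    intro h0
    rw [h0] at h
    exact h hNr0
  obtain ⟨l, hlS, hmax⟩ := S.exists_max_image (fun l => l)
    (by
      obtain ⟨l, hl⟩ := h2a
      exact ⟨l, (hmem l).2 hl⟩)
  refine ⟨l, (hmem l).1 hlS, fun m hm => ?_⟩
  by_contra h
  exact absurd (hmax m ((hmem m).2 h)) (not_le.2 hm)

/-- **The second coordinate is visible if the first one is**, with the last noise. -/
theorem exists_lt_max (hsp : SphC v) (imm : ∀ y : Ω, y ≠ 0 → ∃ a ∈ C₁, Gt v (v y) (y - a))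
    (hU0 : U.coeff 0 = 0) (hU : ∀ j, Lim v C₁ 0 (U.coeff j)) {l : ℕ}
    (hl : ¬ Nr v C₁ 0 (U.coeff l)) (hmax : ∀ m, l < m → Nr v C₁ 0 (U.coeff m)) :
    ∃ ε₀ : ℝ, 1 ≤ l ∧ 0 < ε₀ ∧
      ∀ (τ : Ω →ₐ[k] Ω) (X Y : Ω), X ∈ C₁ → Y ∈ C₁ → X ≠ 0 → v X < 0 → -ε₀ ≤ v X →
        ∀ f : k[X], (Sh X f (PsiA τ X Y U)).coeff 0 ≠ 0 ∧
          v ((Sh X f (PsiA τ X Y U)).coeff 0) < l * v X := by
  have hNr0 : Nr v C₁ 0 (0 : Ω) := ⟨0, zero_mem _, by rw [sub_zero]; exact RVal.Ge.zero⟩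
  obtain ⟨d, hd, h1⟩ := exists_fnl hsp le_rfl hl
  have hst := hd.strict imm
  have hl1 : 1 ≤ l := by
    rcases Nat.eq_zero_or_pos l with h0 | h0
    · exfalso
      rw [h0, hU0] at hl
      exact hl hNr0
    · exact h0
  have h2 : ∀ m, l < m → Gt v 0 (d (U.coeff m)) := fun m hm => by
    obtain ⟨a, ha, h2⟩ := hmax m hm
    have h3 := hd.toAOp.strict_ge hst h2
    rwa [hd.sub, hd.van a ha, sub_zero] at h3
  obtain ⟨ε₀, hε, h4⟩ := exists_size hd.toAOp h1 h2 fun m => ge_of_lim (hU m) hd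
  refine ⟨ε₀, hl1, hε, fun τ X Y hX hY hX0 hv hvε f => ?_⟩
  obtain ⟨h5, h6⟩ := h4 X hX hX0 hv hvε
  have h7 : d ((Sh X f (PsiA τ X Y U)).coeff 0) = -d (U.eval X) := by
    rw [d_Sh hd hX, PsiA_coeff_zero τ X Y hU0, hd.sub, hd.van _ hY, zero_sub]
  have h8 : (Sh X f (PsiA τ X Y U)).coeff 0 ≠ 0 := by
    intro h
    rw [h, hd.zero] at h7
    exact h5 (neg_eq_zero.1 h7.symm)
  refine ⟨h8, ?_⟩
  have h9 := hst _ h8
  rw [h7] at h9
  have h10 := h9 (neg_ne_zero.2 h5)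
  rwa [v.map_neg _ h5, h6] at h10

/-- The residual case: the changes of coordinates are in `O_0`. -/
theorem ge_Sh_iff (hk : Ctx0 k v) {x : Ω} (hx : v.Ge 0 x) (f : k[X]) (P : Polynomial Ω) (j : ℕ) :
    v.Ge 0 ((Sh x f P).coeff j) ↔ v.Ge 0 (P.coeff j) := by
  have h1 : v.Ge 0 (aeval x (C (f.coeff j) - hasseDeriv j f)) := by
    rw [← eval_map_algebraMap]
    have h2 := TWLG0.eval_ge (v := v) (m := 0) (ω := 0) (y := x)
      (P := (C (f.coeff j) - hasseDeriv j f).map (algebraMap k Ω)) le_rfl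
      (fun i => by rw [coeff_map]; exact hk.ge _) le_rfl (by rwa [neg_zero])
    rwa [mul_zero, sub_zero] at h2
  rw [Sh_coeff]
  constructor
  · intro h
    have := h.sub h1
    rwa [add_sub_cancel_right] at this
  · intro h
    exact h.add h1

end Pool.Agent.TWRB
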