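import Pool.Agent.Lib.TWLG76.Good

/-!
# CT, j = 1, row B: the weights of the good coordinates are small

If `|Ψ_j| + j r 0 ≤ Λ` for every `j` and `f₁`, `r` are coordinates and weights with `Dns`, then
`r 1 ≤ Λ` and `n r 0 ≤ Λ` for every exponent `n` of `f₁`.
-/

set_option autoImplicit false

open MvPolynomial

namespace Pool.Agent.TWRB

open Pool.Agent.H15JM (RVal)
open Pool.Agent.D2 (Ctx0)
open Pool.Agent.TWM
open Pool.Agent.TWLY (Ex mk mk_zero' mk_one' ex_ext mk_eta mk_eq_iff wt)
open Pool.Agent.TWLG76 (Dns Sh LL coeff_aeval_mul)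

universe u

variable {k Ω : Type u} [Field k] [Field Ω] [Algebra k Ω] {v : RVal Ω}

theorem wsm_one (v : RVal Ω) : v.Ge 0 (1 : Ω) := fun h => by
  have h1 := v.map_mul h h
  rw [mul_one] at h1
  linarith

theorem wsm_pow {c : ℝ} {x : Ω} (hx : v.Ge c x) (i : ℕ) : v.Ge (i * c) (x ^ i) := by
  induction i with
  | zero =>
    rw [Nat.cast_zero, zero_mul, pow_zero]
    exact wsm_one v
  | succ n ih =>
    have h1 := ih.mul hx
    rw [pow_succ, Nat.cast_succ, add_mul, one_mul]
    exact h1

theorem wsm_nat (v : RVal Ω) (n : ℕ) : v.Ge 0 (n : Ω) := by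
  induction n with
  | zero =>
    rw [Nat.cast_zero]
    exact RVal.Ge.zero
  | succ n ih =>
    rw [Nat.cast_succ]
    exact ih.add (wsm_one v)

theorem coeff_aev (f : Polynomial Ω) (be : Ex) :
    coeff be (Polynomial.aeval (X 0 : MvPolynomial (Fin 2) Ω) f) =
      if be 1 = 0 then f.coeff (be 0) else 0 := by
  have h1 := coeff_aeval_mul f 0 (be 0) (be 1)
  rw [pow_zero, mul_one, mk_eta] at h1
  exact h1

theorem coeff_comp_XC (h : Polynomial Ω) (a : Ω) (j : ℕ) :
    (h.comp (Polynomial.X + Polynomial.C a)).coeff j =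
      ∑ n ∈ h.support, h.coeff n * (a ^ (n - j) * (n.choose j : Ω)) := by
  rw [Polynomial.comp, Polynomial.eval₂_eq_sum, Polynomial.sum, Polynomial.finsetSum_coeff]
  refine Finset.sum_congr rfl fun n _ => ?_
  rw [Polynomial.coeff_C_mul, Polynomial.coeff_X_add_C_pow]

theorem LL_aev (a : Ω) (Ψ : Polynomial Ω) (g : Polynomial k) :
    LL a Ψ (Polynomial.aeval (X 0 : MvPolynomial (Fin 2) k) g) =
      Polynomial.aeval (X 0 : MvPolynomial (Fin 2) Ω)
        ((g.map (algebraMap k Ω)).comp (Polynomial.X + Polynomial.C a)) := by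
  rw [← Polynomial.aeval_algHom_apply, Polynomial.aeval_comp, map_add, Polynomial.aeval_X,
    Polynomial.aeval_C, Polynomial.aeval_map_algebraMap]
  congr 2
  simp [LL, algebraMap_eq]

theorem map_aev (g : Polynomial k) :
    MvPolynomial.map (algebraMap k Ω) (Polynomial.aeval (X 0 : MvPolynomial (Fin 2) k) g) =
      Polynomial.aeval (X 0 : MvPolynomial (Fin 2) Ω) (g.map (algebraMap k Ω)) := by
  rw [Polynomial.aeval_def, Polynomial.hom_eval₂, Polynomial.aeval_def, Polynomial.eval₂_map,
    map_X]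
  congr 1
  ext c
  simp [algebraMap_eq]

/-- The coefficients of the translate of `h`. -/
theorem gt_comp (h0 : Ctx0 k v) {r₀ R : ℝ} {a : Ω} (ha : v.Ge (-r₀) a) (h : Polynomial k)
    (hh : ∀ n ∈ h.support, (n : ℝ) * r₀ < R) (j : ℕ) :
    Gt v (j * r₀ - R)
      (((h.map (algebraMap k Ω)).comp (Polynomial.X + Polynomial.C a)).coeff j) := by
  rw [coeff_comp_XC]
  refine Gt.sum _ _ fun n hn => ?_
  have hn' : n ∈ h.support := by
    rw [Polynomial.mem_support_iff, Polynomial.coeff_map] at hn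
    rw [Polynomial.mem_support_iff]
    intro h1
    exact hn (by rw [h1, map_zero])
  rcases lt_or_ge n j with hj | hj
  · rw [Nat.choose_eq_zero_of_lt hj, Nat.cast_zero, mul_zero, mul_zero]
    exact Gt.zero
  rw [Polynomial.coeff_map]
  have h1 : v.Ge (((n - j : ℕ) : ℝ) * (-r₀)) (a ^ (n - j)) := wsm_pow ha _
  have h2 : v.Ge (0 + (((n - j : ℕ) : ℝ) * (-r₀) + 0))
      (algebraMap k Ω (h.coeff n) * (a ^ (n - j) * (n.choose j : Ω))) :=
    (h0.ge _).mul (h1.mul (wsm_nat v _))
  refine Gt.of_ge h2 ?_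
  rw [Nat.cast_sub hj]
  have := hh n hn'
  linarith

/-- **The weights are small.** -/
theorem wts_small (h0 : Ctx0 k v) {r : Fin 2 → ℝ} {a : Ω} {Ψ : Polynomial Ω} {f₁ : Polynomial k}
    {Λ : ℝ} (hΛ : 0 ≤ Λ) (hΨ : ∀ j : ℕ, v.Ge (j * r 0 - Λ) (Ψ.coeff j)) (hr0 : 0 ≤ r 0)
    (hr1 : 0 < r 1) (ha0 : 0 < r 0 → a ≠ 0 ∧ v a = -(r 0)) (ha1 : v.Ge (-(r 0)) a)
    (hf0 : f₁.coeff 0 = 0) (hsiz : ∀ j : ℕ, v.Ge (j * r 0 - r 1) ((Sh a f₁ Ψ).coeff j))
    (hdns : Dns k v r a (Sh a f₁ Ψ)) :
    r 1 ≤ Λ ∧ ∀ n ∈ f₁.support, (n : ℝ) * r 0 ≤ Λ := by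
  classical
  -- the exponents of `f₁`
  have hA : ∀ n ∈ f₁.support, (n : ℝ) * r 0 ≤ max Λ (r 1) := by
    by_contra hcon
    push Not at hcon
    obtain ⟨n, hn, hlt⟩ := hcon
    have hr0' : 0 < r 0 := by
      rcases hr0.lt_or_eq with h | h
      · exact h
      · rw [← h, mul_zero] at hlt
        exact absurd (hlt.le.trans hΛ |> fun _ => hlt) (not_lt.2 (le_max_of_le_left hΛ))
    obtain ⟨ha, hva⟩ := ha0 hr0'
    set N := f₁.natDegree with hN
    have hf1 : f₁ ≠ 0 := fun h => by rw [h] at hn; simp at hn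
    have hnN : n ≤ N := Polynomial.le_natDegree_of_mem_supp n hn
    have hltN : max Λ (r 1) < N * r 0 :=
      hlt.trans_le (mul_le_mul_of_nonneg_right (by exact_mod_cast hnN) hr0)
    have hlead : f₁.coeff N ≠ 0 := Polynomial.leadingCoeff_ne_zero.2 hf1
    -- the coefficient `0`
    have hc0 : (Sh a f₁ Ψ).coeff 0 = Ψ.coeff 0 - (f₁.map (algebraMap k Ω)).eval a := by
      rw [Sh, Polynomial.coeff_sub, Polynomial.coeff_add, Polynomial.coeff_map, hf0, map_zero,
        add_zero, Polynomial.coeff_zero_eq_eval_zero (Polynomial.comp _ _), Polynomial.eval_comp]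
      simp
    have h1 : Gt v (-(N * r 0)) ((f₁.map (algebraMap k Ω)).eval a) := by
      have h2 := hsiz 0
      have h3 := hΨ 0
      rw [Nat.cast_zero, zero_mul, zero_sub] at h2 h3
      have h4 : (f₁.map (algebraMap k Ω)).eval a = Ψ.coeff 0 - (Sh a f₁ Ψ).coeff 0 := by
        rw [hc0]
        ring
      rw [h4]
      exact (Gt.of_ge h3 (by have := (le_max_left Λ (r 1)).trans_lt hltN; linarith)).sub
        (Gt.of_ge h2 (by have := (le_max_right Λ (r 1)).trans_lt hltN; linarith))
    have h5 : (f₁.map (algebraMap k Ω)).eval a = algebraMap k Ω (f₁.coeff N) * a ^ N +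
        ∑ i ∈ Finset.range N, algebraMap k Ω (f₁.coeff i) * a ^ i := by
      rw [Polynomial.eval_eq_sum_range, Polynomial.natDegree_map, Finset.sum_range_succ, add_comm]
      simp only [Polynomial.coeff_map]
      rfl
    have h6 : Gt v (-(N * r 0)) (∑ i ∈ Finset.range N, algebraMap k Ω (f₁.coeff i) * a ^ i) := by
      refine Gt.sum _ _ fun i hi => ?_
      have h7 : v.Ge (0 + (i : ℝ) * (-(r 0))) (algebraMap k Ω (f₁.coeff i) * a ^ i) :=
        (h0.ge _).mul (wsm_pow ha1 i)
      refine Gt.of_ge h7 ?_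
      have h8 : (i : ℝ) * r 0 < N * r 0 :=
        mul_lt_mul_of_pos_right (by exact_mod_cast Finset.mem_range.1 hi) hr0'
      linarith
    have h9 : Gt v (-(N * r 0)) (algebraMap k Ω (f₁.coeff N) * a ^ N) := by
      have h10 : algebraMap k Ω (f₁.coeff N) * a ^ N = (f₁.map (algebraMap k Ω)).eval a -
          ∑ i ∈ Finset.range N, algebraMap k Ω (f₁.coeff i) * a ^ i := by
        rw [h5]
        ring
      rw [h10]
      exact h1.sub h6
    have h11 : algebraMap k Ω (f₁.coeff N) ≠ 0 := by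
      rw [Ne, map_eq_zero]
      exact hlead
    have h12 := h9 (mul_ne_zero h11 (pow_ne_zero _ ha))
    rw [v.map_mul h11 (pow_ne_zero _ ha), h0.triv _ hlead, v.map_pow ha, hva] at h12
    linarith
  have hB : r 1 ≤ Λ := by
    by_contra hcon
    push Not at hcon
    have hA' : ∀ n ∈ f₁.support, (n : ℝ) * r 0 ≤ r 1 := fun n hn =>
      (hA n hn).trans (max_le hcon.le le_rfl)
    set g : Polynomial k := ∑ n ∈ f₁.support.filter (fun n : ℕ => (n : ℝ) * r 0 = r 1),
      Polynomial.monomial n (f₁.coeff n) with hg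
    have hgc : ∀ n : ℕ, g.coeff n = if (n : ℝ) * r 0 = r 1 then f₁.coeff n else 0 := by
      intro n
      rw [hg, Polynomial.finsetSum_coeff]
      simp only [Polynomial.coeff_monomial]
      rw [Finset.sum_ite_eq']
      simp only [Finset.mem_filter, Polynomial.mem_support_iff]
      by_cases h1 : (n : ℝ) * r 0 = r 1
      · by_cases h2 : f₁.coeff n = 0
        · simp [h2]
        · simp [h1, h2]
      · simp [h1]
    set h : Polynomial k := f₁ - g with hh
    have hhs : ∀ n ∈ h.support, (n : ℝ) * r 0 < r 1 := by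
      intro n hn
      rw [Polynomial.mem_support_iff, hh, Polynomial.coeff_sub, hgc] at hn
      by_cases h1 : (n : ℝ) * r 0 = r 1
      · rw [if_pos h1, sub_self] at hn
        exact absurd rfl hn
      · rw [if_neg h1, sub_zero] at hn
        exact lt_of_le_of_ne (hA' n (Polynomial.mem_support_iff.2 hn)) h1
    set H : MvPolynomial (Fin 2) k := X 1 + Polynomial.aeval (X 0) g with hH
    have key : LL a (Sh a f₁ Ψ) H - MvPolynomial.map (algebraMap k Ω) H =
        Polynomial.aeval (X 0) (Sh a h Ψ) := by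
      rw [hH, map_add, map_add, LL_aev, map_aev, map_X]
      have h1 : LL a (Sh a f₁ Ψ) (X 1 : MvPolynomial (Fin 2) k) =
          X 1 + Polynomial.aeval (X 0) (Sh a f₁ Ψ) := by
        simp [LL]
      have h2 : Sh a h Ψ = Sh a f₁ Ψ + (g.map (algebraMap k Ω)).comp
          (Polynomial.X + Polynomial.C a) - g.map (algebraMap k Ω) := by
        rw [hh, Sh, Sh, Polynomial.map_sub, Polynomial.sub_comp]
        ring
      rw [h1, h2, map_sub, map_add]
      ring
    have hiso : ∀ m ∈ H.support, wt r m = r 1 := by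
      intro m hm
      rw [mem_support_iff, hH, coeff_add, coeff_X] at hm
      by_cases h1 : Finsupp.single 1 1 = m
      · rw [← h1, wt]
        simp
      rw [if_neg h1, zero_add] at hm
      have h2 : m 1 = 0 ∧ (m 0 : ℝ) * r 0 = r 1 := by
        have h3 : coeff m (MvPolynomial.map (algebraMap k Ω)
            (Polynomial.aeval (X 0 : MvPolynomial (Fin 2) k) g)) ≠ 0 := by
          rw [coeff_map, Ne, map_eq_zero]
          exact hm
        rw [map_aev, coeff_aev] at h3
        by_cases h4 : m 1 = 0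
        · rw [if_pos h4, Polynomial.coeff_map, hgc] at h3
          refine ⟨h4, ?_⟩
          by_contra h5
          rw [if_neg h5, map_zero] at h3
          exact h3 rfl
        · rw [if_neg h4] at h3
          exact absurd rfl h3
      rw [wt, h2.1, h2.2, Nat.cast_zero, zero_mul, add_zero]
    have hz : H = 0 := by
      refine hdns (r 1) hr1 H hiso fun be => ?_
      rw [key, coeff_aev]
      split_ifs with h1
      · rw [wt, h1, Nat.cast_zero, zero_mul, add_zero, Sh, Polynomial.coeff_sub,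
          Polynomial.coeff_add]
        refine ((Gt.of_ge (hΨ _) (by linarith)).add ?_).sub (gt_comp h0 ha1 h hhs _)
        rw [Polynomial.coeff_map]
        by_cases h2 : h.coeff (be 0) = 0
        · have h3 : algebraMap k Ω (h.coeff (be 0)) = 0 := by rw [h2, (algebraMap k Ω).map_zero]
          rw [h3]
          exact Gt.zero
        · exact Gt.of_ge (h0.ge _) (by
            have := hhs _ (Polynomial.mem_support_iff.2 h2)
            linarith)
      · exact Gt.zero
    have h1 : coeff (Finsupp.single 1 1) H = 1 := by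
      have h2 : coeff (Finsupp.single 1 1) (Polynomial.aeval (X 0 : MvPolynomial (Fin 2) k) g) =
          0 := by
        have h3 : algebraMap k Ω (coeff (Finsupp.single 1 1)
            (Polynomial.aeval (X 0 : MvPolynomial (Fin 2) k) g)) = 0 := by
          rw [← coeff_map, map_aev, coeff_aev, if_neg]
          simp
        rwa [map_eq_zero] at h3
      rw [hH, coeff_add, h2, coeff_X, if_pos rfl, add_zero]
    rw [hz, coeff_zero] at h1
    exact zero_ne_one h1
  exact ⟨hB, fun n hn => (hA n hn).trans (max_le le_rfl hB)⟩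

end Pool.Agent.TWRB
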