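import Pool.Agent.Lib.TWCY.ShpE
import Pool.Agent.Lib.TWCY.Core
import Pool.Agent.Lib.TWCU.Astar

/-!
# RowB, R8: the finite shape of `z` for a frame which is not `F`-rational

`T c w = w + c₀`, `T c u = u + U(c₀) + c₁`, `U` a polynomial with coefficients in `Lim C`.
* `Ot w u U`: `(w + X₀, u + U(X₀) + X₁)`; `eval_ot`: `T c (P(w, u))` is the value at `c`;
* `sh δ`: the substitution `X₁ ↦ X₁ + δ(X₀)`;
* `small_tie`: the orbit polynomials of the approximations of `z` have small coefficients in large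
  degrees, from the tie, with real `U + δ`;
* `exists_Z`: **the shape of `z`**.
-/

set_option autoImplicit false
set_option linter.unusedSectionVars false

open MvPolynomial

namespace Pool.Agent.TWRB.Z8

open Pool.Agent.H15JM (RVal)
open Pool.Agent.LU1 (VPos)
open Pool.Agent.D2 (Ctx0)
open Pool.Agent.TWM
open Pool.Agent.TWS (IsoE SphC)
open Pool.Agent.TWLY
open Pool.Agent.TWCY
open Pool.Agent.TWCU

universe u₀

variable {k Ω : Type u₀} [Field k] [Field Ω] [Algebra k Ω] {v : RVal Ω}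
  {W C₀ F : IntermediateField k Ω} {w u z x : Ω} {U δ : Polynomial Ω}
  {T : (Fin 2 → k) → Ω →ₐ[k] Ω}

/-! ### Sizes of the coefficients -/

/-- All coefficients are of value `≥ r`. -/
def GeP (v : RVal Ω) (r : ℝ) (A : MvPolynomial (Fin 2) Ω) : Prop := ∀ g, v.Ge r (coeff g A)

section GeP

variable {r s : ℝ} {A B : MvPolynomial (Fin 2) Ω}

theorem GeP.mono (h : GeP v r A) (hs : s ≤ r) : GeP v s A := fun g => (h g).mono hs

theorem GeP.add (h : GeP v r A) (h' : GeP v r B) : GeP v r (A + B) := fun g => by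
  rw [coeff_add]
  exact (h g).add (h' g)

theorem GeP.sub (h : GeP v r A) (h' : GeP v r B) : GeP v r (A - B) := fun g => by
  rw [coeff_sub]
  exact (h g).sub (h' g)

theorem GeP.sum {ι : Type*} {S : Finset ι} {f : ι → MvPolynomial (Fin 2) Ω}
    (h : ∀ i ∈ S, GeP v r (f i)) : GeP v r (∑ i ∈ S, f i) := fun g => by
  rw [coeff_sum]
  exact RVal.Ge.sum _ _ fun i hi => h i hi g

theorem GeP.mul (h : GeP v r A) (h' : GeP v s B) : GeP v (r + s) (A * B) := fun g => by
  classical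
  rw [coeff_mul]
  exact RVal.Ge.sum _ _ fun i _ => (h _).mul (h' _)

theorem GeP.C' {a : Ω} (ha : v.Ge r a) : GeP v r (C a : MvPolynomial (Fin 2) Ω) := fun g => by
  classical
  rw [coeff_C]
  split_ifs
  exacts [ha, RVal.Ge.zero]

theorem GeP.X' (hk : Ctx0 k v) (i : Fin 2) : GeP v 0 (X i : MvPolynomial (Fin 2) Ω) := fun g => by
  classical
  rw [coeff_X]
  split_ifs
  · have := hk.ge (1 : k)
    rwa [map_one] at this
  · exact RVal.Ge.zero

theorem GeP.one (hk : Ctx0 k v) : GeP v 0 (1 : MvPolynomial (Fin 2) Ω) := by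
  have h1 : v.Ge 0 (1 : Ω) := by
    have := hk.ge (1 : k)
    rwa [map_one] at this
  have h2 := GeP.C' h1
  rwa [C_1] at h2

theorem GeP.pow (hk : Ctx0 k v) (h : GeP v r A) (n : ℕ) : GeP v (n * r) (A ^ n) := by
  induction n with
  | zero =>
    rw [Nat.cast_zero, zero_mul, pow_zero]
    exact GeP.one hk
  | succ n ih =>
    rw [pow_succ]
    have h1 := ih.mul h
    have e : ((n + 1 : ℕ) : ℝ) * r = n * r + r := by push_cast; ring
    rwa [e]

theorem GeP.eval (hk : Ctx0 k v) (h : GeP v r A) (c : Fin 2 → k) : v.Ge r (eval (pt c) A) := by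
  rw [eval_eq']
  refine RVal.Ge.sum _ _ fun g _ => ?_
  have h1 : v.Ge 0 (∏ i, pt (Ω := Ω) c i ^ g i) := by
    have e : (∏ i, pt (Ω := Ω) c i ^ g i) = algebraMap k Ω (∏ i, c i ^ g i) := by
      rw [map_prod]
      simp only [map_pow, TWCY.pt]
    rw [e]
    exact hk.ge _
  have h2 := (h g).mul h1
  rwa [add_zero] at h2

/-- The polynomial `δ(X₀)`. -/
theorem GeP.of_poly (hk : Ctx0 k v) (hδ : ∀ j, v.Ge r (δ.coeff j)) :
    GeP v r (Polynomial.aeval (X 0 : MvPolynomial (Fin 2) Ω) δ) := by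
  rw [Polynomial.aeval_eq_sum_range]
  refine GeP.sum fun j _ => ?_
  rw [smul_eq_C_mul]
  have h1 := (GeP.C' (hδ j)).mul ((GeP.X' hk 0).pow hk j)
  rwa [mul_zero, add_zero] at h1

end GeP

/-! ### Substitutions -/

/-- `X₁ ↦ X₁ + δ(X₀)`. -/
noncomputable def sh (δ : Polynomial Ω) : Fin 2 → MvPolynomial (Fin 2) Ω :=
  ![X 0, X 1 + Polynomial.aeval (X 0) δ]

/-- `(w + X₀, u + U(X₀) + X₁)`. -/
noncomputable def Ot (w u : Ω) (U : Polynomial Ω) : Fin 2 → MvPolynomial (Fin 2) Ω :=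
  ![X 0 + C w, X 1 + C u + Polynomial.aeval (X 0) U]

theorem aeval_eq_sum (L : Fin 2 → MvPolynomial (Fin 2) Ω) (A : MvPolynomial (Fin 2) Ω) :
    aeval L A = ∑ m ∈ A.support, C (coeff m A) * (L 0 ^ m 0 * L 1 ^ m 1) := by
  rw [aeval_def, eval₂_eq', algebraMap_eq]
  refine Finset.sum_congr rfl fun m _ => ?_
  rw [Fin.prod_univ_two]

theorem GeP.sh (hk : Ctx0 k v) {r η : ℝ} {A : MvPolynomial (Fin 2) Ω} (h : GeP v r A) {N : ℕ}
    (hN : ∀ m ∈ A.support, m 1 ≤ N) (hη : 0 ≤ η) (hδ : ∀ j, v.Ge (-η) (δ.coeff j)) :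
    GeP v (r - N * η) (aeval (sh δ) A) := by
  rw [aeval_eq_sum]
  refine GeP.sum fun m hm => ?_
  have h1 : GeP v (-η) (Z8.sh δ 1) := by
    show GeP v (-η) (X 1 + Polynomial.aeval (X 0) δ)
    exact ((GeP.X' hk 1).mono (by linarith)).add (GeP.of_poly hk hδ)
  have h2 : GeP v 0 (Z8.sh δ 0) := GeP.X' hk 0
  have h3 := (GeP.C' (h m)).mul ((h2.pow hk (m 0)).mul (h1.pow hk (m 1)))
  refine h3.mono ?_
  have h4 : ((m 1 : ℕ) : ℝ) ≤ N := by exact_mod_cast hN m hm
  have h5 : ((m 1 : ℕ) : ℝ) * η ≤ N * η := mul_le_mul_of_nonneg_right h4 hη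
  rw [mul_zero, zero_add, mul_neg]
  linarith

theorem sh_ot (P : MvPolynomial (Fin 2) Ω) :
    aeval (sh δ) (aeval (Ot w u U) P) = aeval (Ot w u (U + δ)) P := by
  have h1 : (aeval (sh δ) : MvPolynomial (Fin 2) Ω →ₐ[Ω] _).comp (aeval (Ot w u U)) =
      aeval (Ot w u (U + δ)) := by
    refine MvPolynomial.algHom_ext fun i => ?_
    rw [AlgHom.comp_apply, aeval_X, aeval_X]
    fin_cases i
    · show aeval (sh δ) (X 0 + C w) = X 0 + C w
      rw [map_add, aeval_X, aeval_C]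
      rfl
    · show aeval (sh δ) (X 1 + C u + Polynomial.aeval (X 0) U) =
        X 1 + C u + Polynomial.aeval (X 0) (U + δ)
      rw [map_add, map_add, aeval_X, aeval_C, ← Polynomial.aeval_algHom_apply, aeval_X, map_add]
      show (X 1 + Polynomial.aeval (X 0) δ) + C u + Polynomial.aeval (X 0) U = _
      ring
  exact DFunLike.congr_fun h1 P

/-- The values of the orbit polynomial. -/
theorem eval_ot (hfix : ∀ c, ∀ f ∈ W, T c f = f) (hw : ∀ c, T c w = w + algebraMap k Ω (c 0))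
    (hu : ∀ c, T c u = u + U.eval (algebraMap k Ω (c 0)) + algebraMap k Ω (c 1))
    {P : MvPolynomial (Fin 2) Ω} (hP : ∀ g, coeff g P ∈ W) (c : Fin 2 → k) :
    eval (pt c) (aeval (Ot w u U) P) = T c (eval ![w, u] P) := by
  rw [eval_aeval, eval_eq', eval_eq', map_sum]
  refine Finset.sum_congr rfl fun g _ => ?_
  rw [map_mul, hfix c _ (hP g), map_prod, Fin.prod_univ_two, Fin.prod_univ_two, map_pow, map_pow]
  have e0 : eval (pt c) (Ot w u U 0) = T c (![w, u] 0) := by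
    show eval (pt c) (X 0 + C w) = T c w
    rw [map_add, eval_X, eval_C, hw]
    show algebraMap k Ω (c 0) + w = _
    ring
  have e1 : eval (pt c) (Ot w u U 1) = T c (![w, u] 1) := by
    show eval (pt c) (X 1 + C u + Polynomial.aeval (X 0) U) = T c u
    have e2 : eval (pt c) (Polynomial.aeval (X 0 : MvPolynomial (Fin 2) Ω) U) =
        U.eval (algebraMap k Ω (c 0)) := by
      rw [Polynomial.aeval_eq_sum_range, map_sum, Polynomial.eval_eq_sum_range]
      refine Finset.sum_congr rfl fun j _ => ?_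
      rw [smul_eq_C_mul, map_mul, eval_C, map_pow, eval_X]
      rfl
    rw [map_add, map_add, eval_X, eval_C, e2, hu]
    show algebraMap k Ω (c 1) + u + _ = _
    ring
  rw [e0, e1]

/-! ### Degrees -/

theorem dg_le_totalDegree {A : MvPolynomial (Fin 2) Ω} {g : Ex} (h : coeff g A ≠ 0) :
    dg g ≤ A.totalDegree := by
  have h1 := le_totalDegree (mem_support_iff.2 h)
  rw [Finsupp.sum_fintype _ _ (fun _ => rfl), Fin.sum_univ_two] at h1
  exact h1

theorem totalDegree_ot {P : MvPolynomial (Fin 2) Ω} {d : ℕ} (hd : U.natDegree ≤ d) :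
    (aeval (Ot w u U) P).totalDegree ≤ P.totalDegree * (d + 1) := by
  have hX : ∀ i : Fin 2, (X i : MvPolynomial (Fin 2) Ω).totalDegree ≤ 1 := fun i => by
    rw [totalDegree_X]
  have hp : (Polynomial.aeval (X 0 : MvPolynomial (Fin 2) Ω) U).totalDegree ≤ d := by
    rw [Polynomial.aeval_eq_sum_range]
    refine totalDegree_finsetSum_le fun j hj => ?_
    refine (totalDegree_smul_le _ _).trans ((totalDegree_pow _ _).trans ?_)
    have h1 := Finset.mem_range.1 hj
    have h2 := hX 0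
    calc j * (X 0 : MvPolynomial (Fin 2) Ω).totalDegree ≤ j * 1 := Nat.mul_le_mul_left _ h2
      _ ≤ d := by omega
  have h0 : (Ot w u U 0).totalDegree ≤ d + 1 := by
    show (X 0 + C w : MvPolynomial (Fin 2) Ω).totalDegree ≤ _
    refine (totalDegree_add _ _).trans (max_le ((hX 0).trans (by omega)) ?_)
    rw [totalDegree_C]
    omega
  have h1 : (Ot w u U 1).totalDegree ≤ d + 1 := by
    show (X 1 + C u + Polynomial.aeval (X 0) U : MvPolynomial (Fin 2) Ω).totalDegree ≤ _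
    refine (totalDegree_add _ _).trans (max_le ((totalDegree_add _ _).trans
      (max_le ((hX 1).trans (by omega)) ?_)) (hp.trans (by omega)))
    rw [totalDegree_C]
    omega
  rw [aeval_eq_sum]
  refine totalDegree_finsetSum_le fun m hm => ?_
  refine (totalDegree_mul _ _).trans ?_
  rw [totalDegree_C, zero_add]
  refine (totalDegree_mul _ _).trans ?_
  have h2 : (Ot w u U 0 ^ m 0).totalDegree ≤ m 0 * (d + 1) :=
    (totalDegree_pow _ _).trans (Nat.mul_le_mul_left _ h0)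
  have h3 : (Ot w u U 1 ^ m 1).totalDegree ≤ m 1 * (d + 1) :=
    (totalDegree_pow _ _).trans (Nat.mul_le_mul_left _ h1)
  have h4 : m 0 + m 1 ≤ P.totalDegree := dg_le_totalDegree (mem_support_iff.1 hm)
  calc (Ot w u U 0 ^ m 0).totalDegree + (Ot w u U 1 ^ m 1).totalDegree
      ≤ m 0 * (d + 1) + m 1 * (d + 1) := add_le_add h2 h3
    _ = (m 0 + m 1) * (d + 1) := by ring
    _ ≤ P.totalDegree * (d + 1) := Nat.mul_le_mul_right _ h4

/-! ### Real perturbations -/

/-- There is a real polynomial near `U`. -/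
theorem exists_real {C₀ : IntermediateField k Ω} (hU0 : U.coeff 0 = 0)
    (hUl : ∀ j, Lim v C₀ 0 (U.coeff j)) {η : ℝ} (hη : 0 < η) : ∃ δ : Polynomial Ω,
      δ.coeff 0 = 0 ∧ δ.natDegree ≤ U.natDegree ∧ (∀ j, v.Ge (-η) (δ.coeff j)) ∧
      (∀ j, (U + δ).coeff j ∈ C₀) ∧ ∀ j, U.coeff j = 0 → δ.coeff j = 0 := by
  classical
  have h1 : ∀ j, ∃ f ∈ C₀, v.Ge (-η) (f - U.coeff j) ∧ (U.coeff j = 0 → f = 0) := by
    intro j
    by_cases h0 : U.coeff j = 0
    · exact ⟨0, C₀.zero_mem, by rw [h0, sub_zero]; exact RVal.Ge.zero, fun _ => rfl⟩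
    · obtain ⟨f, hf, h2⟩ := hUl j η hη
      refine ⟨f, hf, ?_, fun h => absurd h h0⟩
      have h3 := h2.neg
      rw [neg_sub, zero_sub] at h3
      exact h3
  choose f hf hfn hf0 using h1
  have hco : ∀ j, (∑ i ∈ Finset.range (U.natDegree + 1),
      Polynomial.monomial i (f i - U.coeff i)).coeff j = f j - U.coeff j := by
    intro j
    rw [Polynomial.finsetSum_coeff]
    simp_rw [Polynomial.coeff_monomial]
    by_cases hj : j ∈ Finset.range (U.natDegree + 1)
    · rw [Finset.sum_eq_single_of_mem j hj fun i _ hij => if_neg hij, if_pos rfl]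
    · have h2 : U.coeff j = 0 := Polynomial.coeff_eq_zero_of_natDegree_lt (by
        rw [Finset.mem_range] at hj
        omega)
      rw [Finset.sum_eq_zero fun i hi => if_neg fun h => hj (by rw [← h]; exact hi), h2, hf0 j h2,
        sub_zero]
  refine ⟨∑ i ∈ Finset.range (U.natDegree + 1), Polynomial.monomial i (f i - U.coeff i), ?_, ?_,
    fun j => ?_, fun j => ?_, fun j hj => ?_⟩
  · rw [hco, hU0, hf0 0 hU0, sub_zero]
  · refine Polynomial.natDegree_sum_le_of_forall_le _ _ fun i hi => ?_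
    exact (Polynomial.natDegree_monomial_le _).trans (by
      have := Finset.mem_range.1 hi
      omega)
  · rw [hco]
    exact hfn j
  · rw [Polynomial.coeff_add, hco, add_sub_cancel]
    exact hf j
  · rw [hco, hj, hf0 j hj, sub_zero]

/-- The orbit polynomials for a real `U`. -/
theorem ot_mem (hWF : W ≤ F) (hw : w ∈ F) (hu : u ∈ F) (hU : ∀ j, U.coeff j ∈ F)
    {P : MvPolynomial (Fin 2) Ω} (hP : ∀ g, coeff g P ∈ W) :
    aeval (Ot w u U) P ∈ PI2 F := by
  rw [aeval_eq_sum]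
  have h0 : Ot w u U 0 ∈ PI2 F := by
    show (X 0 + C w : MvPolynomial (Fin 2) Ω) ∈ PI2 F
    exact add_mem (X_mem_PI2 0) (C_mem_PI2 hw)
  have h1 : Ot w u U 1 ∈ PI2 F := by
    show (X 1 + C u + Polynomial.aeval (X 0) U : MvPolynomial (Fin 2) Ω) ∈ PI2 F
    refine add_mem (add_mem (X_mem_PI2 1) (C_mem_PI2 hu)) ?_
    rw [Polynomial.aeval_eq_sum_range]
    refine sum_mem fun j _ => ?_
    rw [smul_eq_C_mul]
    exact mul_mem (C_mem_PI2 (hU j)) (pow_mem (X_mem_PI2 0) j)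
  exact sum_mem fun m _ => mul_mem (C_mem_PI2 (hWF (hP m))) (mul_mem (pow_mem h0 _) (pow_mem h1 _))

/-! ### The coefficients of large degree are small -/

section fin

variable {p : ℕ} [hp : Fact p.Prime] [CharP Ω p] {κ : ℕ → k} {t : ℕ}

/-- The relation for real coefficients gives small coefficients. -/
theorem small_of_rel (hk : Ctx0 k v) {D : Ω → Ω} (hD : Drv v F D) (hx0 : D x ≠ 0)
    (hx : v (D x) = 0) (hκt : κ t ≠ 0) {e : k} {P : MvPolynomial (Fin 2) Ω}
    (hP : ∀ g, coeff g P ∈ F) {B : ℕ} {ε : ℝ} (hε : 0 < ε)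
    (hrel : ∀ g, B < dg g → v.Ge (-ε) (algebraMap k Ω e * D (coeff (p ^ (t + 1) • g) P) +
      (∑ i ∈ Finset.range (t + 1), algebraMap k Ω (κ i) *
        coeff (p ^ (t - i) • g) P ^ p ^ (i + 1)) * D x)) :
    ∀ g, B < dg g → v.Ge (-ε) (coeff g P) := by
  obtain ⟨M, hM⟩ : ∃ M : ℕ, ∀ g ∈ P.support, dg g ≤ M :=
    ⟨P.support.sup dg, fun g hg => Finset.le_sup hg⟩
  have key : ∀ m : ℕ, ∀ g, B < dg g → M < dg g + m → v.Ge (-ε) (coeff g P) := by
    intro m
    induction m with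
    | zero =>
      intro g _ hg
      rw [notMem_support_iff.1 fun h1 => absurd (hM g h1) (by omega)]
      exact RVal.Ge.zero
    | succ m ih =>
      intro g hg hgM
      have hpos : 0 < dg g := by omega
      have h1 : ∀ j, j ≠ 0 → v.Ge (-ε) (coeff (p ^ j • g) P) := fun j hj => by
        have := dg_pow_smul (p := p) j hj hpos
        exact ih _ (by omega) (by omega)
      have h2 := (hrel g hg).sub (((hk.ge e).mul (hD.norm _ (hP _) _
        (h1 (t + 1) (by omega)))).mono (by linarith : -ε ≤ 0 + -ε))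
      rw [add_sub_cancel_left] at h2
      have h3 : v.Ge (-ε) (∑ i ∈ Finset.range (t + 1), algebraMap k Ω (κ i) *
            coeff (p ^ (t - i) • g) P ^ p ^ (i + 1)) := by
        have h4 := h2.mul (RVal.Ge.of_le (v.map_inv hx0).ge : v.Ge (-v (D x)) (D x)⁻¹)
        rw [mul_assoc, mul_inv_cancel₀ hx0, mul_one, hx] at h4
        exact h4.mono (by linarith)
      have hpt : (1 : ℝ) ≤ (p : ℝ) ^ t := one_le_pow₀ (by exact_mod_cast hp.out.one_lt.le)
      have h5 : v.Ge (-((p : ℝ) ^ t * ε)) (algebraMap k Ω (κ t) * coeff g P ^ p ^ (t + 1)) := by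
        rw [Finset.sum_range_succ, Nat.sub_self, pow_zero, one_smul] at h3
        have h6 : v.Ge (-((p : ℝ) ^ t * ε)) (∑ i ∈ Finset.range t, algebraMap k Ω (κ i) *
            coeff (p ^ (t - i) • g) P ^ p ^ (i + 1)) := by
          refine RVal.Ge.sum _ _ fun i hi => ?_
          have hi' := Finset.mem_range.1 hi
          refine ((hk.ge (κ i)).mul (TWM.ge_pow (h1 (t - i) (by omega)) (p ^ (i + 1)))).mono ?_
          have h7 : (p : ℝ) ^ (i + 1) ≤ (p : ℝ) ^ t :=
            pow_le_pow_right₀ (by exact_mod_cast hp.out.one_lt.le) (by omega)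
          push_cast
          nlinarith
        have h8 := (h3.mono (by nlinarith : -((p : ℝ) ^ t * ε) ≤ -ε)).sub h6
        rwa [add_sub_cancel_left] at h8
      intro hne
      have hκ : algebraMap k Ω (κ t) ≠ 0 := by
        rw [Ne, _root_.map_eq_zero]
        exact hκt
      have h9 := h5 (mul_ne_zero hκ (pow_ne_zero _ hne))
      rw [v.map_mul hκ (pow_ne_zero _ hne), hk.triv _ hκt, v.map_pow hne, zero_add] at h9
      push_cast at h9
      by_contra hcon
      push Not at hcon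
      have h10 : (p : ℝ) ^ (t + 1) * v (coeff g P) < (p : ℝ) ^ (t + 1) * (-ε) :=
        mul_lt_mul_of_pos_left hcon (pow_pos (by exact_mod_cast hp.out.pos) _)
      have h11 : (p : ℝ) ^ t ≤ (p : ℝ) ^ (t + 1) :=
        pow_le_pow_right₀ (by exact_mod_cast hp.out.one_lt.le) (by omega)
      nlinarith
  intro g hg
  exact key (M + 1) g hg (by omega)

/-- The frame. -/
structure Frz (v : RVal Ω) (W C₀ : IntermediateField k Ω) (w u : Ω)
    (T : (Fin 2 → k) → Ω →ₐ[k] Ω) (U : Polynomial Ω) : Prop where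
  iso : ∀ c, IsoE v v (T c)
  fix : ∀ c, ∀ f ∈ W, T c f = f
  tw : ∀ c, T c w = w + algebraMap k Ω (c 0)
  tu : ∀ c, T c u = u + U.eval (algebraMap k Ω (c 0)) + algebraMap k Ω (c 1)
  U0 : U.coeff 0 = 0
  lim : ∀ j, Lim v C₀ 0 (U.coeff j)

/-- The tie, in polynomials. -/
def TieP (p : ℕ) (v : RVal Ω) (W : IntermediateField k Ω) (w u x z : Ω) (e : k) (κ : ℕ → k)
    (t : ℕ) (Pa : MvPolynomial (Fin 2) Ω) : Prop :=
  ∀ ε : ℝ, 0 < ε → ∃ θ h : MvPolynomial (Fin 2) Ω, (∀ g, coeff g θ ∈ W) ∧ (∀ g, coeff g h ∈ W) ∧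
    (e ≠ 0 → ∀ g, coeff g θ ≠ 0 → DvE p g) ∧ v.Ge (-ε) (z - eval ![w, u] θ) ∧
    v.Ge (-ε) (algebraMap k Ω e * eval ![w, u] θ + x * PP p κ t (eval ![w, u] θ) +
      eval ![w, u] Pa - eval ![w, u] h ^ p)

/-- **The coefficients of large degree are small.** -/
theorem small_tie [Infinite k] [CharP k p] (hk : Ctx0 k v) (hWF : W ≤ F) (hCF : C₀ ≤ F) (hw : w ∈ F) (hu : u ∈ F)
    (hT : Frz v W C₀ w u T U) (hxW : x ∈ W) {D : Ω → Ω} (hD : Drv v F D) (hx0 : D x ≠ 0)
    (hx : v (D x) = 0) (hκt : κ t ≠ 0) {e : k} {Pa : MvPolynomial (Fin 2) Ω}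
    (hPa : ∀ g, coeff g Pa ∈ W) (h : TieP p v W w u x z e κ t Pa) :
    ∃ B : ℕ, ∀ ε : ℝ, 0 < ε → ∃ θ : MvPolynomial (Fin 2) Ω, (∀ g, coeff g θ ∈ W) ∧
      (e ≠ 0 → ∀ g, coeff g θ ≠ 0 → DvE p g) ∧ v.Ge (-ε) (z - eval ![w, u] θ) ∧
      ∀ g, B < dg g → v.Ge (-ε) (coeff g (aeval (Ot w u U) θ)) := by
  set B : ℕ := Pa.totalDegree * (U.natDegree + 1) with hB
  refine ⟨B * (U.natDegree + 1) + B, fun ε₀ hε₀ => ?_⟩
  set ε : ℝ := ε₀ / 3 with hε'
  have hε : 0 < ε := by positivity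
  obtain ⟨θ, h', hθ, hh, hθp, hzθ, htie⟩ := h ε hε
  refine ⟨θ, hθ, hθp, hzθ.mono (by linarith), ?_⟩
  -- the error polynomial
  set Θ : MvPolynomial (Fin 2) Ω := aeval (Ot w u U) θ with hΘ
  set E : MvPolynomial (Fin 2) Ω := C (algebraMap k Ω e) * Θ +
    C x * (∑ i ∈ Finset.range (t + 1), C (algebraMap k Ω (κ i)) * Θ ^ p ^ (i + 1)) +
    aeval (Ot w u U) Pa - (aeval (Ot w u U) h') ^ p with hE
  have h1 : GeP v (-ε) E := by
    refine ge_coeff hk fun c => ?_
    have e1 : eval (TWCY.pt c) E = T c (algebraMap k Ω e * eval ![w, u] θ +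
        x * PP p κ t (eval ![w, u] θ) + eval ![w, u] Pa - eval ![w, u] h' ^ p) := by
      rw [hE]
      simp only [map_sub, map_add, map_mul, map_pow, map_sum, eval_C]
      rw [hΘ, eval_ot hT.fix hT.tw hT.tu hθ, eval_ot hT.fix hT.tw hT.tu hPa,
        eval_ot hT.fix hT.tw hT.tu hh, AlgHom.commutes, PP_map, hT.fix c x hxW]
      rfl
    rw [e1]
    exact (hT.iso c).ge_iff.2 htie
  -- the real perturbation
  obtain ⟨η, hη, hηN⟩ : ∃ η : ℝ, 0 < η ∧ ((E.totalDegree + θ.totalDegree * (U.natDegree + 1) : ℕ) : ℝ) *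
      η ≤ ε := by
    refine ⟨ε / ((E.totalDegree + θ.totalDegree * (U.natDegree + 1) : ℕ) + 1), by positivity, ?_⟩
    rw [mul_div_assoc']
    rw [div_le_iff₀ (by positivity)]
    nlinarith
  obtain ⟨δ, hδ0, hδd, hδη, hδC, -⟩ := exists_real hT.U0 hT.lim hη
  have hUd : (U + δ).natDegree ≤ U.natDegree :=
    (Polynomial.natDegree_add_le _ _).trans (max_le le_rfl hδd)
  have hco1 : ∀ (A : MvPolynomial (Fin 2) Ω) (m : Ex), m ∈ A.support → m 1 ≤ A.totalDegree := by
    intro A m hm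
    have := dg_le_totalDegree (mem_support_iff.1 hm)
    unfold dg at this
    omega
  have h2 : GeP v (-(2 * ε)) (aeval (sh δ) E) := by
    refine (h1.sh hk (hco1 E) hη.le hδη).mono ?_
    have h3 : ((E.totalDegree : ℕ) : ℝ) * η ≤ ε := by
      refine le_trans ?_ hηN
      push_cast
      have h4 : (0 : ℝ) ≤ (θ.totalDegree : ℝ) * (U.natDegree + 1) * η := by positivity
      nlinarith
    linarith
  set Θf : MvPolynomial (Fin 2) Ω := aeval (Ot w u (U + δ)) θ with hΘf
  have h3 : aeval (sh δ) E = C (algebraMap k Ω e) * Θf +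
      C x * (∑ i ∈ Finset.range (t + 1), C (algebraMap k Ω (κ i)) * Θf ^ p ^ (i + 1)) +
      aeval (Ot w u (U + δ)) Pa - (aeval (Ot w u (U + δ)) h') ^ p := by
    rw [hE]
    simp only [map_sub, map_add, map_mul, map_pow, map_sum, aeval_C, algebraMap_eq]
    rw [hΘ, sh_ot, sh_ot, sh_ot]
  rw [h3] at h2
  have hUF : ∀ j, (U + δ).coeff j ∈ F := fun j => hCF (hδC j)
  have hΘF : Θf ∈ PI2 F := ot_mem hWF hw hu hUF hθ
  have hHF := ot_mem hWF hw hu hUF hh
  -- small coefficients of the real orbit polynomial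
  have h4 : ∀ g, B < dg g → v.Ge (-(2 * ε)) (coeff g Θf) := by
    refine small_of_rel hk hD hx0 hx hκt (e := e) hΘF (by linarith) fun g hg => ?_
    have h5 := h2 (p ^ (t + 1) • g)
    have hg0 : p ^ (t + 1) • g ≠ 0 := by
      intro h0
      have h3 : dg (p ^ (t + 1) • g) = 0 := dg_eq_zero.2 h0
      rw [dg_smul] at h3
      rcases Nat.mul_eq_zero.1 h3 with h4 | h4
      · exact (pow_ne_zero _ hp.out.ne_zero) h4
      · omega
    have hA0 : coeff (p ^ (t + 1) • g) (aeval (Ot w u (U + δ)) Pa) = 0 := by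
      by_contra hne
      have h6 := dg_le_totalDegree hne
      have h7 : (aeval (Ot w u (U + δ)) Pa).totalDegree ≤ B := totalDegree_ot hUd
      have h8 := dg_pow_smul (p := p) (t + 1) (by omega) (g := g) (by omega)
      omega
    have e4 : coeff (p ^ (t + 1) • g) (C (algebraMap k Ω e) * Θf +
        C x * (∑ i ∈ Finset.range (t + 1), C (algebraMap k Ω (κ i)) * Θf ^ p ^ (i + 1)) +
        aeval (Ot w u (U + δ)) Pa - (aeval (Ot w u (U + δ)) h') ^ p) =
        algebraMap k Ω e * coeff (p ^ (t + 1) • g) Θf +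
        x * (∑ i ∈ Finset.range (t + 1), algebraMap k Ω (κ i) *
          coeff (p ^ (t - i) • g) Θf ^ p ^ (i + 1)) -
        coeff (p ^ t • g) (aeval (Ot w u (U + δ)) h') ^ p := by
      rw [coeff_sub, coeff_add, coeff_add, coeff_C_mul, coeff_C_mul, coeff_sum, hA0, add_zero]
      congr 1
      · congr 2
        refine Finset.sum_congr rfl fun i hi => ?_
        have hi' : i + 1 + (t - i) = t + 1 := by
          have := Finset.mem_range.1 hi
          omega
        rw [coeff_C_mul, ← hi', pow_add, mul_smul, coeff_pow_smul]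
      · have e5 : p ^ (t + 1) • g = p ^ 1 • (p ^ t • g) := by
          rw [smul_smul, ← pow_add, add_comm]
        have e6 := coeff_pow_smul p (aeval (Ot w u (U + δ)) h') 1 (p ^ t • g)
        rw [← e5, pow_one] at e6
        exact e6
    rw [e4] at h5
    have hxF : x ∈ F := hWF hxW
    have hSF : (∑ i ∈ Finset.range (t + 1), algebraMap k Ω (κ i) *
        coeff (p ^ (t - i) • g) Θf ^ p ^ (i + 1)) ∈ F :=
      sum_mem fun i _ => mul_mem (F.algebraMap_mem _) (pow_mem (hΘF _) _)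
    have h6 := hD.norm _ (sub_mem (add_mem (mul_mem (F.algebraMap_mem _) (hΘF _))
      (mul_mem hxF hSF)) (pow_mem (hHF _) p)) _ h5
    rw [hD.map_sub (add_mem (mul_mem (F.algebraMap_mem _) (hΘF _)) (mul_mem hxF hSF))
      (pow_mem (hHF _) p), hD.map_pow_char (hHF _), sub_zero,
      hD.add _ (mul_mem (F.algebraMap_mem _) (hΘF _)) _ (mul_mem hxF hSF), hD.map_smul _ (hΘF _),
      hD.mul _ hxF _ hSF, hD.map_PP' fun i => hΘF (p ^ (t - i) • g), mul_zero, zero_add] at h6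
    exact h6
  -- back
  intro g hg
  classical
  have hback : Θ = aeval (sh (-δ)) Θf := by
    rw [hΘf, sh_ot, hΘ, add_neg_cancel_right]
  set lo : MvPolynomial (Fin 2) Ω := ∑ m ∈ Θf.support.filter (fun m => dg m ≤ B),
    monomial m (coeff m Θf) with hlo
  have hlo1 : ∀ m, coeff m lo = if dg m ≤ B then coeff m Θf else 0 := by
    intro m
    rw [hlo, coeff_sum]
    simp_rw [coeff_monomial]
    rw [Finset.sum_ite_eq']
    by_cases hm : dg m ≤ B
    · rw [if_pos hm]
      split_ifs with h5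
      · rfl
      · rw [Finset.mem_filter, not_and_or] at h5
        rcases h5 with h5 | h5
        · exact (notMem_support_iff.1 h5).symm
        · exact absurd hm h5
    · rw [if_neg hm]
      have h5 : m ∉ Θf.support.filter (fun m => dg m ≤ B) := fun h5 =>
        hm (Finset.mem_filter.1 h5).2
      exact if_neg h5
  have hhi : GeP v (-(2 * ε)) (Θf - lo) := by
    intro m
    rw [coeff_sub, hlo1]
    split_ifs with hm
    · rw [sub_self]; exact RVal.Ge.zero
    · rw [sub_zero]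
      exact h4 m (not_le.1 hm)
  have hhid : ∀ m ∈ (Θf - lo).support, m 1 ≤ θ.totalDegree * (U.natDegree + 1) := by
    intro m hm
    have h5 : coeff m Θf ≠ 0 := by
      intro h6
      refine (mem_support_iff.1 hm) ?_
      rw [coeff_sub, hlo1, h6]
      split_ifs <;> simp
    have h6 := dg_le_totalDegree h5
    have h7 : Θf.totalDegree ≤ θ.totalDegree * (U.natDegree + 1) := totalDegree_ot hUd
    unfold dg at h6
    omega
  have hδn : ∀ j, v.Ge (-η) ((-δ).coeff j) := fun j => by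
    rw [Polynomial.coeff_neg]
    exact (hδη j).neg
  have h5 := (hhi.sh hk hhid hη.le hδn) g
  have h6 : coeff g (aeval (sh (-δ)) lo) = 0 := by
    by_contra hne
    have h7 := dg_le_totalDegree hne
    have h8 : (aeval (sh (-δ)) lo).totalDegree ≤ lo.totalDegree * (U.natDegree + 1) := by
      have e1 : sh (-δ) = Ot 0 0 (-δ) := by
        funext i
        fin_cases i
        · show X 0 = X 0 + C 0
          rw [C_0, add_zero]
        · show X 1 + Polynomial.aeval (X 0) (-δ) = X 1 + C 0 + Polynomial.aeval (X 0) (-δ)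
          rw [C_0, add_zero]
      rw [e1]
      exact totalDegree_ot (by rw [Polynomial.natDegree_neg]; exact hδd)
    have h9 : lo.totalDegree ≤ B := by
      rw [hlo]
      refine totalDegree_finsetSum_le fun m hm => ?_
      refine (totalDegree_monomial_le _ _).trans ?_
      rw [Finsupp.sum_fintype _ _ (fun _ => rfl), Fin.sum_univ_two]
      exact (Finset.mem_filter.1 hm).2
    have h10 : lo.totalDegree * (U.natDegree + 1) ≤ B * (U.natDegree + 1) :=
      Nat.mul_le_mul_right _ h9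
    omega
  have h7 : coeff g Θ = coeff g (aeval (sh (-δ)) (Θf - lo)) := by
    rw [hback, map_sub, coeff_sub, h6, sub_zero]
  rw [h7]
  refine h5.mono ?_
  have h8 : ((θ.totalDegree * (U.natDegree + 1) : ℕ) : ℝ) * η ≤ ε := by
    refine le_trans ?_ hηN
    push_cast
    have h9 : (0 : ℝ) ≤ (E.totalDegree : ℝ) * η := by positivity
    nlinarith
  linarith

/-! ### The jets -/

/-- `y` is the jet of index `g` of `z`. -/
def JtP (v : RVal Ω) (W : IntermediateField k Ω) (w u z : Ω) (U : Polynomial Ω) (g : Ex)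
    (y : Ω) : Prop :=
  ∀ ε : ℝ, 0 < ε → ∀ θ : MvPolynomial (Fin 2) Ω, (∀ g, coeff g θ ∈ W) →
    v.Ge (-ε) (z - eval ![w, u] θ) → v.Ge (-ε) (y - coeff g (aeval (Ot w u U) θ))

/-- Two orbit polynomials. -/
theorem orb_sub' [Infinite k] (hk : Ctx0 k v) (hT : Frz v W C₀ w u T U) {ε : ℝ}
    {θ θ' : MvPolynomial (Fin 2) Ω} (hθ : ∀ g, coeff g θ ∈ W) (hθ' : ∀ g, coeff g θ' ∈ W)
    (h : v.Ge (-ε) (z - eval ![w, u] θ)) (h' : v.Ge (-ε) (z - eval ![w, u] θ')) (g : Ex) :
    v.Ge (-ε) (coeff g (aeval (Ot w u U) θ) - coeff g (aeval (Ot w u U) θ')) := by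
  rw [← coeff_sub]
  refine ge_coeff hk (fun c => ?_) g
  rw [map_sub, eval_ot hT.fix hT.tw hT.tu hθ, eval_ot hT.fix hT.tw hT.tu hθ', ← map_sub]
  refine (hT.iso c).ge_iff.2 ?_
  have e : eval ![w, u] θ - eval ![w, u] θ' = (z - eval ![w, u] θ') - (z - eval ![w, u] θ) := by
    ring
  rw [e]
  exact h'.sub h

theorem exists_jtP [Infinite k] (hk : Ctx0 k v) (hs : SphC v) (hT : Frz v W C₀ w u T U)
    (hz : ∀ ε : ℝ, 0 < ε → ∃ θ : MvPolynomial (Fin 2) Ω, (∀ g, coeff g θ ∈ W) ∧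
      v.Ge (-ε) (z - eval ![w, u] θ)) (g : Ex) : ∃ y : Ω, JtP v W w u z U g y := by
  have hpos : ∀ n : ℕ, (0 : ℝ) < 1 / ((n : ℝ) + 1) := fun n => Nat.one_div_pos_of_nat
  choose θ hθ hzθ using fun n : ℕ => hz _ (hpos n)
  have hle : ∀ n m : ℕ, n ≤ m → (1 : ℝ) / ((m : ℝ) + 1) ≤ 1 / ((n : ℝ) + 1) := fun n m h =>
    Nat.one_div_le_one_div h
  obtain ⟨y, hy⟩ := hs (fun n => coeff g (aeval (Ot w u U) (θ n)))
    (fun n => -(1 / ((n : ℝ) + 1))) (fun n m h => by
    refine orb_sub' hk hT (hθ m) (hθ n) ((hzθ m).mono ?_) (hzθ n) g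
    linarith [hle n m h])
  refine ⟨y, fun ε hε θ' hθ' hz' => ?_⟩
  obtain ⟨n, hn⟩ := exists_nat_one_div_lt hε
  have h2 := orb_sub' hk hT (hθ n) hθ' ((hzθ n).mono (by linarith)) hz' g
  have e : y - coeff g (aeval (Ot w u U) θ') = (y - coeff g (aeval (Ot w u U) (θ n))) +
      (coeff g (aeval (Ot w u U) (θ n)) - coeff g (aeval (Ot w u U) θ')) := by ring
  rw [e]
  exact ((hy n).mono (by linarith)).add h2

theorem not_dvE_ot {P : MvPolynomial (Fin 2) Ω} (hP : ∀ g, coeff g P ≠ 0 → DvE p g) {g : Ex}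
    (hg : ¬ DvE p g) : coeff g (aeval (Ot w u U) P) = 0 := by
  rw [aeval_eq_sum, coeff_sum]
  refine Finset.sum_eq_zero fun m hm => ?_
  have h1 := hP m (mem_support_iff.1 hm)
  obtain ⟨a, ha⟩ := h1 0
  obtain ⟨b, hb⟩ := h1 1
  rw [coeff_C_mul]
  have e : Ot w u U 0 ^ m 0 * Ot w u U 1 ^ m 1 = (Ot w u U 0 ^ a * Ot w u U 1 ^ b) ^ p ^ 1 := by
    rw [ha, hb, pow_one, mul_pow, ← pow_mul, ← pow_mul, mul_comm a p, mul_comm b p]
  rw [e]
  by_contra hne
  obtain ⟨n, hn, -⟩ := exists_of_coeff_pow (p := p) (Ot w u U 0 ^ a * Ot w u U 1 ^ b) 1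
    (e := g) (right_ne_zero_of_mul hne)
  refine hg fun i => ?_
  rw [hn, pow_one, Finsupp.smul_apply, smul_eq_mul]
  exact Dvd.intro _ rfl

theorem coeff_zero_ot {P : MvPolynomial (Fin 2) Ω} (hU0 : U.coeff 0 = 0) :
    coeff 0 (aeval (Ot w u U) P) = eval ![w, u] P := by
  have h1 : coeff 0 (aeval (Ot w u U) P) = eval 0 (aeval (Ot w u U) P) := by
    rw [← constantCoeff_eq, eval_zero]
  rw [h1, eval_aeval]
  congr 2
  funext i
  fin_cases i
  · show eval 0 (X 0 + C w) = w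
    rw [map_add, eval_X, eval_C, Pi.zero_apply, zero_add]
  · show eval 0 (X 1 + C u + Polynomial.aeval (X 0) U) = u
    have e2 : eval 0 (Polynomial.aeval (X 0 : MvPolynomial (Fin 2) Ω) U) = U.coeff 0 := by
      rw [Polynomial.aeval_eq_sum_range, map_sum, Finset.sum_eq_single 0]
      · simp [smul_eq_C_mul]
      · intro j _ hj
        rw [smul_eq_C_mul, map_mul, map_pow, eval_X, Pi.zero_apply, zero_pow hj, mul_zero]
      · intro h
        exact absurd (Finset.mem_range.2 (by omega)) h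
    rw [map_add, map_add, eval_X, eval_C, e2, hU0, Pi.zero_apply, zero_add, add_zero]

/-- **R8: the shape of `z`.** -/
theorem exists_Z [Infinite k] [CharP k p] (hk : Ctx0 k v) (hs : SphC v) (hWF : W ≤ F)
    (hCF : C₀ ≤ F) (hw : w ∈ F) (hu : u ∈ F) (hT : Frz v W C₀ w u T U) (hxW : x ∈ W) {D : Ω → Ω}
    (hD : Drv v F D) (hx0 : D x ≠ 0) (hx : v (D x) = 0) (hκt : κ t ≠ 0) {e : k}
    {Pa : MvPolynomial (Fin 2) Ω} (hPa : ∀ g, coeff g Pa ∈ W)
    (h : TieP p v W w u x z e κ t Pa) :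
    ∃ Z : MvPolynomial (Fin 2) Ω, coeff 0 Z = 0 ∧
      (∀ c, v.Ge 0 (T c z - z - eval (TWCY.pt c) Z)) ∧
      (e ≠ 0 → ∀ g, coeff g Z ≠ 0 → DvE p g) ∧ (∀ g, v.Ge 0 (coeff g Z) → coeff g Z = 0) ∧
      ∀ g, g ≠ 0 → JtP v W w u z U g (coeff g Z) := by
  classical
  obtain ⟨B, hB⟩ := small_tie hk hWF hCF hw hu hT hxW hD hx0 hx hκt hPa h
  have hz : ∀ ε : ℝ, 0 < ε → ∃ θ : MvPolynomial (Fin 2) Ω, (∀ g, coeff g θ ∈ W) ∧
      v.Ge (-ε) (z - eval ![w, u] θ) := fun ε hε => by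
    obtain ⟨θ, h1, -, h2, -⟩ := hB ε hε
    exact ⟨θ, h1, h2⟩
  choose y hy using exists_jtP hk hs hT hz
  have hyB : ∀ g, B < dg g → v.Ge 0 (y g) := fun g hg => by
    refine ge_zero_of_eps fun ε hε => ?_
    obtain ⟨θ, h1, -, h2, h3⟩ := hB ε hε
    have h4 := (hy g ε hε θ h1 h2).add (h3 g hg)
    rwa [sub_add_cancel] at h4
  have hyp : e ≠ 0 → ∀ g, ¬ DvE p g → v.Ge 0 (y g) := fun he g hg => by
    refine ge_zero_of_eps fun ε hε => ?_
    obtain ⟨θ, h1, h5, h2, h3⟩ := hB ε hε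
    have h4 := hy g ε hε θ h1 h2
    rwa [not_dvE_ot (h5 he) hg, sub_zero] at h4
  set S : Finset Ex := ((Finset.range (B + 1) ×ˢ Finset.range (B + 1)).image
    fun q => mk q.1 q.2).filter fun g => g ≠ 0 ∧ ¬ v.Ge 0 (y g) with hS
  have hmem : ∀ g, g ∈ S ↔ g ≠ 0 ∧ ¬ v.Ge 0 (y g) := by
    intro g
    rw [hS, Finset.mem_filter]
    refine ⟨fun h => h.2, fun h => ⟨?_, h⟩⟩
    have h1 : dg g ≤ B := by
      by_contra hcon
      exact h.2 (hyB g (not_le.1 hcon))
    refine Finset.mem_image.2 ⟨(g 0, g 1), ?_, mk_eta g⟩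
    rw [Finset.mem_product, Finset.mem_range, Finset.mem_range]
    unfold dg at h1
    constructor
    · change g 0 < B + 1
      omega
    · change g 1 < B + 1
      omega
  have hZ : ∀ g, coeff g (∑ g ∈ S, monomial g (y g)) = if g ∈ S then y g else 0 := by
    intro g
    rw [coeff_sum]
    simp_rw [coeff_monomial]
    rw [Finset.sum_ite_eq']
  set Z : MvPolynomial (Fin 2) Ω := ∑ g ∈ S, monomial g (y g) with hZdef
  have hjet : ∀ g, g ≠ 0 → JtP v W w u z U g (coeff g Z) := by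
    intro g hg ε hε θ hθ hzθ
    have h1 := hy g ε hε θ hθ hzθ
    rw [hZ]
    split_ifs with h2
    · exact h1
    · have h3 : v.Ge 0 (y g) := by
        by_contra h4
        exact h2 ((hmem g).2 ⟨hg, h4⟩)
      have e : (0 : Ω) - coeff g (aeval (Ot w u U) θ) =
          (y g - coeff g (aeval (Ot w u U) θ)) - y g := by ring
      rw [e]
      exact h1.sub (h3.mono (by linarith))
  refine ⟨Z, ?_, fun c => ?_, fun he g hg => ?_, fun g hg => ?_, hjet⟩
  · rw [hZ, if_neg fun h1 => ((hmem 0).1 h1).1 rfl]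
  · refine ge_zero_of_eps fun ε hε => ?_
    obtain ⟨θ, hθ, hzθ⟩ := hz ε hε
    have h1 : GeP v (-ε) (aeval (Ot w u U) θ - C (eval ![w, u] θ) - Z) := by
      intro g
      rw [coeff_sub, coeff_sub, coeff_C]
      by_cases hg : g = 0
      · rw [hg, if_pos rfl, coeff_zero_ot hT.U0, sub_self, zero_sub, hZ,
          if_neg fun h1 => ((hmem 0).1 h1).1 rfl, neg_zero]
        exact RVal.Ge.zero
      · rw [if_neg fun h => hg h.symm, sub_zero]
        have h2 := (hjet g hg ε hε θ hθ hzθ).neg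
        rwa [neg_sub] at h2
    have h2 := h1.eval hk c
    rw [map_sub, map_sub, eval_C, eval_ot hT.fix hT.tw hT.tu hθ] at h2
    have e : T c z - z - eval (TWCY.pt c) Z = (T c (z - eval ![w, u] θ) - (z - eval ![w, u] θ)) +
        (T c (eval ![w, u] θ) - eval ![w, u] θ - eval (TWCY.pt c) Z) := by
      rw [map_sub]; ring
    rw [e]
    exact (((hT.iso c).ge_iff.2 hzθ).sub hzθ).add h2
  · rw [hZ] at hg
    split_ifs at hg with h1
    · by_contra h2
      exact ((hmem g).1 h1).2 (hyp he g h2)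
    · exact absurd rfl hg
  · rw [hZ] at hg ⊢
    split_ifs with h1
    · rw [if_pos h1] at hg
      exact absurd hg ((hmem g).1 h1).2
    · rfl

end fin

end Pool.Agent.TWRB.Z8
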